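import Pool.Agent.Lib.MP_fd2900_lc.Z.Supply

namespace FdZ

variable {le : ℕ → ℕ → Bool} {io : ℕ → ℕ → ℕ} {s n p q : ℕ} {E pat : List Edge} {β : List ℕ}

/-- tuple of a new edge -/
theorem mkE_tuple (pe : Edge) (xs : List ℕ) : (mkE le io E s n xs pe).2 = inst xs pe.2 := by
  unfold mkE
  split_ifs <;> rfl

/-- the entries of the instantiation list -/
private theorem BatA_getD_lt (hlen : β.length = p) {k : ℕ} (hk : k < p) :
    (β ++ List.range' n q).getD k 0 = β.getD k 0 := by
  rw [List.getD_append _ _ _ _ (by omega)]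

private theorem BatA_getD_ge (hlen : β.length = p) {k : ℕ} (hk : p ≤ k) (hk2 : k < p + q) :
    (β ++ List.range' n q).getD k 0 = n + (k - p) := by
  rw [List.getD_append_right _ _ _ _ (by omega), hlen, List.getD_eq_getElem _ _ (by simp; omega)]
  simp

private theorem BatA_getD_mem (hlen : β.length = p) {k : ℕ} (hk : k < p) : β.getD k 0 ∈ β := by
  rw [List.getD_eq_getElem _ _ (by omega)]
  exact List.getElem_mem _

private theorem BatA_inj (hlen : β.length = p) (hnd : β.Nodup) (hlt : ∀ v ∈ β, v < n) {a b : ℕ}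
    (ha : a < p + q) (hb : b < p + q)
    (hab : (β ++ List.range' n q).getD a 0 = (β ++ List.range' n q).getD b 0) : a = b := by
  rcases Nat.lt_or_ge a p with h1 | h1 <;> rcases Nat.lt_or_ge b p with h2 | h2
  · rw [BatA_getD_lt hlen h1, BatA_getD_lt hlen h2, List.getD_eq_getElem _ _ (by omega),
      List.getD_eq_getElem _ _ (by omega)] at hab
    exact (List.Nodup.getElem_inj_iff hnd).1 hab
  · rw [BatA_getD_lt hlen h1, BatA_getD_ge hlen h2 hb] at hab
    have := hlt _ (BatA_getD_mem hlen h1)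
    omega
  · rw [BatA_getD_lt hlen h2, BatA_getD_ge hlen h1 ha] at hab
    have := hlt _ (BatA_getD_mem hlen h2)
    omega
  · rw [BatA_getD_ge hlen h1 ha, BatA_getD_ge hlen h2 hb] at hab
    omega

/-- new edges are inside `β` + new vertices, meet the new vertices and have distinct entries -/
theorem new_sub (h : Ok le io s n E p q pat β) {e : Edge} (he : e ∈ newEs le io E s n q pat β) :
    (∀ v ∈ e.2, v ∈ β ∨ (n ≤ v ∧ v < n + q)) ∧ (∃ v ∈ e.2, n ≤ v) ∧ e.2.Nodup := by
  obtain ⟨pe, hpe, rfl⟩ := List.mem_map.1 he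
  rw [mkE_tuple]
  have hlt := h.code.lt pe hpe
  refine ⟨?_, ?_, ?_⟩
  · intro v hv
    obtain ⟨k, hk, rfl⟩ := List.mem_map.1 hv
    rcases Nat.lt_or_ge k p with h1 | h1
    · left
      rw [BatA_getD_lt h.len h1]
      exact BatA_getD_mem h.len h1
    · right
      have := hlt k hk
      rw [BatA_getD_ge h.len h1 this]
      omega
  · obtain ⟨k, hk, hpk⟩ := h.code.new pe hpe
    refine ⟨_, List.mem_map.2 ⟨k, hk, rfl⟩, ?_⟩
    rw [BatA_getD_ge h.len hpk (hlt k hk)]
    omega
  · refine List.Nodup.map_on ?_ (h.code.nd pe hpe)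
    intro a ha b hb hab
    exact BatA_inj h.len h.nd h.lt (hlt a ha) (hlt b hb) hab

/-- the stage found by `fnode` is at most `s` -/
private theorem BatA_fnode (hle : ∀ r s, le r s = true → r ≤ s) (x y : ℕ) :
    (fnode le E s x y).getD 0 ≤ s := by
  unfold fnode
  cases hf : (E.find? fun e => decide (e.1.1 = 3) && le (e.1.2.getD 0 0) s && decide (e.2 = [x, y])) with
  | none => simp
  | some e =>
    have := List.find?_some hf
    simp only [Bool.and_eq_true] at this
    simpa using hle _ _ this.1.2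

/-- the new edges: kinds -/
theorem new_kind (hio : ∀ j r, io j r ≤ r) (hle : ∀ r s, le r s = true → r ≤ s) (h : Ok le io s n E p q pat β) {e : Edge}
    (he : e ∈ newEs le io E s n q pat β) :
    (∃ j, e.1 = (0, [j]) ∧ e.2.length = 5) ∨ (∃ j i, e.1 = (1, [j, i]) ∧ i ≤ s ∧ e.2.length = 3) ∨
    (∃ j, e.1 = (2, [j]) ∧ e.2.length = 4) ∨ (e.1 = (3, [s]) ∧ e.2.length = 2) := by
  obtain ⟨pe, hpe, rfl⟩ := List.mem_map.1 he
  rw [mkE_tuple]
  have hl : ∀ xs : List ℕ, (inst xs pe.2).length = pe.2.length := fun xs => by simp [inst]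
  rw [hl]
  rcases h.kinds pe hpe with ⟨j, h1, h2⟩ | ⟨j, i, h1, h3, h2⟩ | ⟨j, h1, h2⟩ | ⟨h1, h2⟩ | ⟨j, h1, h2⟩
  · left
    exact ⟨j, by simp [mkE, h1], h2⟩
  · right; left
    exact ⟨j, i, by simp [mkE, h1], h3.le, h2⟩
  · right; right; left
    exact ⟨j, by simp [mkE, h1], h2⟩
  · right; right; right
    exact ⟨by simp [mkE, h1], h2⟩
  · right; left
    by_cases hc : n ≤ (inst (β ++ List.range' n q) pe.2).getD 0 0 ∨ n ≤ (inst (β ++ List.range' n q) pe.2).getD 1 0
    · refine ⟨j, io j s, ?_, hio _ _, h2⟩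
      unfold mkE
      rw [if_neg (by rw [h1]; simp), if_pos (by rw [h1]), if_pos hc, h1]
      rfl
    · refine ⟨j, io j ((fnode le E s ((inst (β ++ List.range' n q) pe.2).getD 0 0)
        ((inst (β ++ List.range' n q) pe.2).getD 1 0)).getD 0), ?_, (hio _ _).trans (BatA_fnode hle _ _), h2⟩
      unfold mkE
      rw [if_neg (by rw [h1]; simp), if_pos (by rw [h1]), if_neg hc, h1]
      rfl

end FdZ
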