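import Pool.Agent.Lib.MP_fd2900_lc.Z.BatA

namespace FdZ

variable {le : ℕ → ℕ → Bool} {io : ℕ → ℕ → ℕ} {s n p q : ℕ} {E pat : List Edge} {β : List ℕ}

private theorem BatB_getD_lt (hlen : β.length = p) {k : ℕ} (hk : k < p) :
    (β ++ List.range' n q).getD k 0 = β.getD k 0 := by
  rw [List.getD_append _ _ _ _ (by omega)]

private theorem BatB_getD_ge (hlen : β.length = p) {k : ℕ} (hk : p ≤ k) (hk2 : k < p + q) :
    (β ++ List.range' n q).getD k 0 = n + (k - p) := by
  rw [List.getD_append_right _ _ _ _ (by omega), hlen, List.getD_eq_getElem _ _ (by simp; omega)]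
  simp

private theorem BatB_getD_mem (hlen : β.length = p) {k : ℕ} (hk : k < p) : β.getD k 0 ∈ β := by
  rw [List.getD_eq_getElem _ _ (by omega)]
  exact List.getElem_mem _

/-- the indices of the new points in `Z` -/
private def BatB_P (n p q : ℕ) (Z : Finset ℕ) : Finset ℕ :=
  (Finset.Ico p (p + q)).filter fun k => n + (k - p) ∈ Z

private theorem BatB_mem {Z : Finset ℕ} {k : ℕ} :
    k ∈ BatB_P n p q Z ↔ (p ≤ k ∧ k < p + q) ∧ n + (k - p) ∈ Z := by
  simp [BatB_P]

private theorem BatB_card (Z : Finset ℕ) : (BatB_P n p q Z).card ≤ Z.card := by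
  refine Finset.card_le_card_of_injOn (fun k => n + (k - p)) (fun k hk => (BatB_mem.1 hk).2) ?_
  intro a ha b hb hab
  have h1 := (BatB_mem.1 ha).1
  have h2 := (BatB_mem.1 hb).1
  simp only at hab
  omega

private theorem BatB_cnt_le (hc : Code p q pat) (Z : Finset ℕ) :
    cnt p pat (BatB_P n p q Z) ≤ (BatB_P n p q Z).card ∧
      ((BatB_P n p q Z).card ≤ cnt p pat (BatB_P n p q Z) → (BatB_P n p q Z).Nonempty →
        BatB_P n p q Z = Finset.Ico p (p + q)) := by
  rcases (BatB_P n p q Z).eq_empty_or_nonempty with h0 | h0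
  · rw [h0]
    refine ⟨?_, fun _ hne => absurd hne (by simp)⟩
    have : (pat.filter fun e => decide ((∀ k ∈ e.2, k < p ∨ k ∈ (∅ : Finset ℕ)) ∧
        ∃ k ∈ e.2, k ∈ (∅ : Finset ℕ))) = [] := by
      rw [List.filter_eq_nil_iff]
      intro e _
      simp
    unfold cnt
    rw [this]
    simp
  · have hsub : BatB_P n p q Z ⊆ Finset.Ico p (p + q) := Finset.filter_subset _ _
    by_cases hs : BatB_P n p q Z = Finset.Ico p (p + q)
    · refine ⟨?_, fun _ _ => hs⟩
      rw [hs, Nat.card_Ico]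
      have h1 : cnt p pat (Finset.Ico p (p + q)) ≤ pat.length := List.length_filter_le _ _
      rw [hc.len] at h1
      omega
    · have h1 := hc.min _ h0 (Finset.ssubset_iff_subset_ne.2 ⟨hsub, hs⟩)
      exact ⟨h1.le, fun h2 _ => absurd h1 (not_lt.2 h2)⟩

private theorem BatB_new (hE : ∀ e ∈ E, ∀ v ∈ e.2, v < n) {Z : Finset ℕ} (hZ : ∀ v ∈ Z, n ≤ v)
    {e : Edge} (he : e ∈ E ++ newEs le io E s n q pat β) (h : ∃ v ∈ e.2, v ∈ Z) :
    e ∈ newEs le io E s n q pat β := by
  obtain ⟨v, hv, hvZ⟩ := h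
  rcases List.mem_append.1 he with h1 | h1
  · have := hE e h1 v hv
    have := hZ v hvZ
    omega
  · exact h1

private theorem BatB_count (hE : ∀ e ∈ E, ∀ v ∈ e.2, v < n) (h : Ok le io s n E p q pat β)
    (Z : Finset ℕ) (hZ : ∀ v ∈ Z, n ≤ v) (L : Finset Edge)
    (hL : ∀ e ∈ L, e ∈ E ++ newEs le io E s n q pat β ∧ (∀ v ∈ e.2, v < n ∨ v ∈ Z) ∧
      ∃ v ∈ e.2, v ∈ Z) : L.card ≤ cnt p pat (BatB_P n p q Z) := by
  classical
  have hsub : L ⊆ (((pat.filter fun e => decide ((∀ k ∈ e.2, k < p ∨ k ∈ BatB_P n p q Z) ∧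
      ∃ k ∈ e.2, k ∈ BatB_P n p q Z))).map (mkE le io E s n (β ++ List.range' n q))).toFinset := by
    intro e he
    obtain ⟨h1, h2, h3⟩ := hL e he
    have h4 := BatB_new hE hZ h1 h3
    obtain ⟨pe, hpe, rfl⟩ := List.mem_map.1 h4
    rw [mkE_tuple] at h2 h3
    refine List.mem_toFinset.2 (List.mem_map.2 ⟨pe, List.mem_filter.2 ⟨hpe, ?_⟩, rfl⟩)
    have hlt := h.code.lt pe hpe
    refine decide_eq_true ⟨?_, ?_⟩
    · intro k hk
      rcases Nat.lt_or_ge k p with h5 | h5
      · exact Or.inl h5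
      · right
        have h6 := hlt k hk
        have h7 := h2 ((β ++ List.range' n q).getD k 0) (inst_mem.2 ⟨k, hk, rfl⟩)
        rw [BatB_getD_ge h.len h5 h6] at h7
        rcases h7 with h8 | h8
        · omega
        · exact BatB_mem.2 ⟨⟨h5, h6⟩, h8⟩
    · obtain ⟨v, hv, hvZ⟩ := h3
      obtain ⟨k, hk, rfl⟩ := inst_mem.1 hv
      have h6 := hlt k hk
      refine ⟨k, hk, ?_⟩
      rcases Nat.lt_or_ge k p with h5 | h5
      · rw [BatB_getD_lt h.len h5] at hvZ
        have h7 := h.lt _ (BatB_getD_mem h.len h5)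
        have h8 := hZ _ hvZ
        omega
      · rw [BatB_getD_ge h.len h5 h6] at hvZ
        exact BatB_mem.2 ⟨⟨h5, h6⟩, hvZ⟩
  refine (Finset.card_le_card hsub).trans ((List.toFinset_card_le _).trans ?_)
  rw [List.length_map]
  exact le_rfl

/-- at most `|Z|` edges meet a set `Z` of new vertices -/
theorem batch_few (hE : ∀ e ∈ E, ∀ v ∈ e.2, v < n) (h : Ok le io s n E p q pat β) (Z : Finset ℕ)
    (hZ : ∀ v ∈ Z, n ≤ v) (L : Finset Edge)
    (hL : ∀ e ∈ L, e ∈ E ++ newEs le io E s n q pat β ∧ (∀ v ∈ e.2, v < n ∨ v ∈ Z) ∧ ∃ v ∈ e.2, v ∈ Z) :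
    L.card ≤ Z.card :=
  (BatB_count hE h Z hZ L hL).trans ((BatB_cnt_le h.code Z).1.trans (BatB_card Z))

/-- if there are `|Z|` of them, `Z` is the set of all new vertices and all new edges are among them -/
theorem batch_full (hE : ∀ e ∈ E, ∀ v ∈ e.2, v < n) (h : Ok le io s n E p q pat β) (Z : Finset ℕ)
    (hZ : ∀ v ∈ Z, n ≤ v ∧ v < n + q) (hne : Z.Nonempty) (L : Finset Edge)
    (hL : ∀ e ∈ L, e ∈ E ++ newEs le io E s n q pat β ∧ (∀ v ∈ e.2, v < n ∨ v ∈ Z) ∧ ∃ v ∈ e.2, v ∈ Z)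
    (hc : Z.card ≤ L.card) :
    (∀ v, n ≤ v → v < n + q → v ∈ Z) ∧ ∀ e ∈ newEs le io E s n q pat β, e ∈ L := by
  classical
  have h1 := BatB_count hE h Z (fun v hv => (hZ v hv).1) L hL
  have h2 := BatB_cnt_le (n := n) h.code Z
  have h3 := BatB_card (n := n) (p := p) (q := q) Z
  have h4 : (BatB_P n p q Z).Nonempty := by
    obtain ⟨v, hv⟩ := hne
    have := hZ v hv
    refine ⟨p + (v - n), BatB_mem.2 ⟨by omega, ?_⟩⟩
    have h5 : n + (p + (v - n) - p) = v := by omega
    rw [h5]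
    exact hv
  have h5 := h2.2 (by omega) h4
  have h6 : (BatB_P n p q Z).card = q := by rw [h5, Nat.card_Ico]; omega
  constructor
  · intro v hv1 hv2
    have h7 : p + (v - n) ∈ BatB_P n p q Z := by
      rw [h5, Finset.mem_Ico]
      omega
    have h8 := (BatB_mem.1 h7).2
    have h9 : n + (p + (v - n) - p) = v := by omega
    rwa [h9] at h8
  · have hsub : L ⊆ (newEs le io E s n q pat β).toFinset := by
      intro e he
      obtain ⟨ha, _, hb⟩ := hL e he
      exact List.mem_toFinset.2 (BatB_new hE (fun v hv => (hZ v hv).1) ha hb)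
    have hcard : (newEs le io E s n q pat β).toFinset.card = q := by
      rw [List.toFinset_card_of_nodup h.esnd]
      simp [newEs, h.code.len]
    have heq := Finset.eq_of_subset_of_card_le hsub (by omega)
    intro e he
    rw [heq]
    exact List.mem_toFinset.2 he

/-- the old vertices are strong after the stage, in all views -/
theorem batch_strong (hE : ∀ e ∈ E, ∀ v ∈ e.2, v < n) (h : Ok le io s n E p q pat β) (V : ℕ → Prop) (k : ℕ) :
    Strong (lab io (es (E ++ newEs le io E s n q pat β)) V) (Set.Iio n) k := by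
  intro Z _ hZ L hL
  refine batch_few hE h Z (fun v hv => ?_) L fun e he => ?_
  · have := hZ v hv
    simpa using this
  · obtain ⟨⟨ℓ, h1⟩, h2, h3⟩ := hL e he
    exact ⟨h1.1, fun v hv => by simpa using h2 v hv, h3⟩

end FdZ
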