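import Mathlib

/-! closure properties of the computable functions and predicates, in compositional form -/

namespace FdZ.Cm

section

variable {α β γ σ : Type} [Primcodable α] [Primcodable β] [Primcodable γ] [Primcodable σ]

/-! functions -/

theorem c_id : Computable (fun a : α => a) := Computable.id

theorem c_const (b : β) : Computable (fun _ : α => b) := Computable.const b

theorem c_fst {f : α → β × γ} (hf : Computable f) : Computable (fun a => (f a).1) := Computable.fst.comp hf

theorem c_snd {f : α → β × γ} (hf : Computable f) : Computable (fun a => (f a).2) := Computable.snd.comp hf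

theorem c_pair {f : α → β} {g : α → γ} (hf : Computable f) (hg : Computable g) : Computable (fun a => (f a, g a)) :=
  hf.pair hg

theorem c_cons {f : α → β} {g : α → List β} (hf : Computable f) (hg : Computable g) :
    Computable (fun a => f a :: g a) := Computable.list_cons.comp hf hg

theorem c_app {f g : α → List β} (hf : Computable f) (hg : Computable g) :
    Computable (fun a => f a ++ g a) := Computable.list_append.comp hf hg

theorem c_len {f : α → List β} (hf : Computable f) : Computable (fun a => (f a).length) :=
  Computable.list_length.comp hf

theorem c_get? {f : α → List β} {g : α → ℕ} (hf : Computable f) (hg : Computable g) :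
    Computable (fun a => (f a)[g a]?) := Computable.list_getElem?.comp hf hg

theorem c_getD (d : β) {f : α → List β} {g : α → ℕ} (hf : Computable f) (hg : Computable g) :
    Computable (fun a => (f a).getD (g a) d) := (Primrec.list_getD d).to_comp.comp hf hg

theorem c_range {f : α → ℕ} (hf : Computable f) : Computable (fun a => List.range (f a)) :=
  Primrec.list_range.to_comp.comp hf

theorem c_add {f g : α → ℕ} (hf : Computable f) (hg : Computable g) : Computable (fun a => f a + g a) :=
  Primrec.nat_add.to_comp.comp hf hg

theorem c_mul {f g : α → ℕ} (hf : Computable f) (hg : Computable g) : Computable (fun a => f a * g a) :=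
  Primrec.nat_mul.to_comp.comp hf hg

theorem c_div {f g : α → ℕ} (hf : Computable f) (hg : Computable g) : Computable (fun a => f a / g a) :=
  Primrec.nat_div.to_comp.comp hf hg

theorem c_mod {f g : α → ℕ} (hf : Computable f) (hg : Computable g) : Computable (fun a => f a % g a) :=
  Primrec.nat_mod.to_comp.comp hf hg

theorem c_max {f g : α → ℕ} (hf : Computable f) (hg : Computable g) : Computable (fun a => max (f a) (g a)) :=
  Primrec.nat_max.to_comp.comp hf hg

theorem c_unpair {f : α → ℕ} (hf : Computable f) : Computable (fun a => (f a).unpair) :=
  Computable.unpair.comp hf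

theorem c_optGetD {f : α → Option β} {g : α → β} (hf : Computable f) (hg : Computable g) :
    Computable (fun a => (f a).getD (g a)) := Computable.option_getD hf hg

theorem c_optMap {f : α → Option β} {g : α → β → γ} (hf : Computable f)
    (hg : Computable (fun q : α × β => g q.1 q.2)) :
    Computable (fun a => (f a).map (g a)) := Computable.option_map hf hg

theorem c_isSome {f : α → Option β} (hf : Computable f) : Computable (fun a => (f a).isSome) :=
  Primrec.option_isSome.to_comp.comp hf

theorem c_head? {f : α → List β} (hf : Computable f) : Computable (fun a => (f a).head?) :=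
  Primrec.list_head?.to_comp.comp hf

theorem c_reverse {f : α → List β} (hf : Computable f) : Computable (fun a => (f a).reverse) :=
  Computable.list_reverse.comp hf

theorem c_tail {f : α → List β} (hf : Computable f) : Computable (fun a => (f a).tail) :=
  Primrec.list_tail.to_comp.comp hf

/-- folding a computable function over a list is computable -/
theorem c_foldl {L : α → List β} {g : α → σ} {h : α → σ → β → σ} (hL : Computable L) (hg : Computable g)
    (hh : Computable (fun q : α × (σ × β) => h q.1 q.2.1 q.2.2)) :
    Computable (fun a => (L a).foldl (h a) (g a)) := by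
  have h1 : Computable (fun a : α => Nat.rec (motive := fun _ => σ) (g a)
      (fun n acc => (((L a)[n]?).map fun b => h a acc b).getD acc) (L a).length) := by
    refine Computable.nat_rec (f := fun a => (L a).length) (g := g)
      (h := fun (a : α) (p : ℕ × σ) => (((L a)[p.1]?).map fun b => h a p.2 b).getD p.2) (c_len hL) hg ?_
    have h2 : Computable (fun x : α × (ℕ × σ) => (((L x.1)[x.2.1]?).map fun b => h x.1 x.2.2 b).getD x.2.2) := by
      refine c_optGetD (c_optMap (c_get? (hL.comp (c_fst Computable.id)) (c_fst (c_snd Computable.id))) ?_)
        (c_snd (c_snd Computable.id))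
      exact hh.comp (c_pair (c_fst (c_fst Computable.id)) (c_pair (c_snd (c_snd (c_fst Computable.id)))
        (c_snd Computable.id)))
    exact h2.to₂
  refine h1.of_eq fun a => ?_
  have key : ∀ (l : List β) (k : ℕ), k ≤ l.length → (Nat.rec (motive := fun _ => σ) (g a)
      (fun n acc => ((l[n]?).map fun b => h a acc b).getD acc) k : σ) = (l.take k).foldl (h a) (g a) := by
    intro l k
    induction k with
    | zero => intro _; simp
    | succ k ih =>
      intro hk
      have h1 := ih (by omega)
      have hk' : k < l.length := by omega
      simp only [h1]
      rw [List.take_add_one, List.foldl_append, List.getElem?_eq_getElem hk']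
      simp
  have := key (L a) (L a).length le_rfl
  rw [List.take_length] at this
  exact this

theorem c_map {L : α → List β} {g : α → β → γ} (hL : Computable L)
    (hg : Computable (fun q : α × β => g q.1 q.2)) : Computable (fun a => (L a).map (g a)) := by
  have h1 : Computable (fun a => (L a).foldl (fun acc b => acc ++ [g a b]) []) := by
    refine c_foldl (h := fun a acc b => acc ++ [g a b]) hL (Computable.const []) ?_
    exact c_app (c_fst (c_snd Computable.id)) (c_cons (hg.comp (c_pair (c_fst Computable.id)
      (c_snd (c_snd Computable.id)))) (Computable.const []))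
  refine h1.of_eq fun a => ?_
  have key : ∀ (l : List β) (acc : List γ), l.foldl (fun acc b => acc ++ [g a b]) acc = acc ++ l.map (g a) := by
    intro l
    induction l with
    | nil => intro acc; simp
    | cons b l ih => intro acc; simp [ih]
  simpa using key (L a) []

theorem c_flatMap {L : α → List β} {g : α → β → List γ} (hL : Computable L)
    (hg : Computable (fun q : α × β => g q.1 q.2)) : Computable (fun a => (L a).flatMap (g a)) := by
  have h1 : Computable (fun a => (L a).foldl (fun acc b => acc ++ g a b) []) := by
    refine c_foldl (h := fun a acc b => acc ++ g a b) hL (Computable.const []) ?_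
    exact c_app (c_fst (c_snd Computable.id)) (hg.comp (c_pair (c_fst Computable.id)
      (c_snd (c_snd Computable.id))))
  refine h1.of_eq fun a => ?_
  have key : ∀ (l : List β) (acc : List γ), l.foldl (fun acc b => acc ++ g a b) acc = acc ++ l.flatMap (g a) := by
    intro l
    induction l with
    | nil => intro acc; simp
    | cons b l ih => intro acc; simp [ih]
  simpa using key (L a) []

/-! predicates -/

theorem p_comp {P : β → Prop} (hP : ComputablePred P) {f : α → β} (hf : Computable f) :
    ComputablePred (fun a => P (f a)) := by
  obtain ⟨_, h⟩ := hP
  exact ⟨fun a => inferInstance, h.comp hf⟩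

theorem p_and {P Q : α → Prop} (hP : ComputablePred P) (hQ : ComputablePred Q) :
    ComputablePred (fun a => P a ∧ Q a) := by
  classical
  refine ⟨inferInstance, (Primrec.and.to_comp.comp hP.decide hQ.decide).of_eq fun a => ?_⟩
  exact (Bool.decide_and _ _).symm

theorem p_or {P Q : α → Prop} (hP : ComputablePred P) (hQ : ComputablePred Q) :
    ComputablePred (fun a => P a ∨ Q a) := by
  classical
  refine ⟨inferInstance, (Primrec.or.to_comp.comp hP.decide hQ.decide).of_eq fun a => ?_⟩
  exact (Bool.decide_or _ _).symm

theorem p_not {P : α → Prop} (hP : ComputablePred P) : ComputablePred (fun a => ¬ P a) := hP.not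

theorem p_imp {P Q : α → Prop} (hP : ComputablePred P) (hQ : ComputablePred Q) :
    ComputablePred (fun a => P a → Q a) :=
  (p_or (p_not hP) hQ).of_eq fun _ => imp_iff_not_or.symm

theorem p_eq {f g : α → β} (hf : Computable f) (hg : Computable g) : ComputablePred (fun a => f a = g a) := by
  classical
  have h : ComputablePred (fun q : β × β => q.1 = q.2) := by
    have : PrimrecPred (fun q : β × β => q.1 = q.2) := Primrec.eq
    exact this.computablePred
  exact p_comp h (hf.pair hg)

theorem p_lt {f g : α → ℕ} (hf : Computable f) (hg : Computable g) : ComputablePred (fun a => f a < g a) := by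
  have h : ComputablePred (fun q : ℕ × ℕ => q.1 < q.2) := by
    have : PrimrecPred (fun q : ℕ × ℕ => q.1 < q.2) := Primrec.nat_lt
    exact this.computablePred
  exact p_comp h (hf.pair hg)

theorem p_le {f g : α → ℕ} (hf : Computable f) (hg : Computable g) : ComputablePred (fun a => f a ≤ g a) := by
  have h : ComputablePred (fun q : ℕ × ℕ => q.1 ≤ q.2) := by
    have : PrimrecPred (fun q : ℕ × ℕ => q.1 ≤ q.2) := Primrec.nat_le
    exact this.computablePred
  exact p_comp h (hf.pair hg)

theorem p_bool {f : α → Bool} (hf : Computable f) : ComputablePred (fun a => f a = true) := by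
  refine ⟨inferInstance, hf.of_eq fun a => ?_⟩
  simp

theorem p_true (p : Prop) : ComputablePred (fun _ : α => p) := by
  classical
  exact (p_bool (Computable.const (decide p))).of_eq fun _ => by simp

theorem c_dec {P : α → Prop} [DecidablePred P] (hP : ComputablePred P) : Computable (fun a => decide (P a)) :=
  hP.decide

theorem c_ite {P : α → Prop} [DecidablePred P] {f g : α → β} (hP : ComputablePred P) (hf : Computable f)
    (hg : Computable g) : Computable (fun a => if P a then f a else g a) := by
  refine (Computable.cond hP.decide hf hg).of_eq fun a => ?_
  by_cases h : P a <;> simp [h]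

theorem c_filter {L : α → List β} {P : α → β → Bool} (hL : Computable L)
    (hP : Computable (fun q : α × β => P q.1 q.2)) : Computable (fun a => (L a).filter (P a)) := by
  have h1 : Computable (fun a => (L a).flatMap (fun b => if P a b = true then [b] else [])) := by
    refine c_flatMap (g := fun a b => if P a b = true then [b] else []) hL ?_
    exact c_ite (p_bool hP) (c_cons (c_snd Computable.id) (Computable.const [])) (Computable.const [])
  refine h1.of_eq fun a => ?_
  generalize L a = l
  induction l with
  | nil => simp
  | cons b l ih =>
    rw [List.flatMap_cons, ih, List.filter_cons]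
    by_cases h : P a b = true <;> simp [h]

theorem c_find? {L : α → List β} {P : α → β → Bool} (hL : Computable L)
    (hP : Computable (fun q : α × β => P q.1 q.2)) : Computable (fun a => (L a).find? (P a)) := by
  refine (c_head? (c_filter hL hP)).of_eq fun a => ?_
  exact List.head?_filter

theorem p_ex {L : α → List β} {P : α → β → Prop} (hL : Computable L)
    (hP : ComputablePred (fun q : α × β => P q.1 q.2)) : ComputablePred (fun a => ∃ b ∈ L a, P a b) := by
  classical
  have h1 : Computable (fun a => (L a).filter (fun b => decide (P a b))) := c_filter hL hP.decide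
  refine (p_not (p_eq h1 (Computable.const []))).of_eq fun a => ?_
  rw [List.filter_eq_nil_iff]
  simp

theorem p_all {L : α → List β} {P : α → β → Prop} (hL : Computable L)
    (hP : ComputablePred (fun q : α × β => P q.1 q.2)) : ComputablePred (fun a => ∀ b ∈ L a, P a b) := by
  refine (p_not (p_ex (P := fun a b => ¬ P a b) hL (p_not hP))).of_eq fun a => ?_
  push Not
  rfl

theorem p_mem {f : α → β} {L : α → List β} (hf : Computable f) (hL : Computable L) :
    ComputablePred (fun a => f a ∈ L a) := by
  refine (p_ex (P := fun a b => b = f a) hL (p_eq (c_snd Computable.id) (hf.comp (c_fst Computable.id)))).of_eq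
    fun a => ?_
  simp

theorem p_exlt {f : α → ℕ} {P : α → ℕ → Prop} (hf : Computable f)
    (hP : ComputablePred (fun q : α × ℕ => P q.1 q.2)) : ComputablePred (fun a => ∃ k < f a, P a k) := by
  refine (p_ex (c_range hf) hP).of_eq fun a => ?_
  simp

theorem p_alllt {f : α → ℕ} {P : α → ℕ → Prop} (hf : Computable f)
    (hP : ComputablePred (fun q : α × ℕ => P q.1 q.2)) : ComputablePred (fun a => ∀ k < f a, P a k) := by
  refine (p_all (c_range hf) hP).of_eq fun a => ?_
  simp

theorem c_range' {f g : α → ℕ} (hf : Computable f) (hg : Computable g) :
    Computable (fun a => List.range' (f a) (g a)) := by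
  refine (c_map (g := fun a k => f a + k) (c_range hg) (c_add (hf.comp (c_fst Computable.id))
    (c_snd Computable.id))).of_eq fun a => ?_
  rw [List.range'_eq_map_range]

theorem p_nodup {L : α → List β} (hL : Computable L) : ComputablePred (fun a => (L a).Nodup) := by
  have h : ComputablePred (fun a => ∀ i < (L a).length, ∀ j < (L a).length, i < j → ¬ (L a)[i]? = (L a)[j]?) := by
    refine p_alllt (c_len hL) (p_alllt (c_len (hL.comp (c_fst Computable.id))) (p_imp (p_lt (c_snd (c_fst
      Computable.id)) (c_snd Computable.id)) (p_not (p_eq (c_get? (hL.comp (c_fst (c_fst Computable.id)))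
      (c_snd (c_fst Computable.id))) (c_get? (hL.comp (c_fst (c_fst Computable.id))) (c_snd Computable.id))))))
  refine h.of_eq fun a => ?_
  rw [List.nodup_iff_getElem?_ne_getElem?]
  constructor
  · intro h i j hij hj
    exact h i (hij.trans hj) j hj hij
  · intro h i _ j hj hij
    exact h i j hij hj

end

/-! all lists of a given length over a list, all sublists -/

/-- all lists of length `n` over `L` -/
def allL {β : Type} (L : List β) : ℕ → List (List β)
  | 0 => [[]]
  | n + 1 => (allL L n).flatMap fun l => L.map fun x => x :: l

theorem mem_allL {β : Type} {L : List β} {n : ℕ} {l : List β} : l ∈ allL L n ↔ l.length = n ∧ ∀ x ∈ l, x ∈ L := by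
  induction n generalizing l with
  | zero =>
    simp only [allL, List.mem_singleton, List.length_eq_zero_iff]
    constructor
    · rintro rfl
      simp
    · exact fun h => h.1
  | succ n ih =>
    simp only [allL, List.mem_flatMap, List.mem_map, ih]
    constructor
    · rintro ⟨l', ⟨h1, h2⟩, x, hx, rfl⟩
      refine ⟨by simp [h1], ?_⟩
      intro y hy
      rcases List.mem_cons.1 hy with rfl | hy
      · exact hx
      · exact h2 y hy
    · rintro ⟨h1, h2⟩
      cases l with
      | nil => simp at h1
      | cons x l =>
        exact ⟨l, ⟨by simpa using h1, fun y hy => h2 y (List.mem_cons_of_mem _ hy)⟩, x, h2 x List.mem_cons_self, rfl⟩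

section

variable {α β : Type} [Primcodable α] [Primcodable β]

theorem c_allL {L : α → List β} {f : α → ℕ} (hL : Computable L) (hf : Computable f) :
    Computable (fun a => allL (L a) (f a)) := by
  have h : Computable (fun a : α => Nat.rec (motive := fun _ => List (List β)) [[]]
      (fun _ acc => acc.flatMap fun l => (L a).map fun x => x :: l) (f a)) := by
    refine Computable.nat_rec (f := f) (g := fun _ => [[]])
      (h := fun (a : α) (p : ℕ × List (List β)) => p.2.flatMap fun l => (L a).map fun x => x :: l) hf
      (Computable.const _) ?_
    have h2 : Computable (fun x : α × (ℕ × List (List β)) => x.2.2.flatMap fun l => (L x.1).map fun y => y :: l) := by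
      refine c_flatMap (g := fun (x : α × (ℕ × List (List β))) (l : List β) => (L x.1).map fun y => y :: l)
        (c_snd (c_snd Computable.id)) ?_
      exact c_map (g := fun (q : (α × (ℕ × List (List β))) × List β) (y : β) => y :: q.2)
        (hL.comp (c_fst (c_fst Computable.id)))
        (c_cons (c_snd Computable.id) (c_snd (c_fst Computable.id)))
    exact h2.to₂
  refine h.of_eq fun a => ?_
  generalize f a = n
  induction n with
  | zero => rfl
  | succ n ih =>
    show (Nat.rec (motive := fun _ => List (List β)) [[]]
      (fun _ acc => acc.flatMap fun l => (L a).map fun x => x :: l) n : List (List β)).flatMap _ = _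
    rw [ih]
    rfl

/-- all sublists -/
def subL {β : Type} (L : List β) : List (List β) := L.foldl (fun acc x => acc ++ acc.map fun l => l ++ [x]) [[]]

theorem mem_subL {β : Type} {L l : List β} : l ∈ subL L ↔ List.Sublist l L := by
  have key : ∀ (L : List β) (acc : List (List β)) (l : List β),
      l ∈ L.foldl (fun acc x => acc ++ acc.map fun l => l ++ [x]) acc ↔ ∃ u ∈ acc, ∃ v, List.Sublist v L ∧ l = u ++ v := by
    intro L
    induction L with
    | nil =>
      intro acc l
      simp
    | cons x L ih =>
      intro acc l
      rw [List.foldl_cons, ih]
      constructor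
      · rintro ⟨u, hu, v, hv, rfl⟩
        rcases List.mem_append.1 hu with hu | hu
        · exact ⟨u, hu, v, hv.cons _, rfl⟩
        · obtain ⟨u', hu', rfl⟩ := List.mem_map.1 hu
          exact ⟨u', hu', x :: v, hv.cons_cons _, by simp⟩
      · rintro ⟨u, hu, v, hv, rfl⟩
        cases hv with
        | cons _ hv => exact ⟨u, List.mem_append_left _ hu, v, hv, rfl⟩
        | cons_cons _ hv =>
          exact ⟨u ++ [x], List.mem_append_right _ (List.mem_map.2 ⟨u, hu, rfl⟩), _, hv, by simp⟩
  unfold subL
  rw [key]
  simp

theorem c_subL {L : α → List β} (hL : Computable L) : Computable (fun a => subL (L a)) := by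
  refine c_foldl (h := fun (_ : α) (acc : List (List β)) (x : β) => acc ++ acc.map fun l => l ++ [x]) hL
    (Computable.const [[]]) ?_
  refine c_app (c_fst (c_snd Computable.id)) ?_
  exact c_map (g := fun (q : α × (List (List β) × β)) (l : List β) => l ++ [q.2.2]) (c_fst (c_snd Computable.id))
    (c_app (c_snd Computable.id) (c_cons (c_snd (c_snd (c_fst Computable.id))) (Computable.const [])))

end

end FdZ.Cm
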