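import Pool.Agent.Lib.MP_fd2900_lc.Z.Defs
import Pool.Agent.Lib.MP_fd2900_lc.Z.CmA

/-! computability of the construction: codes, labels, realizations -/

namespace FdZ.Cm

section

variable {α : Type} [Primcodable α]

theorem c_inst {f g : α → List ℕ} (hf : Computable f) (hg : Computable g) :
    Computable (fun a => inst (f a) (g a)) :=
  c_map (g := fun (a : α) (k : ℕ) => (f a).getD k 0) hg (c_getD 0 (hf.comp (c_fst c_id)) (c_snd c_id))

end

/-! codes -/

/-- the predicate of `cnt` -/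
def inP (p : ℕ) (l : List ℕ) (e : Edge) : Prop := (∀ k ∈ e.2, k < p ∨ k ∈ l) ∧ ∃ k ∈ e.2, k ∈ l

theorem p_inP : ComputablePred (fun x : (ℕ × List ℕ) × Edge => inP x.1.1 x.1.2 x.2) := by
  unfold inP
  repeat (with_reducible first
    | exact c_id | exact c_const _ | exact p_true _ | refine p_and ?_ ?_ | refine p_or ?_ ?_
    | refine p_imp ?_ ?_ | refine p_not ?_ | refine p_eq ?_ ?_ | refine p_lt ?_ ?_ | refine p_le ?_ ?_
    | refine p_mem ?_ ?_ | refine p_all ?_ ?_ | refine p_ex ?_ ?_ | refine p_alllt ?_ ?_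
    | refine p_exlt ?_ ?_ | refine p_nodup ?_ | refine c_getD _ ?_ ?_ | refine c_len ?_
    | refine c_add ?_ ?_ | refine c_app ?_ ?_ | refine c_cons ?_ ?_ | refine c_range ?_
    | refine c_range' ?_ ?_ | refine c_fst ?_ | refine c_snd ?_ | refine c_pair ?_ ?_)

open Classical in
theorem cnt_eq (p : ℕ) (pat : List Edge) (P : Finset ℕ) (l : List ℕ) (h : ∀ k, k ∈ P ↔ k ∈ l) :
    cnt p pat P = (pat.filter fun e => decide (inP p l e)).length := by
  unfold cnt inP
  congr 1
  apply List.filter_congr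
  intro e _
  exact decide_eq_decide.2 (by simp only [h])

open Classical in
/-- minimality of codes -/
theorem min_iff (p q : ℕ) (pat : List Edge) :
    (∀ P : Finset ℕ, P.Nonempty → P ⊂ Finset.Ico p (p + q) → cnt p pat P < P.card) ↔
      ∀ l ∈ subL (List.range' p q), l ≠ [] → l.length < q →
        (pat.filter fun e => decide (inP p l e)).length < l.length := by
  have hr : (List.range' p q).Nodup := List.nodup_range'
  constructor
  · intro h l hl hl0 hlq
    have hs := mem_subL.1 hl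
    have hnd := hr.sublist hs
    have h1 := h l.toFinset (by
      rw [List.toFinset_nonempty_iff]
      exact hl0) (by
      rw [Finset.ssubset_iff_subset_ne]
      constructor
      · intro k hk
        have := hs.subset (List.mem_toFinset.1 hk)
        rw [List.mem_range'_1] at this
        exact Finset.mem_Ico.2 this
      · intro h2
        have := congrArg Finset.card h2
        rw [List.toFinset_card_of_nodup hnd, Nat.card_Ico] at this
        omega)
    rw [cnt_eq p pat l.toFinset l (fun k => List.mem_toFinset), List.toFinset_card_of_nodup hnd] at h1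
    exact h1
  · intro h P hP hPs
    have hsub : List.Sublist ((List.range' p q).filter fun k => decide (k ∈ P)) (List.range' p q) := List.filter_sublist
    have hmem : ∀ k, k ∈ P ↔ k ∈ (List.range' p q).filter fun k => decide (k ∈ P) := by
      intro k
      simp only [List.mem_filter, decide_eq_true_eq, List.mem_range'_1]
      refine ⟨fun hk => ⟨?_, hk⟩, fun hk => hk.2⟩
      exact Finset.mem_Ico.1 (hPs.subset hk)
    have hcard : P.card = ((List.range' p q).filter fun k => decide (k ∈ P)).length := by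
      rw [← List.toFinset_card_of_nodup (hr.sublist hsub)]
      congr 1
      ext k
      rw [List.mem_toFinset, ← hmem]
    have h1 := h _ (mem_subL.2 hsub) (by
      intro h2
      obtain ⟨k, hk⟩ := hP
      rw [hmem, h2] at hk
      simp at hk) (by
      rw [← hcard]
      have := Finset.card_lt_card hPs
      rw [Nat.card_Ico] at this
      omega)
    rw [cnt_eq p pat P _ hmem, hcard]
    exact h1

open Classical in
theorem code_iff (p q : ℕ) (pat : List Edge) : Code p q pat ↔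
    0 < q ∧ pat.length = q ∧ (∀ e ∈ pat, e.2.Nodup) ∧ (∀ e ∈ pat, ∀ k ∈ e.2, k < p + q) ∧
      (∀ e ∈ pat, ∃ k ∈ e.2, p ≤ k) ∧ (∀ k < p, ∃ e ∈ pat, k ∈ e.2) ∧
      ∀ l ∈ subL (List.range' p q), ¬ l = [] → l.length < q →
        (pat.filter fun e => decide (inP p l e)).length < l.length := by
  constructor
  · intro h
    exact ⟨h.qpos, h.len, h.nd, h.lt, h.new, h.base, (min_iff p q pat).1 h.min⟩
  · rintro ⟨h1, h2, h3, h4, h5, h6, h7⟩
    exact ⟨h1, h2, h3, h4, h5, h6, (min_iff p q pat).2 h7⟩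

theorem p_code : ComputablePred (fun x : (ℕ × ℕ) × List Edge => Code x.1.1 x.1.2 x.2) := by
  classical
  have hfil : Computable (fun y : ((ℕ × ℕ) × List Edge) × List ℕ =>
      (y.1.2.filter fun e => decide (inP y.1.1.1 y.2 e)).length) := by
    refine c_len (c_filter (P := fun (y : ((ℕ × ℕ) × List Edge) × List ℕ) (e : Edge) => decide (inP y.1.1.1 y.2 e))
      (c_snd (c_fst c_id)) (c_dec ?_))
    exact p_comp p_inP (c_pair (c_pair (c_fst (c_fst (c_fst (c_fst c_id)))) (c_snd (c_fst c_id)))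
      (c_snd c_id))
  have h : ComputablePred (fun x : (ℕ × ℕ) × List Edge =>
    0 < x.1.2 ∧ x.2.length = x.1.2 ∧ (∀ e ∈ x.2, e.2.Nodup) ∧ (∀ e ∈ x.2, ∀ k ∈ e.2, k < x.1.1 + x.1.2) ∧
      (∀ e ∈ x.2, ∃ k ∈ e.2, x.1.1 ≤ k) ∧ (∀ k < x.1.1, ∃ e ∈ x.2, k ∈ e.2) ∧
      ∀ l ∈ subL (List.range' x.1.1 x.1.2), ¬ l = [] → l.length < x.1.2 →
        (x.2.filter fun e => decide (inP x.1.1 l e)).length < l.length) := by
    repeat (with_reducible first
      | exact hfil | exact c_id | exact c_const _ | exact p_true _ | refine p_and ?_ ?_ | refine p_or ?_ ?_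
      | refine p_imp ?_ ?_ | refine p_not ?_ | refine p_eq ?_ ?_ | refine p_lt ?_ ?_ | refine p_le ?_ ?_
      | refine p_mem ?_ ?_ | refine p_all ?_ ?_ | refine p_ex ?_ ?_ | refine p_alllt ?_ ?_
      | refine p_exlt ?_ ?_ | refine p_nodup ?_ | refine c_getD _ ?_ ?_ | refine c_len ?_
      | refine c_add ?_ ?_ | refine c_app ?_ ?_ | refine c_cons ?_ ?_ | refine c_range ?_
      | refine c_range' ?_ ?_ | refine c_subL ?_ | refine c_fst ?_ | refine c_snd ?_ | refine c_pair ?_ ?_)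
  exact h.of_eq fun x => (code_iff x.1.1 x.1.2 x.2).symm

/-! labels -/

section

variable {le : ℕ → ℕ → Bool} {io : ℕ → ℕ → ℕ}

theorem lab_iff (E : List Edge) (s : ℕ) (ℓ : Lb) (e : Edge) : lab io (es E) (vw le s) ℓ e ↔
    e ∈ E ∧ ((ℓ.1 ≤ 2 ∧ e.1 = ℓ) ∨ (ℓ = (3, []) ∧ e.1 = (3, [e.1.2.getD 0 0]) ∧ le (e.1.2.getD 0 0) s = true) ∨
      ∃ f ∈ E, ℓ = (4, [ℓ.2.getD 0 0]) ∧
        e = ((1, [ℓ.2.getD 0 0, io (ℓ.2.getD 0 0) (f.1.2.getD 0 0)]), [f.2.getD 0 0, f.2.getD 1 0, e.2.getD 2 0]) ∧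
        f = ((3, [f.1.2.getD 0 0]), [f.2.getD 0 0, f.2.getD 1 0]) ∧ le (f.1.2.getD 0 0) s = true) := by
  unfold lab es vw
  refine and_congr_right fun _ => or_congr_right (or_congr (and_congr_right fun _ => ?_) ?_)
  · constructor
    · rintro ⟨r, h1, h2⟩
      rw [h1]
      exact ⟨rfl, h2⟩
    · rintro ⟨h1, h2⟩
      exact ⟨_, h1, h2⟩
  · constructor
    · rintro ⟨j, r, x, y, c, h1, h2, h3, h4⟩
      refine ⟨((3, [r]), [x, y]), h3, ?_, ?_, rfl, h4⟩
      · rw [h1]
        rfl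
      · rw [h1, h2]
        rfl
    · rintro ⟨f, h1, h2, h3, h4, h5⟩
      exact ⟨_, _, _, _, _, h2, h3, by rw [← h4]; exact h1, h5⟩

theorem c_le (h1 : Computable (fun p : ℕ × ℕ => le p.1 p.2)) {α : Type} [Primcodable α] {f g : α → ℕ}
    (hf : Computable f) (hg : Computable g) : Computable (fun a => le (f a) (g a)) := h1.comp (hf.pair hg)

theorem c_io (h2 : Computable (fun p : ℕ × ℕ => io p.1 p.2)) {α : Type} [Primcodable α] {f g : α → ℕ}
    (hf : Computable f) (hg : Computable g) : Computable (fun a => io (f a) (g a)) := h2.comp (hf.pair hg)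

theorem p_lab (h1 : Computable (fun p : ℕ × ℕ => le p.1 p.2)) (h2 : Computable (fun p : ℕ × ℕ => io p.1 p.2)) :
    ComputablePred (fun x : (List Edge × ℕ) × (Lb × Edge) => lab io (es x.1.1) (vw le x.1.2) x.2.1 x.2.2) := by
  have h : ComputablePred (fun x : (List Edge × ℕ) × (Lb × Edge) =>
    x.2.2 ∈ x.1.1 ∧ ((x.2.1.1 ≤ 2 ∧ x.2.2.1 = x.2.1) ∨
      (x.2.1 = (3, []) ∧ x.2.2.1 = (3, [x.2.2.1.2.getD 0 0]) ∧ le (x.2.2.1.2.getD 0 0) x.1.2 = true) ∨
      ∃ f ∈ x.1.1, x.2.1 = (4, [x.2.1.2.getD 0 0]) ∧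
        x.2.2 = ((1, [x.2.1.2.getD 0 0, io (x.2.1.2.getD 0 0) (f.1.2.getD 0 0)]),
          [f.2.getD 0 0, f.2.getD 1 0, x.2.2.2.getD 2 0]) ∧
        f = ((3, [f.1.2.getD 0 0]), [f.2.getD 0 0, f.2.getD 1 0]) ∧ le (f.1.2.getD 0 0) x.1.2 = true)) := by
    repeat (with_reducible first
      | exact c_id | exact c_const _ | exact p_true _ | refine p_and ?_ ?_ | refine p_or ?_ ?_
      | refine p_imp ?_ ?_ | refine p_not ?_ | refine p_eq ?_ ?_ | refine p_lt ?_ ?_ | refine p_le ?_ ?_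
      | refine p_mem ?_ ?_ | refine p_all ?_ ?_ | refine p_ex ?_ ?_ | refine p_alllt ?_ ?_
      | refine p_exlt ?_ ?_ | refine p_nodup ?_ | refine c_getD _ ?_ ?_ | refine c_len ?_
      | refine c_add ?_ ?_ | refine c_app ?_ ?_ | refine c_cons ?_ ?_ | refine c_range ?_
      | refine c_range' ?_ ?_ | refine p_bool ?_ | refine c_le h1 ?_ ?_ | refine c_io h2 ?_ ?_
      | refine c_fst ?_ | refine c_snd ?_ | refine c_pair ?_ ?_)
  exact h.of_eq fun x => (lab_iff x.1.1 x.1.2 x.2.1 x.2.2).symm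

theorem p_lab' (h1 : Computable (fun p : ℕ × ℕ => le p.1 p.2)) (h2 : Computable (fun p : ℕ × ℕ => io p.1 p.2))
    {α : Type} [Primcodable α] {E : α → List Edge} {s : α → ℕ} {ℓ : α → Lb} {e : α → Edge} (hE : Computable E)
    (hs : Computable s) (hℓ : Computable ℓ) (he : Computable e) :
    ComputablePred (fun a => lab io (es (E a)) (vw le (s a)) (ℓ a) (e a)) :=
  p_comp (p_lab h1 h2) (c_pair (c_pair hE hs) (c_pair hℓ he))

/-! realizations -/

theorem forall₂_iff' {R : Edge → Edge → Prop} {l₁ l₂ : List Edge} (d : Edge) : List.Forall₂ R l₁ l₂ ↔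
    l₂.length = l₁.length ∧ ∀ i < l₁.length, R (l₁.getD i d) (l₂.getD i d) := by
  rw [List.forall₂_iff_get]
  constructor
  · rintro ⟨h1, h2⟩
    refine ⟨h1.symm, fun i hi => ?_⟩
    have := h2 i hi (h1 ▸ hi)
    rw [List.getD_eq_getElem _ _ hi, List.getD_eq_getElem _ _ (h1 ▸ hi)]
    exact this
  · rintro ⟨h1, h2⟩
    refine ⟨h1.symm, fun i hi hi' => ?_⟩
    have := h2 i hi
    rw [List.getD_eq_getElem _ _ hi, List.getD_eq_getElem _ _ hi'] at this
    exact this

theorem real_iff (E : List Edge) (s : ℕ) (pat : List Edge) (β ν : List ℕ) :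
    Real (lab io (es E) (vw le s)) pat β ν ↔
      (β ++ ν).Nodup ∧ ∃ L ∈ allL E pat.length, L.Nodup ∧ ∀ i < pat.length,
        lab io (es E) (vw le s) (pat.getD i ((0, []), [])).1 (L.getD i ((0, []), [])) ∧
          (L.getD i ((0, []), [])).2 = inst (β ++ ν) (pat.getD i ((0, []), [])).2 := by
  unfold Real
  refine and_congr_right fun _ => ?_
  constructor
  · rintro ⟨L, h1, h2⟩
    have h3 := (forall₂_iff' ((0, []), [])).1 h2
    refine ⟨L, mem_allL.2 ⟨h3.1, fun e he => ?_⟩, h1, h3.2⟩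
    obtain ⟨i, hi, rfl⟩ := List.getElem_of_mem he
    have h4 := (h3.2 i (h3.1 ▸ hi)).1
    rw [List.getD_eq_getElem _ _ hi] at h4
    exact h4.1
  · rintro ⟨L, h1, h2, h3⟩
    exact ⟨L, h2, (forall₂_iff' ((0, []), [])).2 ⟨(mem_allL.1 h1).1, h3⟩⟩

theorem p_real (h1 : Computable (fun p : ℕ × ℕ => le p.1 p.2)) (h2 : Computable (fun p : ℕ × ℕ => io p.1 p.2)) :
    ComputablePred (fun x : (List Edge × ℕ) × (List Edge × (List ℕ × List ℕ)) =>
      Real (lab io (es x.1.1) (vw le x.1.2)) x.2.1 x.2.2.1 x.2.2.2) := by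
  have h : ComputablePred (fun x : (List Edge × ℕ) × (List Edge × (List ℕ × List ℕ)) =>
      (x.2.2.1 ++ x.2.2.2).Nodup ∧ ∃ L ∈ allL x.1.1 x.2.1.length, L.Nodup ∧ ∀ i < x.2.1.length,
        lab io (es x.1.1) (vw le x.1.2) (x.2.1.getD i ((0, []), [])).1 (L.getD i ((0, []), [])) ∧
          (L.getD i ((0, []), [])).2 = inst (x.2.2.1 ++ x.2.2.2) (x.2.1.getD i ((0, []), [])).2) := by
    repeat (with_reducible first
      | exact c_id | exact c_const _ | exact p_true _ | refine p_and ?_ ?_ | refine p_or ?_ ?_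
      | refine p_imp ?_ ?_ | refine p_not ?_ | refine p_eq ?_ ?_ | refine p_lt ?_ ?_ | refine p_le ?_ ?_
      | refine p_mem ?_ ?_ | refine p_all ?_ ?_ | refine p_ex ?_ ?_ | refine p_alllt ?_ ?_
      | refine p_exlt ?_ ?_ | refine p_nodup ?_ | refine c_getD _ ?_ ?_ | refine c_len ?_
      | refine c_add ?_ ?_ | refine c_app ?_ ?_ | refine c_cons ?_ ?_ | refine c_range ?_
      | refine c_range' ?_ ?_ | refine c_allL ?_ ?_ | refine c_inst ?_ ?_ | refine p_lab' h1 h2 ?_ ?_ ?_ ?_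
      | refine c_fst ?_ | refine c_snd ?_ | refine c_pair ?_ ?_)
  exact h.of_eq fun x => (real_iff x.1.1 x.1.2 x.2.1 x.2.2.1 x.2.2.2).symm

theorem p_real' (h1 : Computable (fun p : ℕ × ℕ => le p.1 p.2)) (h2 : Computable (fun p : ℕ × ℕ => io p.1 p.2))
    {α : Type} [Primcodable α] {E : α → List Edge} {s : α → ℕ} {pat : α → List Edge} {β ν : α → List ℕ}
    (hE : Computable E) (hs : Computable s) (hp : Computable pat) (hβ : Computable β) (hν : Computable ν) :
    ComputablePred (fun a => Real (lab io (es (E a)) (vw le (s a))) (pat a) (β a) (ν a)) :=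
  p_comp (p_real h1 h2) (c_pair (c_pair hE hs) (c_pair hp (c_pair hβ hν)))

/-- `νs` over `β` -/
theorem over_iff {lab : Lb → Edge → Prop} (p q : ℕ) (pat : List Edge) (β : List ℕ) (νs : List (List ℕ)) :
    Over lab p q pat β νs ↔ β.length = p ∧ (∀ ν ∈ νs, ν.length = q ∧ Real lab pat β ν) ∧
      ∀ i < νs.length, ∀ j < νs.length, i < j → ∀ v ∈ νs.getD i [], ¬ v ∈ νs.getD j [] := by
  unfold Over
  refine and_congr_right fun _ => and_congr_right fun _ => ?_
  rw [List.pairwise_iff_getElem]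
  constructor
  · intro h i hi j hj hij v hv hv'
    rw [List.getD_eq_getElem _ _ hi] at hv
    rw [List.getD_eq_getElem _ _ hj] at hv'
    exact h i j hi hj hij hv hv'
  · intro h i j hi hj hij v hv hv'
    have := h i hi j hj hij
    rw [List.getD_eq_getElem _ _ hi, List.getD_eq_getElem _ _ hj] at this
    exact this v hv hv'

theorem p_over (h1 : Computable (fun p : ℕ × ℕ => le p.1 p.2)) (h2 : Computable (fun p : ℕ × ℕ => io p.1 p.2)) :
    ComputablePred (fun x : (List Edge × ℕ) × (((ℕ × ℕ) × List Edge) × (List ℕ × List (List ℕ))) =>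
      Over (lab io (es x.1.1) (vw le x.1.2)) x.2.1.1.1 x.2.1.1.2 x.2.1.2 x.2.2.1 x.2.2.2) := by
  have h : ComputablePred (fun x : (List Edge × ℕ) × (((ℕ × ℕ) × List Edge) × (List ℕ × List (List ℕ))) =>
      x.2.2.1.length = x.2.1.1.1 ∧ (∀ ν ∈ x.2.2.2, ν.length = x.2.1.1.2 ∧
        Real (lab io (es x.1.1) (vw le x.1.2)) x.2.1.2 x.2.2.1 ν) ∧
      ∀ i < x.2.2.2.length, ∀ j < x.2.2.2.length, i < j → ∀ v ∈ x.2.2.2.getD i [], ¬ v ∈ x.2.2.2.getD j []) := by
    repeat (with_reducible first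
      | exact c_id | exact c_const _ | exact p_true _ | refine p_and ?_ ?_ | refine p_or ?_ ?_
      | refine p_imp ?_ ?_ | refine p_not ?_ | refine p_eq ?_ ?_ | refine p_lt ?_ ?_ | refine p_le ?_ ?_
      | refine p_mem ?_ ?_ | refine p_all ?_ ?_ | refine p_ex ?_ ?_ | refine p_alllt ?_ ?_
      | refine p_exlt ?_ ?_ | refine p_nodup ?_ | refine c_getD _ ?_ ?_ | refine c_len ?_
      | refine c_add ?_ ?_ | refine c_app ?_ ?_ | refine c_cons ?_ ?_ | refine c_range ?_
      | refine c_range' ?_ ?_ | refine p_real' h1 h2 ?_ ?_ ?_ ?_ ?_ | refine c_fst ?_ | refine c_snd ?_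
      | refine c_pair ?_ ?_)
  exact h.of_eq fun x => (over_iff x.2.1.1.1 x.2.1.1.2 x.2.1.2 x.2.2.1 x.2.2.2).symm

end

end FdZ.Cm
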