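import Pool.Agent.Lib.MP_fd2900_lc.Z.Defs
import Pool.Agent.Lib.MP_fd2900_lc.Z.CmA

/-! bounded form of `Viol` -/

namespace FdZ.Cm

/-- the vertices of the edges -/
def vtx (E : List Edge) : List ℕ := E.flatMap fun e => e.2

/-- the possible labels -/
def lbs (E : List Edge) : List Lb := E.flatMap fun e => [e.1, (3, []), (4, [e.1.2.getD 0 0])]

/-- the possible pattern entries -/
def ents (E : List Edge) (n : ℕ) : List Edge :=
  (lbs E).flatMap fun ℓ => (E.flatMap fun e => allL (List.range n) e.2.length).map fun idx => (ℓ, idx)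

private theorem CmC_fa {α β : Type} {R : α → β → Prop} {l₁ : List α} {l₂ : List β}
    (h : List.Forall₂ R l₁ l₂) {a : α} (ha : a ∈ l₁) : ∃ b, R a b := by
  induction h with
  | nil => simp at ha
  | cons h1 _ ih =>
    rcases List.mem_cons.1 ha with rfl | ha
    · exact ⟨_, h1⟩
    · exact ih ha

/-- every index is in an entry -/
private theorem CmC_idx {p q : ℕ} {pat : List Edge} (hc : Code p q pat) {k : ℕ} (hk : k < p + q) :
    ∃ pe ∈ pat, k ∈ pe.2 := by
  by_cases hkp : k < p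
  · exact hc.base k hkp
  by_contra hcon
  push Not at hcon
  set P : Finset ℕ := (Finset.Ico p (p + q)).erase k with hP
  have hkI : k ∈ Finset.Ico p (p + q) := Finset.mem_Ico.2 ⟨by omega, hk⟩
  have hcard : P.card = q - 1 := by
    rw [hP, Finset.card_erase_of_mem hkI, Nat.card_Ico]
    omega
  have hall : ∀ e ∈ pat, (∀ k ∈ e.2, k < p ∨ k ∈ P) ∧ ∃ k ∈ e.2, k ∈ P := by
    intro e he
    have h1 : ∀ i ∈ e.2, p ≤ i → i ∈ P := by
      intro i hi hpi
      rw [hP, Finset.mem_erase, Finset.mem_Ico]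
      refine ⟨?_, hpi, hc.lt e he i hi⟩
      rintro rfl
      exact hcon e he hi
    refine ⟨fun i hi => ?_, ?_⟩
    · by_cases hip : i < p
      · exact Or.inl hip
      · exact Or.inr (h1 i hi (by omega))
    · obtain ⟨i, hi, hpi⟩ := hc.new e he
      exact ⟨i, hi, h1 i hi hpi⟩
  -- there is an entry
  have hpat : pat ≠ [] := by
    intro h0
    have h1 := hc.len
    rw [h0] at h1
    have := hc.qpos
    simp at h1
    omega
  obtain ⟨e, he⟩ := List.exists_mem_of_ne_nil pat hpat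
  obtain ⟨-, i, -, hiP⟩ := hall e he
  have hss : P ⊂ Finset.Ico p (p + q) := Finset.erase_ssubset hkI
  have hlt := hc.min P ⟨i, hiP⟩ hss
  have hcnt : cnt p pat P = q := by
    unfold cnt
    rw [List.filter_eq_self.2 fun e he => by simpa using hall e he]
    exact hc.len
  rw [hcnt, hcard] at hlt
  omega

private theorem CmC_mem {lb : Lb → Edge → Prop} {E : List Edge} (hlb : ∀ ℓ e, lb ℓ e → e ∈ E)
    {p q : ℕ} {pat : List Edge} (hc : Code p q pat) {β ν : List ℕ} (hβ : β.length = p)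
    (hν : ν.length = q) (hr : Real lb pat β ν) {v : ℕ} (hv : v ∈ β ++ ν) : v ∈ vtx E := by
  obtain ⟨-, es', -, hF⟩ := hr
  obtain ⟨k, hk, hkv⟩ := List.getElem_of_mem hv
  have hk' : k < p + q := by
    rw [← hβ, ← hν, ← List.length_append]
    exact hk
  obtain ⟨pe, hpe, hkpe⟩ := CmC_idx hc hk'
  obtain ⟨e, hle, he2⟩ := CmC_fa hF hpe
  unfold vtx
  rw [List.mem_flatMap]
  refine ⟨e, hlb _ _ hle, ?_⟩
  rw [he2]
  unfold inst
  rw [List.mem_map]
  refine ⟨k, hkpe, ?_⟩
  rw [List.getD_eq_getElem _ _ hk]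
  exact hkv

theorem viol_iff {le : ℕ → ℕ → Bool} {io : ℕ → ℕ → ℕ} (E : List Edge) (s : ℕ) :
    Viol (lab io (es E) (vw le s)) ↔
      ∃ p < (vtx E).length + 1, ∃ q < (vtx E).length + 1, ∃ β ∈ allL (vtx E) p,
        ∃ νs ∈ allL (allL (vtx E) q) (mu p q + 1), ∃ pat ∈ allL (ents E (p + q)) q,
          Code p q pat ∧ Over (lab io (es E) (vw le s)) p q pat β νs := by
  constructor
  · rintro ⟨p, q, pat, β, νs, hc, ho, hl⟩
    obtain ⟨hβ, hν, hd⟩ := id ho
    have hlb : ∀ ℓ e, lab io (es E) (vw le s) ℓ e → e ∈ E := fun ℓ e h => h.1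
    have hne : νs ≠ [] := by
      intro h0
      rw [h0] at hl
      simp at hl
    obtain ⟨ν₀, h0⟩ := List.exists_mem_of_ne_nil νs hne
    obtain ⟨hl0, hr0⟩ := hν ν₀ h0
    have hmem : ∀ ν ∈ νs, ∀ v ∈ β ++ ν, v ∈ vtx E := fun ν hν' v hv =>
      CmC_mem hlb hc hβ (hν ν hν').1 (hν ν hν').2 hv
    have hlen : p + q ≤ (vtx E).length := by
      have h1 : (β ++ ν₀).Subperm (vtx E) := hr0.1.subperm (hmem ν₀ h0)
      have h2 := h1.length_le
      rw [List.length_append, hβ, hl0] at h2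
      exact h2
    refine ⟨p, by omega, q, by omega, β, ?_, νs, ?_, pat, ?_, hc, ho⟩
    · rw [mem_allL]
      exact ⟨hβ, fun v hv => hmem ν₀ h0 v (List.mem_append_left _ hv)⟩
    · rw [mem_allL]
      refine ⟨hl, fun ν hν' => ?_⟩
      rw [mem_allL]
      exact ⟨(hν ν hν').1, fun v hv => hmem ν hν' v (List.mem_append_right _ hv)⟩
    · rw [mem_allL]
      refine ⟨hc.len, fun pe hpe => ?_⟩
      obtain ⟨-, es', -, hF⟩ := hr0
      obtain ⟨e, hle, he2⟩ := CmC_fa hF hpe
      have heE : e ∈ E := hlb _ _ hle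
      unfold ents
      rw [List.mem_flatMap]
      refine ⟨pe.1, ?_, ?_⟩
      · unfold lbs
        rw [List.mem_flatMap]
        refine ⟨e, heE, ?_⟩
        rcases hle with ⟨-, ⟨-, h1⟩ | ⟨h1, -⟩ | ⟨j, r, x, y, c, h1, h2, -⟩⟩
        · rw [h1]
          exact List.mem_cons_self
        · rw [h1]
          exact List.mem_cons_of_mem _ List.mem_cons_self
        · rw [h1, h2]
          exact List.mem_cons_of_mem _ (List.mem_cons_of_mem _ List.mem_cons_self)
      · rw [List.mem_map]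
        refine ⟨pe.2, ?_, rfl⟩
        rw [List.mem_flatMap]
        refine ⟨e, heE, ?_⟩
        rw [mem_allL]
        refine ⟨?_, fun k hk => ?_⟩
        · rw [he2]
          simp [inst]
        · rw [List.mem_range]
          exact hc.lt pe hpe k hk
  · rintro ⟨p, -, q, -, β, -, νs, h1, pat, -, hc, ho⟩
    exact ⟨p, q, pat, β, νs, hc, ho, (mem_allL.1 h1).1⟩

end FdZ.Cm
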