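import Pool.Agent.Lib.MP_fd2900_lc.Z.CmB
import Pool.Agent.Lib.MP_fd2900_lc.Z.CmC

/-! computability of the construction: violations, legality, stages -/

namespace FdZ.Cm

section

variable {α : Type} [Primcodable α]

theorem c_vtx {E : α → List Edge} (hE : Computable E) : Computable (fun a => vtx (E a)) :=
  c_flatMap (g := fun (_ : α) (e : Edge) => e.2) hE (c_snd (c_snd c_id))

theorem c_lbs {E : α → List Edge} (hE : Computable E) : Computable (fun a => lbs (E a)) := by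
  refine c_flatMap (g := fun (_ : α) (e : Edge) => [e.1, (3, []), (4, [e.1.2.getD 0 0])]) hE ?_
  repeat (with_reducible first
    | exact c_id | exact c_const _ | exact p_true _ | refine p_and ?_ ?_ | refine p_or ?_ ?_
    | refine p_imp ?_ ?_ | refine p_not ?_ | refine p_eq ?_ ?_ | refine p_lt ?_ ?_ | refine p_le ?_ ?_
    | refine p_mem ?_ ?_ | refine p_all ?_ ?_ | refine p_ex ?_ ?_ | refine p_alllt ?_ ?_
    | refine p_exlt ?_ ?_ | refine p_nodup ?_ | refine c_getD _ ?_ ?_ | refine c_len ?_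
    | refine c_add ?_ ?_ | refine c_app ?_ ?_ | refine c_cons ?_ ?_ | refine c_range ?_
    | refine c_range' ?_ ?_ | refine c_fst ?_ | refine c_snd ?_ | refine c_pair ?_ ?_)

theorem c_ents {E : α → List Edge} {n : α → ℕ} (hE : Computable E) (hn : Computable n) :
    Computable (fun a => ents (E a) (n a)) := by
  have e1 : Computable (fun x : α × Lb => E x.1) := hE.comp Computable.fst
  have e2 : Computable (fun x : α × Lb => n x.1) := hn.comp Computable.fst
  have e3 : Computable (fun y : (α × Lb) × Edge => n y.1.1) := e2.comp Computable.fst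
  have e4 : Computable (fun y : (α × Lb) × Edge => y.2.2.length) := c_len (c_snd (c_snd c_id))
  have e5 : Computable (fun y : (α × Lb) × Edge => allL (List.range (n y.1.1)) y.2.2.length) := c_allL (c_range e3) e4
  have e6 : Computable (fun x : α × Lb => (E x.1).flatMap fun e => allL (List.range (n x.1)) e.2.length) :=
    c_flatMap (g := fun (x : α × Lb) (e : Edge) => allL (List.range (n x.1)) e.2.length) e1 e5
  have e7 : Computable (fun y : (α × Lb) × List ℕ => ((y.1.2, y.2) : Edge)) := c_pair (c_snd (c_fst c_id)) (c_snd c_id)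
  have e8 : Computable (fun x : α × Lb => ((E x.1).flatMap fun e => allL (List.range (n x.1)) e.2.length).map
      fun idx => ((x.2, idx) : Edge)) :=
    c_map (g := fun (x : α × Lb) (idx : List ℕ) => ((x.2, idx) : Edge)) e6 e7
  exact c_flatMap (g := fun (a : α) (ℓ : Lb) =>
      ((E a).flatMap fun e => allL (List.range (n a)) e.2.length).map fun idx => ((ℓ, idx) : Edge)) (c_lbs hE) e8

theorem c_mu {p q : α → ℕ} (hp : Computable p) (hq : Computable q) : Computable (fun a => mu (p a) (q a)) :=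
  c_ite (p_eq hq (c_const 1)) (c_const 1) hp

end

section

variable {le : ℕ → ℕ → Bool} {io : ℕ → ℕ → ℕ}

theorem p_code' {α : Type} [Primcodable α] {p q : α → ℕ} {pat : α → List Edge} (hp : Computable p)
    (hq : Computable q) (hpat : Computable pat) : ComputablePred (fun a => Code (p a) (q a) (pat a)) :=
  p_comp p_code (c_pair (c_pair hp hq) hpat)

theorem p_over' (h1 : Computable (fun p : ℕ × ℕ => le p.1 p.2)) (h2 : Computable (fun p : ℕ × ℕ => io p.1 p.2))
    {α : Type} [Primcodable α] {E : α → List Edge} {s p q : α → ℕ} {pat : α → List Edge} {β : α → List ℕ}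
    {νs : α → List (List ℕ)} (hE : Computable E) (hs : Computable s) (hp : Computable p) (hq : Computable q)
    (hpat : Computable pat) (hβ : Computable β) (hν : Computable νs) :
    ComputablePred (fun a => Over (lab io (es (E a)) (vw le (s a))) (p a) (q a) (pat a) (β a) (νs a)) :=
  p_comp (p_over h1 h2) (c_pair (c_pair hE hs) (c_pair (c_pair (c_pair hp hq) hpat) (c_pair hβ hν)))

theorem p_viol (h1 : Computable (fun p : ℕ × ℕ => le p.1 p.2)) (h2 : Computable (fun p : ℕ × ℕ => io p.1 p.2)) :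
    ComputablePred (fun x : List Edge × ℕ => Viol (lab io (es x.1) (vw le x.2))) := by
  have h : ComputablePred (fun x : List Edge × ℕ =>
      ∃ p < (vtx x.1).length + 1, ∃ q < (vtx x.1).length + 1, ∃ β ∈ allL (vtx x.1) p,
        ∃ νs ∈ allL (allL (vtx x.1) q) (mu p q + 1), ∃ pat ∈ allL (ents x.1 (p + q)) q,
          Code p q pat ∧ Over (lab io (es x.1) (vw le x.2)) p q pat β νs) := by
    repeat (with_reducible first
      | exact c_id | exact c_const _ | exact p_true _ | refine p_and ?_ ?_ | refine p_or ?_ ?_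
      | refine p_imp ?_ ?_ | refine p_not ?_ | refine p_eq ?_ ?_ | refine p_lt ?_ ?_ | refine p_le ?_ ?_
      | refine p_mem ?_ ?_ | refine p_all ?_ ?_ | refine p_ex ?_ ?_ | refine p_alllt ?_ ?_
      | refine p_exlt ?_ ?_ | refine p_nodup ?_ | refine c_getD _ ?_ ?_ | refine c_len ?_
      | refine c_add ?_ ?_ | refine c_app ?_ ?_ | refine c_cons ?_ ?_ | refine c_range ?_
      | refine c_range' ?_ ?_ | refine c_vtx ?_ | refine c_ents ?_ ?_ | refine c_mu ?_ ?_
      | refine c_allL ?_ ?_ | refine p_code' ?_ ?_ ?_ | refine p_over' h1 h2 ?_ ?_ ?_ ?_ ?_ ?_ ?_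
      | refine c_fst ?_ | refine c_snd ?_ | refine c_pair ?_ ?_)
  exact h.of_eq fun x => (viol_iff x.1 x.2).symm

theorem p_viol' (h1 : Computable (fun p : ℕ × ℕ => le p.1 p.2)) (h2 : Computable (fun p : ℕ × ℕ => io p.1 p.2))
    {α : Type} [Primcodable α] {E : α → List Edge} {s : α → ℕ} (hE : Computable E) (hs : Computable s) :
    ComputablePred (fun a => Viol (lab io (es (E a)) (vw le (s a)))) :=
  p_comp (p_viol h1 h2) (c_pair hE hs)

/-! new edges -/

theorem c_fnode (h1 : Computable (fun p : ℕ × ℕ => le p.1 p.2)) {α : Type} [Primcodable α] {E : α → List Edge}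
    {s x y : α → ℕ} (hE : Computable E) (hs : Computable s) (hx : Computable x) (hy : Computable y) :
    Computable (fun a => fnode le (E a) (s a) (x a) (y a)) := by
  have h : Computable (fun z : (List Edge × ℕ) × (ℕ × ℕ) => fnode le z.1.1 z.1.2 z.2.1 z.2.2) := by
    have hP : Computable (fun w : ((List Edge × ℕ) × (ℕ × ℕ)) × Edge =>
        (decide (w.2.1.1 = 3) && le (w.2.1.2.getD 0 0) w.1.1.2 && decide (w.2.2 = [w.1.2.1, w.1.2.2]))) := by
      refine Primrec.and.to_comp.comp (Primrec.and.to_comp.comp (c_dec ?_) (c_le h1 ?_ ?_)) (c_dec ?_)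
      all_goals
        repeat (with_reducible first
          | exact c_id | exact c_const _ | exact p_true _ | refine p_and ?_ ?_ | refine p_or ?_ ?_
          | refine p_imp ?_ ?_ | refine p_not ?_ | refine p_eq ?_ ?_ | refine p_lt ?_ ?_
          | refine p_le ?_ ?_ | refine p_mem ?_ ?_ | refine p_all ?_ ?_ | refine p_ex ?_ ?_
          | refine p_alllt ?_ ?_ | refine p_exlt ?_ ?_ | refine p_nodup ?_ | refine c_getD _ ?_ ?_
          | refine c_len ?_ | refine c_add ?_ ?_ | refine c_app ?_ ?_ | refine c_cons ?_ ?_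
          | refine c_range ?_ | refine c_range' ?_ ?_ | refine c_fst ?_ | refine c_snd ?_
          | refine c_pair ?_ ?_)
    refine c_optMap (g := fun (z : (List Edge × ℕ) × (ℕ × ℕ)) (e : Edge) => e.1.2.getD 0 0)
      (c_find? (P := fun (z : (List Edge × ℕ) × (ℕ × ℕ)) (e : Edge) =>
        (decide (e.1.1 = 3) && le (e.1.2.getD 0 0) z.1.2 && decide (e.2 = [z.2.1, z.2.2]))) (c_fst (c_fst c_id)) hP) ?_
    exact c_getD 0 (c_snd (c_fst (c_snd c_id))) (c_const 0)
  exact h.comp (c_pair (c_pair hE hs) (c_pair hx hy))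

/-- the parameters of a stage: stage, number of vertices, edges, request -/
abbrev Par := (ℕ × (ℕ × List Edge)) × ((ℕ × ℕ) × List Edge × List ℕ)

theorem c_mkE (h1 : Computable (fun p : ℕ × ℕ => le p.1 p.2)) (h2 : Computable (fun p : ℕ × ℕ => io p.1 p.2)) :
    Computable (fun z : (List Edge × (ℕ × ℕ)) × (List ℕ × Edge) => mkE le io z.1.1 z.1.2.1 z.1.2.2 z.2.1 z.2.2) := by
  unfold mkE
  repeat (with_reducible first
    | exact c_id | exact c_const _ | exact p_true _ | refine p_and ?_ ?_ | refine p_or ?_ ?_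
    | refine p_imp ?_ ?_ | refine p_not ?_ | refine p_eq ?_ ?_ | refine p_lt ?_ ?_ | refine p_le ?_ ?_
    | refine p_mem ?_ ?_ | refine p_all ?_ ?_ | refine p_ex ?_ ?_ | refine p_alllt ?_ ?_
    | refine p_exlt ?_ ?_ | refine p_nodup ?_ | refine c_getD _ ?_ ?_ | refine c_len ?_
    | refine c_add ?_ ?_ | refine c_app ?_ ?_ | refine c_cons ?_ ?_ | refine c_range ?_
    | refine c_range' ?_ ?_ | refine p_bool ?_ | refine c_le h1 ?_ ?_ | refine c_io h2 ?_ ?_
    | refine c_ite ?_ ?_ ?_ | refine c_inst ?_ ?_ | refine c_fnode h1 ?_ ?_ ?_ ?_ | refine c_optGetD ?_ ?_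
    | refine c_fst ?_ | refine c_snd ?_ | refine c_pair ?_ ?_)

theorem c_newEs (h1 : Computable (fun p : ℕ × ℕ => le p.1 p.2)) (h2 : Computable (fun p : ℕ × ℕ => io p.1 p.2))
    {α : Type} [Primcodable α] {E pat : α → List Edge} {s n q : α → ℕ} {β : α → List ℕ} (hE : Computable E)
    (hs : Computable s) (hn : Computable n) (hq : Computable q) (hpat : Computable pat) (hβ : Computable β) :
    Computable (fun a => newEs le io (E a) (s a) (n a) (q a) (pat a) (β a)) := by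
  have e1 : Computable (fun x : α × Edge => E x.1) := hE.comp Computable.fst
  have e2 : Computable (fun x : α × Edge => s x.1) := hs.comp Computable.fst
  have e3 : Computable (fun x : α × Edge => n x.1) := hn.comp Computable.fst
  have e4 : Computable (fun x : α × Edge => q x.1) := hq.comp Computable.fst
  have e5 : Computable (fun x : α × Edge => β x.1) := hβ.comp Computable.fst
  have e6 := (c_mkE h1 h2).comp (c_pair (c_pair e1 (c_pair e2 e3)) (c_pair (c_app e5 (c_range' e3 e4)) Computable.snd))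
  have e7 : Computable (fun x : α × Edge =>
      mkE le io (E x.1) (s x.1) (n x.1) (β x.1 ++ List.range' (n x.1) (q x.1)) x.2) := e6
  exact c_map (g := fun a (pe : Edge) => mkE le io (E a) (s a) (n a) (β a ++ List.range' (n a) (q a)) pe) hpat e7

/-! conditions on a request -/

theorem kindOk_iff (s : ℕ) (pe : Edge) : kindOk s pe ↔
    (pe.1 = (0, [pe.1.2.getD 0 0]) ∧ pe.2.length = 5) ∨
    (pe.1 = (1, [pe.1.2.getD 0 0, pe.1.2.getD 1 0]) ∧ pe.1.2.getD 1 0 < s ∧ pe.2.length = 3) ∨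
    (pe.1 = (2, [pe.1.2.getD 0 0]) ∧ pe.2.length = 4) ∨ (pe.1 = (3, []) ∧ pe.2.length = 2) ∨
    (pe.1 = (4, [pe.1.2.getD 0 0]) ∧ pe.2.length = 3) := by
  unfold kindOk
  refine or_congr ?_ (or_congr ?_ (or_congr ?_ (or_congr Iff.rfl ?_)))
  · constructor
    · rintro ⟨j, h, h'⟩
      exact ⟨by rw [h]; rfl, h'⟩
    · rintro ⟨h, h'⟩
      exact ⟨_, h, h'⟩
  · constructor
    · rintro ⟨j, i, h, h', h''⟩
      refine ⟨by rw [h]; rfl, ?_, h''⟩
      rw [h]
      exact h'
    · rintro ⟨h, h', h''⟩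
      exact ⟨_, _, h, h', h''⟩
  · constructor
    · rintro ⟨j, h, h'⟩
      exact ⟨by rw [h]; rfl, h'⟩
    · rintro ⟨h, h'⟩
      exact ⟨_, h, h'⟩
  · constructor
    · rintro ⟨j, h, h'⟩
      exact ⟨by rw [h]; rfl, h'⟩
    · rintro ⟨h, h'⟩
      exact ⟨_, h, h'⟩

theorem p_kindOk : ComputablePred (fun x : ℕ × Edge => kindOk x.1 x.2) := by
  have h : ComputablePred (fun x : ℕ × Edge => (x.2.1 = (0, [x.2.1.2.getD 0 0]) ∧ x.2.2.length = 5) ∨
    (x.2.1 = (1, [x.2.1.2.getD 0 0, x.2.1.2.getD 1 0]) ∧ x.2.1.2.getD 1 0 < x.1 ∧ x.2.2.length = 3) ∨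
    (x.2.1 = (2, [x.2.1.2.getD 0 0]) ∧ x.2.2.length = 4) ∨ (x.2.1 = (3, []) ∧ x.2.2.length = 2) ∨
    (x.2.1 = (4, [x.2.1.2.getD 0 0]) ∧ x.2.2.length = 3)) := by
    repeat (with_reducible first
      | exact c_id | exact c_const _ | exact p_true _ | refine p_and ?_ ?_ | refine p_or ?_ ?_
      | refine p_imp ?_ ?_ | refine p_not ?_ | refine p_eq ?_ ?_ | refine p_lt ?_ ?_ | refine p_le ?_ ?_
      | refine p_mem ?_ ?_ | refine p_all ?_ ?_ | refine p_ex ?_ ?_ | refine p_alllt ?_ ?_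
      | refine p_exlt ?_ ?_ | refine p_nodup ?_ | refine c_getD _ ?_ ?_ | refine c_len ?_
      | refine c_add ?_ ?_ | refine c_app ?_ ?_ | refine c_cons ?_ ?_ | refine c_range ?_
      | refine c_range' ?_ ?_ | refine c_fst ?_ | refine c_snd ?_ | refine c_pair ?_ ?_)
  exact h.of_eq fun x => (kindOk_iff x.1 x.2).symm

theorem p_kindOk' {α : Type} [Primcodable α] {s : α → ℕ} {pe : α → Edge} (hs : Computable s) (hp : Computable pe) :
    ComputablePred (fun a => kindOk (s a) (pe a)) := p_comp p_kindOk (c_pair hs hp)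

theorem legal_iff (E : List Edge) (s : ℕ) : Legal io (es E) (vw le s) ↔
    (∀ e ∈ E, e.1 = (2, [e.1.2.getD 0 0]) → ∀ f ∈ E, ¬ (f.1 = (0, [e.1.2.getD 0 0]) ∧
      f.2 = e.2 ++ [f.2.getD e.2.length 0])) ∧
    ∀ e ∈ E, (e = ((3, [e.1.2.getD 0 0]), [e.2.getD 0 0, e.2.getD 1 0]) ∧ le (e.1.2.getD 0 0) s = true) →
      ∀ f ∈ E, f = ((2, [f.1.2.getD 0 0]), [e.2.getD 0 0, e.2.getD 1 0, f.2.getD 2 0, f.2.getD 3 0]) →
        ((1, [f.1.2.getD 0 0, io (f.1.2.getD 0 0) (e.1.2.getD 0 0)]),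
          [e.2.getD 0 0, e.2.getD 1 0, f.2.getD 2 0]) ∈ E := by
  unfold Legal es vw
  refine and_congr ?_ ?_
  · constructor
    · intro h e he h1 f hf h2
      refine h (e.1.2.getD 0 0) e.2 (f.2.getD e.2.length 0) ?_ ?_
      · rw [← h1]
        exact he
      · rw [← h2.2, ← h2.1]
        exact hf
    · intro h j t w h1 h2
      refine h _ h1 rfl _ h2 ⟨rfl, ?_⟩
      simp
  · constructor
    · intro h e he h1 f hf h2
      refine h (f.1.2.getD 0 0) (e.1.2.getD 0 0) _ _ _ (f.2.getD 3 0) ?_ h1.2 ?_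
      · rw [← h1.1]
        exact he
      · rw [← h2]
        exact hf
    · intro h j r x y c u h1 h2 h3
      exact h _ h1 ⟨rfl, h2⟩ _ h3 rfl

theorem p_legal (h1 : Computable (fun p : ℕ × ℕ => le p.1 p.2)) (h2 : Computable (fun p : ℕ × ℕ => io p.1 p.2)) :
    ComputablePred (fun x : List Edge × ℕ => Legal io (es x.1) (vw le x.2)) := by
  have h : ComputablePred (fun x : List Edge × ℕ =>
    (∀ e ∈ x.1, e.1 = (2, [e.1.2.getD 0 0]) → ∀ f ∈ x.1, ¬ (f.1 = (0, [e.1.2.getD 0 0]) ∧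
      f.2 = e.2 ++ [f.2.getD e.2.length 0])) ∧
    ∀ e ∈ x.1, (e = ((3, [e.1.2.getD 0 0]), [e.2.getD 0 0, e.2.getD 1 0]) ∧ le (e.1.2.getD 0 0) x.2 = true) →
      ∀ f ∈ x.1, f = ((2, [f.1.2.getD 0 0]), [e.2.getD 0 0, e.2.getD 1 0, f.2.getD 2 0, f.2.getD 3 0]) →
        ((1, [f.1.2.getD 0 0, io (f.1.2.getD 0 0) (e.1.2.getD 0 0)]),
          [e.2.getD 0 0, e.2.getD 1 0, f.2.getD 2 0]) ∈ x.1) := by
    repeat (with_reducible first
      | exact c_id | exact c_const _ | exact p_true _ | refine p_and ?_ ?_ | refine p_or ?_ ?_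
      | refine p_imp ?_ ?_ | refine p_not ?_ | refine p_eq ?_ ?_ | refine p_lt ?_ ?_ | refine p_le ?_ ?_
      | refine p_mem ?_ ?_ | refine p_all ?_ ?_ | refine p_ex ?_ ?_ | refine p_alllt ?_ ?_
      | refine p_exlt ?_ ?_ | refine p_nodup ?_ | refine c_getD _ ?_ ?_ | refine c_len ?_
      | refine c_add ?_ ?_ | refine c_app ?_ ?_ | refine c_cons ?_ ?_ | refine c_range ?_
      | refine c_range' ?_ ?_ | refine p_bool ?_ | refine c_le h1 ?_ ?_ | refine c_io h2 ?_ ?_
      | refine c_fst ?_ | refine c_snd ?_ | refine c_pair ?_ ?_)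
  exact h.of_eq fun x => (legal_iff x.1 x.2).symm

theorem p_legal' (h1 : Computable (fun p : ℕ × ℕ => le p.1 p.2)) (h2 : Computable (fun p : ℕ × ℕ => io p.1 p.2))
    {α : Type} [Primcodable α] {E : α → List Edge} {s : α → ℕ} (hE : Computable E) (hs : Computable s) :
    ComputablePred (fun a => Legal io (es (E a)) (vw le (s a))) :=
  p_comp (p_legal h1 h2) (c_pair hE hs)

theorem ok_iff (s n : ℕ) (E : List Edge) (p q : ℕ) (pat : List Edge) (β : List ℕ) :
    Ok le io s n E p q pat β ↔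
      Code p q pat ∧ β.length = p ∧ β.Nodup ∧ (∀ v ∈ β, v < n) ∧ (∀ pe ∈ pat, kindOk s pe) ∧
      (∀ pe ∈ pat, pe = ((4, [pe.1.2.getD 0 0]), [pe.2.getD 0 0, pe.2.getD 1 0, pe.2.getD 2 0]) →
        ((p ≤ pe.2.getD 0 0 ∨ p ≤ pe.2.getD 1 0) → ((3, []), [pe.2.getD 0 0, pe.2.getD 1 0]) ∈ pat) ∧
        (pe.2.getD 0 0 < p → pe.2.getD 1 0 < p →
          (fnode le E s (β.getD (pe.2.getD 0 0) 0) (β.getD (pe.2.getD 1 0) 0)).isSome = true)) ∧
      (newEs le io E s n q pat β).Nodup ∧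
      Legal io (es (E ++ newEs le io E s n q pat β)) (vw le s) ∧
      ¬ Viol (lab io (es (E ++ newEs le io E s n q pat β)) (vw le s)) := by
  constructor
  · intro h
    refine ⟨h.code, h.len, h.nd, h.lt, h.kinds, fun pe hpe h1 => ⟨fun h2 => ?_, fun h2 h3 => ?_⟩, h.esnd, h.legal, h.nv⟩
    · exact h.cnew (pe.1.2.getD 0 0) _ _ (pe.2.getD 2 0) (by rw [← h1]; exact hpe) h2
    · exact h.cold (pe.1.2.getD 0 0) _ _ (pe.2.getD 2 0) (by rw [← h1]; exact hpe) h2 h3
  · rintro ⟨h1, h2, h3, h4, h5, h6, h7, h8, h9⟩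
    refine ⟨h1, h2, h3, h4, h5, fun j k₁ k₂ k₃ hk h => ?_, fun j k₁ k₂ k₃ hk h h' => ?_, h7, h8, h9⟩
    · exact (h6 _ hk rfl).1 h
    · exact (h6 _ hk rfl).2 h h'

theorem p_ok (h1 : Computable (fun p : ℕ × ℕ => le p.1 p.2)) (h2 : Computable (fun p : ℕ × ℕ => io p.1 p.2)) :
    ComputablePred (fun x : Par => Ok le io x.1.1 x.1.2.1 x.1.2.2 x.2.1.1 x.2.1.2 x.2.2.1 x.2.2.2) := by
  have h : ComputablePred (fun x : Par =>
      Code x.2.1.1 x.2.1.2 x.2.2.1 ∧ x.2.2.2.length = x.2.1.1 ∧ x.2.2.2.Nodup ∧ (∀ v ∈ x.2.2.2, v < x.1.2.1) ∧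
      (∀ pe ∈ x.2.2.1, kindOk x.1.1 pe) ∧
      (∀ pe ∈ x.2.2.1, pe = ((4, [pe.1.2.getD 0 0]), [pe.2.getD 0 0, pe.2.getD 1 0, pe.2.getD 2 0]) →
        ((x.2.1.1 ≤ pe.2.getD 0 0 ∨ x.2.1.1 ≤ pe.2.getD 1 0) →
          ((3, []), [pe.2.getD 0 0, pe.2.getD 1 0]) ∈ x.2.2.1) ∧
        (pe.2.getD 0 0 < x.2.1.1 → pe.2.getD 1 0 < x.2.1.1 →
          (fnode le x.1.2.2 x.1.1 (x.2.2.2.getD (pe.2.getD 0 0) 0) (x.2.2.2.getD (pe.2.getD 1 0) 0)).isSome =
            true)) ∧
      (newEs le io x.1.2.2 x.1.1 x.1.2.1 x.2.1.2 x.2.2.1 x.2.2.2).Nodup ∧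
      Legal io (es (x.1.2.2 ++ newEs le io x.1.2.2 x.1.1 x.1.2.1 x.2.1.2 x.2.2.1 x.2.2.2)) (vw le x.1.1) ∧
      ¬ Viol (lab io (es (x.1.2.2 ++ newEs le io x.1.2.2 x.1.1 x.1.2.1 x.2.1.2 x.2.2.1 x.2.2.2))
        (vw le x.1.1))) := by
    repeat (with_reducible first
      | exact c_id | exact c_const _ | exact p_true _ | refine p_and ?_ ?_ | refine p_or ?_ ?_
      | refine p_imp ?_ ?_ | refine p_not ?_ | refine p_eq ?_ ?_ | refine p_lt ?_ ?_ | refine p_le ?_ ?_
      | refine p_mem ?_ ?_ | refine p_all ?_ ?_ | refine p_ex ?_ ?_ | refine p_alllt ?_ ?_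
      | refine p_exlt ?_ ?_ | refine p_nodup ?_ | refine c_getD _ ?_ ?_ | refine c_len ?_
      | refine c_add ?_ ?_ | refine c_app ?_ ?_ | refine c_cons ?_ ?_ | refine c_range ?_
      | refine c_range' ?_ ?_ | refine p_bool ?_ | refine c_le h1 ?_ ?_ | refine c_io h2 ?_ ?_
      | refine p_code' ?_ ?_ ?_ | refine p_kindOk' ?_ ?_ | refine c_fnode h1 ?_ ?_ ?_ ?_
      | refine c_isSome ?_ | refine c_newEs h1 h2 ?_ ?_ ?_ ?_ ?_ ?_ | refine p_legal' h1 h2 ?_ ?_
      | refine p_viol' h1 h2 ?_ ?_ | refine c_fst ?_ | refine c_snd ?_ | refine c_pair ?_ ?_)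
  exact h.of_eq fun x => (ok_iff x.1.1 x.1.2.1 x.1.2.2 x.2.1.1 x.2.1.2 x.2.2.1 x.2.2.2).symm

/-! deletion -/

theorem deld_iff (E : List Edge) (s : ℕ) (e : Edge) : Deld le io (es E) s e ↔
    ∃ f ∈ E, f = ((3, [f.1.2.getD 0 0]), [e.2.getD 0 0, e.2.getD 1 0]) ∧
      e = ((2, [e.1.2.getD 0 0]), [e.2.getD 0 0, e.2.getD 1 0, e.2.getD 2 0, e.2.getD 3 0]) ∧
      le (f.1.2.getD 0 0) s = true ∧ f.1.2.getD 0 0 < s ∧
      ¬ ((1, [e.1.2.getD 0 0, io (e.1.2.getD 0 0) (f.1.2.getD 0 0)]), [e.2.getD 0 0, e.2.getD 1 0, e.2.getD 2 0]) ∈ E := by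
  unfold Deld es
  constructor
  · rintro ⟨j, x, y, c, u, r, h1, h2, h3, h4, h5⟩
    subst h1
    exact ⟨_, h4, rfl, rfl, h2, h3, h5⟩
  · rintro ⟨f, h1, h2, h3, h4, h5, h6⟩
    refine ⟨_, _, _, _, _, f.1.2.getD 0 0, h3, h4, h5, ?_, h6⟩
    show _ ∈ E
    rw [← h2]
    exact h1

theorem p_deld (h1 : Computable (fun p : ℕ × ℕ => le p.1 p.2)) (h2 : Computable (fun p : ℕ × ℕ => io p.1 p.2)) :
    ComputablePred (fun x : (List Edge × ℕ) × Edge => Deld le io (es x.1.1) x.1.2 x.2) := by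
  have h : ComputablePred (fun x : (List Edge × ℕ) × Edge =>
    ∃ f ∈ x.1.1, f = ((3, [f.1.2.getD 0 0]), [x.2.2.getD 0 0, x.2.2.getD 1 0]) ∧
      x.2 = ((2, [x.2.1.2.getD 0 0]), [x.2.2.getD 0 0, x.2.2.getD 1 0, x.2.2.getD 2 0, x.2.2.getD 3 0]) ∧
      le (f.1.2.getD 0 0) x.1.2 = true ∧ f.1.2.getD 0 0 < x.1.2 ∧
      ¬ ((1, [x.2.1.2.getD 0 0, io (x.2.1.2.getD 0 0) (f.1.2.getD 0 0)]),
        [x.2.2.getD 0 0, x.2.2.getD 1 0, x.2.2.getD 2 0]) ∈ x.1.1) := by
    repeat (with_reducible first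
      | exact c_id | exact c_const _ | exact p_true _ | refine p_and ?_ ?_ | refine p_or ?_ ?_
      | refine p_imp ?_ ?_ | refine p_not ?_ | refine p_eq ?_ ?_ | refine p_lt ?_ ?_ | refine p_le ?_ ?_
      | refine p_mem ?_ ?_ | refine p_all ?_ ?_ | refine p_ex ?_ ?_ | refine p_alllt ?_ ?_
      | refine p_exlt ?_ ?_ | refine p_nodup ?_ | refine c_getD _ ?_ ?_ | refine c_len ?_
      | refine c_add ?_ ?_ | refine c_app ?_ ?_ | refine c_cons ?_ ?_ | refine c_range ?_
      | refine c_range' ?_ ?_ | refine p_bool ?_ | refine c_le h1 ?_ ?_ | refine c_io h2 ?_ ?_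
      | refine c_fst ?_ | refine c_snd ?_ | refine c_pair ?_ ?_)
  exact h.of_eq fun x => (deld_iff x.1.1 x.1.2 x.2).symm

open Classical in
theorem c_del (h1 : Computable (fun p : ℕ × ℕ => le p.1 p.2)) (h2 : Computable (fun p : ℕ × ℕ => io p.1 p.2))
    {α : Type} [Primcodable α] {E : α → List Edge} {s : α → ℕ} (hE : Computable E) (hs : Computable s) :
    Computable (fun a => del le io (E a) (s a)) := by
  have h : Computable (fun x : List Edge × ℕ => del le io x.1 x.2) :=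
    c_filter (P := fun (x : List Edge × ℕ) (e : Edge) => decide (¬ Deld le io (es x.1) x.2 e)) (c_fst c_id)
      (c_dec (p_not (p_deld h1 h2)))
  exact h.comp (c_pair hE hs)

/-! the run -/

theorem c_req {α : Type} [Primcodable α] {f : α → ℕ} (hf : Computable f) : Computable (fun a => req (f a)) :=
  c_optGetD (Computable.decode.comp hf) (c_const _)

open Classical in
theorem c_act (h1 : Computable (fun p : ℕ × ℕ => le p.1 p.2)) (h2 : Computable (fun p : ℕ × ℕ => io p.1 p.2)) :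
    Computable (fun x : (ℕ × ((ℕ × ℕ) × List Edge × List ℕ)) × (ℕ × List Edge) => act le io x.1.1 x.1.2 x.2) := by
  unfold act
  refine c_ite ?_ ?_ ?_
  · exact p_comp (p_ok h1 h2) (c_pair (c_pair (c_fst (c_fst c_id)) (c_snd c_id)) (c_snd (c_fst c_id)))
  all_goals
    repeat (with_reducible first
      | exact c_id | exact c_const _ | exact p_true _ | refine p_and ?_ ?_ | refine p_or ?_ ?_
      | refine p_imp ?_ ?_ | refine p_not ?_ | refine p_eq ?_ ?_ | refine p_lt ?_ ?_ | refine p_le ?_ ?_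
      | refine p_mem ?_ ?_ | refine p_all ?_ ?_ | refine p_ex ?_ ?_ | refine p_alllt ?_ ?_
      | refine p_exlt ?_ ?_ | refine p_nodup ?_ | refine c_getD _ ?_ ?_ | refine c_len ?_
      | refine c_add ?_ ?_ | refine c_app ?_ ?_ | refine c_cons ?_ ?_ | refine c_range ?_
      | refine c_range' ?_ ?_ | refine c_newEs h1 h2 ?_ ?_ ?_ ?_ ?_ ?_ | refine c_fst ?_ | refine c_snd ?_
      | refine c_pair ?_ ?_)

theorem cm_run (G : Guide) (h1 : Computable (fun p : ℕ × ℕ => G.le p.1 p.2))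
    (h2 : Computable (fun p : ℕ × ℕ => G.io p.1 p.2)) (h3 : Computable G.rqi) :
    Computable (run G) := by
  have h : Computable (fun s : ℕ => (Nat.rec (motive := fun _ => ℕ × List Edge) (0, [])
      (fun s r => act G.le G.io s (req (G.rqi s)) (r.1, del G.le G.io r.2 s)) s : ℕ × List Edge)) := by
    refine Computable.nat_rec (f := fun s : ℕ => s) (g := fun _ => ((0, []) : ℕ × List Edge))
      (h := fun (_ : ℕ) (p : ℕ × (ℕ × List Edge)) =>
        act G.le G.io p.1 (req (G.rqi p.1)) (p.2.1, del G.le G.io p.2.2 p.1)) c_id (c_const _) ?_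
    have h' : Computable (fun x : ℕ × (ℕ × (ℕ × List Edge)) =>
        act G.le G.io x.2.1 (req (G.rqi x.2.1)) (x.2.2.1, del G.le G.io x.2.2.2 x.2.1)) := by
      have e1 : Computable (fun x : ℕ × (ℕ × (ℕ × List Edge)) => x.2.1) := c_fst (c_snd c_id)
      have e2 : Computable (fun x : ℕ × (ℕ × (ℕ × List Edge)) => req (G.rqi x.2.1)) := c_req (h3.comp e1)
      have e3 : Computable (fun x : ℕ × (ℕ × (ℕ × List Edge)) => x.2.2.1) := c_fst (c_snd (c_snd c_id))
      have e4 : Computable (fun x : ℕ × (ℕ × (ℕ × List Edge)) => x.2.2.2) := c_snd (c_snd (c_snd c_id))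
      have e5 := c_del h1 h2 e4 e1
      have e6 := (c_act h1 h2).comp (c_pair (c_pair e1 e2) (c_pair e3 e5))
      exact e6
    exact h'
  refine h.of_eq fun s => ?_
  induction s with
  | zero => rfl
  | succ s ih =>
    show act G.le G.io s (req (G.rqi s)) _ = act G.le G.io s (req (G.rqi s)) _
    rw [ih]

end

end FdZ.Cm
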