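import Pool.Agent.Lib.MP_fd2900_lc.Z.VS

namespace FdZ

/-- the entry read at the index of a member is the member -/
private theorem CodA_getD_idxOf {xs : List ℕ} {v : ℕ} (hv : v ∈ xs) : xs.getD (xs.idxOf v) 0 = v := by
  have h : xs.idxOf v < xs.length := List.idxOf_lt_length_of_mem hv
  rw [List.getD_eq_getElem _ _ h]
  exact List.getElem_idxOf h

/-- the pattern entry of an edge -/
private def CodA_g (xs : List ℕ) (e : Edge) : Edge := (e.1, e.2.map fun v => xs.idxOf v)

private theorem CodA_inst {xs : List ℕ} {e : Edge} (h : ∀ v ∈ e.2, v ∈ xs) :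
    inst xs (CodA_g xs e).2 = e.2 := by
  unfold inst CodA_g
  rw [List.map_map]
  conv_rhs => rw [← List.map_id e.2]
  apply List.map_congr_left
  intro v hv
  exact CodA_getD_idxOf (h v hv)

private theorem CodA_inj {xs : List ℕ} {v w : ℕ} (hv : v ∈ xs) (hw : w ∈ xs)
    (h : xs.idxOf v = xs.idxOf w) : v = w := by
  rw [← CodA_getD_idxOf hv, ← CodA_getD_idxOf hw, h]

private theorem CodA_idx_lt {β ω : List ℕ} {v : ℕ} (hv : v ∈ β) : (β ++ ω).idxOf v < β.length := by
  rw [List.idxOf_append_of_mem hv]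
  exact List.idxOf_lt_length_of_mem hv

private theorem CodA_idx_ge {β ω : List ℕ} {v : ℕ} (hv : v ∉ β) : β.length ≤ (β ++ ω).idxOf v := by
  rw [List.idxOf_append_of_notMem hv]
  omega

/-- the code of a minimal extension -/
theorem min_code {VE : Set Edge} (hnd : ∀ e ∈ VE, e.2.Nodup) {Y W : Finset ℕ} (hW : MinExt VE Y W) :
    ∃ (p : ℕ) (pat : List Edge) (β ω : List ℕ), Code p W.card pat ∧ β.length = p ∧ ω.length = W.card ∧
      (∀ v ∈ β, v ∈ Y) ∧ (∀ v, v ∈ ω ↔ v ∈ W) ∧ Real (vl VE) pat β ω ∧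
      ∀ e ∈ VE, Meets Y W e → ImgE (vl VE) pat β ω e := by
  classical
  obtain ⟨L, hLc, hL⟩ := hW.all
  set B : Finset ℕ := Y.filter (fun v => ∃ e ∈ L, v ∈ e.2) with hB
  set β : List ℕ := B.toList with hβ
  set ω : List ℕ := W.toList with hω
  have mβ : ∀ v, v ∈ β ↔ v ∈ Y ∧ ∃ e ∈ L, v ∈ e.2 := by
    intro v
    rw [hβ, Finset.mem_toList, hB, Finset.mem_filter]
  have mω : ∀ v, v ∈ ω ↔ v ∈ W := by
    intro v
    rw [hω, Finset.mem_toList]
  have hdis : ∀ v ∈ W, v ∉ β := fun v hv h => hW.dj v hv ((mβ v).1 h).1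
  have hxnd : (β ++ ω).Nodup := by
    rw [List.nodup_append]
    refine ⟨Finset.nodup_toList _, Finset.nodup_toList _, ?_⟩
    intro a ha b hb hab
    subst hab
    exact hdis a ((mω a).1 hb) ha
  have hωl : ω.length = W.card := by rw [hω, Finset.length_toList]
  have hin : ∀ e ∈ L, ∀ v ∈ e.2, v ∈ β ++ ω := by
    intro e he v hv
    rw [List.mem_append]
    rcases ((hL e).1 he).2.1 v hv with h | h
    · exact Or.inl ((mβ v).2 ⟨h, e, he, hv⟩)
    · exact Or.inr ((mω v).2 h)
  refine ⟨β.length, L.toList.map (CodA_g (β ++ ω)), β, ω, ?_, rfl, hωl, fun v hv => ((mβ v).1 hv).1, mω,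
    ?_, ?_⟩
  · refine ⟨hW.ne.card_pos, ?_, ?_, ?_, ?_, ?_, ?_⟩
    · rw [List.length_map, Finset.length_toList, hLc]
    · intro pe hpe
      obtain ⟨e, he, rfl⟩ := List.mem_map.1 hpe
      have he' : e ∈ L := Finset.mem_toList.1 he
      show (e.2.map fun v => (β ++ ω).idxOf v).Nodup
      refine List.Nodup.map_on ?_ (hnd e ((hL e).1 he').1)
      intro v hv w hw h
      exact CodA_inj (hin e he' v hv) (hin e he' w hw) h
    · intro pe hpe k hk
      obtain ⟨e, he, rfl⟩ := List.mem_map.1 hpe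
      have he' : e ∈ L := Finset.mem_toList.1 he
      obtain ⟨v, hv, rfl⟩ := List.mem_map.1 hk
      have := List.idxOf_lt_length_of_mem (hin e he' v hv)
      rw [List.length_append, hωl] at this
      exact this
    · intro pe hpe
      obtain ⟨e, he, rfl⟩ := List.mem_map.1 hpe
      have he' : e ∈ L := Finset.mem_toList.1 he
      obtain ⟨v, hv, hvW⟩ := ((hL e).1 he').2.2
      exact ⟨(β ++ ω).idxOf v, List.mem_map.2 ⟨v, hv, rfl⟩, CodA_idx_ge (hdis v hvW)⟩
    · intro k hk
      have hm : β[k] ∈ β := List.getElem_mem hk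
      obtain ⟨_, e, he, hv⟩ := (mβ _).1 hm
      refine ⟨CodA_g (β ++ ω) e, List.mem_map.2 ⟨e, Finset.mem_toList.2 he, rfl⟩, ?_⟩
      refine List.mem_map.2 ⟨β[k], hv, ?_⟩
      show (β ++ ω).idxOf β[k] = k
      rw [List.idxOf_append_of_mem hm]
      exact List.Nodup.idxOf_getElem (Finset.nodup_toList _) k hk
    · intro P hPne hPss
      set P' : Finset ℕ := W.filter (fun v => (β ++ ω).idxOf v ∈ P) with hP'
      have mP' : ∀ v, v ∈ P' ↔ v ∈ W ∧ (β ++ ω).idxOf v ∈ P := by
        intro v; rw [hP', Finset.mem_filter]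
      -- every index in the new range is the index of a member of W
      have hsurj : ∀ k ∈ Finset.Ico β.length (β.length + W.card), ∃ v ∈ W, (β ++ ω).idxOf v = k := by
        intro k hk
        rw [Finset.mem_Ico] at hk
        have hkl : k < (β ++ ω).length := by rw [List.length_append, hωl]; exact hk.2
        have hidx : (β ++ ω).idxOf (β ++ ω)[k] = k := List.Nodup.idxOf_getElem hxnd k hkl
        refine ⟨(β ++ ω)[k], ?_, hidx⟩
        have hm : (β ++ ω)[k] ∈ β ++ ω := List.getElem_mem hkl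
        rcases List.mem_append.1 hm with h | h
        · have := CodA_idx_lt (ω := ω) h
          rw [hidx] at this
          omega
        · exact (mω _).1 h
      have hcard : P'.card = P.card := by
        refine Finset.card_bij (fun v _ => (β ++ ω).idxOf v) ?_ ?_ ?_
        · intro v hv
          exact ((mP' v).1 hv).2
        · intro v hv w hw h
          exact CodA_inj (List.mem_append.2 (Or.inr ((mω v).2 ((mP' v).1 hv).1)))
            (List.mem_append.2 (Or.inr ((mω w).2 ((mP' w).1 hw).1))) h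
        · intro k hk
          obtain ⟨v, hv, hvk⟩ := hsurj k (hPss.1 hk)
          exact ⟨v, (mP' v).2 ⟨hv, by rw [hvk]; exact hk⟩, hvk⟩
      have hP'ne : P'.Nonempty := by
        rw [← Finset.card_pos, hcard, Finset.card_pos]
        exact hPne
      have hP'ss : P' ⊂ W := by
        rw [Finset.ssubset_iff_of_subset (Finset.filter_subset _ _)]
        obtain ⟨k, hk, hkP⟩ := Finset.exists_of_ssubset hPss
        obtain ⟨v, hv, hvk⟩ := hsurj k hk
        refine ⟨v, hv, fun h => hkP ?_⟩
        rw [← hvk]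
        exact ((mP' v).1 h).2
      rw [← hcard]
      unfold cnt
      rw [List.filter_map, List.length_map]
      rw [← List.toFinset_card_of_nodup (List.Nodup.filter _ (Finset.nodup_toList L))]
      refine hW.min P' hP'ss hP'ne _ ?_
      intro e he
      rw [List.mem_toFinset, List.mem_filter] at he
      obtain ⟨he1, he2⟩ := he
      have he' : e ∈ L := Finset.mem_toList.1 he1
      have he3 := of_decide_eq_true he2
      obtain ⟨h1, k, hk, hkP⟩ := he3
      refine ⟨((hL e).1 he').1, ?_, ?_⟩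
      · intro v hv
        rcases ((hL e).1 he').2.1 v hv with h | h
        · exact Or.inl h
        · refine Or.inr ((mP' v).2 ⟨h, ?_⟩)
          rcases h1 _ (List.mem_map.2 ⟨v, hv, rfl⟩) with h2 | h2
          · have := CodA_idx_ge (ω := ω) (hdis v h)
            omega
          · exact h2
      · obtain ⟨v, hv, rfl⟩ := List.mem_map.1 hk
        refine ⟨v, hv, (mP' v).2 ⟨?_, hkP⟩⟩
        rcases List.mem_append.1 (hin e he' v hv) with h | h
        · have h3 := CodA_idx_lt (ω := ω) h
          have h4 := Finset.mem_Ico.1 (hPss.1 hkP)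
          omega
        · exact (mω v).1 h
  · refine ⟨hxnd, L.toList, Finset.nodup_toList L, ?_⟩
    rw [List.forall₂_map_left_iff, List.forall₂_same]
    intro e he
    have he' : e ∈ L := Finset.mem_toList.1 he
    exact ⟨⟨((hL e).1 he').1, rfl⟩, (CodA_inst (hin e he')).symm⟩
  · intro e he hm
    have he' : e ∈ L := (hL e).2 ⟨he, hm⟩
    exact ⟨CodA_g (β ++ ω) e, List.mem_map.2 ⟨e, Finset.mem_toList.2 he', rfl⟩, ⟨he, rfl⟩,
      (CodA_inst (hin e he')).symm⟩

end FdZ
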