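import Pool.Agent.Lib.MP_fd2900_lc.Z.VS

namespace FdZ

private theorem CodB_forall₂ {α β : Type*} {R : α → β → Prop} {l : List α} {l' : List β}
    (h : List.Forall₂ R l l') : ∀ a ∈ l, ∃ b ∈ l', R a b := by
  induction h with
  | nil => intro a ha; simp at ha
  | cons hab _ ih =>
    intro a ha
    rcases List.mem_cons.1 ha with rfl | ha
    · exact ⟨_, List.mem_cons_self, hab⟩
    · obtain ⟨b, hb, hR⟩ := ih a ha
      exact ⟨b, List.mem_cons_of_mem _ hb, hR⟩

private theorem CodB_real {lab : Lb → Edge → Prop} {pat : List Edge} {β ν : List ℕ}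
    (h : Real lab pat β ν) {pe : Edge} (hpe : pe ∈ pat) :
    ∃ e : Edge, lab pe.1 e ∧ e.2 = inst (β ++ ν) pe.2 := by
  obtain ⟨_, es, _, hf⟩ := h
  obtain ⟨e, _, he⟩ := CodB_forall₂ hf pe hpe
  exact ⟨e, he⟩

private theorem CodB_getD {β ω ν : List ℕ} {h h' : ℕ → ℕ} {p : ℕ} (hβ : β.length = p)
    (hων : ω.length = ν.length) (h1 : ∀ v ∈ β, h' v = h v)
    (h2 : ∀ k < ω.length, h' (ω.getD k 0) = ν.getD k 0) {k : ℕ} (hk : k < p + ω.length) :
    h' ((β ++ ω).getD k 0) = (β.map h ++ ν).getD k 0 := by
  rcases lt_or_ge k p with hkp | hkp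
  · rw [List.getD_append _ _ _ _ (by omega), List.getD_append _ _ _ _ (by simp; omega)]
    rw [List.getD_eq_getElem _ _ (by omega), List.getD_eq_getElem _ _ (by simp; omega)]
    rw [List.getElem_map]
    exact h1 _ (List.getElem_mem _)
  · rw [List.getD_append_right _ _ _ _ (by omega), List.getD_append_right _ _ _ _ (by simp; omega)]
    rw [List.length_map]
    exact h2 _ (by omega)

private theorem CodB_inst {xs ys idx : List ℕ} {h' : ℕ → ℕ}
    (h : ∀ k ∈ idx, h' (xs.getD k 0) = ys.getD k 0) : (inst xs idx).map h' = inst ys idx := by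
  unfold inst
  rw [List.map_map]
  exact List.map_congr_left h

/-- a realization of the code outside `Y'` gives an extension of the isomorphism -/
theorem ext_iso {VE : Set Edge} (hnd : ∀ e ∈ VE, e.2.Nodup) {base Y Y' W : Finset ℕ} {h : ℕ → ℕ}
    (hi : Iso VE base Y Y' h) (hW : ∀ v ∈ W, v ∉ Y) {p : ℕ} {pat : List Edge} {β ω ν : List ℕ}
    (hc : Code p W.card pat) (hβ : β.length = p) (hω : ω.length = W.card) (hβY : ∀ v ∈ β, v ∈ Y)
    (hωW : ∀ v, v ∈ ω ↔ v ∈ W) (hr : Real (vl VE) pat β ω)
    (hall : ∀ e ∈ VE, Meets Y W e → ImgE (vl VE) pat β ω e)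
    (hs : Strong (vl VE) (Y' : Set ℕ) W.card) (hν : ν.length = W.card)
    (hr' : Real (vl VE) pat (β.map h) ν) (hout : ∃ v ∈ ν, v ∉ Y') :
    ∃ (W' : Finset ℕ) (h' : ℕ → ℕ), (∀ v ∈ W', v ∉ Y') ∧ W'.card = W.card ∧ (∀ v ∈ Y, h' v = h v) ∧
      Iso VE base (Y ∪ W) (Y' ∪ W') h' := by
  classical
  have hβY' : ∀ v ∈ β.map h, v ∈ Y' := by
    intro v hv
    obtain ⟨u, hu, rfl⟩ := List.mem_map.1 hv
    exact hi.bij.mapsTo (hβY u hu)
  have hlen' : (β.map h).length = p := by simpa using hβ
  have hνY' : ∀ v ∈ ν, v ∉ Y' := by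
    rcases dich (X := (Y' : Set ℕ)) hs le_rfl hc hlen' hν hr' (fun v hv => hβY' v hv) with h1 | h1
    · obtain ⟨v, hv, hv'⟩ := hout
      exact absurd (h1 v hv) hv'
    · exact h1
  have hνnd : ν.Nodup := (List.nodup_append.1 hr'.1).2.1
  have hωnd : ω.Nodup := (List.nodup_append.1 hr.1).2.1
  set h' : ℕ → ℕ := fun v => if v ∈ W then ν.getD (ω.idxOf v) 0 else h v with hh'
  have hY : ∀ v ∈ Y, h' v = h v := by
    intro v hv
    have : v ∉ W := fun hw => hW v hw hv
    simp [hh', this]
  have hk : ∀ k < ω.length, h' (ω.getD k 0) = ν.getD k 0 := by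
    intro k hk
    have hm : ω.getD k 0 ∈ W := by
      rw [← hωW, List.getD_eq_getElem _ _ hk]; exact List.getElem_mem _
    simp only [hh', hm, if_true]
    rw [List.getD_eq_getElem _ _ hk, hωnd.idxOf_getElem]
  have hων : ω.length = ν.length := by omega
  -- h' on W
  have hWidx : ∀ v ∈ W, ∃ k < ω.length, v = ω.getD k 0 := by
    intro v hv
    obtain ⟨k, hk, hkv⟩ := List.getElem_of_mem ((hωW v).2 hv)
    exact ⟨k, hk, by rw [List.getD_eq_getElem _ _ hk, hkv]⟩
  have hWW' : ∀ v ∈ W, h' v ∈ ν := by
    intro v hv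
    obtain ⟨k, hk1, rfl⟩ := hWidx v hv
    rw [hk k hk1, List.getD_eq_getElem _ _ (by omega)]
    exact List.getElem_mem _
  have hWinj : ∀ u ∈ W, ∀ v ∈ W, h' u = h' v → u = v := by
    intro u hu v hv huv
    obtain ⟨k, hk1, rfl⟩ := hWidx u hu
    obtain ⟨l, hl1, rfl⟩ := hWidx v hv
    rw [hk k hk1, hk l hl1, List.getD_eq_getElem _ _ (by omega), List.getD_eq_getElem _ _ (by omega)] at huv
    have : k = l := by
      have := (List.Nodup.getElem_inj_iff hνnd).1 huv
      exact this
    rw [this]
  have hinj : Set.InjOn h' ((Y ∪ W : Finset ℕ) : Set ℕ) := by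
    intro u hu v hv huv
    rw [Finset.mem_coe, Finset.mem_union] at hu hv
    rcases hu with hu | hu <;> rcases hv with hv | hv
    · rw [hY u hu, hY v hv] at huv
      exact hi.bij.injOn hu hv huv
    · exfalso
      rw [hY u hu] at huv
      exact hνY' _ (huv ▸ hWW' v hv) (hi.bij.mapsTo hu)
    · exfalso
      rw [hY v hv] at huv
      exact hνY' _ (huv ▸ hWW' u hu) (hi.bij.mapsTo hv)
    · exact hWinj u hu v hv huv
  have hgetD : ∀ k < p + ω.length, h' ((β ++ ω).getD k 0) = (β.map h ++ ν).getD k 0 := by
    intro k hkk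
    exact CodB_getD hβ hων (fun v hv => hY v (hβY v hv)) hk hkk
  have hinst : ∀ pe ∈ pat, (inst (β ++ ω) pe.2).map h' = inst (β.map h ++ ν) pe.2 := by
    intro pe hpe
    apply CodB_inst
    intro k hkk
    exact hgetD k (by rw [hω]; exact hc.lt pe hpe k hkk)
  have hmaps : ∀ v ∈ Y ∪ W, h' v ∈ Y' ∪ ν.toFinset := by
    intro v hv
    rcases Finset.mem_union.1 hv with hv | hv
    · rw [hY v hv]; exact Finset.mem_union_left _ (hi.bij.mapsTo hv)
    · exact Finset.mem_union_right _ (List.mem_toFinset.2 (hWW' v hv))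
  refine ⟨ν.toFinset, h', fun v hv => hνY' v (List.mem_toFinset.1 hv), ?_, hY, ?_⟩
  · rw [List.toFinset_card_of_nodup hνnd, hν]
  refine ⟨⟨fun v hv => hmaps v hv, hinj, ?_⟩, ?_, ?_, ?_⟩
  · intro v hv
    rw [Finset.mem_coe, Finset.mem_union, List.mem_toFinset] at hv
    rcases hv with hv | hv
    · obtain ⟨u, hu, rfl⟩ := hi.bij.surjOn hv
      exact ⟨u, by simp only [Finset.coe_union]; exact Or.inl hu, hY u hu⟩
    · obtain ⟨k, hk1, hk2⟩ := List.getElem_of_mem hv
      refine ⟨ω.getD k 0, ?_, ?_⟩
      · simp only [Finset.coe_union]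
        right
        rw [Finset.mem_coe, ← hωW, List.getD_eq_getElem _ _ (by omega)]
        exact List.getElem_mem _
      · rw [hk k (by omega), List.getD_eq_getElem _ _ hk1, hk2]
  · intro v hv
    rw [hY v (hi.sub hv)]
    exact hi.fix v hv
  · exact hi.sub.trans Finset.subset_union_left
  · intro e he
    by_cases hcase : ∀ v ∈ e.2, v ∈ Y
    · have : e.2.map h' = e.2.map h := List.map_congr_left fun v hv => hY v (hcase v hv)
      rw [this]
      exact hi.iff e hcase
    · push Not at hcase
      obtain ⟨w, hwe, hwY⟩ := hcase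
      have hwW : w ∈ W := by
        rcases Finset.mem_union.1 (he w hwe) with h1 | h1
        · exact absurd h1 hwY
        · exact h1
      constructor
      · intro heVE
        obtain ⟨pe, hpe, hl, h2⟩ := hall e heVE ⟨fun v hv => Finset.mem_union.1 (he v hv), w, hwe, hwW⟩
        obtain ⟨e', hl', h2'⟩ := CodB_real hr' hpe
        have : e' = (e.1, e.2.map h') := by
          apply Prod.ext
          · rw [hl'.2, ← hl.2]
          · simp only
            rw [h2', h2, hinst pe hpe]
        rw [← this]
        exact hl'.1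
      · intro heVE
        obtain ⟨L, hLc, hL⟩ := all_edges hc hr'
        have hfew := hs ν.toFinset (by rw [List.toFinset_card_of_nodup hνnd, hν])
          (fun v hv => by
            rw [List.mem_toFinset] at hv
            exact fun hv' => hνY' v hv (Finset.mem_coe.1 hv'))
        have hmem : (e.1, e.2.map h') ∈ L := by
          by_contra hnot
          have hc1 := hfew (insert (e.1, e.2.map h') L) (by
            intro e₁ he₁
            rcases Finset.mem_insert.1 he₁ with rfl | he₁
            · refine ⟨⟨e.1, heVE, rfl⟩, ?_, ?_⟩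
              · intro v hv
                obtain ⟨u, hu, rfl⟩ := List.mem_map.1 hv
                have := hmaps u (he u hu)
                rcases Finset.mem_union.1 this with h1 | h1
                · exact Or.inl h1
                · exact Or.inr h1
              · exact ⟨h' w, List.mem_map_of_mem hwe, by
                  rw [Finset.mem_coe, List.mem_toFinset]; exact hWW' w hwW⟩
            · have h3 := hL e₁ he₁
              have h4 := img_sub hc hlen' hν h3
              refine ⟨?_, ?_, ?_⟩
              · obtain ⟨pe, _, hl, _⟩ := h3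
                exact ⟨_, hl⟩
              · intro v hv
                rcases h4.1 v hv with h1 | h1
                · exact Or.inl (hβY' v h1)
                · exact Or.inr (by rw [Finset.mem_coe, List.mem_toFinset]; exact h1)
              · obtain ⟨v, hv, hv'⟩ := h4.2
                exact ⟨v, hv, by rw [Finset.mem_coe, List.mem_toFinset]; exact hv'⟩)
          rw [Finset.card_insert_of_notMem hnot, hLc, List.toFinset_card_of_nodup hνnd, hν] at hc1
          omega
        obtain ⟨pe, hpe, hl, h2⟩ := hL _ hmem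
        obtain ⟨e'', hl'', h2''⟩ := CodB_real hr hpe
        have hin : ∀ v ∈ e''.2, v ∈ Y ∪ W := by
          intro v hv
          rw [h2''] at hv
          unfold inst at hv
          obtain ⟨k, hkk, rfl⟩ := List.mem_map.1 hv
          have hlt := hc.lt pe hpe k hkk
          have : (β ++ ω).getD k 0 ∈ β ++ ω := by
            rw [List.getD_eq_getElem _ _ (by simp; omega)]
            exact List.getElem_mem _
          rcases List.mem_append.1 this with h1 | h1
          · exact Finset.mem_union_left _ (hβY _ h1)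
          · exact Finset.mem_union_right _ ((hωW _).1 h1)
        have hmap : e''.2.map h' = e.2.map h' := by
          rw [h2'', hinst pe hpe]
          exact h2.symm
        have hee : e''.2 = e.2 := by
          have hlen : e''.2.length = e.2.length := by
            have := congrArg List.length hmap
            simpa using this
          apply List.ext_getElem hlen
          intro i h1 h2
          have h3 : (e''.2.map h')[i]'(by simpa using h1) = (e.2.map h')[i]'(by simpa using h2) := by
            simp only [hmap]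
          rw [List.getElem_map, List.getElem_map] at h3
          exact hinj (hin _ (List.getElem_mem _)) (he _ (List.getElem_mem _)) h3
        have : e'' = e := by
          apply Prod.ext
          · rw [hl''.2, ← hl.2]
          · exact hee
        rw [← this]
        exact hl''.1

end FdZ
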