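import Pool.Agent.Lib.MP_fd2900_lc.Z.Iface
import Pool.Agent.Lib.MP_fd2900_lc.Z.CmD

/-! computability of the construction -/

namespace FdZ

open Cm

theorem run_comp (G : Guide) (h1 : Computable (fun p : ℕ × ℕ => G.le p.1 p.2))
    (h2 : Computable (fun p : ℕ × ℕ => G.io p.1 p.2)) (h3 : Computable G.rqi) :
    Computable (run G) := cm_run G h1 h2 h3

theorem arA_comp : Computable arA := by
  unfold arA
  repeat (with_reducible first
    | exact c_id | exact c_const _ | exact p_true _ | refine p_and ?_ ?_ | refine p_or ?_ ?_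
    | refine p_imp ?_ ?_ | refine p_not ?_ | refine p_eq ?_ ?_ | refine p_lt ?_ ?_ | refine p_le ?_ ?_
    | refine p_mem ?_ ?_ | refine p_all ?_ ?_ | refine p_ex ?_ ?_ | refine p_alllt ?_ ?_
    | refine p_exlt ?_ ?_ | refine p_nodup ?_ | refine c_getD _ ?_ ?_ | refine c_len ?_
    | refine c_add ?_ ?_ | refine c_app ?_ ?_ | refine c_cons ?_ ?_ | refine c_range ?_
    | refine c_range' ?_ ?_ | refine c_mod ?_ ?_ | refine c_ite ?_ ?_ ?_ | refine c_fst ?_
    | refine c_snd ?_ | refine c_pair ?_ ?_)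

/-- a bound for the vertices of a tuple -/
def bnd (l : List ℕ) : ℕ := l.foldl (fun a b => a + b) 0

theorem le_bnd {l : List ℕ} {v : ℕ} (hv : v ∈ l) : v ≤ bnd l := by
  have key : ∀ (l : List ℕ) (acc : ℕ), acc ≤ l.foldl (fun a b => a + b) acc ∧
      ∀ v ∈ l, v ≤ l.foldl (fun a b => a + b) acc := by
    intro l
    induction l with
    | nil => intro acc; simp
    | cons x l ih =>
      intro acc
      obtain ⟨h1, h2⟩ := ih (acc + x)
      rw [List.foldl_cons]
      refine ⟨by omega, fun v hv => ?_⟩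
      rcases List.mem_cons.1 hv with rfl | hv
      · omega
      · exact h2 v hv
  exact (key l 0).2 v hv

theorem c_bnd {α : Type} [Primcodable α] {l : α → List ℕ} (hl : Computable l) : Computable (fun a => bnd (l a)) :=
  c_foldl (h := fun (_ : α) (a b : ℕ) => a + b) hl (c_const 0) (c_add (c_fst (c_snd c_id)) (c_snd (c_snd c_id)))

theorem fe_iff (G : Guide) {e : Edge} (he : e.1.1 ≠ 2) : e ∈ FE G ↔ e ∈ (run G (bnd e.2 + 1)).2 := by
  constructor
  · intro h
    refine (fe_at h (r := bnd e.2 + 1) (s := bnd e.2 + 1) (fun v hv => ?_) le_rfl).1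
    have h1 := le_bnd hv
    have h2 := le_nn (G := G) (bnd e.2 + 1)
    omega
  · intro h
    exact fe_of_ne h he

theorem DA_comp (G : Guide) (h : Computable (run G)) : ComputablePred (DA G) := by
  have hr : ∀ {α : Type} [Primcodable α] {f : α → ℕ}, Computable f → Computable (fun a => run G (f a)) :=
    fun hf => h.comp hf
  have h' : ComputablePred (fun a : ℕ × List ℕ =>
      (a.1 % 3 = 0 ∧ ((0, [a.1 / 3]), a.2) ∈ (run G (bnd a.2 + 1)).2) ∨
      (a.1 % 3 = 1 ∧ ((1, [(a.1 / 3).unpair.1, (a.1 / 3).unpair.2]), a.2) ∈ (run G (bnd a.2 + 1)).2) ∨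
      (a.1 % 3 = 2 ∧ a.2 = [a.1 / 3])) := by
    repeat (with_reducible first
      | exact c_id | exact c_const _ | exact p_true _ | refine p_and ?_ ?_ | refine p_or ?_ ?_
      | refine p_imp ?_ ?_ | refine p_not ?_ | refine p_eq ?_ ?_ | refine p_lt ?_ ?_ | refine p_le ?_ ?_
      | refine p_mem ?_ ?_ | refine p_all ?_ ?_ | refine p_ex ?_ ?_ | refine p_alllt ?_ ?_
      | refine p_exlt ?_ ?_ | refine p_nodup ?_ | refine c_getD _ ?_ ?_ | refine c_len ?_
      | refine c_add ?_ ?_ | refine c_app ?_ ?_ | refine c_cons ?_ ?_ | refine c_range ?_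
      | refine c_range' ?_ ?_ | refine c_mod ?_ ?_ | refine c_div ?_ ?_ | refine c_unpair ?_
      | refine c_bnd ?_ | refine hr ?_ | refine c_fst ?_ | refine c_snd ?_ | refine c_pair ?_ ?_)
  refine h'.of_eq fun a => ?_
  unfold DA
  rw [fe_iff G (e := ((0, [a.1 / 3]), a.2)) (by simp),
    fe_iff G (e := ((1, [(a.1 / 3).unpair.1, (a.1 / 3).unpair.2]), a.2)) (by simp)]

end FdZ
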