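import Pool.Agent.Lib.MP_fd2900_lc.Z.Batch

namespace FdZ

variable {le : ℕ → ℕ → Bool} {io : ℕ → ℕ → ℕ} {s n p q : ℕ} {E pat : List Edge} {β : List ℕ}

/-- a pair has at most one `F` edge -/
def FUniq (E : List Edge) : Prop :=
  ∀ r r' x y, ((3, [r]), [x, y]) ∈ E → ((3, [r']), [x, y]) ∈ E → r = r'

/-- the view of a stage is a view -/
theorem view_vw (hr : ∀ r s, le r s = true → r ≤ s) (ht : ∀ r s t, le r s = true → le s t = true → le r t = true)
    (hc : ∀ r s t, le r t = true → le s t = true → r ≤ s → le r s = true) (s : ℕ) : View le (vw le s) := by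
  intro t h r hrt
  exact ⟨fun h1 => hc r t s h1 h hrt, fun h1 => ht r t s h1 h⟩

/-- an `F` edge created at stage `s` has kind (3, [s]) -/
private theorem CrA_mkE_F {xs : List ℕ} {pe : Edge} {r : ℕ}
    (h : (mkE le io E s n xs pe).1 = (3, [r])) : r = s := by
  unfold mkE at h
  split_ifs at h with h1 h2 h3
  · simp only [Prod.mk.injEq, List.cons.injEq, and_true, true_and] at h
    exact h.symm
  · simp at h
  · simp at h
  · rw [h] at h1
    exact absurd rfl h1

private theorem CrA_new_F {e : Edge} {r : ℕ} (he : e ∈ newEs le io E s n q pat β)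
    (h : e.1 = (3, [r])) : r = s := by
  unfold newEs at he
  rw [List.mem_map] at he
  obtain ⟨pe, _, rfl⟩ := he
  exact CrA_mkE_F h

/-- views through `s` agree with the view of `s` -/
theorem view_above (hF : ∀ r t, ((3, [r]), t) ∈ E → r < s) {V : ℕ → Prop} (hV : View le V) (hs : V s)
    (h : Ok le io s n E p q pat β) {ℓ : Lb} {e : Edge}
    (he : lab io (es (E ++ newEs le io E s n q pat β)) V ℓ e) :
    lab io (es (E ++ newEs le io E s n q pat β)) (vw le s) ℓ e := by
  have key : ∀ r t, ((3, [r]), t) ∈ es (E ++ newEs le io E s n q pat β) → V r → vw le s r := by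
    intro r t hm hr
    have hm' : ((3, [r]), t) ∈ E ++ newEs le io E s n q pat β := hm
    have hrs : r ≤ s := by
      rcases List.mem_append.1 hm' with h1 | h1
      · exact (hF r t h1).le
      · exact (CrA_new_F h1 rfl).le
    exact (hV s hs r hrs).1 hr
  obtain ⟨hm, h1 | ⟨h1, r, h2, h3⟩ | ⟨j, r, x, y, c, h1, h2, h3, h4⟩⟩ := he
  · exact ⟨hm, Or.inl h1⟩
  · refine ⟨hm, Or.inr (Or.inl ⟨h1, r, h2, ?_⟩)⟩
    refine key r e.2 ?_ h3
    have : e = ((3, [r]), e.2) := by rw [← h2]
    rw [← this]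
    exact hm
  · exact ⟨hm, Or.inr (Or.inr ⟨j, r, x, y, c, h1, h2, h3, key r _ h3 h4⟩)⟩

/-- labels of edges with a new vertex in a view that does not contain `s` -/
theorem new_lab (hE : ∀ e ∈ E, ∀ v ∈ e.2, v < n) (h : Ok le io s n E p q pat β) {V : ℕ → Prop} (hs : ¬ V s)
    {ℓ : Lb} {e : Edge} (hn : ∃ v ∈ e.2, n ≤ v)
    (he : lab io (es (E ++ newEs le io E s n q pat β)) V ℓ e) :
    (ℓ.1 ≤ 2 ∧ e.1 = ℓ) ∨ ∃ j r x y c, ℓ = (4, [j]) ∧ e = ((1, [j, io j r]), [x, y, c]) ∧
      x < n ∧ y < n ∧ ((3, [r]), [x, y]) ∈ E ∧ V r := by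
  obtain ⟨hm, h1 | ⟨h1, r, h2, h3⟩ | ⟨j, r, x, y, c, h1, h2, h3, h4⟩⟩ := he
  · exact Or.inl h1
  · exfalso
    have hm' : e ∈ E ++ newEs le io E s n q pat β := hm
    rcases List.mem_append.1 hm' with h4 | h4
    · obtain ⟨v, hv, hvn⟩ := hn
      exact absurd (hE e h4 v hv) (by omega)
    · have := CrA_new_F h4 h2
      rw [this] at h3
      exact hs h3
  · right
    have hm' : ((3, [r]), [x, y]) ∈ E ++ newEs le io E s n q pat β := h3
    rcases List.mem_append.1 hm' with h5 | h5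
    · exact ⟨j, r, x, y, c, h1, h2, hE _ h5 x (by simp), hE _ h5 y (by simp), h5, h4⟩
    · exfalso
      have := CrA_new_F h5 rfl
      rw [this] at h4
      exact hs h4

/-- an edge all of whose vertices are old is old -/
private theorem CrA_old (h : Ok le io s n E p q pat β) {e : Edge}
    (he : e ∈ E ++ newEs le io E s n q pat β) (hv : ∀ v ∈ e.2, v < n) : e ∈ E := by
  rcases List.mem_append.1 he with h1 | h1
  · exact h1
  · exfalso
    obtain ⟨_, ⟨v, hv1, hv2⟩, _⟩ := new_sub h h1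
    have := hv v hv1
    omega

/-- everything old -/
theorem over_old (hE : ∀ e ∈ E, ∀ v ∈ e.2, v < n) (h : Ok le io s n E p q pat β)
    {V : ℕ → Prop} {p' q' : ℕ} {pat' : List Edge} {β' : List ℕ} {νs : List (List ℕ)}
    (hc : Code p' q' pat')
    (ho : Over (lab io (es (E ++ newEs le io E s n q pat β)) V) p' q' pat' β' νs)
    (hb : ∀ b ∈ β', b < n) (hν : ∀ ν ∈ νs, ∀ v ∈ ν, v < n) :
    Over (lab io (es E) V) p' q' pat' β' νs := by
  obtain ⟨h1, h2, h3⟩ := ho
  refine ⟨h1, fun ν hνm => ?_, h3⟩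
  obtain ⟨hl, hnd, L, hLnd, hF⟩ := h2 ν hνm
  refine ⟨hl, hnd, L, hLnd, ?_⟩
  have hall : ∀ v ∈ β' ++ ν, v < n := by
    intro v hv
    rcases List.mem_append.1 hv with h4 | h4
    · exact hb v h4
    · exact hν ν hνm v h4
  have hinst : ∀ pe ∈ pat', ∀ v ∈ inst (β' ++ ν) pe.2, v < n := by
    intro pe hpe v hv
    unfold inst at hv
    rw [List.mem_map] at hv
    obtain ⟨k, hk, rfl⟩ := hv
    have hk1 := hc.lt pe hpe k hk
    have hk2 : k < (β' ++ ν).length := by
      rw [List.length_append, h1, hl]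
      exact hk1
    rw [List.getD_eq_getElem _ _ hk2]
    exact hall _ (List.getElem_mem hk2)
  have hstep : ∀ pe ∈ pat', ∀ e : Edge,
      (lab io (es (E ++ newEs le io E s n q pat β)) V pe.1 e ∧ e.2 = inst (β' ++ ν) pe.2) →
      (lab io (es E) V pe.1 e ∧ e.2 = inst (β' ++ ν) pe.2) := by
    rintro pe hpe e ⟨hlab, he2⟩
    refine ⟨?_, he2⟩
    have hev : ∀ v ∈ e.2, v < n := by
      rw [he2]
      exact hinst pe hpe
    obtain ⟨hm, h4 | ⟨h4, r, h5, h6⟩ | ⟨j, r, x, y, c, h4, h5, h6, h7⟩⟩ := hlab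
    · exact ⟨CrA_old h hm hev, Or.inl h4⟩
    · exact ⟨CrA_old h hm hev, Or.inr (Or.inl ⟨h4, r, h5, h6⟩)⟩
    · refine ⟨CrA_old h hm hev, Or.inr (Or.inr ⟨j, r, x, y, c, h4, h5, ?_, h7⟩)⟩
      refine CrA_old h h6 ?_
      intro v hv
      apply hev
      rw [h5]
      simp only [List.mem_cons, List.not_mem_nil, or_false] at hv ⊢
      tauto
  have hgen : ∀ (l : List Edge) (es' : List Edge), (∀ pe ∈ l, pe ∈ pat') →
      List.Forall₂ (fun pe e => lab io (es (E ++ newEs le io E s n q pat β)) V pe.1 e ∧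
        e.2 = inst (β' ++ ν) pe.2) l es' →
      List.Forall₂ (fun pe e => lab io (es E) V pe.1 e ∧ e.2 = inst (β' ++ ν) pe.2) l es' := by
    intro l es' hl' hF'
    induction hF' with
    | nil => exact List.Forall₂.nil
    | cons hab _ ih =>
      refine List.Forall₂.cons (hstep _ (hl' _ (by simp)) _ hab) (ih fun pe hpe => ?_)
      exact hl' pe (by simp [hpe])
  exact hgen pat' L (fun _ h => h) hF

private theorem CrA_no_P (P : Finset ℕ) (h1 : P.Nonempty) (h2 : P ⊂ Finset.Ico 1 (1 + 1)) : False := by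
  have h3 : Finset.Ico 1 (1 + 1) = {1} := by decide
  rw [h3] at h2
  rcases Finset.subset_singleton_iff.1 h2.subset with h4 | h4
  · exact h1.ne_empty h4
  · exact h2.ne h4

/-- the codes of `F` -/
theorem code_F1 : Code 1 1 [((3, []), [1, 0])] where
  qpos := by norm_num
  len := rfl
  nd := by simp
  lt := by simp
  new := by simp
  base := by
    intro k hk
    have : k = 0 := by omega
    subst this
    simp
  min := fun P h1 h2 => (CrA_no_P P h1 h2).elim

theorem code_F2 : Code 1 1 [((3, []), [0, 1])] where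
  qpos := by norm_num
  len := rfl
  nd := by simp
  lt := by simp
  new := by simp
  base := by
    intro k hk
    have : k = 0 := by omega
    subst this
    simp
  min := fun P h1 h2 => (CrA_no_P P h1 h2).elim

end FdZ
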