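import Pool.Agent.Lib.MP_fd2900_lc.Z.CrA

namespace FdZ

variable {le : ℕ → ℕ → Bool} {io : ℕ → ℕ → ℕ} {s n p q : ℕ} {E pat : List Edge} {β : List ℕ}

private theorem CrB_zip {A B C D : Type} {R : A → B → Prop} {S : A → C → Prop} {T : D → C → Prop} {f : A → B → D} :
    ∀ {a : List A} {b : List B} {c : List C}, List.Forall₂ R a b → List.Forall₂ S a c →
      (∀ x ∈ a, ∀ y z, R x y → S x z → T (f x y) z) → List.Forall₂ T (List.zipWith f a b) c := by
  intro a
  induction a with
  | nil =>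
    intro b c h1 h2 _
    cases h1
    cases h2
    exact List.Forall₂.nil
  | cons x a ih =>
    intro b c h1 h2 h3
    cases h1 with
    | cons hxy h1 =>
      cases h2 with
      | cons hxz h2 =>
        refine List.Forall₂.cons (h3 x (by simp) _ _ hxy hxz) (ih h1 h2 fun w hw y z => h3 w (by simp [hw]) y z)

private theorem CrB_map {R : Edge → Edge → Prop} :
    ∀ {a b : List Edge}, List.Forall₂ R a b →
      (List.zipWith (fun pe e : Edge => ((e.1, pe.2) : Edge)) a b).map Prod.snd = a.map Prod.snd := by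
  intro a b h
  induction h with
  | nil => rfl
  | cons _ _ ih => simp [ih]

private theorem CrB_cnt (p : ℕ) (L : List Edge) (P : Finset ℕ) :
    cnt p L P = ((L.map Prod.snd).filter fun t : List ℕ =>
      decide ((∀ k ∈ t, k < p ∨ k ∈ P) ∧ ∃ k ∈ t, k ∈ P)).length := by
  rw [List.filter_map, List.length_map]
  rfl

private theorem CrB_code {p q : ℕ} {L M : List Edge} (h : L.map Prod.snd = M.map Prod.snd) (hc : Code p q M) :
    Code p q L := by
  have h1 : ∀ e ∈ L, ∃ e' ∈ M, e'.2 = e.2 := by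
    intro e he
    have : e.2 ∈ L.map Prod.snd := List.mem_map.2 ⟨e, he, rfl⟩
    rw [h] at this
    obtain ⟨e', he', h2⟩ := List.mem_map.1 this
    exact ⟨e', he', h2⟩
  have h2 : ∀ e ∈ M, ∃ e' ∈ L, e'.2 = e.2 := by
    intro e he
    have : e.2 ∈ M.map Prod.snd := List.mem_map.2 ⟨e, he, rfl⟩
    rw [← h] at this
    obtain ⟨e', he', h2⟩ := List.mem_map.1 this
    exact ⟨e', he', h2⟩
  refine ⟨hc.qpos, ?_, ?_, ?_, ?_, ?_, ?_⟩
  · have := congrArg List.length h
    simp only [List.length_map] at this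
    rw [this, hc.len]
  · intro e he
    obtain ⟨e', he', h3⟩ := h1 e he
    rw [← h3]
    exact hc.nd e' he'
  · intro e he
    obtain ⟨e', he', h3⟩ := h1 e he
    rw [← h3]
    exact hc.lt e' he'
  · intro e he
    obtain ⟨e', he', h3⟩ := h1 e he
    rw [← h3]
    exact hc.new e' he'
  · intro k hk
    obtain ⟨e, he, h3⟩ := hc.base k hk
    obtain ⟨e', he', h4⟩ := h2 e he
    exact ⟨e', he', by rw [h4]; exact h3⟩
  · intro P hP hP'
    rw [CrB_cnt, h, ← CrB_cnt]
    exact hc.min P hP hP'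

private theorem CrB_old {p' q' n k : ℕ} {β' ν : List ℕ} (hβ : β'.length = p') (hν : ν.length = q')
    (hk : k < p' + q') (hn : ∀ v ∈ ν, n ≤ v) (h : (β' ++ ν).getD k 0 < n) : k < p' := by
  by_contra hcon
  have h1 : p' ≤ k := not_lt.1 hcon
  have h2 : k - p' < ν.length := by omega
  have h3 : (β' ++ ν).getD k 0 = ν[k - p'] := by
    rw [List.getD_append_right _ _ _ _ (by omega)]
    subst hβ
    rw [List.getD_eq_getElem _ _ h2]
  have := hn _ (List.getElem_mem h2)
  omega

/-- if one of the realizations is new, the family is a family for a pure code in the view of `s` -/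
theorem cross_key (hE : ∀ e ∈ E, ∀ v ∈ e.2, v < n) (hu : FUniq E) (h : Ok le io s n E p q pat β)
    {V : ℕ → Prop} (hs : ¬ V s) {p' q' : ℕ} {pat' : List Edge} {β' : List ℕ} {νs : List (List ℕ)}
    (hc : Code p' q' pat')
    (ho : Over (lab io (es (E ++ newEs le io E s n q pat β)) V) p' q' pat' β' νs)
    (h0 : ∃ ν ∈ νs, ∀ v ∈ ν, n ≤ v) :
    ∃ pat'' : List Edge, Code p' q' pat'' ∧
      Over (lab io (es (E ++ newEs le io E s n q pat β)) (vw le s)) p' q' pat'' β' νs := by
  obtain ⟨hβ, ho1, ho2⟩ := ho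
  obtain ⟨ν₀, hν₀, hnew⟩ := h0
  obtain ⟨hlen₀, hnd₀, es₀, hes₀, hF₀⟩ := ho1 ν₀ hν₀
  refine ⟨List.zipWith (fun pe e : Edge => ((e.1, pe.2) : Edge)) pat' es₀, CrB_code (CrB_map hF₀) hc, hβ, ?_, ho2⟩
  intro ν hν
  obtain ⟨hlen, hnd, es₁, hes₁, hF₁⟩ := ho1 ν hν
  refine ⟨hlen, hnd, es₁, hes₁, ?_⟩
  refine CrB_zip hF₀ hF₁ ?_
  rintro pe hpe e₀ e₁ ⟨hl₀, ht₀⟩ ⟨hl₁, ht₁⟩
  refine ⟨?_, ht₁⟩
  have hn0 : ∃ v ∈ e₀.2, n ≤ v := by
    obtain ⟨k, hk, hpk⟩ := hc.new pe hpe
    refine ⟨(β' ++ ν₀).getD k 0, ?_, ?_⟩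
    · rw [ht₀]
      exact inst_mem.2 ⟨k, hk, rfl⟩
    · by_contra hcon
      have := CrB_old hβ hlen₀ (hc.lt pe hpe k hk) hnew (not_le.1 hcon)
      omega
  have h2 := new_lab hE h hs hn0 hl₀
  rcases h2 with ⟨h3, h4⟩ | ⟨j, r, x, y, c, h3, h4, hx, hy, hF, hV⟩
  · refine ⟨hl₁.1, Or.inl ⟨?_, ?_⟩⟩
    · show e₀.1.1 ≤ 2
      rw [h4]
      exact h3
    · show e₁.1 = e₀.1
      rw [h4]
      rcases hl₁.2 with h5 | h5 | ⟨j, r, x, y, c, h5, -⟩
      · exact h5.2
      · exfalso
        rw [h5.1] at h3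
        simp at h3
      · exfalso
        rw [h5] at h3
        simp at h3
  · refine ⟨hl₁.1, Or.inl ⟨?_, ?_⟩⟩
    · show e₀.1.1 ≤ 2
      rw [h4]
      simp
    · show e₁.1 = e₀.1
      rcases hl₁.2 with h5 | h5 | ⟨j', r', x', y', c', h5, h6, h7, h8⟩
      · exfalso
        rw [h3] at h5
        simp at h5
      · exfalso
        rw [h3] at h5
        simp at h5
      · have hj : j' = j := by
          rw [h3] at h5
          simp at h5
          exact h5.symm
        subst hj
        -- the indices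
        rw [h4] at ht₀
        rw [h6] at ht₁
        simp only at ht₀ ht₁
        have hlen3 : pe.2.length = 3 := by
          have := congrArg List.length ht₀
          simp [inst] at this
          exact this.symm
        obtain ⟨k₁, k₂, k₃, hk⟩ : ∃ k₁ k₂ k₃, pe.2 = [k₁, k₂, k₃] := by
          match hm : pe.2, hlen3 with
          | [k₁, k₂, k₃], _ => exact ⟨k₁, k₂, k₃, rfl⟩
        rw [hk] at ht₀ ht₁
        simp only [inst, List.map_cons, List.map_nil, List.cons.injEq, and_true] at ht₀ ht₁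
        obtain ⟨hx0, hy0, hc0⟩ := ht₀
        obtain ⟨hx1, hy1, hc1⟩ := ht₁
        have hk1 : k₁ < p' := CrB_old hβ hlen₀ (hc.lt pe hpe k₁ (by rw [hk]; simp)) hnew (by rw [← hx0]; exact hx)
        have hk2 : k₂ < p' := CrB_old hβ hlen₀ (hc.lt pe hpe k₂ (by rw [hk]; simp)) hnew (by rw [← hy0]; exact hy)
        have hg : ∀ k < p', ∀ μ : List ℕ, (β' ++ μ).getD k 0 = β'.getD k 0 := by
          intro k hk μ
          rw [List.getD_append]
          omega
        rw [hg k₁ hk1] at hx0 hx1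
        rw [hg k₂ hk2] at hy0 hy1
        have hxx : x' = x := by rw [hx0, hx1]
        have hyy : y' = y := by rw [hy0, hy1]
        subst hxx hyy
        have hmem : ((3, [r']), [x', y']) ∈ E := by
          have h9 : ((3, [r']), [x', y']) ∈ E ++ newEs le io E s n q pat β := h7
          rcases List.mem_append.1 h9 with h10 | h10
          · exact h10
          · exfalso
            obtain ⟨-, ⟨v, hv, hnv⟩, -⟩ := new_sub h h10
            simp at hv
            rcases hv with rfl | rfl <;> omega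
        have hr := hu r r' x' y' hF hmem
        rw [h4, h6, hr]

end FdZ
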