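import Pool.Agent.Lib.MP_fd2900_lc.Z.CrA

namespace FdZ

variable {le : ℕ → ℕ → Bool} {io : ℕ → ℕ → ℕ} {s n p q : ℕ} {E pat : List Edge} {β : List ℕ}

private theorem CrC_edge {lb : Lb → Edge → Prop} {p : ℕ} {pe : Edge} {β : List ℕ} {v b : ℕ}
    (hc : Code p 1 [pe]) (hβ : β.length = p) (hr : Real lb [pe] β [v]) (hb : b ∈ β) :
    ∃ e : Edge, lb pe.1 e ∧ e.2 = inst (β ++ [v]) pe.2 ∧ b ∈ e.2 := by
  obtain ⟨e, ⟨pe', h1, h2, h3⟩, h4⟩ := base_edge hc hβ hr hb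
  rw [List.mem_singleton] at h1
  subst h1
  exact ⟨e, h2, h3, h4⟩

private theorem CrC_real {lb : Lb → Edge → Prop} {ℓ : Lb} {idx β : List ℕ} {v : ℕ}
    (hnd : (β ++ [v]).Nodup) (e : Edge) (h1 : lb ℓ e) (h2 : e.2 = inst (β ++ [v]) idx) :
    Real lb [(ℓ, idx)] β [v] :=
  ⟨hnd, [e], List.nodup_singleton e, List.Forall₂.cons ⟨h1, h2⟩ List.Forall₂.nil⟩

private theorem CrC_viol {lb : Lb → Edge → Prop} {p : ℕ} {pe : Edge} {β : List ℕ} {v₁ v₂ : ℕ}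
    (hc : Code p 1 [pe]) (hβ : β.length = p) (hne : v₁ ≠ v₂) (h₁ : Real lb [pe] β [v₁])
    (h₂ : Real lb [pe] β [v₂]) : Viol lb := by
  refine ⟨p, 1, [pe], β, [[v₁], [v₂]], hc, ⟨hβ, ?_, ?_⟩, by simp [mu]⟩
  · intro ν hν
    simp only [List.mem_cons, List.not_mem_nil, or_false] at hν
    rcases hν with rfl | rfl
    · exact ⟨rfl, h₁⟩
    · exact ⟨rfl, h₂⟩
  · simp only [List.pairwise_cons, List.mem_cons, List.not_mem_nil, or_false, forall_eq,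
      List.Pairwise.nil, and_true]
    refine ⟨?_, by simp⟩
    intro a ha hb
    rw [List.mem_singleton] at ha hb
    exact hne (ha.symm.trans hb)

private theorem CrC_getL {β : List ℕ} {v k : ℕ} (hk : k < β.length) :
    (β ++ [v]).getD k 0 = β.getD k 0 := List.getD_append _ _ _ _ hk

private theorem CrC_getR {β : List ℕ} {v : ℕ} : (β ++ [v]).getD β.length 0 = v := by
  rw [List.getD_append_right _ _ _ _ le_rfl]
  simp

private theorem CrC_getM {β : List ℕ} {k : ℕ} (hk : k < β.length) : β.getD k 0 ∈ β := by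
  rw [List.getD_eq_getElem _ _ hk]
  exact List.getElem_mem hk

private theorem CrC_nd {β : List ℕ} {v k : ℕ} (hk : k < β.length) (h : (β ++ [v]).Nodup) :
    ([β.getD k 0] ++ [v]).Nodup := by
  have h1 : β.getD k 0 ≠ v := by
    intro h2
    have h3 := List.nodup_append'.mp h
    exact h3.2.2 (CrC_getM hk) (by simpa using h2)
  simpa using h1

/-- one new point and a base that is not old -/
theorem cross_q1 (hE : ∀ e ∈ E, ∀ v ∈ e.2, v < n) (hu : FUniq E) (h : Ok le io s n E p q pat β)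
    {V : ℕ → Prop} (hnv : ¬ Viol (lab io (es E) V)) (hs : ¬ V s)
    {p' : ℕ} {pat' : List Edge} {β' : List ℕ} {νs : List (List ℕ)}
    (hc : Code p' 1 pat')
    (ho : Over (lab io (es (E ++ newEs le io E s n q pat β)) V) p' 1 pat' β' νs)
    (hl : νs.length = mu p' 1 + 1) (hb : ∃ b ∈ β', n ≤ b) (h0 : ¬ ∃ ν ∈ νs, ∀ v ∈ ν, n ≤ v) : False := by
  obtain ⟨b, hb, hbn⟩ := hb
  obtain ⟨pe, rfl⟩ := List.length_eq_one_iff.mp hc.len
  obtain ⟨hβ, hν, hdis⟩ := ho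
  have hl2 : νs.length = 2 := by simpa [mu] using hl
  obtain ⟨ν₁, ν₂, rfl⟩ := List.length_eq_two.mp hl2
  have hν₁ := hν ν₁ (by simp)
  have hν₂ := hν ν₂ (by simp)
  obtain ⟨v₁, rfl⟩ := List.length_eq_one_iff.mp hν₁.1
  obtain ⟨v₂, rfl⟩ := List.length_eq_one_iff.mp hν₂.1
  have hr₁ := hν₁.2
  have hr₂ := hν₂.2
  have hne : v₁ ≠ v₂ := by
    intro hvv
    have h1 : List.Disjoint [v₁] [v₂] := (List.pairwise_cons.mp hdis).1 [v₂] (by simp)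
    exact h1 (List.mem_singleton_self v₁) (by simp [hvv])
  have hv₁ : v₁ < n := by
    by_contra hcon
    exact h0 ⟨[v₁], by simp, fun v hv => by
      rw [List.mem_singleton] at hv
      omega⟩
  have hv₂ : v₂ < n := by
    by_contra hcon
    exact h0 ⟨[v₂], by simp, fun v hv => by
      rw [List.mem_singleton] at hv
      omega⟩
  obtain ⟨e₁, he₁, hi₁, hbe₁⟩ := CrC_edge hc hβ hr₁ hb
  obtain ⟨e₂, he₂, hi₂, hbe₂⟩ := CrC_edge hc hβ hr₂ hb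
  have hL₁ := new_lab hE h hs ⟨b, hbe₁, hbn⟩ he₁
  have hL₂ := new_lab hE h hs ⟨b, hbe₂, hbn⟩ he₂
  rcases hL₁ with hp₁ | ⟨j, r₁, x₁, y₁, c₁, hj, hee₁, hx₁, hy₁, hF₁, hV₁⟩
  · rcases hL₂ with hp₂ | ⟨j, r₂, x₂, y₂, c₂, hj, -⟩
    · refine h.nv (CrC_viol (pe := pe) hc hβ hne ?_ ?_)
      · exact CrC_real hr₁.1 e₁ ⟨he₁.1, Or.inl hp₁⟩ hi₁
      · exact CrC_real hr₂.1 e₂ ⟨he₂.1, Or.inl hp₂⟩ hi₂
    · have h3 := hp₁.1
      rw [hj] at h3
      norm_num at h3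
  rcases hL₂ with hp₂ | ⟨j', r₂, x₂, y₂, c₂, hj', hee₂, hx₂, hy₂, hF₂, hV₂⟩
  · have h3 := hp₂.1
    rw [hj] at h3
    norm_num at h3
  have hlen : pe.2.length = 3 := by
    have h1 := congrArg List.length hi₁
    rw [hee₁] at h1
    simpa [inst] using h1.symm
  obtain ⟨k₁, k₂, k₃, hk⟩ := List.length_eq_three.mp hlen
  have hnd : pe.2.Nodup := hc.nd pe (by simp)
  rw [hee₁, hk] at hi₁
  rw [hee₂, hk] at hi₂
  simp only [inst, List.map_cons, List.map_nil, List.cons.injEq, and_true] at hi₁ hi₂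
  obtain ⟨hX₁, hY₁, hC₁⟩ := hi₁
  obtain ⟨hX₂, hY₂, hC₂⟩ := hi₂
  have hlt : ∀ k ∈ pe.2, k < p' + 1 := hc.lt pe (by simp)
  have hk1 : k₁ < p' + 1 := hlt k₁ (by simp [hk])
  have hk2 : k₂ < p' + 1 := hlt k₂ (by simp [hk])
  have hbc : b = c₁ := by
    rw [hee₁] at hbe₁
    simp only [List.mem_cons, List.not_mem_nil, or_false] at hbe₁
    rcases hbe₁ with h1 | h1 | h1
    · omega
    · omega
    · exact h1
  rw [hk] at hnd
  simp only [List.nodup_cons, List.mem_cons, List.not_mem_nil, or_false, not_or] at hnd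
  obtain ⟨⟨h12, h13⟩, h23, -⟩ := hnd
  have hk3 : k₃ ≠ p' := by
    intro h1
    rw [h1, ← hβ, CrC_getR] at hC₁
    omega
  obtain ⟨k, hk', hkp⟩ := hc.new pe (by simp)
  have hkp' : k = p' := by
    have := hlt k hk'
    omega
  rw [hk, hkp'] at hk'
  simp only [List.mem_cons, List.not_mem_nil, or_false] at hk'
  rcases hk' with h1 | h1 | h1
  · -- the new point is `x`
    have hk2' : k₂ < β'.length := by omega
    rw [← h1, ← hβ, CrC_getR] at hX₁ hX₂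
    rw [CrC_getL hk2'] at hY₁ hY₂
    refine hnv (CrC_viol code_F1 (β := [β'.getD k₂ 0]) rfl hne ?_ ?_)
    · refine CrC_real (CrC_nd hk2' hr₁.1) ((3, [r₁]), [x₁, y₁])
        ⟨hF₁, Or.inr (Or.inl ⟨rfl, r₁, rfl, hV₁⟩)⟩ ?_
      rw [hX₁, hY₁]
      rfl
    · refine CrC_real (CrC_nd hk2' hr₂.1) ((3, [r₂]), [x₂, y₂])
        ⟨hF₂, Or.inr (Or.inl ⟨rfl, r₂, rfl, hV₂⟩)⟩ ?_
      rw [hX₂, hY₂]
      rfl
  · -- the new point is `y`
    have hk1' : k₁ < β'.length := by omega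
    rw [← h1, ← hβ, CrC_getR] at hY₁ hY₂
    rw [CrC_getL hk1'] at hX₁ hX₂
    refine hnv (CrC_viol code_F2 (β := [β'.getD k₁ 0]) rfl hne ?_ ?_)
    · refine CrC_real (CrC_nd hk1' hr₁.1) ((3, [r₁]), [x₁, y₁])
        ⟨hF₁, Or.inr (Or.inl ⟨rfl, r₁, rfl, hV₁⟩)⟩ ?_
      rw [hX₁, hY₁]
      rfl
    · refine CrC_real (CrC_nd hk1' hr₂.1) ((3, [r₂]), [x₂, y₂])
        ⟨hF₂, Or.inr (Or.inl ⟨rfl, r₂, rfl, hV₂⟩)⟩ ?_
      rw [hX₂, hY₂]
      rfl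
  · exact hk3 h1.symm

end FdZ
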