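import Pool.Agent.Lib.MP_fd2900_lc.Z.CrB
import Pool.Agent.Lib.MP_fd2900_lc.Z.CrC

namespace FdZ

variable {le : ℕ → ℕ → Bool} {io : ℕ → ℕ → ℕ} {s n p q : ℕ} {E pat : List Edge} {β : List ℕ}

/-- the class is preserved in all views -/
theorem cross (hE : ∀ e ∈ E, ∀ v ∈ e.2, v < n) (hu : FUniq E)
    (hF : ∀ r t, ((3, [r]), t) ∈ E → r < s) (h : Ok le io s n E p q pat β)
    (hnv : ∀ V, View le V → ¬ Viol (lab io (es E) V)) (V : ℕ → Prop) (hV : View le V) :
    ¬ Viol (lab io (es (E ++ newEs le io E s n q pat β)) V) := by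
  by_cases hs : V s
  · intro hv
    exact h.nv (viol_mono (fun ℓ e he => view_above hF hV hs h he) hv)
  rintro ⟨p', q', pat', β', νs, hc, ho, hl⟩
  by_cases h0 : ∃ ν ∈ νs, ∀ v ∈ ν, n ≤ v
  · obtain ⟨pat'', h1, h2⟩ := cross_key hE hu h hs hc ho h0
    exact h.nv ⟨p', q', pat'', β', νs, h1, h2, hl⟩
  by_cases hb : ∃ b ∈ β', n ≤ b
  · by_cases hq : q' = 1
    · subst hq
      exact cross_q1 hE hu h (hnv V hV) hs hc ho hl hb h0
    · obtain ⟨b, hb1, hb2⟩ := hb
      obtain ⟨ν, h1, h2⟩ := some_out (X := Set.Iio n) (fun k => batch_strong hE h V k) hc ho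
        ⟨b, hb1, by simpa using hb2⟩ hl hq
      exact h0 ⟨ν, h1, fun v hv => by simpa using h2 v hv⟩
  · push Not at hb
    refine hnv V hV ⟨p', q', pat', β', νs, hc, over_old hE h hc ho hb ?_, hl⟩
    intro ν hν v hv
    by_contra hvn
    push Not at hvn
    obtain ⟨h1, h2, h3⟩ := ho
    rcases dich (X := Set.Iio n) (batch_strong hE h V q') le_rfl hc h1 (h2 ν hν).1 (h2 ν hν).2
      (fun v hv => by simpa using hb v hv) with h4 | h4
    · have := h4 v hv
      simp at this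
      omega
    · exact h0 ⟨ν, hν, fun v hv => by simpa using h4 v hv⟩

end FdZ
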