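import Mathlib

/-! hypergraph notions: codes, realizations, violations, strong sets -/

namespace FdZ

/-- an edge (kind, tuple), or a pattern entry (label, indices) -/
abbrev Edge := (ℕ × List ℕ) × List ℕ

/-- a kind or a label -/
abbrev Lb := ℕ × List ℕ

/-- instantiation of indices -/
def inst (xs idx : List ℕ) : List ℕ := idx.map fun k => xs.getD k 0

/-- the number of pattern entries inside base + `P` that meet `P` -/
def cnt (p : ℕ) (pat : List Edge) (P : Finset ℕ) : ℕ :=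
  (pat.filter fun e => decide ((∀ k ∈ e.2, k < p ∨ k ∈ P) ∧ ∃ k ∈ e.2, k ∈ P)).length

/-- a code: `p` base points `0, …, p - 1`, `q` new points `p, …, p + q - 1`, exactly `q` entries, minimal -/
structure Code (p q : ℕ) (pat : List Edge) : Prop where
  qpos : 0 < q
  len : pat.length = q
  nd : ∀ e ∈ pat, e.2.Nodup
  lt : ∀ e ∈ pat, ∀ k ∈ e.2, k < p + q
  new : ∀ e ∈ pat, ∃ k ∈ e.2, p ≤ k
  base : ∀ k < p, ∃ e ∈ pat, k ∈ e.2
  min : ∀ P : Finset ℕ, P.Nonempty → P ⊂ Finset.Ico p (p + q) → cnt p pat P < P.card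

/-- `ν` is a realization of the pattern over `β` -/
def Real (lab : Lb → Edge → Prop) (pat : List Edge) (β ν : List ℕ) : Prop :=
  (β ++ ν).Nodup ∧ ∃ es : List Edge, es.Nodup ∧
    List.Forall₂ (fun pe e => lab pe.1 e ∧ e.2 = inst (β ++ ν) pe.2) pat es

/-- the bound for the number of disjoint realizations -/
def mu (p q : ℕ) : ℕ := if q = 1 then 1 else p

/-- `νs` is a list of pairwise disjoint realizations over `β` -/
def Over (lab : Lb → Edge → Prop) (p q : ℕ) (pat : List Edge) (β : List ℕ) (νs : List (List ℕ)) : Prop :=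
  β.length = p ∧ (∀ ν ∈ νs, ν.length = q ∧ Real lab pat β ν) ∧ νs.Pairwise List.Disjoint

/-- some code has too many disjoint realizations over one base -/
def Viol (lab : Lb → Edge → Prop) : Prop :=
  ∃ (p q : ℕ) (pat : List Edge) (β : List ℕ) (νs : List (List ℕ)),
    Code p q pat ∧ Over lab p q pat β νs ∧ νs.length = mu p q + 1

/-- `e` is an edge used by the realization `ν` -/
def ImgE (lab : Lb → Edge → Prop) (pat : List Edge) (β ν : List ℕ) (e : Edge) : Prop :=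
  ∃ pe ∈ pat, lab pe.1 e ∧ e.2 = inst (β ++ ν) pe.2

/-- at most `n` edges inside `X ∪ Z` meet `Z` -/
def Few (lab : Lb → Edge → Prop) (X Z : Set ℕ) (n : ℕ) : Prop :=
  ∀ L : Finset Edge, (∀ e ∈ L, (∃ ℓ, lab ℓ e) ∧ (∀ v ∈ e.2, v ∈ X ∨ v ∈ Z) ∧ ∃ v ∈ e.2, v ∈ Z) → L.card ≤ n

/-- `X` is `k`-strong -/
def Strong (lab : Lb → Edge → Prop) (X : Set ℕ) (k : ℕ) : Prop :=
  ∀ Z : Finset ℕ, Z.card ≤ k → (∀ v ∈ Z, v ∉ X) → Few lab X (Z : Set ℕ) Z.card

/-! ### the tree of guesses, by stage numbers -/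

/-- the data of the tree: stages, not nodes; `le r s` : the node of stage `r` is below or equal the node of stage `s` -/
structure Guide where
  le : ℕ → ℕ → Bool
  /-- birth stage of the current label of `j` at stage `s` -/
  io : ℕ → ℕ → ℕ
  /-- request index of stage `s` -/
  rqi : ℕ → ℕ
  /-- the true path -/
  TP : ℕ → Prop
  /-- the coded set -/
  S : ℕ → Prop
  le_refl : ∀ s, le s s = true
  le_le : ∀ r s, le r s = true → r ≤ s
  le_trans : ∀ r s t, le r s = true → le s t = true → le r t = true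
  le_chain : ∀ r s t, le r t = true → le s t = true → r ≤ s → le r s = true
  tp_view : ∀ s, TP s → ∀ r, r ≤ s → (TP r ↔ le r s = true)
  tp_inf : ∀ k s₀, ∃ s, s₀ ≤ s ∧ TP s ∧ rqi s = k
  off_fin : ∀ r, ¬ TP r → ∃ s₀, ∀ s, s₀ ≤ s → ¬ (le r s = true)
  io_le : ∀ j s, io j s ≤ s
  io_mono : ∀ j r s, le r s = true → io j r = io j s ∨ r < io j s
  io_S : ∀ j, S j → ∃ i s₀, ∀ s, s₀ ≤ s → TP s → io j s = i
  io_nS : ∀ j, ¬ S j → ∀ i, ∃ s₀, ∀ s, s₀ ≤ s → TP s → i < io j s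

/-- a view: a coherent set of stages -/
def View (le : ℕ → ℕ → Bool) (V : ℕ → Prop) : Prop := ∀ s, V s → ∀ r, r ≤ s → (V r ↔ le r s = true)

/-- the view of stage `s` -/
def vw (le : ℕ → ℕ → Bool) (s : ℕ) : ℕ → Prop := fun r => le r s = true

/-! ### the construction -/

/-- the labels of an edge in the view `V` -/
def lab (io : ℕ → ℕ → ℕ) (E : Set Edge) (V : ℕ → Prop) (ℓ : Lb) (e : Edge) : Prop :=
  e ∈ E ∧ ((ℓ.1 ≤ 2 ∧ e.1 = ℓ) ∨ (ℓ = (3, []) ∧ ∃ r, e.1 = (3, [r]) ∧ V r) ∨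
    ∃ j r x y c, ℓ = (4, [j]) ∧ e = ((1, [j, io j r]), [x, y, c]) ∧ ((3, [r]), [x, y]) ∈ E ∧ V r)

/-- stage of the `F` edge of the pair in the view of stage `s` -/
def fnode (le : ℕ → ℕ → Bool) (E : List Edge) (s x y : ℕ) : Option ℕ :=
  (E.find? fun e => decide (e.1.1 = 3) && le (e.1.2.getD 0 0) s && decide (e.2 = [x, y])).map
    fun e => e.1.2.getD 0 0

/-- the edge created for a pattern entry at stage `s` (`n` old vertices, `xs` = base + new vertices) -/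
def mkE (le : ℕ → ℕ → Bool) (io : ℕ → ℕ → ℕ) (E : List Edge) (s n : ℕ) (xs : List ℕ) (pe : Edge) : Edge :=
  if pe.1.1 = 3 then ((3, [s]), inst xs pe.2)
  else if pe.1.1 = 4 then
    if n ≤ (inst xs pe.2).getD 0 0 ∨ n ≤ (inst xs pe.2).getD 1 0 then
      ((1, [pe.1.2.getD 0 0, io (pe.1.2.getD 0 0) s]), inst xs pe.2)
    else ((1, [pe.1.2.getD 0 0, io (pe.1.2.getD 0 0)
      ((fnode le E s ((inst xs pe.2).getD 0 0) ((inst xs pe.2).getD 1 0)).getD 0)]), inst xs pe.2)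
  else (pe.1, inst xs pe.2)

/-- admissible pattern entries at stage `s` -/
def kindOk (s : ℕ) (pe : Edge) : Prop :=
  (∃ j, pe.1 = (0, [j]) ∧ pe.2.length = 5) ∨ (∃ j i, pe.1 = (1, [j, i]) ∧ i < s ∧ pe.2.length = 3) ∨
  (∃ j, pe.1 = (2, [j]) ∧ pe.2.length = 4) ∨ (pe.1 = (3, []) ∧ pe.2.length = 2) ∨
  (∃ j, pe.1 = (4, [j]) ∧ pe.2.length = 3)

/-- legality in the view `V` -/
def Legal (io : ℕ → ℕ → ℕ) (E : Set Edge) (V : ℕ → Prop) : Prop :=
  (∀ j t w, ((2, [j]), t) ∈ E → ((0, [j]), t ++ [w]) ∉ E) ∧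
  ∀ j r x y c u, ((3, [r]), [x, y]) ∈ E → V r → ((2, [j]), [x, y, c, u]) ∈ E →
    ((1, [j, io j r]), [x, y, c]) ∈ E

/-- the new edges of a request -/
def newEs (le : ℕ → ℕ → Bool) (io : ℕ → ℕ → ℕ) (E : List Edge) (s n q : ℕ) (pat : List Edge) (β : List ℕ) :
    List Edge :=
  pat.map (mkE le io E s n (β ++ List.range' n q))

/-- the edge set of a list -/
def es (E : List Edge) : Set Edge := {e | e ∈ E}

/-- the request is carried out -/
structure Ok (le : ℕ → ℕ → Bool) (io : ℕ → ℕ → ℕ) (s n : ℕ) (E : List Edge) (p q : ℕ) (pat : List Edge)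
    (β : List ℕ) : Prop where
  code : Code p q pat
  len : β.length = p
  nd : β.Nodup
  lt : ∀ v ∈ β, v < n
  kinds : ∀ pe ∈ pat, kindOk s pe
  cnew : ∀ j k₁ k₂ k₃, ((4, [j]), [k₁, k₂, k₃]) ∈ pat → p ≤ k₁ ∨ p ≤ k₂ → ((3, []), [k₁, k₂]) ∈ pat
  cold : ∀ j k₁ k₂ k₃, ((4, [j]), [k₁, k₂, k₃]) ∈ pat → k₁ < p → k₂ < p →
    (fnode le E s (β.getD k₁ 0) (β.getD k₂ 0)).isSome
  esnd : (newEs le io E s n q pat β).Nodup
  legal : Legal io (es (E ++ newEs le io E s n q pat β)) (vw le s)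
  nv : ¬ Viol (lab io (es (E ++ newEs le io E s n q pat β)) (vw le s))

/-- `e` is deleted at stage `s` -/
def Deld (le : ℕ → ℕ → Bool) (io : ℕ → ℕ → ℕ) (E : Set Edge) (s : ℕ) (e : Edge) : Prop :=
  ∃ j x y c u r, e = ((2, [j]), [x, y, c, u]) ∧ le r s = true ∧ r < s ∧ ((3, [r]), [x, y]) ∈ E ∧
    ((1, [j, io j r]), [x, y, c]) ∉ E

open Classical in
/-- deletion -/
noncomputable def del (le : ℕ → ℕ → Bool) (io : ℕ → ℕ → ℕ) (E : List Edge) (s : ℕ) : List Edge :=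
  E.filter fun e => decide (¬ Deld le io (es E) s e)

/-- request number `k` : `p`, `q`, pattern, base -/
def req (k : ℕ) : (ℕ × ℕ) × List Edge × List ℕ :=
  ((Encodable.decode k : Option ((ℕ × ℕ) × List Edge × List ℕ)).getD ((0, 0), [], []))

open Classical in
/-- one stage, applied to the structure after deletion -/
noncomputable def act (le : ℕ → ℕ → Bool) (io : ℕ → ℕ → ℕ) (s : ℕ) (r : (ℕ × ℕ) × List Edge × List ℕ)
    (st : ℕ × List Edge) : ℕ × List Edge :=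
  if Ok le io s st.1 st.2 r.1.1 r.1.2 r.2.1 r.2.2 then
    (st.1 + r.1.2, st.2 ++ newEs le io st.2 s st.1 r.1.2 r.2.1 r.2.2)
  else (st.1 + 1, st.2)

/-- the structure at stage `s` -/
noncomputable def run (G : Guide) : ℕ → ℕ × List Edge
  | 0 => (0, [])
  | s + 1 => act G.le G.io s (req (G.rqi s)) ((run G s).1, del G.le G.io (run G s).2 s)

end FdZ
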