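import Pool.Agent.Lib.MP_fd2900_lc.Z.XC

/-! choice of the stage -/

namespace FdZ

variable {G : Guide} {m m' t₀ : ℕ} {i₀ : ℕ → ℕ} {Y Y' W : Finset ℕ} {h : ℕ → ℕ} {p q : ℕ}
  {pat : List Edge} {β ω : List ℕ} {r s : ℕ}

/-- choice of `r` and `s` -/
theorem sit_ex (hc : Cal G m m' t₀ i₀) (hi : Iso (visE G m m') (Finset.range (nn G t₀)) Y Y' h)
    (hW : ∀ v ∈ W, v ∉ Y) (hcode : Code p W.card pat) (hβ : β.length = p) (hω : ω.length = W.card)
    (hbY : ∀ v ∈ β, v ∈ Y) (hoW : ∀ v, v ∈ ω ↔ v ∈ W) (hrl : Real (vl (visE G m m')) pat β ω)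
    (hall : ∀ e ∈ visE G m m', Meets Y W e → ImgE (vl (visE G m m')) pat β ω e)
    (hs : Strong (vl (visE G m m')) (Y' : Set ℕ) W.card)
    (hno : ∀ ν : List ℕ, ν.length = W.card → Real (vl (visE G m m')) pat (β.map h) ν → ∀ v ∈ ν, v ∈ Y') :
    ∃ r s, Sit G m m' t₀ i₀ Y Y' W h p W.card pat β ω r s ∧ rq G s = ((p, W.card), pat, β.map h) := by
  classical
  set r : ℕ := max (max t₀ m') (Y'.sup id + 1) with hr
  obtain ⟨s₁, hs₁⟩ := exists_late (G := G) r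
  have hfr : ∀ j, ∃ s₀, ¬ G.S j → ∀ s, s₀ ≤ s → G.TP s → r < G.io j s := by
    intro j
    by_cases hj : G.S j
    · exact ⟨0, fun h => absurd hj h⟩
    · obtain ⟨s₀, h0⟩ := G.io_nS j hj r
      exact ⟨s₀, fun _ => h0⟩
  choose sf hsf using hfr
  obtain ⟨s, hsm, hTP, hrqi⟩ := G.tp_inf (Encodable.encode (((p, W.card), pat, β.map h) : (ℕ × ℕ) × List Edge × List ℕ))
    (max s₁ ((Finset.range m).sup sf))
  have hss₁ : s₁ ≤ s := (le_max_left _ _).trans hsm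
  refine ⟨r, s, ⟨hc, hi, hW, rfl, hcode, hβ, hω, hbY, hoW, hrl, hall, hs, hno, ?_, ?_, ?_, ?_, hTP, ?_⟩, ?_⟩
  · exact (le_max_left _ _).trans (le_max_left _ _)
  · exact (le_max_right _ _).trans (le_max_left _ _)
  · intro v hv
    have h1 : v ≤ Y'.sup id := Finset.le_sup (f := id) hv
    have h2 : Y'.sup id + 1 ≤ r := le_max_right _ _
    have h3 : r ≤ nn G r := le_nn r
    omega
  · exact ⟨hs₁.1.trans hss₁, fun s' hs'' => hs₁.2 s' (hss₁.trans hs'')⟩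
  · intro j hj hjS
    have h1 : sf j ≤ (Finset.range m).sup sf := Finset.le_sup (f := sf) (Finset.mem_range.2 hj)
    exact (hsf j hjS s (h1.trans ((le_max_right _ _).trans hsm)) hTP).le
  · show req (G.rqi s) = _
    rw [hrqi]
    unfold req
    rw [Encodable.encodek]
    rfl

end FdZ
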