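import Pool.Agent.Lib.MP_fd2900_lc.Z.XJ4
import Pool.Agent.Lib.MP_fd2900_lc.Z.XJ5

/-! the extension lemma -/

namespace FdZ

variable {G : Guide} {m m' t₀ : ℕ} {i₀ : ℕ → ℕ}

theorem ext_main (hc : Cal G m m' t₀ i₀) (Y Y' W : Finset ℕ) (h : ℕ → ℕ)
    (hi : Iso (visE G m m') (Finset.range (nn G t₀)) Y Y' h) (hW : MinExt (visE G m m') Y W)
    (_hs : Strong (vl (visE G m m')) (Y : Set ℕ) W.card) (hs' : Strong (vl (visE G m m')) (Y' : Set ℕ) W.card) :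
    ∃ (W' : Finset ℕ) (h' : ℕ → ℕ), (∀ v ∈ W', v ∉ Y') ∧ W'.card = W.card ∧ (∀ v ∈ Y, h' v = h v) ∧
      Iso (visE G m m') (Finset.range (nn G t₀)) (Y ∪ W) (Y' ∪ W') h' := by
  have hnd : ∀ e ∈ visE G m m', e.2.Nodup := fun e he => (vis_nodup he).1
  obtain ⟨p, pat, β, ω, hcode, hβ, hω, hbY, hoW, hrl, hall⟩ := min_code hnd hW
  by_cases hno : ∀ ν : List ℕ, ν.length = W.card → Real (vl (visE G m m')) pat (β.map h) ν → ∀ v ∈ ν, v ∈ Y'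
  · obtain ⟨r, s, S, hrq⟩ := sit_ex hc hi hW.dj hcode hβ hω hbY hoW hrl hall hs' hno
    exact (sit_false S hrq).elim
  · push Not at hno
    obtain ⟨ν, h1, h2, h3⟩ := hno
    exact ext_iso hnd hi hW.dj hcode hβ hω hbY hoW hrl hall hs' h1 h2 h3
end FdZ
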