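import Pool.Agent.Lib.MP_fd2900_lc.Z.ObsLit

/-! strong form of the obstruction: no model besides the prime model -/

namespace FdZ

open FirstOrder FirstOrder.Language Pool.Agent.MP_fd2900_lc

/-- there is a countable model that is not isomorphic to the prime model -/
theorem exists_nonprime {D : ℕ × List ℕ → Prop} (hP : ∀ k t, D (3 * k + 2, t) ↔ t = [k]) :
    ∃ (N : Type) (_ : (Lg arA).Structure N) (_ : Nonempty N), Countable N ∧
      N ⊨ (Lg arA).completeTheory (Univ D) ∧ IsEmpty (Univ D ≃[Lg arA] N) := by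
  obtain ⟨N, hN, hc, f, b, hb⟩ := proper_ext (Lg arA) (Univ D)
  refine ⟨N, hN, ⟨b⟩, hc, ?_, ⟨fun ι => ?_⟩⟩
  · have h1 := f.elementarilyEquivalent
    exact (f.theory_model_iff ((Lg arA).completeTheory (Univ D))).1 inferInstance
  · obtain ⟨a, rfl⟩ := ι.surjective b
    obtain ⟨x, hx⟩ := ι.surjective (f a)
    obtain ⟨k, hk⟩ : ∃ k : ℕ, k = a := ⟨a, rfl⟩
    have h1 : Structure.RelMap (sym (ar := arA) (3 * k + 2) 1 (arA_N k)) ![a] := (hP k _).2 (by rw [hk]; rfl)
    have h2 : Structure.RelMap (sym (ar := arA) (3 * k + 2) 1 (arA_N k)) (f ∘ ![a]) :=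
      (f.map_rel _ ![a]).2 h1
    have h3 : (f ∘ ![a] : Fin 1 → N) = ι ∘ ![x] := by
      funext i
      fin_cases i
      exact hx.symm
    rw [h3] at h2
    have h4 : Structure.RelMap (sym (ar := arA) (3 * k + 2) 1 (arA_N k)) ![x] :=
      (ι.map_rel _ ![x]).1 h2
    have h5 : [(x : ℕ)] = [k] := (hP k _).1 h4
    have h6 : x = a := (List.cons.inj h5).1.trans hk
    rw [h6] at hx
    exact hb a hx.symm

/-- no model that is not isomorphic to the prime model has a copy computable in the second jump -/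
theorem obs_all {D : ℕ × List ℕ → Prop} {S : ℕ → Prop} (h : ObsData D S) (hS : ¬ Sig4 (fun j => ¬ S j))
    (N : Type) [(Lg arA).Structure N] [Nonempty N] [N ⊨ (Lg arA).completeTheory (Univ D)]
    (hN : IsEmpty (Univ D ≃[Lg arA] N)) (A B : ℕ → Prop) (hA : CeIn (fun _ => False) A) (hB : CeIn A B)
    (U : ℕ → Prop) (D' : ℕ × List ℕ → Prop) (hU : CompIn B U) (hD' : CompIn B D') :
    IsEmpty (UnivS U D' ≃[Lg arA] N) := by
  obtain ⟨f⟩ := prime h.hP N
  have hb : ∃ b : N, ∀ a, f a ≠ b := by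
    by_contra hcon
    push Not at hcon
    refine hN.false ⟨Equiv.ofBijective f ⟨f.injective, hcon⟩, ?_, ?_⟩
    · intro n g x
      exact g.elim
    · intro n r x
      exact f.map_rel r x
  obtain ⟨b, hb⟩ := hb
  exact obs_no_copyS h hS f hb U D' (sig3_of_compIn hA hB hU) (sig3_of_compIn hA hB hD')

end FdZ
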