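import Pool.Agent.Lib.MP_fd2900_lc.StmtDefs

/-! the final statement: negation of Q1 -/

namespace Pool.Agent.MP_fd2900_lc

open FirstOrder FirstOrder.Language

/-- Q1 is false: there is a strongly minimal theory with a computable prime model and a countable model without
a copy whose atomic diagram is computable in `0''` -/
def NegQ1 : Prop :=
  ∃ (ar : ℕ → ℕ) (D : ℕ × List ℕ → Prop), Computable ar ∧ ComputablePred D ∧
    StronglyMinimal ((Lg ar).completeTheory (Univ D)) ∧
    (∀ (M : Type) [(Lg ar).Structure M] [Nonempty M] [M ⊨ (Lg ar).completeTheory (Univ D)],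
      Nonempty (Univ D ↪ₑ[Lg ar] M)) ∧
    ∃ (N : Type) (_ : (Lg ar).Structure N) (_ : Nonempty N), Countable N ∧
      N ⊨ (Lg ar).completeTheory (Univ D) ∧
      ∀ D' : ℕ × List ℕ → Prop, Delta3 D' → IsEmpty (Univ D' ≃[Lg ar] N)

end Pool.Agent.MP_fd2900_lc
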