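import Pool.Agent.Lib.MP_fd2900_lc.Z.Limit
import Pool.Agent.Lib.MP_fd2900_lc.Z.Stmt

/-! the concrete signature and diagram, and the notions used in the obstruction -/

namespace FdZ

open FirstOrder FirstOrder.Language Pool.Agent.MP_fd2900_lc

/-- arities: `3k` is `D_k` (arity 5), `3k+1` is `G_{j,i}` with `k = pair j i` (arity 3), `3k+2` names the element `k` -/
def arA (r : ℕ) : ℕ := if r % 3 = 0 then 5 else if r % 3 = 1 then 3 else 1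

/-- the diagram of the structure `A` -/
def DA (G : Guide) (a : ℕ × List ℕ) : Prop :=
  (a.1 % 3 = 0 ∧ ((0, [a.1 / 3]), a.2) ∈ FE G) ∨
  (a.1 % 3 = 1 ∧ ((1, [(a.1 / 3).unpair.1, (a.1 / 3).unpair.2]), a.2) ∈ FE G) ∨
  (a.1 % 3 = 2 ∧ a.2 = [a.1 / 3])

/-- `Σ⁰₄` predicates -/
def Sig4 (P : ℕ → Prop) : Prop :=
  ∃ R : ℕ × ℕ × ℕ × ℕ × ℕ → Prop, ComputablePred R ∧ ∀ j, P j ↔ ∃ a, ∀ b, ∃ c, ∀ d, R (j, a, b, c, d)

/-- `c, u` is not refuted for `x, y` -/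
def Good (D : ℕ × List ℕ → Prop) (j x y c u : ℕ) : Prop :=
  [x, y, c, u].Nodup ∧ ∀ w, ¬ D (3 * j, [x, y, c, u, w])

/-- exactly one pair is not refuted -/
def Uniq (D : ℕ × List ℕ → Prop) (j x y : ℕ) : Prop :=
  ∃ c u, Good D j x y c u ∧ ∀ c' u', Good D j x y c' u' → c' = c ∧ u' = u

/-- the hidden function -/
def Fd (D : ℕ × List ℕ → Prop) (x y : ℕ) : Prop := x ≠ y ∧ Uniq D 0 x y

/-- what the obstruction needs to know about the structure -/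
structure ObsData (D : ℕ × List ℕ → Prop) (S : ℕ → Prop) : Prop where
  hP : ∀ k t, D (3 * k + 2, t) ↔ t = [k]
  o1 : ∀ x, ∃ y, Fd D x y
  o2 : ∀ x y, Fd D x y → ∀ j, Uniq D j x y
  o4 : ∀ j, S j → ∃ (i : ℕ) (X : Finset ℕ), ∀ x, x ∉ X → ∀ y c u, Fd D x y → Good D j x y c u →
    D (3 * Nat.pair j i + 1, [x, y, c])
  o5 : ∀ j, ¬ S j → ∀ i, ∃ X : Finset ℕ, ∀ x, x ∉ X → ∀ y c u, Fd D x y → Good D j x y c u →
    ¬ D (3 * Nat.pair j i + 1, [x, y, c])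

end FdZ
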