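import Pool.Agent.Lib.MP_fd2900_lc.Z.OneE
import Pool.Agent.Lib.MP_fd2900_lc.Z.Iface

namespace FdZ

variable {G : Guide}

theorem da_D {j : ℕ} {t : List ℕ} : DA G (3 * j, t) ↔ ((0, [j]), t) ∈ FE G := by
  have h0 : 3 * j % 3 = 0 := by omega
  have h1 : 3 * j / 3 = j := by omega
  simp only [DA, h0, h1]
  constructor
  · rintro (h | h | h)
    · exact h.2
    · exact absurd h.1 (by omega)
    · exact absurd h.1 (by omega)
  · intro h
    exact Or.inl ⟨trivial, h⟩

theorem da_G {j i : ℕ} {t : List ℕ} : DA G (3 * Nat.pair j i + 1, t) ↔ ((1, [j, i]), t) ∈ FE G := by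
  have h0 : (3 * Nat.pair j i + 1) % 3 = 1 := by omega
  have h1 : (3 * Nat.pair j i + 1) / 3 = Nat.pair j i := by omega
  simp only [DA, h0, h1, Nat.unpair_pair]
  constructor
  · rintro (h | h | h)
    · exact absurd h.1 (by omega)
    · exact h.2
    · exact absurd h.1 (by omega)
  · intro h
    exact Or.inr (Or.inl ⟨trivial, h⟩)

theorem da_P {k : ℕ} {t : List ℕ} : DA G (3 * k + 2, t) ↔ t = [k] := by
  have h0 : (3 * k + 2) % 3 = 2 := by omega
  have h1 : (3 * k + 2) / 3 = k := by omega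
  simp only [DA, h0, h1]
  constructor
  · rintro (h | h | h)
    · exact absurd h.1 (by omega)
    · exact absurd h.1 (by omega)
    · exact h.2
  · intro h
    exact Or.inr (Or.inr ⟨trivial, h⟩)

/-- the pairs that are not refuted are the final `Gam` edges -/
theorem good_iff {j x y c u : ℕ} : Good (DA G) j x y c u ↔ ((2, [j]), [x, y, c, u]) ∈ FE G := by
  constructor
  · rintro ⟨hnd, hw⟩
    by_contra h
    obtain ⟨w, hw'⟩ := tot_D hnd h
    exact hw w (da_D.2 hw')
  · intro h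
    exact ⟨(fe_shape h).1, fun w hw => legalD_lim h (da_D.1 hw)⟩

private theorem FinA_flab {ℓ : Lb} {t : List ℕ} (hℓ : ℓ.1 ≤ 2) (h : (ℓ, t) ∈ FE G) : flab G ℓ (ℓ, t) :=
  ⟨h, Or.inl ⟨hℓ, rfl⟩⟩

/-- over a true pair exactly one pair is not refuted -/
theorem uniq_p {n x y : ℕ} (hn : G.TP n) (hF : ((3, [n]), [x, y]) ∈ FE G) (j : ℕ) : Uniq (DA G) j x y := by
  have hxy : x ≠ y := by
    have h1 : ([x, y] : List ℕ).Nodup := (fe_shape hF).1
    rintro rfl
    simp at h1
  obtain ⟨c, hc⟩ := tot_G (G := G) j (G.io j n) hxy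
  obtain ⟨u, hu⟩ := tot_Gam_p hn hF hc
  refine ⟨c, u, good_iff.2 hu, ?_⟩
  intro c' u' h'
  have hu' := good_iff.1 h'
  have hc' := presc_lim hn hF hu'
  have e1 : c = c' :=
    uniq_one (β := [x, y]) nviol_lim (FinA_flab (by decide : (1 : ℕ) ≤ 2) hc)
      (FinA_flab (by decide : (1 : ℕ) ≤ 2) hc') rfl rfl (fe_shape hc).1 (fe_shape hc').1
  subst e1
  have e2 : u = u' :=
    uniq_one (β := [x, y, c]) nviol_lim (FinA_flab (by decide : (2 : ℕ) ≤ 2) hu)
      (FinA_flab (by decide : (2 : ℕ) ≤ 2) hu') rfl rfl (fe_shape hu).1 (fe_shape hu').1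
  exact ⟨rfl, e2.symm⟩

/-- the hidden function is the set of the true pairs -/
theorem fd_iff {x y : ℕ} : Fd (DA G) x y ↔ ∃ n, G.TP n ∧ ((3, [n]), [x, y]) ∈ FE G := by
  constructor
  · rintro ⟨hxy, c, u, _, huniq⟩
    by_contra h
    push Not at h
    have hnd : ([x, y, x + y + c + 1] : List ℕ).Nodup := by
      simp only [List.nodup_cons, List.mem_cons, List.not_mem_nil, or_false, not_false_eq_true,
        List.nodup_nil, and_true]
      omega
    obtain ⟨u₂, hu₂⟩ := tot_Gam_np (j := 0) hnd h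
    have h3 := (huniq _ _ (good_iff.2 hu₂)).1
    omega
  · rintro ⟨n, hn, hF⟩
    have hxy : x ≠ y := by
      have h1 : ([x, y] : List ℕ).Nodup := (fe_shape hF).1
      rintro rfl
      simp at h1
    exact ⟨hxy, uniq_p hn hF 0⟩

end FdZ
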