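import Pool.Agent.Lib.MP_fd2900_lc.Z.Ext
import Pool.Agent.Lib.MP_fd2900_lc.Z.FinA

namespace FdZ

variable {G : Guide} {m m' t₀ : ℕ} {i₀ : ℕ → ℕ}

/-- the visible structure as an instance of `VS` -/
noncomputable def vsG (hc : Cal G m m' t₀ i₀) : VS where
  VE := visE G m m'
  KK := (vis_kinds G m m').choose
  base := Finset.range (nn G t₀)
  hk := (vis_kinds G m m').choose_spec
  hnd := fun _ he => (vis_nodup he).1
  hlen := fun _ he => (vis_nodup he).2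
  nonneg := vis_nonneg
  nv := vis_nv
  ext := ext_main hc

private theorem FinC_vD {j : ℕ} (hj : j < m) {t : List ℕ} :
    ((0, [j]), t) ∈ visE G m m' ↔ ((0, [j]), t) ∈ FE G := by
  constructor
  · rintro (⟨_, h⟩ | ⟨⟨a, b, _, _, h⟩, _⟩ | ⟨⟨a, _, h⟩, _⟩ | ⟨h, _⟩ | ⟨a, n, x, y, c, _, h, _⟩)
    · exact h
    · simp at h
    · simp at h
    · simp at h
    · simp at h
  · intro h
    exact Or.inl ⟨⟨j, hj, rfl⟩, h⟩

private theorem FinC_vG {j i : ℕ} (hj : j < m) (hi : i < m') {t : List ℕ} :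
    ((1, [j, i]), t) ∈ visE G m m' ↔ ((1, [j, i]), t) ∈ FE G := by
  constructor
  · rintro (⟨⟨a, _, h⟩, _⟩ | ⟨_, h⟩ | ⟨⟨a, _, h⟩, _⟩ | ⟨h, _⟩ | ⟨a, n, x, y, c, _, h, _⟩)
    · simp at h
    · exact h
    · simp at h
    · simp at h
    · simp at h
  · intro h
    exact Or.inr (Or.inl ⟨⟨j, i, hj, hi, rfl⟩, h⟩)

theorem pres_D (hc : Cal G m m' t₀ i₀) {j : ℕ} (hj : j < m) : Pres (vsG hc) (DA G) (3 * j) := by
  intro Y Y' h hI t ht
  rw [da_D, da_D, ← FinC_vD (m' := m') hj, ← FinC_vD (m' := m') hj]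
  exact hI.iff ((0, [j]), t) ht

theorem pres_G (hc : Cal G m m' t₀ i₀) {j i : ℕ} (hj : j < m) (hi : i < m') :
    Pres (vsG hc) (DA G) (3 * Nat.pair j i + 1) := by
  intro Y Y' h hI t ht
  rw [da_G, da_G, ← FinC_vG hj hi, ← FinC_vG hj hi]
  exact hI.iff ((1, [j, i]), t) ht

theorem pres_P (hc : Cal G m m' t₀ i₀) {k : ℕ} (hk : k < nn G t₀) : Pres (vsG hc) (DA G) (3 * k + 2) := by
  intro Y Y' h hI t ht
  have hkb : k ∈ (vsG hc).base := Finset.mem_range.2 hk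
  have hkY : k ∈ Y := hI.sub hkb
  have hfix : h k = k := hI.fix k hkb
  rw [da_P, da_P]
  constructor
  · rintro rfl
    rw [List.map_singleton, hfix]
  · intro h1
    obtain ⟨v, rfl⟩ : ∃ v, t = [v] := by
      rw [← List.length_eq_one_iff]
      have h2 := congrArg List.length h1
      simpa using h2
    have hv : v ∈ Y := ht v (by simp)
    have h2 : h v = k := by simpa using h1
    have h3 : v = k := hI.bij.injOn (Finset.mem_coe.2 hv) (Finset.mem_coe.2 hkY) (by rw [h2, hfix])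
    rw [h3]

theorem exists_vs (G : Guide) (Rs : Finset ℕ) : ∃ vs : VS, ∀ r ∈ Rs, Pres vs (DA G) r := by
  obtain ⟨N, hN⟩ : ∃ N, ∀ r ∈ Rs, r < N :=
    ⟨Rs.sup id + 1, fun r hr => Nat.lt_succ_of_le (Finset.le_sup (f := id) hr)⟩
  obtain ⟨m', t₀, i₀, h1, h2, hc⟩ := exists_cal G N N N
  refine ⟨vsG hc, fun r hr => ?_⟩
  have hr1 := hN r hr
  have hr2 : r / 3 < N := lt_of_le_of_lt (Nat.div_le_self r 3) hr1
  have h3 : r % 3 = 0 ∨ r % 3 = 1 ∨ r % 3 = 2 := by omega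
  rcases h3 with h3 | h3 | h3
  · have h4 : r = 3 * (r / 3) := by omega
    rw [h4]
    exact pres_D hc hr2
  · have h4 : r = 3 * Nat.pair (r / 3).unpair.1 (r / 3).unpair.2 + 1 := by
      rw [Nat.pair_unpair]
      omega
    rw [h4]
    exact pres_G hc (lt_of_le_of_lt (Nat.unpair_left_le _) hr2)
      (lt_of_lt_of_le (lt_of_le_of_lt (Nat.unpair_right_le _) hr2) h1)
  · have h4 : r = 3 * (r / 3) + 2 := by omega
    rw [h4]
    exact pres_P hc (lt_of_lt_of_le hr2 (h2.trans (le_nn t₀)))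

end FdZ
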