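import Mathlib

/-! search, and the label of a node -/

namespace FdZ.Tg

/-- unbounded search -/
theorem comp_find {α : Type} [Primcodable α] {f : α × ℕ → Bool} (hf : Computable f)
    (hex : ∀ a, ∃ n, f (a, n) = true) :
    ∃ g : α → ℕ, Computable g ∧ ∀ a, f (a, g a) = true ∧ ∀ m < g a, f (a, m) = false := by
  let p : α → ℕ →. Bool := fun a n => Part.some (f (a, n))
  have hp : Partrec₂ p := hf
  have h1 : Partrec fun a => Nat.rfind (p a) := Partrec.rfind hp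
  have hdom : ∀ a, (Nat.rfind (p a)).Dom := by
    intro a
    obtain ⟨n, hn⟩ := hex a
    rw [Nat.rfind_dom]
    refine ⟨n, ?_, fun _ => trivial⟩
    change true ∈ Part.some (f (a, n))
    rw [hn]
    exact Part.mem_some _
  refine ⟨fun a => (Nat.rfind (p a)).get (hdom a), ?_, fun a => ?_⟩
  · exact h1.of_eq fun a => (Part.some_get (hdom a)).symm
  · have h2 := Nat.rfind_spec (Part.get_mem (hdom a))
    refine ⟨(Part.mem_some_iff.1 h2).symm, fun m hm => ?_⟩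
    have h3 := Nat.rfind_min (Part.get_mem (hdom a)) hm
    exact (Part.mem_some_iff.1 h3).symm

/-- the node `ξ` has guessed that `a` is not a witness for `j` -/
def Bad (j a : ℕ) (ξ : List ℕ) : Prop :=
  ∃ k ∈ List.range ξ.length, ξ.getD k 1 = 0 ∧ k.unpair.1 = j ∧ k.unpair.2.unpair.1 = a

theorem bad_prim : PrimrecPred fun p : (ℕ × List ℕ) × ℕ => Bad p.1.1 p.2 p.1.2 := by
  have e1 : Primrec fun q : ℕ × ((ℕ × List ℕ) × ℕ) => q.1 := Primrec.fst
  have e2 : Primrec fun q : ℕ × ((ℕ × List ℕ) × ℕ) => q.2.1.1 :=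
    Primrec.fst.comp (Primrec.fst.comp Primrec.snd)
  have e3 : Primrec fun q : ℕ × ((ℕ × List ℕ) × ℕ) => q.2.1.2 :=
    Primrec.snd.comp (Primrec.fst.comp Primrec.snd)
  have e4 : Primrec fun q : ℕ × ((ℕ × List ℕ) × ℕ) => q.2.2 := Primrec.snd.comp Primrec.snd
  have u : Primrec fun q : ℕ × ((ℕ × List ℕ) × ℕ) => q.1.unpair := Primrec.unpair.comp e1
  have h1 : PrimrecPred fun q : ℕ × ((ℕ × List ℕ) × ℕ) => q.2.1.2.getD q.1 1 = 0 :=
    Primrec.eq.comp ((Primrec.list_getD 1).comp e3 e1) (Primrec.const 0)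
  have h2 : PrimrecPred fun q : ℕ × ((ℕ × List ℕ) × ℕ) => q.1.unpair.1 = q.2.1.1 :=
    Primrec.eq.comp (Primrec.fst.comp u) e2
  have h3 : PrimrecPred fun q : ℕ × ((ℕ × List ℕ) × ℕ) => q.1.unpair.2.unpair.1 = q.2.2 :=
    Primrec.eq.comp (Primrec.fst.comp (Primrec.unpair.comp (Primrec.snd.comp u))) e4
  have h4 : PrimrecRel fun (k : ℕ) (b : (ℕ × List ℕ) × ℕ) =>
      b.1.2.getD k 1 = 0 ∧ k.unpair.1 = b.1.1 ∧ k.unpair.2.unpair.1 = b.2 := h1.and (h2.and h3)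
  have h5 := h4.exists_mem_list
  have h6 : Primrec fun b : (ℕ × List ℕ) × ℕ => List.range b.1.2.length :=
    Primrec.list_range.comp (Primrec.list_length.comp (Primrec.snd.comp Primrec.fst))
  exact h5.comp h6 Primrec.id

theorem Bad.mono {j a : ℕ} {ξ ζ : List ℕ} (h : Bad j a ξ) (hp : ξ <+: ζ) : Bad j a ζ := by
  obtain ⟨k, hk, h1, h2⟩ := h
  rw [List.mem_range] at hk
  refine ⟨k, List.mem_range.2 (lt_of_lt_of_le hk hp.length_le), ?_, h2⟩
  obtain ⟨t, rfl⟩ := hp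
  rw [List.getD_append _ _ _ _ hk]
  exact h1

theorem not_bad_length (j : ℕ) (ξ : List ℕ) : ¬ Bad j ξ.length ξ := by
  rintro ⟨k, hk, _, _, h⟩
  rw [List.mem_range] at hk
  have h1 := Nat.unpair_left_le k.unpair.2
  have h2 := Nat.unpair_right_le k
  omega

/-- the label of a node: the least number that it does not believe to be refuted -/
theorem exists_lab : ∃ l : ℕ → List ℕ → ℕ, (Computable fun p : ℕ × List ℕ => l p.1 p.2) ∧
    ∀ j ξ, ¬ Bad j (l j ξ) ξ ∧ ∀ a < l j ξ, Bad j a ξ := by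
  classical
  obtain ⟨hd, hc⟩ := bad_prim
  have h1 : Computable fun p : (ℕ × List ℕ) × ℕ => !(decide (Bad p.1.1 p.2 p.1.2)) := by
    have := Primrec.not.to_comp.comp hc.to_comp
    refine this.of_eq fun p => ?_
    congr
  obtain ⟨g, hg, hs⟩ := comp_find h1 (by
    intro a
    refine ⟨a.2.length, ?_⟩
    have := not_bad_length a.1 a.2
    simp [this])
  refine ⟨fun j ξ => g (j, ξ), hg, fun j ξ => ?_⟩
  obtain ⟨h2, h3⟩ := hs (j, ξ)
  refine ⟨by simpa using h2, fun a ha => ?_⟩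
  simpa using h3 a ha

theorem lab_mono {l : ℕ → List ℕ → ℕ} (hl : ∀ j ξ, ¬ Bad j (l j ξ) ξ ∧ ∀ a < l j ξ, Bad j a ξ)
    {j : ℕ} {ξ ζ : List ℕ} (hp : ξ <+: ζ) : l j ξ ≤ l j ζ := by
  by_contra h
  exact (hl j ζ).1 (((hl j ξ).2 _ (by omega)).mono hp)

end FdZ.Tg
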