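import Pool.Agent.Lib.MP_fd2900_lc.Z.TgPath
import Pool.Agent.Lib.MP_fd2900_lc.Z.TgLab

/-! birth stages of the labels -/

namespace FdZ.Tg

section
variable {o : ℕ → ℕ → ℕ} {l : ℕ → List ℕ → ℕ}

theorem le_of_pre {r s : ℕ} (h : act o r <+: act o s) : r ≤ s := by
  by_cases hne : act o r = act o s
  · exact (act_inj o hne).le
  · obtain ⟨t, ht, h1⟩ := act_pre o h hne
    have := act_inj o h1
    omega

theorem pre_chain {r s t : ℕ} (h1 : act o r <+: act o t) (h2 : act o s <+: act o t) (h3 : r ≤ s) :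
    act o r <+: act o s := by
  rcases le_total (act o r).length (act o s).length with h | h
  · exact List.prefix_of_prefix_length_le h1 h2 h
  · have h4 := List.prefix_of_prefix_length_le h2 h1 h
    have h5 := le_of_pre h4
    have h6 : r = s := by omega
    rw [h6]

/-- `i` is the birth stage of the label of `j` at stage `s` -/
def Birth (o : ℕ → ℕ → ℕ) (l : ℕ → List ℕ → ℕ) (j s i : ℕ) : Prop :=
  (act o i <+: act o s ∧ l j (act o i) = l j (act o s)) ∧
    ∀ m < i, ¬ (act o m <+: act o s ∧ l j (act o m) = l j (act o s))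

theorem exists_birth (ho : Computable fun p : ℕ × ℕ => o p.1 p.2)
    (hl : Computable fun p : ℕ × List ℕ => l p.1 p.2) :
    ∃ io : ℕ → ℕ → ℕ, (Computable fun p : ℕ × ℕ => io p.1 p.2) ∧ ∀ j s, Birth o l j s (io j s) := by
  classical
  have hact := act_comp ho
  obtain ⟨hd, hc⟩ := prefix_prim
  have e1 : Computable fun p : (ℕ × ℕ) × ℕ => act o p.2 := hact.comp Computable.snd
  have e2 : Computable fun p : (ℕ × ℕ) × ℕ => act o p.1.2 :=
    hact.comp (Computable.snd.comp Computable.fst)
  have e3 : Computable fun p : (ℕ × ℕ) × ℕ => p.1.1 := Computable.fst.comp Computable.fst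
  have h1 : Computable fun p : (ℕ × ℕ) × ℕ => decide (act o p.2 <+: act o p.1.2) := by
    have := hc.to_comp.comp (e2.pair e1)
    refine this.of_eq fun p => ?_
    simp
  have h2 : Computable fun p : (ℕ × ℕ) × ℕ => l p.1.1 (act o p.2) := by
    have := hl.comp (e3.pair e1)
    exact this
  have h3 : Computable fun p : (ℕ × ℕ) × ℕ => l p.1.1 (act o p.1.2) := by
    have := hl.comp (e3.pair e2)
    exact this
  have h4 : Computable fun p : (ℕ × ℕ) × ℕ => decide (l p.1.1 (act o p.2) = l p.1.1 (act o p.1.2)) := by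
    have h5 : PrimrecPred fun q : ℕ × ℕ => q.1 = q.2 := Primrec.eq
    obtain ⟨hd5, hc5⟩ := h5
    have := hc5.to_comp.comp (h2.pair h3)
    refine this.of_eq fun p => ?_
    simp
  have h5 : Computable fun p : (ℕ × ℕ) × ℕ =>
      (decide (act o p.2 <+: act o p.1.2) && decide (l p.1.1 (act o p.2) = l p.1.1 (act o p.1.2))) :=
    Primrec.and.to_comp.comp h1 h4
  obtain ⟨g, hg, hs⟩ := comp_find h5 (by
    intro a
    refine ⟨a.2, ?_⟩
    simp)
  refine ⟨fun j s => g (j, s), hg, fun j s => ?_⟩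
  obtain ⟨h6, h7⟩ := hs (j, s)
  refine ⟨by simpa using h6, fun m hm => ?_⟩
  have := h7 m hm
  simp only [Bool.and_eq_false_iff, decide_eq_false_iff_not] at this
  tauto

variable (hm : ∀ j {ξ ζ : List ℕ}, ξ <+: ζ → l j ξ ≤ l j ζ)

theorem Birth.eq {j r s i k : ℕ} (h : act o r <+: act o s) (hl : l j (act o r) = l j (act o s))
    (h1 : Birth o l j r i) (h2 : Birth o l j s k) : i = k := by
  obtain ⟨⟨a1, a2⟩, a3⟩ := h1
  obtain ⟨⟨b1, b2⟩, b3⟩ := h2
  have h3 : k ≤ i := by
    by_contra hcon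
    exact b3 i (by omega) ⟨a1.trans h, a2.trans hl⟩
  have h4 : i ≤ k := by
    by_contra hcon
    refine a3 k (by omega) ⟨?_, b2.trans hl.symm⟩
    exact pre_chain b1 h (h3.trans (le_of_pre a1))
  omega

include hm in
theorem Birth.mono {j r s i k : ℕ} (h : act o r <+: act o s)
    (h1 : Birth o l j r i) (h2 : Birth o l j s k) : i = k ∨ r < k := by
  rcases Nat.lt_or_ge r k with h3 | h3
  · exact Or.inr h3
  · left
    refine Birth.eq h ?_ h1 h2
    have h4 : act o k <+: act o r := pre_chain h2.1.1 h h3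
    have h5 := hm j h4
    have h6 := hm j h
    have h7 := h2.1.2
    omega

end

end FdZ.Tg
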