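import Mathlib

/-! the guess function of a uniform family of two-quantifier statements -/

namespace FdZ.Tg

section
variable (t : ℕ → ℕ → ℕ → Bool)

/-- length of agreement; `t k L v`: a witness for `L` has been found before time `v + 1` -/
private def L (k : ℕ) (v : ℕ) : ℕ :=
  Nat.rec (motive := fun _ => ℕ) 0 (fun v L => bif t k L v then L + 1 else L) v

private theorem L_succ (k v : ℕ) : L t k (v + 1) = bif t k (L t k v) v then L t k v + 1 else L t k v := rfl

private def o (k v : ℕ) : ℕ := bif t k (L t k v) v then 0 else L t k v + 1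

private theorem L_mono (k : ℕ) : Monotone (L t k) := by
  refine monotone_nat_of_le_succ fun v => ?_
  rw [L_succ]
  cases t k (L t k v) v <;> simp

private theorem o_comp (ht : Computable fun p : (ℕ × ℕ) × ℕ => t p.1.1 p.1.2 p.2) :
    Computable fun p : ℕ × ℕ => o t p.1 p.2 := by
  have hL : Computable fun p : ℕ × ℕ => L t p.1 p.2 := by
    have h0 : Computable₂ fun (p : ℕ × ℕ) (q : ℕ × ℕ) =>
        (bif t p.1 q.2 q.1 then q.2 + 1 else q.2 : ℕ) := by
      have h1 : Computable fun x : (ℕ × ℕ) × (ℕ × ℕ) => ((x.1.1, x.2.2), x.2.1) :=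
        ((Computable.fst.comp Computable.fst).pair (Computable.snd.comp Computable.snd)).pair
          (Computable.fst.comp Computable.snd)
      have h2 : Computable fun x : (ℕ × ℕ) × (ℕ × ℕ) => t x.1.1 x.2.2 x.2.1 := by
        have := ht.comp h1
        exact this
      have h3 : Computable fun x : (ℕ × ℕ) × (ℕ × ℕ) => x.2.2 + 1 :=
        Computable.succ.comp (Computable.snd.comp Computable.snd)
      exact Computable.cond h2 h3 (Computable.snd.comp Computable.snd)
    have h1 := Computable.nat_rec (f := fun p : ℕ × ℕ => p.2) (g := fun _ => (0 : ℕ))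
      Computable.snd (Computable.const 0) h0
    exact h1.of_eq fun p => by rfl
  have h1 : Computable fun x : ℕ × ℕ => ((x.1, L t x.1 x.2), x.2) :=
    (Computable.fst.pair hL).pair Computable.snd
  have h2 : Computable fun x : ℕ × ℕ => t x.1 (L t x.1 x.2) x.2 := by
    have := ht.comp h1
    exact this
  have h3 : Computable fun x : ℕ × ℕ => L t x.1 x.2 + 1 := Computable.succ.comp hL
  exact Computable.cond h2 (Computable.const 0) h3

private theorem o_spec (R : ℕ → ℕ → ℕ → Prop) (ht : ∀ k c v, t k c v = true ↔ ∃ d < v + 1, R k c d)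
    (k : ℕ) :
    ∃ x, (∀ n, ∃ v, n ≤ v ∧ o t k v = x) ∧
      (∀ y, y ≠ x → ∃ n, ∀ v, n ≤ v → o t k v ≠ y) ∧ (x = 0 ↔ ∀ c, ∃ d, R k c d) := by
  have hgrow : ∀ v, L t k (v + 1) ≤ L t k v + 1 := by
    intro v
    rw [L_succ]
    cases t k (L t k v) v <;> simp
  by_cases hP : ∀ c, ∃ d, R k c d
  · -- the length tends to infinity
    have hinf : ∀ m, ∃ v, m ≤ L t k v := by
      intro m
      induction m with
      | zero => exact ⟨0, by simp⟩
      | succ m ih =>
        obtain ⟨v, hv⟩ := ih
        by_cases h1 : m + 1 ≤ L t k v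
        · exact ⟨v, h1⟩
        have h2 : L t k v = m := by omega
        obtain ⟨d, hd⟩ := hP m
        by_cases h3 : m + 1 ≤ L t k (max v d)
        · exact ⟨_, h3⟩
        have h4 : L t k (max v d) = m := by
          have := L_mono t k (le_max_left v d)
          omega
        refine ⟨max v d + 1, ?_⟩
        have h5 : t k (L t k (max v d)) (max v d) = true := by
          rw [h4, ht]
          exact ⟨d, by omega, hd⟩
        rw [L_succ, h5, h4]
        simp
    refine ⟨0, ?_, ?_, by simpa using hP⟩
    · intro n
      by_contra hcon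
      push Not at hcon
      have h1 : ∀ v, n ≤ v → L t k v = L t k n := by
        intro v hv
        induction v, hv using Nat.le_induction with
        | base => rfl
        | succ v hv ih =>
          have := hcon v hv
          unfold o at this
          rw [L_succ]
          cases h2 : t k (L t k v) v
          · simpa using ih
          · rw [h2] at this
            simp at this
      obtain ⟨v, hv⟩ := hinf (L t k n + 1)
      rcases le_total n v with h | h
      · rw [h1 v h] at hv
        omega
      · have := L_mono t k h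
        omega
    · intro y hy
      obtain ⟨v0, hv0⟩ := hinf y
      refine ⟨v0, fun v hv he => ?_⟩
      have := L_mono t k hv
      unfold o at he
      cases h2 : t k (L t k v) v
      · rw [h2] at he
        simp only [cond_false] at he
        omega
      · rw [h2] at he
        simp only [cond_true] at he
        exact hy he.symm
  · push Not at hP
    obtain ⟨c, hc⟩ := hP
    have hb : ∀ v, L t k v ≤ c := by
      intro v
      induction v with
      | zero => exact Nat.zero_le _
      | succ v ih =>
        rw [L_succ]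
        cases h2 : t k (L t k v) v
        · simpa using ih
        · simp only [cond_true]
          rcases Nat.lt_or_ge (L t k v) c with h | h
          · omega
          · have h3 : L t k v = c := by omega
            rw [h3, ht] at h2
            obtain ⟨d, _, hd⟩ := h2
            exact absurd hd (hc d)
    obtain ⟨n0, hn0⟩ : ∃ n0, ∀ v, n0 ≤ v → L t k v = L t k n0 := by
      by_contra hcon
      push Not at hcon
      have h1 : ∀ m, ∃ v, m ≤ L t k v := by
        intro m
        induction m with
        | zero => exact ⟨0, by simp⟩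
        | succ m ih =>
          obtain ⟨v, hv⟩ := ih
          obtain ⟨w, hw, hne⟩ := hcon v
          have := L_mono t k hw
          exact ⟨w, by omega⟩
      obtain ⟨v, hv⟩ := h1 (c + 1)
      have := hb v
      omega
    have ho : ∀ v, n0 ≤ v → o t k v = L t k n0 + 1 := by
      intro v hv
      have h1 := hn0 v hv
      have h2 := hn0 (v + 1) (by omega)
      rw [L_succ, h1] at h2
      unfold o
      rw [h1]
      cases h3 : t k (L t k n0) v
      · simp
      · rw [h3] at h2
        simp at h2
    refine ⟨L t k n0 + 1, ?_, ?_, ?_⟩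
    · intro n
      exact ⟨max n n0, le_max_left _ _, ho _ (le_max_right _ _)⟩
    · intro y hy
      exact ⟨n0, fun v hv he => hy (by rw [← he, ho v hv])⟩
    · constructor
      · intro h
        omega
      · intro h
        obtain ⟨d, hd⟩ := h c
        exact absurd hd (hc d)

end

private theorem bex_lt {P : ((ℕ × ℕ) × ℕ) → Prop} (h : ComputablePred P) :
    ∃ f : (ℕ × ℕ) × ℕ → Bool, Computable f ∧ ∀ a m, f (a, m) = true ↔ ∃ d < m, P (a, d) := by
  obtain ⟨hd, hc⟩ := h
  let g : (ℕ × ℕ) × ℕ → Bool := fun p => Nat.rec (motive := fun _ => Bool) false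
    (fun i acc => acc || decide (P (p.1, i))) p.2
  refine ⟨g, ?_, ?_⟩
  · refine Computable.nat_rec (f := fun p : (ℕ × ℕ) × ℕ => p.2) (g := fun _ => false)
      (h := fun p q => q.2 || decide (P (p.1, q.1))) Computable.snd (Computable.const false) ?_
    have h1 : Computable (fun q : ((ℕ × ℕ) × ℕ) × (ℕ × Bool) => (q.1.1, q.2.1)) :=
      (Computable.fst.comp Computable.fst).pair (Computable.fst.comp Computable.snd)
    exact Primrec.or.to_comp.comp (Computable.snd.comp Computable.snd) (hc.comp h1)
  · intro a m
    change (Nat.rec (motive := fun _ => Bool) false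
      (fun i acc => acc || decide (P (a, i))) m) = true ↔ _
    induction m with
    | zero => simp
    | succ m ih =>
      simp only [Bool.or_eq_true, ih, decide_eq_true_eq]
      constructor
      · rintro (⟨i, hi, h1⟩ | h1)
        · exact ⟨i, by omega, h1⟩
        · exact ⟨m, by omega, h1⟩
      · rintro ⟨i, hi, h1⟩
        rcases Nat.lt_succ_iff_lt_or_eq.1 hi with hi | rfl
        · exact Or.inl ⟨i, hi, h1⟩
        · exact Or.inr h1

/-- the guess function of a uniform family of `Π⁰₂` statements -/
theorem exists_fun (R : (ℕ × ℕ) × ℕ → Prop) (hR : ComputablePred R) :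
    ∃ o : ℕ → ℕ → ℕ, (Computable fun p : ℕ × ℕ => o p.1 p.2) ∧
      ∀ k, ∃ x, (∀ n, ∃ v, n ≤ v ∧ o k v = x) ∧
        (∀ y, y ≠ x → ∃ n, ∀ v, n ≤ v → o k v ≠ y) ∧ (x = 0 ↔ ∀ c, ∃ d, R ((k, c), d)) := by
  obtain ⟨f, hf, hfe⟩ := bex_lt hR
  have h1 : Computable fun p : (ℕ × ℕ) × ℕ => (p.1, p.2 + 1) :=
    Computable.fst.pair (Computable.succ.comp Computable.snd)
  have h2 : Computable fun p : (ℕ × ℕ) × ℕ => f (p.1, p.2 + 1) := by
    have := hf.comp h1
    exact this
  exact ⟨o fun k c v => f ((k, c), v + 1), o_comp (fun k c v => f ((k, c), v + 1)) h2,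
    fun k => o_spec _ (fun k c d => R ((k, c), d)) (fun k c v => hfe (k, c) (v + 1)) k⟩

end FdZ.Tg
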