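import Mathlib

/-! a universal matrix for the predicates with four alternating quantifiers -/

namespace FdZ.Tg

open Nat.Partrec (Code)
open Nat.Partrec.Code (evaln eval)

private def inp (n a b c d : ℕ) : ℕ := Encodable.encode (n, a, b, c, d)

private def V (e n a b c d : ℕ) : Prop :=
  ¬ (evaln d.unpair.2 (Denumerable.ofNat Code e) (inp n a b c d.unpair.1) = some 0)

private theorem V_comp :
    ComputablePred fun p : ℕ × ℕ × ℕ × ℕ × ℕ => V p.1 p.1 p.2.1 p.2.2.1 p.2.2.2.1 p.2.2.2.2 := by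
  have e1 : Primrec fun p : ℕ × ℕ × ℕ × ℕ × ℕ => p.1 := Primrec.fst
  have e2 : Primrec fun p : ℕ × ℕ × ℕ × ℕ × ℕ => p.2.1 := Primrec.fst.comp Primrec.snd
  have e3 : Primrec fun p : ℕ × ℕ × ℕ × ℕ × ℕ => p.2.2.1 :=
    Primrec.fst.comp (Primrec.snd.comp Primrec.snd)
  have e4 : Primrec fun p : ℕ × ℕ × ℕ × ℕ × ℕ => p.2.2.2.1 :=
    Primrec.fst.comp (Primrec.snd.comp (Primrec.snd.comp Primrec.snd))
  have e5 : Primrec fun p : ℕ × ℕ × ℕ × ℕ × ℕ => p.2.2.2.2 :=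
    Primrec.snd.comp (Primrec.snd.comp (Primrec.snd.comp Primrec.snd))
  have u : Primrec fun p : ℕ × ℕ × ℕ × ℕ × ℕ => p.2.2.2.2.unpair := Primrec.unpair.comp e5
  have hin : Primrec fun p : ℕ × ℕ × ℕ × ℕ × ℕ =>
      inp p.1 p.2.1 p.2.2.1 p.2.2.2.1 p.2.2.2.2.unpair.1 :=
    Primrec.encode.comp (e1.pair (e2.pair (e3.pair (e4.pair (Primrec.fst.comp u)))))
  have hcode : Primrec fun p : ℕ × ℕ × ℕ × ℕ × ℕ => (Denumerable.ofNat Code p.1) :=
    (Primrec.ofNat Code).comp e1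
  have hev : Primrec fun p : ℕ × ℕ × ℕ × ℕ × ℕ =>
      evaln p.2.2.2.2.unpair.2 (Denumerable.ofNat Code p.1)
        (inp p.1 p.2.1 p.2.2.1 p.2.2.2.1 p.2.2.2.2.unpair.1) :=
    Nat.Partrec.Code.primrec_evaln.comp
      (((Primrec.snd.comp u).pair hcode).pair hin)
  have h : PrimrecPred fun p : ℕ × ℕ × ℕ × ℕ × ℕ =>
      V p.1 p.1 p.2.1 p.2.2.1 p.2.2.2.1 p.2.2.2.2 :=
    (Primrec.eq.comp hev (Primrec.const (some 0))).not
  obtain ⟨hd, hp⟩ := h
  exact ⟨hd, hp.to_comp⟩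

private theorem V_univ {R : ℕ × ℕ × ℕ × ℕ × ℕ → Prop} (hR : ComputablePred R) :
    ∃ e, ∀ n a b c, (∀ d, V e n a b c d) ↔ ∀ d, R (n, a, b, c, d) := by
  obtain ⟨hd, hf⟩ := hR
  have hg : Computable fun x : ℕ × ℕ × ℕ × ℕ × ℕ => bif decide (R x) then 1 else 0 :=
    Computable.cond hf (Computable.const 1) (Computable.const 0)
  have hg' : Nat.Partrec fun m =>
      ((Encodable.decode (α := ℕ × ℕ × ℕ × ℕ × ℕ) m : Option _) : Part _).bind
        fun a => ((bif decide (R a) then 1 else 0 : ℕ) : Part ℕ).map Encodable.encode := hg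
  obtain ⟨c, hc⟩ := Nat.Partrec.Code.exists_code.1 hg'
  have key : ∀ n a b c' d, (0 ∈ eval c (inp n a b c' d)) ↔ ¬ R (n, a, b, c', d) := by
    intro n a b c' d
    rw [hc]
    simp only [inp, Encodable.encodek, Part.coe_some, Part.bind_some, Part.map_some,
      Part.mem_some_iff, Encodable.encode_nat]
    by_cases h : R (n, a, b, c', d)
    · simp [h]
    · simp [h]
  refine ⟨Encodable.encode c, fun n a b c' => ?_⟩
  constructor
  · intro h d
    by_contra hq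
    have := (key n a b c' d).2 hq
    rw [Nat.Partrec.Code.evaln_complete] at this
    obtain ⟨k, hk⟩ := this
    have h1 := h (Nat.pair d k)
    apply h1
    simpa [Denumerable.ofNat_encode] using hk
  · intro h d hv
    have h1 : 0 ∈ eval c (inp n a b c' d.unpair.1) := by
      apply Nat.Partrec.Code.evaln_sound (k := d.unpair.2)
      simpa [Denumerable.ofNat_encode] using hv
    exact (key n a b c' d.unpair.1).1 h1 (h _)

theorem exists_univ : ∃ T : ℕ × ℕ × ℕ × ℕ × ℕ → Prop, ComputablePred T ∧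
    ∀ R : ℕ × ℕ × ℕ × ℕ × ℕ → Prop, ComputablePred R →
      ¬ ∀ j, (¬ ∃ a, ∀ b, ∃ c, ∀ d, T (j, a, b, c, d)) ↔ ∃ a, ∀ b, ∃ c, ∀ d, R (j, a, b, c, d) := by
  refine ⟨fun p => V p.1 p.1 p.2.1 p.2.2.1 p.2.2.2.1 p.2.2.2.2, V_comp, fun R hR h => ?_⟩
  obtain ⟨e, he⟩ := V_univ hR
  have h2 : (¬ ∃ a, ∀ b, ∃ c, ∀ d, V e e a b c d) ↔ ∃ a, ∀ b, ∃ c, ∀ d, R (e, a, b, c, d) := h e
  simp only [← he] at h2
  generalize (∃ a, ∀ b, ∃ c, ∀ d, V e e a b c d) = A at h2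
  exact iff_not_self h2.symm

end FdZ.Tg
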