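import Pool.Agent.Lib.MP_fd2900_lc.Z.Iface
import Pool.Agent.Lib.MP_fd2900_lc.Z.TgUniv
import Pool.Agent.Lib.MP_fd2900_lc.Z.TgFun
import Pool.Agent.Lib.MP_fd2900_lc.Z.TgBirth

/-! existence of the tree of guesses -/

namespace FdZ

open Tg

private theorem bdd_choice {Q : ℕ → ℕ → Prop} (M : ℕ) (h : ∀ a < M, ∃ k, Q a k) :
    ∃ K, ∀ a < M, ∃ k < K, Q a k := by
  induction M with
  | zero => exact ⟨0, fun a ha => absurd ha (by omega)⟩
  | succ M ih =>
    obtain ⟨K, hK⟩ := ih fun a ha => h a (by omega)
    obtain ⟨k, hk⟩ := h M (by omega)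
    refine ⟨max K (k + 1), fun a ha => ?_⟩
    rcases Nat.lt_succ_iff_lt_or_eq.1 ha with h1 | rfl
    · obtain ⟨k', hk', h2⟩ := hK a h1
      exact ⟨k', lt_of_lt_of_le hk' (le_max_left _ _), h2⟩
    · exact ⟨k, lt_of_lt_of_le (Nat.lt_succ_self k) (le_max_right _ _), hk⟩

private theorem tpl_getD {x : ℕ → ℕ} {n k : ℕ} (h : k < n) : (tpl x n).getD k 1 = x k := by
  rw [List.getD_eq_getElem _ _ (by rw [tpl_length]; exact h)]
  simp [tpl]

private theorem bad_tpl {x : ℕ → ℕ} {n j a : ℕ} :
    Bad j a (tpl x n) ↔ ∃ k < n, x k = 0 ∧ k.unpair.1 = j ∧ k.unpair.2.unpair.1 = a := by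
  unfold Bad
  rw [tpl_length]
  constructor
  · rintro ⟨k, hk, h1, h2⟩
    rw [List.mem_range] at hk
    rw [tpl_getD hk] at h1
    exact ⟨k, hk, h1, h2⟩
  · rintro ⟨k, hk, h1, h2⟩
    refine ⟨k, List.mem_range.2 hk, ?_, h2⟩
    rw [tpl_getD hk]
    exact h1

theorem exists_guide : ∃ G : Guide, ¬ Sig4 (fun j => ¬ G.S j) ∧
    Computable (fun p : ℕ × ℕ => G.le p.1 p.2) ∧ Computable (fun p : ℕ × ℕ => G.io p.1 p.2) ∧
    Computable G.rqi := by
  classical
  obtain ⟨T, hT, hdiag⟩ := exists_univ
  -- the family of guesses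
  have hR : ComputablePred fun q : (ℕ × ℕ) × ℕ =>
      ¬ T (q.1.1.unpair.1, q.1.1.unpair.2.unpair.1, q.1.1.unpair.2.unpair.2, q.1.2, q.2) := by
    obtain ⟨f, hf, hfe⟩ := ComputablePred.computable_iff.1 hT
    have u : Computable fun q : (ℕ × ℕ) × ℕ => q.1.1.unpair :=
      Computable.unpair.comp (Computable.fst.comp Computable.fst)
    have u2 : Computable fun q : (ℕ × ℕ) × ℕ => q.1.1.unpair.2.unpair :=
      Computable.unpair.comp (Computable.snd.comp u)
    have h1 : Computable fun q : (ℕ × ℕ) × ℕ =>
        (q.1.1.unpair.1, q.1.1.unpair.2.unpair.1, q.1.1.unpair.2.unpair.2, q.1.2, q.2) :=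
      (Computable.fst.comp u).pair ((Computable.fst.comp u2).pair ((Computable.snd.comp u2).pair
        ((Computable.snd.comp Computable.fst).pair Computable.snd)))
    rw [ComputablePred.computable_iff]
    refine ⟨fun q => !(f (q.1.1.unpair.1, q.1.1.unpair.2.unpair.1, q.1.1.unpair.2.unpair.2, q.1.2,
      q.2)), Primrec.not.to_comp.comp (hf.comp h1), ?_⟩
    funext q
    rw [hfe]
    simp
  obtain ⟨o, ho, hspec⟩ := exists_fun _ hR
  choose x hx1 hx2 hx3 using hspec
  obtain ⟨l, hl, hls⟩ := exists_lab
  have hlm : ∀ j {ξ ζ : List ℕ}, ξ <+: ζ → l j ξ ≤ l j ζ := fun j ξ ζ h => lab_mono hls h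
  obtain ⟨io, hio, hbirth⟩ := exists_birth ho hl
  have hact := act_comp ho
  let TP : ℕ → Prop := fun s => Tg.act o s = tpl x (Tg.act o s).length
  let S : ℕ → Prop := fun j => ∃ a, ∀ b, ∃ c, ∀ d, T (j, a, b, c, d)
  have hTPpre : ∀ r s, TP r → TP s → r ≤ s → Tg.act o r <+: Tg.act o s := by
    intro r s hr hs hrs
    have hr' : Tg.act o r = tpl x (Tg.act o r).length := hr
    have hs' : Tg.act o s = tpl x (Tg.act o s).length := hs
    rcases le_total (Tg.act o r).length (Tg.act o s).length with h | h
    · rw [hr', hs']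
      exact tpl_mono h
    · have h1 : Tg.act o s <+: Tg.act o r := by
        rw [hr', hs']
        exact tpl_mono h
      have h2 := le_of_pre h1
      have h3 : r = s := by omega
      rw [h3]
  -- the stage of the node of length `n` on the true path
  have hst : ∀ n, ∃ s, TP s ∧ (Tg.act o s).length = n := by
    intro n
    obtain ⟨s, hs⟩ := tp_acts hx1 n
    have h1 : (Tg.act o s).length = n := by rw [hs, tpl_length]
    exact ⟨s, by change Tg.act o s = tpl x (Tg.act o s).length; rw [h1]; exact hs, h1⟩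
  have hS : ∀ j a, (∀ b, ∃ c, ∀ d, T (j, a, b, c, d)) ↔
      ∀ k : ℕ, k.unpair.1 = j → k.unpair.2.unpair.1 = a → x k ≠ 0 := by
    intro j a
    constructor
    · intro h k hk1 hk2 hk3
      obtain ⟨c, hc⟩ := h k.unpair.2.unpair.2
      obtain ⟨d, hd⟩ := (hx3 k).1 hk3 c
      apply hd
      simp only [hk1, hk2]
      exact hc d
    · intro h b
      have h1 := h (Nat.pair j (Nat.pair a b)) (by simp) (by simp)
      rw [ne_eq, hx3] at h1
      push Not at h1
      obtain ⟨c, hc⟩ := h1
      refine ⟨c, fun d => ?_⟩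
      have := hc d
      simpa using this
  -- labels along the true path
  have hlab : ∀ j M, (∀ a < M, ∃ k : ℕ, x k = 0 ∧ k.unpair.1 = j ∧ k.unpair.2.unpair.1 = a) →
      ∃ r, TP r ∧ ∀ s, TP s → r ≤ s → M ≤ l j (Tg.act o s) := by
    intro j M h
    obtain ⟨K, hK⟩ := bdd_choice M h
    obtain ⟨r, hr, hrK⟩ := hst K
    refine ⟨r, hr, fun s hs hrs => ?_⟩
    by_contra hcon
    apply (hls j (Tg.act o s)).1
    have h1 := (hTPpre r s hr hs hrs).length_le
    have hs' : Tg.act o s = tpl x (Tg.act o s).length := hs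
    obtain ⟨k, hk, h2⟩ := hK (l j (Tg.act o s)) (by omega)
    have h3 : Bad j (l j (Tg.act o s)) (tpl x (Tg.act o s).length) :=
      bad_tpl.2 ⟨k, by omega, h2⟩
    rw [← hs'] at h3
    exact h3
  let G : Guide :=
    { le := fun r s => decide (Tg.act o r <+: Tg.act o s)
      io := io
      rqi := fun s => (Tg.act o s).length.unpair.1
      TP := TP
      S := S
      le_refl := fun s => by simp
      le_le := fun r s h => le_of_pre (by simpa using h)
      le_trans := fun r s t h1 h2 => by
        simp only [decide_eq_true_eq] at h1 h2 ⊢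
        exact h1.trans h2
      le_chain := fun r s t h1 h2 h3 => by
        simp only [decide_eq_true_eq] at h1 h2 ⊢
        exact pre_chain h1 h2 h3
      tp_view := by
        intro s hs r hrs
        simp only [decide_eq_true_eq]
        constructor
        · intro hr
          exact hTPpre r s hr hs hrs
        · intro h
          have hs' : Tg.act o s = tpl x (Tg.act o s).length := hs
          change Tg.act o r = tpl x (Tg.act o r).length
          rw [hs'] at h
          exact tpl_prefix h
      tp_inf := by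
        intro k s₀
        have hch : ∀ m, ∃ s, TP s ∧ (Tg.act o s).length = Nat.pair k m := fun m => hst _
        choose f hf1 hf2 using hch
        have hinj : Function.Injective f := by
          intro a b hab
          have h1 := hf2 a
          rw [hab, hf2 b] at h1
          have := Nat.pair_eq_pair.1 h1
          exact this.2.symm
        obtain ⟨s, ⟨m, rfl⟩, hm⟩ := (Set.infinite_range_of_injective hinj).exists_gt s₀
        refine ⟨f m, hm.le, hf1 m, ?_⟩
        rw [hf2]
        simp
      off_fin := by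
        intro r hr
        have h1 : Tg.act o r ≠ tpl x (Tg.act o r).length := hr
        obtain ⟨N, hN⟩ := (Tg.off_fin (o := o) hx2 h1).bddAbove
        refine ⟨N + 1, fun s hs h => ?_⟩
        have := hN (show s ∈ {s | Tg.act o r <+: Tg.act o s} by simpa using h)
        omega
      io_le := fun j s => le_of_pre (hbirth j s).1.1
      io_mono := by
        intro j r s h
        simp only [decide_eq_true_eq] at h
        exact Birth.mono hlm h (hbirth j r) (hbirth j s)
      io_S := by
        intro j hj
        have hj' : ∃ a, ∀ k : ℕ, k.unpair.1 = j → k.unpair.2.unpair.1 = a → x k ≠ 0 := by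
          obtain ⟨a, ha⟩ := hj
          exact ⟨a, (hS j a).1 ha⟩
        have h1 := Nat.find_spec hj'
        have h2 : ∀ a < Nat.find hj', ∃ k : ℕ, x k = 0 ∧ k.unpair.1 = j ∧
            k.unpair.2.unpair.1 = a := by
          intro a ha
          have := Nat.find_min hj' ha
          push Not at this
          obtain ⟨k, hk1, hk2, hk3⟩ := this
          exact ⟨k, hk3, hk1, hk2⟩
        obtain ⟨r, hr, hr2⟩ := hlab j _ h2
        have h3 : ∀ s, TP s → r ≤ s → l j (Tg.act o s) = Nat.find hj' := by
          intro s hs hrs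
          refine le_antisymm ?_ (hr2 s hs hrs)
          by_contra hcon
          have h4 := (hls j (Tg.act o s)).2 (Nat.find hj') (by omega)
          have hs' : Tg.act o s = tpl x (Tg.act o s).length := hs
          rw [hs'] at h4
          obtain ⟨k, _, h5, h6, h7⟩ := bad_tpl.1 h4
          exact h1 k h6 h7 h5
        refine ⟨io j r, r, fun s hrs hs => ?_⟩
        exact (Birth.eq (hTPpre r s hr hs hrs) ((h3 r hr le_rfl).trans (h3 s hs hrs).symm)
          (hbirth j r) (hbirth j s)).symm
      io_nS := by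
        intro j hj i
        have hj' : ∀ a, ∃ k : ℕ, x k = 0 ∧ k.unpair.1 = j ∧ k.unpair.2.unpair.1 = a := by
          intro a
          by_contra hcon
          push Not at hcon
          exact hj ⟨a, (hS j a).2 fun k hk1 hk2 hk3 => hcon k hk3 hk1 hk2⟩
        obtain ⟨M, hM⟩ : ∃ M, ∀ t ≤ i, l j (Tg.act o t) < M := by
          refine ⟨(Finset.range (i + 1)).sup (fun t => l j (Tg.act o t)) + 1, fun t ht => ?_⟩
          have := Finset.le_sup (f := fun t => l j (Tg.act o t))
            (Finset.mem_range.2 (Nat.lt_succ_of_le ht))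
          exact Nat.lt_succ_of_le this
        obtain ⟨r, hr, hr2⟩ := hlab j M fun a _ => hj' a
        refine ⟨r, fun s hrs hs => ?_⟩
        by_contra hcon
        have h1 := hM (io j s) (by omega)
        have h2 := (hbirth j s).1.2
        have h3 := hr2 s hs hrs
        omega }
  refine ⟨G, ?_, ?_, hio, ?_⟩
  · rintro ⟨R, hR, h⟩
    exact hdiag R hR h
  · obtain ⟨hd, hc⟩ := prefix_prim
    have h1 : Computable fun p : ℕ × ℕ => (Tg.act o p.2, Tg.act o p.1) :=
      (hact.comp Computable.snd).pair (hact.comp Computable.fst)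
    have := hc.to_comp.comp h1
    refine this.of_eq fun p => ?_
    have h2 : G.le p.1 p.2 = decide (Tg.act o p.1 <+: Tg.act o p.2) := rfl
    rw [h2]
    exact decide_eq_decide.2 Iff.rfl
  · exact Computable.fst.comp (Computable.unpair.comp (Computable.list_length.comp hact))

end FdZ
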