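import Pool.Agent.Lib.MP_fd2900_lc.Z.Stmt

namespace FdZ

open FirstOrder FirstOrder.Language Pool.Agent.MP_fd2900_lc

variable {ar : ℕ → ℕ} {D : ℕ × List ℕ → Prop}

private theorem SmC_transfer {L : FirstOrder.Language.{0, 0}} {M N : Type} [L.Structure M]
    [L.Structure N] [N ⊨ L.completeTheory M] {β : Type} [Finite β] (ψ : L.Formula β)
    (h : ∃ v : β → N, ψ.Realize v) : ∃ v : β → M, ψ.Realize v := by
  have key := realize_iff_of_model_completeTheory M N
    (φ := ((ψ.relabel (Sum.inr : β → Empty ⊕ β)).iExs β : L.Formula Empty))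
  have e : ∀ (K : Type) [L.Structure K],
      K ⊨ ((ψ.relabel (Sum.inr : β → Empty ⊕ β)).iExs β : L.Formula Empty) ↔
        ∃ v : β → K, ψ.Realize v := by
    intro K _
    rw [Sentence.Realize, Formula.realize_iExs]
    simp only [Formula.realize_relabel]
    rfl
  exact (e M).1 (key.1 ((e N).2 h))

/-- the first coordinate of the variables: parameters, positive and negative witnesses -/
private abbrev SmC_V (n N : ℕ) : Type := Fin n ⊕ (Fin (N + 1) ⊕ Fin (N + 1))

private noncomputable def SmC_f {L : FirstOrder.Language.{0, 0}} {n : ℕ}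
    (φ : L.Formula (Fin n ⊕ Unit)) (N : ℕ) : L.Formula (SmC_V n N) :=
  (Formula.iInf fun i : Fin (N + 1) =>
    φ.relabel (Sum.elim Sum.inl (fun _ => Sum.inr (Sum.inl i)) : Fin n ⊕ Unit → SmC_V n N)) ⊓
  ((Formula.iInf fun i : Fin (N + 1) =>
    ∼(φ.relabel (Sum.elim Sum.inl (fun _ => Sum.inr (Sum.inr i)) : Fin n ⊕ Unit → SmC_V n N))) ⊓
  ((Formula.iInf fun q : {q : Fin (N + 1) × Fin (N + 1) // q.1 ≠ q.2} =>
    ∼(Term.equal (Term.var (Sum.inr (Sum.inl q.1.1) : SmC_V n N))
      (Term.var (Sum.inr (Sum.inl q.1.2))))) ⊓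
  (Formula.iInf fun q : {q : Fin (N + 1) × Fin (N + 1) // q.1 ≠ q.2} =>
    ∼(Term.equal (Term.var (Sum.inr (Sum.inr q.1.1) : SmC_V n N))
      (Term.var (Sum.inr (Sum.inr q.1.2)))))))

private theorem SmC_realize {L : FirstOrder.Language.{0, 0}} {K : Type} [L.Structure K] {n : ℕ}
    (φ : L.Formula (Fin n ⊕ Unit)) (N : ℕ) (v : SmC_V n N → K) :
    (SmC_f φ N).Realize v ↔
      (∀ i, φ.Realize (Sum.elim (fun k => v (Sum.inl k)) fun _ => v (Sum.inr (Sum.inl i)))) ∧
      (∀ i, ¬ φ.Realize (Sum.elim (fun k => v (Sum.inl k)) fun _ => v (Sum.inr (Sum.inr i)))) ∧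
      (Function.Injective fun i => v (Sum.inr (Sum.inl i))) ∧
      Function.Injective fun i => v (Sum.inr (Sum.inr i)) := by
  have e : ∀ g : Fin (N + 1) → SmC_V n N,
      (∀ q : {q : Fin (N + 1) × Fin (N + 1) // q.1 ≠ q.2}, ¬ v (g q.1.1) = v (g q.1.2)) ↔
        Function.Injective fun i => v (g i) := by
    intro g
    constructor
    · intro h i j hij
      by_contra hne
      exact h ⟨(i, j), hne⟩ hij
    · rintro h ⟨⟨i, j⟩, hne⟩ hij
      exact hne (h hij)
  have e2 : ∀ w : SmC_V n N, v ∘ (Sum.elim Sum.inl (fun _ => w) : Fin n ⊕ Unit → SmC_V n N) =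
      Sum.elim (fun k => v (Sum.inl k)) fun _ => v w := by
    intro w
    funext x
    rcases x with x | x <;> rfl
  unfold SmC_f
  rw [Formula.realize_inf, Formula.realize_inf, Formula.realize_inf, Formula.realize_iInf,
    Formula.realize_iInf, Formula.realize_iInf, Formula.realize_iInf, ← e, ← e]
  simp only [Formula.realize_not, Formula.realize_relabel, e2, Formula.realize_equal,
    Term.realize_var]

private theorem SmC_inf {K : Type} {S : Set K} (hS : S.Infinite) (N : ℕ) :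
    ∃ x : Fin (N + 1) → K, Function.Injective x ∧ ∀ i, x i ∈ S := by
  have := hS.to_subtype
  let f := Infinite.natEmbedding S
  exact ⟨fun i => (f i : K), fun i j h => Fin.ext (f.injective (Subtype.ext h)), fun i => (f i).2⟩

/-- strong minimality from uniform finiteness -/
theorem sm_of_unif (hu : ∀ {n : ℕ} (φ : (Lg ar).Formula (Fin n ⊕ Unit)),
    ∃ N : ℕ, ∀ c : Fin n → ℕ, ∃ F : Finset ℕ, F.card ≤ N ∧
      ((∀ z, z ∉ F → φ.Realize (M := Univ D) (Sum.elim c fun _ => z)) ∨
        ∀ z, z ∉ F → ¬ φ.Realize (M := Univ D) (Sum.elim c fun _ => z))) :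
    StronglyMinimal ((Lg ar).completeTheory (Univ D)) := by
  intro K _ _ _ n φ c
  obtain ⟨N, hN⟩ := hu φ
  by_contra hcon
  rw [not_or] at hcon
  obtain ⟨x, hx, hx'⟩ := SmC_inf hcon.1 N
  obtain ⟨z, hz, hz'⟩ := SmC_inf hcon.2 N
  obtain ⟨v, hv⟩ := SmC_transfer (M := Univ D) (N := K) (SmC_f φ N)
    ⟨Sum.elim c (Sum.elim x z), (SmC_realize φ N _).2 ⟨hx', hz', hx, hz⟩⟩
  obtain ⟨h1, h2, h3, h4⟩ := (SmC_realize φ N v).1 hv
  obtain ⟨F, hF, h⟩ := hN fun k => v (Sum.inl k)
  have big : ∀ w : Fin (N + 1) → ℕ, Function.Injective w → (∀ i, w i ∈ F) → False := by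
    intro w hw hwF
    have := Finset.card_le_card_of_injOn w (s := Finset.univ) (t := F)
      (fun i _ => hwF i) hw.injOn
    rw [Finset.card_univ, Fintype.card_fin] at this
    omega
  rcases h with h | h
  · refine big (fun i => v (Sum.inr (Sum.inr i))) h4 fun i => ?_
    by_contra hi
    exact h2 i (h _ hi)
  · refine big (fun i => v (Sum.inr (Sum.inl i))) h3 fun i => ?_
    by_contra hi
    exact h _ hi (h1 i)

end FdZ
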