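import Pool.Agent.Lib.MP_fd2900_lc.Z.SmB
import Pool.Agent.Lib.MP_fd2900_lc.Z.SmC

namespace FdZ

open FirstOrder FirstOrder.Language Pool.Agent.MP_fd2900_lc

variable {ar : ℕ → ℕ} {D : ℕ × List ℕ → Prop}

theorem sm (hVS : ∀ Rs : Finset ℕ, ∃ vs : VS, ∀ r ∈ Rs, Pres vs D r) :
    StronglyMinimal ((Lg ar).completeTheory (Univ D)) :=
  sm_of_unif (ar := ar) fun φ => unif hVS φ

end FdZ
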