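import Pool.Agent.Lib.MP_fd2900_lc.Z.FinB
import Pool.Agent.Lib.MP_fd2900_lc.Z.FinC
import Pool.Agent.Lib.MP_fd2900_lc.Z.SM
import Pool.Agent.Lib.MP_fd2900_lc.Z.Fin2
import Pool.Agent.Lib.MP_fd2900_lc.Z.GuideEx
import Pool.Agent.Lib.MP_fd2900_lc.Z.Comp

/-! the disproof of Q1 -/

namespace FdZ

open FirstOrder FirstOrder.Language Pool.Agent.MP_fd2900_lc

theorem disproof :
    ∃ (ar : ℕ → ℕ) (D : ℕ × List ℕ → Prop), Computable ar ∧ ComputablePred D ∧
      StronglyMinimal ((Lg ar).completeTheory (Univ D)) ∧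
      (∀ (M : Type) [(Lg ar).Structure M] [Nonempty M] [M ⊨ (Lg ar).completeTheory (Univ D)],
        Nonempty (Univ D ↪ₑ[Lg ar] M)) ∧
      (∃ (N : Type) (_ : (Lg ar).Structure N) (_ : Nonempty N), Countable N ∧
        N ⊨ (Lg ar).completeTheory (Univ D) ∧ IsEmpty (Univ D ≃[Lg ar] N)) ∧
      ∀ (N : Type) [(Lg ar).Structure N] [Nonempty N] [N ⊨ (Lg ar).completeTheory (Univ D)],
        IsEmpty (Univ D ≃[Lg ar] N) → ∀ A B : ℕ → Prop, CeIn (fun _ => False) A → CeIn A B →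
          ∀ (U : ℕ → Prop) (D' : ℕ × List ℕ → Prop), CompIn B U → CompIn B D' →
            IsEmpty (UnivS U D' ≃[Lg ar] N) := by
  obtain ⟨G, hS, h1, h2, h3⟩ := exists_guide
  exact ⟨arA, DA G, arA_comp, DA_comp G (run_comp G h1 h2 h3), sm (exists_vs G),
    fun M _ _ _ => prime (obsData G).hP M, exists_nonprime (obsData G).hP,
    fun N _ _ _ hN A B hA hB U D' hU hD' => obs_all (obsData G) hS N hN A B hA hB U D' hU hD'⟩

end FdZ
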