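import Pool.Agent.Lib.MP_fd2900_lc.Z.FinA

namespace FdZ

variable {G : Guide}

/-- the node of a pair with a large first entry is late -/
theorem node_ge {n x y s₀ : ℕ} (hF : ((3, [n]), [x, y]) ∈ FE G) (hx : nn G s₀ ≤ x) : s₀ ≤ n := by
  obtain ⟨s₁, hs₁⟩ := hF
  obtain ⟨_, _, h⟩ := shape s₁ _ (hs₁ s₁ le_rfl)
  rcases h with ⟨j, h, _⟩ | ⟨j, i, h, _⟩ | ⟨j, h, _⟩ | ⟨t, _, h, _, _, h2⟩
  · simp at h
  · simp at h
  · simp at h
  · simp only [Prod.mk.injEq, List.cons.injEq, and_true, true_and] at h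
    subst h
    have h3 : x < nn G (n + 1) := h2 x (by simp)
    by_contra hlt
    have h4 : nn G (n + 1) ≤ nn G s₀ := nn_mono (by omega)
    omega

theorem obsData (G : Guide) : ObsData (DA G) G.S := by
  refine ⟨fun k t => da_P, ?_, ?_, ?_, ?_⟩
  · intro x
    obtain ⟨y, n, hn, hF⟩ := tot_F (G := G) x
    exact ⟨y, fd_iff.2 ⟨n, hn, hF⟩⟩
  · intro x y h j
    obtain ⟨n, hn, hF⟩ := fd_iff.1 h
    exact uniq_p hn hF j
  · intro j hj
    obtain ⟨i, s₀, hi⟩ := G.io_S j hj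
    refine ⟨i, Finset.range (nn G s₀), ?_⟩
    intro x hx y c u hFd hgood
    obtain ⟨n, hn, hF⟩ := fd_iff.1 hFd
    have hxs : nn G s₀ ≤ x := by
      simpa using hx
    have h1 := presc_lim hn hF (good_iff.1 hgood)
    rw [hi n (node_ge hF hxs) hn] at h1
    exact da_G.2 h1
  · intro j hj i
    obtain ⟨s₀, hi⟩ := G.io_nS j hj i
    refine ⟨Finset.range (nn G s₀), ?_⟩
    intro x hx y c u hFd hgood hD
    obtain ⟨n, hn, hF⟩ := fd_iff.1 hFd
    have hxs : nn G s₀ ≤ x := by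
      simpa using hx
    have h1 := presc_lim hn hF (good_iff.1 hgood)
    have h2 := da_G.1 hD
    have hlt := hi n (node_ge hF hxs) hn
    have h3 : (((1, [j, i]), [x, y, c]) : Edge) = ((1, [j, G.io j n]), [x, y, c]) := by
      refine three_pts (lab := flab G) (ℓ₁ := (3, [])) (ℓ₂ := (1, [j, i])) (ℓ₃ := (1, [j, G.io j n]))
        (e₁ := ((3, [n]), [x, y])) nviol_lim (fe_shape h1).1 ?_ ?_ ?_ rfl rfl rfl
      · exact ⟨hF, Or.inr (Or.inl ⟨rfl, n, rfl, hn⟩)⟩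
      · exact ⟨h2, Or.inl ⟨by simp, rfl⟩⟩
      · exact ⟨h1, Or.inl ⟨by simp, rfl⟩⟩
    simp only [Prod.mk.injEq, List.cons.injEq, and_true, true_and] at h3
    omega

end FdZ
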