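import Pool.Agent.Lib.MP_fd2900_lc.Z.Run

namespace FdZ

variable {G : Guide}

/-- the final edges -/
def FE (G : Guide) : Set Edge := {e | ∃ s₀, ∀ s, s₀ ≤ s → e ∈ EE G s}

/-- the labels in the limit (view = the true path) -/
def flab (G : Guide) : Lb → Edge → Prop := lab G.io (FE G) G.TP

/-- from stage `s₁` on everything inside `V_r` is settled -/
def Late (G : Guide) (r s₁ : ℕ) : Prop :=
  r ≤ s₁ ∧ ∀ s, s₁ ≤ s → (∀ t x y, ((3, [t]), [x, y]) ∈ EE G r → ¬ G.TP t → G.le t s = false) ∧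
    ∀ e ∈ EE G s, (∀ v ∈ e.2, v < nn G r) → e ∈ FE G

theorem fe_of_ne {s : ℕ} {e : Edge} (h : e ∈ EE G s) (h2 : e.1.1 ≠ 2) : e ∈ FE G :=
  ⟨s, fun _ hs => perm h h2 hs⟩

theorem fe_shape {e : Edge} (h : e ∈ FE G) : e.2.Nodup ∧
    ((∃ j, e.1 = (0, [j]) ∧ e.2.length = 5) ∨ (∃ j i, e.1 = (1, [j, i]) ∧ e.2.length = 3) ∨
    (∃ j, e.1 = (2, [j]) ∧ e.2.length = 4) ∨ ∃ t, e.1 = (3, [t]) ∧ e.2.length = 2) := by
  obtain ⟨s₀, h0⟩ := h
  obtain ⟨-, h1, h2⟩ := shape s₀ e (h0 s₀ le_rfl)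
  refine ⟨h1, ?_⟩
  rcases h2 with h2 | ⟨j, i, h2, -, h3⟩ | h2 | ⟨t, -, h2, h3, -⟩
  · exact Or.inl h2
  · exact Or.inr (Or.inl ⟨j, i, h2, h3⟩)
  · exact Or.inr (Or.inr (Or.inl h2))
  · exact Or.inr (Or.inr (Or.inr ⟨t, h2, h3⟩))

/-- a final edge with all vertices below `nn r` is there at all stages from `r` on -/
theorem fe_at {e : Edge} (h : e ∈ FE G) {r s : ℕ} (hv : ∀ v ∈ e.2, v < nn G r) (hs : r ≤ s) :
    e ∈ EE G s ∧ e ∈ DD G s := by
  obtain ⟨s₀, h0⟩ := h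
  have key : ∀ t, r ≤ t → e ∈ EE G t := by
    intro t ht
    exact appear (le_max_left t s₀) (h0 (max t s₀) (le_max_right t s₀))
      fun v hv' => lt_of_lt_of_le (hv v hv') (nn_mono ht)
  refine ⟨key s hs, ?_⟩
  have h1 := key (s + 1) (by omega)
  by_cases hok : OkS G s
  · rw [(step_ok hok).2, List.mem_append] at h1
    rcases h1 with h1 | h1
    · exact h1
    · exfalso
      obtain ⟨-, ⟨v, hv1, hv2⟩, -⟩ := new_sub hok h1
      have h3 := hv v hv1
      have h4 : nn G r ≤ nn G s := nn_mono hs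
      omega
  · rw [(step_not hok).2] at h1
    exact h1

/-- the node of a final `F` edge inside `V_r` acted before `r` -/
theorem fnode_lt {t x y r : ℕ} (h : ((3, [t]), [x, y]) ∈ FE G) (hx : x < nn G r) (hy : y < nn G r) : t < r := by
  have h1 := (fe_at h (r := r) (s := r) (fun v hv => by
    simp only [List.mem_cons, List.not_mem_nil, or_false] at hv
    rcases hv with rfl | rfl
    · exact hx
    · exact hy) le_rfl).1
  obtain ⟨-, -, h2⟩ := shape r _ h1
  rcases h2 with ⟨j, h2, -⟩ | ⟨j, i, h2, -⟩ | ⟨j, h2, -⟩ | ⟨t', ht', h2, -⟩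
  · simp at h2
  · simp at h2
  · simp at h2
  · simp only [Prod.mk.injEq, List.cons.injEq, and_true, true_and] at h2
    omega

/-- a true pair has one node -/
theorem tp_uniq {n n' x y : ℕ} (h : ((3, [n]), [x, y]) ∈ FE G) (h' : ((3, [n']), [x, y]) ∈ FE G) : n = n' := by
  obtain ⟨s, hs⟩ := h
  obtain ⟨s', hs'⟩ := h'
  exact funiq' (hs s le_rfl) (hs' s' le_rfl)

/-- finitely many final edges are there together from some stage on -/
theorem fe_stage (L : Finset Edge) (hL : ∀ e ∈ L, e ∈ FE G) : ∃ s₀, ∀ s, s₀ ≤ s → ∀ e ∈ L, e ∈ EE G s := by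
  classical
  induction L using Finset.induction_on with
  | empty => exact ⟨0, fun s _ e he => absurd he (Finset.notMem_empty e)⟩
  | insert a L _ ih =>
    obtain ⟨s₀, h0⟩ := ih fun e he => hL e (Finset.mem_insert_of_mem he)
    obtain ⟨s₁, h1⟩ := hL a (Finset.mem_insert_self a L)
    refine ⟨max s₀ s₁, fun s hs e he => ?_⟩
    rcases Finset.mem_insert.1 he with rfl | he
    · exact h1 s ((le_max_right _ _).trans hs)
    · exact h0 s ((le_max_left _ _).trans hs) e he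

end FdZ
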