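import Pool.Agent.Lib.MP_fd2900_lc.Z.LimA

namespace FdZ

variable {G : Guide}

private theorem LimB_list {α : Type} (Q : α → ℕ → Prop) (L : List α)
    (h : ∀ e ∈ L, ∃ b, ∀ s, b ≤ s → Q e s) : ∃ b, ∀ s, b ≤ s → ∀ e ∈ L, Q e s := by
  induction L with
  | nil => exact ⟨0, fun s _ e he => by simp at he⟩
  | cons a L ih =>
    obtain ⟨b, hb⟩ := ih (fun e he => h e (List.mem_cons_of_mem _ he))
    obtain ⟨b', hb'⟩ := h a List.mem_cons_self
    refine ⟨max b b', fun s hs e he => ?_⟩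
    rcases List.mem_cons.1 he with rfl | he
    · exact hb' s (le_trans (le_max_right _ _) hs)
    · exact hb s (le_trans (le_max_left _ _) hs) e he

theorem exists_late (r : ℕ) : ∃ s₁, Late G r s₁ := by
  have h1 : ∀ e ∈ EE G r, ∃ b, ∀ s, b ≤ s →
      (∀ t x y, e = ((3, [t]), [x, y]) → ¬ G.TP t → G.le t s = false) := by
    intro e _
    by_cases hex : ∃ t x y, e = ((3, [t]), [x, y]) ∧ ¬ G.TP t
    · obtain ⟨t, x, y, rfl, ht⟩ := hex
      obtain ⟨b, hb⟩ := G.off_fin t ht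
      refine ⟨b, fun s hs t' x' y' he _ => ?_⟩
      have : t = t' := by
        have h2 := congrArg (fun e : Edge => e.1.2) he
        simpa using h2
      subst this
      exact Bool.eq_false_iff.2 (hb s hs)
    · refine ⟨0, fun s _ t x y he ht => ?_⟩
      exact absurd ⟨t, x, y, he, ht⟩ hex
  have h2 : ∀ e ∈ EE G r, ∃ b, ∀ s, b ≤ s →
      (e ∈ EE G s → (∀ v ∈ e.2, v < nn G r) → e ∈ FE G) := by
    intro e _
    by_cases hf : e ∈ FE G
    · exact ⟨0, fun _ _ _ _ => hf⟩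
    · have hf' : ¬ ∃ s₀, ∀ s, s₀ ≤ s → e ∈ EE G s := hf
      push Not at hf'
      obtain ⟨b, hb1, hb2⟩ := hf' r
      refine ⟨b, fun s hs he hv => ?_⟩
      exact absurd (appear hs he (fun v hv' => lt_of_lt_of_le (hv v hv') (nn_mono hb1))) hb2
  obtain ⟨b1, hb1⟩ := LimB_list _ _ h1
  obtain ⟨b2, hb2⟩ := LimB_list _ _ h2
  refine ⟨max r (max b1 b2), le_max_left _ _, fun s hs => ⟨fun t x y he ht => ?_, fun e he hv => ?_⟩⟩
  · exact hb1 s (le_trans (le_trans (le_max_left _ _) (le_max_right _ _)) hs) _ he t x y rfl ht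
  · have hrs : r ≤ s := le_trans (le_max_left _ _) hs
    exact hb2 s (le_trans (le_trans (le_max_right _ _) (le_max_right _ _)) hs) e
      (appear hrs he hv) he hv

end FdZ
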