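import Pool.Agent.Lib.MP_fd2900_lc.Z.LimA

namespace FdZ

variable {G : Guide}

/-- labels at a stage of the true path are the final labels -/
theorem lab_iff {s : ℕ} (hs : G.TP s) {e : Edge} (he : e ∈ EE G s) (hf : e ∈ FE G) (ℓ : Lb) :
    lab G.io (es (DD G s)) (vw G.le s) ℓ e ↔ flab G ℓ e := by
  have hsh := shape s e he
  have hDD : e ∈ DD G s := (fe_at hf hsh.1 le_rfl).2
  have hvw : ∀ r, G.le r s = true → G.TP r := fun r hr =>
    (G.tp_view s hs r (G.le_le r s hr)).2 hr
  constructor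
  · rintro ⟨-, h1 | ⟨h1, r, h2, h3⟩ | ⟨j, r, x, y, c, h1, h2, h3, h4⟩⟩
    · exact ⟨hf, Or.inl h1⟩
    · exact ⟨hf, Or.inr (Or.inl ⟨h1, r, h2, hvw r h3⟩)⟩
    · refine ⟨hf, Or.inr (Or.inr ⟨j, r, x, y, c, h1, h2, ?_, hvw r h4⟩)⟩
      have h5 : ((3, [r]), [x, y]) ∈ EE G s := (mem_DD.1 h3).1
      exact fe_of_ne h5 (by norm_num)
  · rintro ⟨-, h1 | ⟨h1, r, h2, h3⟩ | ⟨j, r, x, y, c, h1, h2, h3, h4⟩⟩
    · exact ⟨hDD, Or.inl h1⟩
    · refine ⟨hDD, Or.inr (Or.inl ⟨h1, r, h2, ?_⟩)⟩
      have hrs : r < s := by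
        rcases hsh.2.2 with ⟨j, h, -⟩ | ⟨j, i, h, -⟩ | ⟨j, h, -⟩ | ⟨t, ht, h, -⟩
        · rw [h2] at h
          exact absurd (congrArg Prod.fst h) (by norm_num)
        · rw [h2] at h
          exact absurd (congrArg Prod.fst h) (by norm_num)
        · rw [h2] at h
          exact absurd (congrArg Prod.fst h) (by norm_num)
        · rw [h2] at h
          have h5 := congrArg Prod.snd h
          simp only [List.cons.injEq, and_true] at h5
          omega
      exact (G.tp_view s hs r hrs.le).1 h3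
    · have hv : ∀ v ∈ [x, y, c], v < nn G s := by
        intro v hv
        apply hsh.1
        rw [h2]
        exact hv
      have hx : x < nn G s := hv x (by simp)
      have hy : y < nn G s := hv y (by simp)
      have hrs : r < s := fnode_lt h3 hx hy
      refine ⟨hDD, Or.inr (Or.inr ⟨j, r, x, y, c, h1, h2, ?_, ?_⟩)⟩
      · exact (fe_at h3 (r := s) (by
          intro v hv'
          simp only [List.mem_cons, List.not_mem_nil, or_false] at hv'
          rcases hv' with rfl | rfl
          · exact hx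
          · exact hy) le_rfl).2
      · exact (G.tp_view s hs r hrs.le).1 h4

end FdZ
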