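import Pool.Agent.Lib.MP_fd2900_lc.Z.LimA

namespace FdZ

variable {G : Guide}

/-- never `Gam` and `D` together -/
theorem legalD (s : ℕ) : ∀ j t w, ((2, [j]), t) ∈ EE G s → ((0, [j]), t ++ [w]) ∉ EE G s := by
  induction s with
  | zero =>
    intro j t w h
    rw [EE_zero] at h
    exact absurd h (List.not_mem_nil)
  | succ s ih =>
    intro j t w h h'
    by_cases ho : OkS G s
    · have h1 := (step_ok ho).2
      rw [h1] at h h'
      exact ho.legal.1 j t w h h'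
    · have h1 := (step_not ho).2
      rw [h1] at h h'
      exact ih j t w (mem_DD.1 h).1 (mem_DD.1 h').1

theorem legalD_lim {j : ℕ} {t : List ℕ} {w : ℕ} (h : ((2, [j]), t) ∈ FE G) : ((0, [j]), t ++ [w]) ∉ FE G := by
  rintro ⟨s₁, h₁⟩
  obtain ⟨s₀, h₀⟩ := h
  exact legalD (max s₀ s₁) j t w (h₀ _ (le_max_left _ _)) (h₁ _ (le_max_right _ _))

/-- final `Gam` edges over a true pair are prescribed -/
theorem presc_lim {j n x y c u : ℕ} (hn : G.TP n) (hF : ((3, [n]), [x, y]) ∈ FE G)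
    (h : ((2, [j]), [x, y, c, u]) ∈ FE G) : ((1, [j, G.io j n]), [x, y, c]) ∈ FE G := by
  obtain ⟨s₀, h₀⟩ := id h
  obtain ⟨s₁, h₁⟩ := hF
  obtain ⟨s, hs, hTP, -⟩ := G.tp_inf 0 (max (max s₀ s₁) (n + 1))
  have hs₀ : s₀ ≤ s := le_trans (le_trans (le_max_left _ _) (le_max_left _ _)) hs
  have hs₁ : s₁ ≤ s := le_trans (le_trans (le_max_right _ _) (le_max_left _ _)) hs
  have hn1 : n < s := lt_of_lt_of_le (Nat.lt_succ_self n) (le_trans (le_max_right _ _) hs)
  have hle : G.le n s = true := (G.tp_view s hTP n hn1.le).1 hn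
  have hv := (shape s₀ _ (h₀ s₀ le_rfl)).1
  have hD := (mem_DD.1 (fe_at h hv hs₀).2).2
  by_contra hne
  apply hD
  refine ⟨j, x, y, c, u, n, rfl, hle, hn1, h₁ s hs₁, ?_⟩
  intro hmem
  exact hne (fe_of_ne (s := s) hmem (by simp))

end FdZ
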