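import Pool.Agent.Lib.MP_fd2900_lc.Z.LimD

namespace FdZ

variable {G : Guide}

/-- new edges of a late stage of the true path, over settled vertices, are final -/
theorem kept {r s₁ s : ℕ} (hl : Late G r s₁) (hs : s₁ ≤ s) (ha : G.TP s) (ho : OkS G s)
    (hb : ∀ v ∈ (rq G s).2.2, v < nn G r) : ∀ e ∈ NE G s, e ∈ FE G := by
  intro e he
  obtain ⟨hn1, hE1⟩ := step_ok ho
  have heE : e ∈ EE G (s + 1) := by
    rw [hE1]
    exact List.mem_append_right _ he
  by_cases h2 : e.1.1 ≠ 2
  · exact fe_of_ne heE h2
  have h2' : e.1.1 = 2 := not_not.1 h2
  -- the shape of `e`
  obtain ⟨j, hj, hlen⟩ : ∃ j, e.1 = (2, [j]) ∧ e.2.length = 4 := by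
    rcases new_kind G.io_le G.le_le ho he with ⟨j, h, -⟩ | ⟨j, i, h, -⟩ | h | ⟨h, -⟩
    · rw [h] at h2'; simp at h2'
    · rw [h] at h2'; simp at h2'
    · exact h
    · rw [h] at h2'; simp at h2'
  obtain ⟨hsub, -, -⟩ := new_sub ho he
  have hr : r ≤ s₁ := hl.1
  -- legality at stage `s`
  have hleg : Legal G.io (es (EE G (s + 1))) (vw G.le s) := by
    have := ho.legal
    rw [hE1]
    exact this
  have main : ∀ s', s + 1 ≤ s' → e ∈ EE G s' := by
    intro s' hs'
    induction s', hs' using Nat.le_induction with
    | base => exact heE
    | succ s' hs' ih =>
      have hD : e ∈ DD G s' := by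
        rw [mem_DD]
        refine ⟨ih, ?_⟩
        rintro ⟨j', x, y, c, u, t, he', hle, -, hF, hG⟩
        have hF' : ((3, [t]), [x, y]) ∈ EE G s' := hF
        have hG' : ((1, [j', G.io j' t]), [x, y, c]) ∉ EE G s' := hG
        have hxe : x ∈ e.2 := by rw [he']; simp
        have hye : y ∈ e.2 := by rw [he']; simp
        -- bounds
        have hbd : ∀ v ∈ e.2, v < nn G (s + 1) := (shape (s + 1) e heE).1
        have hx1 := hbd x hxe
        have hy1 := hbd y hye
        have hFs : ((3, [t]), [x, y]) ∈ EE G (s + 1) := by
          refine appear hs' hF' ?_
          intro v hv
          simp only [List.mem_cons, List.not_mem_nil, or_false] at hv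
          rcases hv with rfl | rfl
          · exact hx1
          · exact hy1
        have hVt : G.le t s = true := by
          by_cases hold : x < nn G s ∧ y < nn G s
          · -- both old: in `β`, so below `nn r`
            have inb : ∀ v ∈ e.2, v < nn G s → v < nn G r := by
              intro v hv hv2
              rcases hsub v hv with h | ⟨h, -⟩
              · exact hb v h
              · omega
            have hxr := inb x hxe hold.1
            have hyr := inb y hye hold.2
            have hFr : ((3, [t]), [x, y]) ∈ EE G r := by
              refine appear (show r ≤ s + 1 by omega) hFs ?_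
              intro v hv
              simp only [List.mem_cons, List.not_mem_nil, or_false] at hv
              rcases hv with rfl | rfl
              · exact hxr
              · exact hyr
            have htp : G.TP t := by
              by_contra hnt
              have := (hl.2 s' (by omega)).1 t x y hFr hnt
              rw [this] at hle
              exact absurd hle (by simp)
            have htr : t < r := by
              rcases (shape r _ hFr).2.2 with ⟨_, h, -⟩ | ⟨_, _, h, -⟩ | ⟨_, h, -⟩ | ⟨t', ht', h, -⟩
              · simp at h
              · simp at h
              · simp at h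
              · simp only [Prod.mk.injEq, List.cons.injEq, and_true, true_and] at h
                rw [h]; exact ht'
            exact (G.tp_view s ha t (by omega)).1 htp
          · -- a new vertex: `t = s`
            have hts : t = s := by
              rcases (shape (s + 1) _ hFs).2.2 with ⟨_, h, -⟩ | ⟨_, _, h, -⟩ | ⟨_, h, -⟩ |
                ⟨t', ht', h, -, ⟨v, hv, hv2⟩, hv3⟩
              · simp at h
              · simp at h
              · simp at h
              · simp only [Prod.mk.injEq, List.cons.injEq, and_true, true_and] at h
                subst h
                have h3 : s ≤ t := by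
                  by_contra hlt
                  have h4 : nn G (t + 1) ≤ nn G s := nn_mono (by omega)
                  apply hold
                  constructor
                  · exact lt_of_lt_of_le (hv3 x (by simp)) h4
                  · exact lt_of_lt_of_le (hv3 y (by simp)) h4
                omega
            rw [hts]
            exact G.le_refl s
        have heE' : ((2, [j']), [x, y, c, u]) ∈ EE G (s + 1) := by
          rw [← he']
          exact heE
        have hfin := hleg.2 j' t x y c u hFs hVt heE'
        exact hG' (perm (show ((1, [j', G.io j' t]), [x, y, c]) ∈ EE G (s + 1) from hfin) (by simp) hs')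
      by_cases ho' : OkS G s'
      · rw [(step_ok ho').2]
        exact List.mem_append_left _ hD
      · rw [(step_not ho').2]
        exact hD
  exact ⟨s + 1, main⟩

end FdZ
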