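import Pool.Agent.Lib.MP_fd2900_lc.Z.LimD

namespace FdZ

variable {G : Guide}

private theorem LimF_DD_sub {s : ℕ} {e : Edge} (h : e ∈ DD G s) : e ∈ EE G (s + 1) := by
  by_cases hk : OkS G s
  · rw [(step_ok hk).2]
    exact List.mem_append_left _ h
  · rw [(step_not hk).2]
    exact h

private theorem LimF_lab {s : ℕ} {V : ℕ → Prop} {ℓ : Lb} {e : Edge}
    (h : lab G.io (es (DD G s)) V ℓ e) : lab G.io (es (EE G s)) V ℓ e := by
  obtain ⟨h1, h2⟩ := h
  refine ⟨(mem_DD.1 h1).1, ?_⟩
  rcases h2 with h2 | h2 | ⟨j, r, x, y, c, e1, e2, e3, e4⟩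
  · exact Or.inl h2
  · exact Or.inr (Or.inl h2)
  · exact Or.inr (Or.inr ⟨j, r, x, y, c, e1, e2, (mem_DD.1 e3).1, e4⟩)

private theorem LimF_real {s : ℕ} {V : ℕ → Prop} {pat : List Edge} {β ν : List ℕ}
    (h : Real (lab G.io (es (DD G s)) V) pat β ν) : Real (lab G.io (es (EE G s)) V) pat β ν := by
  obtain ⟨h1, L, h2, h3⟩ := h
  exact ⟨h1, L, h2, List.Forall₂.imp (fun pe e he => ⟨LimF_lab he.1, he.2⟩) h3⟩

private theorem LimF_stay {s : ℕ} {e : Edge} (h : e ∈ EE G s)
    (hd : ∀ s', s ≤ s' → e ∈ EE G s' → ¬ Deld G.le G.io (es (EE G s')) s' e) : e ∈ FE G := by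
  refine ⟨s, fun s' hs' => ?_⟩
  induction s', hs' using Nat.le_induction with
  | base => exact h
  | succ n hn ih => exact LimF_DD_sub (mem_DD.2 ⟨ih, hd n hn ih⟩)

/-- a realization at a late stage of the true path over settled vertices uses only final edges -/
theorem real_final {r s₁ s : ℕ} (hl : Late G r s₁) (hs : s₁ ≤ s) (ha : G.TP s) {p q : ℕ}
    {pat : List Edge} {β ν : List ℕ} (hc : Code p q pat) (hβ : β.length = p) (hν : ν.length = q)
    (h : Real (lab G.io (es (DD G s)) (vw G.le s)) pat β ν) (hb : ∀ v ∈ β, v < nn G r) :
    ∀ e, ImgE (lab G.io (es (DD G s)) (vw G.le s)) pat β ν e → e ∈ FE G := by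
  intro e he
  have himg := img_sub hc hβ hν he
  obtain ⟨pe, hpe, hlab, hinst⟩ := he
  have heD : e ∈ DD G s := hlab.1
  have heE : e ∈ EE G s := (mem_DD.1 heD).1
  have hnd := (mem_DD.1 heD).2
  have heI : ImgE (lab G.io (es (EE G s)) (vw G.le s)) pat β ν e :=
    ⟨pe, hpe, LimF_lab hlab, hinst⟩
  by_cases hall : ∀ v ∈ ν, v < nn G r
  · apply (hl.2 s hs).2 e heE
    intro v hv
    rcases himg.1 v hv with h1 | h1
    · exact hb v h1
    · exact hall v h1
  · push Not at hall
    have hrs : r ≤ s := hl.1.trans hs
    obtain ⟨t, hrt, hts, hok, hvt, het⟩ := whole hrs hc hβ hν (LimF_real h) hb hall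
    have heN : e ∈ NE G t := (het e).1 heI
    have hE1 : EE G (t + 1) = DD G t ++ NE G t := (step_ok hok).2
    have heT : e ∈ EE G (t + 1) := by
      rw [hE1]
      exact List.mem_append_right _ heN
    have hsmall : ∀ v ∈ e.2, v < nn G (t + 1) := (shape (t + 1) e heT).1
    by_cases hk : e.1.1 = 2
    · apply LimF_stay heE
      intro s' hs' he' hdel
      obtain ⟨j, x, y, c, u, r', rfl, hle, hlt, hF, hG⟩ := hdel
      have hF' : ((3, [r']), [x, y]) ∈ EE G s' := hF
      have hG' : ((1, [j, G.io j r']), [x, y, c]) ∉ EE G s' := hG
      have hFs : (∃ v ∈ [x, y], nn G r' ≤ v) ∧ ∀ v ∈ [x, y], v < nn G (r' + 1) := by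
        rcases (shape s' _ hF').2.2 with ⟨i, e1, _⟩ | ⟨i, i', e1, _⟩ | ⟨i, e1, _⟩ | ⟨t', _, e1, _, e2, e3⟩
        · simp at e1
        · simp at e1
        · simp at e1
        · have e4 : r' = t' := by simpa using e1
          rw [e4]
          exact ⟨e2, e3⟩
      have hx : x < nn G (t + 1) := hsmall x (by simp)
      have hy : y < nn G (t + 1) := hsmall y (by simp)
      by_cases hnew : nn G t ≤ x ∨ nn G t ≤ y
      · have hrt' : r' = t := by
          obtain ⟨⟨v', hv', hv'1⟩, hv2⟩ := hFs
          have hvs : v' < nn G (t + 1) := by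
            simp only [List.mem_cons, List.not_mem_nil, or_false] at hv'
            rcases hv' with rfl | rfl
            · exact hx
            · exact hy
          have h1 : ¬ t < r' := by
            intro hlt'
            have := nn_mono (G := G) (show t + 1 ≤ r' from hlt')
            omega
          have h2 : ¬ r' < t := by
            intro hlt'
            have h3 := nn_mono (G := G) (show r' + 1 ≤ t from hlt')
            have h4 := hv2 x (by simp)
            have h5 := hv2 y (by simp)
            omega
          omega
        subst hrt'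
        have hF1 : ((3, [r']), [x, y]) ∈ EE G (r' + 1) := by
          apply appear (s' := s') (by omega) hF'
          intro v hv
          exact hFs.2 v hv
        have hleg := hok.legal.2 j r' x y c u
        have h6 : ((1, [j, G.io j r']), [x, y, c]) ∈ EE G (r' + 1) := by
          rw [hE1]
          apply hleg
          · have := hF1
            rw [hE1] at this
            exact this
          · exact G.le_refl r'
          · have := heT
            rw [hE1] at this
            exact this
        exact hG' (perm h6 (by simp) (by omega))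
      · push Not at hnew
        have hxr : x < nn G r := by
          rcases himg.1 x (by simp) with h1 | h1
          · exact hb x h1
          · have := ((hvt x).1 h1).1
            omega
        have hyr : y < nn G r := by
          rcases himg.1 y (by simp) with h1 | h1
          · exact hb y h1
          · have := ((hvt y).1 h1).1
            omega
        have hFr : ((3, [r']), [x, y]) ∈ EE G r := by
          apply appear (s' := s') (by omega) hF'
          intro v hv
          simp only [List.mem_cons, List.not_mem_nil, or_false] at hv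
          rcases hv with rfl | rfl
          · exact hxr
          · exact hyr
        have hTP : G.TP r' := by
          by_contra hcon
          have := (hl.2 s' (hs.trans hs')).1 r' x y hFr hcon
          rw [hle] at this
          exact Bool.noConfusion this
        have hr'r : r' < r := by
          rcases (shape r _ hFr).2.2 with ⟨i, e1, _⟩ | ⟨i, i', e1, _⟩ | ⟨i, e1, _⟩ | ⟨t', ht', e1, _, e2, e3⟩
          · simp at e1
          · simp at e1
          · simp at e1
          · have e4 : r' = t' := by simpa using e1
            omega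
        have hles : G.le r' s = true := (G.tp_view s ha r' (by omega)).1 hTP
        have hFE : ((3, [r']), [x, y]) ∈ EE G s := perm hFr (by simp) hrs
        have h7 : ((1, [j, G.io j r']), [x, y, c]) ∈ EE G s := by
          by_contra hcon
          exact hnd ⟨j, x, y, c, u, r', rfl, hles, by omega, hFE, hcon⟩
        exact hG' (perm h7 (by simp) hs')
    · exact fe_of_ne heE hk

end FdZ
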