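import Pool.Agent.Lib.MP_fd2900_lc.Z.LimC

namespace FdZ

variable {G : Guide}

private theorem LimG_lab {ℓ : Lb} {e : Edge} (h : flab G ℓ e) :
    ∃ s₀, ∀ s, s₀ ≤ s → lab G.io (es (EE G s)) G.TP ℓ e := by
  obtain ⟨⟨s₁, h1⟩, h2⟩ := h
  rcases h2 with h2 | h2 | ⟨j, r, x, y, c, h3, h4, ⟨s₂, h5⟩, h6⟩
  · exact ⟨s₁, fun s hs => ⟨h1 s hs, Or.inl h2⟩⟩
  · exact ⟨s₁, fun s hs => ⟨h1 s hs, Or.inr (Or.inl h2)⟩⟩
  · refine ⟨max s₁ s₂, fun s hs => ⟨h1 s (le_trans (le_max_left _ _) hs), Or.inr (Or.inr ?_)⟩⟩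
    exact ⟨j, r, x, y, c, h3, h4, h5 s (le_trans (le_max_right _ _) hs), h6⟩

private theorem LimG_forall {X : List ℕ} {pat L : List Edge}
    (h : List.Forall₂ (fun pe e => flab G pe.1 e ∧ e.2 = inst X pe.2) pat L) :
    ∃ s₀, ∀ s, s₀ ≤ s →
      List.Forall₂ (fun pe e => lab G.io (es (EE G s)) G.TP pe.1 e ∧ e.2 = inst X pe.2) pat L := by
  induction h with
  | nil => exact ⟨0, fun s _ => List.Forall₂.nil⟩
  | cons h1 _ ih =>
    obtain ⟨s₁, h2⟩ := LimG_lab h1.1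
    obtain ⟨s₂, h3⟩ := ih
    exact ⟨max s₁ s₂, fun s hs => List.Forall₂.cons ⟨h2 s (le_trans (le_max_left _ _) hs), h1.2⟩
      (h3 s (le_trans (le_max_right _ _) hs))⟩

private theorem LimG_real {pat : List Edge} {β ν : List ℕ} (h : Real (flab G) pat β ν) :
    ∃ s₀, ∀ s, s₀ ≤ s → Real (lab G.io (es (EE G s)) G.TP) pat β ν := by
  obtain ⟨h1, L, h2, h3⟩ := h
  obtain ⟨s₀, h4⟩ := LimG_forall h3
  exact ⟨s₀, fun s hs => ⟨h1, L, h2, h4 s hs⟩⟩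

private theorem LimG_list {α : Type*} {P : α → ℕ → Prop} (L : List α)
    (h : ∀ a ∈ L, ∃ s₀, ∀ s, s₀ ≤ s → P a s) : ∃ s₀, ∀ s, s₀ ≤ s → ∀ a ∈ L, P a s := by
  induction L with
  | nil => exact ⟨0, fun s _ a ha => by simp at ha⟩
  | cons b L ih =>
    obtain ⟨s₁, h1⟩ := h b (by simp)
    obtain ⟨s₂, h2⟩ := ih (fun a ha => h a (by simp [ha]))
    refine ⟨max s₁ s₂, fun s hs a ha => ?_⟩
    rcases List.mem_cons.1 ha with rfl | ha
    · exact h1 s (le_trans (le_max_left _ _) hs)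
    · exact h2 s (le_trans (le_max_right _ _) hs) a ha

/-- no violation in the limit -/
theorem nviol_lim : ¬ Viol (flab G) := by
  rintro ⟨p, q, pat, β, νs, hc, ⟨h1, h2, h3⟩, h4⟩
  obtain ⟨s₀, h5⟩ := LimG_list (P := fun ν s => Real (lab G.io (es (EE G s)) G.TP) pat β ν) νs
    (fun ν hν => LimG_real (h2 ν hν).2)
  exact nviol s₀ G.TP view_tp ⟨p, q, pat, β, νs, hc,
    ⟨h1, fun ν hν => ⟨(h2 ν hν).1, h5 s₀ le_rfl ν hν⟩, h3⟩, h4⟩

/-- strongness in the limit -/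
theorem strong_lim (r k : ℕ) : Strong (flab G) (Set.Iio (nn G r)) k := by
  intro Z hZ hX L hL
  obtain ⟨s₀, h1⟩ := LimG_list (P := fun e s => ∃ ℓ, lab G.io (es (EE G s)) G.TP ℓ e) L.toList
    (fun e he => by
      obtain ⟨⟨ℓ, h2⟩, -⟩ := hL e (by simpa using he)
      obtain ⟨s₁, h3⟩ := LimG_lab h2
      exact ⟨s₁, fun s hs => ⟨ℓ, h3 s hs⟩⟩)
  have h4 := strongV (G := G) (r := r) (s := max s₀ r) (le_max_right _ _) G.TP k Z hZ hX L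
  refine h4 (fun e he => ⟨?_, (hL e he).2⟩)
  exact h1 _ (le_max_left _ _) e (by simpa using he)

end FdZ
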