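import Pool.Agent.Lib.MP_fd2900_lc.Z.ObsA

/-! a structure in which all elements are named is prime; countable proper elementary extensions -/

namespace FdZ

open FirstOrder FirstOrder.Language Pool.Agent.MP_fd2900_lc

/-- the sentence saying that elements with the given names satisfy `φ` -/
theorem named_sentence (L : FirstOrder.Language.{0, 0}) {n : ℕ} (s : Fin n → L.Relations 1)
    (φ : L.Formula (Fin n)) :
    ∃ σ : L.Sentence, ∀ (B : Type) [L.Structure B] [Nonempty B],
      B ⊨ σ ↔ ∃ w : Fin n → B, (∀ i, Structure.RelMap (s i) ![w i]) ∧ φ.Realize w := by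
  classical
  let ψ : L.Formula (Fin n) :=
    (BoundedFormula.iInf (fun i : Fin n => (s i).formula ![(Term.var i : L.Term (Fin n))])) ⊓ φ
  refine ⟨Formula.iExs (Fin n) (ψ.relabel (Sum.inr : Fin n → Empty ⊕ Fin n)), ?_⟩
  intro B _ _
  show Formula.Realize _ default ↔ _
  rw [Formula.realize_iExs]
  refine exists_congr fun w => ?_
  rw [Formula.realize_relabel]
  have hw : (Sum.elim (default : Empty → B) w ∘ (Sum.inr : Fin n → Empty ⊕ Fin n)) = w := by
    funext i; rfl
  rw [hw]
  show Formula.Realize (_ ⊓ φ) w ↔ _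
  rw [Formula.realize_inf]
  refine and_congr ?_ Iff.rfl
  show BoundedFormula.Realize _ _ _ ↔ _
  rw [BoundedFormula.realize_iInf]
  refine forall_congr' fun i => ?_
  show Formula.Realize (Relations.formula (s i) _) w ↔ _
  rw [Formula.realize_rel]
  have : (fun k => Term.realize w ((![(Term.var i : L.Term (Fin n))] : Fin 1 → _) k)) = ![w i] := by
    funext k
    fin_cases k
    rfl
  rw [this]

/-- a structure in which every element is the only one with its name embeds elementarily in all models of its
complete theory -/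
theorem prime_of_names (L : FirstOrder.Language.{0, 0}) {A : Type} [L.Structure A] [Nonempty A]
    (s : A → L.Relations 1) (hs : ∀ a x : A, Structure.RelMap (s a) ![x] ↔ x = a)
    (M : Type) [L.Structure M] [Nonempty M] [M ⊨ L.completeTheory A] :
    Nonempty (A ↪ₑ[L] M) := by
  classical
  -- every name is the name of exactly one element
  have hex : ∀ a : A, ∃ z : M, Structure.RelMap (s a) ![z] ∧
      ∀ z', Structure.RelMap (s a) ![z'] → z' = z := by
    intro a
    have hd : DefP (L := L) (fun N _ _ => ∃ z : N, Structure.RelMap (s a) ![z] ∧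
        ∀ z', Structure.RelMap (s a) ![z'] → z' = z) := by
      have e0 : DefP (L := L) (fun N _ v => Structure.RelMap (s a) ![v 0]) := by
        refine (DefP.rel (L := L) (n := 1) (s a) ![0]).congr ?_
        intro N _ v
        have : (fun i => v ((![0] : Fin 1 → ℕ) i)) = ![v 0] := by
          funext i
          fin_cases i
          rfl
        rw [this]
      have e1 : DefP (L := L) (fun N _ v => Structure.RelMap (s a) ![v 1]) := by
        refine (DefP.rel (L := L) (n := 1) (s a) ![1]).congr ?_
        intro N _ v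
        have : (fun i => v ((![1] : Fin 1 → ℕ) i)) = ![v 1] := by
          funext i
          fin_cases i
          rfl
        rw [this]
      refine ((e0.and ((e1.imp (DefP.eq 1 0)).all 1)).ex 0).congr ?_
      intro N _ v
      refine exists_congr fun z => ?_
      simp [Function.update_apply]
    refine (DefP.closed hd (Q := fun N _ => ∃ z : N, Structure.RelMap (s a) ![z] ∧
        ∀ z', Structure.RelMap (s a) ![z'] → z' = z) (fun N _ v => Iff.rfl)
        (A := A) (M := M)).1 ?_
    exact ⟨a, (hs a a).2 rfl, fun z' hz' => (hs a z').1 hz'⟩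
  choose g hg hg' using hex
  refine ⟨⟨g, ?_⟩⟩
  intro n φ x
  obtain ⟨σ, hσ⟩ := named_sentence L (fun i => s (x i)) φ
  have hAM := realize_iff_of_model_completeTheory A M σ
  constructor
  · intro h
    have h1 : A ⊨ σ := hAM.1 ((hσ M).2 ⟨g ∘ x, fun i => hg (x i), h⟩)
    obtain ⟨w, hw, hφ⟩ := (hσ A).1 h1
    have : w = x := funext fun i => (hs (x i) (w i)).1 (hw i)
    rwa [this] at hφ
  · intro h
    have h1 : M ⊨ σ := hAM.2 ((hσ A).2 ⟨x, fun i => (hs (x i) (x i)).2 rfl, h⟩)
    obtain ⟨w, hw, hφ⟩ := (hσ M).1 h1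
    have : w = g ∘ x := funext fun i => hg' (x i) (w i) (hw i)
    rwa [this] at hφ

/-- in a countable language every countable infinite structure has a countable proper elementary extension -/
theorem proper_ext (L : FirstOrder.Language.{0, 0}) [Countable L.Symbols] (A : Type)
    [L.Structure A] [Infinite A] [Countable A] :
    ∃ (N : Type) (_ : L.Structure N), Countable N ∧ ∃ (f : A ↪ₑ[L] N) (b : N), ∀ a, f a ≠ b := by
  have hL : L.card ≤ Cardinal.aleph0 := by
    show Cardinal.mk L.Symbols ≤ _
    exact Cardinal.mk_le_aleph0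
  obtain ⟨N, ⟨f⟩, hN⟩ := exists_elementaryEmbedding_card_eq_of_ge L A (Cardinal.aleph 1)
    (Cardinal.lift_le.2 (hL.trans (Cardinal.aleph0_le_aleph 1)))
    (Cardinal.lift_le.2 ((Cardinal.mk_le_aleph0).trans (Cardinal.aleph0_le_aleph 1)))
  have hb : ∃ b : N, ∀ a, f a ≠ b := by
    by_contra hcon
    push Not at hcon
    have hsur : Function.Surjective f := hcon
    have h1 : Cardinal.mk N ≤ Cardinal.mk A := Cardinal.mk_le_of_surjective hsur
    rw [hN] at h1
    have h2 : Cardinal.mk A ≤ Cardinal.aleph0 := Cardinal.mk_le_aleph0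
    exact absurd (h1.trans h2) (not_le.2 Cardinal.aleph0_lt_aleph_one)
  obtain ⟨b, hb⟩ := hb
  have hcs : (insert b (Set.range f)).Countable := (Set.countable_range f).insert b
  obtain ⟨S, hS, hSc⟩ := exists_elementarySubstructure_card_eq L (insert b (Set.range f))
    Cardinal.aleph0 le_rfl
    (Cardinal.lift_le.2 (Cardinal.le_aleph0_iff_set_countable.2 hcs))
    (Cardinal.lift_le.2 hL)
    (Cardinal.lift_le.2 (by
      rw [hN]
      exact Cardinal.aleph0_le_aleph 1))
  have hfS : ∀ a, f a ∈ S := fun a => hS (Set.mem_insert_of_mem _ (Set.mem_range_self a))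
  refine ⟨S, inferInstance, ?_, ⟨⟨fun a => ⟨f a, hfS a⟩, ?_⟩, ⟨b, hS (Set.mem_insert _ _)⟩, ?_⟩⟩
  · exact Cardinal.mk_le_aleph0_iff.1 (Cardinal.lift_inj.1 hSc).le
  · intro n φ x
    have h1 := S.subtype.map_formula φ (fun i => (⟨f (x i), hfS (x i)⟩ : S))
    have h2 := f.map_formula φ x
    exact h1.symm.trans h2
  · intro a h
    exact hb a (congrArg Subtype.val h)

end FdZ
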