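import Pool.Agent.Lib.MP_fd2900_lc.Z.Iface
import Pool.Agent.Lib.MP_fd2900_lc.Z.ObsB
import Pool.Agent.Lib.MP_fd2900_lc.Sig

/-! the obstruction -/

namespace FdZ

open FirstOrder FirstOrder.Language Pool.Agent.MP_fd2900_lc

theorem arA_D (j : ℕ) : arA (3 * j) = 5 := by
  unfold arA; rw [if_pos (by omega)]

theorem arA_G (k : ℕ) : arA (3 * k + 1) = 3 := by
  unfold arA; rw [if_neg (by omega), if_pos (by omega)]

theorem arA_N (k : ℕ) : arA (3 * k + 2) = 1 := by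
  unfold arA; rw [if_neg (by omega), if_neg (by omega)]

/-- a structure in which all elements are named is prime -/
theorem prime {D : ℕ × List ℕ → Prop} (hP : ∀ k t, D (3 * k + 2, t) ↔ t = [k]) (M : Type)
    [(Lg arA).Structure M] [Nonempty M] [M ⊨ (Lg arA).completeTheory (Univ D)] :
    Nonempty (Univ D ↪ₑ[Lg arA] M) := by
  have key : ∀ k x : ℕ, D (3 * k + 2, [x]) ↔ x = k := fun k x => by
    rw [hP k [x], List.cons.injEq, and_iff_left rfl]
  let s : ℕ → (Lg arA).Relations 1 := fun k => sym (ar := arA) (3 * k + 2) 1 (arA_N k)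
  exact prime_of_names (Lg arA) (A := Univ D) s (fun a x => key a x) M

section
variable {D : ℕ × List ℕ → Prop} {S : ℕ → Prop} {N : Type} [(Lg arA).Structure N]

theorem obs_n1 (h : ObsData D S) (f : Univ D ↪ₑ[Lg arA] N) (x : N) :
    ∃ y, FQ (3 * 0) (arA_D 0) x y := by
  have hd := ((defFQ arA (3 * 0) (arA_D 0)).ex 1).all 0
  have hA : ∀ a : Univ D, ∃ y : Univ D, FQ (ar := arA) (3 * 0) (arA_D 0) a y := h.o1
  have e := hd.elem f (fun _ => toU _ 0)
  have e1 := e.1 (by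
    intro a
    obtain ⟨y, hy⟩ := hA a
    refine ⟨y, ?_⟩
    simpa [Function.update_apply] using hy)
  obtain ⟨y, hy⟩ := e1 x
  refine ⟨y, ?_⟩
  simpa [Function.update_apply] using hy

theorem obs_n2 (h : ObsData D S) (f : Univ D ↪ₑ[Lg arA] N) (j : ℕ) (x y : N)
    (hxy : FQ (3 * 0) (arA_D 0) x y) : UQ (3 * j) (arA_D j) x y := by
  have hd := (((defFQ arA (3 * 0) (arA_D 0)).imp (defUQ arA (3 * j) (arA_D j))).all 1).all 0
  have hA : ∀ x y : Univ D, FQ (ar := arA) (3 * 0) (arA_D 0) x y →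
    UQ (ar := arA) (3 * j) (arA_D j) x y := fun x y hxy => h.o2 x y hxy j
  have e := hd.elem f (fun _ => toU _ 0)
  have e1 := e.1 (by
    intro a b hab
    simp only [Function.update_apply] at hab ⊢
    simp only [if_true, zero_ne_one, if_false] at hab ⊢
    exact hA a b hab)
  have e2 := e1 x y
  simp only [Function.update_apply, if_true, zero_ne_one, if_false] at e2
  exact e2 hxy

theorem obs_n3 (h : ObsData D S) (f : Univ D ↪ₑ[Lg arA] N) {b : N} (hb : ∀ a, f a ≠ b) (j : ℕ)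
    (hj : S j) :
    ∃ i, ∀ y c u, FQ (3 * 0) (arA_D 0) b y → QN (3 * j) (arA_D j) b y c u →
      RG (3 * Nat.pair j i + 1) (arA_G _) b y c := by
  obtain ⟨i, X, hX⟩ := h.o4 j hj
  refine ⟨i, ?_⟩
  have hd : DefP (L := Lg arA) (fun N _ v => ∃ y c u : N, FQ (3 * 0) (arA_D 0) (v 0) y ∧
      QN (3 * j) (arA_D j) (v 0) y c u ∧ ¬ RG (3 * Nat.pair j i + 1) (arA_G _) (v 0) y c) := by
    refine (((((defFQ arA (3 * 0) (arA_D 0)).and ((defQN arA (3 * j) (arA_D j) 0 1 2 3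
      (by norm_num) (by norm_num) (by norm_num) (by norm_num)).and
      (defRG arA (3 * Nat.pair j i + 1) (arA_G _)).not)).ex 3).ex 2).ex 1).congr ?_
    intro N _ v
    refine exists_congr fun y => exists_congr fun c => exists_congr fun u => ?_
    simp [Function.update_apply]
  have hfin : {x : Univ D | ∃ y c u : Univ D, FQ (ar := arA) (3 * 0) (arA_D 0) x y ∧
      QN (ar := arA) (3 * j) (arA_D j) x y c u ∧
      ¬ RG (ar := arA) (3 * Nat.pair j i + 1) (arA_G _) x y c}.Finite := by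
    refine (X.finite_toSet).subset ?_
    rintro x ⟨y, c, u, h1, h2, h3⟩
    by_contra hx
    exact h3 (hX x (fun hh => hx (Finset.mem_coe.2 hh)) y c u h1 h2)
  have key := no_new f (P := fun N _ x => ∃ y c u : N, FQ (3 * 0) (arA_D 0) x y ∧
      QN (3 * j) (arA_D j) x y c u ∧ ¬ RG (3 * Nat.pair j i + 1) (arA_G _) x y c) hd hfin b hb
  intro y c u h1 h2
  by_contra h3
  exact key ⟨y, c, u, h1, h2, h3⟩

theorem obs_n4 (h : ObsData D S) (f : Univ D ↪ₑ[Lg arA] N) {b : N} (hb : ∀ a, f a ≠ b) (j : ℕ)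
    (hj : ¬ S j) :
    ∀ i y c u, FQ (3 * 0) (arA_D 0) b y → QN (3 * j) (arA_D j) b y c u →
      ¬ RG (3 * Nat.pair j i + 1) (arA_G _) b y c := by
  intro i
  obtain ⟨X, hX⟩ := h.o5 j hj i
  have hd : DefP (L := Lg arA) (fun N _ v => ∃ y c u : N, FQ (3 * 0) (arA_D 0) (v 0) y ∧
      QN (3 * j) (arA_D j) (v 0) y c u ∧ RG (3 * Nat.pair j i + 1) (arA_G _) (v 0) y c) := by
    refine (((((defFQ arA (3 * 0) (arA_D 0)).and ((defQN arA (3 * j) (arA_D j) 0 1 2 3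
      (by norm_num) (by norm_num) (by norm_num) (by norm_num)).and
      (defRG arA (3 * Nat.pair j i + 1) (arA_G _)))).ex 3).ex 2).ex 1).congr ?_
    intro N _ v
    refine exists_congr fun y => exists_congr fun c => exists_congr fun u => ?_
    simp [Function.update_apply]
  have hfin : {x : Univ D | ∃ y c u : Univ D, FQ (ar := arA) (3 * 0) (arA_D 0) x y ∧
      QN (ar := arA) (3 * j) (arA_D j) x y c u ∧
      RG (ar := arA) (3 * Nat.pair j i + 1) (arA_G _) x y c}.Finite := by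
    refine (X.finite_toSet).subset ?_
    rintro x ⟨y, c, u, h1, h2, h3⟩
    by_contra hx
    exact hX x (fun hh => hx (Finset.mem_coe.2 hh)) y c u h1 h2 h3
  have key := no_new f (P := fun N _ x => ∃ y c u : N, FQ (3 * 0) (arA_D 0) x y ∧
      QN (3 * j) (arA_D j) x y c u ∧ RG (3 * Nat.pair j i + 1) (arA_G _) x y c) hd hfin b hb
  intro y c u h1 h2 h3
  exact key ⟨y, c, u, h1, h2, h3⟩

/-- the complement of `S` is read off from a new element -/
theorem obs_read (h : ObsData D S) (f : Univ D ↪ₑ[Lg arA] N) {b : N} (hb : ∀ a, f a ≠ b) :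
    ∃ e : N, ∀ j, ¬ S j ↔ ∃ c u : N, QN (3 * j) (arA_D j) b e c u ∧
      ∀ i, ¬ RG (3 * Nat.pair j i + 1) (arA_G _) b e c := by
  obtain ⟨e, he⟩ := obs_n1 h f b
  refine ⟨e, fun j => ?_⟩
  constructor
  · intro hj
    obtain ⟨c, u, hcu, -⟩ := obs_n2 h f j b e he
    exact ⟨c, u, hcu, fun i => obs_n4 h f hb j hj i e c u he hcu⟩
  · rintro ⟨c, u, hcu, hG⟩ hj
    obtain ⟨i, hi⟩ := obs_n3 h f hb j hj
    exact hG i (hi e c u he hcu)

end

theorem sig3_of_delta3 {D' : ℕ × List ℕ → Prop} (h : Delta3 D') : Sig 3 D' := by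
  obtain ⟨⟨R, hR, hD⟩, -⟩ := h
  have h0 : Sig 0 (fun q : (((ℕ × List ℕ) × ℕ) × ℕ) × ℕ =>
      ¬ R (q.1.1.1, q.1.1.2, q.1.2, q.2)) := by
    have hc : Computable (fun q : (((ℕ × List ℕ) × ℕ) × ℕ) × ℕ =>
        (q.1.1.1, q.1.1.2, q.1.2, q.2)) := by
      apply Primrec.to_comp
      exact (Primrec.fst.comp (Primrec.fst.comp Primrec.fst)).pair
        ((Primrec.snd.comp (Primrec.fst.comp Primrec.fst)).pair
          ((Primrec.snd.comp Primrec.fst).pair Primrec.snd))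
    have h1 : Sig 0 R := hR
    have h2 : ComputablePred (fun q : (((ℕ × List ℕ) × ℕ) × ℕ) × ℕ =>
      R (q.1.1.1, q.1.1.2, q.1.2, q.2)) := h1.comp hc
    exact h2.not
  refine ⟨fun q => ¬ ∀ y, ∃ z, R (q.1, q.2, y, z), ?_, ?_⟩
  · refine ⟨fun q => ∃ z, R (q.1.1, q.1.2, q.2, z), ?_, ?_⟩
    · refine ⟨_, h0, fun a => ?_⟩
      simp
    · intro a
      push Not
      rfl
  · intro a
    rw [hD a]
    simp

theorem sig4_of_sig {P : ℕ → Prop} (h : Sig 4 P) : Sig4 P := by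
  obtain ⟨Q1, ⟨Q2, ⟨Q3, ⟨Q4, hQ4, h4⟩, h3⟩, h2⟩, h1⟩ := h
  have hc : Computable (fun q : ℕ × ℕ × ℕ × ℕ × ℕ =>
      ((((q.1, q.2.1), q.2.2.1), q.2.2.2.1), q.2.2.2.2)) := by
    apply Primrec.to_comp
    have p1 : Primrec (fun q : ℕ × ℕ × ℕ × ℕ × ℕ => q.2) := Primrec.snd
    have p2 : Primrec (fun q : ℕ × ℕ × ℕ × ℕ × ℕ => q.2.2) := Primrec.snd.comp p1
    have p3 : Primrec (fun q : ℕ × ℕ × ℕ × ℕ × ℕ => q.2.2.2) := Primrec.snd.comp p2
    exact ((((Primrec.fst.pair (Primrec.fst.comp p1)).pair (Primrec.fst.comp p2)).pair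
      (Primrec.fst.comp p3)).pair (Primrec.snd.comp p3))
  have hR : Sig 0 (fun q : ℕ × ℕ × ℕ × ℕ × ℕ =>
      Q4 ((((q.1, q.2.1), q.2.2.1), q.2.2.2.1), q.2.2.2.2)) := Sig.comp (n := 0) hQ4 hc
  refine ⟨_, hR, fun j => ?_⟩
  rw [h1 j]
  refine exists_congr fun a => ?_
  rw [h2 (j, a)]
  push Not
  refine forall_congr' fun b => ?_
  rw [h3 ((j, a), b)]
  refine exists_congr fun c => ?_
  rw [h4 (((j, a), b), c)]
  push Not
  rfl

section
variable {D : ℕ × List ℕ → Prop} {S : ℕ → Prop} {N : Type} [(Lg arA).Structure N]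

/-- no elementary extension with a new element has a copy with a `Δ⁰₃` diagram -/
theorem obs_no_copy (h : ObsData D S) (hS : ¬ Sig4 (fun j => ¬ S j)) (f : Univ D ↪ₑ[Lg arA] N)
    {b : N} (hb : ∀ a, f a ≠ b) (D' : ℕ × List ℕ → Prop) (hD' : Delta3 D') :
    IsEmpty (Univ D' ≃[Lg arA] N) := by
  refine ⟨fun ι => hS (sig4_of_sig ?_)⟩
  obtain ⟨e, he⟩ := obs_read h f hb
  obtain ⟨b', hιb⟩ := ι.surjective b
  obtain ⟨e', hιe⟩ := ι.surjective e
  subst hιb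
  subst hιe
  have hQN : ∀ (j : ℕ) (c u : Univ D'), QN (3 * j) (arA_D j) (ι b') (ι e') (ι c) (ι u) ↔
      ((b' ≠ e' ∧ b' ≠ c ∧ b' ≠ u ∧ e' ≠ c ∧ e' ≠ u ∧ c ≠ u) ∧
        ∀ w : ℕ, ¬ D' (3 * j, [b', e', c, u, w])) := by
    intro j c u
    unfold QN
    rw [nodup4]
    refine and_congr ?_ ?_
    · simp only [Ne, ι.injective.eq_iff]
    · constructor
      · intro hw w
        exact fun hh => hw (ι (toU D' w)) ((RD_map ι _ _ _ _ _ _ _).2 hh)
      · intro hw w hh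
        obtain ⟨w', rfl⟩ := ι.surjective w
        exact hw w' ((RD_map ι _ _ _ _ _ _ _).1 hh)
  have hRG : ∀ (j i : ℕ) (c : Univ D'),
      RG (3 * Nat.pair j i + 1) (arA_G _) (ι b') (ι e') (ι c) ↔
        D' (3 * Nat.pair j i + 1, [b', e', c]) := fun j i c => RG_map ι _ _ _ _ _
  have he' : ∀ j, ¬ S j ↔ ∃ c u : ℕ,
      ((toU D' b' ≠ e' ∧ b' ≠ toU D' c ∧ b' ≠ toU D' u ∧ e' ≠ toU D' c ∧ e' ≠ toU D' u ∧
        toU D' c ≠ toU D' u) ∧
        ∀ w : ℕ, ¬ D' (3 * j, [b', e', c, u, w])) ∧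
      ∀ i, ¬ D' (3 * Nat.pair j i + 1, [b', e', c]) := by
    intro j
    rw [he j]
    constructor
    · rintro ⟨c, u, h1, h2⟩
      obtain ⟨c', rfl⟩ := ι.surjective c
      obtain ⟨u', rfl⟩ := ι.surjective u
      exact ⟨c', u', (hQN j c' u').1 h1, fun i hh => h2 i ((hRG j i c').2 hh)⟩
    · rintro ⟨c, u, h1, h2⟩
      exact ⟨ι (toU D' c), ι (toU D' u), (hQN j (toU D' c) (toU D' u)).2 h1,
        fun i hh => h2 i ((hRG j i (toU D' c)).1 hh)⟩
  clear hQN hRG he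
  obtain ⟨b₀, hb₀⟩ : ∃ b₀ : ℕ, b₀ = b' := ⟨b', rfl⟩
  obtain ⟨e₀, he₀⟩ : ∃ e₀ : ℕ, e₀ = e' := ⟨e', rfl⟩
  have he2 : ∀ j, ¬ S j ↔ ∃ c u : ℕ,
      ((b₀ ≠ e₀ ∧ b₀ ≠ c ∧ b₀ ≠ u ∧ e₀ ≠ c ∧ e₀ ≠ u ∧ c ≠ u) ∧
        ∀ w : ℕ, ¬ D' (3 * j, [b₀, e₀, c, u, w])) ∧
      ∀ i, ¬ D' (3 * Nat.pair j i + 1, [b₀, e₀, c]) := by
    subst hb₀
    subst he₀
    exact he'
  have h3 := sig3_of_delta3 hD'
  -- the predicate inside
  have hX : Sig 3 (fun q : (ℕ × (ℕ × ℕ)) × (ℕ × ℕ) =>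
      ((b₀ = e₀ ∨ b₀ = q.1.2.1 ∨ b₀ = q.1.2.2 ∨ e₀ = q.1.2.1 ∨ e₀ = q.1.2.2 ∨
        q.1.2.1 = q.1.2.2) ∨
        D' (3 * q.1.1, [b₀, e₀, q.1.2.1, q.1.2.2, q.2.1])) ∨
        D' (3 * Nat.pair q.1.1 q.2.2 + 1, [b₀, e₀, q.1.2.1])) := by
    have pj : Primrec (fun q : (ℕ × (ℕ × ℕ)) × (ℕ × ℕ) => q.1.1) := Primrec.fst.comp Primrec.fst
    have pc : Primrec (fun q : (ℕ × (ℕ × ℕ)) × (ℕ × ℕ) => q.1.2.1) :=
      Primrec.fst.comp (Primrec.snd.comp Primrec.fst)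
    have pu : Primrec (fun q : (ℕ × (ℕ × ℕ)) × (ℕ × ℕ) => q.1.2.2) :=
      Primrec.snd.comp (Primrec.snd.comp Primrec.fst)
    have pw : Primrec (fun q : (ℕ × (ℕ × ℕ)) × (ℕ × ℕ) => q.2.1) := Primrec.fst.comp Primrec.snd
    have pi : Primrec (fun q : (ℕ × (ℕ × ℕ)) × (ℕ × ℕ) => q.2.2) := Primrec.snd.comp Primrec.snd
    refine (Sig.or (Sig.or ?_ (h3.comp ?_)) (h3.comp ?_))
    · apply Sig.of_comp
      have h1 : PrimrecPred (fun q : (ℕ × (ℕ × ℕ)) × (ℕ × ℕ) => b₀ = e₀ ∨ b₀ = q.1.2.1 ∨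
          b₀ = q.1.2.2 ∨ e₀ = q.1.2.1 ∨ e₀ = q.1.2.2 ∨ q.1.2.1 = q.1.2.2) :=
        (Primrec.eq.comp (Primrec.const b₀) (Primrec.const e₀)).or
          ((Primrec.eq.comp (Primrec.const b₀) pc).or
            ((Primrec.eq.comp (Primrec.const b₀) pu).or
              ((Primrec.eq.comp (Primrec.const e₀) pc).or
                ((Primrec.eq.comp (Primrec.const e₀) pu).or (Primrec.eq.comp pc pu)))))
      obtain ⟨hd, hp⟩ := h1
      exact ⟨hd, hp.to_comp⟩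
    · apply Primrec.to_comp
      refine Primrec.pair (Primrec.nat_mul.comp (Primrec.const 3) pj) ?_
      exact Primrec.list_cons.comp (Primrec.const b₀) (Primrec.list_cons.comp (Primrec.const e₀)
        (Primrec.list_cons.comp pc (Primrec.list_cons.comp pu
          (Primrec.list_cons.comp pw (Primrec.const [])))))
    · apply Primrec.to_comp
      refine Primrec.pair (Primrec.succ.comp
        (Primrec.nat_mul.comp (Primrec.const 3) (Primrec₂.natPair.comp pj pi))) ?_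
      exact Primrec.list_cons.comp (Primrec.const b₀) (Primrec.list_cons.comp (Primrec.const e₀)
        (Primrec.list_cons.comp pc (Primrec.const [])))
  have h4 := (Sig.ex (n := 2) hX).not_up
  have h5 := Sig.ex (n := 3) h4
  refine h5.of_eq fun j => ?_
  rw [he2 j]
  constructor
  · rintro ⟨⟨c, u⟩, hcu⟩
    push Not at hcu
    exact ⟨c, u, ⟨(hcu (0, 0)).1.1, fun w => (hcu (w, 0)).1.2⟩, fun i => (hcu (0, i)).2⟩
  · rintro ⟨c, u, ⟨hne, hw⟩, hG⟩
    refine ⟨(c, u), ?_⟩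
    rintro ⟨⟨w, i⟩, hwi⟩
    rcases hwi with (hwi | hwi) | hwi
    · rcases hwi with h1 | h1 | h1 | h1 | h1 | h1
      · exact hne.1 h1
      · exact hne.2.1 h1
      · exact hne.2.2.1 h1
      · exact hne.2.2.2.1 h1
      · exact hne.2.2.2.2.1 h1
      · exact hne.2.2.2.2.2 h1
    · exact hw w hwi
    · exact hG i hwi

end

instance symbols_countable : Countable (Lg arA).Symbols := by
  have h1 : Countable (Σ n, (Lg arA).Functions n) := by
    have : ∀ n, Countable ((Lg arA).Functions n) := fun n =>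
      (inferInstance : Countable Empty)
    infer_instance
  have h2 : Countable (Σ n, (Lg arA).Relations n) := by
    have : ∀ n, Countable ((Lg arA).Relations n) := fun n =>
      (inferInstance : Countable {i : ℕ // arA i = n})
    infer_instance
  exact (inferInstance : Countable ((Σ n, (Lg arA).Functions n) ⊕ (Σ n, (Lg arA).Relations n)))

instance univ_infinite (D : ℕ × List ℕ → Prop) : Infinite (Univ D) :=
  (inferInstance : Infinite ℕ)

instance univ_countable (D : ℕ × List ℕ → Prop) : Countable (Univ D) :=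
  (inferInstance : Countable ℕ)

/-- the obstruction -/
theorem obs {D : ℕ × List ℕ → Prop} {S : ℕ → Prop} (h : ObsData D S) (hS : ¬ Sig4 (fun j => ¬ S j)) :
    ∃ (N : Type) (_ : (Lg arA).Structure N) (_ : Nonempty N), Countable N ∧
      N ⊨ (Lg arA).completeTheory (Univ D) ∧
      ∀ D' : ℕ × List ℕ → Prop, Delta3 D' → IsEmpty (Univ D' ≃[Lg arA] N) := by
  obtain ⟨N, hN, hc, f, b, hb⟩ := proper_ext (Lg arA) (Univ D)
  refine ⟨N, hN, ⟨b⟩, hc, ?_, fun D' hD' => obs_no_copy h hS f hb D' hD'⟩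
  have h1 := f.elementarilyEquivalent
  exact (f.theory_model_iff ((Lg arA).completeTheory (Univ D))).1 inferInstance

end FdZ
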