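import Mathlib

/-! families of definable predicates, uniformly in all structures of a language -/

namespace FdZ

open FirstOrder FirstOrder.Language

variable {L : FirstOrder.Language.{0, 0}}

/-- a family of predicates, uniformly defined in all structures -/
def DefP (P : ∀ (N : Type) [L.Structure N], (ℕ → N) → Prop) : Prop :=
  ∃ φ : L.Formula ℕ, ∀ (N : Type) [L.Structure N] (v : ℕ → N), P N v ↔ φ.Realize v

theorem DefP.congr {P Q : ∀ (N : Type) [L.Structure N], (ℕ → N) → Prop} (h : DefP P)
    (e : ∀ (N : Type) [L.Structure N] (v : ℕ → N), P N v ↔ Q N v) : DefP Q := by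
  obtain ⟨φ, hφ⟩ := h
  exact ⟨φ, fun N _ v => (e N v).symm.trans (hφ N v)⟩

theorem DefP.false : DefP (L := L) (fun _ _ _ => False) :=
  ⟨⊥, fun N _ v => by simp [Formula.Realize]⟩

theorem DefP.imp {P Q : ∀ (N : Type) [L.Structure N], (ℕ → N) → Prop} (h : DefP P)
    (h' : DefP Q) : DefP (L := L) (fun N _ v => P N v → Q N v) := by
  obtain ⟨φ, hφ⟩ := h
  obtain ⟨ψ, hψ⟩ := h'
  exact ⟨φ.imp ψ, fun N _ v => by
    show (P N v → Q N v) ↔ _
    rw [hφ, hψ, Formula.realize_imp]⟩

theorem DefP.not {P : ∀ (N : Type) [L.Structure N], (ℕ → N) → Prop} (h : DefP P) :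
    DefP (L := L) (fun N _ v => ¬ P N v) := (h.imp DefP.false).congr fun _ _ _ => Iff.rfl

theorem DefP.and {P Q : ∀ (N : Type) [L.Structure N], (ℕ → N) → Prop} (h : DefP P)
    (h' : DefP Q) : DefP (L := L) (fun N _ v => P N v ∧ Q N v) :=
  (h.imp h'.not).not.congr fun _ _ _ => by tauto

theorem DefP.or {P Q : ∀ (N : Type) [L.Structure N], (ℕ → N) → Prop} (h : DefP P)
    (h' : DefP Q) : DefP (L := L) (fun N _ v => P N v ∨ Q N v) :=
  (h.not.imp h').congr fun _ _ _ => by tauto

theorem DefP.eq (a b : ℕ) : DefP (L := L) (fun _ _ v => v a = v b) :=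
  ⟨Term.equal (Term.var a) (Term.var b), fun N _ v => by simp⟩

theorem DefP.rel {n : ℕ} (R : L.Relations n) (idx : Fin n → ℕ) :
    DefP (L := L) (fun _ _ v => Structure.RelMap R (fun i => v (idx i))) :=
  ⟨Relations.formula R (fun i => Term.var (idx i)), fun N _ v => by
    rw [Formula.realize_rel]
    simp only [Term.realize_var]⟩

theorem DefP.ex {P : ∀ (N : Type) [L.Structure N], (ℕ → N) → Prop} (h : DefP P) (k : ℕ) :
    DefP (L := L) (fun N _ v => ∃ a, P N (Function.update v k a)) := by
  obtain ⟨φ, hφ⟩ := h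
  refine ⟨Formula.iExs Unit (φ.relabel fun i => if i = k then Sum.inr () else Sum.inl i),
    fun N _ v => ?_⟩
  rw [Formula.realize_iExs]
  simp only [Formula.realize_relabel, hφ]
  have key : ∀ a : N, (Sum.elim v (fun _ : Unit => a) ∘
      fun i => if i = k then (Sum.inr () : ℕ ⊕ Unit) else Sum.inl i) = Function.update v k a := by
    intro a
    funext i
    by_cases hi : i = k
    · subst hi; simp
    · simp [hi]
  constructor
  · rintro ⟨a, ha⟩
    exact ⟨fun _ => a, by rw [key a]; exact ha⟩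
  · rintro ⟨y, hy⟩
    refine ⟨y (), ?_⟩
    rw [← key (y ())]
    exact hy

theorem DefP.all {P : ∀ (N : Type) [L.Structure N], (ℕ → N) → Prop} (h : DefP P) (k : ℕ) :
    DefP (L := L) (fun N _ v => ∀ a, P N (Function.update v k a)) :=
  (h.not.ex k).not.congr fun N _ v => by push Not; rfl

theorem DefP.exList {γ : Type} {P : γ → ∀ (N : Type) [L.Structure N], (ℕ → N) → Prop}
    (l : List γ) (h : ∀ c ∈ l, DefP (P c)) : DefP (L := L) (fun N _ v => ∃ c ∈ l, P c N v) := by
  induction l with
  | nil => exact DefP.false.congr fun N _ v => by simp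
  | cons a l ih =>
      refine ((h a (by simp)).or (ih fun c hc => h c (by simp [hc]))).congr fun N _ v => ?_
      simp

/-- definable predicates are preserved by elementary embeddings -/
theorem DefP.elem {P : ∀ (N : Type) [L.Structure N], (ℕ → N) → Prop} (h : DefP P)
    {A M : Type} [L.Structure A] [L.Structure M] (f : A ↪ₑ[L] M) (v : ℕ → A) :
    P A v ↔ P M (f ∘ v) := by
  obtain ⟨φ, hφ⟩ := h
  rw [hφ, hφ]
  exact (f.map_formula φ v).symm

/-- closed definable predicates are the same in all models of the complete theory -/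
theorem DefP.closed {P : ∀ (N : Type) [L.Structure N], (ℕ → N) → Prop} (h : DefP P)
    {Q : ∀ (N : Type) [L.Structure N], Prop}
    (hQ : ∀ (N : Type) [L.Structure N] (v : ℕ → N), P N v ↔ Q N)
    {A M : Type} [L.Structure A] [L.Structure M] [Nonempty A] [Nonempty M]
    [M ⊨ L.completeTheory A] : Q A ↔ Q M := by
  obtain ⟨φ, hφ⟩ := h
  set σ : L.Sentence := Formula.iExs Unit (φ.relabel fun _ => (Sum.inr () : Empty ⊕ Unit)) with hσ
  have hσr : ∀ (B : Type) [L.Structure B] [Nonempty B], B ⊨ σ ↔ Q B := by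
    intro B _ hne
    show Formula.Realize σ default ↔ _
    rw [hσ, Formula.realize_iExs]
    simp only [Formula.realize_relabel]
    constructor
    · rintro ⟨y, hy⟩
      exact (hQ B _).1 ((hφ B _).2 hy)
    · intro hB
      obtain ⟨b⟩ := hne
      exact ⟨fun _ => b, (hφ B _).1 ((hQ B _).2 hB)⟩
  rw [← hσr A, ← hσr M]
  exact (realize_iff_of_model_completeTheory A M σ).symm

end FdZ
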