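import Pool.Agent.Lib.MP_fd2900_lc.StmtDefs
import Pool.Agent.Lib.MP_fd2900_lc.Z.ObsDef

/-! the relations of the language in arbitrary structures and their definable combinations -/

namespace FdZ

open FirstOrder FirstOrder.Language Pool.Agent.MP_fd2900_lc

section
variable {ar : ℕ → ℕ}

/-- the relation symbol `r` of arity `n` -/
def sym (r n : ℕ) (h : ar r = n) : (Lg ar).Relations n := ⟨r, h⟩

variable {N : Type} [(Lg ar).Structure N]

/-- relation `r` of arity five -/
def RD (r : ℕ) (h : ar r = 5) (x y c u w : N) : Prop :=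
  Structure.RelMap (sym (ar := ar) r 5 h) ![x, y, c, u, w]

/-- relation `r` of arity three -/
def RG (r : ℕ) (h : ar r = 3) (x y c : N) : Prop :=
  Structure.RelMap (sym (ar := ar) r 3 h) ![x, y, c]

/-- relation `r` of arity one -/
def RN (r : ℕ) (h : ar r = 1) (x : N) : Prop :=
  Structure.RelMap (sym (ar := ar) r 1 h) ![x]

/-- `c, u` is not refuted -/
def QN (r : ℕ) (h : ar r = 5) (x y c u : N) : Prop :=
  [x, y, c, u].Nodup ∧ ∀ w, ¬ RD r h x y c u w

/-- exactly one pair is not refuted -/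
def UQ (r : ℕ) (h : ar r = 5) (x y : N) : Prop :=
  ∃ c u, QN r h x y c u ∧ ∀ c' u', QN r h x y c' u' → c' = c ∧ u' = u

theorem RD_univ (D : ℕ × List ℕ → Prop) (r : ℕ) (h : ar r = 5) (x y c u w : Univ D) :
    RD (ar := ar) r h x y c u w ↔ D (r, [x, y, c, u, w]) := Iff.rfl

theorem RG_univ (D : ℕ × List ℕ → Prop) (r : ℕ) (h : ar r = 3) (x y c : Univ D) :
    RG (ar := ar) r h x y c ↔ D (r, [x, y, c]) := Iff.rfl

theorem RN_univ (D : ℕ × List ℕ → Prop) (r : ℕ) (h : ar r = 1) (x : Univ D) :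
    RN (ar := ar) r h x ↔ D (r, [x]) := Iff.rfl

theorem RD_map {M : Type} [(Lg ar).Structure M] (ι : M ≃[Lg ar] N) (r : ℕ) (h : ar r = 5)
    (x y c u w : M) : RD r h (ι x) (ι y) (ι c) (ι u) (ι w) ↔ RD r h x y c u w := by
  unfold RD
  have h1 : (![ι x, ι y, ι c, ι u, ι w] : Fin 5 → N) = ι ∘ ![x, y, c, u, w] := by
    funext i
    fin_cases i <;> rfl
  rw [h1]
  exact ι.map_rel _ _

theorem RG_map {M : Type} [(Lg ar).Structure M] (ι : M ≃[Lg ar] N) (r : ℕ) (h : ar r = 3)
    (x y c : M) : RG r h (ι x) (ι y) (ι c) ↔ RG r h x y c := by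
  unfold RG
  have h1 : (![ι x, ι y, ι c] : Fin 3 → N) = ι ∘ ![x, y, c] := by
    funext i
    fin_cases i <;> rfl
  rw [h1]
  exact ι.map_rel _ _

end

section
variable (ar : ℕ → ℕ)

theorem defRN (r : ℕ) (h : ar r = 1) (a : ℕ) :
    DefP (L := Lg ar) (fun N _ v => RN (N := N) r h (v a)) := by
  refine (DefP.rel (L := Lg ar) (n := 1) (sym r 1 h) ![a]).congr ?_
  intro N _ v
  unfold RN
  have : (fun i => v ((![a] : Fin 1 → ℕ) i)) = ![v a] := by
    funext i
    fin_cases i <;> rfl
  rw [this]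

theorem defRG (r : ℕ) (h : ar r = 3) :
    DefP (L := Lg ar) (fun N _ v => RG (N := N) r h (v 0) (v 1) (v 2)) := by
  refine (DefP.rel (L := Lg ar) (n := 3) (sym r 3 h) ![0, 1, 2]).congr ?_
  intro N _ v
  unfold RG
  have : (fun i => v ((![0, 1, 2] : Fin 3 → ℕ) i)) = ![v 0, v 1, v 2] := by
    funext i
    fin_cases i <;> rfl
  rw [this]

theorem nodup4 {N : Type} (x y c u : N) :
    [x, y, c, u].Nodup ↔ (x ≠ y ∧ x ≠ c ∧ x ≠ u ∧ y ≠ c ∧ y ≠ u ∧ c ≠ u) := by
  simp only [List.nodup_cons, List.mem_cons, List.not_mem_nil, or_false, not_or,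
    List.nodup_nil, and_true, not_false_eq_true]
  tauto

theorem defQN (r : ℕ) (h : ar r = 5) (a b c d : ℕ) (ha : a < 6) (hb : b < 6) (hc : c < 6)
    (hd : d < 6) :
    DefP (L := Lg ar) (fun N _ v => QN (N := N) r h (v a) (v b) (v c) (v d)) := by
  have h0 := (DefP.rel (L := Lg ar) (n := 5) (sym r 5 h) ![a, b, c, d, 6]).not.all 6
  refine (((DefP.eq a b).not.and ((DefP.eq a c).not.and ((DefP.eq a d).not.and
    ((DefP.eq b c).not.and ((DefP.eq b d).not.and (DefP.eq c d).not))))).and h0).congr ?_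
  intro N _ v
  have ea : a ≠ 6 := by omega
  have eb : b ≠ 6 := by omega
  have ec : c ≠ 6 := by omega
  have ed : d ≠ 6 := by omega
  unfold QN RD
  refine and_congr (nodup4 _ _ _ _).symm (forall_congr' fun w => ?_)
  have : (fun i => Function.update v 6 w ((![a, b, c, d, 6] : Fin 5 → ℕ) i)) =
      ![v a, v b, v c, v d, w] := by
    funext i
    fin_cases i <;> simp [ea, eb, ec, ed]
  rw [this]

theorem defUQ (r : ℕ) (h : ar r = 5) :
    DefP (L := Lg ar) (fun N _ v => UQ (N := N) r h (v 0) (v 1)) := by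
  have h1 := defQN ar r h 0 1 2 3 (by norm_num) (by norm_num) (by norm_num) (by norm_num)
  have h2 := (((defQN ar r h 0 1 4 5 (by norm_num) (by norm_num) (by norm_num)
    (by norm_num)).imp ((DefP.eq 4 2).and (DefP.eq 5 3))).all 5).all 4
  refine (((h1.and h2).ex 3).ex 2).congr ?_
  intro N _ v
  unfold UQ
  refine exists_congr fun c => exists_congr fun u => ?_
  simp [Function.update_apply]

/-- `x ≠ y`, and exactly one pair is not refuted for the relation `r` -/
def FQ {ar : ℕ → ℕ} {N : Type} [(Lg ar).Structure N] (r : ℕ) (h : ar r = 5) (x y : N) : Prop :=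
  x ≠ y ∧ UQ r h x y

theorem defFQ (r : ℕ) (h : ar r = 5) :
    DefP (L := Lg ar) (fun N _ v => FQ (N := N) r h (v 0) (v 1)) :=
  ((DefP.eq 0 1).not.and (defUQ ar r h)).congr fun _ _ _ => Iff.rfl

end

/-- a definable condition with finitely many solutions in a structure has no new solutions in an elementary
extension -/
theorem no_new {L : FirstOrder.Language.{0, 0}} {A N : Type} [L.Structure A] [L.Structure N]
    [Nonempty A] (f : A ↪ₑ[L] N)
    {P : ∀ (N : Type) [L.Structure N], N → Prop}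
    (hP : DefP (L := L) (fun N _ v => P N (v 0)))
    (hfin : {x : A | P _ x}.Finite) (b : N) (hb : ∀ a, f a ≠ b) : ¬ P N b := by
  classical
  obtain ⟨a₀⟩ := (inferInstance : Nonempty A)
  set l : List A := hfin.toFinset.toList with hl
  have hlm : ∀ x, P _ x → x ∈ l := by
    intro x hx
    rw [hl, Finset.mem_toList, Set.Finite.mem_toFinset]
    exact hx
  have hd := ((hP.imp (DefP.exList (List.range l.length)
    (fun k _ => DefP.eq (L := L) 0 (k + 1)))).all 0)
  have e := hd.elem f (fun k => l.getD (k - 1) a₀)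
  have e1 := e.1 (by
    intro a ha
    have h1 := hlm _ ha
    simp only [Function.update_self] at h1
    obtain ⟨k, hk, hka⟩ := List.getElem_of_mem h1
    refine ⟨k, List.mem_range.2 hk, ?_⟩
    rw [Function.update_self, Function.update_of_ne (Nat.succ_ne_zero k)]
    show a = l.getD k a₀
    rw [List.getD_eq_getElem _ _ hk]
    exact hka.symm)
  intro hPb
  obtain ⟨k, -, hk⟩ := e1 b (by rw [Function.update_self]; exact hPb)
  rw [Function.update_self, Function.update_of_ne (Nat.succ_ne_zero k)] at hk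
  exact hb _ hk.symm

end FdZ
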