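import Pool.Agent.Lib.MP_fd2900_lc.StmtDefs

/-! computability relative to an oracle; structures whose universe is a subset of `ω` -/

namespace Pool.Agent.MP_fd2900_lc

open FirstOrder FirstOrder.Language

open Classical in
/-- the characteristic function of `A`, as an oracle -/
noncomputable def chi (A : ℕ → Prop) : ℕ →. ℕ := fun n => Part.some (if A n then 1 else 0)

/-- `B` is computably enumerable relative to `A`: it is the domain of a (not necessarily total) function that is
recursive with oracle `A` -/
def CeIn (A B : ℕ → Prop) : Prop :=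
  ∃ f : ℕ →. ℕ, RecursiveIn {chi A} f ∧ ∀ n, B n ↔ (f n).Dom

/-- `P` is computable relative to `A` -/
def CompIn {α : Type} [Primcodable α] (A : ℕ → Prop) (P : α → Prop) : Prop :=
  ∃ g : α → Bool, ComputableIn {chi A} g ∧ ∀ a, P a ↔ g a = true

/-- the universe `U ⊆ ω` of the structure with atomic diagram `D` -/
def UnivS (U : ℕ → Prop) (_D : ℕ × List ℕ → Prop) : Type := {x : ℕ // U x}

/-- the structure on `U` in which `R_i` holds of `x₁, …, x_k` iff `D (i, [x₁, …, x_k])` -/
instance instUnivS (ar : ℕ → ℕ) (U : ℕ → Prop) (D : ℕ × List ℕ → Prop) :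
    (Lg ar).Structure (UnivS U D) where
  funMap f _ := f.elim
  RelMap r xs := D (r.1, List.ofFn (fun i => (xs i).1))

end Pool.Agent.MP_fd2900_lc
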