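import Pool.Agent.Lib.MP_fd2900_lc.Sig
import Pool.Agent.Lib.MP_fd2900_lc.Z.StmtLit

/-! sets computable relative to a set that is computably enumerable in a computably enumerable set are `Σ⁰₃` -/

namespace Pool.Agent.MP_fd2900_lc

private theorem cp_of_prim {α : Type} [Primcodable α] {P : α → Prop} (h : PrimrecPred P) :
    ComputablePred P := by
  obtain ⟨hd, hp⟩ := h
  exact ⟨hd, hp.to_comp⟩

private theorem eq_sig (n : ℕ) {α : Type} [Primcodable α] {f g : α → ℕ} (hf : Computable f)
    (hg : Computable g) : Sig n (fun a => f a = g a) := by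
  have h1 : Sig n (fun p : ℕ × ℕ => p.1 = p.2) :=
    Sig.of_comp (cp_of_prim (Primrec.eq.comp Primrec.fst Primrec.snd))
  exact h1.comp (hf.pair hg)

theorem recIn_graph {n : ℕ} {O : Set (ℕ →. ℕ)}
    (hO : ∀ g ∈ O, Sig (n + 1) (fun p : ℕ × ℕ => p.2 ∈ g p.1)) {f : ℕ →. ℕ}
    (hf : Nat.RecursiveIn O f) : Sig (n + 1) (fun p : ℕ × ℕ => p.2 ∈ f p.1) := by
  have c1 : Computable (fun p : ℕ × ℕ => p.1) := Computable.fst
  have c2 : Computable (fun p : ℕ × ℕ => p.2) := Computable.snd
  have cl : Computable (fun n : ℕ => n.unpair.1) := Computable.fst.comp Computable.unpair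
  have cr : Computable (fun n : ℕ => n.unpair.2) := Computable.snd.comp Computable.unpair
  have cpair : Computable (fun p : ℕ × ℕ => Nat.pair p.1 p.2) := Primrec₂.natPair.to_comp
  induction hf with
  | zero =>
    refine (eq_sig (n + 1) c2 (Computable.const 0)).of_eq fun p => ?_
    exact (Part.mem_some_iff).symm
  | succ =>
    refine (eq_sig (n + 1) c2 (Computable.succ.comp c1)).of_eq fun p => ?_
    exact (Part.mem_some_iff).symm
  | left =>
    refine (eq_sig (n + 1) c2 (cl.comp c1)).of_eq fun p => ?_
    exact (Part.mem_some_iff).symm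
  | right =>
    refine (eq_sig (n + 1) c2 (cr.comp c1)).of_eq fun p => ?_
    exact (Part.mem_some_iff).symm
  | oracle g hg => exact hO g hg
  | @pair f h _ _ ihf ihh =>
    have h1 := ihf.comp (f := fun p : ℕ × ℕ => (p.1, p.2.unpair.1)) (c1.pair (cl.comp c2))
    have h2 := ihh.comp (f := fun p : ℕ × ℕ => (p.1, p.2.unpair.2)) (c1.pair (cr.comp c2))
    refine (h1.and h2).of_eq fun p => ?_
    simp only [Seq.seq, Part.mem_bind_iff, Part.map_eq_map, Part.mem_map_iff]
    constructor
    · rintro ⟨a1, a2⟩
      exact ⟨_, ⟨_, a1, rfl⟩, _, a2, Nat.pair_unpair _⟩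
    · rintro ⟨_, ⟨x, hx, rfl⟩, y, hy, he⟩
      rw [← he]
      simp only [Nat.unpair_pair]
      exact ⟨hx, hy⟩
  | @comp f h _ _ ihf ihh =>
    have h1 := ihh.comp (f := fun q : (ℕ × ℕ) × ℕ => (q.1.1, q.2))
      ((c1.comp Computable.fst).pair Computable.snd)
    have h2 := ihf.comp (f := fun q : (ℕ × ℕ) × ℕ => (q.2, q.1.2))
      (Computable.snd.pair (c2.comp Computable.fst))
    refine (Sig.ex (h1.and h2)).of_eq fun p => ?_
    simp only [Part.bind_eq_bind, Part.mem_bind_iff]
  | @prec f h _ _ ihf ihh =>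
    -- a list of values
    have cg : Computable (fun q : (ℕ × ℕ) × List ℕ => q.2) := Computable.snd
    have cn : Computable (fun q : (ℕ × ℕ) × List ℕ => q.1.1.unpair.2) :=
      cr.comp (c1.comp Computable.fst)
    have ca : Computable (fun q : (ℕ × ℕ) × List ℕ => q.1.1.unpair.1) :=
      cl.comp (c1.comp Computable.fst)
    have cget : ∀ {γ : Type} [Primcodable γ] {l : γ → List ℕ} {k : γ → ℕ}, Computable l →
        Computable k → Computable (fun q => (l q).getD (k q) 0) := by
      intro γ _ l k hl hk
      exact (Primrec.list_getD 0).to_comp.comp hl hk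
    have h1 := ihf.comp (f := fun q : (ℕ × ℕ) × List ℕ => (q.1.1.unpair.1, q.2.getD 0 0))
      (ca.pair (cget cg (Computable.const 0)))
    have h2 := eq_sig (n + 1) (cget cg cn) (c2.comp Computable.fst)
    have h3 := ihh.comp (f := fun z : ((ℕ × ℕ) × List ℕ) × ℕ =>
        (Nat.pair z.1.1.1.unpair.1 (Nat.pair z.2 (z.1.2.getD z.2 0)), z.1.2.getD (z.2 + 1) 0))
      ((cpair.comp ((ca.comp Computable.fst).pair (cpair.comp (Computable.snd.pair
        (cget (cg.comp Computable.fst) Computable.snd))))).pair
        (cget (cg.comp Computable.fst) (Computable.succ.comp Computable.snd)))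
    have h4 := Sig.ball_lt h3 cn
    refine (Sig.ex ((h1.and h4).and h2)).of_eq fun p => ?_
    obtain ⟨p1, m⟩ := p
    obtain ⟨a, k, rfl⟩ : ∃ a k, p1 = Nat.pair a k := ⟨_, _, (Nat.pair_unpair p1).symm⟩
    simp only [Nat.unpair_pair]
    have key : ∀ (k m : ℕ), (∃ l : List ℕ, (l.getD 0 0 ∈ f a ∧ ∀ i < k,
        l.getD (i + 1) 0 ∈ h (Nat.pair a (Nat.pair i (l.getD i 0)))) ∧ l.getD k 0 = m) ↔
        m ∈ (Nat.rec (motive := fun _ => Part ℕ) (f a) (fun y IH => IH.bind fun i =>
          h (Nat.pair a (Nat.pair y i))) k) := by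
      intro k
      induction k with
      | zero =>
        intro m
        constructor
        · rintro ⟨l, ⟨h0, -⟩, hm⟩
          rw [hm] at h0
          exact h0
        · intro hm
          exact ⟨[m], ⟨by simpa using hm, fun i hi => absurd hi (Nat.not_lt_zero i)⟩, rfl⟩
      | succ k ih =>
        intro m
        show _ ↔ m ∈ Part.bind _ _
        rw [Part.mem_bind_iff]
        constructor
        · rintro ⟨l, ⟨h0, hi⟩, hm⟩
          refine ⟨l.getD k 0, (ih _).1 ⟨l, ⟨h0, fun i hik => hi i (by omega)⟩, rfl⟩, ?_⟩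
          have := hi k (by omega)
          rw [hm] at this
          exact this
        · rintro ⟨y, hy, hm⟩
          obtain ⟨l, ⟨h0, hi⟩, hl⟩ := (ih y).2 hy
          have hget : ∀ i ≤ k, (((List.range (k + 1)).map (fun i => l.getD i 0)) ++ [m]).getD i 0 =
              l.getD i 0 := by
            intro i hik
            rw [List.getD_append _ _ _ _ (by simp; omega)]
            rw [List.getD_eq_getElem _ _ (by simp; omega)]
            simp
          have hlast : (((List.range (k + 1)).map (fun i => l.getD i 0)) ++ [m]).getD (k + 1) 0 =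
              m := by
            rw [List.getD_append_right _ _ _ _ (by simp)]
            simp
          refine ⟨((List.range (k + 1)).map (fun i => l.getD i 0)) ++ [m], ⟨?_, ?_⟩, hlast⟩
          · rw [hget 0 (by omega)]
            exact h0
          · intro i hik
            rw [hget i (by omega)]
            rcases Nat.lt_or_ge i k with h5 | h5
            · rw [hget (i + 1) (by omega)]
              exact hi i h5
            · have h6 : i = k := by omega
              subst h6
              rw [hlast, hl]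
              exact hm
    exact key k m
  | @rfind f _ ihf =>
    have h1 := ihf.comp (f := fun p : ℕ × ℕ => (Nat.pair p.1 p.2, 0))
      (cpair.pair (Computable.const 0))
    have h2 : Sig (n + 1) (fun z : ((ℕ × ℕ) × ℕ) × ℕ =>
        z.2 ∈ f (Nat.pair z.1.1.1 z.1.2) ∧ ¬ z.2 = 0) := by
      refine Sig.and (ihf.comp (f := fun z : ((ℕ × ℕ) × ℕ) × ℕ =>
        (Nat.pair z.1.1.1 z.1.2, z.2)) ?_) ?_
      · exact (cpair.comp ((c1.comp (Computable.fst.comp Computable.fst)).pair
          (Computable.snd.comp Computable.fst))).pair Computable.snd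
      · apply Sig.of_comp
        exact (cp_of_prim (Primrec.eq.comp (Primrec.snd (α := ((ℕ × ℕ) × ℕ)) (β := ℕ))
          (Primrec.const 0))).not
    have h3 := Sig.ball_lt (Sig.ex h2) c2
    refine (h1.and h3).of_eq fun p => ?_
    rw [Nat.mem_rfind]
    refine and_congr ?_ ?_
    · simp only [Part.map_eq_map, Part.mem_map_iff]
      constructor
      · intro h5
        exact ⟨0, h5, by simp⟩
      · rintro ⟨m, hm, h5⟩
        have : m = 0 := by simpa using h5
        subst this
        exact hm
    · constructor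
      · intro h5 m hm
        obtain ⟨b, hb, hb0⟩ := h5 m hm
        simp only [Part.map_eq_map, Part.mem_map_iff]
        exact ⟨b, hb, by simpa using hb0⟩
      · intro h5 m hm
        have h6 := h5 hm
        simp only [Part.map_eq_map, Part.mem_map_iff] at h6
        obtain ⟨b, hb, hb0⟩ := h6
        exact ⟨b, hb, by simpa using hb0⟩

theorem chi_graph {n : ℕ} {A : ℕ → Prop} (h1 : Sig n A) (h2 : Sig n (fun x => ¬ A x)) :
    Sig n (fun p : ℕ × ℕ => p.2 ∈ chi A p.1) := by
  have a1 := (eq_sig n (Computable.snd (α := ℕ) (β := ℕ)) (Computable.const 1)).and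
    (h1.comp (Computable.fst (α := ℕ) (β := ℕ)))
  have a2 := (eq_sig n (Computable.snd (α := ℕ) (β := ℕ)) (Computable.const 0)).and
    (h2.comp (Computable.fst (α := ℕ) (β := ℕ)))
  refine (a1.or a2).of_eq fun p => ?_
  unfold chi
  rw [Part.mem_some_iff]
  by_cases hA : A p.1
  · simp [hA]
  · simp [hA]

theorem ce_sig {n : ℕ} {A B : ℕ → Prop} (h1 : Sig (n + 1) A) (h2 : Sig (n + 1) (fun x => ¬ A x))
    (h : CeIn A B) : Sig (n + 1) B := by
  obtain ⟨f, hf, hB⟩ := h
  have h3 := recIn_graph (n := n) (O := {chi A}) (by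
    intro g hg
    rw [Set.mem_singleton_iff.1 hg]
    exact chi_graph h1 h2) (RecursiveIn.iff_nat.1 hf)
  refine (Sig.ex_nat h3).of_eq fun x => ?_
  rw [hB x, Part.dom_iff_mem]

theorem comp_sig {n : ℕ} {α : Type} [Primcodable α] {A : ℕ → Prop} {P : α → Prop}
    (h1 : Sig (n + 1) A) (h2 : Sig (n + 1) (fun x => ¬ A x)) (h : CompIn A P) :
    Sig (n + 1) P := by
  obtain ⟨g, hg, hP⟩ := h
  have h3 := recIn_graph (n := n) (O := {chi A}) (by
    intro g hg
    rw [Set.mem_singleton_iff.1 hg]
    exact chi_graph h1 h2) hg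
  refine (h3.comp (f := fun a : α => (Encodable.encode a, Encodable.encode true))
    (Computable.encode.pair (Computable.const _))).of_eq fun a => ?_
  rw [hP a]
  simp only [Encodable.encodek, Part.coe_some, Part.bind_some, Part.map_some, Part.mem_some_iff,
    Encodable.encode_inj]
  exact eq_comm

/-- everything computable relative to a set that is computably enumerable relative to a computably enumerable
set is `Σ⁰₃` -/
theorem sig3_of_compIn {α : Type} [Primcodable α] {A B : ℕ → Prop} {P : α → Prop}
    (hA : CeIn (fun _ => False) A) (hB : CeIn A B) (h : CompIn B P) : Sig 3 P := by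
  have h0 : ComputablePred (fun _ : ℕ => False) := cp_of_prim (by
    refine (Primrec.eq.comp (Primrec.const (0 : ℕ)) (Primrec.const 1)).of_eq ?_
    intro a
    simp)
  have hf : Sig 1 (fun _ : ℕ => False) := Sig.of_comp h0
  have ht : Sig 1 (fun _ : ℕ => ¬ False) := Sig.of_comp h0.not
  have sA : Sig 1 A := ce_sig hf ht hA
  have sB : Sig 2 B := ce_sig sA.up sA.not_up hB
  exact comp_sig sB.up sB.not_up h

end Pool.Agent.MP_fd2900_lc
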