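import Pool.Agent.Lib.MP_fd2900_lc.Z.Obs
import Pool.Agent.Lib.MP_fd2900_lc.Z.Orc

/-! the obstruction for diagrams computable in the second jump, with universes that are subsets of `ω` -/

namespace FdZ

open FirstOrder FirstOrder.Language Pool.Agent.MP_fd2900_lc

section
variable {D : ℕ × List ℕ → Prop} {S : ℕ → Prop} {N : Type} [(Lg arA).Structure N]

/-- no elementary extension with a new element has a copy with a `Σ⁰₃` universe and diagram -/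
theorem obs_no_copyS (h : ObsData D S) (hS : ¬ Sig4 (fun j => ¬ S j)) (f : Univ D ↪ₑ[Lg arA] N)
    {b : N} (hb : ∀ a, f a ≠ b) (U : ℕ → Prop) (D' : ℕ × List ℕ → Prop) (hU : Sig 3 U)
    (hD' : Sig 3 D') : IsEmpty (UnivS U D' ≃[Lg arA] N) := by
  refine ⟨fun ι => hS (sig4_of_sig ?_)⟩
  obtain ⟨e, he⟩ := obs_read h f hb
  obtain ⟨b', hιb⟩ := ι.surjective b
  obtain ⟨e', hιe⟩ := ι.surjective e
  subst hιb
  subst hιe
  obtain ⟨b₀, hb₀⟩ : ∃ b₀ : ℕ, b₀ = b'.1 := ⟨_, rfl⟩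
  obtain ⟨e₀, he₀⟩ : ∃ e₀ : ℕ, e₀ = e'.1 := ⟨_, rfl⟩
  have hinj : ∀ x y : UnivS U D', ι x ≠ ι y ↔ x.1 ≠ y.1 := by
    intro x y
    constructor
    · intro hxy hh
      exact hxy (congrArg ι (Subtype.ext hh))
    · intro hxy hh
      exact hxy (congrArg Subtype.val (ι.injective hh))
  have hQN : ∀ (j : ℕ) (c u : UnivS U D'), QN (3 * j) (arA_D j) (ι b') (ι e') (ι c) (ι u) ↔
      ((b₀ ≠ e₀ ∧ b₀ ≠ c.1 ∧ b₀ ≠ u.1 ∧ e₀ ≠ c.1 ∧ e₀ ≠ u.1 ∧ c.1 ≠ u.1) ∧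
        ∀ w : ℕ, ¬ (U w ∧ D' (3 * j, [b₀, e₀, c.1, u.1, w]))) := by
    intro j c u
    unfold QN
    rw [nodup4, hinj, hinj, hinj, hinj, hinj, hinj, ← hb₀, ← he₀]
    refine and_congr Iff.rfl ?_
    constructor
    · rintro hw w ⟨hUw, hh⟩
      refine hw (ι (⟨w, hUw⟩ : UnivS U D')) ((RD_map ι _ _ _ _ _ _ _).2 ?_)
      subst hb₀
      subst he₀
      exact hh
    · intro hw w hh
      obtain ⟨w', rfl⟩ := ι.surjective w
      refine hw w'.1 ⟨w'.2, ?_⟩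
      have h2 := (RD_map ι _ _ _ _ _ _ _).1 hh
      subst hb₀
      subst he₀
      exact h2
  have hRG : ∀ (j i : ℕ) (c : UnivS U D'),
      RG (3 * Nat.pair j i + 1) (arA_G _) (ι b') (ι e') (ι c) ↔
        D' (3 * Nat.pair j i + 1, [b₀, e₀, c.1]) := by
    intro j i c
    subst hb₀
    subst he₀
    exact RG_map ι _ _ _ _ _
  have he2 : ∀ j, ¬ S j ↔ ∃ c u : ℕ, (U c ∧ U u) ∧
      ((b₀ ≠ e₀ ∧ b₀ ≠ c ∧ b₀ ≠ u ∧ e₀ ≠ c ∧ e₀ ≠ u ∧ c ≠ u) ∧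
        ∀ w : ℕ, ¬ (U w ∧ D' (3 * j, [b₀, e₀, c, u, w]))) ∧
      ∀ i, ¬ D' (3 * Nat.pair j i + 1, [b₀, e₀, c]) := by
    intro j
    rw [he j]
    constructor
    · rintro ⟨c, u, h1, h2⟩
      obtain ⟨c', rfl⟩ := ι.surjective c
      obtain ⟨u', rfl⟩ := ι.surjective u
      exact ⟨c'.1, u'.1, ⟨c'.2, u'.2⟩, (hQN j c' u').1 h1, fun i hh => h2 i ((hRG j i c').2 hh)⟩
    · rintro ⟨c, u, ⟨hc, hu⟩, h1, h2⟩
      exact ⟨ι (⟨c, hc⟩ : UnivS U D'), ι (⟨u, hu⟩ : UnivS U D'),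
        (hQN j ⟨c, hc⟩ ⟨u, hu⟩).2 h1, fun i hh => h2 i ((hRG j i ⟨c, hc⟩).1 hh)⟩
  -- the predicate inside
  have hX : Sig 3 (fun q : (ℕ × (ℕ × ℕ)) × (ℕ × ℕ) =>
      ((b₀ = e₀ ∨ b₀ = q.1.2.1 ∨ b₀ = q.1.2.2 ∨ e₀ = q.1.2.1 ∨ e₀ = q.1.2.2 ∨
        q.1.2.1 = q.1.2.2) ∨
        (U q.2.1 ∧ D' (3 * q.1.1, [b₀, e₀, q.1.2.1, q.1.2.2, q.2.1]))) ∨
        D' (3 * Nat.pair q.1.1 q.2.2 + 1, [b₀, e₀, q.1.2.1])) := by
    have pj : Primrec (fun q : (ℕ × (ℕ × ℕ)) × (ℕ × ℕ) => q.1.1) := Primrec.fst.comp Primrec.fst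
    have pc : Primrec (fun q : (ℕ × (ℕ × ℕ)) × (ℕ × ℕ) => q.1.2.1) :=
      Primrec.fst.comp (Primrec.snd.comp Primrec.fst)
    have pu : Primrec (fun q : (ℕ × (ℕ × ℕ)) × (ℕ × ℕ) => q.1.2.2) :=
      Primrec.snd.comp (Primrec.snd.comp Primrec.fst)
    have pw : Primrec (fun q : (ℕ × (ℕ × ℕ)) × (ℕ × ℕ) => q.2.1) := Primrec.fst.comp Primrec.snd
    have pi : Primrec (fun q : (ℕ × (ℕ × ℕ)) × (ℕ × ℕ) => q.2.2) := Primrec.snd.comp Primrec.snd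
    refine (Sig.or (Sig.or ?_ (Sig.and (hU.comp pw.to_comp) (hD'.comp ?_))) (hD'.comp ?_))
    · apply Sig.of_comp
      have h1 : PrimrecPred (fun q : (ℕ × (ℕ × ℕ)) × (ℕ × ℕ) => b₀ = e₀ ∨ b₀ = q.1.2.1 ∨
          b₀ = q.1.2.2 ∨ e₀ = q.1.2.1 ∨ e₀ = q.1.2.2 ∨ q.1.2.1 = q.1.2.2) :=
        (Primrec.eq.comp (Primrec.const b₀) (Primrec.const e₀)).or
          ((Primrec.eq.comp (Primrec.const b₀) pc).or
            ((Primrec.eq.comp (Primrec.const b₀) pu).or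
              ((Primrec.eq.comp (Primrec.const e₀) pc).or
                ((Primrec.eq.comp (Primrec.const e₀) pu).or (Primrec.eq.comp pc pu)))))
      obtain ⟨hd, hp⟩ := h1
      exact ⟨hd, hp.to_comp⟩
    · apply Primrec.to_comp
      refine Primrec.pair (Primrec.nat_mul.comp (Primrec.const 3) pj) ?_
      exact Primrec.list_cons.comp (Primrec.const b₀) (Primrec.list_cons.comp (Primrec.const e₀)
        (Primrec.list_cons.comp pc (Primrec.list_cons.comp pu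
          (Primrec.list_cons.comp pw (Primrec.const [])))))
    · apply Primrec.to_comp
      refine Primrec.pair (Primrec.succ.comp
        (Primrec.nat_mul.comp (Primrec.const 3) (Primrec₂.natPair.comp pj pi))) ?_
      exact Primrec.list_cons.comp (Primrec.const b₀) (Primrec.list_cons.comp (Primrec.const e₀)
        (Primrec.list_cons.comp pc (Primrec.const [])))
  have hUU : Sig 4 (fun q : ℕ × (ℕ × ℕ) => U q.2.1 ∧ U q.2.2) := by
    have pc : Primrec (fun q : ℕ × (ℕ × ℕ) => q.2.1) := Primrec.fst.comp Primrec.snd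
    have pu : Primrec (fun q : ℕ × (ℕ × ℕ) => q.2.2) := Primrec.snd.comp Primrec.snd
    exact ((hU.comp pc.to_comp).and (hU.comp pu.to_comp)).up
  have h4 := hUU.and (Sig.ex (n := 2) hX).not_up
  have h5 := Sig.ex (n := 3) h4
  refine h5.of_eq fun j => ?_
  rw [he2 j]
  constructor
  · rintro ⟨⟨c, u⟩, hUcu, hcu⟩
    refine ⟨c, u, hUcu, ⟨?_, ?_⟩, ?_⟩
    · by_contra hne
      refine hcu ⟨(0, 0), Or.inl (Or.inl ?_)⟩
      by_contra h7
      apply hne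
      push Not at h7
      exact h7
    · intro w hw
      exact hcu ⟨(w, 0), Or.inl (Or.inr hw)⟩
    · intro i hi
      exact hcu ⟨(0, i), Or.inr hi⟩
  · rintro ⟨c, u, hUcu, ⟨hne, hw⟩, hG⟩
    refine ⟨(c, u), hUcu, ?_⟩
    rintro ⟨⟨w, i⟩, hwi⟩
    rcases hwi with (hwi | hwi) | hwi
    · rcases hwi with h1 | h1 | h1 | h1 | h1 | h1
      · exact hne.1 h1
      · exact hne.2.1 h1
      · exact hne.2.2.1 h1
      · exact hne.2.2.2.1 h1
      · exact hne.2.2.2.2.1 h1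
      · exact hne.2.2.2.2.2 h1
    · exact hw w hwi
    · exact hG i hwi

end

/-- the obstruction, literally for `0''` -/
theorem obsLit {D : ℕ × List ℕ → Prop} {S : ℕ → Prop} (h : ObsData D S)
    (hS : ¬ Sig4 (fun j => ¬ S j)) :
    ∃ (N : Type) (_ : (Lg arA).Structure N) (_ : Nonempty N), Countable N ∧
      N ⊨ (Lg arA).completeTheory (Univ D) ∧
      ∀ A B : ℕ → Prop, CeIn (fun _ => False) A → CeIn A B →
        ∀ (U : ℕ → Prop) (D' : ℕ × List ℕ → Prop), CompIn B U → CompIn B D' →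
          IsEmpty (UnivS U D' ≃[Lg arA] N) := by
  obtain ⟨N, hN, hc, f, b, hb⟩ := proper_ext (Lg arA) (Univ D)
  refine ⟨N, hN, ⟨b⟩, hc, ?_, fun A B hA hB U D' hU hD' => obs_no_copyS h hS f hb U D'
    (sig3_of_compIn hA hB hU) (sig3_of_compIn hA hB hD')⟩
  have h1 := f.elementarilyEquivalent
  exact (f.theory_model_iff ((Lg arA).completeTheory (Univ D))).1 inferInstance

end FdZ
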