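import Pool.Agent.Lib.MP_fd2900_lc.Z.Supply

/-! one new point with one edge on the whole base -/

namespace FdZ

variable {lab : Lb → Edge → Prop}

theorem code_one (p : ℕ) (ℓ : Lb) : Code p 1 [(ℓ, List.range (p + 1))] := by
  constructor
  · exact Nat.one_pos
  · rfl
  · intro e he
    rw [List.mem_singleton] at he
    rw [he]
    exact List.nodup_range
  · intro e he k hk
    rw [List.mem_singleton] at he
    rw [he] at hk
    exact List.mem_range.1 hk
  · intro e he
    rw [List.mem_singleton] at he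
    refine ⟨p, ?_, le_refl p⟩
    rw [he]
    exact List.mem_range.2 (Nat.lt_succ_self p)
  · intro k hk
    exact ⟨_, List.mem_singleton.2 rfl, List.mem_range.2 (Nat.lt_succ_of_lt hk)⟩
  · intro P hne hss
    exfalso
    obtain ⟨a, ha⟩ := hne
    have h1 := Finset.mem_Ico.1 (hss.1 ha)
    have h2 : a = p := by omega
    apply hss.2
    intro b hb
    have h3 := Finset.mem_Ico.1 hb
    have h4 : b = a := by omega
    rw [h4]
    exact ha

theorem inst_one (β : List ℕ) (w : ℕ) : inst (β ++ [w]) (List.range (β.length + 1)) = β ++ [w] := by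
  unfold inst
  apply List.ext_getElem
  · simp
  · intro n h1 h2
    simp only [List.getElem_map, List.getElem_range]
    exact List.getD_eq_getElem _ _ h2

theorem real_one {ℓ : Lb} {β : List ℕ} {w : ℕ} : Real lab [(ℓ, List.range (β.length + 1))] β [w] ↔
    (β ++ [w]).Nodup ∧ ∃ e, lab ℓ e ∧ e.2 = β ++ [w] := by
  unfold Real
  constructor
  · rintro ⟨h1, es, h2, h3⟩
    refine ⟨h1, ?_⟩
    cases h3 with
    | cons h4 h5 =>
      exact ⟨_, h4.1, h4.2.trans (inst_one β w)⟩
  · rintro ⟨h1, e, h2, h3⟩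
    refine ⟨h1, [e], List.nodup_singleton e, ?_⟩
    refine List.Forall₂.cons ⟨h2, ?_⟩ List.Forall₂.nil
    rw [h3]
    exact (inst_one β w).symm

theorem uniq_one (hv : ¬ Viol lab) {ℓ : Lb} {β : List ℕ} {w w' : ℕ} {e e' : Edge} (h : lab ℓ e) (h' : lab ℓ e')
    (h2 : e.2 = β ++ [w]) (h2' : e'.2 = β ++ [w']) (hnd : (β ++ [w]).Nodup) (hnd' : (β ++ [w']).Nodup) : w = w' := by
  by_contra hne
  apply hv
  refine ⟨β.length, 1, [(ℓ, List.range (β.length + 1))], β, [[w], [w']], code_one _ _, ⟨rfl, ?_, ?_⟩, ?_⟩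
  · intro ν hν
    rcases List.mem_cons.1 hν with hν | hν
    · subst hν
      exact ⟨rfl, real_one.2 ⟨hnd, e, h, h2⟩⟩
    · rw [List.mem_singleton] at hν
      subst hν
      exact ⟨rfl, real_one.2 ⟨hnd', e', h', h2'⟩⟩
  · rw [List.pairwise_pair]
    intro a ha ha'
    rw [List.mem_singleton] at ha ha'
    exact hne (ha.symm.trans ha')
  · simp [mu]

private theorem OneA_cnt (ℓ₁ ℓ₂ ℓ₃ : Lb) (P : Finset ℕ) (hne : P.Nonempty) (hss : P ⊂ Finset.Ico 0 (0 + 3)) :
    cnt 0 [(ℓ₁, [0, 1]), (ℓ₂, [0, 1, 2]), (ℓ₃, [0, 1, 2])] P < P.card := by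
  have hall : ¬ ∀ k ∈ ([0, 1, 2] : List ℕ), k < 0 ∨ k ∈ P := by
    intro hP
    apply hss.2
    intro b hb
    have h3 := Finset.mem_Ico.1 hb
    have h4 : b ∈ ([0, 1, 2] : List ℕ) := by
      simp only [List.mem_cons, List.not_mem_nil, or_false]
      omega
    rcases hP b h4 with h5 | h5
    · exact absurd h5 (Nat.not_lt_zero _)
    · exact h5
  have h23 : decide ((∀ k ∈ ([0, 1, 2] : List ℕ), k < 0 ∨ k ∈ P) ∧ ∃ k ∈ ([0, 1, 2] : List ℕ), k ∈ P) = false :=
    decide_eq_false fun h => hall h.1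
  have hpos : 0 < P.card := Finset.card_pos.2 hne
  unfold cnt
  rw [List.filter_cons, List.filter_cons, List.filter_cons, List.filter_nil]
  simp only [h23, Bool.false_eq_true, if_false]
  by_cases h01 : (∀ k ∈ ([0, 1] : List ℕ), k < 0 ∨ k ∈ P) ∧ ∃ k ∈ ([0, 1] : List ℕ), k ∈ P
  · rw [if_pos (decide_eq_true h01)]
    have h0 : 0 ∈ P := (h01.1 0 (by simp)).resolve_left (Nat.not_lt_zero _)
    have h1 : 1 ∈ P := (h01.1 1 (by simp)).resolve_left (Nat.not_lt_zero _)
    have h2 : 1 < P.card := Finset.one_lt_card.2 ⟨0, h0, 1, h1, Nat.zero_ne_one⟩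
    simpa using h2
  · rw [if_neg (by rw [decide_eq_false h01]; exact Bool.false_ne_true)]
    simpa using hpos

/-- three points with an edge on two of them carry at most one more edge -/
theorem three_pts (hv : ¬ Viol lab) {ℓ₁ ℓ₂ ℓ₃ : Lb} {e₁ e₂ e₃ : Edge} {x y c : ℕ} (hnd : [x, y, c].Nodup)
    (h1 : lab ℓ₁ e₁) (h2 : lab ℓ₂ e₂) (h3 : lab ℓ₃ e₃) (t1 : e₁.2 = [x, y]) (t2 : e₂.2 = [x, y, c])
    (t3 : e₃.2 = [x, y, c]) : e₂ = e₃ := by
  by_contra hne
  apply hv
  refine ⟨0, 3, [(ℓ₁, [0, 1]), (ℓ₂, [0, 1, 2]), (ℓ₃, [0, 1, 2])], [], [[x, y, c]], ?_, ⟨rfl, ?_, ?_⟩, ?_⟩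
  · constructor
    · exact Nat.succ_pos 2
    · rfl
    · intro e he
      simp only [List.mem_cons, List.not_mem_nil, or_false] at he
      rcases he with rfl | rfl | rfl <;> simp
    · intro e he k hk
      simp only [List.mem_cons, List.not_mem_nil, or_false] at he
      rcases he with rfl | rfl | rfl <;>
        simp only [List.mem_cons, List.not_mem_nil, or_false] at hk <;> omega
    · intro e he
      simp only [List.mem_cons, List.not_mem_nil, or_false] at he
      rcases he with rfl | rfl | rfl <;> exact ⟨0, by simp, le_refl 0⟩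
    · intro k hk
      exact absurd hk (Nat.not_lt_zero k)
    · intro P hP hss
      exact OneA_cnt ℓ₁ ℓ₂ ℓ₃ P hP hss
  · intro ν hν
    rw [List.mem_singleton] at hν
    subst hν
    refine ⟨rfl, hnd, [e₁, e₂, e₃], ?_, ?_⟩
    · have h12 : e₁ ≠ e₂ := by
        intro h
        have h' := congrArg (fun e : Edge => e.2.length) h
        simp only [t1, t2, List.length_cons, List.length_nil] at h'
        omega
      have h13 : e₁ ≠ e₃ := by
        intro h
        have h' := congrArg (fun e : Edge => e.2.length) h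
        simp only [t1, t3, List.length_cons, List.length_nil] at h'
        omega
      simp only [List.nodup_cons, List.mem_cons, List.not_mem_nil, or_false, not_or, not_false_eq_true,
        List.nodup_nil, and_true]
      exact ⟨⟨h12, h13⟩, hne⟩
    · refine List.Forall₂.cons ⟨h1, ?_⟩ (List.Forall₂.cons ⟨h2, ?_⟩ (List.Forall₂.cons ⟨h3, ?_⟩ List.Forall₂.nil))
      · rw [t1]; rfl
      · rw [t2]; rfl
      · rw [t3]; rfl
  · exact List.pairwise_singleton _ _
  · simp [mu]

end FdZ
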