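import Pool.Agent.Lib.MP_fd2900_lc.Z.OneA
import Pool.Agent.Lib.MP_fd2900_lc.Z.CrA

namespace FdZ

private theorem OneB_new {io : ℕ → ℕ → ℕ} {E : List Edge} {V : ℕ → Prop} {n : ℕ}
    (hE : ∀ e ∈ E, ∀ v ∈ e.2, v < n) {e : Edge} {ℓ₁ : Lb} {e₁ : Edge}
    (h1 : lab io (es (E ++ [e])) V ℓ₁ e₁) (h2 : n ∈ e₁.2) : e₁ = e := by
  have h3 : e₁ ∈ E ++ [e] := h1.1
  rcases List.mem_append.1 h3 with h4 | h4
  · exact absurd (hE e₁ h4 n h2) (lt_irrefl _)
  · exact List.mem_singleton.1 h4

private theorem OneB_mem {E : List Edge} {n : ℕ} {e : Edge} {β : List ℕ} (he : e.2 = β ++ [n])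
    {e₂ : Edge} (h3 : e₂ ∈ es (E ++ [e])) (h4 : n ∉ e₂.2) : e₂ ∈ es E := by
  have h3' : e₂ ∈ E ++ [e] := h3
  rcases List.mem_append.1 h3' with h5 | h5
  · exact h5
  · rw [List.mem_singleton.1 h5, he] at h4
    exact absurd (List.mem_append_right _ (List.mem_singleton.2 rfl)) h4

private theorem OneB_old {io : ℕ → ℕ → ℕ} {E : List Edge} {V : ℕ → Prop} {n : ℕ} {e : Edge}
    {β : List ℕ} (he : e.2 = β ++ [n]) {ℓ₁ : Lb} {e₁ : Edge}
    (h1 : lab io (es (E ++ [e])) V ℓ₁ e₁) (h2 : n ∉ e₁.2) : lab io (es E) V ℓ₁ e₁ := by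
  obtain ⟨h3, h4⟩ := h1
  refine ⟨OneB_mem he h3 h2, ?_⟩
  rcases h4 with h4 | h4 | ⟨j, r, x, y, c, h5, h6, h7, h8⟩
  · exact Or.inl h4
  · exact Or.inr (Or.inl h4)
  · refine Or.inr (Or.inr ⟨j, r, x, y, c, h5, h6, OneB_mem he h7 ?_, h8⟩)
    intro h9
    apply h2
    rw [h6]
    have h10 : n ∈ [x, y] := h9
    change n ∈ [x, y, c]
    simp only [List.mem_cons, List.not_mem_nil, or_false] at h10 ⊢
    tauto

private theorem OneB_in {p q : ℕ} {pat : List Edge} (hc : Code p q pat) {β ν : List ℕ}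
    (hβ : β.length = p) (hν : ν.length = q) {pe : Edge} (hpe : pe ∈ pat) {v : ℕ}
    (hv : v ∈ inst (β ++ ν) pe.2) : v ∈ β ++ ν := by
  obtain ⟨k, hk, hkv⟩ := inst_mem.1 hv
  have h1 := hc.lt pe hpe k hk
  have h2 : k < (β ++ ν).length := by
    rw [List.length_append]
    omega
  rw [← hkv, List.getD_eq_getElem _ _ h2]
  exact List.getElem_mem _

private theorem OneB_swap {β' : List ℕ} {idx : List ℕ} {n w : ℕ} (hn : n ∉ β')
    (hlt : ∀ k ∈ idx, k < β'.length + 1) :
    inst (β' ++ [w]) idx = (inst (β' ++ [n]) idx).map fun v => if v = n then w else v := by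
  unfold inst
  rw [List.map_map]
  apply List.map_congr_left
  intro k hk
  have h1 := hlt k hk
  simp only [Function.comp_apply]
  by_cases h2 : k < β'.length
  · rw [List.getD_append _ _ _ _ h2, List.getD_append _ _ _ _ h2, List.getD_eq_getElem _ _ h2]
    rw [if_neg]
    intro h3
    exact hn (h3 ▸ List.getElem_mem h2)
  · have h3 : k = β'.length := by omega
    subst h3
    rw [List.getD_append_right _ _ _ _ le_rfl, List.getD_append_right _ _ _ _ le_rfl, Nat.sub_self]
    simp

private theorem OneB_pair {io : ℕ → ℕ → ℕ} {E : List Edge} {V : ℕ → Prop} {n : ℕ}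
    (hE : ∀ e ∈ E, ∀ v ∈ e.2, v < n)
    (hu : FUniq E) {e : Edge} {β : List ℕ} (he : e.2 = β ++ [n])
    (hb : ∀ v ∈ β, v < n) (hnd : β.Nodup) {ℓ : Lb}
    (hℓ : (ℓ.1 ≤ 2 ∧ e.1 = ℓ) ∨ (ℓ = (3, []) ∧ ∃ r, e.1 = (3, [r]) ∧ V r))
    {p' : ℕ} {pat' : List Edge} {β' : List ℕ} (hc : Code p' 1 pat') (hβ' : β'.length = p') {w : ℕ}
    (hwn : w ≠ n)
    (h1 : Real (lab io (es (E ++ [e])) V) pat' β' [n])
    (h2 : Real (lab io (es (E ++ [e])) V) pat' β' [w]) :
    ∃ w e', lab io (es E) V ℓ e' ∧ e'.2 = β ++ [w] ∧ (β ++ [w]).Nodup := by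
  have hnβ : n ∉ β := fun h => lt_irrefl _ (hb n h)
  obtain ⟨hnd1, es1, -, hF1⟩ := h1
  obtain ⟨hnd2, es2, -, hF2⟩ := h2
  have hnβ' : n ∉ β' := fun h => (List.nodup_append.1 hnd1).2.2 n h n (List.mem_singleton.2 rfl) rfl
  have hwβ' : w ∉ β' := fun h => (List.nodup_append.1 hnd2).2.2 w h w (List.mem_singleton.2 rfl) rfl
  obtain ⟨⟨ℓ', idx⟩, hpat⟩ := List.length_eq_one_iff.1 hc.len
  have hmem : (ℓ', idx) ∈ pat' := by rw [hpat]; exact List.mem_singleton.2 rfl
  have hlt : ∀ k ∈ idx, k < β'.length + 1 := by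
    intro k hk
    rw [hβ']
    exact hc.lt _ hmem k hk
  have hp : β'.length ∈ idx := by
    obtain ⟨k, hk, hpk⟩ := hc.new _ hmem
    have h3 := hlt k hk
    have h4 : k = β'.length := by omega
    rw [← h4]
    exact hk
  rw [hpat] at hF1 hF2
  obtain ⟨e1, hl1, rfl⟩ : ∃ e1, (lab io (es (E ++ [e])) V ℓ' e1 ∧ e1.2 = inst (β' ++ [n]) idx) ∧
      es1 = [e1] := by
    rcases hF1 with _ | ⟨h3, h4⟩
    cases h4
    exact ⟨_, h3, rfl⟩
  obtain ⟨e2, hl2, rfl⟩ : ∃ e2, (lab io (es (E ++ [e])) V ℓ' e2 ∧ e2.2 = inst (β' ++ [w]) idx) ∧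
      es2 = [e2] := by
    rcases hF2 with _ | ⟨h3, h4⟩
    cases h4
    exact ⟨_, h3, rfl⟩
  obtain ⟨hl1, ht1⟩ := hl1
  obtain ⟨hl2, ht2⟩ := hl2
  have hn1 : n ∈ e1.2 := by
    rw [ht1]
    refine inst_mem.2 ⟨β'.length, hp, ?_⟩
    rw [List.getD_append_right _ _ _ _ le_rfl, Nat.sub_self]
    rfl
  have hee : e1 = e := OneB_new hE hl1 hn1
  subst hee
  have hn2 : n ∉ e2.2 := by
    rw [ht2]
    intro h3
    rcases List.mem_append.1 (OneB_in hc hβ' rfl hmem h3) with h4 | h4
    · exact hnβ' h4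
    · exact hwn (List.mem_singleton.1 h4).symm
  have hold := OneB_old he hl2 hn2
  have htup : e2.2 = β ++ [w] := by
    rw [ht2, OneB_swap hnβ' hlt, ← ht1, he, List.map_append]
    congr 1
    · conv_rhs => rw [← List.map_id β]
      apply List.map_congr_left
      intro v hv
      rw [if_neg]
      · rfl
      · rintro rfl
        exact hnβ hv
    · simp
  have hwβ : w ∉ β := by
    intro h3
    have h4 : w ∈ e1.2 := by rw [he]; exact List.mem_append_left _ h3
    rw [ht1] at h4
    rcases List.mem_append.1 (OneB_in hc hβ' rfl hmem h4) with h5 | h5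
    · exact hwβ' h5
    · exact hwn (List.mem_singleton.1 h5)
  refine ⟨w, e2, ?_, htup, ?_⟩
  · obtain ⟨hE2, hlab2⟩ := hold
    refine ⟨hE2, ?_⟩
    rcases hl1.2 with ⟨h3, h4⟩ | ⟨h3, r, h4, h5⟩ | ⟨j, r, x, y, c, h3, h4, h5, h6⟩
    · rcases hℓ with ⟨h7, h8⟩ | ⟨h7, r, h8, h9⟩
      · have h9 : ℓ' = ℓ := h4.symm.trans h8
        subst h9
        exact hlab2
      · exfalso
        rw [← h4, h8] at h3
        exact absurd h3 (by norm_num)
    · rcases hℓ with ⟨h7, h8⟩ | ⟨h7, -⟩
      · exfalso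
        rw [← h8, h4] at h7
        exact absurd h7 (by norm_num)
      · have h8 : ℓ = ℓ' := h7.trans h3.symm
        rw [h8]
        exact hlab2
    · -- the label `C_j`
      rcases hlab2 with ⟨h7, -⟩ | ⟨h7, -⟩ | ⟨j', r', x', y', c', h7, h8, h9, h10⟩
      · rw [h3] at h7
        exact absurd h7 (by norm_num)
      · rw [h3] at h7
        simp at h7
      · have hj : j' = j := by
          rw [h3] at h7
          simpa using h7.symm
        subst hj
        have ht : e1.2 = [x, y, c] := by rw [h4]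
        have ht' : e2.2 = [x', y', c'] := by rw [h8]
        rw [he] at ht
        rw [htup] at ht'
        have hxy : β = [x, y] := by
          have h11 : β ++ [n] = [x, y] ++ [c] := by rw [ht]; rfl
          exact (List.append_inj' h11 rfl).1
        have hxy' : β = [x', y'] := by
          have h11 : β ++ [w] = [x', y'] ++ [c'] := by rw [ht']; rfl
          exact (List.append_inj' h11 rfl).1
        rw [hxy] at hxy'
        have hx : x = x' ∧ y = y' := by simpa using hxy'
        obtain ⟨rfl, rfl⟩ := hx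
        have hFE : ((3, [r]), [x, y]) ∈ E := by
          have h11 : ((3, [r]), [x, y]) ∈ E ++ [e1] := h5
          rcases List.mem_append.1 h11 with h12 | h12
          · exact h12
          · exfalso
            have h13 := List.mem_singleton.1 h12
            rw [h4] at h13
            simp at h13
        have hr : r = r' := hu r r' x y hFE h9
        subst hr
        rcases hℓ with ⟨h11, h12⟩ | ⟨h11, r₂, h12, -⟩
        · refine Or.inl ⟨h11, ?_⟩
          rw [← h12, h4, h8]
        · exfalso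
          rw [h4] at h12
          simp at h12
  · rw [List.nodup_append]
    refine ⟨hnd, List.nodup_singleton _, ?_⟩
    intro a ha b hb' hab
    rw [List.mem_singleton.1 hb'] at hab
    exact hwβ (hab ▸ ha)

/-- adding one new point with one edge: a violation arises only if the realization exists already -/
theorem one_add {io : ℕ → ℕ → ℕ} {E : List Edge} {V : ℕ → Prop} {n : ℕ} (hE : ∀ e ∈ E, ∀ v ∈ e.2, v < n)
    (hu : FUniq E) (hnv : ¬ Viol (lab io (es E) V)) {e : Edge} {β : List ℕ} (he : e.2 = β ++ [n])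
    (hb : ∀ v ∈ β, v < n) (hnd : β.Nodup) {ℓ : Lb}
    (hℓ : (ℓ.1 ≤ 2 ∧ e.1 = ℓ) ∨ (ℓ = (3, []) ∧ ∃ r, e.1 = (3, [r]) ∧ V r))
    (hV : Viol (lab io (es (E ++ [e])) V)) :
    ∃ w e', lab io (es E) V ℓ e' ∧ e'.2 = β ++ [w] ∧ (β ++ [w]).Nodup := by
  classical
  obtain ⟨p', q', pat', β', νs, hc, ⟨hβ', hν, hpw⟩, hlen⟩ := hV
  by_cases hnβ' : n ∈ β'
  · exfalso
    have hmu : 1 ≤ mu p' q' := by
      unfold mu
      split_ifs
      · exact le_rfl
      · rw [← hβ']
        exact List.length_pos_of_mem hnβ'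
    have huse : ∀ ν ∈ νs, ImgE (lab io (es (E ++ [e])) V) pat' β' ν e := by
      intro ν hνm
      obtain ⟨e1, himg, hn1⟩ := base_edge hc hβ' (hν ν hνm).2 hnβ'
      obtain ⟨pe, hpe, hl, ht⟩ := himg
      have h1 : e1 = e := OneB_new hE hl hn1
      subst h1
      exact ⟨pe, hpe, hl, ht⟩
    rcases νs with _ | ⟨ν1, _ | ⟨ν2, νs⟩⟩
    · simp at hlen
    · simp only [List.length_cons, List.length_nil] at hlen
      omega
    · have hm1 : ν1 ∈ ν1 :: ν2 :: νs := List.mem_cons_self
      have hm2 : ν2 ∈ ν1 :: ν2 :: νs := List.mem_cons_of_mem _ List.mem_cons_self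
      have hdj : List.Disjoint ν1 ν2 := (List.pairwise_cons.1 hpw).1 ν2 List.mem_cons_self
      obtain ⟨-, v, hv, hv1⟩ := img_sub hc hβ' (hν ν1 hm1).1 (huse ν1 hm1)
      obtain ⟨hall, -⟩ := img_sub hc hβ' (hν ν2 hm2).1 (huse ν2 hm2)
      rcases hall v hv with h1 | h1
      · exact (List.nodup_append.1 (hν ν1 hm1).2.1).2.2 v h1 v hv1 rfl
      · exact hdj hv1 h1
  · by_cases hnν : ∃ ν ∈ νs, n ∈ ν
    · obtain ⟨ν, hνm, hn⟩ := hnν
      by_cases hq : q' = 1
      · subst hq
        have hlen2 : νs.length = 2 := by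
          rw [hlen]
          unfold mu
          rw [if_pos rfl]
        obtain ⟨ν1, ν2, rfl⟩ := List.length_eq_two.1 hlen2
        have hm1 : ν1 ∈ [ν1, ν2] := List.mem_cons_self
        have hm2 : ν2 ∈ [ν1, ν2] := List.mem_cons_of_mem _ List.mem_cons_self
        have hdj : List.Disjoint ν1 ν2 := (List.pairwise_cons.1 hpw).1 ν2 List.mem_cons_self
        obtain ⟨a1, ha1⟩ := List.length_eq_one_iff.1 (hν ν1 hm1).1
        obtain ⟨a2, ha2⟩ := List.length_eq_one_iff.1 (hν ν2 hm2).1
        have hR1 := (hν ν1 hm1).2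
        have hR2 := (hν ν2 hm2).2
        rw [ha1] at hR1
        rw [ha2] at hR2
        have hne : a1 ≠ a2 := by
          intro h1
          rw [ha1, ha2, h1] at hdj
          exact hdj (List.mem_singleton.2 rfl) (List.mem_singleton.2 rfl)
        have hcase : a1 = n ∨ a2 = n := by
          have h1 : ν = ν1 ∨ ν = ν2 := by
            simpa using hνm
          rcases h1 with h1 | h1
          · left
            rw [h1, ha1] at hn
            exact (List.mem_singleton.1 hn).symm
          · right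
            rw [h1, ha2] at hn
            exact (List.mem_singleton.1 hn).symm
        rcases hcase with h1 | h1
        · subst h1
          exact OneB_pair hE hu he hb hnd hℓ hc hβ' hne.symm hR1 hR2
        · subst h1
          exact OneB_pair hE hu he hb hnd hℓ hc hβ' hne hR2 hR1
      · exfalso
        have hνl := (hν ν hνm).1
        have hR := (hν ν hνm).2
        have hνnd : ν.Nodup := (List.nodup_append.1 hR.1).2.1
        obtain ⟨X, hX⟩ : ∃ X : Set ℕ, ∀ v, v ∈ X ↔ v ≠ n := ⟨{v | v ≠ n}, fun v => Iff.rfl⟩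
        have hex : ∃ v ∈ ν, v ∈ X := by
          by_contra hcon
          push Not at hcon
          have h1 : ∀ v ∈ ν, v = n := by
            intro v hv
            by_contra h2
            exact hcon v hv ((hX v).2 h2)
          have h2 : ν = List.replicate ν.length n := List.eq_replicate_iff.2 ⟨rfl, h1⟩
          rw [h2] at hνnd
          have h3 := List.nodup_replicate.1 hνnd
          have h4 := hc.qpos
          omega
        have hnX : n ∉ X := fun h => (hX n).1 h rfl
        obtain ⟨L, hL1, hL2⟩ := out_edges hc hβ' hνl hR X hex ⟨n, hn, hnX⟩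
        have h1 : L ⊆ {e} := by
          intro e1 he1
          obtain ⟨⟨pe, hpe, hl, ht⟩, v, hv, -, hvn⟩ := hL2 e1 he1
          have h2 : v = n := by
            by_contra h3
            exact hvn ((hX v).2 h3)
          rw [h2] at hv
          exact Finset.mem_singleton.2 (OneB_new hE hl hv)
        have h2 := Finset.card_le_card h1
        rw [Finset.card_singleton] at h2
        have h3 : 1 < L.card := by
          refine lt_of_le_of_lt ?_ hL1
          apply Nat.succ_le_of_lt
          apply Finset.card_pos.2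
          refine ⟨n, ?_⟩
          rw [Finset.mem_filter]
          exact ⟨List.mem_toFinset.2 hn, hnX⟩
        omega
    · exfalso
      push Not at hnν
      apply hnv
      refine ⟨p', q', pat', β', νs, hc, ⟨hβ', fun ν hνm => ⟨(hν ν hνm).1, ?_⟩, hpw⟩, hlen⟩
      obtain ⟨hnd1, es1, hes1, hF1⟩ := (hν ν hνm).2
      refine ⟨hnd1, es1, hes1, ?_⟩
      have key : ∀ (l₁ : List Edge) (l₂ : List Edge), (∀ pe ∈ l₁, pe ∈ pat') →
          List.Forall₂ (fun pe e' => lab io (es (E ++ [e])) V pe.1 e' ∧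
            e'.2 = inst (β' ++ ν) pe.2) l₁ l₂ →
          List.Forall₂ (fun pe e' => lab io (es E) V pe.1 e' ∧
            e'.2 = inst (β' ++ ν) pe.2) l₁ l₂ := by
        intro l₁ l₂ hsub hF
        induction hF with
        | nil => exact List.Forall₂.nil
        | @cons a b t₁ t₂ hab _ ih =>
          refine List.Forall₂.cons ⟨OneB_old he hab.1 ?_, hab.2⟩
            (ih fun pe hpe => hsub pe (List.mem_cons_of_mem _ hpe))
          intro h1
          rw [hab.2] at h1
          rcases List.mem_append.1 (OneB_in hc hβ' (hν ν hνm).1 (hsub a List.mem_cons_self) h1)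
            with h2 | h2
          · exact hnβ' h2
          · exact hnν ν hνm h2
      exact key pat' es1 (fun _ h => h) hF1

end FdZ
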