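import Pool.Agent.Lib.MP_fd2900_lc.Z.Limit

namespace FdZ

variable {G : Guide}

private theorem OneC_dd_ee {s : ℕ} {e : Edge} (h : e ∈ DD G s) : e ∈ EE G s := (mem_DD.1 h).1

private theorem OneC_lt {s : ℕ} {e : Edge} (h : e ∈ DD G s) {v : ℕ} (hv : v ∈ e.2) : v < nn G s :=
  (shape s e (OneC_dd_ee h)).1 v hv

private theorem OneC_F_lt {s r : ℕ} {t : List ℕ} (h : ((3, [r]), t) ∈ EE G s) : r < s := by
  obtain ⟨_, _, h1 | h1 | h1 | h1⟩ := shape s _ h
  · obtain ⟨j, h2, _⟩ := h1
    simp at h2
  · obtain ⟨j, i, h2, _⟩ := h1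
    simp at h2
  · obtain ⟨j, h2, _⟩ := h1
    simp at h2
  · obtain ⟨t', h2, h3, _⟩ := h1
    simp only [Prod.mk.injEq, List.cons.injEq, and_true, true_and] at h3
    omega

theorem legal_dd (s : ℕ) : Legal G.io (es (DD G s)) (vw G.le s) := by
  constructor
  · intro j t w h1 h2
    have h1' : ((2, [j]), t) ∈ DD G s := h1
    have h2' : ((0, [j]), t ++ [w]) ∈ DD G s := h2
    exact legalD s j t w (OneC_dd_ee h1') (OneC_dd_ee h2')
  · intro j r x y c u hF hV hG
    have hF' : ((3, [r]), [x, y]) ∈ EE G s := OneC_dd_ee hF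
    have hG' : ((2, [j]), [x, y, c, u]) ∈ DD G s := hG
    obtain ⟨_, hnd⟩ := mem_DD.1 hG'
    have hin : ((1, [j, G.io j r]), [x, y, c]) ∈ EE G s := by
      by_contra hno
      exact hnd ⟨j, x, y, c, u, r, rfl, hV, OneC_F_lt hF', hF', hno⟩
    refine mem_DD.2 ⟨hin, ?_⟩
    rintro ⟨j', x', y', c', u', r', he, _⟩
    simp at he

theorem legal_add {s : ℕ} {e : Edge} {β : List ℕ} (he : e.2 = β ++ [nn G s])
    (h0 : ∀ j, e.1 = (0, [j]) → ((2, [j]), β) ∉ DD G s)
    (h2 : ∀ j x y c r, e.1 = (2, [j]) → β = [x, y, c] → ((3, [r]), [x, y]) ∈ DD G s → G.le r s = true →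
      ((1, [j, G.io j r]), [x, y, c]) ∈ DD G s) :
    Legal G.io (es (DD G s ++ [e])) (vw G.le s) := by
  have hne : nn G s ∈ e.2 := by
    rw [he]
    simp
  have hcase : ∀ {f : Edge}, f ∈ es (DD G s ++ [e]) → f ∈ DD G s ∨ f = e := by
    intro f hf
    have hf' : f ∈ DD G s ++ [e] := hf
    rcases List.mem_append.1 hf' with h | h
    · exact Or.inl h
    · exact Or.inr (List.mem_singleton.1 h)
  constructor
  · intro j t w hA hB
    rcases hcase hA with a | a <;> rcases hcase hB with b | b
    · exact (legal_dd s).1 j t w a b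
    · have hb1 : e.1 = (0, [j]) := by rw [← b]
      have hb2 : e.2 = t ++ [w] := by rw [← b]
      have hb3 : t ++ [w] = β ++ [nn G s] := by rw [← hb2, he]
      have hb4 : t = β := (List.append_inj' hb3 rfl).1
      rw [hb4] at a
      exact h0 j hb1 a
    · have ha2 : e.2 = t := by rw [← a]
      have : nn G s < nn G s := by
        refine OneC_lt b (v := nn G s) ?_
        show nn G s ∈ t ++ [w]
        rw [← ha2]
        exact List.mem_append_left _ hne
      omega
    · have h1 : e.1 = (2, [j]) := by rw [← a]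
      have h3 : e.1 = (0, [j]) := by rw [← b]
      rw [h1] at h3
      simp at h3
  · intro j r x y c u hF hV hG
    show ((1, [j, G.io j r]), [x, y, c]) ∈ DD G s ++ [e]
    refine List.mem_append_left _ ?_
    rcases hcase hF with a | a <;> rcases hcase hG with b | b
    · exact (legal_dd s).2 j r x y c u a hV b
    · have hb1 : e.1 = (2, [j]) := by rw [← b]
      have hb2 : e.2 = [x, y, c, u] := by rw [← b]
      have hb3 : [x, y, c] ++ [u] = β ++ [nn G s] := by
        rw [← he, hb2]
        rfl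
      have hb4 : [x, y, c] = β := (List.append_inj' hb3 rfl).1
      exact h2 j x y c r hb1 hb4.symm a hV
    · exfalso
      have ha2 : e.2 = [x, y] := by rw [← a]
      have : nn G s < nn G s := by
        refine OneC_lt b (v := nn G s) ?_
        show nn G s ∈ [x, y, c, u]
        rw [ha2] at hne
        simp only [List.mem_cons, List.not_mem_nil, or_false] at hne ⊢
        tauto
      omega
    · exfalso
      have h1 : e.1 = (3, [r]) := by rw [← a]
      have h3 : e.1 = (2, [j]) := by rw [← b]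
      rw [h1] at h3
      simp at h3

end FdZ
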