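import Pool.Agent.Lib.MP_fd2900_lc.Z.OneB
import Pool.Agent.Lib.MP_fd2900_lc.Z.OneC

namespace FdZ

variable {G : Guide}

/-- a one point request is fulfilled in the limit -/
theorem one_req {r s₁ : ℕ} {ℓ : Lb} {β : List ℕ} (hβ : β.Nodup) (hb : ∀ v ∈ β, v < nn G r)
    (hk : (∃ j, ℓ = (0, [j]) ∧ β.length = 4) ∨ (∃ j i, ℓ = (1, [j, i]) ∧ β.length = 2) ∨
      (∃ j, ℓ = (2, [j]) ∧ β.length = 3) ∨ (ℓ = (3, []) ∧ β.length = 1))
    (hl : ∀ s, s₁ ≤ s → G.TP s → (∀ j, ℓ = (0, [j]) → ((2, [j]), β) ∉ DD G s) ∧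
      ∀ j x y c t, ℓ = (2, [j]) → β = [x, y, c] → ((3, [t]), [x, y]) ∈ DD G s → G.le t s = true →
        ((1, [j, G.io j t]), [x, y, c]) ∈ DD G s) :
    ∃ w e, flab G ℓ e ∧ e.2 = β ++ [w] ∧ (β ++ [w]).Nodup := by
  obtain ⟨s₂, hlate⟩ := exists_late (G := G) r
  obtain ⟨s, hs, hTP, hrqi⟩ := G.tp_inf
    (Encodable.encode ((((β.length, 1), [(ℓ, List.range (β.length + 1))], β) :
      (ℕ × ℕ) × List Edge × List ℕ))) (r + s₁ + s₂ + ℓ.2.getD 1 0 + 1)
  have hrs : r ≤ s := by omega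
  have hs1 : s₁ ≤ s := by omega
  have hs2 : s₂ ≤ s := by omega
  have hi : ℓ.2.getD 1 0 < s := by omega
  have hrq : rq G s = ((β.length, 1), [(ℓ, List.range (β.length + 1))], β) := by
    unfold rq req
    rw [hrqi, Encodable.encodek]
    rfl
  have hbs : ∀ v ∈ β, v < nn G s := fun v hv => (hb v hv).trans_le (nn_mono hrs)
  have hnd : (β ++ [nn G s]).Nodup := by
    rw [List.nodup_append]
    refine ⟨hβ, List.nodup_singleton _, ?_⟩
    intro a ha b hb'
    rw [List.mem_singleton] at hb'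
    subst hb'
    exact (hbs a ha).ne
  -- the new edge
  obtain ⟨e, he⟩ : ∃ e, e = mkE G.le G.io (DD G s) s (nn G s) (β ++ List.range' (nn G s) 1)
    (ℓ, List.range (β.length + 1)) := ⟨_, rfl⟩
  have he2 : e.2 = β ++ [nn G s] := by
    rw [he, mkE_tuple]
    exact inst_one β (nn G s)
  have he1 : (ℓ.1 ≤ 2 ∧ e.1 = ℓ) ∨ (ℓ = (3, []) ∧ e.1 = (3, [s])) := by
    rcases hk with ⟨j, rfl, -⟩ | ⟨j, i, rfl, -⟩ | ⟨j, rfl, -⟩ | ⟨rfl, -⟩
    · left
      rw [he]
      exact ⟨by simp, rfl⟩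
    · left
      rw [he]
      exact ⟨by simp, rfl⟩
    · left
      rw [he]
      exact ⟨by simp, rfl⟩
    · right
      rw [he]
      exact ⟨rfl, rfl⟩
  have hnew : newEs G.le G.io (DD G s) s (nn G s) 1 [(ℓ, List.range (β.length + 1))] β = [e] := by
    rw [he]
    rfl
  by_cases hok : OkS G s
  · have hNE : NE G s = [e] := by
      unfold NE
      rw [hrq]
      exact hnew
    have hbq : ∀ v ∈ (rq G s).2.2, v < nn G r := by
      rw [hrq]
      exact hb
    have heF : e ∈ FE G := kept hlate hs2 hTP hok hbq e (by rw [hNE]; exact List.mem_singleton_self e)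
    refine ⟨nn G s, e, ⟨heF, ?_⟩, he2, hnd⟩
    rcases he1 with h | ⟨h, h'⟩
    · exact Or.inl h
    · exact Or.inr (Or.inl ⟨h, s, h', hTP⟩)
  · have hV : Viol (lab G.io (es (DD G s ++ [e])) (vw G.le s)) := by
      by_contra hnv
      refine hok ?_
      unfold OkS
      rw [hrq]
      refine ⟨code_one β.length ℓ, rfl, hβ, hbs, ?_, ?_, ?_, ?_, ?_, ?_⟩
      · intro pe hpe
        rw [List.mem_singleton] at hpe
        subst hpe
        rcases hk with ⟨j, rfl, hj⟩ | ⟨j, i, rfl, hj⟩ | ⟨j, rfl, hj⟩ | ⟨rfl, hj⟩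
        · exact Or.inl ⟨j, rfl, by simp [hj]⟩
        · exact Or.inr (Or.inl ⟨j, i, rfl, hi, by simp [hj]⟩)
        · exact Or.inr (Or.inr (Or.inl ⟨j, rfl, by simp [hj]⟩))
        · exact Or.inr (Or.inr (Or.inr (Or.inl ⟨rfl, by simp [hj]⟩)))
      · intro j k₁ k₂ k₃ hm
        rw [List.mem_singleton] at hm
        have h4 : ((4, [j]) : Lb) = ℓ := congrArg Prod.fst hm
        rcases hk with ⟨j, rfl, -⟩ | ⟨j, i, rfl, -⟩ | ⟨j, rfl, -⟩ | ⟨rfl, -⟩ <;> simp at h4
      · intro j k₁ k₂ k₃ hm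
        rw [List.mem_singleton] at hm
        have h4 : ((4, [j]) : Lb) = ℓ := congrArg Prod.fst hm
        rcases hk with ⟨j, rfl, -⟩ | ⟨j, i, rfl, -⟩ | ⟨j, rfl, -⟩ | ⟨rfl, -⟩ <;> simp at h4
      · rw [hnew]
        exact List.nodup_singleton e
      · rw [hnew]
        refine legal_add he2 ?_ ?_
        · intro j hj
          refine (hl s hs1 hTP).1 j ?_
          rcases he1 with h | ⟨h, h'⟩
          · rw [← h.2, hj]
          · rw [h'] at hj
            simp at hj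
        · intro j x y c t hj hxy hF hle
          refine (hl s hs1 hTP).2 j x y c t ?_ hxy hF hle
          rcases he1 with h | ⟨h, h'⟩
          · rw [← h.2, hj]
          · rw [h'] at hj
            simp at hj
      · rw [hnew]
        exact hnv
    have hE : ∀ e ∈ DD G s, ∀ v ∈ e.2, v < nn G s := fun e he => (shape s e (mem_DD.1 he).1).1
    have hu : FUniq (DD G s) := fun r r' x y h h' =>
      funiq s r r' x y (mem_DD.1 h).1 (mem_DD.1 h').1
    have hnv : ¬ Viol (lab G.io (es (DD G s)) (vw G.le s)) := by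
      intro hv
      refine nviol s (vw G.le s) (view_s s) (viol_mono ?_ hv)
      rintro ℓ' e' ⟨h1, h2⟩
      refine ⟨(mem_DD.1 h1).1, ?_⟩
      rcases h2 with h2 | h2 | ⟨j, r', x, y, c, a1, a2, a3, a4⟩
      · exact Or.inl h2
      · exact Or.inr (Or.inl h2)
      · exact Or.inr (Or.inr ⟨j, r', x, y, c, a1, a2, (mem_DD.1 a3).1, a4⟩)
    have hℓ : (ℓ.1 ≤ 2 ∧ e.1 = ℓ) ∨ (ℓ = (3, []) ∧ ∃ r, e.1 = (3, [r]) ∧ vw G.le s r) := by
      rcases he1 with h | ⟨h, h'⟩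
      · exact Or.inl h
      · exact Or.inr ⟨h, s, h', G.le_refl s⟩
    obtain ⟨w, e', h1, h2, h3⟩ := one_add hE hu hnv he2 hbs hβ hℓ hV
    have hreal : Real (lab G.io (es (DD G s)) (vw G.le s)) [(ℓ, List.range (β.length + 1))] β [w] :=
      real_one.2 ⟨h3, e', h1, h2⟩
    have hF : e' ∈ FE G := by
      refine real_final hlate hs2 hTP (code_one β.length ℓ) rfl (by simp) hreal hb e' ?_
      refine ⟨_, List.mem_singleton_self _, h1, ?_⟩
      rw [h2]
      exact (inst_one β w).symm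
    exact ⟨w, e', (lab_iff hTP (mem_DD.1 h1.1).1 hF ℓ).1 h1, h2, h3⟩

end FdZ
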