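import Pool.Agent.Lib.MP_fd2900_lc.Z.OneD

namespace FdZ

variable {G : Guide}

private theorem OneE_r (G : Guide) (l : List ℕ) : ∃ r, ∀ v ∈ l, v < nn G r := by
  induction l with
  | nil => exact ⟨0, fun v hv => by simp at hv⟩
  | cons a l ih =>
    obtain ⟨r, hr⟩ := ih
    refine ⟨max (a + 1) r, fun v hv => ?_⟩
    rcases List.mem_cons.1 hv with h | h
    · subst h
      have h1 := le_nn (G := G) (max (v + 1) r)
      have h2 := le_max_left (v + 1) r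
      omega
    · exact lt_of_lt_of_le (hr v h) (nn_mono (le_max_right _ _))

private theorem OneE_lab {ℓ : Lb} {e : Edge} (h : flab G ℓ e) (hℓ : ℓ.1 ≤ 2) : e ∈ FE G ∧ e.1 = ℓ := by
  refine ⟨h.1, ?_⟩
  rcases h.2 with h2 | ⟨h2, -⟩ | ⟨j, r, x, y, c, h2, -⟩
  · exact h2.2
  · rw [h2] at hℓ
    simp at hℓ
  · rw [h2] at hℓ
    simp at hℓ

theorem tot_D {j x y c u : ℕ} (hnd : [x, y, c, u].Nodup) (h : ((2, [j]), [x, y, c, u]) ∉ FE G) :
    ∃ w, ((0, [j]), [x, y, c, u, w]) ∈ FE G := by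
  obtain ⟨r, hr⟩ := OneE_r G [x, y, c, u]
  obtain ⟨s₁, hs⟩ := exists_late (G := G) r
  obtain ⟨w, e, he, h2, h3⟩ := one_req (G := G) (r := r) (s₁ := s₁) (ℓ := (0, [j])) hnd hr
    (Or.inl ⟨j, rfl, rfl⟩) (fun s h1 hT => ⟨fun j' hj hm => by
      have hj' : j = j' := by simpa using hj
      subst hj'
      exact h ((hs.2 s h1).2 _ (mem_DD.1 hm).1 hr), fun j' x' y' c' t hℓ => by simp at hℓ⟩)
  obtain ⟨h4, h5⟩ := OneE_lab he (by simp)
  refine ⟨w, ?_⟩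
  have : e = ((0, [j]), [x, y, c, u, w]) := Prod.ext h5 (by simpa using h2)
  rwa [this] at h4

theorem tot_F (x : ℕ) : ∃ y n, G.TP n ∧ ((3, [n]), [x, y]) ∈ FE G := by
  obtain ⟨r, hr⟩ := OneE_r G [x]
  obtain ⟨w, e, he, h2, h3⟩ := one_req (G := G) (r := r) (s₁ := 0) (ℓ := (3, [])) (List.nodup_singleton x) hr
    (Or.inr (Or.inr (Or.inr ⟨rfl, rfl⟩))) (fun s h1 hT => ⟨fun j' hj => by simp at hj,
      fun j' x' y' c' t hℓ => by simp at hℓ⟩)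
  obtain ⟨h4, h5⟩ := he
  rcases h5 with h5 | ⟨-, n, h5, h6⟩ | ⟨j, r, x, y, c, h5, -⟩
  · have := h5.1
    simp at this
  · refine ⟨w, n, h6, ?_⟩
    have : e = ((3, [n]), [x, w]) := Prod.ext h5 (by simpa using h2)
    rwa [this] at h4
  · simp at h5

theorem tot_G (j i : ℕ) {x y : ℕ} (hxy : x ≠ y) : ∃ c, ((1, [j, i]), [x, y, c]) ∈ FE G := by
  obtain ⟨r, hr⟩ := OneE_r G [x, y]
  obtain ⟨w, e, he, h2, h3⟩ := one_req (G := G) (r := r) (s₁ := 0) (ℓ := (1, [j, i])) (β := [x, y])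
    (by simpa using hxy) hr
    (Or.inr (Or.inl ⟨j, i, rfl, rfl⟩)) (fun s h1 hT => ⟨fun j' hj => by simp at hj,
      fun j' x' y' c' t hℓ => by simp at hℓ⟩)
  obtain ⟨h4, h5⟩ := OneE_lab he (by simp)
  refine ⟨w, ?_⟩
  have : e = ((1, [j, i]), [x, y, w]) := Prod.ext h5 (by simpa using h2)
  rwa [this] at h4

private theorem OneE_Gam {j x y c r s₁ : ℕ} (hnd : [x, y, c].Nodup) (hr : ∀ v ∈ [x, y, c], v < nn G r)
    (h : ∀ s, s₁ ≤ s → G.TP s → ∀ t, ((3, [t]), [x, y]) ∈ DD G s → G.le t s = true →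
      ((1, [j, G.io j t]), [x, y, c]) ∈ DD G s) : ∃ u, ((2, [j]), [x, y, c, u]) ∈ FE G := by
  obtain ⟨w, e, he, h2, h3⟩ := one_req (G := G) (r := r) (s₁ := s₁) (ℓ := (2, [j])) (β := [x, y, c])
    hnd hr (Or.inr (Or.inr (Or.inl ⟨j, rfl, rfl⟩))) (fun s h1 hT => ⟨fun j' hj => by simp at hj,
      fun j' x' y' c' t hℓ hβ hF hle => by
        have hj' : j = j' := by simpa using hℓ
        subst hj'
        obtain ⟨rfl, rfl, rfl⟩ : x = x' ∧ y = y' ∧ c = c' := by simpa using hβ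
        exact h s h1 hT t hF hle⟩)
  obtain ⟨h4, h5⟩ := OneE_lab he (by simp)
  refine ⟨w, ?_⟩
  have : e = ((2, [j]), [x, y, c, w]) := Prod.ext h5 (by simpa using h2)
  rwa [this] at h4

theorem tot_Gam_np {j x y c : ℕ} (hnd : [x, y, c].Nodup) (hp : ∀ n, G.TP n → ((3, [n]), [x, y]) ∉ FE G) :
    ∃ u, ((2, [j]), [x, y, c, u]) ∈ FE G := by
  obtain ⟨r, hr⟩ := OneE_r G [x, y, c]
  obtain ⟨s₁, hs⟩ := exists_late (G := G) r
  refine OneE_Gam hnd hr (s₁ := s₁) fun s h1 hT t hF hle => ?_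
  exfalso
  have hF' := (mem_DD.1 hF).1
  have h2 : ((3, [t]), [x, y]) ∈ EE G r := by
    refine appear (hs.1.trans h1) hF' fun v hv => hr v ?_
    simp only [List.mem_cons, List.not_mem_nil, or_false] at hv ⊢
    tauto
  by_cases hT2 : G.TP t
  · exact hp t hT2 (fe_of_ne hF' (by simp))
  · have := (hs.2 s h1).1 t x y h2 hT2
    rw [this] at hle
    simp at hle

theorem tot_Gam_p {j x y c n : ℕ} (hn : G.TP n) (hF : ((3, [n]), [x, y]) ∈ FE G)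
    (hG : ((1, [j, G.io j n]), [x, y, c]) ∈ FE G) : ∃ u, ((2, [j]), [x, y, c, u]) ∈ FE G := by
  obtain ⟨r, hr⟩ := OneE_r G [x, y, c]
  refine OneE_Gam (fe_shape hG).1 hr (s₁ := r) fun s h1 hT t hF' hle => ?_
  have h2 : t = n := tp_uniq (fe_of_ne (mem_DD.1 hF').1 (by simp)) hF
  subst h2
  exact (fe_at hG hr h1).2

end FdZ
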