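import Pool.Agent.Lib.MP_fd2900_lc.Z.RunB

namespace FdZ

variable {G : Guide}

private theorem RunC_shape {s r x y : ℕ} (h : ((3, [r]), [x, y]) ∈ EE G s) :
    (∃ v ∈ [x, y], nn G r ≤ v) ∧ ∀ v ∈ [x, y], v < nn G (r + 1) := by
  obtain ⟨_, _, h1⟩ := shape s _ h
  rcases h1 with ⟨j, hj, _⟩ | ⟨j, i, hj, _⟩ | ⟨j, hj, _⟩ | ⟨t, _, ht, _, h2, h3⟩
  · exact absurd (congrArg Prod.fst hj) (by norm_num)
  · exact absurd (congrArg Prod.fst hj) (by norm_num)
  · exact absurd (congrArg Prod.fst hj) (by norm_num)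
  · have h4 : [r] = [t] := congrArg Prod.snd ht
    have h5 : r = t := by simpa using h4
    subst h5
    exact ⟨h2, h3⟩

/-- a pair has at most one `F` edge -/
theorem funiq (s : ℕ) : FUniq (EE G s) := by
  intro r r' x y h h'
  obtain ⟨⟨v, hv, hv1⟩, h1⟩ := RunC_shape h
  obtain ⟨⟨v', hv', hv1'⟩, h1'⟩ := RunC_shape h'
  rcases lt_trichotomy r r' with hlt | heq | hgt
  · have h2 := h1 v' hv'
    have h3 := nn_mono (G := G) (show r + 1 ≤ r' from hlt)
    omega
  · exact heq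
  · have h2 := h1' v hv
    have h3 := nn_mono (G := G) (show r' + 1 ≤ r from hgt)
    omega

theorem funiq' {s s' : ℕ} {r r' : ℕ} {x y : ℕ} (h : ((3, [r]), [x, y]) ∈ EE G s)
    (h' : ((3, [r']), [x, y]) ∈ EE G s') : r = r' := by
  have h1 := perm h (by norm_num) (le_max_left s s')
  have h2 := perm h' (by norm_num) (le_max_right s s')
  exact funiq (max s s') r r' x y h1 h2

end FdZ
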