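import Pool.Agent.Lib.MP_fd2900_lc.Z.RunD
import Pool.Agent.Lib.MP_fd2900_lc.Z.RunC

namespace FdZ

variable {G : Guide}

/-- a realization over old points which is not old is the whole set of new points of a stage, and its edges are
the new edges of this stage -/
theorem whole {r s : ℕ} (hr : r ≤ s) {V : ℕ → Prop} {p q : ℕ} {pat : List Edge} {β ν : List ℕ} (hc : Code p q pat)
    (hβ : β.length = p) (hν : ν.length = q) (h : Real (lab G.io (es (EE G s)) V) pat β ν)
    (hb : ∀ v ∈ β, v < nn G r) (hn : ∃ v ∈ ν, nn G r ≤ v) :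
    ∃ t, r ≤ t ∧ t < s ∧ OkS G t ∧ (∀ v, v ∈ ν ↔ nn G t ≤ v ∧ v < nn G (t + 1)) ∧
      ∀ e, ImgE (lab G.io (es (EE G s)) V) pat β ν e ↔ e ∈ NE G t := by
  classical
  have hmem : ∀ e, ImgE (lab G.io (es (EE G s)) V) pat β ν e → e ∈ EE G s := by
    rintro e ⟨pe, -, h1, -⟩
    exact h1.1
  have hge : ∀ v ∈ ν, nn G r ≤ v := by
    rcases dich (strongV hr V q) le_rfl hc hβ hν h hb with h1 | h1
    · obtain ⟨v, hv, hv2⟩ := hn
      exact absurd (Set.mem_Iio.1 (h1 v hv)) (not_lt.2 hv2)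
    · intro v hv
      exact not_lt.1 fun h2 => h1 v hv (Set.mem_Iio.2 h2)
  obtain ⟨L, hL, hLi⟩ := all_edges hc h
  have hLne : L.Nonempty := by
    rw [← Finset.card_pos, hL]
    exact hc.qpos
  have hex : ∃ t, ∃ v ∈ ν, v < nn G (t + 1) := by
    obtain ⟨v, hv, -⟩ := hn
    obtain ⟨t, -, ht⟩ := born (G := G) v
    exact ⟨t, v, hv, ht⟩
  obtain ⟨t, ⟨v₀, hv₀, hv₀t⟩, hmin⟩ : ∃ t, (∃ v ∈ ν, v < nn G (t + 1)) ∧
      ∀ t', t' < t → ¬ ∃ v ∈ ν, v < nn G (t' + 1) :=
    ⟨Nat.find hex, Nat.find_spec hex, fun t' ht' => Nat.find_min hex ht'⟩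
  have hrt : r ≤ t := by
    by_contra hcon
    have h1 : t + 1 ≤ r := by omega
    have h2 := nn_mono (G := G) h1
    have h3 := hge v₀ hv₀
    omega
  have hget : ∀ v ∈ ν, nn G t ≤ v := by
    intro v hv
    rcases Nat.eq_zero_or_pos t with ht | ht
    · rw [ht, nn_zero]
      exact Nat.zero_le v
    · by_contra hcon
      refine hmin (t - 1) (by omega) ⟨v, hv, ?_⟩
      rw [Nat.sub_add_cancel ht]
      exact not_le.1 hcon
  have hts : t < s := by
    obtain ⟨e, he⟩ := hLne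
    obtain ⟨-, v, hve, hvν⟩ := img_sub hc hβ hν (hLi e he)
    have h1 := (shape s e (hmem e (hLi e he))).1 v hve
    by_contra hcon
    have h2 := nn_mono (G := G) (not_lt.1 hcon)
    have h3 := hget v hvν
    omega
  have hlt : ∀ v ∈ ν, v < nn G (t + 1) := by
    rcases dich (strongV (Nat.succ_le_of_lt hts) V q) le_rfl hc hβ hν h
      (fun v hv => Set.mem_Iio.2 ((hb v hv).trans_le (nn_mono (Nat.le_succ_of_le hrt)))) with h1 | h1
    · exact fun v hv => Set.mem_Iio.1 (h1 v hv)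
    · exact absurd (Set.mem_Iio.2 hv₀t) (h1 v₀ hv₀)
  have hβt : ∀ v ∈ β, v < nn G t := fun v hv => (hb v hv).trans_le (nn_mono hrt)
  have happ : ∀ e, ImgE (lab G.io (es (EE G s)) V) pat β ν e → e ∈ EE G (t + 1) := by
    intro e he
    refine appear (Nat.succ_le_of_lt hts) (hmem e he) fun v hv => ?_
    rcases (img_sub hc hβ hν he).1 v hv with h1 | h1
    · exact (hβt v h1).trans (nn_lt t)
    · exact hlt v h1
  have hD : ∀ e ∈ DD G t, ∀ v ∈ e.2, v < nn G t := fun e he => (shape t e (mem_DD.1 he).1).1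
  have hok : OkS G t := by
    by_contra hcon
    obtain ⟨e, he⟩ := hLne
    have h1 := happ e (hLi e he)
    rw [(step_not hcon).2] at h1
    obtain ⟨-, v, hve, hvν⟩ := img_sub hc hβ hν (hLi e he)
    exact absurd (hD e h1 v hve) (not_lt.2 (hget v hvν))
  obtain ⟨hs1, hs2⟩ := step_ok hok
  have hcard : ν.toFinset.card ≤ L.card := by
    rw [hL, ← hν]
    exact ν.toFinset_card_le
  have hne : ν.toFinset.Nonempty := ⟨v₀, List.mem_toFinset.2 hv₀⟩
  obtain ⟨hf1, hf2⟩ := batch_full (E := DD G t) hD hok ν.toFinset (fun v hv => by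
      rw [List.mem_toFinset] at hv
      refine ⟨hget v hv, ?_⟩
      rw [← hs1]
      exact hlt v hv) hne L (fun e he => by
      refine ⟨?_, fun v hv => ?_, ?_⟩
      · have h1 := happ e (hLi e he)
        rw [hs2] at h1
        exact h1
      · rcases (img_sub hc hβ hν (hLi e he)).1 v hv with h1 | h1
        · exact Or.inl (hβt v h1)
        · exact Or.inr (List.mem_toFinset.2 h1)
      · obtain ⟨-, v, hve, hvν⟩ := img_sub hc hβ hν (hLi e he)
        exact ⟨v, hve, List.mem_toFinset.2 hvν⟩) hcard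
  refine ⟨t, hrt, hts, hok, fun v => ⟨fun hv => ⟨hget v hv, hlt v hv⟩, fun hv => ?_⟩, fun e => ⟨fun he => ?_, fun he => ?_⟩⟩
  · rw [hs1] at hv
    exact List.mem_toFinset.1 (hf1 v hv.1 hv.2)
  · have h1 := happ e he
    rw [hs2, List.mem_append] at h1
    rcases h1 with h1 | h1
    · obtain ⟨-, v, hve, hvν⟩ := img_sub hc hβ hν he
      exact absurd (hD e h1 v hve) (not_lt.2 (hget v hvν))
    · exact h1
  · exact hLi e (hf2 e he)

end FdZ
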