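import Pool.Agent.Lib.MP_fd2900_lc.Z.Cross

namespace FdZ

variable (G : Guide)

/-- number of vertices at stage `s` -/
noncomputable def nn (s : ℕ) : ℕ := (run G s).1

/-- edges at stage `s` -/
noncomputable def EE (s : ℕ) : List Edge := (run G s).2

/-- the edges at stage `s` after deletion -/
noncomputable def DD (s : ℕ) : List Edge := del G.le G.io (EE G s) s

/-- the request of stage `s` -/
def rq (s : ℕ) : (ℕ × ℕ) × List Edge × List ℕ := req (G.rqi s)

/-- the request of stage `s` is carried out -/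
def OkS (s : ℕ) : Prop :=
  Ok G.le G.io s (nn G s) (DD G s) (rq G s).1.1 (rq G s).1.2 (rq G s).2.1 (rq G s).2.2

/-- the new edges of stage `s`, if the request is carried out -/
noncomputable def NE (s : ℕ) : List Edge :=
  newEs G.le G.io (DD G s) s (nn G s) (rq G s).1.2 (rq G s).2.1 (rq G s).2.2

variable {G}

theorem nn_zero : nn G 0 = 0 := rfl

theorem EE_zero : EE G 0 = [] := rfl

private theorem RunA_run_ok {s : ℕ} (h : OkS G s) :
    run G (s + 1) = (nn G s + (rq G s).1.2, DD G s ++ NE G s) := by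
  have h0 : run G (s + 1) = act G.le G.io s (rq G s) (nn G s, DD G s) := rfl
  rw [h0]
  unfold act
  exact if_pos h

private theorem RunA_run_not {s : ℕ} (h : ¬ OkS G s) :
    run G (s + 1) = (nn G s + 1, DD G s) := by
  have h0 : run G (s + 1) = act G.le G.io s (rq G s) (nn G s, DD G s) := rfl
  rw [h0]
  unfold act
  exact if_neg h

theorem step_ok {s : ℕ} (h : OkS G s) : nn G (s + 1) = nn G s + (rq G s).1.2 ∧ EE G (s + 1) = DD G s ++ NE G s := by
  have h1 := RunA_run_ok h
  exact ⟨congrArg Prod.fst h1, congrArg Prod.snd h1⟩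

theorem step_not {s : ℕ} (h : ¬ OkS G s) : nn G (s + 1) = nn G s + 1 ∧ EE G (s + 1) = DD G s := by
  have h1 := RunA_run_not h
  exact ⟨congrArg Prod.fst h1, congrArg Prod.snd h1⟩

theorem mem_DD {s : ℕ} {e : Edge} : e ∈ DD G s ↔ e ∈ EE G s ∧ ¬ Deld G.le G.io (es (EE G s)) s e := by
  unfold DD del
  rw [List.mem_filter]
  simp only [decide_eq_true_eq]

theorem nn_lt (s : ℕ) : nn G s < nn G (s + 1) := by
  by_cases h : OkS G s
  · have hq : 0 < (rq G s).1.2 := h.code.qpos
    rw [(step_ok h).1]
    omega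
  · rw [(step_not h).1]
    omega

theorem nn_mono {r s : ℕ} (h : r ≤ s) : nn G r ≤ nn G s :=
  (strictMono_nat_of_lt_succ (fun n => nn_lt (G := G) n)).monotone h

theorem le_nn (s : ℕ) : s ≤ nn G s :=
  (strictMono_nat_of_lt_succ (fun n => nn_lt (G := G) n)).le_apply

/-- every vertex is born at a stage -/
theorem born (v : ℕ) : ∃ t, nn G t ≤ v ∧ v < nn G (t + 1) := by
  classical
  have hex : ∃ t, v < nn G (t + 1) := ⟨v, lt_of_lt_of_le (Nat.lt_succ_self v) (le_nn (G := G) (v + 1))⟩
  refine ⟨Nat.find hex, ?_, Nat.find_spec hex⟩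
  rcases Nat.eq_zero_or_pos (Nat.find hex) with h0 | h0
  · rw [h0, nn_zero]
    exact Nat.zero_le v
  · have h1 := Nat.find_min hex (Nat.sub_lt h0 Nat.one_pos)
    rw [Nat.sub_add_cancel h0] at h1
    exact not_lt.mp h1

/-- the view of a stage is a view; the true path is a view -/
theorem view_s (s : ℕ) : View G.le (vw G.le s) := by
  intro t ht r hr
  constructor
  · intro hrs
    exact G.le_chain r t s hrs ht hr
  · intro hrt
    exact G.le_trans r t s hrt ht

theorem view_tp : View G.le G.TP := G.tp_view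

end FdZ
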