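import Pool.Agent.Lib.MP_fd2900_lc.Z.RunA

namespace FdZ

variable {G : Guide}

private theorem RunB_cases {s : ℕ} {e : Edge} (he : e ∈ EE G (s + 1)) :
    e ∈ EE G s ∨ (OkS G s ∧ e ∈ NE G s) := by
  by_cases h : OkS G s
  · rw [(step_ok h).2, List.mem_append] at he
    rcases he with he | he
    · exact Or.inl (mem_DD.1 he).1
    · exact Or.inr ⟨h, he⟩
  · rw [(step_not h).2] at he
    exact Or.inl (mem_DD.1 he).1

private theorem RunB_keep {s : ℕ} {e : Edge} (he : e ∈ DD G s) : e ∈ EE G (s + 1) := by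
  by_cases h : OkS G s
  · rw [(step_ok h).2, List.mem_append]
    exact Or.inl he
  · rw [(step_not h).2]
    exact he

/-- shape of the edges at stage `s` -/
theorem shape (s : ℕ) : ∀ e ∈ EE G s, (∀ v ∈ e.2, v < nn G s) ∧ e.2.Nodup ∧
    ((∃ j, e.1 = (0, [j]) ∧ e.2.length = 5) ∨ (∃ j i, e.1 = (1, [j, i]) ∧ i < s ∧ e.2.length = 3) ∨
    (∃ j, e.1 = (2, [j]) ∧ e.2.length = 4) ∨
    (∃ t, t < s ∧ e.1 = (3, [t]) ∧ e.2.length = 2 ∧ (∃ v ∈ e.2, nn G t ≤ v) ∧ ∀ v ∈ e.2, v < nn G (t + 1))) := by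
  induction s with
  | zero =>
    intro e he
    rw [EE_zero] at he
    exact absurd he (List.not_mem_nil)
  | succ s ih =>
    intro e he
    rcases RunB_cases he with he | ⟨h, he⟩
    · obtain ⟨h1, h2, h3⟩ := ih e he
      refine ⟨fun v hv => lt_trans (h1 v hv) (nn_lt s), h2, ?_⟩
      rcases h3 with h3 | h3 | h3 | h3
      · exact Or.inl h3
      · obtain ⟨j, i, a, b, c⟩ := h3
        exact Or.inr (Or.inl ⟨j, i, a, by omega, c⟩)
      · exact Or.inr (Or.inr (Or.inl h3))
      · obtain ⟨t, ht, rest⟩ := h3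
        exact Or.inr (Or.inr (Or.inr ⟨t, by omega, rest⟩))
    · have hs := new_sub h he
      have hk := new_kind (fun j r => G.io_le j r) G.le_le h he
      have hn := (step_ok h).1
      have hlt : ∀ v ∈ e.2, v < nn G (s + 1) := by
        intro v hv
        rcases hs.1 v hv with h1 | h1
        · exact lt_trans (h.lt v h1) (nn_lt s)
        · rw [hn]; exact h1.2
      refine ⟨hlt, hs.2.2, ?_⟩
      rcases hk with h3 | h3 | h3 | h3
      · exact Or.inl h3
      · obtain ⟨j, i, a, b, c⟩ := h3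
        exact Or.inr (Or.inl ⟨j, i, a, by omega, c⟩)
      · exact Or.inr (Or.inr (Or.inl h3))
      · exact Or.inr (Or.inr (Or.inr ⟨s, by omega, h3.1, h3.2, hs.2.1, hlt⟩))

/-- only `Gam` edges are deleted -/
theorem perm {s : ℕ} {e : Edge} (h : e ∈ EE G s) (h2 : e.1.1 ≠ 2) {s' : ℕ} (hs : s ≤ s') : e ∈ EE G s' := by
  induction s', hs using Nat.le_induction with
  | base => exact h
  | succ m hm ih =>
    apply RunB_keep
    rw [mem_DD]
    refine ⟨ih, ?_⟩
    rintro ⟨j, x, y, c, u, r, he, _⟩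
    exact h2 (by rw [he])

/-- edges that appear later have a new vertex -/
theorem appear {s s' : ℕ} (hs : s ≤ s') {e : Edge} (h : e ∈ EE G s') (hv : ∀ v ∈ e.2, v < nn G s) :
    e ∈ EE G s := by
  induction s', hs using Nat.le_induction with
  | base => exact h
  | succ m hm ih =>
    rcases RunB_cases h with h1 | ⟨h1, h2⟩
    · exact ih h1
    · obtain ⟨v, hv1, hv2⟩ := (new_sub h1 h2).2.1
      exact absurd (hv v hv1) (not_lt.2 (le_trans (nn_mono hm) hv2))

end FdZ
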