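import Pool.Agent.Lib.MP_fd2900_lc.Z.RunB

namespace FdZ

variable {G : Guide}

private theorem RunD_lab {io : ℕ → ℕ → ℕ} {E E' : Set Edge} {V : ℕ → Prop} {e : Edge}
    (h : ∃ ℓ, lab io E V ℓ e) (he : e ∈ E') : ∃ ℓ, lab io E' V ℓ e := by
  obtain ⟨ℓ, _, h1 | h1 | h1⟩ := h
  · exact ⟨ℓ, he, Or.inl h1⟩
  · exact ⟨ℓ, he, Or.inr (Or.inl h1)⟩
  · obtain ⟨j, r, x, y, c, _, h2, _⟩ := h1
    refine ⟨e.1, he, Or.inl ⟨?_, rfl⟩⟩
    rw [h2]
    norm_num

/-- `V_r` is strong at all later stages in all views -/
theorem strongV {r s : ℕ} (h : r ≤ s) (V : ℕ → Prop) (k : ℕ) :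
    Strong (lab G.io (es (EE G s)) V) (Set.Iio (nn G r)) k := by
  classical
  induction s, h using Nat.le_induction with
  | base =>
    intro Z _ hZ L hL
    have hemp : L = ∅ := by
      rw [Finset.eq_empty_iff_forall_notMem]
      intro e he
      obtain ⟨⟨ℓ, h1⟩, _, v, hv, hvZ⟩ := hL e he
      exact hZ v hvZ (((shape r e h1.1).1 v hv))
    rw [hemp, Finset.card_empty]
    exact Nat.zero_le _
  | succ s hrs ih =>
    intro Z hZk hZ L hL
    set Z1 : Finset ℕ := Z.filter fun v => nn G s ≤ v with hZ1
    set Z2 : Finset ℕ := Z.filter fun v => ¬ nn G s ≤ v with hZ2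
    set L1 : Finset Edge := L.filter fun e => ∃ v ∈ e.2, nn G s ≤ v with hL1
    set L2 : Finset Edge := L.filter fun e => ¬ ∃ v ∈ e.2, nn G s ≤ v with hL2
    have hmr : nn G r ≤ nn G s := nn_mono hrs
    have hc2 : L2.card ≤ Z2.card := by
      refine ih Z2 ((Finset.card_filter_le _ _).trans hZk)
        (fun v hv => hZ v (Finset.mem_filter.1 hv).1) L2 fun e he => ?_
      obtain ⟨heL, hsmall⟩ := Finset.mem_filter.1 he
      push Not at hsmall
      obtain ⟨hlab, hin, v, hv, hvZ⟩ := hL e heL
      have heE : e ∈ EE G (s + 1) := by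
        obtain ⟨ℓ, h1⟩ := hlab
        exact h1.1
      have heE' : e ∈ EE G s := appear (Nat.le_succ s) heE hsmall
      refine ⟨RunD_lab hlab heE', fun w hw => ?_, v, hv, ?_⟩
      · rcases hin w hw with h1 | h1
        · exact Or.inl h1
        · exact Or.inr (Finset.mem_coe.2 (Finset.mem_filter.2 ⟨Finset.mem_coe.1 h1,
            not_le.2 (hsmall w hw)⟩))
      · exact Finset.mem_coe.2 (Finset.mem_filter.2 ⟨Finset.mem_coe.1 hvZ,
            not_le.2 (hsmall v hv)⟩)
    have hDD : ∀ e ∈ DD G s, ∀ v ∈ e.2, v < nn G s := fun e he =>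
      (shape s e (mem_DD.1 he).1).1
    have hc1 : L1.card ≤ Z1.card := by
      by_cases hok : OkS G s
      · refine batch_few (E := DD G s) hDD hok Z1 (fun v hv => (Finset.mem_filter.1 hv).2) L1
          fun e he => ?_
        obtain ⟨heL, w, hw, hwn⟩ := Finset.mem_filter.1 he
        obtain ⟨⟨ℓ, h1⟩, hin, _⟩ := hL e heL
        have heE : e ∈ EE G (s + 1) := h1.1
        rw [(step_ok hok).2] at heE
        have hsplit : ∀ u ∈ e.2, u < nn G s ∨ u ∈ Z1 := by
          intro u hu
          by_cases hun : nn G s ≤ u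
          · right
            rcases hin u hu with h2 | h2
            · have h3 : u < nn G r := h2
              omega
            · exact Finset.mem_filter.2 ⟨Finset.mem_coe.1 h2, hun⟩
          · left
            omega
        refine ⟨heE, hsplit, w, hw, ?_⟩
        rcases hsplit w hw with h2 | h2
        · omega
        · exact h2
      · have hemp : L1 = ∅ := by
          rw [Finset.eq_empty_iff_forall_notMem]
          intro e he
          obtain ⟨heL, w, hw, hwn⟩ := Finset.mem_filter.1 he
          obtain ⟨⟨ℓ, h1⟩, _⟩ := hL e heL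
          have heE : e ∈ EE G (s + 1) := h1.1
          rw [(step_not hok).2] at heE
          have := hDD e heE w hw
          omega
        rw [hemp, Finset.card_empty]
        exact Nat.zero_le _
    have h3 : L1.card + L2.card = L.card := Finset.card_filter_add_card_filter_not _
    have h4 : Z1.card + Z2.card = Z.card := Finset.card_filter_add_card_filter_not _
    omega

end FdZ
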