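import Pool.Agent.Lib.MP_fd2900_lc.Z.RunC

namespace FdZ

variable {G : Guide}

private theorem RunE_lab_mono {io : ℕ → ℕ → ℕ} {E E' : Set Edge} (h : ∀ e, e ∈ E → e ∈ E')
    {V : ℕ → Prop} {ℓ : Lb} {e : Edge} (he : lab io E V ℓ e) : lab io E' V ℓ e := by
  obtain ⟨h1, h2⟩ := he
  refine ⟨h _ h1, ?_⟩
  rcases h2 with h2 | h2 | ⟨j, r, x, y, c, h2, h3, h4, h5⟩
  · exact Or.inl h2
  · exact Or.inr (Or.inl h2)
  · exact Or.inr (Or.inr ⟨j, r, x, y, c, h2, h3, h _ h4, h5⟩)

private theorem RunE_zero {lb : Lb → Edge → Prop} (h : ∀ ℓ e, ¬ lb ℓ e) : ¬ Viol lb := by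
  rintro ⟨p, q, pat, β, νs, hc, ⟨_, ho, _⟩, hl⟩
  have hne : νs ≠ [] := by
    rintro rfl
    simp at hl
  obtain ⟨ν, hν⟩ := List.exists_mem_of_ne_nil _ hne
  obtain ⟨_, _, L, _, hf⟩ := ho ν hν
  cases hf with
  | nil =>
    have h1 := hc.len
    have h2 := hc.qpos
    simp at h1
    omega
  | cons h1 _ => exact h _ _ h1.1

/-- every stage is in the class, in all views -/
theorem nviol (s : ℕ) (V : ℕ → Prop) (hV : View G.le V) : ¬ Viol (lab G.io (es (EE G s)) V) := by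
  induction s generalizing V with
  | zero =>
    rw [EE_zero]
    refine RunE_zero fun ℓ e h => ?_
    have h1 := h.1
    simp [es] at h1
  | succ s ih =>
    have hD : ∀ V, View G.le V → ¬ Viol (lab G.io (es (DD G s)) V) := fun V hV hv =>
      ih V hV (viol_mono (fun ℓ e he => RunE_lab_mono (fun e he => (mem_DD.1 he).1) he) hv)
    by_cases h : OkS G s
    · rw [(step_ok h).2]
      refine cross (fun e he => (shape s e (mem_DD.1 he).1).1)
        (fun r r' x y h1 h2 => funiq s r r' x y (mem_DD.1 h1).1 (mem_DD.1 h2).1) ?_ h hD V hV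
      intro r t hr
      rcases (shape s _ (mem_DD.1 hr).1).2.2 with ⟨j, h1, _⟩ | ⟨j, i, h1, _⟩ | ⟨j, h1, _⟩ |
        ⟨u, hu, h1, _⟩
      · simp at h1
      · simp at h1
      · simp at h1
      · simp at h1
        omega
    · rw [(step_not h).2]
      exact hD V hV

end FdZ
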