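import Pool.Agent.Lib.MP_fd2900_lc.Z.VSStep
import Pool.Agent.Lib.MP_fd2900_lc.Z.Stmt

/-! the game -/

namespace FdZ

open FirstOrder FirstOrder.Language Pool.Agent.MP_fd2900_lc

variable {ar : ℕ → ℕ} {D : ℕ × List ℕ → Prop}

/-- strongness needed for a formula -/
def qd {α : Type} : {n : ℕ} → (Lg ar).BoundedFormula α n → ℕ
  | _, .falsum => 0
  | _, .equal _ _ => 0
  | _, .rel _ _ => 0
  | _, .imp φ ψ => max (qd φ) (qd ψ)
  | _, .all φ => 2 * qd φ + 1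

/-- symbols of a formula -/
def symb {α : Type} : {n : ℕ} → (Lg ar).BoundedFormula α n → Finset ℕ
  | _, .falsum => ∅
  | _, .equal _ _ => ∅
  | _, .rel r _ => {r.1}
  | _, .imp φ ψ => symb φ ∪ symb ψ
  | _, .all φ => symb φ

private theorem SmA_mono {lab : Lb → Edge → Prop} {X : Set ℕ} {k K : ℕ} (h : k ≤ K) (hs : Strong lab X K) :
    Strong lab X k := by
  intro Z hZ
  exact hs Z (hZ.trans h)

/-- a term is a variable -/
private theorem SmA_term {β : Type} (t : (Lg ar).Term β) : ∃ b : β, ∀ w : β → ℕ,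
    t.realize (M := Univ D) w = w b := by
  cases t with
  | var b => exact ⟨b, fun w => rfl⟩
  | func f ts => exact f.elim

private theorem SmA_comp {α : Type} {n : ℕ} (v : α → ℕ) (xs : Fin n → ℕ) (h : ℕ → ℕ) (b : α ⊕ Fin n) :
    (Sum.elim (fun a => h (v a)) (fun i => h (xs i)) b : ℕ) = h (Sum.elim v xs b) := by
  cases b <;> rfl

private theorem SmA_in {α : Type} {n : ℕ} (v : α → ℕ) (xs : Fin n → ℕ) (Y : Finset ℕ)
    (hv : ∀ a, v a ∈ Y) (hx : ∀ i, xs i ∈ Y) (b : α ⊕ Fin n) : Sum.elim v xs b ∈ Y := by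
  cases b with
  | inl a => exact hv a
  | inr i => exact hx i

/-- the values of terms -/
private theorem SmA_tm {α : Type} {n : ℕ} (t : (Lg ar).Term (α ⊕ Fin n)) (v : α → ℕ) (xs : Fin n → ℕ)
    (Y : Finset ℕ) (h : ℕ → ℕ) (hv : ∀ a, v a ∈ Y) (hx : ∀ i, xs i ∈ Y) :
    ∃ y ∈ Y, t.realize (M := Univ D) (Sum.elim v xs) = y ∧
      t.realize (M := Univ D) (Sum.elim (fun a => h (v a)) fun i => h (xs i)) = h y := by
  obtain ⟨b, hb⟩ := SmA_term (D := D) t
  exact ⟨Sum.elim v xs b, SmA_in v xs Y hv hx b, hb _, (hb _).trans (SmA_comp v xs h b)⟩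

private theorem SmA_snoc {n : ℕ} (xs : Fin n → ℕ) (a : ℕ) (h : ℕ → ℕ) :
    (fun i => h (Fin.snoc (α := fun _ => ℕ) xs a i)) = Fin.snoc (α := fun _ => ℕ) (fun i => h (xs i)) (h a) := by
  funext i
  refine Fin.lastCases ?_ (fun j => ?_) i
  · simp
  · simp

private theorem SmA_snocIn {n : ℕ} (xs : Fin n → ℕ) (a : ℕ) (Y : Finset ℕ) (hx : ∀ i, xs i ∈ Y) (ha : a ∈ Y)
    (i : Fin (n + 1)) : Fin.snoc (α := fun _ => ℕ) xs a i ∈ Y := by
  refine Fin.lastCases ?_ (fun j => ?_) i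
  · simpa using ha
  · simpa using hx j

/-- the game -/
theorem ef (vs : VS) {α : Type} {n : ℕ} (φ : (Lg ar).BoundedFormula α n) (hsym : ∀ r ∈ symb φ, Pres vs D r)
    (Y Y' : Finset ℕ) (h : ℕ → ℕ) (hi : Iso vs.VE vs.base Y Y' h)
    (hs : Strong (vl vs.VE) (Y : Set ℕ) (qd φ)) (hs' : Strong (vl vs.VE) (Y' : Set ℕ) (qd φ))
    (v : α → ℕ) (xs : Fin n → ℕ) (hv : ∀ a, v a ∈ Y) (hx : ∀ i, xs i ∈ Y) :
    (φ.Realize (M := Univ D) v xs ↔ φ.Realize (M := Univ D) (fun a => h (v a)) fun i => h (xs i)) := by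
  induction φ generalizing Y Y' h v with
  | falsum => exact Iff.rfl
  | equal t₁ t₂ =>
    obtain ⟨y₁, h₁, e₁, f₁⟩ := SmA_tm (D := D) t₁ v xs Y h hv hx
    obtain ⟨y₂, h₂, e₂, f₂⟩ := SmA_tm (D := D) t₂ v xs Y h hv hx
    show (_ = _) ↔ (_ = _)
    rw [e₁, e₂, f₁, f₂]
    exact ⟨fun e => congrArg h e, fun e => hi.bij.injOn h₁ h₂ e⟩
  | rel R ts =>
    choose y hy e f using fun i => SmA_tm (D := D) (ts i) v xs Y h hv hx
    show D (R.1, List.ofFn fun i => _) ↔ D (R.1, List.ofFn fun i => _)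
    simp only [e, f]
    have := hsym R.1 (by simp [symb]) Y Y' h hi (List.ofFn y) (by
      intro w hw
      obtain ⟨i, rfl⟩ := (List.mem_ofFn' _ _).1 hw
      exact hy i)
    rw [List.map_ofFn] at this
    exact this
  | imp φ ψ ih₁ ih₂ =>
    have a₁ := ih₁ (fun r hr => hsym r (by simp [symb, hr])) Y Y' h hi
      (SmA_mono (by simp [qd]) hs) (SmA_mono (by simp [qd]) hs') v xs hv hx
    have a₂ := ih₂ (fun r hr => hsym r (by simp [symb, hr])) Y Y' h hi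
      (SmA_mono (by simp [qd]) hs) (SmA_mono (by simp [qd]) hs') v xs hv hx
    show (_ → _) ↔ (_ → _)
    exact imp_congr a₁ a₂
  | all φ ih =>
    show (∀ a : ℕ, _) ↔ (∀ b : ℕ, _)
    constructor
    · intro H b
      obtain ⟨g, hg, g₁, g₂⟩ := iso_symm hi
      obtain ⟨Y₁, Y₁', h', y₁, y₂, y₃, y₄, y₅, y₆⟩ := ef_step vs hg hs' hs b
      have hsub : ∀ w ∈ Y, h' (h w) = w := fun w hw => by
        rw [y₃ _ (hi.bij.mapsTo hw)]; exact g₁ w hw
      have := ih (fun r hr => hsym r hr) Y₁ Y₁' h' y₄ y₅ y₆ (fun a => h (v a))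
        (Fin.snoc (α := fun _ => ℕ) (fun i => h (xs i)) b)
        (fun a => y₁ (hi.bij.mapsTo (hv a)))
        (SmA_snocIn _ _ _ (fun i => y₁ (hi.bij.mapsTo (hx i))) y₂)
      refine this.2 ?_
      rw [SmA_snoc]
      have e₁ : (fun a => h' (h (v a))) = v := funext fun a => hsub _ (hv a)
      have e₂ : (fun i => h' (h (xs i))) = xs := funext fun i => hsub _ (hx i)
      rw [e₁, e₂]
      exact H (h' b)
    · intro H a
      obtain ⟨Y₁, Y₁', h', y₁, y₂, y₃, y₄, y₅, y₆⟩ := ef_step vs hi hs hs' a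
      have := ih (fun r hr => hsym r hr) Y₁ Y₁' h' y₄ y₅ y₆ v
        (Fin.snoc (α := fun _ => ℕ) xs a) (fun a => y₁ (hv a))
        (SmA_snocIn _ _ _ (fun i => y₁ (hx i)) y₂)
      refine this.2 ?_
      rw [SmA_snoc]
      have e₁ : (fun a => h' (v a)) = fun a => h (v a) := funext fun a => y₃ _ (hv a)
      have e₂ : (fun i => h' (xs i)) = fun i => h (xs i) := funext fun i => y₃ _ (hx i)
      rw [e₁, e₂]
      exact H (h' a)

end FdZ
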