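import Pool.Agent.Lib.MP_fd2900_lc.Z.SmA

namespace FdZ

open FirstOrder FirstOrder.Language Pool.Agent.MP_fd2900_lc

variable {ar : ℕ → ℕ} {D : ℕ × List ℕ → Prop}

private theorem SmB_iso_id (vs : VS) {Y : Finset ℕ} (hb : vs.base ⊆ Y) : Iso vs.VE vs.base Y Y id where
  bij := Set.bijOn_id _
  fix := fun _ _ => rfl
  sub := hb
  iff := fun e _ => by simp

private theorem SmB_move (vs : VS) {n : ℕ} (φ : (Lg ar).Formula (Fin n ⊕ Unit))
    (hsym : ∀ r ∈ symb φ, Pres vs D r) (c : Fin n → ℕ) {Y U : Finset ℕ} (hb : vs.base ⊆ Y)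
    (hc : ∀ i, c i ∈ Y) (hs : Strong (vl vs.VE) (Y : Set ℕ) (qd φ + 1))
    (hU : ∀ Z : Finset ℕ, Z.card ≤ qd φ + 1 → Tight vs.VE Y Z → Z ⊆ U) {z z' : ℕ}
    (hz : z ∉ Y ∪ U) (hz' : z' ∉ Y ∪ U)
    (h : φ.Realize (M := Univ D) (Sum.elim c fun _ => z)) :
    φ.Realize (M := Univ D) (Sum.elim c fun _ => z') := by
  have hzY : z ∉ Y := fun h => hz (Finset.mem_union_left _ h)
  have hzY' : z' ∉ Y := fun h => hz' (Finset.mem_union_left _ h)
  have f1 := far_point (k := qd φ) hzY hs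
    (fun Z h1 h2 h3 => hz (Finset.mem_union_right _ (hU Z h1 h2 h3)))
  have f2 := far_point (k := qd φ) hzY' hs
    (fun Z h1 h2 h3 => hz' (Finset.mem_union_right _ (hU Z h1 h2 h3)))
  obtain ⟨g, hg, hgz, hiso⟩ := free_ext vs (k := qd φ) (SmB_iso_id vs hb) hzY hzY' f1.1 f2.1
  have key := ef (D := D) vs φ hsym _ _ g hiso f1.2 f2.2 (Sum.elim c fun _ => z) (fun i : Fin 0 => i.elim0)
    (by
      rintro (i | u)
      · exact Finset.mem_union_left _ (hc i)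
      · exact Finset.mem_union_right _ (Finset.mem_singleton_self z))
    (fun i => i.elim0)
  have e1 : (fun a => g ((Sum.elim c fun _ => z : Fin n ⊕ Unit → ℕ) a)) = Sum.elim c fun _ => z' := by
    funext a
    rcases a with i | u
    · simpa using hg (c i) (hc i)
    · simpa using hgz
  have e2 : (fun i : Fin 0 => g ((fun i : Fin 0 => i.elim0 : Fin 0 → ℕ) i)) = fun i : Fin 0 => i.elim0 :=
    Subsingleton.elim _ _
  rw [e1, e2] at key
  have e3 : (default : Fin 0 → Univ D) = (fun i : Fin 0 => i.elim0 : Fin 0 → ℕ) := Subsingleton.elim _ _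
  unfold Formula.Realize at h ⊢
  rw [e3] at h ⊢
  exact key.1 h

/-- uniform finiteness -/
theorem unif (hVS : ∀ Rs : Finset ℕ, ∃ vs : VS, ∀ r ∈ Rs, Pres vs D r) {n : ℕ}
    (φ : (Lg ar).Formula (Fin n ⊕ Unit)) :
    ∃ N : ℕ, ∀ c : Fin n → ℕ, ∃ F : Finset ℕ, F.card ≤ N ∧
      ((∀ z, z ∉ F → φ.Realize (M := Univ D) (Sum.elim c fun _ => z)) ∨
        ∀ z, z ∉ F → ¬ φ.Realize (M := Univ D) (Sum.elim c fun _ => z)) := by
  obtain ⟨vs, hvs⟩ := hVS (symb φ)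
  obtain ⟨N₁, h₁⟩ := closure_bound vs (qd φ + 1) (vs.base.card + n)
  obtain ⟨N₂, h₂⟩ := tight_bound vs (qd φ + 1) N₁
  refine ⟨N₁ + N₂, fun c => ?_⟩
  have hcard : (vs.base ∪ Finset.univ.image c).card ≤ vs.base.card + n := by
    refine (Finset.card_union_le _ _).trans ?_
    have := Finset.card_image_le (s := (Finset.univ : Finset (Fin n))) (f := c)
    simp only [Finset.card_univ, Fintype.card_fin] at this
    omega
  obtain ⟨Y, hY, hYc, hs⟩ := h₁ _ hcard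
  obtain ⟨U, hUc, hU⟩ := h₂ Y hYc
  have hb : vs.base ⊆ Y := fun v hv => hY (Finset.mem_union_left _ hv)
  have hc : ∀ i, c i ∈ Y := fun i =>
    hY (Finset.mem_union_right _ (Finset.mem_image_of_mem _ (Finset.mem_univ i)))
  refine ⟨Y ∪ U, (Finset.card_union_le _ _).trans (Nat.add_le_add hYc hUc), ?_⟩
  by_cases hex : ∃ z, z ∉ Y ∪ U ∧ φ.Realize (M := Univ D) (Sum.elim c fun _ => z)
  · obtain ⟨z, hz, hφ⟩ := hex
    exact Or.inl fun z' hz' => SmB_move vs φ hvs c hb hc hs hU hz hz' hφ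
  · exact Or.inr fun z hz hφ => hex ⟨z, hz, hφ⟩

end FdZ
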