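import Pool.Agent.Lib.MP_fd2900_lc.Z.VSTight

namespace FdZ

/-- adding a set with as many edges as points keeps strongness -/
theorem strong_add {VE : Set Edge} {Y W : Finset ℕ} {K k : ℕ} (hW : ∀ v ∈ W, v ∉ Y)
    (hs : Strong (vl VE) (Y : Set ℕ) K) (hk : k + W.card ≤ K)
    (h : ∃ L : Finset Edge, W.card ≤ L.card ∧ ∀ e ∈ L, e ∈ VE ∧ Meets Y W e) :
    Strong (vl VE) ((Y ∪ W : Finset ℕ) : Set ℕ) k := by
  classical
  obtain ⟨L₀, hL₀, hL₀'⟩ := h
  intro Z hZk hZ L hL
  have hZW : Disjoint W Z := by
    rw [Finset.disjoint_left]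
    intro v hv hv'
    apply hZ v hv'
    simp [hv]
  have hcard : (W ∪ Z).card = W.card + Z.card := Finset.card_union_of_disjoint hZW
  have hdisj : Disjoint L L₀ := by
    rw [Finset.disjoint_left]
    intro e he he'
    obtain ⟨-, -, v, hv, hvZ⟩ := hL e he
    have h1 := (hL₀' e he').2.1 v hv
    have h2 := hZ v (by simpa using hvZ)
    apply h2
    simpa using h1
  have hWZ := hs (W ∪ Z) (by omega) (by
    intro v hv hvY
    rcases Finset.mem_union.1 hv with hv | hv
    · exact hW v hv (by simpa using hvY)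
    · apply hZ v hv
      simp only [Finset.coe_union, Set.mem_union]
      exact Or.inl hvY) (L ∪ L₀) (by
    intro e he
    rcases Finset.mem_union.1 he with he | he
    · obtain ⟨h1, h2, v, hv, hvZ⟩ := hL e he
      refine ⟨h1, ?_, v, hv, ?_⟩
      · intro u hu
        have := h2 u hu
        simp only [Finset.coe_union, Set.mem_union] at this ⊢
        tauto
      · simp only [Finset.coe_union, Set.mem_union]
        exact Or.inr hvZ
    · obtain ⟨h1, h2, v, hv, hvW⟩ := hL₀' e he
      refine ⟨⟨e.1, h1, rfl⟩, ?_, v, hv, ?_⟩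
      · intro u hu
        have := h2 u hu
        simp only [Finset.coe_union, Set.mem_union, Finset.mem_coe] at this ⊢
        tauto
      · simp only [Finset.coe_union, Set.mem_union, Finset.mem_coe]
        exact Or.inl hvW)
  rw [Finset.card_union_of_disjoint hdisj, hcard] at hWZ
  omega

/-- edges are transported by isomorphisms -/
theorem iso_edges {VE : Set Edge} {base Y Y' Z Z' : Finset ℕ} {h : ℕ → ℕ}
    (hi : Iso VE base (Y ∪ Z) (Y' ∪ Z') h) (hY : Set.BijOn h (Y : Set ℕ) (Y' : Set ℕ))
    (hZ : ∀ v ∈ Z, v ∉ Y) (hZ' : ∀ v ∈ Z', v ∉ Y') {n : ℕ}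
    (hL : ∃ L : Finset Edge, n ≤ L.card ∧ ∀ e ∈ L, e ∈ VE ∧ Meets Y Z e) :
    ∃ L : Finset Edge, n ≤ L.card ∧ ∀ e ∈ L, e ∈ VE ∧ Meets Y' Z' e := by
  classical
  obtain ⟨L, hLn, hL⟩ := hL
  have hin : ∀ e ∈ L, ∀ v ∈ e.2, v ∈ Y ∪ Z := by
    intro e he v hv
    have := (hL e he).2.1 v hv
    simpa using this
  have hmap : ∀ v ∈ Y ∪ Z, h v ∈ Y' ∪ Z' := by
    intro v hv
    have := hi.bij.mapsTo (by exact_mod_cast hv : v ∈ ((Y ∪ Z : Finset ℕ) : Set ℕ))
    exact_mod_cast this
  have hinj : ∀ v ∈ Y ∪ Z, ∀ w ∈ Y ∪ Z, h v = h w → v = w := by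
    intro v hv w hw hvw
    exact hi.bij.injOn (by exact_mod_cast hv) (by exact_mod_cast hw) hvw
  refine ⟨L.image fun e => (e.1, e.2.map h), ?_, ?_⟩
  · rw [Finset.card_image_of_injOn]
    · exact hLn
    · intro e he e' he' hee
      have he := Finset.mem_coe.1 he
      have he' := Finset.mem_coe.1 he'
      simp only [Prod.mk.injEq] at hee
      obtain ⟨h1, h2⟩ := hee
      have h3 : e.2 = e'.2 := by
        have hg : ∀ l l' : List ℕ, (∀ v ∈ l, v ∈ Y ∪ Z) → (∀ v ∈ l', v ∈ Y ∪ Z) →
            l.map h = l'.map h → l = l' := by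
          intro l
          induction l with
          | nil =>
            intro l' _ _ hl
            cases l' with
            | nil => rfl
            | cons b l' => simp at hl
          | cons a l ih =>
            intro l' hl hl' hll
            cases l' with
            | nil => simp at hll
            | cons b l' =>
              simp only [List.map_cons, List.cons.injEq] at hll
              have hab : a = b := hinj a (hl a (by simp)) b (hl' b (by simp)) hll.1
              have := ih l' (fun v hv => hl v (by simp [hv])) (fun v hv => hl' v (by simp [hv])) hll.2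
              rw [hab, this]
        exact hg _ _ (hin e he) (hin e' he') h2
      exact Prod.ext h1 h3
  · intro e' he'
    obtain ⟨e, he, rfl⟩ := Finset.mem_image.1 he'
    obtain ⟨h1, h2, v, hv, hvZ⟩ := hL e he
    refine ⟨(hi.iff e (hin e he)).1 h1, ?_, ?_⟩
    · intro u hu
      simp only [List.mem_map] at hu
      obtain ⟨w, hw, rfl⟩ := hu
      have := hmap w (hin e he w hw)
      simpa using this
    · refine ⟨h v, ?_, ?_⟩
      · simp only [List.mem_map]
        exact ⟨v, hv, rfl⟩
      · have := hmap v (hin e he v hv)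
        rcases Finset.mem_union.1 this with h5 | h5
        · exfalso
          obtain ⟨y, hy, hyv⟩ := hY.surjOn (by exact_mod_cast h5 : h v ∈ (Y' : Set ℕ))
          have hy : y ∈ Y := by exact_mod_cast hy
          have : y = v := hinj y (by simp [hy]) v (hin e he v hv) hyv
          subst this
          exact hZ _ hvZ hy
        · exact h5

/-- the inverse of an isomorphism -/
theorem iso_symm {VE : Set Edge} {base Y Y' : Finset ℕ} {h : ℕ → ℕ} (hi : Iso VE base Y Y' h) :
    ∃ g : ℕ → ℕ, Iso VE base Y' Y g ∧ (∀ v ∈ Y, g (h v) = v) ∧ ∀ v ∈ Y', h (g v) = v := by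
  classical
  have hinv : Set.InvOn (Function.invFunOn h (Y : Set ℕ)) h (Y : Set ℕ) (Y' : Set ℕ) :=
    hi.bij.invOn_invFunOn
  set g := Function.invFunOn h (Y : Set ℕ) with hg
  have hl : ∀ v ∈ Y, g (h v) = v := fun v hv => hinv.1 (by exact_mod_cast hv)
  have hr : ∀ v ∈ Y', h (g v) = v := fun v hv => hinv.2 (by exact_mod_cast hv)
  have hbij : Set.BijOn g (Y' : Set ℕ) (Y : Set ℕ) := by
    have := hi.bij.symm hinv.symm
    exact this
  refine ⟨g, ⟨hbij, ?_, ?_, ?_⟩, hl, hr⟩
  · intro v hv
    have := hl v (hi.sub hv)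
    rwa [hi.fix v hv] at this
  · intro v hv
    have := hi.bij.mapsTo (by exact_mod_cast hi.sub hv : v ∈ (Y : Set ℕ))
    rw [hi.fix v hv] at this
    exact_mod_cast this
  · intro e he
    have h1 : ∀ v ∈ (e.1, e.2.map g).2, v ∈ Y := by
      intro v hv
      simp only [List.mem_map] at hv
      obtain ⟨w, hw, rfl⟩ := hv
      have := hbij.mapsTo (by exact_mod_cast he w hw : w ∈ (Y' : Set ℕ))
      exact_mod_cast this
    have h2 := hi.iff (e.1, e.2.map g) h1
    have h3 : (e.2.map g).map h = e.2 := by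
      rw [List.map_map]
      conv_rhs => rw [← List.map_id e.2]
      apply List.map_congr_left
      intro v hv
      exact hr v (he v hv)
    simp only [h3] at h2
    exact h2.symm

end FdZ
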