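import Pool.Agent.Lib.MP_fd2900_lc.Z.VSTight

namespace FdZ

/-- a nonempty set with as many edges as points over a strong set contains a minimal extension -/
theorem exists_minExt {VE : Set Edge} {Y Z : Finset ℕ} (hne : Z.Nonempty) (hZ : ∀ v ∈ Z, v ∉ Y)
    (hs : Strong (vl VE) (Y : Set ℕ) Z.card)
    (h : ∃ L : Finset Edge, Z.card ≤ L.card ∧ ∀ e ∈ L, e ∈ VE ∧ Meets Y Z e) :
    ∃ W, W ⊆ Z ∧ MinExt VE Y W := by
  classical
  have key : ∀ n : ℕ, ∀ Z' : Finset ℕ, Z'.card = n → Z' ⊆ Z → Z'.Nonempty →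
      (∃ L : Finset Edge, Z'.card ≤ L.card ∧ ∀ e ∈ L, e ∈ VE ∧ Meets Y Z' e) →
      ∃ W, W ⊆ Z ∧ W.Nonempty ∧
        (∃ L : Finset Edge, W.card ≤ L.card ∧ ∀ e ∈ L, e ∈ VE ∧ Meets Y W e) ∧
        ∀ P, P ⊂ W → P.Nonempty →
          ¬ ∃ L : Finset Edge, P.card ≤ L.card ∧ ∀ e ∈ L, e ∈ VE ∧ Meets Y P e := by
    intro n
    induction n using Nat.strong_induction_on with
    | _ n ih =>
      intro Z' hn hZ' hne' hL
      by_cases hcon : ∃ P, P ⊂ Z' ∧ P.Nonempty ∧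
          ∃ L : Finset Edge, P.card ≤ L.card ∧ ∀ e ∈ L, e ∈ VE ∧ Meets Y P e
      · obtain ⟨P, hP1, hP2, hP3⟩ := hcon
        exact ih P.card (by rw [← hn]; exact Finset.card_lt_card hP1) P rfl
          (hP1.subset.trans hZ') hP2 hP3
      · refine ⟨Z', hZ', hne', hL, ?_⟩
        intro P hP1 hP2 hP3
        exact hcon ⟨P, hP1, hP2, hP3⟩
  obtain ⟨W, hWZ, hWne, ⟨L, hL1, hL2⟩, hmin⟩ := key Z.card Z rfl (Finset.Subset.refl _) hne h
  refine ⟨W, hWZ, hWne, fun v hv => hZ v (hWZ hv), ?_, ?_⟩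
  · have hfew : ∀ L' : Finset Edge, (∀ e ∈ L', e ∈ VE ∧ Meets Y W e) → L'.card ≤ W.card := by
      intro L' hL'
      refine hs W (Finset.card_le_card hWZ) (fun v hv => ?_) L' ?_
      · exact fun hvY => hZ v (hWZ hv) (Finset.mem_coe.1 hvY)
      · intro e he
        obtain ⟨h1, h2, h3⟩ := hL' e he
        exact ⟨⟨e.1, h1, rfl⟩, h2, h3⟩
    refine ⟨L, le_antisymm (hfew L hL2) hL1, fun e => ⟨fun he => hL2 e he, fun he => ?_⟩⟩
    by_contra hnot
    have h4 := hfew (insert e L) (by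
      intro e' he'
      rcases Finset.mem_insert.1 he' with rfl | he'
      · exact he
      · exact hL2 e' he')
    rw [Finset.card_insert_of_notMem hnot] at h4
    omega
  · intro P hP1 hP2 L' hL'
    by_contra hcon
    exact hmin P hP1 hP2 ⟨L', not_lt.1 hcon, hL'⟩

/-- the rest of the set has as many edges as points over the larger set -/
theorem rest_edges {VE : Set Edge} {Y Z W : Finset ℕ} (hZ : ∀ v ∈ Z, v ∉ Y) (hWZ : W ⊆ Z)
    (hs : Strong (vl VE) (Y : Set ℕ) Z.card)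
    (h : ∃ L : Finset Edge, Z.card ≤ L.card ∧ ∀ e ∈ L, e ∈ VE ∧ Meets Y Z e) :
    ∃ L : Finset Edge, (Z \ W).card ≤ L.card ∧ ∀ e ∈ L, e ∈ VE ∧ Meets (Y ∪ W) (Z \ W) e := by
  classical
  obtain ⟨L, hL1, hL2⟩ := h
  refine ⟨L.filter fun e => ∃ v ∈ e.2, v ∈ Z \ W, ?_, ?_⟩
  · have h1 : (L.filter fun e => ¬ ∃ v ∈ e.2, v ∈ Z \ W).card ≤ W.card := by
      refine hs W (Finset.card_le_card hWZ) (fun v hv => ?_) _ ?_
      · exact fun hvY => hZ v (hWZ hv) (Finset.mem_coe.1 hvY)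
      · intro e he
        obtain ⟨heL, hno⟩ := Finset.mem_filter.1 he
        obtain ⟨h2, h3, v, hv, hvZ⟩ := hL2 e heL
        have hin : ∀ u ∈ e.2, u ∈ Z → u ∈ W := by
          intro u hu huZ
          by_contra huW
          exact hno ⟨u, hu, Finset.mem_sdiff.2 ⟨huZ, huW⟩⟩
        refine ⟨⟨e.1, h2, rfl⟩, fun u hu => ?_, v, hv, Finset.mem_coe.2 (hin v hv hvZ)⟩
        rcases h3 u hu with h4 | h4
        · exact Or.inl (Finset.mem_coe.2 h4)
        · exact Or.inr (Finset.mem_coe.2 (hin u hu h4))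
    have h2 := Finset.card_filter_add_card_filter_not (s := L) (fun e => ∃ v ∈ e.2, v ∈ Z \ W)
    have h3 := Finset.card_sdiff_of_subset hWZ
    have h4 := Finset.card_le_card hWZ
    omega
  · intro e he
    obtain ⟨heL, hmeet⟩ := Finset.mem_filter.1 he
    obtain ⟨h2, h3, _⟩ := hL2 e heL
    refine ⟨h2, fun u hu => ?_, hmeet⟩
    rcases h3 u hu with h4 | h4
    · exact Or.inl (Finset.mem_union_left _ h4)
    · by_cases huW : u ∈ W
      · exact Or.inl (Finset.mem_union_right _ huW)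
      · exact Or.inr (Finset.mem_sdiff.2 ⟨h4, huW⟩)

end FdZ
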