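import Pool.Agent.Lib.MP_fd2900_lc.Z.StA
import Pool.Agent.Lib.MP_fd2900_lc.Z.StB

namespace FdZ

private theorem StC_aux (vs : VS) (n : ℕ) : ∀ {Y Y' Z : Finset ℕ} {h : ℕ → ℕ} {K : ℕ},
    Z.card = n → Iso vs.VE vs.base Y Y' h →
    (∀ v ∈ Z, v ∉ Y) → Z.card ≤ K →
    Strong (vl vs.VE) (Y : Set ℕ) K → Strong (vl vs.VE) (Y' : Set ℕ) K →
    (∃ L : Finset Edge, Z.card ≤ L.card ∧ ∀ e ∈ L, e ∈ vs.VE ∧ Meets Y Z e) →
    ∃ (Z' : Finset ℕ) (h' : ℕ → ℕ), (∀ v ∈ Z', v ∉ Y') ∧ Z'.card = Z.card ∧ (∀ v ∈ Y, h' v = h v) ∧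
      Iso vs.VE vs.base (Y ∪ Z) (Y' ∪ Z') h' := by
  induction n using Nat.strong_induction_on with
  | _ n ih =>
    intro Y Y' Z h K hn hi hZ hK hs hs' hL
    rcases Finset.eq_empty_or_nonempty Z with hZ0 | hne
    · subst hZ0
      refine ⟨∅, h, by simp, rfl, fun _ _ => rfl, ?_⟩
      rw [Finset.union_empty, Finset.union_empty]
      exact hi
    · have hsZ : Strong (vl vs.VE) (Y : Set ℕ) Z.card := strong_mono hs hK
      obtain ⟨W, hWZ, hM⟩ := exists_minExt hne hZ hsZ hL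
      have hWc : W.card ≤ Z.card := Finset.card_le_card hWZ
      have hWpos : 0 < W.card := Finset.card_pos.2 hM.ne
      obtain ⟨W', h₁, hW'Y, hW'c, h₁h, hi₁⟩ := vs.ext Y Y' W h hi hM
        (strong_mono hs (hWc.trans hK)) (strong_mono hs' (hWc.trans hK))
      have hLW : ∃ L : Finset Edge, W.card ≤ L.card ∧ ∀ e ∈ L, e ∈ vs.VE ∧ Meets Y W e := by
        obtain ⟨L, hL1, hL2⟩ := hM.all
        exact ⟨L, hL1.ge, fun e he => (hL2 e).1 he⟩
      have hbij : Set.BijOn h₁ (Y : Set ℕ) (Y' : Set ℕ) :=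
        hi.bij.congr fun v hv => (h₁h v (Finset.mem_coe.1 hv)).symm
      have hLW' : ∃ L : Finset Edge, W'.card ≤ L.card ∧ ∀ e ∈ L, e ∈ vs.VE ∧ Meets Y' W' e := by
        rw [hW'c]
        exact iso_edges hi₁ hbij hM.dj hW'Y hLW
      have hcard : (Z \ W).card = Z.card - W.card := Finset.card_sdiff_of_subset hWZ
      have hs₁ : Strong (vl vs.VE) ((Y ∪ W : Finset ℕ) : Set ℕ) (K - W.card) :=
        strong_add hM.dj hs (by omega) hLW
      have hs₁' : Strong (vl vs.VE) ((Y' ∪ W' : Finset ℕ) : Set ℕ) (K - W.card) :=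
        strong_add hW'Y hs' (by omega) hLW'
      have hZ₁ : ∀ v ∈ Z \ W, v ∉ Y ∪ W := by
        intro v hv hv'
        rw [Finset.mem_sdiff] at hv
        rcases Finset.mem_union.1 hv' with h1 | h1
        · exact hZ v hv.1 h1
        · exact hv.2 h1
      obtain ⟨Z'', h'', hZ''d, hZ''c, h''h, hi''⟩ := ih (Z \ W).card (by omega) rfl hi₁ hZ₁
        (by omega) hs₁ hs₁' (rest_edges hZ hWZ hsZ hL)
      refine ⟨W' ∪ Z'', h'', ?_, ?_, ?_, ?_⟩
      · intro v hv hvY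
        rcases Finset.mem_union.1 hv with h1 | h1
        · exact hW'Y v h1 hvY
        · exact hZ''d v h1 (Finset.mem_union_left _ hvY)
      · have hd : Disjoint W' Z'' := by
          rw [Finset.disjoint_left]
          intro v hv hv'
          exact hZ''d v hv' (Finset.mem_union_right _ hv)
        rw [Finset.card_union_of_disjoint hd]
        omega
      · intro v hv
        rw [h''h v (Finset.mem_union_left _ hv), h₁h v hv]
      · rw [Finset.union_assoc, Finset.union_sdiff_of_subset hWZ, Finset.union_assoc] at hi''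
        exact hi''

/-- extension by a set with as many edges as points -/
theorem chain_ext (vs : VS) {Y Y' Z : Finset ℕ} {h : ℕ → ℕ} {K : ℕ} (hi : Iso vs.VE vs.base Y Y' h)
    (hZ : ∀ v ∈ Z, v ∉ Y) (hK : Z.card ≤ K)
    (hs : Strong (vl vs.VE) (Y : Set ℕ) K) (hs' : Strong (vl vs.VE) (Y' : Set ℕ) K)
    (hL : ∃ L : Finset Edge, Z.card ≤ L.card ∧ ∀ e ∈ L, e ∈ vs.VE ∧ Meets Y Z e) :
    ∃ (Z' : Finset ℕ) (h' : ℕ → ℕ), (∀ v ∈ Z', v ∉ Y') ∧ Z'.card = Z.card ∧ (∀ v ∈ Y, h' v = h v) ∧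
      Iso vs.VE vs.base (Y ∪ Z) (Y' ∪ Z') h' :=
  StC_aux vs Z.card rfl hi hZ hK hs hs' hL

end FdZ
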