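import Pool.Agent.Lib.MP_fd2900_lc.Z.VSTight

namespace FdZ

/-- a free point -/
theorem free_ext (vs : VS) {Y Y' : Finset ℕ} {h : ℕ → ℕ} {k : ℕ} (hi : Iso vs.VE vs.base Y Y' h) {z z' : ℕ}
    (hz : z ∉ Y) (hz' : z' ∉ Y') (h0 : ∀ e ∈ vs.VE, ¬ Meets Y {z} e) (h0' : ∀ e ∈ vs.VE, ¬ Meets Y' {z'} e) :
    ∃ h' : ℕ → ℕ, (∀ v ∈ Y, h' v = h v) ∧ h' z = z' ∧ Iso vs.VE vs.base (Y ∪ {z}) (Y' ∪ {z'}) h' := by
  have hY : ∀ v ∈ Y, Function.update h z z' v = h v := by
    intro v hv
    have hvz : v ≠ z := by
      intro hvz
      rw [hvz] at hv
      exact hz hv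
    exact Function.update_of_ne hvz _ _
  have hzz : Function.update h z z' z = z' := Function.update_self _ _ _
  have hmem : ∀ v ∈ Y, h v ∈ Y' := fun v hv => by
    have := hi.bij.mapsTo (Finset.mem_coe.2 hv)
    exact Finset.mem_coe.1 this
  refine ⟨Function.update h z z', hY, hzz, ?_, ?_, ?_, ?_⟩
  · refine ⟨?_, ?_, ?_⟩
    · intro v hv
      rw [Finset.mem_coe, Finset.mem_union, Finset.mem_singleton] at hv
      rw [Finset.mem_coe, Finset.mem_union, Finset.mem_singleton]
      rcases hv with hv | rfl
      · left
        rw [hY v hv]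
        exact hmem v hv
      · right
        exact hzz
    · intro v hv w hw hvw
      rw [Finset.mem_coe, Finset.mem_union, Finset.mem_singleton] at hv hw
      rcases hv with hv | rfl <;> rcases hw with hw | rfl
      · rw [hY v hv, hY w hw] at hvw
        exact hi.bij.injOn (Finset.mem_coe.2 hv) (Finset.mem_coe.2 hw) hvw
      · rw [hY v hv, hzz] at hvw
        apply absurd _ hz'
        rw [← hvw]
        exact hmem v hv
      · rw [hY w hw, hzz] at hvw
        apply absurd _ hz'
        rw [hvw]
        exact hmem w hw
      · rfl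
    · intro w hw
      rw [Finset.mem_coe, Finset.mem_union, Finset.mem_singleton] at hw
      rcases hw with hw | rfl
      · obtain ⟨v, hv, hvw⟩ := hi.bij.surjOn (Finset.mem_coe.2 hw)
        refine ⟨v, ?_, ?_⟩
        · rw [Finset.mem_coe, Finset.mem_union]
          exact Or.inl (Finset.mem_coe.1 hv)
        · rw [hY v (Finset.mem_coe.1 hv)]
          exact hvw
      · refine ⟨z, ?_, hzz⟩
        rw [Finset.mem_coe, Finset.mem_union, Finset.mem_singleton]
        exact Or.inr rfl
  · intro v hv
    rw [hY v (hi.sub hv)]
    exact hi.fix v hv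
  · exact fun v hv => Finset.mem_union_left _ (hi.sub hv)
  · intro e he
    by_cases hze : z ∈ e.2
    · have h1 : e ∉ vs.VE := by
        intro hE
        apply h0 e hE
        refine ⟨fun v hv => ?_, z, hze, Finset.mem_singleton_self z⟩
        have := he v hv
        rw [Finset.mem_union] at this
        exact this
      have h2 : (e.1, e.2.map (Function.update h z z')) ∉ vs.VE := by
        intro hE
        apply h0' _ hE
        refine ⟨fun w hw => ?_, z', ?_, Finset.mem_singleton_self z'⟩
        · change w ∈ e.2.map (Function.update h z z') at hw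
          rw [List.mem_map] at hw
          obtain ⟨v, hv, rfl⟩ := hw
          have := he v hv
          rw [Finset.mem_union, Finset.mem_singleton] at this
          rcases this with h3 | rfl
          · left
            rw [hY v h3]
            exact hmem v h3
          · right
            rw [hzz]
            exact Finset.mem_singleton_self z'
        · change z' ∈ e.2.map (Function.update h z z')
          rw [List.mem_map]
          exact ⟨z, hze, hzz⟩
      exact ⟨fun h3 => absurd h3 h1, fun h3 => absurd h3 h2⟩
    · have h1 : ∀ v ∈ e.2, v ∈ Y := by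
        intro v hv
        have := he v hv
        rw [Finset.mem_union, Finset.mem_singleton] at this
        rcases this with h3 | rfl
        · exact h3
        · exact absurd hv hze
      have h2 : e.2.map (Function.update h z z') = e.2.map h :=
        List.map_congr_left fun v hv => hY v (h1 v hv)
      rw [h2]
      exact hi.iff e h1

private theorem StD_mono {lab : Lb → Edge → Prop} {X : Set ℕ} {j k : ℕ} (hjk : j ≤ k)
    (h : Strong lab X k) : Strong lab X j := fun Z hZ hd => h Z (hZ.trans hjk) hd

/-- a point outside all small tight sets is free and strong -/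
theorem far_point {VE : Set Edge} {Y : Finset ℕ} {k : ℕ} {z : ℕ} (hz : z ∉ Y)
    (hs : Strong (vl VE) (Y : Set ℕ) (k + 1))
    (hf : ∀ Z : Finset ℕ, Z.card ≤ k + 1 → Tight VE Y Z → z ∉ Z) :
    (∀ e ∈ VE, ¬ Meets Y {z} e) ∧ Strong (vl VE) ((Y ∪ {z} : Finset ℕ) : Set ℕ) k := by
  constructor
  · intro e he hm
    have h1 : ({z} : Finset ℕ).card = 1 := Finset.card_singleton z
    refine hf {z} (by omega) (tight_of_strong ?_ ?_ ⟨{e}, ?_, ?_⟩) (Finset.mem_singleton_self z)
    · intro v hv
      rw [Finset.mem_singleton] at hv
      rw [hv]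
      exact hz
    · rw [h1]
      exact StD_mono (by omega) hs
    · rw [h1, Finset.card_singleton]
    · intro e' he'
      rw [Finset.mem_singleton] at he'
      rw [he']
      exact ⟨he, hm⟩
  · intro Z hZ hd L hL
    by_contra hlt
    push Not at hlt
    have hzZ : z ∉ Z := by
      intro h1
      apply hd z h1
      rw [Finset.mem_coe, Finset.mem_union, Finset.mem_singleton]
      exact Or.inr rfl
    have hc : (Z ∪ {z}).card = Z.card + 1 := by
      rw [Finset.card_union_of_disjoint (Finset.disjoint_singleton_right.2 hzZ),
        Finset.card_singleton]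
    refine hf (Z ∪ {z}) (by omega) (tight_of_strong ?_ ?_ ⟨L, by omega, ?_⟩)
      (Finset.mem_union_right _ (Finset.mem_singleton_self z))
    · intro v hv
      rw [Finset.mem_union, Finset.mem_singleton] at hv
      rcases hv with hv | rfl
      · intro hvY
        apply hd v hv
        rw [Finset.mem_coe, Finset.mem_union]
        exact Or.inl hvY
      · exact hz
    · rw [hc]
      exact StD_mono (by omega) hs
    · intro e he
      obtain ⟨⟨ℓ, hℓ⟩, hin, v, hv, hvZ⟩ := hL e he
      refine ⟨hℓ.1, fun w hw => ?_, v, hv, Finset.mem_union_left _ (Finset.mem_coe.1 hvZ)⟩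
      rcases hin w hw with h1 | h1
      · rw [Finset.mem_coe, Finset.mem_union, Finset.mem_singleton] at h1
        rcases h1 with h1 | h1
        · exact Or.inl h1
        · right
          rw [Finset.mem_union, Finset.mem_singleton]
          exact Or.inr h1
      · right
        rw [Finset.mem_union]
        exact Or.inl (Finset.mem_coe.1 h1)

end FdZ
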