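import Pool.Agent.Lib.MP_fd2900_lc.Z.StC
import Pool.Agent.Lib.MP_fd2900_lc.Z.StD

namespace FdZ

private theorem StE_mono {lb : Lb → Edge → Prop} {X : Set ℕ} {a b : ℕ} (hab : a ≤ b) (h : Strong lb X b) :
    Strong lb X a := fun Z hZ hd => h Z (hZ.trans hab) hd

/-- if `z` is not free and strong over `Y`, it lies in a small set with as many edges as points -/
private theorem StE_dep {VE : Set Edge} {Y : Finset ℕ} {k z : ℕ} (hz : z ∉ Y)
    (hn : ¬ ((∀ e ∈ VE, ¬ Meets Y {z} e) ∧ Strong (vl VE) ((Y ∪ {z} : Finset ℕ) : Set ℕ) k)) :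
    ∃ Z : Finset ℕ, z ∈ Z ∧ (∀ v ∈ Z, v ∉ Y) ∧ Z.card ≤ k + 1 ∧
      ∃ L : Finset Edge, Z.card ≤ L.card ∧ ∀ e ∈ L, e ∈ VE ∧ Meets Y Z e := by
  classical
  by_cases h1 : ∀ e ∈ VE, ¬ Meets Y {z} e
  · have h2 : ¬ Strong (vl VE) ((Y ∪ {z} : Finset ℕ) : Set ℕ) k := fun h => hn ⟨h1, h⟩
    unfold Strong Few at h2
    push Not at h2
    obtain ⟨Z₀, hZ₀, hd, L, hL, hc⟩ := h2
    have hz0 : z ∉ Z₀ := fun hh => hd z hh (by simp)
    refine ⟨insert z Z₀, Finset.mem_insert_self _ _, ?_, ?_, L, ?_, ?_⟩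
    · intro v hv
      rcases Finset.mem_insert.1 hv with rfl | hv
      · exact hz
      · intro hY
        exact hd v hv (by simp [hY])
    · rw [Finset.card_insert_of_notMem hz0]; omega
    · rw [Finset.card_insert_of_notMem hz0]; omega
    · intro e he
      obtain ⟨⟨ℓ, hℓ⟩, hin, v, hv, hvZ⟩ := hL e he
      refine ⟨hℓ.1, ?_, v, hv, ?_⟩
      · intro w hw
        rcases hin w hw with h | h
        · simp only [Finset.coe_union, Finset.coe_singleton, Set.mem_union, Finset.mem_coe,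
            Set.mem_singleton_iff] at h
          rcases h with h | h
          · exact Or.inl h
          · exact Or.inr (by rw [h]; exact Finset.mem_insert_self _ _)
        · exact Or.inr (Finset.mem_insert_of_mem (by simpa using h))
      · exact Finset.mem_insert_of_mem (by simpa using hvZ)
  · push Not at h1
    obtain ⟨e, he, hm⟩ := h1
    refine ⟨{z}, Finset.mem_singleton_self _, ?_, by simp, {e}, by simp, ?_⟩
    · intro v hv
      rw [Finset.mem_singleton] at hv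
      rw [hv]; exact hz
    · intro e' he'
      rw [Finset.mem_singleton] at he'
      rw [he']; exact ⟨he, hm⟩

/-- one step of the game -/
theorem ef_step (vs : VS) {Y Y' : Finset ℕ} {h : ℕ → ℕ} {k : ℕ} (hi : Iso vs.VE vs.base Y Y' h)
    (hs : Strong (vl vs.VE) (Y : Set ℕ) (2 * k + 1)) (hs' : Strong (vl vs.VE) (Y' : Set ℕ) (2 * k + 1)) (z : ℕ) :
    ∃ (Y₁ Y₁' : Finset ℕ) (h' : ℕ → ℕ), Y ⊆ Y₁ ∧ z ∈ Y₁ ∧ (∀ v ∈ Y, h' v = h v) ∧
      Iso vs.VE vs.base Y₁ Y₁' h' ∧ Strong (vl vs.VE) (Y₁ : Set ℕ) k ∧ Strong (vl vs.VE) (Y₁' : Set ℕ) k := by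
  classical
  by_cases hz : z ∈ Y
  · exact ⟨Y, Y', h, Finset.Subset.refl _, hz, fun _ _ => rfl, hi, StE_mono (by omega) hs,
      StE_mono (by omega) hs'⟩
  by_cases hf : (∀ e ∈ vs.VE, ¬ Meets Y {z} e) ∧ Strong (vl vs.VE) ((Y ∪ {z} : Finset ℕ) : Set ℕ) k
  · obtain ⟨N, hN⟩ := tight_bound vs (k + 1) Y'.card
    obtain ⟨U, -, hU⟩ := hN Y' le_rfl
    obtain ⟨z', hz'⟩ := Infinite.exists_notMem_finset (Y' ∪ U)
    rw [Finset.mem_union, not_or] at hz'
    obtain ⟨h0', hst'⟩ := far_point (VE := vs.VE) (k := k) hz'.1 (StE_mono (by omega) hs')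
      (fun Z hZ ht hzZ => hz'.2 (hU Z hZ ht hzZ))
    obtain ⟨h', heq, -, hiso⟩ := free_ext vs (k := k) hi hz hz'.1 hf.1 h0'
    exact ⟨Y ∪ {z}, Y' ∪ {z'}, h', Finset.subset_union_left, by simp, heq, hiso, hf.2, hst'⟩
  · obtain ⟨Z, hzZ, hd, hc, hL⟩ := StE_dep hz hf
    obtain ⟨Z', h', hd', hcard, heq, hiso⟩ := chain_ext vs hi hd (by omega : Z.card ≤ 2 * k + 1) hs hs' hL
    have hbij : Set.BijOn h' (Y : Set ℕ) (Y' : Set ℕ) :=
      hi.bij.congr fun v hv => (heq v (by simpa using hv)).symm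
    have hL' := iso_edges hiso hbij hd hd' hL
    rw [← hcard] at hL'
    exact ⟨Y ∪ Z, Y' ∪ Z', h', Finset.subset_union_left, Finset.mem_union_right _ hzZ, heq, hiso,
      strong_add hd hs (by omega) hL, strong_add hd' hs' (by omega) hL'⟩

end FdZ
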