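import Pool.Agent.Lib.MP_fd2900_lc.Z.Defs

namespace FdZ

variable {lab : Lb → Edge → Prop} {p q : ℕ} {pat : List Edge} {β ν : List ℕ}

private theorem SupA_fa_right {α γ : Type} {R : α → γ → Prop} {l : List α} {l' : List γ}
    (h : List.Forall₂ R l l') : ∀ e ∈ l', ∃ a ∈ l, R a e := by
  induction h with
  | nil => intro e he; exact absurd he (List.not_mem_nil)
  | @cons a b l l' hab _ ih =>
    intro e he
    rcases List.mem_cons.1 he with rfl | he
    · exact ⟨a, List.mem_cons_self, hab⟩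
    · obtain ⟨c, hc, hce⟩ := ih e he
      exact ⟨c, List.mem_cons_of_mem _ hc, hce⟩

private theorem SupA_fa_left {α γ : Type} {R : α → γ → Prop} {l : List α} {l' : List γ}
    (h : List.Forall₂ R l l') : ∀ a ∈ l, ∃ e ∈ l', R a e := by
  induction h with
  | nil => intro e he; exact absurd he (List.not_mem_nil)
  | @cons a b l l' hab _ ih =>
    intro e he
    rcases List.mem_cons.1 he with rfl | he
    · exact ⟨b, List.mem_cons_self, hab⟩
    · obtain ⟨c, hc, hce⟩ := ih e he
      exact ⟨c, List.mem_cons_of_mem _ hc, hce⟩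

private theorem SupA_fa_length {α γ : Type} {R : α → γ → Prop} {l : List α} {l' : List γ}
    (h : List.Forall₂ R l l') : l.length = l'.length := by
  induction h with
  | nil => rfl
  | cons _ _ ih => rw [List.length_cons, List.length_cons, ih]

private theorem SupA_getD_mem {xs : List ℕ} {k : ℕ} (h : k < xs.length) : xs.getD k 0 ∈ xs := by
  rw [List.getD_eq_getElem _ _ h]
  exact List.getElem_mem h

theorem inst_mem {xs idx : List ℕ} {v : ℕ} : v ∈ inst xs idx ↔ ∃ k ∈ idx, xs.getD k 0 = v := by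
  unfold inst
  rw [List.mem_map]

/-- edges used by a realization are inside `β ∪ ν` and meet `ν` -/
theorem img_sub (hc : Code p q pat) (hβ : β.length = p) (hν : ν.length = q) {e : Edge}
    (h : ImgE lab pat β ν e) : (∀ v ∈ e.2, v ∈ β ∨ v ∈ ν) ∧ ∃ v ∈ e.2, v ∈ ν := by
  obtain ⟨pe, hpe, _, he⟩ := h
  constructor
  · intro v hv
    rw [he, inst_mem] at hv
    obtain ⟨k, hk, rfl⟩ := hv
    have h1 : k < (β ++ ν).length := by
      rw [List.length_append, hβ, hν]
      exact hc.lt pe hpe k hk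
    exact List.mem_append.1 (SupA_getD_mem h1)
  · obtain ⟨k, hk, hpk⟩ := hc.new pe hpe
    refine ⟨(β ++ ν).getD k 0, ?_, ?_⟩
    · rw [he, inst_mem]
      exact ⟨k, hk, rfl⟩
    · rw [List.getD_append_right β ν 0 k (by rw [hβ]; exact hpk)]
      apply SupA_getD_mem
      have h1 := hc.lt pe hpe k hk
      rw [hβ, hν]
      omega

/-- a realization uses exactly `q` edges -/
theorem all_edges (hc : Code p q pat) (h : Real lab pat β ν) :
    ∃ L : Finset Edge, L.card = q ∧ ∀ e ∈ L, ImgE lab pat β ν e := by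
  classical
  obtain ⟨_, es, hnd, hes⟩ := h
  refine ⟨es.toFinset, ?_, ?_⟩
  · rw [List.toFinset_card_of_nodup hnd, ← SupA_fa_length hes, hc.len]
  · intro e he
    obtain ⟨pe, hpe, h1, h2⟩ := SupA_fa_right hes e (List.mem_toFinset.1 he)
    exact ⟨pe, hpe, h1, h2⟩

/-- every base point is in an edge -/
theorem base_edge (hc : Code p q pat) (hβ : β.length = p) (h : Real lab pat β ν) {b : ℕ} (hb : b ∈ β) :
    ∃ e, ImgE lab pat β ν e ∧ b ∈ e.2 := by
  obtain ⟨_, es, _, hes⟩ := h
  obtain ⟨k, hk, rfl⟩ := List.mem_iff_getElem.1 hb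
  obtain ⟨pe, hpe, hkpe⟩ := hc.base k (by rw [← hβ]; exact hk)
  obtain ⟨e, _, h1, h2⟩ := SupA_fa_left hes pe hpe
  refine ⟨e, ⟨pe, hpe, h1, h2⟩, ?_⟩
  rw [h2, inst_mem]
  refine ⟨k, hkpe, ?_⟩
  rw [List.getD_append β ν 0 k hk, List.getD_eq_getElem _ _ hk]

end FdZ
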