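import Pool.Agent.Lib.MP_fd2900_lc.Z.SupA

namespace FdZ

variable {lab : Lb → Edge → Prop} {p q : ℕ} {pat : List Edge} {β ν : List ℕ}

private theorem SupB_sel {R : Edge → Edge → Prop} {l₁ l₂ : List Edge} (h : List.Forall₂ R l₁ l₂)
    (P : Edge → Bool) : ∃ l : List Edge, l.Sublist l₂ ∧ l.length = (l₁.filter P).length ∧
      ∀ e ∈ l, ∃ pe ∈ l₁, P pe = true ∧ R pe e := by
  induction h with
  | nil => exact ⟨[], List.Sublist.refl _, rfl, by simp⟩
  | @cons a b t₁ t₂ hab _ ih =>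
    obtain ⟨l, hl1, hl2, hl3⟩ := ih
    by_cases hP : P a = true
    · refine ⟨b :: l, hl1.cons_cons b, ?_, ?_⟩
      · rw [List.filter_cons_of_pos hP, List.length_cons, List.length_cons, hl2]
      · intro e he
        rcases List.mem_cons.1 he with rfl | he
        · exact ⟨a, List.mem_cons_self, hP, hab⟩
        · obtain ⟨pe, h1, h2, h3⟩ := hl3 e he
          exact ⟨pe, List.mem_cons_of_mem _ h1, h2, h3⟩
    · refine ⟨l, hl1.cons b, ?_, ?_⟩
      · rw [List.filter_cons_of_neg hP, hl2]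
      · intro e he
        obtain ⟨pe, h1, h2, h3⟩ := hl3 e he
        exact ⟨pe, List.mem_cons_of_mem _ h1, h2, h3⟩

private theorem SupB_len (l : List Edge) (P : Edge → Bool) :
    (l.filter P).length + (l.filter fun e => !P e).length = l.length := by
  induction l with
  | nil => rfl
  | cons a t ih =>
    by_cases hP : P a = true
    · rw [List.filter_cons_of_pos hP, List.filter_cons_of_neg (by simp [hP]), List.length_cons,
        List.length_cons]
      omega
    · rw [List.filter_cons_of_neg hP, List.filter_cons_of_pos (by simpa using hP), List.length_cons,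
        List.length_cons]
      omega

open Classical in
/-- a realization that is partly inside `X` uses more edges that meet its outer part than this part has points -/
theorem out_edges (hc : Code p q pat) (hβ : β.length = p) (hν : ν.length = q) (h : Real lab pat β ν)
    (X : Set ℕ) (h1 : ∃ v ∈ ν, v ∈ X) (h2 : ∃ v ∈ ν, v ∉ X) :
    ∃ L : Finset Edge, (ν.toFinset.filter (fun v => v ∉ X)).card < L.card ∧
      ∀ e ∈ L, ImgE lab pat β ν e ∧ ∃ v ∈ e.2, v ∈ ν ∧ v ∉ X := by
  obtain ⟨hnd, es, hes, hF⟩ := h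
  set P : Finset ℕ := (Finset.Ico p (p + q)).filter fun k => ν.getD (k - p) 0 ∈ X with hP
  set Q : Finset ℕ := (Finset.Ico p (p + q)).filter fun k => ¬ ν.getD (k - p) 0 ∈ X with hQ
  have hidx : ∀ v ∈ ν, ∃ k ∈ Finset.Ico p (p + q), ν.getD (k - p) 0 = v := by
    intro v hv
    obtain ⟨i, hi, hiv⟩ := List.mem_iff_getElem.1 hv
    refine ⟨p + i, Finset.mem_Ico.2 ⟨by omega, by omega⟩, ?_⟩
    rw [Nat.add_sub_cancel_left, List.getD_eq_getElem _ _ hi, hiv]
  have hPne : P.Nonempty := by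
    obtain ⟨v, hv, hvX⟩ := h1
    obtain ⟨k, hk, hkv⟩ := hidx v hv
    exact ⟨k, Finset.mem_filter.2 ⟨hk, by rw [hkv]; exact hvX⟩⟩
  have hPss : P ⊂ Finset.Ico p (p + q) := by
    obtain ⟨v, hv, hvX⟩ := h2
    obtain ⟨k, hk, hkv⟩ := hidx v hv
    refine Finset.ssubset_iff_subset_ne.2 ⟨Finset.filter_subset _ _, fun he => ?_⟩
    have hk' : k ∈ P := by rw [he]; exact hk
    have := (Finset.mem_filter.1 hk').2
    rw [hkv] at this
    exact hvX this
  have hcnt := hc.min P hPne hPss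
  have hPQ : P.card + Q.card = q := by
    have := Finset.card_filter_add_card_filter_not (s := Finset.Ico p (p + q))
      (fun k => ν.getD (k - p) 0 ∈ X)
    rw [Nat.card_Ico] at this
    rw [hP, hQ, this]
    omega
  have hQle : (ν.toFinset.filter (fun v => v ∉ X)).card ≤ Q.card := by
    have hsub : ν.toFinset.filter (fun v => v ∉ X) ⊆ Q.image fun k => ν.getD (k - p) 0 := by
      intro v hv
      rw [Finset.mem_filter, List.mem_toFinset] at hv
      obtain ⟨k, hk, hkv⟩ := hidx v hv.1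
      exact Finset.mem_image.2 ⟨k, Finset.mem_filter.2 ⟨hk, by rw [hkv]; exact hv.2⟩, hkv⟩
    exact (Finset.card_le_card hsub).trans Finset.card_image_le
  obtain ⟨l, hl1, hl2, hl3⟩ := SupB_sel hF
    (fun e => !decide ((∀ k ∈ e.2, k < p ∨ k ∈ P) ∧ ∃ k ∈ e.2, k ∈ P))
  have hlen := SupB_len pat (fun e => decide ((∀ k ∈ e.2, k < p ∨ k ∈ P) ∧ ∃ k ∈ e.2, k ∈ P))
  have hcl := hc.len
  have hcnt' : cnt p pat P =
      (pat.filter fun e => decide ((∀ k ∈ e.2, k < p ∨ k ∈ P) ∧ ∃ k ∈ e.2, k ∈ P)).length := by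
    unfold cnt
    congr
  refine ⟨l.toFinset, ?_, ?_⟩
  · rw [List.toFinset_card_of_nodup (hes.sublist hl1), hl2]
    omega
  · intro e he
    obtain ⟨pe, hpe, hunc, hlab, hinst⟩ := hl3 e (List.mem_toFinset.1 he)
    refine ⟨⟨pe, hpe, hlab, hinst⟩, ?_⟩
    have hunc' : ¬ ((∀ k ∈ pe.2, k < p ∨ k ∈ P) ∧ ∃ k ∈ pe.2, k ∈ P) := by
      intro hcon
      have hunc2 : (!decide ((∀ k ∈ pe.2, k < p ∨ k ∈ P) ∧ ∃ k ∈ pe.2, k ∈ P)) = true := hunc
      rw [decide_eq_true hcon] at hunc2
      exact Bool.noConfusion hunc2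
    have hk : ∃ k ∈ pe.2, p ≤ k ∧ k ∉ P := by
      by_contra hcon
      push Not at hcon
      apply hunc'
      obtain ⟨k, hk, hpk⟩ := hc.new pe hpe
      refine ⟨fun k' hk' => ?_, k, hk, hcon k hk hpk⟩
      rcases Nat.lt_or_ge k' p with h3 | h3
      · exact Or.inl h3
      · exact Or.inr (hcon k' hk' h3)
    obtain ⟨k, hk, hpk, hkP⟩ := hk
    have hklt := hc.lt pe hpe k hk
    have hget : (β ++ ν).getD k 0 = ν.getD (k - p) 0 := by
      rw [List.getD_append_right _ _ _ _ (by omega), hβ]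
    have hin : ν.getD (k - p) 0 ∈ ν := by
      rw [List.getD_eq_getElem _ _ (by omega)]
      exact List.getElem_mem _
    refine ⟨ν.getD (k - p) 0, ?_, hin, ?_⟩
    · rw [hinst]
      exact inst_mem.2 ⟨k, hk, hget⟩
    · intro hX
      exact hkP (Finset.mem_filter.2 ⟨Finset.mem_Ico.2 ⟨hpk, hklt⟩, hX⟩)

end FdZ
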