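import Pool.Agent.Lib.MP_fd2900_lc.Z.Defs

namespace FdZ

variable {lab : Lb → Edge → Prop} {p q : ℕ} {pat : List Edge} {β ν : List ℕ}

private theorem SupC_cnt (p : ℕ) (pat : List Edge) (f : Edge → Lb) (P : Finset ℕ) :
    cnt p (pat.map fun pe => (f pe, pe.2)) P = cnt p pat P := by
  unfold cnt
  rw [List.filter_map, List.length_map]
  rfl

private theorem SupC_imp {α γ : Type} {R S : α → γ → Prop} {l₁ : List α} {l₂ : List γ}
    (h : List.Forall₂ R l₁ l₂) (hi : ∀ a ∈ l₁, ∀ b, R a b → S a b) : List.Forall₂ S l₁ l₂ := by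
  induction h with
  | nil => exact List.Forall₂.nil
  | @cons a b l m hab _ ih =>
    exact List.Forall₂.cons (hi a List.mem_cons_self b hab)
      (ih fun c hc d hd => hi c (List.mem_cons_of_mem _ hc) d hd)

/-- changing labels in a code -/
theorem code_relabel (hc : Code p q pat) (f : Edge → Lb) : Code p q (pat.map fun pe => (f pe, pe.2)) := by
  refine ⟨hc.qpos, by rw [List.length_map, hc.len], ?_, ?_, ?_, ?_, ?_⟩
  · intro e he
    obtain ⟨a, ha, rfl⟩ := List.mem_map.1 he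
    exact hc.nd a ha
  · intro e he
    obtain ⟨a, ha, rfl⟩ := List.mem_map.1 he
    exact hc.lt a ha
  · intro e he
    obtain ⟨a, ha, rfl⟩ := List.mem_map.1 he
    exact hc.new a ha
  · intro k hk
    obtain ⟨a, ha, hka⟩ := hc.base k hk
    exact ⟨(f a, a.2), List.mem_map.2 ⟨a, ha, rfl⟩, hka⟩
  · intro P hP hs
    rw [SupC_cnt]
    exact hc.min P hP hs

theorem real_relabel {lab' : Lb → Edge → Prop} (f : Edge → Lb) (h : Real lab pat β ν)
    (hf : ∀ pe ∈ pat, ∀ e, lab pe.1 e → e.2 = inst (β ++ ν) pe.2 → lab' (f pe) e) :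
    Real lab' (pat.map fun pe => (f pe, pe.2)) β ν := by
  obtain ⟨nd, es, hnd, hF⟩ := h
  refine ⟨nd, es, hnd, ?_⟩
  rw [List.forall₂_map_left_iff]
  exact SupC_imp hF fun a ha b hb => ⟨hf a ha b hb.1 hb.2, hb.2⟩

/-- a smaller labelling has fewer violations -/
theorem viol_mono {lab' : Lb → Edge → Prop} (h : ∀ ℓ e, lab ℓ e → lab' ℓ e) (hv : Viol lab) : Viol lab' := by
  obtain ⟨p, q, pat, β, νs, hc, ⟨h1, h2, h3⟩, h4⟩ := hv
  refine ⟨p, q, pat, β, νs, hc, ⟨h1, fun ν hν => ⟨(h2 ν hν).1, ?_⟩, h3⟩, h4⟩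
  obtain ⟨nd, es, hnd, hF⟩ := (h2 ν hν).2
  exact ⟨nd, es, hnd, SupC_imp hF fun a _ b hb => ⟨h _ _ hb.1, hb.2⟩⟩

theorem strong_mono {X : Set ℕ} {k k' : ℕ} (h : Strong lab X k) (hk : k' ≤ k) : Strong lab X k' :=
  fun Z hZ hX => h Z (hZ.trans hk) hX

theorem strong_lab {lab' : Lb → Edge → Prop} {X : Set ℕ} {k : ℕ} (h : Strong lab X k)
    (hl : ∀ ℓ e, lab' ℓ e → ∃ ℓ', lab ℓ' e) : Strong lab' X k := by
  intro Z hZ hX L hL
  refine h Z hZ hX L fun e he => ?_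
  obtain ⟨⟨ℓ, h1⟩, h2, h3⟩ := hL e he
  exact ⟨hl ℓ e h1, h2, h3⟩

end FdZ
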