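import Pool.Agent.Lib.MP_fd2900_lc.Z.SupB

namespace FdZ

variable {lab : Lb → Edge → Prop} {p q : ℕ} {pat : List Edge} {β ν : List ℕ}

/-- dichotomy: a realization over a strong set is inside or outside -/
theorem dich {X : Set ℕ} {k : ℕ} (hX : Strong lab X k) (hk : q ≤ k) (hc : Code p q pat) (hβ : β.length = p)
    (hν : ν.length = q) (h : Real lab pat β ν) (hb : ∀ v ∈ β, v ∈ X) :
    (∀ v ∈ ν, v ∈ X) ∨ ∀ v ∈ ν, v ∉ X := by
  classical
  by_contra hcon
  have h1 : ∃ v ∈ ν, v ∉ X := by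
    by_contra h1
    exact hcon (Or.inl fun v hv => by
      by_contra hvX
      exact h1 ⟨v, hv, hvX⟩)
  have h2 : ∃ v ∈ ν, v ∈ X := by
    by_contra h2
    exact hcon (Or.inr fun v hv hvX => h2 ⟨v, hv, hvX⟩)
  obtain ⟨L, hL1, hL2⟩ := out_edges hc hβ hν h X h2 h1
  have hcard : (ν.toFinset.filter (fun v => v ∉ X)).card ≤ k := by
    calc (ν.toFinset.filter (fun v => v ∉ X)).card ≤ ν.toFinset.card := Finset.card_filter_le _ _
      _ ≤ ν.length := List.toFinset_card_le ν
      _ ≤ k := by omega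
  have hfew := hX (ν.toFinset.filter (fun v => v ∉ X)) hcard
    (fun v hv => (Finset.mem_filter.1 hv).2) L ?_
  · omega
  · intro e he
    obtain ⟨hi, v, hv, hvν, hvX⟩ := hL2 e he
    obtain ⟨hsub, -⟩ := img_sub hc hβ hν hi
    obtain ⟨pe, -, hpe, -⟩ := hi
    refine ⟨⟨_, hpe⟩, fun u hu => ?_, v, hv, ?_⟩
    · by_cases huX : u ∈ X
      · exact Or.inl huX
      · rcases hsub u hu with hβu | hνu
        · exact Or.inl (hb u hβu)
        · exact Or.inr (by simpa using And.intro hνu huX)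
    · simpa using And.intro hvν hvX

end FdZ
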