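import Pool.Agent.Lib.MP_fd2900_lc.Z.SupB

namespace FdZ

variable {lab : Lb → Edge → Prop} {p q : ℕ} {pat : List Edge} {β ν : List ℕ}

open Classical in
/-- edges of one realization that meets `X` -/
private theorem SupE_one {X : Set ℕ} (hc : Code p q pat) (hβ : β.length = p) (hν : ν.length = q)
    (h : Real lab pat β ν) (hb : ∃ b ∈ β, b ∉ X) (hX : ∃ v ∈ ν, v ∈ X) :
    ∃ L : Finset Edge, (ν.toFinset.filter (fun v => v ∉ X)).card + 1 ≤ L.card ∧
      ∀ e ∈ L, ImgE lab pat β ν e ∧ ∃ v ∈ e.2, (v ∈ β ∨ v ∈ ν) ∧ v ∉ X := by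
  by_cases h2 : ∃ v ∈ ν, v ∉ X
  · obtain ⟨L, hL, hL'⟩ := out_edges hc hβ hν h X hX h2
    refine ⟨L, hL, fun e he => ?_⟩
    obtain ⟨h3, v, hv, hv1, hv2⟩ := hL' e he
    exact ⟨h3, v, hv, Or.inr hv1, hv2⟩
  · obtain ⟨b, hb1, hb2⟩ := hb
    obtain ⟨e, he1, he2⟩ := base_edge hc hβ h hb1
    refine ⟨{e}, ?_, ?_⟩
    · have h0 : ν.toFinset.filter (fun v => v ∉ X) = ∅ := by
        rw [Finset.filter_eq_empty_iff]
        intro v hv hvX
        exact h2 ⟨v, List.mem_toFinset.1 hv, hvX⟩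
      rw [h0]
      simp
    · intro e' he'
      rw [Finset.mem_singleton] at he'
      subst he'
      exact ⟨he1, b, he2, Or.inl hb1, hb2⟩

open Classical in
/-- edges of a list of realizations that meet `X` -/
private theorem SupE_list {X : Set ℕ} (hc : Code p q pat) (hβ : β.length = p)
    (hb : ∃ b ∈ β, b ∉ X) (νs : List (List ℕ)) :
    (∀ ν ∈ νs, ν.length = q ∧ Real lab pat β ν) → νs.Pairwise List.Disjoint →
    (∀ ν ∈ νs, ∃ v ∈ ν, v ∈ X) →
    ∃ L : Finset Edge, (νs.flatten.toFinset.filter (fun v => v ∉ X)).card + νs.length ≤ L.card ∧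
      ∀ e ∈ L, ∃ ν ∈ νs, ImgE lab pat β ν e ∧ ∃ v ∈ e.2, (v ∈ β ∨ v ∈ ν) ∧ v ∉ X := by
  induction νs with
  | nil =>
    intro _ _ _
    exact ⟨∅, by simp, by simp⟩
  | cons ν νs ih =>
    intro h1 h2 h3
    obtain ⟨L', hL', hL''⟩ := ih (fun ν' hν' => h1 ν' (List.mem_cons_of_mem _ hν'))
      (List.pairwise_cons.1 h2).2 (fun ν' hν' => h3 ν' (List.mem_cons_of_mem _ hν'))
    have hν := h1 ν List.mem_cons_self
    obtain ⟨L, hL, hLL⟩ := SupE_one hc hβ hν.1 hν.2 hb (h3 ν List.mem_cons_self)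
    have hdisj : Disjoint L L' := by
      rw [Finset.disjoint_left]
      intro e he he'
      obtain ⟨ν', hν', himg', _⟩ := hL'' e he'
      obtain ⟨himg, _⟩ := hLL e he
      obtain ⟨_, v, hv, hvν⟩ := img_sub hc hβ hν.1 himg
      have hν'q := (h1 ν' (List.mem_cons_of_mem _ hν'))
      rcases (img_sub hc hβ hν'q.1 himg').1 v hv with h4 | h4
      · exact (List.disjoint_of_nodup_append hν.2.1) h4 hvν
      · exact (List.pairwise_cons.1 h2).1 ν' hν' hvν h4
    refine ⟨L ∪ L', ?_, ?_⟩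
    · rw [Finset.card_union_of_disjoint hdisj]
      have h5 : ((ν :: νs).flatten.toFinset.filter (fun v => v ∉ X)) ⊆
          (ν.toFinset.filter (fun v => v ∉ X)) ∪ (νs.flatten.toFinset.filter (fun v => v ∉ X)) := by
        intro v hv
        rw [Finset.mem_filter, List.mem_toFinset, List.flatten_cons, List.mem_append] at hv
        rw [Finset.mem_union, Finset.mem_filter, Finset.mem_filter, List.mem_toFinset,
          List.mem_toFinset]
        rcases hv with ⟨hv | hv, hvX⟩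
        · exact Or.inl ⟨hv, hvX⟩
        · exact Or.inr ⟨hv, hvX⟩
      have h6 := (Finset.card_le_card h5).trans (Finset.card_union_le _ _)
      rw [List.length_cons]
      omega
    · intro e he
      rcases Finset.mem_union.1 he with he | he
      · exact ⟨ν, List.mem_cons_self, hLL e he⟩
      · obtain ⟨ν', hν', h4⟩ := hL'' e he
        exact ⟨ν', List.mem_cons_of_mem _ hν', h4⟩

open Classical in
/-- the counting lemma -/
theorem count_old {X : Set ℕ} (hX : ∀ k, Strong lab X k) (hc : Code p q pat) {νs : List (List ℕ)}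
    (ho : Over lab p q pat β νs) (hb : ∃ b ∈ β, b ∉ X) :
    (νs.filter fun ν => decide (∃ v ∈ ν, v ∈ X)).length ≤ (β.toFinset.filter (fun v => v ∉ X)).card := by
  obtain ⟨hβ, hr, hd⟩ := ho
  let νt : List (List ℕ) := νs.filter fun ν => decide (∃ v ∈ ν, v ∈ X)
  have hsub : ∀ ν ∈ νt, ν ∈ νs := fun ν hν => (List.mem_filter.1 hν).1
  obtain ⟨L, hL, hL'⟩ := SupE_list (lab := lab) hc hβ hb νt (fun ν hν => hr ν (hsub ν hν))
    (hd.sublist List.filter_sublist) (fun ν hν => of_decide_eq_true (List.mem_filter.1 hν).2)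
  let Z : Finset ℕ := (β.toFinset.filter (fun v => v ∉ X)) ∪
    (νt.flatten.toFinset.filter (fun v => v ∉ X))
  have hZX : ∀ v ∈ Z, v ∉ X := by
    intro v hv
    rcases Finset.mem_union.1 hv with hv | hv
    · exact (Finset.mem_filter.1 hv).2
    · exact (Finset.mem_filter.1 hv).2
  have key : ∀ ν ∈ νt, ∀ v, (v ∈ β ∨ v ∈ ν) → v ∉ X → v ∈ Z := by
    intro ν hν v hv hvX
    rcases hv with hv | hv
    · exact Finset.mem_union_left _ (Finset.mem_filter.2 ⟨List.mem_toFinset.2 hv, hvX⟩)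
    · exact Finset.mem_union_right _ (Finset.mem_filter.2
        ⟨List.mem_toFinset.2 (List.mem_flatten.2 ⟨ν, hν, hv⟩), hvX⟩)
  have hcard : L.card ≤ Z.card := by
    refine hX Z.card Z le_rfl hZX L ?_
    intro e he
    obtain ⟨ν, hν, himg, v, hv1, hv2, hv3⟩ := hL' e he
    have h4 := img_sub hc hβ (hr ν (hsub ν hν)).1 himg
    refine ⟨?_, ?_, v, hv1, ?_⟩
    · obtain ⟨pe, _, hpe, _⟩ := himg
      exact ⟨pe.1, hpe⟩
    · intro w hw
      by_cases hwX : w ∈ X
      · exact Or.inl hwX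
      · exact Or.inr (Finset.mem_coe.2 (key ν hν w (h4.1 w hw) hwX))
    · exact Finset.mem_coe.2 (key ν hν v hv2 hv3)
  have hZ : Z.card ≤ (β.toFinset.filter (fun v => v ∉ X)).card +
      (νt.flatten.toFinset.filter (fun v => v ∉ X)).card := Finset.card_union_le _ _
  change νt.length ≤ _
  omega

/-- if there are too many realizations and `q ≠ 1`, one of them is outside `X` -/
theorem some_out {X : Set ℕ} (hX : ∀ k, Strong lab X k) (hc : Code p q pat) {νs : List (List ℕ)}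
    (ho : Over lab p q pat β νs) (hb : ∃ b ∈ β, b ∉ X) (hl : νs.length = mu p q + 1) (hq : q ≠ 1) :
    ∃ ν ∈ νs, ∀ v ∈ ν, v ∉ X := by
  classical
  by_contra hcon
  push Not at hcon
  have h1 := count_old hX hc ho hb
  have h2 : (νs.filter fun ν => decide (∃ v ∈ ν, v ∈ X)) = νs := by
    rw [List.filter_eq_self]
    intro ν hν
    exact decide_eq_true (hcon ν hν)
  rw [h2, hl] at h1
  have h3 : (β.toFinset.filter (fun v => v ∉ X)).card ≤ p :=
    (Finset.card_filter_le _ _).trans ((List.toFinset_card_le β).trans ho.1.le)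
  have h4 : mu p q = p := if_neg hq
  omega

end FdZ
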