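import Pool.Agent.Lib.MP_fd2900_lc.Z.SupA
import Pool.Agent.Lib.MP_fd2900_lc.Z.SupB
import Pool.Agent.Lib.MP_fd2900_lc.Z.SupC
import Pool.Agent.Lib.MP_fd2900_lc.Z.SupD
import Pool.Agent.Lib.MP_fd2900_lc.Z.SupE
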