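import Pool.Agent.Lib.MP_fd2900_lc.Z.TgWalk

/-! the true path: passed infinitely often; the other nodes are passed finitely often -/

namespace FdZ.Tg

/-- the node of length `n` on the true path -/
def tpl (x : ℕ → ℕ) (n : ℕ) : List ℕ := (List.range n).map x

section
variable {o : ℕ → ℕ → ℕ} {x : ℕ → ℕ}

theorem tpl_succ (n : ℕ) : tpl x (n + 1) = tpl x n ++ [x n] := by
  simp [tpl, List.range_succ]

theorem tpl_length (n : ℕ) : (tpl x n).length = n := by simp [tpl]

theorem tpl_take {n m : ℕ} (h : m ≤ n) : (tpl x n).take m = tpl x m := by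
  unfold tpl
  rw [← List.map_take, List.take_range, min_eq_left h]

theorem tpl_prefix {d : List ℕ} {n : ℕ} (h : d <+: tpl x n) : d = tpl x d.length := by
  have h1 := h.length_le
  rw [tpl_length] at h1
  rw [← tpl_take h1]
  exact List.prefix_iff_eq_take.1 h

theorem tpl_mono {n m : ℕ} (h : m ≤ n) : tpl x m <+: tpl x n := by
  rw [← tpl_take h]
  exact List.take_prefix _ _

private theorem pass_inf {c : List ℕ} (h : {s | c <+: act o s}.Infinite) :
    {s | c <+: act o s ∧ c ≠ act o s}.Infinite := by
  have h1 : {s | act o s = c}.Finite := by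
    refine Set.Subsingleton.finite ?_
    intro a ha b hb
    have ha' : act o a = c := ha
    have hb' : act o b = c := hb
    exact act_inj o (ha'.trans hb'.symm)
  have h2 := h.sdiff h1
  refine h2.mono ?_
  rintro s ⟨hs1, hs2⟩
  exact ⟨hs1, fun he => hs2 he.symm⟩

theorem tp_pass (hx : ∀ k n, ∃ v, n ≤ v ∧ o k v = x k) (n : ℕ) :
    {s | tpl x n <+: act o s}.Infinite := by
  induction n with
  | zero =>
    have h0 : {s | tpl x 0 <+: act o s} = Set.univ := by
      ext s
      simp only [Set.mem_ofPred_eq, Set.mem_univ, iff_true]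
      exact List.nil_prefix
    rw [h0]
    exact Set.infinite_univ
  | succ n ih =>
    classical
    have hp := pass_inf ih
    rw [Set.infinite_iff_exists_gt]
    intro N
    obtain ⟨v, hv, hov⟩ := hx n (N + 1)
    let p : ℕ → Prop := fun s => tpl x n <+: act o s ∧ tpl x n ≠ act o s
    have hp' : (Set.ofPred p).Infinite := hp
    have h1 : p (Nat.nth p v) := Nat.nth_mem_of_infinite hp' v
    have h2 : Nat.count p (Nat.nth p v) = v := Nat.count_nth_of_infinite hp' v
    have h3 : v ≤ Nat.nth p v := Nat.le_nth (fun hf => absurd hf hp')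
    refine ⟨Nat.nth p v, ?_, by omega⟩
    have h4 := act_val o h1.1 h1.2
    rw [tpl_length] at h4
    have h5 : Nat.count (fun t => tpl x n <+: act o t ∧ tpl x n ≠ act o t) (Nat.nth p v) = v := by
      convert h2
    rw [h5, hov, ← tpl_succ] at h4
    exact h4

theorem tp_acts (hx : ∀ k n, ∃ v, n ≤ v ∧ o k v = x k) (n : ℕ) : ∃ s, act o s = tpl x n := by
  obtain ⟨s, hs⟩ := (tp_pass hx n).nonempty
  obtain ⟨r, _, hr⟩ := act_pre' o hs
  exact ⟨r, hr⟩

theorem off_fin (hy : ∀ k y, y ≠ x k → ∃ n, ∀ v, n ≤ v → o k v ≠ y) {b : List ℕ}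
    (hc : b ≠ tpl x b.length) : {s | b <+: act o s}.Finite := by
  classical
  have hex : ∃ m, m ≤ b.length ∧ b.take m ≠ tpl x m := by
    refine ⟨b.length, le_rfl, ?_⟩
    rw [List.take_length]
    exact hc
  obtain ⟨hm1, hm2⟩ := Nat.find_spec hex
  have hmin : ∀ k < Nat.find hex, ¬ (k ≤ b.length ∧ b.take k ≠ tpl x k) := fun k hk =>
    Nat.find_min hex hk
  generalize Nat.find hex = m at hm1 hm2 hmin
  rcases m with _ | n
  · exact absurd (by simp [tpl]) hm2
  have h1 : b.take n = tpl x n := by
    by_contra h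
    exact hmin n (by omega) ⟨by omega, h⟩
  have hlt : n < b.length := by omega
  have h2 : b.take (n + 1) = tpl x n ++ [b[n]] := by
    rw [List.take_add_one, h1, List.getElem?_eq_getElem hlt]
    rfl
  have hne : b[n] ≠ x n := by
    intro h
    rw [h2, h, ← tpl_succ] at hm2
    exact hm2 rfl
  obtain ⟨N, hN⟩ := hy n _ hne
  let p : ℕ → Prop := fun s => tpl x n <+: act o s ∧ tpl x n ≠ act o s
  refine Set.Finite.subset ((Set.finite_Iio N).image (Nat.nth p)) ?_
  intro s hs
  have hs' : b <+: act o s := hs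
  have hd : tpl x n ++ [b[n]] <+: act o s := by
    rw [← h2]
    exact (List.take_prefix _ _).trans hs'
  have hp : p s := by
    refine ⟨(List.prefix_append _ _).trans hd, fun h => ?_⟩
    have h3 := hd.length_le
    rw [← h, List.length_append, List.length_singleton] at h3
    omega
  have h4 := act_val o hp.1 hp.2
  rw [tpl_length] at h4
  have h5 : tpl x n ++ [o n (Nat.count (fun t => tpl x n <+: act o t ∧ tpl x n ≠ act o t) s)] =
      tpl x n ++ [b[n]] := by
    refine List.IsPrefix.eq_of_length (List.prefix_of_prefix_length_le h4 hd ?_) ?_ <;>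
    simp
  have h6 : o n (Nat.count (fun t => tpl x n <+: act o t ∧ tpl x n ≠ act o t) s) = b[n] := by
    have := List.append_cancel_left h5
    simpa using this
  have h7 : Nat.count p s < N := by
    by_contra hcon
    apply hN (Nat.count (fun t => tpl x n <+: act o t ∧ tpl x n ≠ act o t) s) ?_ h6
    have : Nat.count (fun t => tpl x n <+: act o t ∧ tpl x n ≠ act o t) s = Nat.count p s := by
      congr
    omega
  exact ⟨Nat.count p s, h7, Nat.nth_count hp⟩

end

end FdZ.Tg
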