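import Mathlib

/-! the walk through the tree of guesses -/

namespace FdZ.Tg

/-- number of earlier passes through the node `c` -/
def cnt (h : List (List ℕ)) (c : List ℕ) : ℕ := (h.filter fun t => decide (c <+: t ∧ c ≠ t)).length

/-- one step of the walk -/
def stp (o : ℕ → ℕ → ℕ) (h : List (List ℕ)) (c : List ℕ) : List ℕ :=
  if ∃ a ∈ h, a = c then c ++ [o c.length (cnt h c)] else c

/-- the position of the walk after `n` steps -/
def wkn (o : ℕ → ℕ → ℕ) (h : List (List ℕ)) (n : ℕ) : List ℕ :=
  Nat.rec (motive := fun _ => List ℕ) [] (fun _ c => stp o h c) n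

/-- the nodes of the first `s` stages -/
def acts (o : ℕ → ℕ → ℕ) (s : ℕ) : List (List ℕ) :=
  Nat.rec (motive := fun _ => List (List ℕ)) [] (fun _ h => h ++ [wkn o h (h.length + 1)]) s

/-- the node of stage `s` -/
def act (o : ℕ → ℕ → ℕ) (s : ℕ) : List ℕ := wkn o (acts o s) ((acts o s).length + 1)

section comp

theorem prefix_prim : PrimrecRel fun (a c : List ℕ) => c <+: a := by
  have h : PrimrecRel fun (a c : List ℕ) => c = a.take c.length :=
    Primrec.eq.comp Primrec.snd
      (Primrec.list_take.comp (Primrec.list_length.comp Primrec.snd) Primrec.fst)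
  exact h.of_eq fun a c => List.prefix_iff_eq_take.symm

private theorem cnt_prim : Primrec fun p : List (List ℕ) × List ℕ => cnt p.1 p.2 := by
  have h1 : PrimrecRel fun (a c : List ℕ) => c <+: a ∧ c ≠ a :=
    prefix_prim.and (Primrec.eq.comp Primrec.snd Primrec.fst).not
  exact Primrec.list_length.comp (PrimrecRel.listFilter h1)

private theorem mem_prim : PrimrecPred fun p : List (List ℕ) × List ℕ => ∃ a ∈ p.1, a = p.2 :=
  PrimrecRel.exists_mem_list (R := fun (a b : List ℕ) => a = b) Primrec.eq

variable {o : ℕ → ℕ → ℕ} (ho : Computable fun p : ℕ × ℕ => o p.1 p.2)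
include ho

private theorem stp_comp : Computable fun p : List (List ℕ) × List ℕ => stp o p.1 p.2 := by
  have h1 : Computable fun p : List (List ℕ) × List ℕ => (p.2.length, cnt p.1 p.2) :=
    (Computable.list_length.comp Computable.snd).pair cnt_prim.to_comp
  have h2 : Computable fun p : List (List ℕ) × List ℕ => o p.2.length (cnt p.1 p.2) := by
    have := ho.comp h1
    exact this
  have h3 : Computable fun p : List (List ℕ) × List ℕ => p.2 ++ [o p.2.length (cnt p.1 p.2)] :=
    Computable.list_concat.comp Computable.snd h2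
  obtain ⟨hd, hm⟩ := mem_prim
  have h4 := Computable.cond hm.to_comp h3 (Computable.snd (α := List (List ℕ)) (β := List ℕ))
  refine h4.of_eq fun p => ?_
  unfold stp
  by_cases h : ∃ a ∈ p.1, a = p.2
  · rw [if_pos h]
    simp only [h, decide_true, cond_true]
  · rw [if_neg h]
    simp only [h, decide_false, cond_false]

private theorem wkn_comp : Computable fun p : List (List ℕ) × ℕ => wkn o p.1 p.2 := by
  have h0 : Computable₂ fun (p : List (List ℕ) × ℕ) (q : ℕ × List ℕ) => stp o p.1 q.2 := by
    have h1 : Computable fun x : (List (List ℕ) × ℕ) × (ℕ × List ℕ) => (x.1.1, x.2.2) :=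
      (Computable.fst.comp Computable.fst).pair (Computable.snd.comp Computable.snd)
    have h2 := (stp_comp ho).comp h1
    exact h2.to₂
  have h1 := Computable.nat_rec (f := fun p : List (List ℕ) × ℕ => p.2)
    (g := fun _ => ([] : List ℕ)) Computable.snd (Computable.const []) h0
  exact h1.of_eq fun p => by rfl

theorem acts_comp : Computable (acts o) := by
  have h0 : Computable₂ fun (_ : ℕ) (q : ℕ × List (List ℕ)) =>
      q.2 ++ [wkn o q.2 (q.2.length + 1)] := by
    have h1 : Computable fun x : ℕ × (ℕ × List (List ℕ)) => x.2.2 :=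
      Computable.snd.comp Computable.snd
    have h2 : Computable fun x : ℕ × (ℕ × List (List ℕ)) => (x.2.2, x.2.2.length + 1) :=
      h1.pair (Computable.succ.comp (Computable.list_length.comp h1))
    have h3 := (wkn_comp ho).comp h2
    exact (Computable.list_concat.comp h1 h3).to₂
  have h1 := Computable.nat_rec (f := fun p : ℕ => p)
    (g := fun _ => ([] : List (List ℕ))) Computable.id (Computable.const []) h0
  exact h1.of_eq fun p => by rfl

theorem act_comp : Computable (act o) := by
  have h1 := acts_comp ho
  have h2 : Computable fun s : ℕ => (acts o s, (acts o s).length + 1) :=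
    h1.pair (Computable.succ.comp (Computable.list_length.comp h1))
  have h3 := (wkn_comp ho).comp h2
  exact h3

end comp

section basic
variable (o : ℕ → ℕ → ℕ)

theorem acts_succ (s : ℕ) : acts o (s + 1) = acts o s ++ [act o s] := rfl

theorem mem_acts (s : ℕ) (c : List ℕ) : c ∈ acts o s ↔ ∃ r < s, act o r = c := by
  induction s with
  | zero =>
    constructor
    · intro h
      exact absurd h (by simp [acts])
    · rintro ⟨r, hr, _⟩
      omega
  | succ s ih =>
    rw [acts_succ, List.mem_append, ih, List.mem_singleton]
    constructor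
    · rintro (⟨r, hr, h⟩ | h)
      · exact ⟨r, by omega, h⟩
      · exact ⟨s, by omega, h.symm⟩
    · rintro ⟨r, hr, h⟩
      rcases Nat.lt_succ_iff_lt_or_eq.1 hr with h1 | rfl
      · exact Or.inl ⟨r, h1, h⟩
      · exact Or.inr h.symm

theorem cnt_acts (s : ℕ) (c : List ℕ) :
    cnt (acts o s) c = Nat.count (fun t => c <+: act o t ∧ c ≠ act o t) s := by
  induction s with
  | zero => simp [acts, cnt]
  | succ s ih =>
    rw [Nat.count_succ, ← ih, acts_succ, cnt, cnt, List.filter_append, List.length_append]
    by_cases h : c <+: act o s ∧ c ≠ act o s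
    · rw [if_pos h, List.filter_singleton]
      simp [h]
    · rw [if_neg h, List.filter_singleton]
      simp only [h, decide_false, cond_false, List.length_nil]

private theorem wkn_succ (h : List (List ℕ)) (n : ℕ) : wkn o h (n + 1) = stp o h (wkn o h n) := rfl

private theorem wkn_inv (h : List (List ℕ)) (n : ℕ) :
    (∀ d, d <+: wkn o h n → d ≠ wkn o h n → d ∈ h) ∧
      (wkn o h n ∈ h → (wkn o h n).length = n) ∧
        ∀ i < (wkn o h n).length, (wkn o h n)[i]? = some (o i (cnt h ((wkn o h n).take i))) := by
  induction n with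
  | zero =>
    have h0 : wkn o h 0 = [] := rfl
    rw [h0]
    refine ⟨fun d hd hne => absurd (List.prefix_nil.1 hd) hne, fun _ => rfl, fun i hi => ?_⟩
    simp at hi
  | succ n ih =>
    rw [wkn_succ]
    set c := wkn o h n with hc
    obtain ⟨i1, i2, i3⟩ := ih
    unfold stp
    by_cases hm : ∃ a ∈ h, a = c
    · rw [if_pos hm]
      obtain ⟨a, ha, rfl⟩ := hm
      refine ⟨fun d hd hne => ?_, fun _ => ?_, fun i hi => ?_⟩
      · rcases List.prefix_concat_iff.1 hd with h1 | h1
        · exact absurd h1 hne
        · by_cases h2 : d = c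
          · rw [h2]
            exact ha
          · exact i1 d h1 h2
      · rw [List.length_append, i2 ha]
        rfl
      · rw [List.length_append, List.length_singleton] at hi
        rcases Nat.lt_succ_iff_lt_or_eq.1 hi with h1 | rfl
        · rw [List.getElem?_append_left h1, i3 i h1, List.take_append_of_le_length h1.le]
        · rw [List.getElem?_append_right le_rfl, List.take_append_of_le_length le_rfl]
          simp
    · rw [if_neg hm]
      refine ⟨i1, fun h1 => ?_, i3⟩
      exact absurd ⟨_, h1, rfl⟩ hm

private theorem act_inv (s : ℕ) :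
    act o s ∉ acts o s ∧ (∀ d, d <+: act o s → d ≠ act o s → d ∈ acts o s) ∧
      ∀ i < (act o s).length, (act o s)[i]? = some (o i (cnt (acts o s) ((act o s).take i))) := by
  obtain ⟨i1, i2, i3⟩ := wkn_inv o (acts o s) ((acts o s).length + 1)
  refine ⟨fun hm => ?_, i1, i3⟩
  have hl := i2 hm
  have h1 : ∀ i ∈ Finset.range ((acts o s).length + 2), (act o s).take i ∈ (acts o s).toFinset := by
    intro i hi
    rw [List.mem_toFinset]
    by_cases h2 : (act o s).take i = act o s
    · rw [h2]
      exact hm
    · exact i1 _ (List.take_prefix _ _) h2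
  have h2 : Set.InjOn (fun i => (act o s).take i)
      (Finset.range ((acts o s).length + 2) : Finset ℕ) := by
    intro i hi j hj hij
    have hi' : i < (acts o s).length + 2 := Finset.mem_range.1 (Finset.mem_coe.1 hi)
    have hj' : j < (acts o s).length + 2 := Finset.mem_range.1 (Finset.mem_coe.1 hj)
    have h3 := congrArg List.length hij
    simp only [List.length_take] at h3
    have hl' : (act o s).length = (acts o s).length + 1 := hl
    omega
  have h3 := Finset.card_le_card_of_injOn _ h1 h2
  have h4 := List.toFinset_card_le (acts o s)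
  rw [Finset.card_range] at h3
  omega

theorem act_inj {r s : ℕ} (h : act o r = act o s) : r = s := by
  rcases lt_trichotomy r s with h1 | h1 | h1
  · exact absurd ((mem_acts o s _).2 ⟨r, h1, h⟩) (act_inv o s).1
  · exact h1
  · exact absurd ((mem_acts o r _).2 ⟨s, h1, h.symm⟩) (act_inv o r).1

theorem act_pre {s : ℕ} {d : List ℕ} (h : d <+: act o s) (hne : d ≠ act o s) :
    ∃ r < s, act o r = d := (mem_acts o s d).1 ((act_inv o s).2.1 d h hne)

theorem act_pre' {s : ℕ} {d : List ℕ} (h : d <+: act o s) : ∃ r ≤ s, act o r = d := by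
  by_cases hne : d = act o s
  · exact ⟨s, le_rfl, hne.symm⟩
  · obtain ⟨r, hr, h1⟩ := act_pre o h hne
    exact ⟨r, hr.le, h1⟩

theorem act_val {s : ℕ} {d : List ℕ} (h : d <+: act o s) (hne : d ≠ act o s) :
    d ++ [o d.length (Nat.count (fun t => d <+: act o t ∧ d ≠ act o t) s)] <+: act o s := by
  have hlt : d.length < (act o s).length := by
    rcases Nat.lt_or_ge d.length (act o s).length with h1 | h1
    · exact h1
    · exact absurd (List.IsPrefix.eq_of_length h (le_antisymm h.length_le h1)) hne
  have h1 := (act_inv o s).2.2 d.length hlt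
  have h2 : (act o s).take d.length = d := (List.prefix_iff_eq_take.1 h).symm
  rw [h2, cnt_acts] at h1
  have h3 : (act o s).take (d.length + 1) =
      d ++ [o d.length (Nat.count (fun t => d <+: act o t ∧ d ≠ act o t) s)] := by
    rw [List.take_add_one, h2, h1]
    rfl
  rw [← h3]
  exact List.take_prefix _ _

end basic

end FdZ.Tg
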