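import Pool.Agent.Lib.MP_fd2900_lc.Z.VS

namespace FdZ

theorem tight_mono {VE : Set Edge} {Y Y₁ Z : Finset ℕ} (h : Tight VE Y Z) (hY : Y ⊆ Y₁) : Tight VE Y₁ Z :=
  fun Y₂ hY₂ => h Y₂ (hY.trans hY₂)

/-- a set with as many edges as points over a strong set is tight -/
theorem tight_of_strong {VE : Set Edge} {Y Z : Finset ℕ} (hZ : ∀ v ∈ Z, v ∉ Y)
    (hs : Strong (vl VE) (Y : Set ℕ) Z.card)
    (h : ∃ L : Finset Edge, Z.card ≤ L.card ∧ ∀ e ∈ L, e ∈ VE ∧ Meets Y Z e) : Tight VE Y Z := by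
  classical
  obtain ⟨L, hL, hLe⟩ := h
  intro Y₁ hY₁
  refine ⟨L.filter fun e => ∃ v ∈ e.2, v ∈ Z \ Y₁, ?_, ?_⟩
  · have h1 : (L.filter fun e => ¬ ∃ v ∈ e.2, v ∈ Z \ Y₁).card ≤ (Z ∩ Y₁).card := by
      refine hs (Z ∩ Y₁) (Finset.card_le_card Finset.inter_subset_left) ?_ _ ?_
      · intro v hv hvY
        exact hZ v (Finset.mem_inter.1 hv).1 (Finset.mem_coe.1 hvY)
      · intro e he
        obtain ⟨he1, he2⟩ := Finset.mem_filter.1 he
        obtain ⟨he3, he4, v, hv, hvZ⟩ := hLe e he1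
        have h2 : ∀ w ∈ e.2, w ∈ Z → w ∈ Z ∩ Y₁ := by
          intro w hw hwZ
          rw [Finset.mem_inter]
          refine ⟨hwZ, ?_⟩
          by_contra hwY
          exact he2 ⟨w, hw, Finset.mem_sdiff.2 ⟨hwZ, hwY⟩⟩
        refine ⟨⟨e.1, he3, rfl⟩, fun w hw => ?_, v, hv, Finset.mem_coe.2 (h2 v hv hvZ)⟩
        rcases he4 w hw with h3 | h3
        · exact Or.inl (Finset.mem_coe.2 h3)
        · exact Or.inr (Finset.mem_coe.2 (h2 w hw h3))
    have h2 := Finset.card_filter_add_card_filter_not (s := L) (fun e => ∃ v ∈ e.2, v ∈ Z \ Y₁)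
    have h3 := Finset.card_sdiff_add_card_inter Z Y₁
    omega
  · intro e he
    obtain ⟨he1, he2⟩ := Finset.mem_filter.1 he
    obtain ⟨he3, he4, -⟩ := hLe e he1
    refine ⟨he3, fun w hw => ?_, he2⟩
    by_cases hwY : w ∈ Y₁
    · exact Or.inl hwY
    · refine Or.inr (Finset.mem_sdiff.2 ⟨?_, hwY⟩)
      rcases he4 w hw with h3 | h3
      · exact absurd (hY₁ h3) hwY
      · exact h3

end FdZ
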