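import Pool.Agent.Lib.MP_fd2900_lc.Z.TiA

namespace FdZ

private theorem TiB_inst {xs l : List ℕ} (h : ∀ v ∈ l, v ∈ xs) :
    inst xs (l.map fun v => xs.idxOf v) = l := by
  unfold inst
  rw [List.map_map]
  conv_rhs => rw [← List.map_id l]
  apply List.map_congr_left
  intro v hv
  have h1 : xs.idxOf v < xs.length := List.idxOf_lt_length_of_mem (h v hv)
  simp only [Function.comp_apply, id_eq]
  rw [List.getD_eq_getElem _ _ h1]
  exact List.getElem_idxOf h1

private theorem TiB_inj {xs : List ℕ} {v w : ℕ} (hv : v ∈ xs) (h : xs.idxOf v = xs.idxOf w) : v = w := by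
  have h1 : xs.idxOf v < xs.length := List.idxOf_lt_length_of_mem hv
  have h2 : xs.idxOf w < xs.length := h ▸ h1
  have e1 : xs[xs.idxOf v] = v := List.getElem_idxOf h1
  have e2 : xs[xs.idxOf w] = w := List.getElem_idxOf h2
  rw [← e1, ← e2]
  congr 1

/-- a nonempty tight set outside `Y` contains a realization of a code over `Y` -/
theorem tight_code {VE : Set Edge} (hnd : ∀ e ∈ VE, e.2.Nodup) {Y Z : Finset ℕ} (hne : Z.Nonempty)
    (hZ : ∀ v ∈ Z, v ∉ Y) (ht : Tight VE Y Z) :
    ∃ (p q : ℕ) (pat : List Edge) (β ω : List ℕ), Code p q pat ∧ β.length = p ∧ ω.length = q ∧ q ≤ Z.card ∧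
      (∀ v ∈ β, v ∈ Y) ∧ (∀ v ∈ ω, v ∈ Z) ∧ Real (vl VE) pat β ω ∧
      ∀ pe ∈ pat, ∃ e ∈ VE, e.1 = pe.1 ∧ e.2.length = pe.2.length := by
  classical
  have hex : ∃ n, ∃ W : Finset ℕ, W ⊆ Z ∧ W.Nonempty ∧ W.card = n ∧
      ∃ L : Finset Edge, W.card ≤ L.card ∧ ∀ e ∈ L, e ∈ VE ∧ Meets Y W e := by
    refine ⟨Z.card, Z, Finset.Subset.refl _, hne, rfl, ?_⟩
    have h1 : Z \ Y = Z := by
      rw [Finset.sdiff_eq_self_iff_disjoint, Finset.disjoint_left]
      exact hZ
    have h2 := ht Y (Finset.Subset.refl _)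
    rw [h1] at h2
    exact h2
  obtain ⟨W, hWZ, hWne, hWc, L₀, hL₀c, hL₀⟩ := Nat.find_spec hex
  have hmin : ∀ W' : Finset ℕ, W' ⊂ W → W'.Nonempty →
      ∀ L' : Finset Edge, (∀ e ∈ L', e ∈ VE ∧ Meets Y W' e) → L'.card < W'.card := by
    intro W' hW' hne' L' hL'
    by_contra hcon
    have h3 : W'.card < Nat.find hex := by
      rw [← hWc]
      exact Finset.card_lt_card hW'
    exact Nat.find_min hex h3 ⟨W', hW'.subset.trans hWZ, hne', rfl, L', not_lt.1 hcon, hL'⟩
  obtain ⟨L, hLL, hLc⟩ := Finset.exists_subset_card_eq hL₀c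
  have hL : ∀ e ∈ L, e ∈ VE ∧ Meets Y W e := fun e he => hL₀ e (hLL he)
  let B : Finset ℕ := (L.biUnion fun e => e.2.toFinset) ∩ Y
  have hBY : ∀ v ∈ B, v ∈ Y := fun v hv => (Finset.mem_inter.1 hv).2
  let β : List ℕ := B.toList
  let ω : List ℕ := W.toList
  let xs : List ℕ := β ++ ω
  have hxs : xs = β ++ ω := rfl
  have hβ : β.length = B.card := Finset.length_toList _
  have hω : ω.length = W.card := Finset.length_toList _
  have hmemβ : ∀ v, v ∈ β ↔ v ∈ B := fun v => Finset.mem_toList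
  have hmemω : ∀ v, v ∈ ω ↔ v ∈ W := fun v => Finset.mem_toList
  have hmem : ∀ v, v ∈ xs ↔ v ∈ B ∨ v ∈ W := by
    intro v
    rw [hxs, List.mem_append, hmemβ, hmemω]
  have hnodup : xs.Nodup := by
    rw [hxs, List.nodup_append]
    refine ⟨Finset.nodup_toList _, Finset.nodup_toList _, ?_⟩
    intro a ha b hb hab
    subst hab
    exact hZ a (hWZ ((hmemω a).1 hb)) (hBY a ((hmemβ a).1 ha))
  have hlen : xs.length = B.card + W.card := by
    rw [hxs, List.length_append, hβ, hω]
  let f : Edge → Edge := fun e => (e.1, e.2.map fun v => xs.idxOf v)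
  have hf2 : ∀ e : Edge, (f e).2 = e.2.map fun v => xs.idxOf v := fun _ => rfl
  have hin : ∀ e ∈ L, ∀ v ∈ e.2, v ∈ xs := by
    intro e he v hv
    rw [hmem]
    rcases (hL e he).2.1 v hv with h | h
    · left
      exact Finset.mem_inter.2 ⟨Finset.mem_biUnion.2 ⟨e, he, List.mem_toFinset.2 hv⟩, h⟩
    · exact Or.inr h
  have hidxlt : ∀ v ∈ xs, xs.idxOf v < B.card + W.card := by
    intro v hv
    rw [← hlen]
    exact List.idxOf_lt_length_of_mem hv
  have hidxB : ∀ v ∈ B, xs.idxOf v < B.card := by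
    intro v hv
    rw [hxs, List.idxOf_append_of_mem ((hmemβ v).2 hv), ← hβ]
    exact List.idxOf_lt_length_of_mem ((hmemβ v).2 hv)
  have hidxW : ∀ v ∈ W, B.card ≤ xs.idxOf v := by
    intro v hv
    have h4 : v ∉ β := fun h => hZ v (hWZ hv) (hBY v ((hmemβ v).1 h))
    rw [hxs, List.idxOf_append_of_notMem h4, hβ]
    exact Nat.le_add_right _ _
  have hpat : ∀ pe ∈ L.toList.map f, ∃ e ∈ L, pe = f e := by
    intro pe hpe
    obtain ⟨e, he, rfl⟩ := List.mem_map.1 hpe
    exact ⟨e, Finset.mem_toList.1 he, rfl⟩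
  refine ⟨B.card, W.card, L.toList.map f, β, ω, ⟨?_, ?_, ?_, ?_, ?_, ?_, ?_⟩, hβ, hω,
    Finset.card_le_card hWZ, ?_, ?_, ?_, ?_⟩
  · exact hWne.card_pos
  · rw [List.length_map, Finset.length_toList, hLc]
  · intro pe hpe
    obtain ⟨e, he, rfl⟩ := hpat pe hpe
    rw [hf2]
    refine List.Nodup.map_on ?_ (hnd e (hL e he).1)
    intro v hv w _ hvw
    exact TiB_inj (hin e he v hv) hvw
  · intro pe hpe k hk
    obtain ⟨e, he, rfl⟩ := hpat pe hpe
    rw [hf2, List.mem_map] at hk
    obtain ⟨v, hv, rfl⟩ := hk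
    exact hidxlt v (hin e he v hv)
  · intro pe hpe
    obtain ⟨e, he, rfl⟩ := hpat pe hpe
    obtain ⟨v, hv, hvW⟩ := (hL e he).2.2
    exact ⟨xs.idxOf v, List.mem_map.2 ⟨v, hv, rfl⟩, hidxW v hvW⟩
  · intro k hk
    have hk' : k < β.length := by rw [hβ]; exact hk
    have hkx : k < xs.length := by
      rw [hlen]
      omega
    have h5 : xs[k] = β[k] := List.getElem_append_left hk'
    have h6 : β[k] ∈ B := (hmemβ _).1 (List.getElem_mem hk')
    obtain ⟨e, he, hv⟩ := Finset.mem_biUnion.1 (Finset.mem_inter.1 h6).1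
    refine ⟨f e, List.mem_map.2 ⟨e, Finset.mem_toList.2 he, rfl⟩, ?_⟩
    rw [hf2, List.mem_map]
    refine ⟨β[k], List.mem_toFinset.1 hv, ?_⟩
    rw [← h5]
    exact hnodup.idxOf_getElem k hkx
  · intro P hPne hP
    by_contra hcon
    rw [not_lt] at hcon
    let W' : Finset ℕ := W.filter fun v => xs.idxOf v ∈ P
    have hW'sub : W' ⊆ W := Finset.filter_subset _ _
    have himg : W'.image (fun v => xs.idxOf v) = P := by
      ext k
      rw [Finset.mem_image]
      constructor
      · rintro ⟨v, hv, rfl⟩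
        exact (Finset.mem_filter.1 hv).2
      · intro hk
        have hk2 := Finset.mem_Ico.1 (hP.subset hk)
        have hkx : k < xs.length := by rw [hlen]; exact hk2.2
        have h7 : xs.idxOf xs[k] = k := hnodup.idxOf_getElem k hkx
        have h8 : xs[k] ∈ W := by
          rcases (hmem _).1 (List.getElem_mem hkx) with h | h
          · have := hidxB _ h
            rw [h7] at this
            omega
          · exact h
        refine ⟨xs[k], Finset.mem_filter.2 ⟨h8, ?_⟩, h7⟩
        rw [h7]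
        exact hk
    have hcard : W'.card = P.card := by
      rw [← himg]
      refine (Finset.card_image_of_injOn ?_).symm
      intro v hv w _ hvw
      exact TiB_inj ((hmem v).2 (Or.inr (hW'sub hv))) hvw
    have hW'ne : W'.Nonempty := by
      rw [← Finset.card_pos, hcard]
      exact hPne.card_pos
    have hW'ss : W' ⊂ W := by
      refine Finset.ssubset_iff_subset_ne.2 ⟨hW'sub, ?_⟩
      intro heq
      have h9 : P.card < W.card := by
        have := Finset.card_lt_card hP
        rw [Nat.card_Ico] at this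
        omega
      rw [← hcard, heq] at h9
      exact lt_irrefl _ h9
    let L' : Finset Edge := (L.toList.filter ((fun e : Edge =>
      decide ((∀ k ∈ e.2, k < B.card ∨ k ∈ P) ∧ ∃ k ∈ e.2, k ∈ P)) ∘ f)).toFinset
    have hL'c : L'.card = cnt B.card (L.toList.map f) P := by
      unfold cnt
      rw [List.filter_map, List.length_map]
      exact List.toFinset_card_of_nodup ((Finset.nodup_toList _).filter _)
    have hL' : ∀ e ∈ L', e ∈ VE ∧ Meets Y W' e := by
      intro e he
      rw [List.mem_toFinset, List.mem_filter, Finset.mem_toList] at he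
      obtain ⟨heL, he2⟩ := he
      rw [Function.comp_apply, decide_eq_true_eq] at he2
      obtain ⟨he3, k, hk, hkP⟩ := he2
      refine ⟨(hL e heL).1, ?_, ?_⟩
      · intro v hv
        rcases (hL e heL).2.1 v hv with h | h
        · exact Or.inl h
        · right
          refine Finset.mem_filter.2 ⟨h, ?_⟩
          rcases he3 (xs.idxOf v) (List.mem_map.2 ⟨v, hv, rfl⟩) with h' | h'
          · have := hidxW v h
            omega
          · exact h'
      · rw [hf2, List.mem_map] at hk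
        obtain ⟨v, hv, rfl⟩ := hk
        refine ⟨v, hv, Finset.mem_filter.2 ⟨?_, hkP⟩⟩
        rcases (hmem v).1 (hin e heL v hv) with h | h
        · have h10 := hidxB v h
          have h11 := (Finset.mem_Ico.1 (hP.subset hkP)).1
          omega
        · exact h
    have h12 := hmin W' hW'ss hW'ne L' hL'
    rw [hL'c, hcard] at h12
    omega
  · intro v hv
    exact hBY v ((hmemβ v).1 hv)
  · intro v hv
    exact hWZ ((hmemω v).1 hv)
  · refine ⟨hnodup, L.toList, Finset.nodup_toList _, ?_⟩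
    rw [List.forall₂_map_left_iff, List.forall₂_same]
    intro e he
    rw [Finset.mem_toList] at he
    exact ⟨⟨(hL e he).1, rfl⟩, (TiB_inst (hin e he)).symm⟩
  · intro pe hpe
    obtain ⟨e, he, rfl⟩ := hpat pe hpe
    exact ⟨e, (hL e he).1, rfl, by rw [hf2, List.length_map]⟩

end FdZ
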