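import Pool.Agent.Lib.MP_fd2900_lc.Z.TiB

namespace FdZ

private theorem TiC_inst {xs l : List ℕ} (h : ∀ v ∈ l, v ∈ xs) :
    inst xs (l.map fun v => xs.idxOf v) = l := by
  unfold inst
  rw [List.map_map]
  conv_rhs => rw [← List.map_id l]
  apply List.map_congr_left
  intro v hv
  have h1 : xs.idxOf v < xs.length := List.idxOf_lt_length_of_mem (h v hv)
  simp only [Function.comp_apply, id_eq]
  rw [List.getD_eq_getElem _ _ h1]
  exact List.getElem_idxOf h1

private theorem TiC_fin {α : Type} {S : Set α} (hS : S.Finite) (n : ℕ) :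
    {l : List α | l.length ≤ n ∧ ∀ x ∈ l, x ∈ S}.Finite := by
  have : Finite S := hS
  refine ((List.finite_length_le S n).image (List.map Subtype.val)).subset ?_
  rintro l ⟨h1, h2⟩
  refine ⟨l.attach.map fun x => ⟨x.1, h2 x.1 x.2⟩, ?_, ?_⟩
  · simpa using h1
  · rw [List.map_map]
    exact List.attach_map_subtype_val l

/-- the number of base points is at most five times the number of entries -/
private theorem TiC_p {p q : ℕ} {pat : List Edge} (hc : Code p q pat) (h5 : ∀ e ∈ pat, e.2.length ≤ 5) :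
    p ≤ 5 * q := by
  classical
  have h1 : Finset.range p ⊆ (pat.flatMap fun e => e.2).toFinset := by
    intro k hk
    obtain ⟨e, he, hke⟩ := hc.base k (Finset.mem_range.1 hk)
    rw [List.mem_toFinset, List.mem_flatMap]
    exact ⟨e, he, hke⟩
  have h2 : p ≤ (pat.flatMap fun e => e.2).length := by
    have := (Finset.card_le_card h1).trans (List.toFinset_card_le _)
    simpa using this
  have h3 : (pat.flatMap fun e => e.2).length ≤ 5 * pat.length := by
    clear h1 h2 hc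
    induction pat with
    | nil => simp
    | cons e t ih =>
      have := ih (fun e he => h5 e (List.mem_cons_of_mem _ he))
      have h6 := h5 e List.mem_cons_self
      simp only [List.flatMap_cons, List.length_append, List.length_cons]
      omega
  rw [hc.len] at h3
  omega

/-- disjoint families of tight sets are bounded -/
theorem disj_bound (vs : VS) (k n : ℕ) : ∃ N : ℕ, ∀ Y : Finset ℕ, Y.card ≤ n → ∀ Zs : Finset (Finset ℕ),
    (∀ Z ∈ Zs, Z.Nonempty ∧ (∀ v ∈ Z, v ∉ Y) ∧ Z.card ≤ k ∧ Tight vs.VE Y Z) →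
    (∀ Z ∈ Zs, ∀ Z' ∈ Zs, Z ≠ Z' → Disjoint Z Z') → Zs.card ≤ N := by
  classical
  have hI : ∀ m : ℕ, {i : ℕ | i < m}.Finite := fun m => Set.finite_lt_nat m
  have hfT : (({p : ℕ | p < 5 * k + 1} ×ˢ {q : ℕ | q < k + 1}) ×ˢ
      ({l : List Edge | l.length ≤ k ∧ ∀ x ∈ l, x ∈
        ((vs.KK : Set Lb) ×ˢ {l : List ℕ | l.length ≤ 5 ∧ ∀ x ∈ l, x ∈ {i : ℕ | i < 6 * k}})} ×ˢ
      {l : List ℕ | l.length ≤ 5 * k ∧ ∀ x ∈ l, x ∈ {i : ℕ | i < n}})).Finite :=
    ((hI _).prod (hI _)).prod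
      ((TiC_fin ((Finset.finite_toSet _).prod (TiC_fin (hI _) _)) _).prod (TiC_fin (hI _) _))
  obtain ⟨T, hT⟩ : ∃ T : Finset ((ℕ × ℕ) × List Edge × List ℕ), ∀ x, x ∈ T ↔
      x ∈ (({p : ℕ | p < 5 * k + 1} ×ˢ {q : ℕ | q < k + 1}) ×ˢ
      ({l : List Edge | l.length ≤ k ∧ ∀ x ∈ l, x ∈
        ((vs.KK : Set Lb) ×ˢ {l : List ℕ | l.length ≤ 5 ∧ ∀ x ∈ l, x ∈ {i : ℕ | i < 6 * k}})} ×ˢ
      {l : List ℕ | l.length ≤ 5 * k ∧ ∀ x ∈ l, x ∈ {i : ℕ | i < n}})) :=
    ⟨hfT.toFinset, fun x => hfT.mem_toFinset⟩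
  clear hfT
  refine ⟨T.card * (5 * k + 1), ?_⟩
  intro Y hY Zs hZs hdj
  by_contra hcon
  rw [not_le] at hcon
  -- the keys
  have hkey : ∀ Z : Finset ℕ, ∃ x : (ℕ × ℕ) × List Edge × List ℕ, ∃ ω : List ℕ, Z ∈ Zs →
      x ∈ T ∧ Code x.1.1 x.1.2 x.2.1 ∧ (inst Y.toList x.2.2).length = x.1.1 ∧ ω.length = x.1.2 ∧
      (∀ v ∈ ω, v ∈ Z) ∧ Real (vl vs.VE) x.2.1 (inst Y.toList x.2.2) ω := by
    intro Z
    by_cases hZ : Z ∈ Zs
    · obtain ⟨hne, hZY, hZk, hti⟩ := hZs Z hZ
      obtain ⟨p, q, pat, β, ω, hc, hβ, hω, hq, hβY, hωZ, hr, hpe⟩ := tight_code vs.hnd hne hZY hti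
      have h5 : ∀ e ∈ pat, e.2.length ≤ 5 := by
        intro e he
        obtain ⟨e', he', -, h⟩ := hpe e he
        rw [← h]
        exact (vs.hlen e' he').2
      have hp := TiC_p hc h5
      have hi : inst Y.toList (β.map fun v => Y.toList.idxOf v) = β :=
        TiC_inst fun v hv => Finset.mem_toList.2 (hβY v hv)
      refine ⟨((p, q), pat, β.map fun v => Y.toList.idxOf v), ω, fun _ => ⟨?_, hc, ?_, hω, hωZ, ?_⟩⟩
      · rw [hT]
        refine ⟨⟨?_, ?_⟩, ⟨?_, ?_⟩, ?_, ?_⟩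
        · show p < 5 * k + 1
          omega
        · show q < k + 1
          omega
        · show pat.length ≤ k
          rw [hc.len]
          omega
        · intro e he
          obtain ⟨e', he', h1, -⟩ := hpe e he
          refine ⟨?_, h5 e he, ?_⟩
          · show e.1 ∈ (vs.KK : Set Lb)
            rw [← h1]
            exact vs.hk e' he'
          · intro i hi
            have := hc.lt e he i hi
            show i < 6 * k
            omega
        · show (β.map fun v => Y.toList.idxOf v).length ≤ 5 * k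
          rw [List.length_map, hβ]
          omega
        · intro i hi
          obtain ⟨v, hv, rfl⟩ := List.mem_map.1 hi
          have h1 : Y.toList.idxOf v < Y.toList.length :=
            List.idxOf_lt_length_of_mem (Finset.mem_toList.2 (hβY v hv))
          rw [Finset.length_toList] at h1
          show Y.toList.idxOf v < n
          omega
      · show (inst Y.toList (β.map fun v => Y.toList.idxOf v)).length = p
        rw [hi, hβ]
      · show Real (vl vs.VE) pat (inst Y.toList (β.map fun v => Y.toList.idxOf v)) ω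
        rw [hi]
        exact hr
    · exact ⟨((0, 0), [], []), [], fun h => absurd h hZ⟩
  choose f ω hf using hkey
  obtain ⟨x, hxT, hx⟩ := Finset.exists_lt_card_fiber_of_mul_lt_card_of_maps_to
    (s := Zs) (t := T) (f := f) (n := 5 * k + 1) (fun Z hZ => (hf Z hZ).1) hcon
  have hxx := (hT x).1 hxT
  have hmu : mu x.1.1 x.1.2 + 1 ≤ (Zs.filter fun Z => f Z = x).card := by
    have h1 : x.1.1 < 5 * k + 1 := hxx.1.1
    have h2 : mu x.1.1 x.1.2 ≤ 5 * k + 1 := by
      unfold mu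
      split_ifs <;> omega
    omega
  obtain ⟨F, hF, hFc⟩ := Finset.exists_subset_card_eq hmu
  have hFm : ∀ Z ∈ F, Z ∈ Zs ∧ f Z = x := fun Z hZ => Finset.mem_filter.1 (hF hZ)
  have hFne : F.Nonempty := by
    rw [← Finset.card_pos, hFc]
    omega
  obtain ⟨Z₀, hZ₀⟩ := hFne
  have h0 := hf Z₀ (hFm Z₀ hZ₀).1
  rw [(hFm Z₀ hZ₀).2] at h0
  refine vs.nv ⟨x.1.1, x.1.2, x.2.1, inst Y.toList x.2.2, F.toList.map ω, h0.2.1,
    ⟨h0.2.2.1, ?_, ?_⟩, ?_⟩
  · intro ν hν
    obtain ⟨Z, hZ, rfl⟩ := List.mem_map.1 hν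
    have hZF := Finset.mem_toList.1 hZ
    have h1 := hf Z (hFm Z hZF).1
    rw [(hFm Z hZF).2] at h1
    exact ⟨h1.2.2.2.1, h1.2.2.2.2.2⟩
  · rw [List.pairwise_map]
    have h1 : F.toList.Pairwise (fun a b => a ≠ b) := F.nodup_toList
    refine h1.imp_of_mem ?_
    intro a b ha hb hab
    have ha' := (hFm a (Finset.mem_toList.1 ha)).1
    have hb' := (hFm b (Finset.mem_toList.1 hb)).1
    have h2 := Finset.disjoint_left.1 (hdj a ha' b hb' hab)
    intro v hva hvb
    exact h2 ((hf a ha').2.2.2.2.1 v hva) ((hf b hb').2.2.2.2.1 v hvb)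
  · rw [List.length_map, Finset.length_toList, hFc]

end FdZ
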