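import Pool.Agent.Lib.MP_fd2900_lc.Z.TiC

namespace FdZ

private theorem TiD_sdiff {VE : Set Edge} {Y Y' Z : Finset ℕ} (h : Tight VE Y Z) (hY : Y ⊆ Y') :
    Tight VE Y' (Z \ Y') := by
  intro Y₁ hY₁
  have e : (Z \ Y') \ Y₁ = Z \ Y₁ := by
    rw [sdiff_sdiff_left, Finset.sup_eq_union, Finset.union_eq_right.2 hY₁]
  rw [e]
  exact h Y₁ (hY.trans hY₁)

/-- the members of a family as in `disj_bound` -/
private def TiD_Fam (vs : VS) (k : ℕ) (Y : Finset ℕ) (Zs : Finset (Finset ℕ)) : Prop :=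
  (∀ Z ∈ Zs, Z.Nonempty ∧ (∀ v ∈ Z, v ∉ Y) ∧ Z.card ≤ k ∧ Tight vs.VE Y Z) ∧
    ∀ Z ∈ Zs, ∀ Z' ∈ Zs, Z ≠ Z' → Disjoint Z Z'

private theorem TiD_max (vs : VS) (k : ℕ) (Y : Finset ℕ) (N : ℕ)
    (hN : ∀ Zs, TiD_Fam vs k Y Zs → Zs.card ≤ N) :
    ∃ Zs, TiD_Fam vs k Y Zs ∧ ∀ Zs', TiD_Fam vs k Y Zs' → Zs'.card ≤ Zs.card := by
  by_contra hcon
  have h : ∀ m : ℕ, ∃ Zs, TiD_Fam vs k Y Zs ∧ m ≤ Zs.card := by
    intro m
    induction m with
    | zero => exact ⟨∅, ⟨fun Z hZ => absurd hZ (Finset.notMem_empty Z),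
        fun Z hZ => absurd hZ (Finset.notMem_empty Z)⟩, Nat.zero_le _⟩
    | succ m ih =>
      obtain ⟨Zs, h1, h2⟩ := ih
      by_contra h3
      exact hcon ⟨Zs, h1, fun Zs' h4 => by
        by_contra h5
        exact h3 ⟨Zs', h4, by omega⟩⟩
  obtain ⟨Zs, h1, h2⟩ := h (N + 1)
  have := hN Zs h1
  omega

/-- all small tight sets are inside a set of bounded size -/
theorem tight_bound (vs : VS) (k n : ℕ) : ∃ N : ℕ, ∀ Y : Finset ℕ, Y.card ≤ n →
    ∃ U : Finset ℕ, U.card ≤ N ∧ ∀ Z : Finset ℕ, Z.card ≤ k → Tight vs.VE Y Z → Z ⊆ U := by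
  classical
  induction k generalizing n with
  | zero =>
    refine ⟨0, fun Y _ => ⟨∅, le_refl _, fun Z hZ _ => ?_⟩⟩
    rw [Finset.card_eq_zero.1 (Nat.le_zero.1 hZ)]
  | succ k ih =>
    obtain ⟨N1, hN1⟩ := disj_bound vs (k + 1) n
    obtain ⟨N2, hN2⟩ := ih (n + N1 * (k + 1))
    refine ⟨n + N1 * (k + 1) + N2, fun Y hY => ?_⟩
    obtain ⟨Zs, hZs, hmax⟩ := TiD_max vs (k + 1) Y N1 (fun Zs h => hN1 Y hY Zs h.1 h.2)
    have hcard : (Y ∪ Zs.biUnion id).card ≤ n + N1 * (k + 1) := by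
      refine (Finset.card_union_le _ _).trans (add_le_add hY ?_)
      refine (Finset.card_biUnion_le_card_mul Zs id (k + 1) (fun Z hZ => (hZs.1 Z hZ).2.2.1)).trans ?_
      exact Nat.mul_le_mul_right _ (hN1 Y hY Zs hZs.1 hZs.2)
    obtain ⟨U, hU, hU'⟩ := hN2 (Y ∪ Zs.biUnion id) hcard
    refine ⟨(Y ∪ Zs.biUnion id) ∪ U, (Finset.card_union_le _ _).trans (add_le_add hcard hU),
      fun Z hZ ht => ?_⟩
    by_cases hsub : Z ⊆ Y ∪ Zs.biUnion id
    · exact hsub.trans Finset.subset_union_left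
    · have hlt : (Z \ (Y ∪ Zs.biUnion id)).card ≤ k := by
        by_contra hcon
        have hcard1 : (Z \ (Y ∪ Zs.biUnion id)).card = Z.card :=
          le_antisymm (Finset.card_le_card Finset.sdiff_subset) (by omega)
        have heq : Z \ (Y ∪ Zs.biUnion id) = Z :=
          Finset.eq_of_subset_of_card_le Finset.sdiff_subset (by omega)
        have hdj : ∀ v ∈ Z, v ∉ Y ∪ Zs.biUnion id := by
          intro v hv
          rw [← heq] at hv
          exact (Finset.mem_sdiff.1 hv).2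
        have hne : Z.Nonempty := by
          rw [Finset.nonempty_iff_ne_empty]
          intro h0
          rw [h0] at hsub
          exact hsub (Finset.empty_subset _)
        have hdjZ : ∀ Z' ∈ Zs, Disjoint Z Z' := by
          intro Z' hZ'
          rw [Finset.disjoint_left]
          intro v hv hv'
          exact hdj v hv (Finset.mem_union_right _ (Finset.mem_biUnion.2 ⟨Z', hZ', hv'⟩))
        have hnot : Z ∉ Zs := by
          intro hmem
          have := hdjZ Z hmem
          rw [Finset.disjoint_self_iff_empty] at this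
          exact hne.ne_empty this
        have hfam : TiD_Fam vs (k + 1) Y (insert Z Zs) := by
          refine ⟨fun Z' hZ' => ?_, fun Z' hZ' Z'' hZ'' hneq => ?_⟩
          · rcases Finset.mem_insert.1 hZ' with h | h
            · subst h
              exact ⟨hne, fun v hv hvY => hdj v hv (Finset.mem_union_left _ hvY), hZ, ht⟩
            · exact hZs.1 Z' h
          · rcases Finset.mem_insert.1 hZ' with h | h <;> rcases Finset.mem_insert.1 hZ'' with h' | h'
            · exact absurd (h.trans h'.symm) hneq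
            · rw [h]
              exact hdjZ Z'' h'
            · rw [h']
              exact (hdjZ Z' h).symm
            · exact hZs.2 Z' h Z'' h' hneq
        have := hmax _ hfam
        rw [Finset.card_insert_of_notMem hnot] at this
        omega
      have hin := hU' _ hlt (TiD_sdiff ht Finset.subset_union_left)
      intro v hv
      by_cases hvY : v ∈ Y ∪ Zs.biUnion id
      · exact Finset.mem_union_left _ hvY
      · exact Finset.mem_union_right _ (hin (Finset.mem_sdiff.2 ⟨hv, hvY⟩))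

end FdZ
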