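import Pool.Agent.Lib.MP_fd2900_lc.Z.VS

namespace FdZ

private theorem TiE_edges_le (vs : VS) (Y : Finset ℕ) (E : Finset Edge)
    (hE : ∀ e ∈ E, e ∈ vs.VE ∧ ∀ v ∈ e.2, v ∈ Y) : E.card ≤ Y.card := by
  refine vs.nonneg Y.card Y le_rfl (fun v _ h => h) E ?_
  intro e he
  obtain ⟨h1, h2⟩ := hE e he
  refine ⟨⟨e.1, h1, rfl⟩, fun v hv => Or.inr (Finset.mem_coe.2 (h2 v hv)), ?_⟩
  obtain ⟨v, hv⟩ := List.exists_mem_of_length_pos (lt_of_lt_of_le one_pos (vs.hlen e h1).1)
  exact ⟨v, hv, Finset.mem_coe.2 (h2 v hv)⟩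

private theorem TiE_step (vs : VS) (K : ℕ) : ∀ (d : ℕ) (Y : Finset ℕ) (E : Finset Edge),
    (∀ e ∈ E, e ∈ vs.VE ∧ ∀ v ∈ e.2, v ∈ Y) → Y.card ≤ E.card + d →
    ∃ Y' : Finset ℕ, Y ⊆ Y' ∧ Y'.card ≤ Y.card + d * K ∧ Strong (vl vs.VE) (Y' : Set ℕ) K := by
  classical
  intro d
  induction d with
  | zero =>
    intro Y E hE hd
    refine ⟨Y, subset_rfl, by omega, ?_⟩
    intro Z hZ hZY L hL
    by_contra hlt
    have hdis : Disjoint E L := by
      rw [Finset.disjoint_left]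
      intro e he he'
      obtain ⟨v, hv, hvZ⟩ := (hL e he').2.2
      exact hZY v (Finset.mem_coe.1 hvZ) (Finset.mem_coe.2 ((hE e he).2 v hv))
    have h1 := TiE_edges_le vs (Y ∪ Z) (E ∪ L) (by
      intro e he
      rcases Finset.mem_union.1 he with he | he
      · exact ⟨(hE e he).1, fun v hv => Finset.mem_union_left _ ((hE e he).2 v hv)⟩
      · obtain ⟨⟨ℓ, hℓ⟩, h2, _⟩ := hL e he
        refine ⟨hℓ.1, fun v hv => ?_⟩
        rcases h2 v hv with h3 | h3
        · exact Finset.mem_union_left _ (Finset.mem_coe.1 h3)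
        · exact Finset.mem_union_right _ (Finset.mem_coe.1 h3))
    rw [Finset.card_union_of_disjoint hdis] at h1
    have h2 := Finset.card_union_le Y Z
    omega
  | succ d ih =>
    intro Y E hE hd
    by_cases hst : Strong (vl vs.VE) (Y : Set ℕ) K
    · exact ⟨Y, subset_rfl, Nat.le_add_right _ _, hst⟩
    · unfold Strong Few at hst
      push Not at hst
      obtain ⟨Z, hZ, hZY, L, hL, hlt⟩ := hst
      have hdis : Disjoint E L := by
        rw [Finset.disjoint_left]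
        intro e he he'
        obtain ⟨v, hv, hvZ⟩ := (hL e he').2.2
        exact hZY v (Finset.mem_coe.1 hvZ) (Finset.mem_coe.2 ((hE e he).2 v hv))
      obtain ⟨Y', h1, h2, h3⟩ := ih (Y ∪ Z) (E ∪ L) (by
        intro e he
        rcases Finset.mem_union.1 he with he | he
        · exact ⟨(hE e he).1, fun v hv => Finset.mem_union_left _ ((hE e he).2 v hv)⟩
        · obtain ⟨⟨ℓ, hℓ⟩, h2, _⟩ := hL e he
          refine ⟨hℓ.1, fun v hv => ?_⟩
          rcases h2 v hv with h3 | h3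
          · exact Finset.mem_union_left _ (Finset.mem_coe.1 h3)
          · exact Finset.mem_union_right _ (Finset.mem_coe.1 h3)) (by
        rw [Finset.card_union_of_disjoint hdis]
        have h4 := Finset.card_union_le Y Z
        omega)
      refine ⟨Y', (Finset.subset_union_left).trans h1, ?_, h3⟩
      have h4 := Finset.card_union_le Y Z
      have h5 : (d + 1) * K = d * K + K := by ring
      omega

/-- strong sets of bounded size -/
theorem closure_bound (vs : VS) (K n : ℕ) : ∃ N : ℕ, ∀ Y₀ : Finset ℕ, Y₀.card ≤ n →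
    ∃ Y : Finset ℕ, Y₀ ⊆ Y ∧ Y.card ≤ N ∧ Strong (vl vs.VE) (Y : Set ℕ) K := by
  refine ⟨n + n * K, fun Y₀ hY₀ => ?_⟩
  obtain ⟨Y, h1, h2, h3⟩ := TiE_step vs K n Y₀ ∅ (fun e he => absurd he (Finset.notMem_empty e))
    (by simpa using hY₀)
  exact ⟨Y, h1, by omega, h3⟩

end FdZ
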