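import Pool.Agent.Lib.MP_fd2900_lc.Z.Supply

/-! visible structures: definitions -/

namespace FdZ

/-- the labelling of a set of edges by their kinds -/
def vl (VE : Set Edge) (ℓ : Lb) (e : Edge) : Prop := e ∈ VE ∧ e.1 = ℓ

/-- `e` is inside `Y ∪ Z` and meets `Z` -/
def Meets (Y Z : Finset ℕ) (e : Edge) : Prop := (∀ v ∈ e.2, v ∈ Y ∨ v ∈ Z) ∧ ∃ v ∈ e.2, v ∈ Z

/-- isomorphisms between finite sets fixing `base` -/
structure Iso (VE : Set Edge) (base Y Y' : Finset ℕ) (h : ℕ → ℕ) : Prop where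
  bij : Set.BijOn h (Y : Set ℕ) (Y' : Set ℕ)
  fix : ∀ v ∈ base, h v = v
  sub : base ⊆ Y
  iff : ∀ e : Edge, (∀ v ∈ e.2, v ∈ Y) → (e ∈ VE ↔ (e.1, e.2.map h) ∈ VE)

/-- `W` is a minimal extension of `Y` with `|W|` edges -/
structure MinExt (VE : Set Edge) (Y W : Finset ℕ) : Prop where
  ne : W.Nonempty
  dj : ∀ v ∈ W, v ∉ Y
  all : ∃ L : Finset Edge, L.card = W.card ∧ ∀ e, e ∈ L ↔ e ∈ VE ∧ Meets Y W e
  min : ∀ P, P ⊂ W → P.Nonempty → ∀ L : Finset Edge, (∀ e ∈ L, e ∈ VE ∧ Meets Y P e) → L.card < P.card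

/-- visible structures -/
structure VS where
  VE : Set Edge
  KK : Finset Lb
  base : Finset ℕ
  hk : ∀ e ∈ VE, e.1 ∈ KK
  hnd : ∀ e ∈ VE, e.2.Nodup
  hlen : ∀ e ∈ VE, 1 ≤ e.2.length ∧ e.2.length ≤ 5
  nonneg : ∀ k, Strong (vl VE) ∅ k
  nv : ¬ Viol (vl VE)
  ext : ∀ (Y Y' W : Finset ℕ) (h : ℕ → ℕ), Iso VE base Y Y' h → MinExt VE Y W →
    Strong (vl VE) (Y : Set ℕ) W.card → Strong (vl VE) (Y' : Set ℕ) W.card →
    ∃ (W' : Finset ℕ) (h' : ℕ → ℕ), (∀ v ∈ W', v ∉ Y') ∧ W'.card = W.card ∧ (∀ v ∈ Y, h' v = h v) ∧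
      Iso VE base (Y ∪ W) (Y' ∪ W') h'

/-- the visible structure controls the symbol `r` of the structure with diagram `D` -/
def Pres (vs : VS) (D : ℕ × List ℕ → Prop) (r : ℕ) : Prop :=
  ∀ (Y Y' : Finset ℕ) (h : ℕ → ℕ), Iso vs.VE vs.base Y Y' h →
    ∀ t : List ℕ, (∀ v ∈ t, v ∈ Y) → (D (r, t) ↔ D (r, t.map h))

/-- tight sets over `Y` -/
def Tight (VE : Set Edge) (Y Z : Finset ℕ) : Prop :=
  ∀ Y₁ : Finset ℕ, Y ⊆ Y₁ → ∃ L : Finset Edge, (Z \ Y₁).card ≤ L.card ∧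
    ∀ e ∈ L, e ∈ VE ∧ Meets Y₁ (Z \ Y₁) e

end FdZ
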