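import Pool.Agent.Lib.MP_fd2900_lc.Z.VisB

namespace FdZ

variable {G : Guide}

variable {m m' t₀ : ℕ} {i₀ : ℕ → ℕ}

/-- the visible labels of the edge that a visible edge stands for -/
private theorem VisD_char {e e' : Edge} (h1 : VF G m m' e e') {ℓ : Lb} (hℓ : VisL m m' ℓ) :
    flab G ℓ e' ↔ ℓ = e.1 ∨ ∃ j i r x y c, e.1 = (1, [j, i]) ∧ ℓ = (4, [j]) ∧ e.2 = [x, y, c] ∧
      i = G.io j r ∧ ((3, [r]), [x, y]) ∈ FE G ∧ G.TP r := by
  obtain ⟨hv, he', h⟩ := h1
  unfold flab lab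
  rcases h with ⟨hle, rfl⟩ | ⟨h3, n, hn, rfl⟩ | ⟨j, n, x, y, c, rfl, rfl, hn, hF, hm⟩
  · constructor
    · rintro ⟨-, ⟨-, h⟩ | ⟨-, r, h, -⟩ | ⟨j, r, x, y, c, h4, he, hF, hr⟩⟩
      · exact Or.inl h.symm
      · rw [h] at hle
        exact absurd hle (by norm_num)
      · right
        refine ⟨j, G.io j r, r, x, y, c, ?_, h4, ?_, rfl, hF, hr⟩
        · rw [he]
        · rw [he]
    · rintro (h | ⟨j, i, r, x, y, c, h1, h4, h2, hi, hF, hr⟩)
      · exact ⟨he', Or.inl ⟨h ▸ hle, h.symm⟩⟩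
      · refine ⟨he', Or.inr (Or.inr ⟨j, r, x, y, c, h4, ?_, hF, hr⟩)⟩
        rw [← hi]
        exact Prod.ext h1 h2
  · constructor
    · rintro ⟨-, ⟨hl, h⟩ | ⟨h, -⟩ | ⟨j, r, x, y, c, h4, he, hF, hr⟩⟩
      · rw [← h] at hl
        exact absurd hl (by norm_num)
      · exact Or.inl (h.trans h3.symm)
      · have := congrArg (fun e : Edge => e.1.1) he
        exact absurd this (by norm_num)
    · rintro (h | ⟨j, i, r, x, y, c, h1, -⟩)
      · exact ⟨he', Or.inr (Or.inl ⟨h.trans h3, n, rfl, hn⟩)⟩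
      · rw [h3] at h1
        exact absurd (congrArg Prod.fst h1) (by norm_num)
  · constructor
    · rintro ⟨-, ⟨hl, h⟩ | ⟨h, r, h', -⟩ | ⟨j', r, x', y', c', h4, he, hF', hr⟩⟩
      · exfalso
        simp only at h
        rw [← h] at hℓ
        rcases hℓ with ⟨j', -, h' | h' | h'⟩ | ⟨j', i, -, hi, h'⟩ | h'
        · exact absurd (congrArg Prod.fst h') (by norm_num)
        · exact absurd (congrArg Prod.fst h') (by norm_num)
        · exact absurd (congrArg Prod.fst h') (by norm_num)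
        · have h5 := congrArg Prod.snd h'
          simp only [List.cons.injEq, and_true] at h5
          omega
        · exact absurd (congrArg Prod.fst h') (by norm_num)
      · exact absurd (congrArg Prod.fst h') (by norm_num)
      · left
        have h5 := congrArg (fun e : Edge => e.1.2) he
        simp only [List.cons.injEq, and_true] at h5
        rw [h4, h5.1]
    · rintro (h | ⟨j', i, r, x', y', c', h1, -⟩)
      · exact ⟨he', Or.inr (Or.inr ⟨j, n, x, y, c, h, rfl, hF, hn⟩)⟩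
      · exact absurd (congrArg Prod.fst h1) (by norm_num)

private theorem VisD_tr (hc : Cal G m m' t₀ i₀) {x y x' y' j r : ℕ} (hj : j < m)
    (hm : G.io j r < m') (hr : G.TP r) (hF : ((3, [r]), [x, y]) ∈ FE G)
    (hin : x < nn G t₀ → y < nn G t₀ → x' = x ∧ y' = y)
    (hout : x' < nn G t₀ → y' < nn G t₀ → x' = x ∧ y' = y)
    (hv : ∃ n, G.TP n ∧ ((3, [n]), [x', y']) ∈ FE G) :
    ∃ r', G.io j r = G.io j r' ∧ ((3, [r']), [x', y']) ∈ FE G ∧ G.TP r' := by
  by_cases hxy : x < nn G t₀ ∧ y < nn G t₀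
  · obtain ⟨rfl, rfl⟩ := hin hxy.1 hxy.2
    exact ⟨r, rfl, hF, hr⟩
  · obtain ⟨n, hn, hFn⟩ := hv
    have ho : nn G t₀ ≤ x ∨ nn G t₀ ≤ y := by
      by_contra hcon
      push Not at hcon
      exact hxy hcon
    have ho' : nn G t₀ ≤ x' ∨ nn G t₀ ≤ y' := by
      by_contra hcon
      push Not at hcon
      obtain ⟨rfl, rfl⟩ := hout hcon.1 hcon.2
      exact hxy hcon
    have c1 := cal_pair hc hr hF ho hj
    have c2 := cal_pair hc hn hFn ho' hj
    by_cases hS : G.S j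
    · refine ⟨n, ?_, hFn, hn⟩
      rw [(c1.1 hS).1, (c2.1 hS).1]
    · have := c1.2 hS
      omega

private theorem VisD_f {Y Y' B : Finset ℕ} {h : ℕ → ℕ}
    (hi : Iso (visE G m m') B Y Y' h) {x y : ℕ} (hx : x ∈ Y) (hy : y ∈ Y) :
    (∃ n, G.TP n ∧ ((3, [n]), [x, y]) ∈ FE G) ↔ ∃ n, G.TP n ∧ ((3, [n]), [h x, h y]) ∈ FE G := by
  have key : ∀ a b : ℕ, (((3, []), [a, b]) : Edge) ∈ visE G m m' ↔
      ∃ n, G.TP n ∧ ((3, [n]), [a, b]) ∈ FE G := by
    intro a b
    constructor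
    · rintro (⟨⟨j, -, h⟩, -⟩ | ⟨⟨j, i, -, -, h⟩, -⟩ | ⟨⟨j, -, h⟩, -⟩ | ⟨-, h⟩ |
        ⟨j, n, x, y, c, -, h, -⟩)
      · exact absurd (congrArg Prod.fst h) (by norm_num)
      · exact absurd (congrArg Prod.fst h) (by norm_num)
      · exact absurd (congrArg Prod.fst h) (by norm_num)
      · exact h
      · exact absurd (congrArg (fun e : Edge => e.1.1) h) (by norm_num)
    · intro h
      exact Or.inr (Or.inr (Or.inr (Or.inl ⟨rfl, h⟩)))
  rw [← key, ← key]
  have := hi.iff ((3, []), [x, y]) (by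
    intro v hv
    simp only [List.mem_cons, List.not_mem_nil, or_false] at hv
    rcases hv with rfl | rfl
    · exact hx
    · exact hy)
  simpa using this

/-- isomorphisms of visible structures preserve the visible labels of the edges -/
theorem iso_full (hc : Cal G m m' t₀ i₀) {Y Y' : Finset ℕ} {h : ℕ → ℕ}
    (hi : Iso (visE G m m') (Finset.range (nn G t₀)) Y Y' h) {e e' f' : Edge} (he : ∀ v ∈ e.2, v ∈ Y)
    (h1 : VF G m m' e e') (h2 : VF G m m' (e.1, e.2.map h) f') {ℓ : Lb} (hℓ : VisL m m' ℓ) :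
    flab G ℓ e' ↔ flab G ℓ f' := by
  have hfix : ∀ v, v < nn G t₀ → h v = v := fun v hv => hi.fix v (Finset.mem_range.mpr hv)
  have hinj : ∀ v ∈ Y, h v < nn G t₀ → h v = v := by
    intro v hv hlt
    have hm : h v ∈ Y := hi.sub (Finset.mem_range.mpr hlt)
    exact hi.bij.injOn (Finset.mem_coe.mpr hm) (Finset.mem_coe.mpr hv) (hfix _ hlt)
  rw [VisD_char h1 hℓ, VisD_char h2 hℓ]
  apply or_congr Iff.rfl
  have hk : ∀ j i, e.1 = (1, [j, i]) → j < m ∧ i < m' := by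
    intro j i hji
    rcases h1.1 with ⟨⟨j', -, h⟩, -⟩ | ⟨⟨j', i', hj', hi', h⟩, -⟩ | ⟨⟨j', -, h⟩, -⟩ | ⟨h, -⟩ |
        ⟨j', n, x, y, c, -, h, -⟩
    · rw [hji] at h
      exact absurd (congrArg Prod.fst h) (by norm_num)
    · rw [hji] at h
      have h5 := congrArg Prod.snd h
      simp only [List.cons.injEq, and_true] at h5
      rw [h5.1, h5.2]
      exact ⟨hj', hi'⟩
    · rw [hji] at h
      exact absurd (congrArg Prod.fst h) (by norm_num)
    · rw [hji] at h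
      exact absurd (congrArg Prod.fst h) (by norm_num)
    · rw [h] at hji
      exact absurd (congrArg Prod.fst hji) (by norm_num)
  constructor
  · rintro ⟨j, i, r, x, y, c, hji, h4, h2', hir, hF, hr⟩
    obtain ⟨hj, hi'⟩ := hk j i hji
    have hx : x ∈ Y := he x (by rw [h2']; simp)
    have hy : y ∈ Y := he y (by rw [h2']; simp)
    obtain ⟨r', hr1, hr2, hr3⟩ := VisD_tr hc (x' := h x) (y' := h y) hj (hir ▸ hi') hr hF
      (fun a b => ⟨hfix x a, hfix y b⟩) (fun a b => ⟨hinj x hx a, hinj y hy b⟩)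
      ((VisD_f hi hx hy).mp ⟨r, hr, hF⟩)
    refine ⟨j, i, r', h x, h y, h c, hji, h4, ?_, hir.trans hr1, hr2, hr3⟩
    simp only [h2', List.map_cons, List.map_nil]
  · rintro ⟨j, i, r, x', y', c', hji, h4, h2', hir, hF, hr⟩
    simp only at hji h2'
    obtain ⟨hj, hi'⟩ := hk j i hji
    obtain ⟨x, l1, hl1, rfl, h3⟩ := List.map_eq_cons_iff.mp h2'
    obtain ⟨y, l2, hl2, rfl, h5⟩ := List.map_eq_cons_iff.mp h3
    obtain ⟨c, l3, hl3, rfl, h6⟩ := List.map_eq_cons_iff.mp h5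
    have h7 : l3 = [] := List.map_eq_nil_iff.mp h6
    have he2 : e.2 = [x, y, c] := by rw [hl1, hl2, hl3, h7]
    have hx : x ∈ Y := he x (by rw [he2]; simp)
    have hy : y ∈ Y := he y (by rw [he2]; simp)
    obtain ⟨r', hr1, hr2, hr3⟩ := VisD_tr hc (x' := x) (y' := y) hj (hir ▸ hi') hr hF
      (fun a b => ⟨(hinj x hx a).symm, (hinj y hy b).symm⟩)
      (fun a b => ⟨(hfix x a).symm, (hfix y b).symm⟩)
      ((VisD_f hi hx hy).mpr ⟨r, hr, hF⟩)
    exact ⟨j, i, r', x, y, c, hji, h4, he2, hir.trans hr1, hr2, hr3⟩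

end FdZ
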