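import Pool.Agent.Lib.MP_fd2900_lc.Z.Limit
import Pool.Agent.Lib.MP_fd2900_lc.Z.VSCode

namespace FdZ

variable {G : Guide}

variable {m m' t₀ : ℕ} {i₀ : ℕ → ℕ}

/-- the visible edges; kind (4, [j]) stands for a hidden edge with label `C_j` -/
def visE (G : Guide) (m m' : ℕ) : Set Edge := {e |
  ((∃ j, j < m ∧ e.1 = (0, [j])) ∧ e ∈ FE G) ∨ ((∃ j i, j < m ∧ i < m' ∧ e.1 = (1, [j, i])) ∧ e ∈ FE G) ∨
  ((∃ j, j < m ∧ e.1 = (2, [j])) ∧ e ∈ FE G) ∨ (e.1 = (3, []) ∧ ∃ n, G.TP n ∧ ((3, [n]), e.2) ∈ FE G) ∨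
  ∃ j n x y c, j < m ∧ e = ((4, [j]), [x, y, c]) ∧ G.TP n ∧ ((3, [n]), [x, y]) ∈ FE G ∧
    m' ≤ G.io j n ∧ ((1, [j, G.io j n]), [x, y, c]) ∈ FE G}

/-- `e'` is the edge that the visible edge `e` stands for -/
def VF (G : Guide) (m m' : ℕ) (e e' : Edge) : Prop :=
  e ∈ visE G m m' ∧ e' ∈ FE G ∧ ((e.1.1 ≤ 2 ∧ e' = e) ∨ (e.1 = (3, []) ∧ ∃ n, G.TP n ∧ e' = ((3, [n]), e.2)) ∨
    ∃ j n x y c, e = ((4, [j]), [x, y, c]) ∧ e' = ((1, [j, G.io j n]), [x, y, c]) ∧ G.TP n ∧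
      ((3, [n]), [x, y]) ∈ FE G ∧ m' ≤ G.io j n)

/-- visible labels -/
def VisL (m m' : ℕ) (ℓ : Lb) : Prop :=
  (∃ j, j < m ∧ (ℓ = (0, [j]) ∨ ℓ = (2, [j]) ∨ ℓ = (4, [j]))) ∨ (∃ j i, j < m ∧ i < m' ∧ ℓ = (1, [j, i])) ∨
    ℓ = (3, [])

/-- calibration: from stage `t₀` on the labels on the true path are what they should be -/
def Cal (G : Guide) (m m' t₀ : ℕ) (i₀ : ℕ → ℕ) : Prop :=
  ∀ s, t₀ ≤ s → G.TP s → ∀ j, j < m →
    (G.S j → G.io j s = i₀ j ∧ i₀ j < m') ∧ (¬ G.S j → m' ≤ G.io j s)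

theorem exists_cal (G : Guide) (m m₀ t₁ : ℕ) : ∃ m' t₀ i₀, m₀ ≤ m' ∧ t₁ ≤ t₀ ∧ Cal G m m' t₀ i₀ := by
  classical
  have h1 : ∀ j, ∃ i s₀, G.S j → ∀ s, s₀ ≤ s → G.TP s → G.io j s = i := by
    intro j
    by_cases hj : G.S j
    · obtain ⟨i, s₀, h⟩ := G.io_S j hj
      exact ⟨i, s₀, fun _ => h⟩
    · exact ⟨0, 0, fun h => absurd h hj⟩
  choose i₀ a ha using h1
  have h2 : ∀ j, ∃ s₀, ¬ G.S j → ∀ s, s₀ ≤ s → G.TP s →
      max m₀ ((Finset.range m).sup i₀ + 1) < G.io j s := by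
    intro j
    by_cases hj : G.S j
    · exact ⟨0, fun h => absurd hj h⟩
    · obtain ⟨s₀, h⟩ := G.io_nS j hj (max m₀ ((Finset.range m).sup i₀ + 1))
      exact ⟨s₀, fun _ => h⟩
  choose b hb using h2
  refine ⟨max m₀ ((Finset.range m).sup i₀ + 1),
    max t₁ (max ((Finset.range m).sup a) ((Finset.range m).sup b)), i₀, le_max_left _ _,
    le_max_left _ _, ?_⟩
  intro s hs hTP j hj
  have hja : a j ≤ (Finset.range m).sup a := Finset.le_sup (f := a) (Finset.mem_range.mpr hj)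
  have hjb : b j ≤ (Finset.range m).sup b := Finset.le_sup (f := b) (Finset.mem_range.mpr hj)
  have hji : i₀ j ≤ (Finset.range m).sup i₀ := Finset.le_sup (f := i₀) (Finset.mem_range.mpr hj)
  constructor
  · intro hS
    refine ⟨ha j hS s (by omega) hTP, ?_⟩
    omega
  · intro hS
    exact (hb j hS s (by omega) hTP).le

/-- nodes of true pairs outside `V_{t₀}` -/
theorem cal_pair (hc : Cal G m m' t₀ i₀) {n x y : ℕ} (hn : G.TP n) (h : ((3, [n]), [x, y]) ∈ FE G)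
    (ho : nn G t₀ ≤ x ∨ nn G t₀ ≤ y) {j : ℕ} (hj : j < m) :
    (G.S j → G.io j n = i₀ j ∧ i₀ j < m') ∧ (¬ G.S j → m' ≤ G.io j n) := by
  have hle : t₀ ≤ n := by
    by_contra hlt
    obtain ⟨s, hs⟩ := h
    obtain ⟨_, _, h3⟩ := shape s _ (hs s le_rfl)
    rcases h3 with ⟨j, h3, _⟩ | ⟨j, i, h3, _⟩ | ⟨j, h3, _⟩ | ⟨t, _, h3, _, _, h4⟩
    · simp at h3
    · simp at h3
    · simp at h3
    · have ht : n = t := by simpa using h3
      subst ht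
      have hm : nn G (n + 1) ≤ nn G t₀ := nn_mono (by omega)
      have hx : x < nn G (n + 1) := h4 x (by simp)
      have hy : y < nn G (n + 1) := h4 y (by simp)
      omega
  exact hc n hle hn j hj

end FdZ
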