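import Pool.Agent.Lib.MP_fd2900_lc.Z.VisA

namespace FdZ

variable {G : Guide}

variable {m m' t₀ : ℕ} {i₀ : ℕ → ℕ}

theorem vis_nodup {e : Edge} (h : e ∈ visE G m m') : e.2.Nodup ∧ 1 ≤ e.2.length ∧ e.2.length ≤ 5 := by
  have aux : ∀ f : Edge, f ∈ FE G → f.2.Nodup ∧ 1 ≤ f.2.length ∧ f.2.length ≤ 5 := by
    intro f hf
    obtain ⟨h1, h2⟩ := fe_shape hf
    refine ⟨h1, ?_⟩
    rcases h2 with ⟨j, -, h⟩ | ⟨j, i, -, h⟩ | ⟨j, -, h⟩ | ⟨t, -, h⟩ <;> omega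
  rcases h with ⟨-, h⟩ | ⟨-, h⟩ | ⟨-, h⟩ | ⟨-, n, -, h⟩ | ⟨j, n, x, y, c, -, rfl, -, -, -, h⟩
  · exact aux _ h
  · exact aux _ h
  · exact aux _ h
  · exact aux ((3, [n]), e.2) h
  · exact aux ((1, [j, G.io j n]), [x, y, c]) h

theorem vis_kinds (G : Guide) (m m' : ℕ) : ∃ KK : Finset Lb, ∀ e ∈ visE G m m', e.1 ∈ KK := by
  refine ⟨((Finset.range m).image fun j => ((0, [j]) : Lb)) ∪
    ((Finset.range m ×ˢ Finset.range m').image fun p => ((1, [p.1, p.2]) : Lb)) ∪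
    ((Finset.range m).image fun j => ((2, [j]) : Lb)) ∪ {((3, []) : Lb)} ∪
    ((Finset.range m).image fun j => ((4, [j]) : Lb)), ?_⟩
  intro e h
  simp only [Finset.mem_union, Finset.mem_image, Finset.mem_range, Finset.mem_singleton,
    Finset.mem_product]
  rcases h with ⟨⟨j, hj, h⟩, -⟩ | ⟨⟨j, i, hj, hi, h⟩, -⟩ | ⟨⟨j, hj, h⟩, -⟩ | ⟨h, -⟩ |
    ⟨j, n, x, y, c, hj, h, -⟩
  · exact Or.inl (Or.inl (Or.inl (Or.inl ⟨j, hj, h.symm⟩)))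
  · exact Or.inl (Or.inl (Or.inl (Or.inr ⟨(j, i), ⟨hj, hi⟩, h.symm⟩)))
  · exact Or.inl (Or.inl (Or.inr ⟨j, hj, h.symm⟩))
  · exact Or.inl (Or.inr h)
  · exact Or.inr ⟨j, hj, by rw [h]⟩

theorem vf_ex {e : Edge} (h : e ∈ visE G m m') : ∃ e', VF G m m' e e' := by
  have h0 := h
  rcases h with ⟨⟨j, hj, h1⟩, h2⟩ | ⟨⟨j, i, hj, hi, h1⟩, h2⟩ | ⟨⟨j, hj, h1⟩, h2⟩ |
    ⟨h1, n, hn, h2⟩ | ⟨j, n, x, y, c, hj, h1, hn, hF, hm, h2⟩
  · exact ⟨e, h0, h2, Or.inl ⟨by rw [h1]; simp, rfl⟩⟩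
  · exact ⟨e, h0, h2, Or.inl ⟨by rw [h1]; simp, rfl⟩⟩
  · exact ⟨e, h0, h2, Or.inl ⟨by rw [h1], rfl⟩⟩
  · exact ⟨((3, [n]), e.2), h0, h2, Or.inr (Or.inl ⟨h1, n, hn, rfl⟩)⟩
  · exact ⟨((1, [j, G.io j n]), [x, y, c]), h0, h2,
      Or.inr (Or.inr ⟨j, n, x, y, c, h1, rfl, hn, hF, hm⟩)⟩

private theorem VisB_cross {e : Edge} (h : e ∈ visE G m m') {j i : ℕ} (he : e.1 = (1, [j, i])) :
    i < m' := by
  rcases h with ⟨⟨j', -, h1⟩, -⟩ | ⟨⟨j', i', -, hi, h1⟩, -⟩ | ⟨⟨j', -, h1⟩, -⟩ |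
    ⟨h1, -⟩ | ⟨j', n, x, y, c, -, h1, -⟩
  · rw [he] at h1; simp at h1
  · rw [he] at h1
    simp only [Prod.mk.injEq, List.cons.injEq, and_true, true_and] at h1
    omega
  · rw [he] at h1; simp at h1
  · rw [he] at h1; simp at h1
  · rw [h1] at he; simp at he

theorem vf_inj {e₁ e₂ e' : Edge} (h : VF G m m' e₁ e') (h' : VF G m m' e₂ e') : e₁ = e₂ := by
  obtain ⟨hv, -, h⟩ := h
  obtain ⟨hv', -, h'⟩ := h'
  rcases h with ⟨h1, h2⟩ | ⟨h1, n, hn, h2⟩ | ⟨j, n, x, y, c, h1, h2, hn, hF, hm⟩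
  · rcases h' with ⟨h1', h2'⟩ | ⟨h1', n', hn', h2'⟩ | ⟨j', n', x', y', c', h1', h2', hn', hF', hm'⟩
    · exact h2.symm.trans h2'
    · exfalso
      rw [h2] at h2'
      rw [h2'] at h1
      simp at h1
    · exfalso
      have h3 : e₁ = ((1, [j', G.io j' n']), [x', y', c']) := h2.symm.trans h2'
      have := VisB_cross hv (by rw [h3])
      omega
  · rcases h' with ⟨h1', h2'⟩ | ⟨h1', n', hn', h2'⟩ | ⟨j', n', x', y', c', h1', h2', hn', hF', hm'⟩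
    · exfalso
      rw [h2'] at h2
      rw [h2] at h1'
      simp at h1'
    · rw [h2] at h2'
      simp only [Prod.mk.injEq] at h2'
      exact Prod.ext (h1.trans h1'.symm) h2'.2
    · exfalso
      rw [h2] at h2'
      simp at h2'
  · rcases h' with ⟨h1', h2'⟩ | ⟨h1', n', hn', h2'⟩ | ⟨j', n', x', y', c', h1', h2', hn', hF', hm'⟩
    · exfalso
      have h3 : e₂ = ((1, [j, G.io j n]), [x, y, c]) := h2'.symm.trans h2
      have := VisB_cross hv' (by rw [h3])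
      omega
    · exfalso
      rw [h2] at h2'
      simp at h2'
    · rw [h2] at h2'
      simp only [Prod.mk.injEq, List.cons.injEq, and_true, true_and] at h2'
      obtain ⟨⟨hj, -⟩, hx, hy, hc⟩ := h2'
      rw [h1, h1', hj, hx, hy, hc]

theorem vf_fun {e e₁ e₂ : Edge} (h : VF G m m' e e₁) (h' : VF G m m' e e₂) : e₁ = e₂ := by
  obtain ⟨hv, hf, h⟩ := h
  obtain ⟨hv', hf', h'⟩ := h'
  rcases h with ⟨h1, h2⟩ | ⟨h1, n, hn, h2⟩ | ⟨j, n, x, y, c, h1, h2, hn, hF, hm⟩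
  · rcases h' with ⟨h1', h2'⟩ | ⟨h1', n', hn', h2'⟩ | ⟨j', n', x', y', c', h1', h2', hn', hF', hm'⟩
    · rw [h2, h2']
    · exfalso
      rw [h1'] at h1
      simp at h1
    · exfalso
      rw [h1'] at h1
      simp at h1
  · rcases h' with ⟨h1', h2'⟩ | ⟨h1', n', hn', h2'⟩ | ⟨j', n', x', y', c', h1', h2', hn', hF', hm'⟩
    · exfalso
      rw [h1] at h1'
      simp at h1'
    · rw [h2] at hf
      rw [h2'] at hf'
      obtain ⟨-, h3⟩ := fe_shape hf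
      have hlen : e.2.length = 2 := by
        rcases h3 with ⟨j, h, -⟩ | ⟨j, i, h, -⟩ | ⟨j, h, -⟩ | ⟨t, -, h⟩
        · simp at h
        · simp at h
        · simp at h
        · exact h
      obtain ⟨x, y, hxy⟩ := List.length_eq_two.mp hlen
      rw [hxy] at hf hf'
      rw [h2, h2', tp_uniq hf hf']
    · exfalso
      rw [h1'] at h1
      simp at h1
  · rcases h' with ⟨h1', h2'⟩ | ⟨h1', n', hn', h2'⟩ | ⟨j', n', x', y', c', h1', h2', hn', hF', hm'⟩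
    · exfalso
      rw [h1] at h1'
      simp at h1'
    · exfalso
      rw [h1] at h1'
      simp at h1'
    · rw [h1] at h1'
      simp only [Prod.mk.injEq, List.cons.injEq, and_true, true_and] at h1'
      obtain ⟨hj, hx, hy, hc⟩ := h1'
      subst hj hx hy hc
      rw [h2, h2', tp_uniq hF hF']

theorem vf_flab {e e' : Edge} (h : VF G m m' e e') : flab G e.1 e' ∧ e'.2 = e.2 ∧ VisL m m' e.1 := by
  obtain ⟨hv, hf, h⟩ := h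
  have hvis : VisL m m' e.1 := by
    rcases hv with ⟨⟨j, hj, h1⟩, -⟩ | ⟨⟨j, i, hj, hi, h1⟩, -⟩ | ⟨⟨j, hj, h1⟩, -⟩ |
      ⟨h1, -⟩ | ⟨j, n, x, y, c, hj, h1, -⟩
    · exact Or.inl ⟨j, hj, Or.inl h1⟩
    · exact Or.inr (Or.inl ⟨j, i, hj, hi, h1⟩)
    · exact Or.inl ⟨j, hj, Or.inr (Or.inl h1)⟩
    · exact Or.inr (Or.inr h1)
    · exact Or.inl ⟨j, hj, Or.inr (Or.inr (by rw [h1]))⟩
  rcases h with ⟨h1, h2⟩ | ⟨h1, n, hn, h2⟩ | ⟨j, n, x, y, c, h1, h2, hn, hF, hm⟩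
  · exact ⟨⟨hf, Or.inl ⟨h1, by rw [h2]⟩⟩, by rw [h2], hvis⟩
  · exact ⟨⟨hf, Or.inr (Or.inl ⟨h1, n, by rw [h2], hn⟩)⟩, by rw [h2], hvis⟩
  · exact ⟨⟨hf, Or.inr (Or.inr ⟨j, n, x, y, c, by rw [h1], h2, hF, hn⟩)⟩, by rw [h1, h2], hvis⟩

theorem vf_of_flab {ℓ : Lb} {e' : Edge} (hℓ : VisL m m' ℓ) (h : flab G ℓ e') : ∃ e, VF G m m' e e' := by
  obtain ⟨hf, h⟩ := h
  rcases h with ⟨h1, h2⟩ | ⟨h1, r, h2, hr⟩ | ⟨j, r, x, y, c, h1, h2, hF, hr⟩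
  · refine ⟨e', ?_, hf, Or.inl ⟨by rw [h2]; exact h1, rfl⟩⟩
    rcases hℓ with ⟨j, hj, hl | hl | hl⟩ | ⟨j, i, hj, hi, hl⟩ | hl
    · exact Or.inl ⟨⟨j, hj, h2.trans hl⟩, hf⟩
    · exact Or.inr (Or.inr (Or.inl ⟨⟨j, hj, h2.trans hl⟩, hf⟩))
    · rw [hl] at h1; simp at h1
    · exact Or.inr (Or.inl ⟨⟨j, i, hj, hi, h2.trans hl⟩, hf⟩)
    · rw [hl] at h1; simp at h1
  · have he : e' = ((3, [r]), e'.2) := Prod.ext h2 rfl
    refine ⟨((3, []), e'.2), Or.inr (Or.inr (Or.inr (Or.inl ⟨rfl, r, hr, ?_⟩))), hf,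
      Or.inr (Or.inl ⟨rfl, r, hr, he⟩)⟩
    show ((3, [r]), e'.2) ∈ FE G
    rw [← he]
    exact hf
  · have hj : j < m := by
      rcases hℓ with ⟨j', hj, hl | hl | hl⟩ | ⟨j', i, hj, hi, hl⟩ | hl
      · rw [h1] at hl; simp at hl
      · rw [h1] at hl; simp at hl
      · rw [h1] at hl
        simp only [Prod.mk.injEq, List.cons.injEq, and_true, true_and] at hl
        omega
      · rw [h1] at hl; simp at hl
      · rw [h1] at hl; simp at hl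
    by_cases hm : G.io j r < m'
    · refine ⟨e', Or.inr (Or.inl ⟨⟨j, G.io j r, hj, hm, by rw [h2]⟩, hf⟩), hf,
        Or.inl ⟨by rw [h2]; simp, rfl⟩⟩
    · push Not at hm
      have hf2 : ((1, [j, G.io j r]), [x, y, c]) ∈ FE G := by rw [← h2]; exact hf
      exact ⟨((4, [j]), [x, y, c]),
        Or.inr (Or.inr (Or.inr (Or.inr ⟨j, r, x, y, c, hj, rfl, hr, hF, hm, hf2⟩))), hf,
        Or.inr (Or.inr ⟨j, r, x, y, c, rfl, h2, hr, hF, hm⟩)⟩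

end FdZ
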