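import Pool.Agent.Lib.MP_fd2900_lc.Z.VisB

namespace FdZ

variable {G : Guide}

variable {m m' t₀ : ℕ} {i₀ : ℕ → ℕ}

private theorem VisC_map {g : Edge → Edge} (hg : ∀ e ∈ visE G m m', VF G m m' e (g e)) {β ν : List ℕ} :
    ∀ {pat es : List Edge}, List.Forall₂ (fun pe e => vl (visE G m m') pe.1 e ∧ e.2 = inst (β ++ ν) pe.2) pat es →
      (∀ e ∈ es, e ∈ visE G m m') ∧
      List.Forall₂ (fun pe e => flab G pe.1 e ∧ e.2 = inst (β ++ ν) pe.2) pat (es.map g) := by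
  intro pat es h
  induction h with
  | nil => exact ⟨by simp, List.Forall₂.nil⟩
  | @cons pe e pat es h1 _ ih =>
    obtain ⟨⟨h2, h3⟩, h4⟩ := h1
    obtain ⟨h5, h6, _⟩ := vf_flab (hg e h2)
    refine ⟨?_, ?_⟩
    · intro e' he'
      rcases List.mem_cons.1 he' with h | h
      · rw [h]; exact h2
      · exact ih.1 e' h
    · rw [List.map_cons]
      refine List.Forall₂.cons ⟨?_, ?_⟩ ih.2
      · rw [← h3]; exact h5
      · rw [h6]; exact h4

private theorem VisC_inj {g : Edge → Edge} (hg : ∀ e ∈ visE G m m', VF G m m' e (g e)) {e₁ e₂ : Edge}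
    (h₁ : e₁ ∈ visE G m m') (h₂ : e₂ ∈ visE G m m') (h : g e₁ = g e₂) : e₁ = e₂ := by
  have h3 := hg e₁ h₁
  rw [h] at h3
  exact vf_inj h3 (hg e₂ h₂)

private theorem VisC_real {g : Edge → Edge} (hg : ∀ e ∈ visE G m m', VF G m m' e (g e)) {β ν : List ℕ}
    {pat : List Edge} (h : Real (vl (visE G m m')) pat β ν) : Real (flab G) pat β ν := by
  obtain ⟨h1, es, h2, h3⟩ := h
  obtain ⟨h4, h5⟩ := VisC_map hg h3
  exact ⟨h1, es.map g, List.Nodup.map_on (fun x hx y hy hxy => VisC_inj hg (h4 x hx) (h4 y hy) hxy) h2, h5⟩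

/-- no violation in the visible structure -/
theorem vis_nv : ¬ Viol (vl (visE G m m')) := by
  choose! g hg using fun (e : Edge) (h : e ∈ visE G m m') => vf_ex h
  rintro ⟨p, q, pat, β, νs, h1, ⟨h2, h3, h4⟩, h5⟩
  exact nviol_lim ⟨p, q, pat, β, νs, h1, ⟨h2, fun ν hν => ⟨(h3 ν hν).1, VisC_real hg (h3 ν hν).2⟩, h4⟩, h5⟩

theorem vis_nonneg (k : ℕ) : Strong (vl (visE G m m')) ∅ k := by
  classical
  choose! g hg using fun (e : Edge) (h : e ∈ visE G m m') => vf_ex h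
  intro Z hZ _ L hL
  have h0 : ∀ v ∈ Z, v ∉ Set.Iio (nn G 0) := by
    intro v _ hv
    rw [nn_zero] at hv
    exact absurd hv (Nat.not_lt_zero v)
  have hmem : ∀ e ∈ L, e ∈ visE G m m' := fun e he => by
    obtain ⟨⟨ℓ, hℓ⟩, _⟩ := hL e he
    exact hℓ.1
  have hc : (L.image g).card = L.card :=
    Finset.card_image_of_injOn fun x hx y hy hxy => VisC_inj hg (hmem x hx) (hmem y hy) hxy
  rw [← hc]
  refine strong_lim 0 k Z hZ h0 (L.image g) ?_
  intro e' he'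
  obtain ⟨e, he, rfl⟩ := Finset.mem_image.1 he'
  obtain ⟨_, h2, v, h3, h4⟩ := hL e he
  obtain ⟨h5, h6, _⟩ := vf_flab (hg e (hmem e he))
  refine ⟨⟨e.1, h5⟩, ?_, v, ?_, h4⟩
  · intro v hv
    rw [h6] at hv
    rcases h2 v hv with h | h
    · exact absurd h (Set.notMem_empty v)
    · exact Or.inr h
  · rw [h6]; exact h3

end FdZ
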