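import Pool.Agent.Lib.MP_fd2900_lc.Z.Vis

/-! the extension lemma: definitions -/

namespace FdZ

/-- the part of `Ok` that does not mention the checks -/
structure Pre (s n p q : ℕ) (pat : List Edge) (β : List ℕ) : Prop where
  code : Code p q pat
  len : β.length = p
  nd : β.Nodup
  lt : ∀ v ∈ β, v < n
  kinds : ∀ pe ∈ pat, kindOk s pe

/-- base + new vertices -/
noncomputable def XS (G : Guide) (s q : ℕ) (β' : List ℕ) : List ℕ := β' ++ List.range' (nn G s) q

/-- the edge made for the entry `pe` at stage `s` over the base `β'` -/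
noncomputable def XM (G : Guide) (s q : ℕ) (β' : List ℕ) (pe : Edge) : Edge :=
  mkE G.le G.io (DD G s) s (nn G s) (XS G s q β') pe

/-- the new edges of the request (p, q, pat, β') at stage `s` -/
noncomputable def XN (G : Guide) (s q : ℕ) (pat : List Edge) (β' : List ℕ) : List Edge :=
  newEs G.le G.io (DD G s) s (nn G s) q pat β'

/-- the labels after the free realization, in the view of the stage `s` -/
def XL (G : Guide) (s q : ℕ) (pat : List Edge) (β' : List ℕ) : Lb → Edge → Prop :=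
  lab G.io (es (DD G s ++ XN G s q pat β')) (vw G.le s)

/-- `v` is in `Y'` or one of the new vertices `n, …, n + q - 1` -/
def Ins (Y' : Finset ℕ) (n q v : ℕ) : Prop := v ∈ Y' ∨ (n ≤ v ∧ v < n + q)

open Classical in
/-- the map from `Y'` + new vertices to `Y ∪ W` -/
noncomputable def th (h : ℕ → ℕ) (Y : Finset ℕ) (n : ℕ) (ω : List ℕ) (v : ℕ) : ℕ :=
  if v < n then Function.invFunOn h (Y : Set ℕ) v else ω.getD (v - n) 0

/-- the situation in the proof of the extension lemma: no realization of the code over `β.map h` outside `Y'`;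
`r` bounds `Y'`, `s` is a late stage of the true path with fresh labels -/
structure Sit (G : Guide) (m m' t₀ : ℕ) (i₀ : ℕ → ℕ) (Y Y' W : Finset ℕ) (h : ℕ → ℕ) (p q : ℕ)
    (pat : List Edge) (β ω : List ℕ) (r s : ℕ) : Prop where
  cal : Cal G m m' t₀ i₀
  iso : Iso (visE G m m') (Finset.range (nn G t₀)) Y Y' h
  wy : ∀ v ∈ W, v ∉ Y
  wc : W.card = q
  code : Code p q pat
  bl : β.length = p
  ol : ω.length = q
  bY : ∀ v ∈ β, v ∈ Y
  oW : ∀ v, v ∈ ω ↔ v ∈ W
  rl : Real (vl (visE G m m')) pat β ω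
  all : ∀ e ∈ visE G m m', Meets Y W e → ImgE (vl (visE G m m')) pat β ω e
  str : Strong (vl (visE G m m')) (Y' : Set ℕ) q
  hno : ∀ ν : List ℕ, ν.length = q → Real (vl (visE G m m')) pat (β.map h) ν → ∀ v ∈ ν, v ∈ Y'
  tr : t₀ ≤ r
  mr : m' ≤ r
  yr : ∀ v ∈ Y', v < nn G r
  late : Late G r s
  tps : G.TP s
  fresh : ∀ j, j < m → ¬ G.S j → r ≤ G.io j s

/-- `f` is the edge over `Y ∪ W` that corresponds to the edge `e` over `Y'` + new vertices -/
def Cor (G : Guide) (m m' : ℕ) (Y Y' : Finset ℕ) (h : ℕ → ℕ) (q : ℕ) (pat : List Edge) (β ω : List ℕ) (s : ℕ)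
    (e f : Edge) : Prop :=
  (∃ e₀, VF G m m' e₀ e ∧ (∀ v ∈ e.2, v ∈ Y') ∧ VF G m m' (e₀.1, e₀.2.map (th h Y (nn G s) ω)) f) ∨
    ∃ pe ∈ pat, e = XM G s q (β.map h) pe ∧ VF G m m' (pe.1, inst (β ++ ω) pe.2) f

end FdZ
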