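import Pool.Agent.Lib.MP_fd2900_lc.Z.X0

/-! copies of the batch lemmas for the weaker structure `Pre` -/

namespace FdZ

variable {le : ℕ → ℕ → Bool} {io : ℕ → ℕ → ℕ} {s n p q : ℕ} {E pat : List Edge} {β : List ℕ}

/-- the entries of the instantiation list -/
private theorem XA_getD_lt (hlen : β.length = p) {k : ℕ} (hk : k < p) :
    (β ++ List.range' n q).getD k 0 = β.getD k 0 := by
  rw [List.getD_append _ _ _ _ (by omega)]

private theorem XA_getD_ge (hlen : β.length = p) {k : ℕ} (hk : p ≤ k) (hk2 : k < p + q) :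
    (β ++ List.range' n q).getD k 0 = n + (k - p) := by
  rw [List.getD_append_right _ _ _ _ (by omega), hlen, List.getD_eq_getElem _ _ (by simp; omega)]
  simp

private theorem XA_getD_mem (hlen : β.length = p) {k : ℕ} (hk : k < p) : β.getD k 0 ∈ β := by
  rw [List.getD_eq_getElem _ _ (by omega)]
  exact List.getElem_mem _

private theorem XA_inj (hlen : β.length = p) (hnd : β.Nodup) (hlt : ∀ v ∈ β, v < n) {a b : ℕ}
    (ha : a < p + q) (hb : b < p + q)
    (hab : (β ++ List.range' n q).getD a 0 = (β ++ List.range' n q).getD b 0) : a = b := by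
  rcases Nat.lt_or_ge a p with h1 | h1 <;> rcases Nat.lt_or_ge b p with h2 | h2
  · rw [XA_getD_lt hlen h1, XA_getD_lt hlen h2, List.getD_eq_getElem _ _ (by omega),
      List.getD_eq_getElem _ _ (by omega)] at hab
    exact (List.Nodup.getElem_inj_iff hnd).1 hab
  · rw [XA_getD_lt hlen h1, XA_getD_ge hlen h2 hb] at hab
    have := hlt _ (XA_getD_mem hlen h1)
    omega
  · rw [XA_getD_lt hlen h2, XA_getD_ge hlen h1 ha] at hab
    have := hlt _ (XA_getD_mem hlen h2)
    omega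
  · rw [XA_getD_ge hlen h1 ha, XA_getD_ge hlen h2 hb] at hab
    omega

/-- copy the proof of `new_sub` (fdz_BatA.lean) -/
theorem pre_sub (h : Pre s n p q pat β) {e : Edge} (he : e ∈ newEs le io E s n q pat β) :
    (∀ v ∈ e.2, v ∈ β ∨ (n ≤ v ∧ v < n + q)) ∧ (∃ v ∈ e.2, n ≤ v) ∧ e.2.Nodup := by
  obtain ⟨pe, hpe, rfl⟩ := List.mem_map.1 he
  rw [mkE_tuple]
  have hlt := h.code.lt pe hpe
  refine ⟨?_, ?_, ?_⟩
  · intro v hv
    obtain ⟨k, hk, rfl⟩ := List.mem_map.1 hv
    rcases Nat.lt_or_ge k p with h1 | h1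
    · left
      rw [XA_getD_lt h.len h1]
      exact XA_getD_mem h.len h1
    · right
      have := hlt k hk
      rw [XA_getD_ge h.len h1 this]
      omega
  · obtain ⟨k, hk, hpk⟩ := h.code.new pe hpe
    refine ⟨_, List.mem_map.2 ⟨k, hk, rfl⟩, ?_⟩
    rw [XA_getD_ge h.len hpk (hlt k hk)]
    omega
  · refine List.Nodup.map_on ?_ (h.code.nd pe hpe)
    intro a ha b hb hab
    exact XA_inj h.len h.nd h.lt (hlt a ha) (hlt b hb) hab

/-- the indices of the new points in `Z` -/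
private def XA_P (n p q : ℕ) (Z : Finset ℕ) : Finset ℕ :=
  (Finset.Ico p (p + q)).filter fun k => n + (k - p) ∈ Z

private theorem XA_mem {Z : Finset ℕ} {k : ℕ} :
    k ∈ XA_P n p q Z ↔ (p ≤ k ∧ k < p + q) ∧ n + (k - p) ∈ Z := by
  simp [XA_P]

private theorem XA_card (Z : Finset ℕ) : (XA_P n p q Z).card ≤ Z.card := by
  refine Finset.card_le_card_of_injOn (fun k => n + (k - p)) (fun k hk => (XA_mem.1 hk).2) ?_
  intro a ha b hb hab
  have h1 := (XA_mem.1 ha).1
  have h2 := (XA_mem.1 hb).1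
  simp only at hab
  omega

private theorem XA_cnt_le (hc : Code p q pat) (Z : Finset ℕ) :
    cnt p pat (XA_P n p q Z) ≤ (XA_P n p q Z).card ∧
      ((XA_P n p q Z).card ≤ cnt p pat (XA_P n p q Z) → (XA_P n p q Z).Nonempty →
        XA_P n p q Z = Finset.Ico p (p + q)) := by
  rcases (XA_P n p q Z).eq_empty_or_nonempty with h0 | h0
  · rw [h0]
    refine ⟨?_, fun _ hne => absurd hne (by simp)⟩
    have : (pat.filter fun e => decide ((∀ k ∈ e.2, k < p ∨ k ∈ (∅ : Finset ℕ)) ∧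
        ∃ k ∈ e.2, k ∈ (∅ : Finset ℕ))) = [] := by
      rw [List.filter_eq_nil_iff]
      intro e _
      simp
    unfold cnt
    rw [this]
    simp
  · have hsub : XA_P n p q Z ⊆ Finset.Ico p (p + q) := Finset.filter_subset _ _
    by_cases hs : XA_P n p q Z = Finset.Ico p (p + q)
    · refine ⟨?_, fun _ _ => hs⟩
      rw [hs, Nat.card_Ico]
      have h1 : cnt p pat (Finset.Ico p (p + q)) ≤ pat.length := List.length_filter_le _ _
      rw [hc.len] at h1
      omega
    · have h1 := hc.min _ h0 (Finset.ssubset_iff_subset_ne.2 ⟨hsub, hs⟩)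
      exact ⟨h1.le, fun h2 _ => absurd h1 (not_lt.2 h2)⟩

private theorem XA_new (hE : ∀ e ∈ E, ∀ v ∈ e.2, v < n) {Z : Finset ℕ} (hZ : ∀ v ∈ Z, n ≤ v)
    {e : Edge} (he : e ∈ E ++ newEs le io E s n q pat β) (h : ∃ v ∈ e.2, v ∈ Z) :
    e ∈ newEs le io E s n q pat β := by
  obtain ⟨v, hv, hvZ⟩ := h
  rcases List.mem_append.1 he with h1 | h1
  · have := hE e h1 v hv
    have := hZ v hvZ
    omega
  · exact h1

private theorem XA_count (hE : ∀ e ∈ E, ∀ v ∈ e.2, v < n) (h : Pre s n p q pat β)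
    (Z : Finset ℕ) (hZ : ∀ v ∈ Z, n ≤ v) (L : Finset Edge)
    (hL : ∀ e ∈ L, e ∈ E ++ newEs le io E s n q pat β ∧ (∀ v ∈ e.2, v < n ∨ v ∈ Z) ∧
      ∃ v ∈ e.2, v ∈ Z) : L.card ≤ cnt p pat (XA_P n p q Z) := by
  classical
  have hsub : L ⊆ (((pat.filter fun e => decide ((∀ k ∈ e.2, k < p ∨ k ∈ XA_P n p q Z) ∧
      ∃ k ∈ e.2, k ∈ XA_P n p q Z))).map (mkE le io E s n (β ++ List.range' n q))).toFinset := by
    intro e he
    obtain ⟨h1, h2, h3⟩ := hL e he
    have h4 := XA_new hE hZ h1 h3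
    obtain ⟨pe, hpe, rfl⟩ := List.mem_map.1 h4
    rw [mkE_tuple] at h2 h3
    refine List.mem_toFinset.2 (List.mem_map.2 ⟨pe, List.mem_filter.2 ⟨hpe, ?_⟩, rfl⟩)
    have hlt := h.code.lt pe hpe
    refine decide_eq_true ⟨?_, ?_⟩
    · intro k hk
      rcases Nat.lt_or_ge k p with h5 | h5
      · exact Or.inl h5
      · right
        have h6 := hlt k hk
        have h7 := h2 ((β ++ List.range' n q).getD k 0) (inst_mem.2 ⟨k, hk, rfl⟩)
        rw [XA_getD_ge h.len h5 h6] at h7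
        rcases h7 with h8 | h8
        · omega
        · exact XA_mem.2 ⟨⟨h5, h6⟩, h8⟩
    · obtain ⟨v, hv, hvZ⟩ := h3
      obtain ⟨k, hk, rfl⟩ := inst_mem.1 hv
      have h6 := hlt k hk
      refine ⟨k, hk, ?_⟩
      rcases Nat.lt_or_ge k p with h5 | h5
      · rw [XA_getD_lt h.len h5] at hvZ
        have h7 := h.lt _ (XA_getD_mem h.len h5)
        have h8 := hZ _ hvZ
        omega
      · rw [XA_getD_ge h.len h5 h6] at hvZ
        exact XA_mem.2 ⟨⟨h5, h6⟩, hvZ⟩
  refine (Finset.card_le_card hsub).trans ((List.toFinset_card_le _).trans ?_)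
  rw [List.length_map]
  exact le_rfl

/-- copy the proof of `batch_few` (fdz_BatB.lean) -/
theorem pre_few (hE : ∀ e ∈ E, ∀ v ∈ e.2, v < n) (h : Pre s n p q pat β) (Z : Finset ℕ)
    (hZ : ∀ v ∈ Z, n ≤ v) (L : Finset Edge)
    (hL : ∀ e ∈ L, e ∈ E ++ newEs le io E s n q pat β ∧ (∀ v ∈ e.2, v < n ∨ v ∈ Z) ∧ ∃ v ∈ e.2, v ∈ Z) :
    L.card ≤ Z.card :=
  (XA_count hE h Z hZ L hL).trans ((XA_cnt_le h.code Z).1.trans (XA_card Z))

/-- copy the proof of `batch_full` (fdz_BatB.lean) -/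
theorem pre_full (hE : ∀ e ∈ E, ∀ v ∈ e.2, v < n) (h : Pre s n p q pat β) (Z : Finset ℕ)
    (hZ : ∀ v ∈ Z, n ≤ v ∧ v < n + q) (hne : Z.Nonempty) (L : Finset Edge)
    (hL : ∀ e ∈ L, e ∈ E ++ newEs le io E s n q pat β ∧ (∀ v ∈ e.2, v < n ∨ v ∈ Z) ∧ ∃ v ∈ e.2, v ∈ Z)
    (hc : Z.card ≤ L.card) :
    (∀ v, n ≤ v → v < n + q → v ∈ Z) ∧ ∀ e ∈ newEs le io E s n q pat β, e ∈ L := by
  classical
  have h1 := XA_count hE h Z (fun v hv => (hZ v hv).1) L hL
  have h2 := XA_cnt_le (n := n) h.code Z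
  have h3 := XA_card (n := n) (p := p) (q := q) Z
  have h4 : (XA_P n p q Z).Nonempty := by
    obtain ⟨v, hv⟩ := hne
    have := hZ v hv
    refine ⟨p + (v - n), XA_mem.2 ⟨by omega, ?_⟩⟩
    have h5 : n + (p + (v - n) - p) = v := by omega
    rw [h5]
    exact hv
  have h5 := h2.2 (by omega) h4
  have h6 : (XA_P n p q Z).card = q := by rw [h5, Nat.card_Ico]; omega
  constructor
  · intro v hv1 hv2
    have h7 : p + (v - n) ∈ XA_P n p q Z := by
      rw [h5, Finset.mem_Ico]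
      omega
    have h8 := (XA_mem.1 h7).2
    have h9 : n + (p + (v - n) - p) = v := by omega
    rwa [h9] at h8
  · have hsub : L ⊆ (newEs le io E s n q pat β).toFinset := by
      intro e he
      obtain ⟨ha, _, hb⟩ := hL e he
      exact List.mem_toFinset.2 (XA_new hE (fun v hv => (hZ v hv).1) ha hb)
    have hcard : (newEs le io E s n q pat β).toFinset.card ≤ q := by
      refine (List.toFinset_card_le _).trans ?_
      simp [newEs, h.code.len]
    have heq := Finset.eq_of_subset_of_card_le hsub (by omega)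
    intro e he
    rw [heq]
    exact List.mem_toFinset.2 he

theorem pre_strong (hE : ∀ e ∈ E, ∀ v ∈ e.2, v < n) (h : Pre s n p q pat β) (V : ℕ → Prop) (k : ℕ) :
    Strong (lab io (es (E ++ newEs le io E s n q pat β)) V) (Set.Iio n) k := by
  intro Z _ hZ L hL
  refine pre_few (le := le) (io := io) hE h Z (fun v hv => ?_) L fun e he => ?_
  · have := hZ v hv
    simpa using this
  · obtain ⟨⟨ℓ, h1⟩, h2, h3⟩ := hL e he
    exact ⟨h1.1, fun v hv => by simpa using h2 v hv, h3⟩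

/-- an edge all of whose vertices are old is old -/
private theorem XA_old (h : Pre s n p q pat β) {e : Edge}
    (he : e ∈ E ++ newEs le io E s n q pat β) (hv : ∀ v ∈ e.2, v < n) : e ∈ E := by
  rcases List.mem_append.1 he with h1 | h1
  · exact h1
  · exfalso
    obtain ⟨_, ⟨v, hv1, hv2⟩, _⟩ := pre_sub h h1
    have := hv v hv1
    omega

/-- labels of an old edge -/
theorem pre_lab_old (hE : ∀ e ∈ E, ∀ v ∈ e.2, v < n) (h : Pre s n p q pat β) {V : ℕ → Prop} {ℓ : Lb} {e : Edge}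
    (he : ∀ v ∈ e.2, v < n) :
    lab io (es (E ++ newEs le io E s n q pat β)) V ℓ e ↔ lab io (es E) V ℓ e := by
  constructor
  · rintro ⟨hm, h4 | ⟨h4, r, h5, h6⟩ | ⟨j, r, x, y, c, h4, h5, h6, h7⟩⟩
    · exact ⟨XA_old h hm he, Or.inl h4⟩
    · exact ⟨XA_old h hm he, Or.inr (Or.inl ⟨h4, r, h5, h6⟩)⟩
    · refine ⟨XA_old h hm he, Or.inr (Or.inr ⟨j, r, x, y, c, h4, h5, ?_, h7⟩)⟩
      refine XA_old h h6 ?_
      intro v hv
      apply he
      rw [h5]
      simp only [List.mem_cons, List.not_mem_nil, or_false] at hv ⊢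
      tauto
  · rintro ⟨hm, h4 | ⟨h4, r, h5, h6⟩ | ⟨j, r, x, y, c, h4, h5, h6, h7⟩⟩
    · exact ⟨List.mem_append_left _ hm, Or.inl h4⟩
    · exact ⟨List.mem_append_left _ hm, Or.inr (Or.inl ⟨h4, r, h5, h6⟩)⟩
    · exact ⟨List.mem_append_left _ hm,
        Or.inr (Or.inr ⟨j, r, x, y, c, h4, h5, List.mem_append_left _ h6, h7⟩)⟩

/-- a realization on old vertices is old -/
theorem pre_real_old (hE : ∀ e ∈ E, ∀ v ∈ e.2, v < n) (h : Pre s n p q pat β) {V : ℕ → Prop} {p' q' : ℕ}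
    {pat' : List Edge} {β' ν : List ℕ} (hc : Code p' q' pat') (hβ : β'.length = p') (hν : ν.length = q')
    (hr : Real (lab io (es (E ++ newEs le io E s n q pat β)) V) pat' β' ν)
    (hb : ∀ b ∈ β', b < n) (hv : ∀ v ∈ ν, v < n) : Real (lab io (es E) V) pat' β' ν := by
  obtain ⟨hnd, L, hLnd, hF⟩ := hr
  refine ⟨hnd, L, hLnd, ?_⟩
  have hall : ∀ v ∈ β' ++ ν, v < n := by
    intro v hv'
    rcases List.mem_append.1 hv' with h4 | h4
    · exact hb v h4
    · exact hv v h4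
  have hinst : ∀ pe ∈ pat', ∀ v ∈ inst (β' ++ ν) pe.2, v < n := by
    intro pe hpe v hv'
    unfold inst at hv'
    rw [List.mem_map] at hv'
    obtain ⟨k, hk, rfl⟩ := hv'
    have hk1 := hc.lt pe hpe k hk
    have hk2 : k < (β' ++ ν).length := by
      rw [List.length_append, hβ, hν]
      exact hk1
    rw [List.getD_eq_getElem _ _ hk2]
    exact hall _ (List.getElem_mem hk2)
  have hgen : ∀ (l : List Edge) (es' : List Edge), (∀ pe ∈ l, pe ∈ pat') →
      List.Forall₂ (fun pe e => lab io (es (E ++ newEs le io E s n q pat β)) V pe.1 e ∧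
        e.2 = inst (β' ++ ν) pe.2) l es' →
      List.Forall₂ (fun pe e => lab io (es E) V pe.1 e ∧ e.2 = inst (β' ++ ν) pe.2) l es' := by
    intro l es' hl' hF'
    induction hF' with
    | nil => exact List.Forall₂.nil
    | cons hab _ ih =>
      refine List.Forall₂.cons ⟨(pre_lab_old hE h ?_).1 hab.1, hab.2⟩ (ih fun pe hpe => ?_)
      · rw [hab.2]
        exact hinst _ (hl' _ (by simp))
      · exact hl' pe (by simp [hpe])
  exact hgen pat' L (fun _ h => h) hF

end FdZ
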