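import Pool.Agent.Lib.MP_fd2900_lc.Z.X0

/-! instantiation, realizations in visible structures -/

namespace FdZ

private theorem XB_getD {xs : List ℕ} {k : ℕ} (h : k < xs.length) : xs.getD k 0 = xs[k] := by
  rw [List.getD_eq_getElem?_getD, List.getElem?_eq_getElem h, Option.getD_some]

private theorem XB_inj {xs : List ℕ} (hx : xs.Nodup) {a b : ℕ} (ha : a < xs.length) (hb : b < xs.length)
    (h : xs.getD a 0 = xs.getD b 0) : a = b := by
  rw [XB_getD ha, XB_getD hb] at h
  exact (List.Nodup.getElem_inj_iff hx).1 h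

theorem inst_inj {xs a b : List ℕ} (hx : xs.Nodup) (ha : ∀ k ∈ a, k < xs.length) (hb : ∀ k ∈ b, k < xs.length)
    (h : inst xs a = inst xs b) : a = b := by
  induction a generalizing b with
  | nil =>
    cases b with
    | nil => rfl
    | cons y b => simp [inst] at h
  | cons x a ih =>
    cases b with
    | nil => simp [inst] at h
    | cons y b =>
      simp only [inst, List.map_cons, List.cons.injEq] at h
      obtain ⟨h1, h2⟩ := h
      have hxy := XB_inj hx (ha x List.mem_cons_self) (hb y List.mem_cons_self) h1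
      have := ih (fun k hk => ha k (List.mem_cons_of_mem _ hk))
        (fun k hk => hb k (List.mem_cons_of_mem _ hk)) h2
      rw [hxy, this]

private theorem XB_forall {VE : Set Edge} {xs : List ℕ} {pat es : List Edge}
    (h : List.Forall₂ (fun pe e => vl VE pe.1 e ∧ e.2 = inst xs pe.2) pat es) :
    es = pat.map (fun pe => (pe.1, inst xs pe.2)) ∧ ∀ pe ∈ pat, (pe.1, inst xs pe.2) ∈ VE := by
  induction h with
  | nil => exact ⟨rfl, fun pe hpe => absurd hpe List.not_mem_nil⟩
  | @cons pe e pat es h1 _ ih =>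
    obtain ⟨⟨h2, h3⟩, h4⟩ := h1
    have h5 : e = (pe.1, inst xs pe.2) := Prod.ext h3 h4
    constructor
    · rw [List.map_cons, ← ih.1, h5]
    · intro pe' hpe'
      rcases List.mem_cons.1 hpe' with rfl | h6
      · rw [← h5]; exact h2
      · exact ih.2 pe' h6

/-- realizations for the labelling by kinds: no choice of edges -/
theorem real_vl {VE : Set Edge} {p q : ℕ} {pat : List Edge} {β ν : List ℕ} (hc : Code p q pat)
    (hβ : β.length = p) (hν : ν.length = q) :
    Real (vl VE) pat β ν ↔ (β ++ ν).Nodup ∧ pat.Nodup ∧ ∀ pe ∈ pat, (pe.1, inst (β ++ ν) pe.2) ∈ VE := by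
  constructor
  · rintro ⟨h1, es, h2, h3⟩
    obtain ⟨h4, h5⟩ := XB_forall h3
    rw [h4] at h2
    exact ⟨h1, h2.of_map _, h5⟩
  · rintro ⟨h1, h2, h3⟩
    refine ⟨h1, pat.map (fun pe => (pe.1, inst (β ++ ν) pe.2)), ?_, ?_⟩
    · refine List.Nodup.map_on ?_ h2
      intro x hx y hy hxy
      have h4 := congrArg Prod.fst hxy
      have h5 := congrArg Prod.snd hxy
      have hl : (β ++ ν).length = p + q := by rw [List.length_append, hβ, hν]
      have h6 : x.2 = y.2 := inst_inj h1 (fun k hk => by rw [hl]; exact hc.lt x hx k hk)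
        (fun k hk => by rw [hl]; exact hc.lt y hy k hk) h5
      exact Prod.ext h4 h6
    · rw [List.forall₂_map_right_iff, List.forall₂_same]
      intro pe hpe
      exact ⟨⟨h3 pe hpe, rfl⟩, rfl⟩

/-- instantiation and maps -/
theorem inst_map (f : ℕ → ℕ) {xs idx : List ℕ} (h : ∀ k ∈ idx, k < xs.length) :
    inst (xs.map f) idx = (inst xs idx).map f := by
  unfold inst
  rw [List.map_map]
  apply List.map_congr_left
  intro k hk
  have h1 := h k hk
  have h2 : k < (xs.map f).length := by rw [List.length_map]; exact h1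
  rw [XB_getD h2, Function.comp_apply, XB_getD h1, List.getElem_map]

theorem inst_nodup {xs idx : List ℕ} (hx : xs.Nodup) (hi : idx.Nodup) (h : ∀ k ∈ idx, k < xs.length) :
    (inst xs idx).Nodup := by
  unfold inst
  refine List.Nodup.map_on ?_ hi
  intro a ha b hb hab
  exact XB_inj hx (h a ha) (h b hb) hab

/-- `inst` on the base part does not see the new points -/
theorem getD_base {β ν : List ℕ} {k : ℕ} (h : k < β.length) : (β ++ ν).getD k 0 = β.getD k 0 := by
  have h2 : k < (β ++ ν).length := by rw [List.length_append]; omega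
  rw [XB_getD h2, XB_getD h, List.getElem_append_left h]

theorem getD_new {β ν : List ℕ} {k : ℕ} (h : β.length ≤ k) : (β ++ ν).getD k 0 = ν.getD (k - β.length) 0 := by
  rw [List.getD_eq_getElem?_getD, List.getD_eq_getElem?_getD, List.getElem?_append_right h]

theorem getD_mem {xs : List ℕ} {k : ℕ} (h : k < xs.length) : xs.getD k 0 ∈ xs := by
  rw [XB_getD h]
  exact List.getElem_mem h

theorem getD_inj {xs : List ℕ} (hx : xs.Nodup) {a b : ℕ} (ha : a < xs.length) (hb : b < xs.length)
    (h : xs.getD a 0 = xs.getD b 0) : a = b :=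
  XB_inj hx ha hb h

end FdZ
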