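import Pool.Agent.Lib.MP_fd2900_lc.Z.XB

/-! first facts on the situation -/

namespace FdZ

variable {G : Guide} {m m' t₀ : ℕ} {i₀ : ℕ → ℕ} {Y Y' W : Finset ℕ} {h : ℕ → ℕ} {p q : ℕ}
  {pat : List Edge} {β ω : List ℕ} {r s : ℕ}

/-- the entries of the code are visible edges over `Y + W` -/
theorem sit_ent (S : Sit G m m' t₀ i₀ Y Y' W h p q pat β ω r s) :
    (β ++ ω).Nodup ∧ pat.Nodup ∧ ∀ pe ∈ pat, (pe.1, inst (β ++ ω) pe.2) ∈ visE G m m' :=
  (real_vl S.code S.bl S.ol).1 S.rl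

private theorem XC_len (xs idx : List ℕ) : (inst xs idx).length = idx.length := by
  unfold inst
  simp

/-- shapes and labels of the entries -/
theorem sit_shape (S : Sit G m m' t₀ i₀ Y Y' W h p q pat β ω r s) {pe : Edge} (hpe : pe ∈ pat) :
    (∃ j, j < m ∧ pe.1 = (0, [j]) ∧ pe.2.length = 5) ∨
    (∃ j i, j < m ∧ i < m' ∧ pe.1 = (1, [j, i]) ∧ pe.2.length = 3) ∨
    (∃ j, j < m ∧ pe.1 = (2, [j]) ∧ pe.2.length = 4) ∨ (pe.1 = (3, []) ∧ pe.2.length = 2) ∨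
    ∃ j, j < m ∧ pe.1 = (4, [j]) ∧ pe.2.length = 3 := by
  have h1 := (sit_ent S).2.2 pe hpe
  have hl : (inst (β ++ ω) pe.2).length = pe.2.length := XC_len _ _
  rcases h1 with ⟨⟨j, hj, e1⟩, h2⟩ | ⟨⟨j, i, hj, hi, e1⟩, h2⟩ | ⟨⟨j, hj, e1⟩, h2⟩ | ⟨e1, n, hn, h2⟩ |
    ⟨j, n, x, y, c, hj, e1, hn, h2, -⟩
  · left
    refine ⟨j, hj, e1, ?_⟩
    have e1' : pe.1 = (0, [j]) := e1
    rcases (fe_shape h2).2 with ⟨j', e2, e3⟩ | ⟨j', i', e2, e3⟩ | ⟨j', e2, e3⟩ | ⟨t, e2, e3⟩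
    · have e3' : (inst (β ++ ω) pe.2).length = 5 := e3
      omega
    · have e2' : pe.1 = (1, [j', i']) := e2
      rw [e1'] at e2'; simp at e2'
    · have e2' : pe.1 = (2, [j']) := e2
      rw [e1'] at e2'; simp at e2'
    · have e2' : pe.1 = (3, [t]) := e2
      rw [e1'] at e2'; simp at e2'
  · right; left
    refine ⟨j, i, hj, hi, e1, ?_⟩
    have e1' : pe.1 = (1, [j, i]) := e1
    rcases (fe_shape h2).2 with ⟨j', e2, e3⟩ | ⟨j', i', e2, e3⟩ | ⟨j', e2, e3⟩ | ⟨t, e2, e3⟩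
    · have e2' : pe.1 = (0, [j']) := e2
      rw [e1'] at e2'; simp at e2'
    · have e3' : (inst (β ++ ω) pe.2).length = 3 := e3
      omega
    · have e2' : pe.1 = (2, [j']) := e2
      rw [e1'] at e2'; simp at e2'
    · have e2' : pe.1 = (3, [t]) := e2
      rw [e1'] at e2'; simp at e2'
  · right; right; left
    refine ⟨j, hj, e1, ?_⟩
    have e1' : pe.1 = (2, [j]) := e1
    rcases (fe_shape h2).2 with ⟨j', e2, e3⟩ | ⟨j', i', e2, e3⟩ | ⟨j', e2, e3⟩ | ⟨t, e2, e3⟩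
    · have e2' : pe.1 = (0, [j']) := e2
      rw [e1'] at e2'; simp at e2'
    · have e2' : pe.1 = (1, [j', i']) := e2
      rw [e1'] at e2'; simp at e2'
    · have e3' : (inst (β ++ ω) pe.2).length = 4 := e3
      omega
    · have e2' : pe.1 = (3, [t]) := e2
      rw [e1'] at e2'; simp at e2'
  · right; right; right; left
    refine ⟨e1, ?_⟩
    rcases (fe_shape h2).2 with ⟨j', e2, e3⟩ | ⟨j', i', e2, e3⟩ | ⟨j', e2, e3⟩ | ⟨t, e2, e3⟩
    · simp at e2
    · simp at e2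
    · simp at e2
    · have e3' : (inst (β ++ ω) pe.2).length = 2 := e3
      omega
  · right; right; right; right
    have e2 : pe.1 = (4, [j]) := congrArg Prod.fst e1
    have e3 : inst (β ++ ω) pe.2 = [x, y, c] := congrArg Prod.snd e1
    refine ⟨j, hj, e2, ?_⟩
    rw [← hl, e3]
    rfl

theorem sit_visL (S : Sit G m m' t₀ i₀ Y Y' W h p q pat β ω r s) {pe : Edge} (hpe : pe ∈ pat) :
    VisL m m' pe.1 := by
  rcases sit_shape S hpe with ⟨j, hj, e, -⟩ | ⟨j, i, hj, hi, e, -⟩ | ⟨j, hj, e, -⟩ | ⟨e, -⟩ | ⟨j, hj, e, -⟩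
  · exact Or.inl ⟨j, hj, Or.inl e⟩
  · exact Or.inr (Or.inl ⟨j, i, hj, hi, e⟩)
  · exact Or.inl ⟨j, hj, Or.inr (Or.inl e)⟩
  · exact Or.inr (Or.inr e)
  · exact Or.inl ⟨j, hj, Or.inr (Or.inr e)⟩

/-- the base over `Y'` -/
theorem sit_base (S : Sit G m m' t₀ i₀ Y Y' W h p q pat β ω r s) :
    (β.map h).length = p ∧ (β.map h).Nodup ∧ (∀ v ∈ β.map h, v ∈ Y') ∧ (∀ v ∈ β.map h, v < nn G r) ∧
      nn G r ≤ nn G s ∧ Finset.range (nn G t₀) ⊆ Y' := by
  have hY' : ∀ v ∈ β.map h, v ∈ Y' := by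
    intro v hv
    obtain ⟨u, hu, rfl⟩ := List.mem_map.1 hv
    exact S.iso.bij.mapsTo (S.bY u hu)
  refine ⟨by rw [List.length_map]; exact S.bl, ?_, hY', fun v hv => S.yr v (hY' v hv), nn_mono S.late.1, ?_⟩
  · refine List.Nodup.map_on ?_ (List.nodup_append.1 (sit_ent S).1).1
    intro x hx y hy hxy
    exact S.iso.bij.injOn (S.bY x hx) (S.bY y hy) hxy
  · intro v hv
    have h1 := S.iso.sub hv
    have h2 := S.iso.fix v hv
    rw [← h2]
    exact S.iso.bij.mapsTo h1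

/-- the old vertices -/
theorem sit_old (S : Sit G m m' t₀ i₀ Y Y' W h p q pat β ω r s) : ∀ e ∈ DD G s, ∀ v ∈ e.2, v < nn G s := by
  intro e he
  exact (shape s e (mem_DD.1 he).1).1

/-- `Pre` holds -/
theorem sit_pre (S : Sit G m m' t₀ i₀ Y Y' W h p q pat β ω r s) : Pre s (nn G s) p q pat (β.map h) := by
  obtain ⟨h1, h2, -, h4, h5, -⟩ := sit_base S
  refine ⟨S.code, h1, h2, fun v hv => lt_of_lt_of_le (h4 v hv) h5, ?_⟩
  intro pe hpe
  rcases sit_shape S hpe with ⟨j, hj, e, e'⟩ | ⟨j, i, hj, hi, e, e'⟩ | ⟨j, hj, e, e'⟩ | ⟨e, e'⟩ | ⟨j, hj, e, e'⟩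
  · exact Or.inl ⟨j, e, e'⟩
  · refine Or.inr (Or.inl ⟨j, i, e, ?_, e'⟩)
    have := S.mr
    have := S.late.1
    omega
  · exact Or.inr (Or.inr (Or.inl ⟨j, e, e'⟩))
  · exact Or.inr (Or.inr (Or.inr (Or.inl ⟨e, e'⟩)))
  · exact Or.inr (Or.inr (Or.inr (Or.inr ⟨j, e, e'⟩)))

/-- the map `th` -/
theorem th_old (S : Sit G m m' t₀ i₀ Y Y' W h p q pat β ω r s) {v : ℕ} (hv : v ∈ Y') :
    th h Y (nn G s) ω v ∈ Y ∧ h (th h Y (nn G s) ω v) = v := by
  have h1 : v < nn G s := lt_of_lt_of_le (S.yr v hv) (nn_mono S.late.1)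
  have h2 : ∃ a ∈ (Y : Set ℕ), h a = v := S.iso.bij.surjOn (Finset.mem_coe.2 hv)
  unfold th
  rw [if_pos h1]
  exact ⟨Finset.mem_coe.1 (Function.invFunOn_mem h2), Function.invFunOn_eq h2⟩

theorem th_h (S : Sit G m m' t₀ i₀ Y Y' W h p q pat β ω r s) {v : ℕ} (hv : v ∈ Y) :
    th h Y (nn G s) ω (h v) = v := by
  obtain ⟨h1, h2⟩ := th_old S (S.iso.bij.mapsTo hv)
  exact S.iso.bij.injOn h1 hv h2

theorem th_new (S : Sit G m m' t₀ i₀ Y Y' W h p q pat β ω r s) {k : ℕ} (hk : k < q) :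
    th h Y (nn G s) ω (nn G s + k) = ω.getD k 0 ∧ th h Y (nn G s) ω (nn G s + k) ∈ W := by
  have h1 : th h Y (nn G s) ω (nn G s + k) = ω.getD k 0 := by
    unfold th
    rw [if_neg (by omega), Nat.add_sub_cancel_left]
  refine ⟨h1, ?_⟩
  rw [h1, ← S.oW]
  exact getD_mem (by rw [S.ol]; exact hk)

theorem th_inj (S : Sit G m m' t₀ i₀ Y Y' W h p q pat β ω r s) {v w : ℕ} (hv : Ins Y' (nn G s) q v)
    (hw : Ins Y' (nn G s) q w) (he : th h Y (nn G s) ω v = th h Y (nn G s) ω w) : v = w := by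
  have hnd := (List.nodup_append.1 (sit_ent S).1).2.1
  rcases hv with hv | ⟨hv1, hv2⟩ <;> rcases hw with hw | ⟨hw1, hw2⟩
  · rw [← (th_old S hv).2, ← (th_old S hw).2, he]
  · exfalso
    obtain ⟨l, rfl⟩ := Nat.exists_eq_add_of_le hw1
    have h1 := (th_new S (k := l) (by omega)).2
    rw [← he] at h1
    exact S.wy _ h1 (th_old S hv).1
  · exfalso
    obtain ⟨l, rfl⟩ := Nat.exists_eq_add_of_le hv1
    have h1 := (th_new S (k := l) (by omega)).2
    rw [he] at h1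
    exact S.wy _ h1 (th_old S hw).1
  · obtain ⟨k, rfl⟩ := Nat.exists_eq_add_of_le hv1
    obtain ⟨l, rfl⟩ := Nat.exists_eq_add_of_le hw1
    rw [(th_new S (k := k) (by omega)).1, (th_new S (k := l) (by omega)).1] at he
    have := getD_inj hnd (by rw [S.ol]; omega) (by rw [S.ol]; omega) he
    rw [this]

/-- points of `XS`: old iff the index is a base index -/
private theorem XC_xs (S : Sit G m m' t₀ i₀ Y Y' W h p q pat β ω r s) {k : ℕ} (hk : k < p + q) :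
    (k < p → (XS G s q (β.map h)).getD k 0 = h (β.getD k 0) ∧ (XS G s q (β.map h)).getD k 0 ∈ β.map h) ∧
    (p ≤ k → (XS G s q (β.map h)).getD k 0 = nn G s + (k - p)) ∧ (XS G s q (β.map h)).Nodup ∧
    (XS G s q (β.map h)).length = p + q := by
  obtain ⟨h1, h2, h3, h4, h5, -⟩ := sit_base S
  have hbl := S.bl
  unfold XS
  refine ⟨?_, ?_, ?_, ?_⟩
  · intro hkp
    have e1 : (β.map h ++ List.range' (nn G s) q).getD k 0 = (β.map h).getD k 0 :=
      getD_base (by rw [h1]; exact hkp)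
    have e2 : (β.map h).getD k 0 = h (β.getD k 0) := by
      rw [List.getD_eq_getElem _ _ (by rw [h1]; exact hkp), List.getD_eq_getElem _ _ (by omega),
        List.getElem_map]
    rw [e1]
    exact ⟨e2, getD_mem (by rw [h1]; exact hkp)⟩
  · intro hkp
    have e1 : (β.map h ++ List.range' (nn G s) q).getD k 0 =
        (List.range' (nn G s) q).getD (k - (β.map h).length) 0 := getD_new (by rw [h1]; exact hkp)
    rw [e1, h1, List.getD_eq_getElem _ _ (by rw [List.length_range']; omega), List.getElem_range']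
    omega
  · refine List.nodup_append.2 ⟨h2, List.nodup_range', ?_⟩
    intro a ha b hb hab
    have h6 := h4 a ha
    have h7 := List.mem_range'_1.1 hb
    omega
  · rw [List.length_append, h1, List.length_range']

theorem th_inst (S : Sit G m m' t₀ i₀ Y Y' W h p q pat β ω r s) {idx : List ℕ} (hi : ∀ k ∈ idx, k < p + q) :
    (inst (XS G s q (β.map h)) idx).map (th h Y (nn G s) ω) = inst (β ++ ω) idx := by
  have hbl := S.bl
  unfold inst
  rw [List.map_map]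
  refine List.map_congr_left fun k hk => ?_
  have hkk := hi k hk
  show th h Y (nn G s) ω ((XS G s q (β.map h)).getD k 0) = (β ++ ω).getD k 0
  rcases lt_or_ge k p with hkp | hkp
  · rw [((XC_xs S hkk).1 hkp).1, getD_base (by omega)]
    exact th_h S (S.bY _ (getD_mem (by omega)))
  · rw [(XC_xs S hkk).2.1 hkp, getD_new (by omega), hbl]
    exact (th_new S (by omega)).1

/-- points of `XS`: old iff the index is a base index -/
theorem xs_getD (S : Sit G m m' t₀ i₀ Y Y' W h p q pat β ω r s) {k : ℕ} (hk : k < p + q) :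
    (k < p → (XS G s q (β.map h)).getD k 0 = h (β.getD k 0) ∧ (XS G s q (β.map h)).getD k 0 ∈ β.map h) ∧
    (p ≤ k → (XS G s q (β.map h)).getD k 0 = nn G s + (k - p)) ∧ (XS G s q (β.map h)).Nodup ∧
    (XS G s q (β.map h)).length = p + q := XC_xs S hk

end FdZ
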