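import Pool.Agent.Lib.MP_fd2900_lc.Z.XC

/-! pairs: comparison -/

namespace FdZ

variable {G : Guide} {m m' t₀ : ℕ} {i₀ : ℕ → ℕ} {Y Y' W : Finset ℕ} {h : ℕ → ℕ} {p q : ℕ}
  {pat : List Edge} {β ω : List ℕ} {r s : ℕ}

private theorem XD1_vis {x y : ℕ} :
    ((3, []), [x, y]) ∈ visE G m m' ↔ ∃ n, G.TP n ∧ ((3, [n]), [x, y]) ∈ FE G := by
  constructor
  · rintro (⟨⟨j, -, h1⟩, -⟩ | ⟨⟨j, i, -, -, h1⟩, -⟩ | ⟨⟨j, -, h1⟩, -⟩ | ⟨-, h1⟩ | ⟨j, n, x', y', c, -, h1, -⟩)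
    · simp at h1
    · simp at h1
    · simp at h1
    · exact h1
    · simp at h1
  · intro h1
    exact Or.inr (Or.inr (Or.inr (Or.inl ⟨rfl, h1⟩)))

private theorem XD1_ge (S : Sit G m m' t₀ i₀ Y Y' W h p q pat β ω r s) {x : ℕ} (hx : x ∈ Y)
    (h1 : nn G t₀ ≤ x) : nn G t₀ ≤ h x := by
  by_contra h2
  push Not at h2
  have h3 : h x ∈ Finset.range (nn G t₀) := Finset.mem_range.2 h2
  have h4 : h x = x := S.iso.bij.injOn (S.iso.sub h3) hx (S.iso.fix _ h3)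
  omega

private theorem XD1_cmp (S : Sit G m m' t₀ i₀ Y Y' W h p q pat β ω r s) {x y : ℕ} (hx : x ∈ Y) (hy : y ∈ Y)
    {a b : ℕ} (ha : G.TP a) (hF : ((3, [a]), [x, y]) ∈ FE G) (hb : G.TP b)
    (hF' : ((3, [b]), [h x, h y]) ∈ FE G) :
    ∀ j, j < m → G.io j a = G.io j b ∨ (m' ≤ G.io j a ∧ m' ≤ G.io j b) := by
  intro j hj
  by_cases h1 : nn G t₀ ≤ x ∨ nn G t₀ ≤ y
  · have h2 : nn G t₀ ≤ h x ∨ nn G t₀ ≤ h y :=
      h1.imp (fun h3 => XD1_ge S hx h3) (fun h3 => XD1_ge S hy h3)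
    have c1 := cal_pair S.cal ha hF h1 hj
    have c2 := cal_pair S.cal hb hF' h2 hj
    by_cases hS : G.S j
    · left
      rw [(c1.1 hS).1, (c2.1 hS).1]
    · exact Or.inr ⟨c1.2 hS, c2.2 hS⟩
  · push Not at h1
    left
    rw [S.iso.fix x (Finset.mem_range.2 h1.1), S.iso.fix y (Finset.mem_range.2 h1.2)] at hF'
    rw [tp_uniq hF hF']

/-- a true pair over `Y` and its image: the same index below `m'`, or both are at least `m'` -/
theorem pair_cmp (S : Sit G m m' t₀ i₀ Y Y' W h p q pat β ω r s) {x y : ℕ} (hx : x ∈ Y) (hy : y ∈ Y) {a : ℕ}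
    (ha : G.TP a) (hF : ((3, [a]), [x, y]) ∈ FE G) :
    ∃ b, G.TP b ∧ ((3, [b]), [h x, h y]) ∈ FE G ∧ b < r ∧
      ∀ j, j < m → G.io j a = G.io j b ∨ (m' ≤ G.io j a ∧ m' ≤ G.io j b) := by
  have h1 : ((3, []), [x, y]) ∈ visE G m m' := XD1_vis.2 ⟨a, ha, hF⟩
  have h2 := (S.iso.iff ((3, []), [x, y]) (by
    intro v hv
    simp only [List.mem_cons, List.not_mem_nil, or_false] at hv
    rcases hv with rfl | rfl
    · exact hx
    · exact hy)).1 h1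
  obtain ⟨b, hb, hF'⟩ := XD1_vis.1 (show ((3, []), [h x, h y]) ∈ visE G m m' from h2)
  exact ⟨b, hb, hF', fnode_lt hF' (S.yr _ (S.iso.bij.mapsTo hx)) (S.yr _ (S.iso.bij.mapsTo hy)),
    XD1_cmp S hx hy ha hF hb hF'⟩

/-- the converse direction -/
theorem pair_cmp' (S : Sit G m m' t₀ i₀ Y Y' W h p q pat β ω r s) {x y : ℕ} (hx : x ∈ Y) (hy : y ∈ Y) {b : ℕ}
    (hb : G.TP b) (hF : ((3, [b]), [h x, h y]) ∈ FE G) :
    ∃ a, G.TP a ∧ ((3, [a]), [x, y]) ∈ FE G ∧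
      ∀ j, j < m → G.io j a = G.io j b ∨ (m' ≤ G.io j a ∧ m' ≤ G.io j b) := by
  have h1 : ((3, []), [h x, h y]) ∈ visE G m m' := XD1_vis.2 ⟨b, hb, hF⟩
  have h2 := (S.iso.iff ((3, []), [x, y]) (by
    intro v hv
    simp only [List.mem_cons, List.not_mem_nil, or_false] at hv
    rcases hv with rfl | rfl
    · exact hx
    · exact hy)).2 h1
  obtain ⟨a, ha, hF'⟩ := XD1_vis.1 h2
  exact ⟨a, ha, hF', XD1_cmp S hx hy ha hF' hb hF⟩

/-- an `F` edge on old vertices of `V_r` seen at stage `s` is final and true, and conversely -/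
theorem f_old (S : Sit G m m' t₀ i₀ Y Y' W h p q pat β ω r s) {a x y : ℕ} (hx : x < nn G r) (hy : y < nn G r) :
    (((3, [a]), [x, y]) ∈ DD G s ∧ vw G.le s a) ↔ (((3, [a]), [x, y]) ∈ FE G ∧ G.TP a) := by
  constructor
  · rintro ⟨h1, h2⟩
    exact ⟨fe_of_ne (mem_DD.1 h1).1 (by simp), (G.tp_view s S.tps a (G.le_le _ _ h2)).2 h2⟩
  · rintro ⟨h1, h2⟩
    have h3 : a < r := fnode_lt h1 hx hy
    have h4 : r ≤ s := S.late.1
    refine ⟨(fe_at h1 (r := r) ?_ h4).2, (G.tp_view s S.tps a (by omega)).1 h2⟩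
    intro v hv
    simp only [List.mem_cons, List.not_mem_nil, or_false] at hv
    rcases hv with rfl | rfl
    · exact hx
    · exact hy

/-- `fnode` finds it -/
theorem fnode_old (S : Sit G m m' t₀ i₀ Y Y' W h p q pat β ω r s) {a x y : ℕ} (hx : x < nn G r) (hy : y < nn G r)
    (ha : G.TP a) (hF : ((3, [a]), [x, y]) ∈ FE G) : fnode G.le (DD G s) s x y = some a := by
  obtain ⟨h1, h2⟩ := (f_old S hx hy).2 ⟨hF, ha⟩
  unfold fnode
  cases hf : (DD G s).find? (fun e => decide (e.1.1 = 3) && G.le (e.1.2.getD 0 0) s && decide (e.2 = [x, y])) with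
  | none =>
    exfalso
    have h3 := List.find?_eq_none.1 hf _ h1
    have h2' : G.le a s = true := h2
    simp [h2'] at h3
  | some e =>
    have h3 := List.find?_some hf
    have h4 := List.mem_of_find?_eq_some hf
    simp only [Bool.and_eq_true, decide_eq_true_eq] at h3
    obtain ⟨⟨h5, -⟩, h6⟩ := h3
    have h7 := (mem_DD.1 h4).1
    obtain ⟨-, -, h8⟩ := shape s e h7
    rcases h8 with ⟨j, h8, _⟩ | ⟨j, i, h8, _⟩ | ⟨j, h8, _⟩ | ⟨t, _, h8, _⟩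
    · rw [h8] at h5; simp at h5
    · rw [h8] at h5; simp at h5
    · rw [h8] at h5; simp at h5
    · have h9 : e = ((3, [t]), [x, y]) := Prod.ext h8 h6
      rw [h9] at h7
      have h10 : t = a := funiq s t a x y h7 (mem_DD.1 h1).1
      rw [h9, h10]
      rfl

end FdZ
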