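import Pool.Agent.Lib.MP_fd2900_lc.Z.XD1

/-! entries with label C -/

namespace FdZ

variable {G : Guide} {m m' t₀ : ℕ} {i₀ : ℕ → ℕ} {Y Y' W : Finset ℕ} {h : ℕ → ℕ} {p q : ℕ}
  {pat : List Edge} {β ω : List ℕ} {r s : ℕ}

/-- the `F` edge of an entry with label `C_j` -/
private theorem XD2_ent (S : Sit G m m' t₀ i₀ Y Y' W h p q pat β ω r s) {j k₁ k₂ k₃ : ℕ}
    (hpe : ((4, [j]), [k₁, k₂, k₃]) ∈ pat) :
    j < m ∧ ∃ n, G.TP n ∧ ((3, [n]), [(β ++ ω).getD k₁ 0, (β ++ ω).getD k₂ 0]) ∈ FE G ∧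
      m' ≤ G.io j n := by
  have h1 := (sit_ent S).2.2 _ hpe
  have h2 : inst (β ++ ω) [k₁, k₂, k₃] =
      [(β ++ ω).getD k₁ 0, (β ++ ω).getD k₂ 0, (β ++ ω).getD k₃ 0] := rfl
  simp only [h2] at h1
  rcases h1 with ⟨⟨j', _, h1⟩, -⟩ | ⟨⟨j', i, _, _, h1⟩, -⟩ | ⟨⟨j', _, h1⟩, -⟩ |
    ⟨h1, -⟩ | ⟨j', n, x, y, c, hj, h1, hn, hF, hm, -⟩
  · simp at h1
  · simp at h1
  · simp at h1
  · simp at h1
  · simp only [Prod.mk.injEq, List.cons.injEq, and_true, true_and] at h1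
    obtain ⟨rfl, rfl, rfl, rfl⟩ := h1
    exact ⟨hj, n, hn, hF, hm⟩

/-- points of `Y + W` -/
private theorem XD2_pt (S : Sit G m m' t₀ i₀ Y Y' W h p q pat β ω r s) {k : ℕ} (hk : k < p + q) :
    (k < p → (β ++ ω).getD k 0 = β.getD k 0 ∧ β.getD k 0 ∈ Y) ∧
      (p ≤ k → (β ++ ω).getD k 0 ∈ W ∧ nn G t₀ ≤ (β ++ ω).getD k 0) := by
  constructor
  · intro h1
    have h2 : k < β.length := by rw [S.bl]; exact h1
    exact ⟨getD_base h2, S.bY _ (getD_mem h2)⟩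
  · intro h1
    have h2 : β.length ≤ k := by rw [S.bl]; exact h1
    have h3 : k - β.length < ω.length := by rw [S.bl, S.ol]; omega
    have h4 : (β ++ ω).getD k 0 ∈ W := by
      rw [getD_new h2]
      exact (S.oW _).1 (getD_mem h3)
    refine ⟨h4, ?_⟩
    by_contra h5
    exact S.wy _ h4 (S.iso.sub (Finset.mem_range.2 (not_le.1 h5)))

/-- `C_j` entry whose pair has a new point: its `F` entry is in the code, and `j` is not in `S`: the index at stage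
`s` is fresh -/
theorem c_new (S : Sit G m m' t₀ i₀ Y Y' W h p q pat β ω r s) {j k₁ k₂ k₃ : ℕ}
    (hpe : ((4, [j]), [k₁, k₂, k₃]) ∈ pat) (hk : p ≤ k₁ ∨ p ≤ k₂) :
    ((3, []), [k₁, k₂]) ∈ pat ∧ ¬ G.S j ∧ j < m ∧ m' ≤ G.io j s ∧ r ≤ G.io j s := by
  obtain ⟨hj, n, hn, hF, hm⟩ := XD2_ent S hpe
  have hk1 : k₁ < p + q := S.code.lt _ hpe k₁ (by simp)
  have hk2 : k₂ < p + q := S.code.lt _ hpe k₂ (by simp)
  have p1 := XD2_pt S hk1
  have p2 := XD2_pt S hk2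
  have hYW : ∀ k, k < p + q → (β ++ ω).getD k 0 ∈ Y ∨ (β ++ ω).getD k 0 ∈ W := by
    intro k hk
    have pk := XD2_pt S hk
    rcases Nat.lt_or_ge k p with h1 | h1
    · left
      rw [(pk.1 h1).1]
      exact (pk.1 h1).2
    · exact Or.inr (pk.2 h1).1
  have hvis : (((3, []), [(β ++ ω).getD k₁ 0, (β ++ ω).getD k₂ 0]) : Edge) ∈ visE G m m' :=
    Or.inr (Or.inr (Or.inr (Or.inl ⟨rfl, n, hn, hF⟩)))
  have hmeet : Meets Y W ((3, []), [(β ++ ω).getD k₁ 0, (β ++ ω).getD k₂ 0]) := by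
    constructor
    · intro v hv
      simp only [List.mem_cons, List.not_mem_nil, or_false] at hv
      rcases hv with rfl | rfl
      · exact hYW _ hk1
      · exact hYW _ hk2
    · rcases hk with hk | hk
      · exact ⟨_, by simp, (p1.2 hk).1⟩
      · exact ⟨_, by simp, (p2.2 hk).1⟩
  obtain ⟨pe, hpe', ⟨-, hl⟩, hi⟩ := S.all _ hvis hmeet
  have hnd : (β ++ ω).Nodup := (sit_ent S).1
  have hlen : (β ++ ω).length = p + q := by rw [List.length_append, S.bl, S.ol]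
  have he : pe.2 = [k₁, k₂] := by
    refine inst_inj hnd (fun k hk' => ?_) (fun k hk' => ?_) (hi.symm.trans rfl)
    · rw [hlen]
      exact S.code.lt _ hpe' k hk'
    · rw [hlen]
      simp only [List.mem_cons, List.not_mem_nil, or_false] at hk'
      rcases hk' with rfl | rfl
      · exact hk1
      · exact hk2
  have hpe2 : pe = ((3, []), [k₁, k₂]) := Prod.ext hl.symm he
  have ho : nn G t₀ ≤ (β ++ ω).getD k₁ 0 ∨ nn G t₀ ≤ (β ++ ω).getD k₂ 0 := by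
    rcases hk with hk | hk
    · exact Or.inl (p1.2 hk).2
    · exact Or.inr (p2.2 hk).2
  have hS : ¬ G.S j := by
    intro hS
    have h3 := (cal_pair S.cal hn hF ho hj).1 hS
    omega
  have hts : t₀ ≤ s := S.tr.trans S.late.1
  exact ⟨hpe2 ▸ hpe', hS, hj, (S.cal s hts S.tps j hj).2 hS, S.fresh j hj hS⟩

/-- `C_j` entry whose pair is in the base -/
theorem c_old (S : Sit G m m' t₀ i₀ Y Y' W h p q pat β ω r s) {j k₁ k₂ k₃ : ℕ}
    (hpe : ((4, [j]), [k₁, k₂, k₃]) ∈ pat) (h1 : k₁ < p) (h2 : k₂ < p) :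
    ∃ a, G.TP a ∧ a < r ∧ ((3, [a]), [(β.map h).getD k₁ 0, (β.map h).getD k₂ 0]) ∈ FE G ∧ j < m ∧
      m' ≤ G.io j a := by
  obtain ⟨hj, n, hn, hF, hm⟩ := XD2_ent S hpe
  have p1 := (XD2_pt S (k := k₁) (by omega)).1 h1
  have p2 := (XD2_pt S (k := k₂) (by omega)).1 h2
  rw [p1.1, p2.1] at hF
  obtain ⟨b, hb, hFb, hbr, hio⟩ := pair_cmp S p1.2 p2.2 hn hF
  have hm1 : (β.map h).getD k₁ 0 = h (β.getD k₁ 0) := by
    have h3 : k₁ < β.length := by rw [S.bl]; exact h1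
    simp [List.getD_eq_getElem?_getD, List.getElem?_eq_getElem h3]
  have hm2 : (β.map h).getD k₂ 0 = h (β.getD k₂ 0) := by
    have h3 : k₂ < β.length := by rw [S.bl]; exact h2
    simp [List.getD_eq_getElem?_getD, List.getElem?_eq_getElem h3]
  refine ⟨b, hb, hbr, ?_, hj, ?_⟩
  · rw [hm1, hm2]
    exact hFb
  · rcases hio j hj with h3 | h3
    · omega
    · exact h3.2

end FdZ
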