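import Pool.Agent.Lib.MP_fd2900_lc.Z.XD2

/-! the new edges -/

namespace FdZ

variable {G : Guide} {m m' t₀ : ℕ} {i₀ : ℕ → ℕ} {Y Y' W : Finset ℕ} {h : ℕ → ℕ} {p q : ℕ}
  {pat : List Edge} {β ω : List ℕ} {r s : ℕ}

/-- the edge made for an entry -/
theorem xm_cases (S : Sit G m m' t₀ i₀ Y Y' W h p q pat β ω r s) {pe : Edge} (hpe : pe ∈ pat) :
    (XM G s q (β.map h) pe).2 = inst (XS G s q (β.map h)) pe.2 ∧
    (((∃ j, j < m ∧ pe.1 = (0, [j])) ∧ (XM G s q (β.map h) pe).1 = pe.1) ∨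
    ((∃ j i, j < m ∧ i < m' ∧ pe.1 = (1, [j, i])) ∧ (XM G s q (β.map h) pe).1 = pe.1) ∨
    ((∃ j, j < m ∧ pe.1 = (2, [j])) ∧ (XM G s q (β.map h) pe).1 = pe.1) ∨
    (pe.1 = (3, []) ∧ (XM G s q (β.map h) pe).1 = (3, [s])) ∨
    ∃ j k₁ k₂ k₃, j < m ∧ pe = ((4, [j]), [k₁, k₂, k₃]) ∧
      (((p ≤ k₁ ∨ p ≤ k₂) ∧ (XM G s q (β.map h) pe).1 = (1, [j, G.io j s]) ∧ m' ≤ G.io j s ∧
          r ≤ G.io j s ∧ ¬ G.S j ∧ ((3, []), [k₁, k₂]) ∈ pat) ∨
        (k₁ < p ∧ k₂ < p ∧ ∃ a, G.TP a ∧ a < r ∧ ((3, [a]), [(β.map h).getD k₁ 0, (β.map h).getD k₂ 0]) ∈ FE G ∧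
          (XM G s q (β.map h) pe).1 = (1, [j, G.io j a]) ∧ m' ≤ G.io j a))) := by
  refine ⟨mkE_tuple _ _, ?_⟩
  rcases sit_shape S hpe with ⟨j, hj, h1, h2⟩ | ⟨j, i, hj, hi, h1, h2⟩ | ⟨j, hj, h1, h2⟩ | ⟨h1, h2⟩ | ⟨j, hj, h1, h2⟩
  · refine Or.inl ⟨⟨j, hj, h1⟩, ?_⟩
    unfold XM mkE
    rw [if_neg (by rw [h1]; simp), if_neg (by rw [h1]; simp)]
  · refine Or.inr (Or.inl ⟨⟨j, i, hj, hi, h1⟩, ?_⟩)
    unfold XM mkE
    rw [if_neg (by rw [h1]; simp), if_neg (by rw [h1]; simp)]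
  · refine Or.inr (Or.inr (Or.inl ⟨⟨j, hj, h1⟩, ?_⟩))
    unfold XM mkE
    rw [if_neg (by rw [h1]; simp), if_neg (by rw [h1]; simp)]
  · refine Or.inr (Or.inr (Or.inr (Or.inl ⟨h1, ?_⟩)))
    unfold XM mkE
    rw [if_pos (by rw [h1])]
  · refine Or.inr (Or.inr (Or.inr (Or.inr ?_)))
    obtain ⟨ℓ, t⟩ := pe
    obtain ⟨k₁, k₂, k₃, rfl⟩ := List.length_eq_three.1 h2
    simp only at h1
    subst h1
    have hk1 : k₁ < p + q := S.code.lt _ hpe k₁ (by simp)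
    have hk2 : k₂ < p + q := S.code.lt _ hpe k₂ (by simp)
    obtain ⟨hb1, hb2, hb3, hb4, hb5, hb6⟩ := sit_base S
    have hg1 : (XS G s q (β.map h)).getD k₁ 0 < nn G s ↔ k₁ < p := by
      constructor
      · intro h3
        by_contra h4
        have h5 := (xs_getD S hk1).2.1 (not_lt.1 h4)
        omega
      · intro h3
        exact lt_of_lt_of_le (hb4 _ ((xs_getD S hk1).1 h3).2) hb5
    have hg2 : (XS G s q (β.map h)).getD k₂ 0 < nn G s ↔ k₂ < p := by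
      constructor
      · intro h3
        by_contra h4
        have h5 := (xs_getD S hk2).2.1 (not_lt.1 h4)
        omega
      · intro h3
        exact lt_of_lt_of_le (hb4 _ ((xs_getD S hk2).1 h3).2) hb5
    by_cases hk : p ≤ k₁ ∨ p ≤ k₂
    · obtain ⟨c1, c2, c3, c4, c5⟩ := c_new S hpe hk
      refine ⟨j, k₁, k₂, k₃, hj, rfl, Or.inl ⟨hk, ?_, c4, c5, c2, c1⟩⟩
      unfold XM mkE
      rw [if_neg (by simp), if_pos (by simp), if_pos]
      · rfl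
      · show nn G s ≤ (XS G s q (β.map h)).getD k₁ 0 ∨ nn G s ≤ (XS G s q (β.map h)).getD k₂ 0
        rcases hk with hk | hk
        · left
          by_contra h4
          have := hg1.1 (not_le.1 h4)
          omega
        · right
          by_contra h4
          have := hg2.1 (not_le.1 h4)
          omega
    · push Not at hk
      obtain ⟨a, c1, c2, c3, c4, c5⟩ := c_old S hpe hk.1 hk.2
      refine ⟨j, k₁, k₂, k₃, hj, rfl, Or.inr ⟨hk.1, hk.2, a, c1, c2, c3, ?_, c5⟩⟩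
      have hx1 : (XS G s q (β.map h)).getD k₁ 0 = (β.map h).getD k₁ 0 :=
        getD_base (by rw [hb1]; exact hk.1)
      have hx2 : (XS G s q (β.map h)).getD k₂ 0 = (β.map h).getD k₂ 0 :=
        getD_base (by rw [hb1]; exact hk.2)
      have hf := fnode_old S (hb4 _ (getD_mem (xs := β.map h) (k := k₁) (by rw [hb1]; exact hk.1)))
        (hb4 _ (getD_mem (xs := β.map h) (k := k₂) (by rw [hb1]; exact hk.2))) c1 c3
      unfold XM mkE
      rw [if_neg (by simp), if_pos (by simp), if_neg]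
      · show ((1, [j, G.io j ((fnode G.le (DD G s) s ((XS G s q (β.map h)).getD k₁ 0)
          ((XS G s q (β.map h)).getD k₂ 0)).getD 0)]) : Lb) = _
        rw [hx1, hx2, hf]
        rfl
      · show ¬ (nn G s ≤ (XS G s q (β.map h)).getD k₁ 0 ∨ nn G s ≤ (XS G s q (β.map h)).getD k₂ 0)
        rintro (h3 | h3)
        · exact absurd (hg1.2 hk.1) (not_lt.2 h3)
        · exact absurd (hg2.2 hk.2) (not_lt.2 h3)

/-- members of `XN` -/
theorem mem_xn {G : Guide} {s q : ℕ} {pat : List Edge} {β' : List ℕ} {e : Edge} :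
    e ∈ XN G s q pat β' ↔ ∃ pe ∈ pat, e = XM G s q β' pe := by
  unfold XN newEs XM XS
  rw [List.mem_map]
  constructor
  · rintro ⟨pe, h1, h2⟩
    exact ⟨pe, h1, h2.symm⟩
  · rintro ⟨pe, h1, h2⟩
    exact ⟨pe, h1, h2.symm⟩

private theorem XD3_kinds (S : Sit G m m' t₀ i₀ Y Y' W h p q pat β ω r s) {pe : Edge} (hpe : pe ∈ pat) :
    (pe.1 = (XM G s q (β.map h) pe).1 ∧ (XM G s q (β.map h) pe).1.1 ≠ 3 ∧
      ∀ j x, (XM G s q (β.map h) pe).1 = (1, [j, x]) → x < m') ∨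
    (pe.1 = (3, []) ∧ (XM G s q (β.map h) pe).1 = (3, [s])) ∨
    ∃ j x, pe.1 = (4, [j]) ∧ (XM G s q (β.map h) pe).1 = (1, [j, x]) ∧ m' ≤ x := by
  rcases (xm_cases S hpe).2 with ⟨⟨j, hj, h1⟩, h2⟩ | ⟨⟨j, i, hj, hi, h1⟩, h2⟩ | ⟨⟨j, hj, h1⟩, h2⟩ | ⟨h1, h2⟩ |
    ⟨j, k₁, k₂, k₃, hj, h1, h2⟩
  · refine Or.inl ⟨h2.symm, by rw [h2, h1]; simp, fun j' x hx => ?_⟩
    rw [h2, h1] at hx
    simp at hx
  · refine Or.inl ⟨h2.symm, by rw [h2, h1]; simp, fun j' x hx => ?_⟩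
    rw [h2, h1] at hx
    simp only [Prod.mk.injEq, List.cons.injEq, and_true, true_and] at hx
    omega
  · refine Or.inl ⟨h2.symm, by rw [h2, h1]; simp, fun j' x hx => ?_⟩
    rw [h2, h1] at hx
    simp at hx
  · exact Or.inr (Or.inl ⟨h1, h2⟩)
  · refine Or.inr (Or.inr ?_)
    rcases h2 with ⟨_, h3, h4, _⟩ | ⟨_, _, a, _, _, _, h3, h4⟩
    · exact ⟨j, _, by rw [h1], h3, h4⟩
    · exact ⟨j, _, by rw [h1], h3, h4⟩

/-- different entries make different edges -/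
theorem xm_inj (S : Sit G m m' t₀ i₀ Y Y' W h p q pat β ω r s) {pe pe' : Edge} (h1 : pe ∈ pat) (h2 : pe' ∈ pat)
    (he : XM G s q (β.map h) pe = XM G s q (β.map h) pe') : pe = pe' := by
  have hq : 0 < p + q := by have := S.code.qpos; omega
  obtain ⟨_, _, hnd, hlen⟩ := xs_getD S hq
  have ht : pe.2 = pe'.2 := by
    apply inst_inj hnd
    · intro k hk
      rw [hlen]
      exact S.code.lt _ h1 k hk
    · intro k hk
      rw [hlen]
      exact S.code.lt _ h2 k hk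
    · rw [← (xm_cases S h1).1, ← (xm_cases S h2).1, he]
  refine Prod.ext ?_ ht
  rcases XD3_kinds S h1 with ⟨a1, a2, a3⟩ | ⟨a1, a2⟩ | ⟨j, x, a1, a2, a3⟩
  · rcases XD3_kinds S h2 with ⟨b1, b2, b3⟩ | ⟨b1, b2⟩ | ⟨j', x', b1, b2, b3⟩
    · rw [a1, b1, he]
    · rw [he, b2] at a2
      exact absurd rfl a2
    · have := a3 j' x' (by rw [he, b2])
      omega
  · rcases XD3_kinds S h2 with ⟨b1, b2, b3⟩ | ⟨b1, b2⟩ | ⟨j', x', b1, b2, b3⟩
    · rw [← he, a2] at b2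
      exact absurd rfl b2
    · rw [a1, b1]
    · rw [← he, a2] at b2
      simp at b2
  · rcases XD3_kinds S h2 with ⟨b1, b2, b3⟩ | ⟨b1, b2⟩ | ⟨j', x', b1, b2, b3⟩
    · have := b3 j x (by rw [← he, a2])
      omega
    · rw [← he, a2] at b2
      simp at b2
    · rw [← he, a2] at b2
      simp only [Prod.mk.injEq, List.cons.injEq, and_true, true_and] at b2
      rw [a1, b1, b2.1]

end FdZ
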