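import Pool.Agent.Lib.MP_fd2900_lc.Z.XA
import Pool.Agent.Lib.MP_fd2900_lc.Z.XD3

/-! labels of new and old edges -/

namespace FdZ

variable {G : Guide} {m m' t₀ : ℕ} {i₀ : ℕ → ℕ} {Y Y' W : Finset ℕ} {h : ℕ → ℕ} {p q : ℕ}
  {pat : List Edge} {β ω : List ℕ} {r s : ℕ}

/-- an edge with a new vertex is new; a new edge has a new vertex; all vertices are in `Y'` or new -/
theorem xn_iff (S : Sit G m m' t₀ i₀ Y Y' W h p q pat β ω r s) {e : Edge}
    (he : e ∈ DD G s ++ XN G s q pat (β.map h)) :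
    (e ∈ XN G s q pat (β.map h) ↔ ∃ v ∈ e.2, nn G s ≤ v) ∧
    (e ∈ DD G s ↔ ∀ v ∈ e.2, v < nn G s) ∧
    (e ∈ XN G s q pat (β.map h) → ∀ v ∈ e.2, v ∈ β.map h ∨ (nn G s ≤ v ∧ v < nn G s + q)) := by
  have hnew : e ∈ XN G s q pat (β.map h) →
      (∀ v ∈ e.2, v ∈ β.map h ∨ (nn G s ≤ v ∧ v < nn G s + q)) ∧ ∃ v ∈ e.2, nn G s ≤ v := by
    intro h1
    have h2 := pre_sub (le := G.le) (io := G.io) (E := DD G s) (sit_pre S) h1
    exact ⟨h2.1, h2.2.1⟩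
  have hold := sit_old S e
  rcases List.mem_append.1 he with h1 | h1
  · refine ⟨⟨fun h2 => (hnew h2).2, fun ⟨v, h2, h3⟩ => ?_⟩, ⟨fun _ => hold h1, fun _ => h1⟩,
      fun h2 => (hnew h2).1⟩
    have := hold h1 v h2
    omega
  · refine ⟨⟨fun h2 => (hnew h2).2, fun _ => h1⟩, ⟨fun h2 => hold h2, fun h2 => ?_⟩,
      fun h2 => (hnew h2).1⟩
    obtain ⟨v, h3, h4⟩ := (hnew h1).2
    have := h2 v h3
    omega

private theorem XE1_xs (S : Sit G m m' t₀ i₀ Y Y' W h p q pat β ω r s) {k : ℕ} (hk : k < p) :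
    (XS G s q (β.map h)).getD k 0 = (β.map h).getD k 0 ∧ (β.map h).getD k 0 < nn G r := by
  have hb := sit_base S
  have hk' : k < (β.map h).length := by rw [hb.1]; exact hk
  exact ⟨getD_base hk', hb.2.2.2.1 _ (getD_mem hk')⟩

/-- the new edge of an entry has the label of the entry -/
theorem xm_lab (S : Sit G m m' t₀ i₀ Y Y' W h p q pat β ω r s) {pe : Edge} (hpe : pe ∈ pat) :
    XL G s q pat (β.map h) pe.1 (XM G s q (β.map h) pe) := by
  have hmem : XM G s q (β.map h) pe ∈ es (DD G s ++ XN G s q pat (β.map h)) :=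
    List.mem_append.2 (Or.inr (mem_xn.2 ⟨pe, hpe, rfl⟩))
  refine ⟨hmem, ?_⟩
  obtain ⟨h2, hc⟩ := xm_cases S hpe
  rcases hc with ⟨⟨j, -, h3⟩, h4⟩ | ⟨⟨j, i, -, -, h3⟩, h4⟩ | ⟨⟨j, -, h3⟩, h4⟩ | ⟨h3, h4⟩ |
    ⟨j, k₁, k₂, k₃, -, rfl, hc⟩
  · exact Or.inl ⟨by rw [h3]; norm_num, h4⟩
  · exact Or.inl ⟨by rw [h3]; norm_num, h4⟩
  · exact Or.inl ⟨by rw [h3], h4⟩
  · exact Or.inr (Or.inl ⟨h3, s, h4, G.le_refl s⟩)
  · refine Or.inr (Or.inr ?_)
    rcases hc with ⟨-, h4, -, -, -, h5⟩ | ⟨hk1, hk2, a, ha, -, h5, h4, -⟩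
    · refine ⟨j, s, (XS G s q (β.map h)).getD k₁ 0, (XS G s q (β.map h)).getD k₂ 0,
        (XS G s q (β.map h)).getD k₃ 0, rfl, Prod.ext h4 h2, ?_, G.le_refl s⟩
      obtain ⟨h6, h7⟩ := xm_cases S h5
      have h8 : (XM G s q (β.map h) ((3, []), [k₁, k₂])).1 = (3, [s]) := by
        rcases h7 with ⟨⟨j, -, h7⟩, -⟩ | ⟨⟨j, i, -, -, h7⟩, -⟩ | ⟨⟨j, -, h7⟩, -⟩ | ⟨-, h7⟩ |
          ⟨j, k₁, k₂, k₃, -, h7, -⟩
        · exact absurd (congrArg Prod.fst h7) (by norm_num)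
        · exact absurd (congrArg Prod.fst h7) (by norm_num)
        · exact absurd (congrArg Prod.fst h7) (by norm_num)
        · exact h7
        · exact absurd (congrArg (fun e : Edge => e.1.1) h7) (by norm_num)
      have h9 : XM G s q (β.map h) ((3, []), [k₁, k₂]) =
          ((3, [s]), [(XS G s q (β.map h)).getD k₁ 0, (XS G s q (β.map h)).getD k₂ 0]) :=
        Prod.ext h8 h6
      rw [← h9]
      exact List.mem_append.2 (Or.inr (mem_xn.2 ⟨_, h5, rfl⟩))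
    · obtain ⟨e1, l1⟩ := XE1_xs S hk1
      obtain ⟨e2, l2⟩ := XE1_xs S hk2
      refine ⟨j, a, (XS G s q (β.map h)).getD k₁ 0, (XS G s q (β.map h)).getD k₂ 0,
        (XS G s q (β.map h)).getD k₃ 0, rfl, Prod.ext h4 h2, ?_⟩
      rw [e1, e2]
      obtain ⟨h6, h7⟩ := (f_old S l1 l2).2 ⟨h5, ha⟩
      exact ⟨List.mem_append.2 (Or.inl h6), h7⟩

/-- labels of old edges inside `V_r`: final -/
theorem old_lab (S : Sit G m m' t₀ i₀ Y Y' W h p q pat β ω r s) {ℓ : Lb} {e : Edge}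
    (hv : ∀ v ∈ e.2, v < nn G r) :
    XL G s q pat (β.map h) ℓ e ↔ flab G ℓ e := by
  have hrs : r ≤ s := S.late.1
  have hnn : nn G r ≤ nn G s := (sit_base S).2.2.2.2.1
  have hD : ∀ e : Edge, (∀ v ∈ e.2, v < nn G r) →
      (e ∈ es (DD G s ++ XN G s q pat (β.map h)) ↔ e ∈ DD G s) := by
    intro e hv
    refine ⟨fun h1 => ((xn_iff S h1).2.1).2 fun v h2 => lt_of_lt_of_le (hv v h2) hnn,
      fun h1 => List.mem_append.2 (Or.inl h1)⟩
  have hfe : ∀ e : Edge, (∀ v ∈ e.2, v < nn G r) → (e ∈ DD G s ↔ e ∈ FE G) := by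
    intro e hv
    exact ⟨fun h1 => (S.late.2 s le_rfl).2 e (mem_DD.1 h1).1 hv, fun h1 => (fe_at h1 hv hrs).2⟩
  have hpair : ∀ {x y a : ℕ}, x < nn G r → y < nn G r →
      ((((3, [a]), [x, y]) ∈ es (DD G s ++ XN G s q pat (β.map h)) ∧ vw G.le s a) ↔
        (((3, [a]), [x, y]) ∈ FE G ∧ G.TP a)) := by
    intro x y a hx hy
    rw [hD _ (by simp [hx, hy])]
    exact f_old S hx hy
  constructor
  · rintro ⟨h1, h2⟩
    have h3 : e ∈ FE G := (hfe e hv).1 ((hD e hv).1 h1)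
    refine ⟨h3, ?_⟩
    rcases h2 with h2 | ⟨h2, a, h4, h5⟩ | ⟨j, a, x, y, c, h2, rfl, h5, h6⟩
    · exact Or.inl h2
    · refine Or.inr (Or.inl ⟨h2, a, h4, ?_⟩)
      have hsh := (fe_shape h3).2
      have hlen : e.2.length = 2 := by
        rcases hsh with ⟨j, h, -⟩ | ⟨j, i, h, -⟩ | ⟨j, h, -⟩ | ⟨t, -, h⟩
        · rw [h4] at h
          exact absurd (congrArg Prod.fst h) (by norm_num)
        · rw [h4] at h
          exact absurd (congrArg Prod.fst h) (by norm_num)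
        · rw [h4] at h
          exact absurd (congrArg Prod.fst h) (by norm_num)
        · exact h
      obtain ⟨x, y, hxy⟩ := List.length_eq_two.1 hlen
      have he : e = ((3, [a]), [x, y]) := Prod.ext h4 hxy
      subst he
      exact ((hpair (hv x (by simp)) (hv y (by simp))).1 ⟨h1, h5⟩).2
    · obtain ⟨h7, h8⟩ := (hpair (hv x (by simp)) (hv y (by simp))).1 ⟨h5, h6⟩
      exact Or.inr (Or.inr ⟨j, a, x, y, c, h2, rfl, h7, h8⟩)
  · rintro ⟨h1, h2⟩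
    have h3 : e ∈ es (DD G s ++ XN G s q pat (β.map h)) := (hD e hv).2 ((hfe e hv).2 h1)
    refine ⟨h3, ?_⟩
    rcases h2 with h2 | ⟨h2, a, h4, h5⟩ | ⟨j, a, x, y, c, h2, rfl, h5, h6⟩
    · exact Or.inl h2
    · refine Or.inr (Or.inl ⟨h2, a, h4, ?_⟩)
      have hsh := (fe_shape h1).2
      have hlen : e.2.length = 2 := by
        rcases hsh with ⟨j, h, -⟩ | ⟨j, i, h, -⟩ | ⟨j, h, -⟩ | ⟨t, -, h⟩
        · rw [h4] at h
          exact absurd (congrArg Prod.fst h) (by norm_num)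
        · rw [h4] at h
          exact absurd (congrArg Prod.fst h) (by norm_num)
        · rw [h4] at h
          exact absurd (congrArg Prod.fst h) (by norm_num)
        · exact h
      obtain ⟨x, y, hxy⟩ := List.length_eq_two.1 hlen
      have he : e = ((3, [a]), [x, y]) := Prod.ext h4 hxy
      subst he
      exact ((hpair (hv x (by simp)) (hv y (by simp))).2 ⟨h1, h5⟩).2
    · obtain ⟨h7, h8⟩ := (hpair (hv x (by simp)) (hv y (by simp))).2 ⟨h5, h6⟩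
      exact Or.inr (Or.inr ⟨j, a, x, y, c, h2, rfl, h7, h8⟩)

end FdZ
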