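import Pool.Agent.Lib.MP_fd2900_lc.Z.XE1

/-! labels of the new edges -/

namespace FdZ

variable {G : Guide} {m m' t₀ : ℕ} {i₀ : ℕ → ℕ} {Y Y' W : Finset ℕ} {h : ℕ → ℕ} {p q : ℕ}
  {pat : List Edge} {β ω : List ℕ} {r s : ℕ}

/-- labels of new edges: visible, or an index `≥ m'` that belongs to a label `C_j` -/
theorem new_lab' (S : Sit G m m' t₀ i₀ Y Y' W h p q pat β ω r s) {ℓ : Lb} {e : Edge}
    (he : e ∈ XN G s q pat (β.map h)) (hl : XL G s q pat (β.map h) ℓ e) :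
    VisL m m' ℓ ∨ ∃ j i x y c, ℓ = (1, [j, i]) ∧ j < m ∧ m' ≤ i ∧ e = ((1, [j, i]), [x, y, c]) ∧
      XL G s q pat (β.map h) (4, [j]) e ∧
      ((i = G.io j s ∧ r ≤ i ∧ ¬ G.S j ∧ (nn G s ≤ x ∨ nn G s ≤ y) ∧
          ((3, [s]), [x, y]) ∈ XN G s q pat (β.map h)) ∨
        (x ∈ β.map h ∧ y ∈ β.map h ∧ ∃ a, G.TP a ∧ ((3, [a]), [x, y]) ∈ FE G ∧
          ((3, [a]), [x, y]) ∈ DD G s ∧ vw G.le s a ∧ i = G.io j a)) := by
  obtain ⟨pe, hpe, hepe⟩ := mem_xn.1 he
  obtain ⟨h2, hc⟩ := xm_cases S hpe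
  have hlab := xm_lab S hpe
  rw [← hepe] at h2 hc hlab
  obtain ⟨-, hl⟩ := hl
  rcases hl with ⟨hl1, hl2⟩ | ⟨hl1, -⟩ | ⟨j, r', x, y, c, hl1, hl2, -, -⟩
  · -- the label is the kind
    rcases hc with ⟨⟨j, hj, h3⟩, h4⟩ | ⟨⟨j, i, hj, hi, h3⟩, h4⟩ | ⟨⟨j, hj, h3⟩, h4⟩ | ⟨h3, h4⟩ |
      ⟨j, k₁, k₂, k₃, hj, hpe4, h4⟩
    · left; left
      exact ⟨j, hj, Or.inl (by rw [← hl2, h4, h3])⟩
    · left; right; left
      exact ⟨j, i, hj, hi, by rw [← hl2, h4, h3]⟩
    · left; left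
      exact ⟨j, hj, Or.inr (Or.inl (by rw [← hl2, h4, h3]))⟩
    · exfalso
      rw [← hl2, h4] at hl1
      simp at hl1
    · right
      subst hpe4
      have hk : ∀ k ∈ [k₁, k₂, k₃], k < p + q := S.code.lt _ hpe
      have hk1 : k₁ < p + q := hk k₁ (by simp)
      have hk2 : k₂ < p + q := hk k₂ (by simp)
      have h2' : e.2 = [(XS G s q (β.map h)).getD k₁ 0, (XS G s q (β.map h)).getD k₂ 0,
        (XS G s q (β.map h)).getD k₃ 0] := by
        rw [h2]
        simp only [inst, List.map_cons, List.map_nil]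
      obtain ⟨b1, b2, b3, b4, -⟩ := sit_base S
      rcases h4 with ⟨h5, h6, h7, h8, h9, h10⟩ | ⟨h5, h6, a, h7, h8, h9, h10, h11⟩
      · refine ⟨j, G.io j s, _, _, _, by rw [← hl2, h6], hj, h7, Prod.ext h6 h2', hlab,
          Or.inl ⟨rfl, h8, h9, ?_, ?_⟩⟩
        · rcases h5 with h5 | h5
          · left
            rw [(xs_getD S hk1).2.1 h5]
            exact Nat.le_add_right _ _
          · right
            rw [(xs_getD S hk2).2.1 h5]
            exact Nat.le_add_right _ _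
        · refine mem_xn.2 ⟨_, h10, ?_⟩
          simp [XM, mkE, inst]
      · have e1 : (XS G s q (β.map h)).getD k₁ 0 = (β.map h).getD k₁ 0 := by
          unfold XS
          exact getD_base (by rw [b1]; exact h5)
        have e2 : (XS G s q (β.map h)).getD k₂ 0 = (β.map h).getD k₂ 0 := by
          unfold XS
          exact getD_base (by rw [b1]; exact h6)
        have m1 : (β.map h).getD k₁ 0 ∈ β.map h := getD_mem (by rw [b1]; exact h5)
        have m2 : (β.map h).getD k₂ 0 ∈ β.map h := getD_mem (by rw [b1]; exact h6)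
        rw [e1, e2] at h2'
        have h12 := (f_old S (a := a) (b4 _ m1) (b4 _ m2)).2 ⟨h9, h7⟩
        exact ⟨j, G.io j a, _, _, _, by rw [← hl2, h10], hj, h11, Prod.ext h10 h2', hlab,
          Or.inr ⟨m1, m2, a, h7, h9, h12.1, h12.2, rfl⟩⟩
  · left; right; right
    exact hl1
  · -- label C
    left; left
    have hj : j < m := by
      rw [hl2] at hc
      rcases hc with ⟨⟨j', hj, h3⟩, h4⟩ | ⟨⟨j', i, hj, hi, h3⟩, h4⟩ | ⟨⟨j', hj, h3⟩, h4⟩ |
        ⟨h3, h4⟩ | ⟨j', k₁, k₂, k₃, hj, hpe4, h4⟩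
      · rw [h3] at h4; simp at h4
      · rw [h3] at h4
        simp only [Prod.mk.injEq, List.cons.injEq, true_and] at h4
        rw [h4.1]; exact hj
      · rw [h3] at h4; simp at h4
      · simp at h4
      · rcases h4 with ⟨-, h6, -⟩ | ⟨-, -, a, -, -, -, h10, -⟩
        · simp only [Prod.mk.injEq, List.cons.injEq, true_and] at h6
          rw [h6.1]; exact hj
        · simp only [Prod.mk.injEq, List.cons.injEq, true_and] at h10
          rw [h10.1]; exact hj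
    exact ⟨j, hj, Or.inr (Or.inr hl1)⟩

end FdZ
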