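import Pool.Agent.Lib.MP_fd2900_lc.Z.XE1

/-! legality of the request -/

namespace FdZ

variable {G : Guide} {m m' t₀ : ℕ} {i₀ : ℕ → ℕ} {Y Y' W : Finset ℕ} {h : ℕ → ℕ} {p q : ℕ}
  {pat : List Edge} {β ω : List ℕ} {r s : ℕ}

/-- members of the new edges and their counterparts over `Y + W` -/
private theorem XE3_new (S : Sit G m m' t₀ i₀ Y Y' W h p q pat β ω r s) {e : Edge}
    (he : e ∈ XN G s q pat (β.map h)) : ∃ pe ∈ pat, e = XM G s q (β.map h) pe ∧
      e.2 = inst (XS G s q (β.map h)) pe.2 ∧ e.2.map (th h Y (nn G s) ω) = inst (β ++ ω) pe.2 ∧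
      (pe.1, e.2.map (th h Y (nn G s) ω)) ∈ visE G m m' := by
  obtain ⟨pe, hpe, rfl⟩ := mem_xn.mp he
  have h1 := (xm_cases S hpe).1
  have h2 : (XM G s q (β.map h) pe).2.map (th h Y (nn G s) ω) = inst (β ++ ω) pe.2 := by
    rw [h1]
    exact th_inst S (S.code.lt pe hpe)
  refine ⟨pe, hpe, rfl, h1, h2, ?_⟩
  rw [h2]
  exact (sit_ent S).2.2 pe hpe

/-- kinds of the new edges -/
private theorem XE3_kind (S : Sit G m m' t₀ i₀ Y Y' W h p q pat β ω r s) {pe : Edge} (hpe : pe ∈ pat) :
    (∀ j, (XM G s q (β.map h) pe).1 = (2, [j]) → pe.1 = (2, [j]) ∧ j < m) ∧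
    (∀ j, (XM G s q (β.map h) pe).1 = (0, [j]) → pe.1 = (0, [j]) ∧ j < m) ∧
    (∀ r', (XM G s q (β.map h) pe).1 = (3, [r']) → pe.1 = (3, []) ∧ r' = s) := by
  rcases (xm_cases S hpe).2 with ⟨⟨j, hj, h1⟩, h2⟩ | ⟨⟨j, i, hj, hi, h1⟩, h2⟩ | ⟨⟨j, hj, h1⟩, h2⟩ |
    ⟨h1, h2⟩ | ⟨j, k₁, k₂, k₃, hj, h1, h2⟩
  · rw [h2, h1]
    refine ⟨fun j' h' => ?_, fun j' h' => ?_, fun r' h' => ?_⟩
    · simp at h'
    · simp only [Prod.mk.injEq, List.cons.injEq, and_true, true_and] at h'
      subst h'
      exact ⟨rfl, hj⟩
    · simp at h'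
  · rw [h2, h1]
    refine ⟨fun j' h' => ?_, fun j' h' => ?_, fun r' h' => ?_⟩ <;> simp at h'
  · rw [h2, h1]
    refine ⟨fun j' h' => ?_, fun j' h' => ?_, fun r' h' => ?_⟩
    · simp only [Prod.mk.injEq, List.cons.injEq, and_true, true_and] at h'
      subst h'
      exact ⟨rfl, hj⟩
    · simp at h'
    · simp at h'
  · rw [h2, h1]
    refine ⟨fun j' h' => ?_, fun j' h' => ?_, fun r' h' => ?_⟩
    · simp at h'
    · simp at h'
    · simp only [Prod.mk.injEq, List.cons.injEq, and_true, true_and] at h'
      exact ⟨rfl, h'.symm⟩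
  · have h3 : ∃ i, (XM G s q (β.map h) pe).1 = (1, [j, i]) := by
      rcases h2 with ⟨-, h2, -⟩ | ⟨-, -, a, -, -, -, h2, -⟩
      · exact ⟨_, h2⟩
      · exact ⟨_, h2⟩
    obtain ⟨i, h3⟩ := h3
    rw [h3]
    refine ⟨fun j' h' => ?_, fun j' h' => ?_, fun r' h' => ?_⟩ <;> simp at h'

/-- a visible edge over `Y + W` which meets `W` is an entry of the code -/
private theorem XE3_find (S : Sit G m m' t₀ i₀ Y Y' W h p q pat β ω r s) {ℓ : Lb} {idx : List ℕ}
    (hi : ∀ k ∈ idx, k < p + q) (hv : (ℓ, inst (β ++ ω) idx) ∈ visE G m m')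
    (hn : ∃ k ∈ idx, p ≤ k) : (ℓ, idx) ∈ pat := by
  have hbl := S.bl
  have hol := S.ol
  have hnew : ∀ k, k < p + q → p ≤ k → (β ++ ω).getD k 0 ∈ W := by
    intro k hk hk'
    rw [getD_new (by omega)]
    exact (S.oW _).mp (getD_mem (by omega))
  have hM : Meets Y W (ℓ, inst (β ++ ω) idx) := by
    constructor
    · intro v hv
      obtain ⟨k, hk, rfl⟩ := List.mem_map.mp hv
      by_cases hkp : k < p
      · left
        rw [getD_base (by omega)]
        exact S.bY _ (getD_mem (by omega))
      · exact .inr (hnew k (hi k hk) (by omega))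
    · obtain ⟨k, hk, hkp⟩ := hn
      exact ⟨_, List.mem_map.mpr ⟨k, hk, rfl⟩, hnew k (hi k hk) hkp⟩
  obtain ⟨pe, hpe, h1, h2⟩ := S.all _ hv hM
  have h3 : idx = pe.2 := by
    refine inst_inj (sit_ent S).1 ?_ ?_ h2
    · intro k hk
      rw [List.length_append, hbl, hol]
      exact hi k hk
    · intro k hk
      rw [List.length_append, hbl, hol]
      exact S.code.lt pe hpe k hk
  have h4 : (ℓ, idx) = pe := Prod.ext h1.2 h3
  rw [h4]
  exact hpe

private theorem XE3_len2 {l : List ℕ} (hl : l.length = 4) : ∃ a b c d, l = [a, b, c, d] := by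
  match l, hl with
  | [a, b, c, d], _ => exact ⟨a, b, c, d, rfl⟩

/-- legality of the request -/
theorem sit_legal (S : Sit G m m' t₀ i₀ Y Y' W h p q pat β ω r s) :
    Legal G.io (es (DD G s ++ XN G s q pat (β.map h))) (vw G.le s) := by
  obtain ⟨hb1, hb2, hb3, hb4, hrs', hbase⟩ := sit_base S
  have hrs : r ≤ s := S.late.1
  have hXl : ∀ k, k < p + q → (k < p → (XS G s q (β.map h)).getD k 0 ∈ β.map h) ∧
      (p ≤ k → nn G s ≤ (XS G s q (β.map h)).getD k 0) := by
    intro k hk
    obtain ⟨h1, h2, -, -⟩ := xs_getD S hk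
    exact ⟨fun hk' => (h1 hk').2, fun hk' => by rw [h2 hk']; omega⟩
  constructor
  · -- never `Gam` and `D` together
    intro j t w hGam hD
    have hGam' : ((2, [j]), t) ∈ DD G s ++ XN G s q pat (β.map h) := hGam
    have hD' : ((0, [j]), t ++ [w]) ∈ DD G s ++ XN G s q pat (β.map h) := hD
    rcases List.mem_append.mp hGam' with hg | hg
    · rcases List.mem_append.mp hD' with hd | hd
      · exact legalD s j t w (mem_DD.mp hg).1 (mem_DD.mp hd).1
      · obtain ⟨pe, hpe, he, h1, h2, h3⟩ := XE3_new S hd
        obtain ⟨hk1, hjm⟩ := (XE3_kind S hpe).2.1 j (by rw [← he])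
        have hold : ∀ v ∈ t, v ∈ β.map h := by
          intro v hv
          rcases (xn_iff S hD').2.2 hd v (by simp [hv]) with h' | h'
          · exact h'
          · exact absurd (sit_old S _ hg v hv) (by omega)
        have hgF : ((2, [j]), t) ∈ FE G :=
          (S.late.2 s le_rfl).2 _ (mem_DD.mp hg).1 fun v hv => hb4 v (hold v hv)
        have hgv : ((2, [j]), t) ∈ visE G m m' := .inr (.inr (.inl ⟨⟨j, hjm, rfl⟩, hgF⟩))
        have hmap : (t.map (th h Y (nn G s) ω)).map h = t := by
          rw [List.map_map]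
          conv_rhs => rw [← List.map_id t]
          refine List.map_congr_left fun v hv => ?_
          exact (th_old S (hb3 v (hold v hv))).2
        have hgv' : ((2, [j]), t.map (th h Y (nn G s) ω)) ∈ visE G m m' := by
          rw [S.iso.iff _ (fun v hv => ?_)]
          · rw [hmap]
            exact hgv
          · obtain ⟨v', hv', rfl⟩ := List.mem_map.mp hv
            exact (th_old S (hb3 v' (hold v' hv'))).1
        have hgF' : ((2, [j]), t.map (th h Y (nn G s) ω)) ∈ FE G := by
          rcases hgv' with ⟨⟨j', -, h'⟩, -⟩ | ⟨⟨j', i', -, -, h'⟩, -⟩ | ⟨-, h'⟩ | ⟨h', -⟩ |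
            ⟨j', n, x, y, c, -, h', -⟩
          · simp at h'
          · simp at h'
          · exact h'
          · simp at h'
          · simp at h'
        have hdF : ((0, [j]), t.map (th h Y (nn G s) ω) ++ [th h Y (nn G s) ω w]) ∈ FE G := by
          rw [hk1] at h3
          simp only [List.map_append, List.map_cons, List.map_nil] at h3
          rcases h3 with ⟨-, h'⟩ | ⟨⟨j', i', -, -, h'⟩, -⟩ | ⟨⟨j', -, h'⟩, -⟩ | ⟨h', -⟩ |
            ⟨j', n, x, y, c, -, h', -⟩
          · exact h'
          · simp at h'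
          · simp at h'
          · simp at h'
          · simp at h'
        exact legalD_lim hgF' hdF
    · rcases List.mem_append.mp hD' with hd | hd
      · obtain ⟨v, hv, hv'⟩ := (xn_iff S hGam').1.mp hg
        exact absurd (sit_old S _ hd v (by simp [hv])) (by omega)
      · obtain ⟨pe, hpe, he, h1, h2, h3⟩ := XE3_new S hd
        obtain ⟨pe', hpe', he', h1', h2', h3'⟩ := XE3_new S hg
        obtain ⟨hk1, hjm⟩ := (XE3_kind S hpe).2.1 j (by rw [← he])
        obtain ⟨hk1', -⟩ := (XE3_kind S hpe').1 j (by rw [← he'])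
        have hgF' : ((2, [j]), t.map (th h Y (nn G s) ω)) ∈ FE G := by
          rw [hk1'] at h3'
          rcases h3' with ⟨⟨j', -, h'⟩, -⟩ | ⟨⟨j', i', -, -, h'⟩, -⟩ | ⟨-, h'⟩ | ⟨h', -⟩ |
            ⟨j', n, x, y, c, -, h', -⟩
          · simp at h'
          · simp at h'
          · exact h'
          · simp at h'
          · simp at h'
        have hdF : ((0, [j]), t.map (th h Y (nn G s) ω) ++ [th h Y (nn G s) ω w]) ∈ FE G := by
          rw [hk1] at h3
          simp only [List.map_append, List.map_cons, List.map_nil] at h3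
          rcases h3 with ⟨-, h'⟩ | ⟨⟨j', i', -, -, h'⟩, -⟩ | ⟨⟨j', -, h'⟩, -⟩ | ⟨h', -⟩ |
            ⟨j', n, x, y, c, -, h', -⟩
          · exact h'
          · simp at h'
          · simp at h'
          · simp at h'
          · simp at h'
        exact legalD_lim hgF' hdF
  · -- prescribed edges
    intro j r' x y c u hF hV hGam
    have hF' : ((3, [r']), [x, y]) ∈ DD G s ++ XN G s q pat (β.map h) := hF
    have hGam' : ((2, [j]), [x, y, c, u]) ∈ DD G s ++ XN G s q pat (β.map h) := hGam
    change ((1, [j, G.io j r']), [x, y, c]) ∈ DD G s ++ XN G s q pat (β.map h)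
    rw [List.mem_append]
    rcases List.mem_append.mp hGam' with hg | hg
    · left
      have hFo : ((3, [r']), [x, y]) ∈ DD G s := by
        refine (xn_iff S hF').2.1.mpr fun v hv => sit_old S _ hg v ?_
        simp only [List.mem_cons, List.not_mem_nil, or_false] at hv ⊢
        tauto
      have hnd := (mem_DD.mp hg).2
      have hr's : r' < s := by
        obtain ⟨-, -, h'⟩ := shape s _ (mem_DD.mp hFo).1
        rcases h' with ⟨j', h', -⟩ | ⟨j', i', h', -⟩ | ⟨j', h', -⟩ | ⟨t, ht, h', -⟩
        · simp at h'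
        · simp at h'
        · simp at h'
        · simp only [Prod.mk.injEq, List.cons.injEq, and_true, true_and] at h'
          omega
      have hin : ((1, [j, G.io j r']), [x, y, c]) ∈ EE G s := by
        by_contra hcon
        exact hnd ⟨j, x, y, c, u, r', rfl, hV, hr's, (mem_DD.mp hFo).1, hcon⟩
      refine mem_DD.mpr ⟨hin, ?_⟩
      rintro ⟨j', x', y', c', u', r'', h', -⟩
      simp at h'
    · obtain ⟨pe, hpe, he, h1, h2, h3⟩ := XE3_new S hg
      obtain ⟨hk1, hjm⟩ := (XE3_kind S hpe).1 j (by rw [← he])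
      obtain ⟨k₁, k₂, k₃, k₄, hk⟩ : ∃ a b c d, pe.2 = [a, b, c, d] := by
        refine XE3_len2 ?_
        have := congrArg List.length h1
        simpa [inst] using this.symm
      have hlt := S.code.lt pe hpe
      rw [hk] at h1 h2 hlt
      have hlt1 : k₁ < p + q := hlt k₁ (by simp)
      have hlt2 : k₂ < p + q := hlt k₂ (by simp)
      have hlt3 : k₃ < p + q := hlt k₃ (by simp)
      simp only [inst, List.map_cons, List.map_nil, List.cons.injEq, and_true] at h1
      obtain ⟨hx, hy, hc, -⟩ := h1
      have htx : inst (β ++ ω) [k₁, k₂, k₃] = [th h Y (nn G s) ω x, th h Y (nn G s) ω y,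
          th h Y (nn G s) ω c] := by
        simp only [inst, List.map_cons, List.map_nil, List.cons.injEq, and_true] at h2 ⊢
        exact ⟨h2.1.symm, h2.2.1.symm, h2.2.2.1.symm⟩
      have hgF : ((2, [j]), [th h Y (nn G s) ω x, th h Y (nn G s) ω y, th h Y (nn G s) ω c,
          th h Y (nn G s) ω u]) ∈ FE G := by
        rw [hk1] at h3
        rcases h3 with ⟨⟨j', -, h'⟩, -⟩ | ⟨⟨j', i', -, -, h'⟩, -⟩ | ⟨-, h'⟩ | ⟨h', -⟩ |
          ⟨j', n, x', y', c', -, h', -⟩
        · simp at h'
        · simp at h'
        · exact h'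
        · simp at h'
        · simp at h'
      have hi : ∀ k ∈ [k₁, k₂, k₃], k < p + q := by
        intro k hk'
        simp only [List.mem_cons, List.not_mem_nil, or_false] at hk'
        rcases hk' with rfl | rfl | rfl <;> assumption
      -- an entry for the prescribed edge gives the new edge
      have hfin : ∀ pe' ∈ pat, pe'.2 = [k₁, k₂, k₃] →
          (XM G s q (β.map h) pe').1 = (1, [j, G.io j r']) →
          ((1, [j, G.io j r']), [x, y, c]) ∈ XN G s q pat (β.map h) := by
        intro pe' hpe' h1' h2'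
        refine mem_xn.mpr ⟨pe', hpe', Prod.ext h2'.symm ?_⟩
        rw [(xm_cases S hpe').1, h1']
        simp only [inst, List.map_cons, List.map_nil]
        rw [hx, hy, hc]
      have h4k : ∀ {i : ℕ}, ((1, [j, i]), [k₁, k₂, k₃]) ∈ pat → i = G.io j r' →
          ((1, [j, G.io j r']), [x, y, c]) ∈ XN G s q pat (β.map h) := by
        intro i hp' hi'
        refine hfin _ hp' rfl ?_
        rcases (xm_cases S hp').2 with ⟨⟨j', hj, h'⟩, -⟩ | ⟨-, h'⟩ | ⟨⟨j', -, h'⟩, -⟩ |
          ⟨h', -⟩ | ⟨j', a, b, c', -, h', -⟩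
        · simp at h'
        · rw [h', hi']
        · simp at h'
        · simp at h'
        · simp at h'
      rcases List.mem_append.mp hF' with hf | hf
      · -- the pair is old
        have hFv := sit_old S _ hf
        have hxs : x < nn G s := hFv x (by simp)
        have hys : y < nn G s := hFv y (by simp)
        have hk₁ : k₁ < p := by
          by_contra hcon
          have := (hXl k₁ hlt1).2 (by omega)
          rw [← hx] at this
          omega
        have hk₂ : k₂ < p := by
          by_contra hcon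
          have := (hXl k₂ hlt2).2 (by omega)
          rw [← hy] at this
          omega
        have hxb : x ∈ β.map h := by rw [hx]; exact (hXl k₁ hlt1).1 hk₁
        have hyb : y ∈ β.map h := by rw [hy]; exact (hXl k₂ hlt2).1 hk₂
        obtain ⟨hFE, hTP⟩ := (f_old S (hb4 x hxb) (hb4 y hyb)).mp ⟨hf, hV⟩
        obtain ⟨hx1, hx2⟩ := th_old S (hb3 x hxb)
        obtain ⟨hy1, hy2⟩ := th_old S (hb3 y hyb)
        obtain ⟨a, ha, haF, haj⟩ := pair_cmp' S hx1 hy1 hTP (by rw [hx2, hy2]; exact hFE)
        have hpr := presc_lim ha haF hgF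
        by_cases hk₃ : k₃ < p
        · left
          have hcb : c ∈ β.map h := by rw [hc]; exact (hXl k₃ hlt3).1 hk₃
          obtain ⟨hc1, hc2⟩ := th_old S (hb3 c hcb)
          have hin : ∀ v ∈ [th h Y (nn G s) ω x, th h Y (nn G s) ω y, th h Y (nn G s) ω c], v ∈ Y := by
            intro v hv
            simp only [List.mem_cons, List.not_mem_nil, or_false] at hv
            rcases hv with rfl | rfl | rfl <;> assumption
          have hEF : ((1, [j, G.io j r']), [x, y, c]) ∈ FE G := by
            by_cases hm : G.io j a < m'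
            · have hvis : ((1, [j, G.io j a]), [th h Y (nn G s) ω x, th h Y (nn G s) ω y,
                  th h Y (nn G s) ω c]) ∈ visE G m m' := .inr (.inl ⟨⟨j, _, hjm, hm, rfl⟩, hpr⟩)
              rw [S.iso.iff _ hin] at hvis
              simp only [List.map_cons, List.map_nil, hx2, hy2, hc2] at hvis
              have hio : G.io j a = G.io j r' := by
                rcases haj j hjm with h' | h'
                · exact h'
                · omega
              rw [← hio]
              rcases hvis with ⟨⟨j', -, h'⟩, -⟩ | ⟨-, h'⟩ | ⟨⟨j', -, h'⟩, -⟩ | ⟨h', -⟩ |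
                ⟨j', n, x', y', c', -, h', -⟩
              · simp at h'
              · exact h'
              · simp at h'
              · simp at h'
              · simp at h'
            · have hvis : ((4, [j]), [th h Y (nn G s) ω x, th h Y (nn G s) ω y,
                  th h Y (nn G s) ω c]) ∈ visE G m m' :=
                .inr (.inr (.inr (.inr ⟨j, a, _, _, _, hjm, rfl, ha, haF, by omega, hpr⟩)))
              rw [S.iso.iff _ hin] at hvis
              simp only [List.map_cons, List.map_nil, hx2, hy2, hc2] at hvis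
              rcases hvis with ⟨⟨j', -, h'⟩, -⟩ | ⟨⟨j', i', -, -, h'⟩, -⟩ | ⟨⟨j', -, h'⟩, -⟩ | ⟨h', -⟩ |
                ⟨j', n, x', y', c', -, h', hn, hnF, -, hnE⟩
              · simp at h'
              · simp at h'
              · simp at h'
              · simp at h'
              · simp only [Prod.mk.injEq, List.cons.injEq, and_true, true_and] at h'
                obtain ⟨rfl, rfl, rfl, rfl⟩ := h'
                rw [tp_uniq hnF hFE] at hnE
                exact hnE
          refine (fe_at hEF (r := r) ?_ hrs).2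
          intro v hv
          simp only [List.mem_cons, List.not_mem_nil, or_false] at hv
          rcases hv with rfl | rfl | rfl
          · exact hb4 _ hxb
          · exact hb4 _ hyb
          · exact hb4 _ hcb
        · right
          by_cases hm : G.io j a < m'
          · have hvis : ((1, [j, G.io j a]), inst (β ++ ω) [k₁, k₂, k₃]) ∈ visE G m m' := by
              rw [htx]
              exact .inr (.inl ⟨⟨j, _, hjm, hm, rfl⟩, hpr⟩)
            have hpe' := XE3_find S hi hvis ⟨k₃, by simp, by omega⟩
            refine h4k hpe' ?_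
            rcases haj j hjm with h' | h'
            · exact h'
            · omega
          · have hvis : ((4, [j]), inst (β ++ ω) [k₁, k₂, k₃]) ∈ visE G m m' := by
              rw [htx]
              exact .inr (.inr (.inr (.inr ⟨j, a, _, _, _, hjm, rfl, ha, haF, by omega, hpr⟩)))
            have hpe' := XE3_find S hi hvis ⟨k₃, by simp, by omega⟩
            refine hfin _ hpe' rfl ?_
            rcases (xm_cases S hpe').2 with ⟨⟨j', hj, h'⟩, -⟩ | ⟨⟨j', i', -, -, h'⟩, -⟩ | ⟨⟨j', -, h'⟩, -⟩ |
              ⟨h', -⟩ | ⟨j', a', b', c', -, h', h''⟩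
            · simp at h'
            · simp at h'
            · simp at h'
            · simp at h'
            · simp only [Prod.mk.injEq, List.cons.injEq, and_true, true_and] at h'
              obtain ⟨rfl, rfl, rfl, rfl⟩ := h'
              rcases h'' with ⟨h'', -⟩ | ⟨-, -, n, hn, -, hnF, hn2, -⟩
              · omega
              · have e1 : (β.map h).getD k₁ 0 = x := by
                  rw [hx, XS, getD_base (by omega)]
                have e2 : (β.map h).getD k₂ 0 = y := by
                  rw [hy, XS, getD_base (by omega)]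
                rw [e1, e2] at hnF
                rw [hn2, tp_uniq hnF hFE]
      · -- the pair is new
        right
        obtain ⟨pf, hpf, hef, h1f, h2f, h3f⟩ := XE3_new S hf
        obtain ⟨hkf, rfl⟩ := (XE3_kind S hpf).2.2 r' (by rw [← hef])
        rw [hkf] at h3f
        have hFW : ∃ n, G.TP n ∧ ((3, [n]), [th h Y (nn G r') ω x, th h Y (nn G r') ω y]) ∈ FE G := by
          rcases h3f with ⟨⟨j', -, h'⟩, -⟩ | ⟨⟨j', i', -, -, h'⟩, -⟩ | ⟨⟨j', -, h'⟩, -⟩ |
            ⟨-, h'⟩ | ⟨j', n, x', y', c', -, h', -⟩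
          · simp at h'
          · simp at h'
          · simp at h'
          · exact h'
          · simp at h'
        obtain ⟨n, hn, hnF⟩ := hFW
        have hpr := presc_lim hn hnF hgF
        obtain ⟨v, hv, hv'⟩ := (xn_iff S hF').1.mp hf
        -- one of the two points is new
        have hnew : p ≤ k₁ ∨ p ≤ k₂ := by
          by_contra hcon
          push Not at hcon
          have h1' := hb4 _ ((hXl k₁ hlt1).1 hcon.1)
          have h2' := hb4 _ ((hXl k₂ hlt2).1 hcon.2)
          rw [← hx] at h1'
          rw [← hy] at h2'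
          simp only [List.mem_cons, List.not_mem_nil, or_false] at hv
          rcases hv with rfl | rfl <;> omega
        have hout : ∀ k, k < p + q → p ≤ k → nn G t₀ ≤ (β ++ ω).getD k 0 := by
          intro k hk hk'
          have hbl := S.bl
          have hol := S.ol
          by_contra hcon
          rw [getD_new (by omega)] at hcon
          have hw : ω.getD (k - β.length) 0 ∈ W := (S.oW _).mp (getD_mem (by omega))
          exact S.wy _ hw (S.iso.sub (Finset.mem_range.mpr (by omega)))
        have hto : nn G t₀ ≤ th h Y (nn G r') ω x ∨ nn G t₀ ≤ th h Y (nn G r') ω y := by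
          simp only [inst, List.map_cons, List.map_nil, List.cons.injEq, and_true] at htx
          rcases hnew with h' | h'
          · left
            rw [← htx.1]
            exact hout k₁ hlt1 h'
          · right
            rw [← htx.2.1]
            exact hout k₂ hlt2 h'
        have hcal := cal_pair S.cal hn hnF hto hjm
        have hcals := S.cal r' (S.tr.trans hrs) S.tps j hjm
        have hkn : ∃ k ∈ [k₁, k₂, k₃], p ≤ k := by
          rcases hnew with h' | h'
          · exact ⟨k₁, by simp, h'⟩
          · exact ⟨k₂, by simp, h'⟩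
        by_cases hS : G.S j
        · obtain ⟨h5, h6⟩ := hcal.1 hS
          obtain ⟨h7, -⟩ := hcals.1 hS
          have hvis : ((1, [j, G.io j n]), inst (β ++ ω) [k₁, k₂, k₃]) ∈ visE G m m' := by
            rw [htx]
            exact .inr (.inl ⟨⟨j, _, hjm, by omega, rfl⟩, hpr⟩)
          exact h4k (XE3_find S hi hvis hkn) (by rw [h5, h7])
        · have h5 := hcal.2 hS
          have hvis : ((4, [j]), inst (β ++ ω) [k₁, k₂, k₃]) ∈ visE G m m' := by
            rw [htx]
            exact .inr (.inr (.inr (.inr ⟨j, n, _, _, _, hjm, rfl, hn, hnF, h5, hpr⟩)))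
          have hpe' := XE3_find S hi hvis hkn
          refine hfin _ hpe' rfl ?_
          rcases (xm_cases S hpe').2 with ⟨⟨j', hj, h'⟩, -⟩ | ⟨⟨j', i', -, -, h'⟩, -⟩ | ⟨⟨j', -, h'⟩, -⟩ |
            ⟨h', -⟩ | ⟨j', a', b', c', -, h', h''⟩
          · simp at h'
          · simp at h'
          · simp at h'
          · simp at h'
          · simp only [Prod.mk.injEq, List.cons.injEq, and_true, true_and] at h'
            obtain ⟨rfl, rfl, rfl, rfl⟩ := h'
            rcases h'' with ⟨-, h'', -⟩ | ⟨h6, h7, -⟩
            · exact h''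
            · omega

end FdZ
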