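import Pool.Agent.Lib.MP_fd2900_lc.Z.XE2

/-! corresponding edges -/

namespace FdZ

variable {G : Guide} {m m' t₀ : ℕ} {i₀ : ℕ → ℕ} {Y Y' W : Finset ℕ} {h : ℕ → ℕ} {p q : ℕ}
  {pat : List Edge} {β ω : List ℕ} {r s : ℕ}

theorem cor_ex (S : Sit G m m' t₀ i₀ Y Y' W h p q pat β ω r s) {e : Edge} {ℓ : Lb}
    (hv : ∀ v ∈ e.2, Ins Y' (nn G s) q v) (hℓ : VisL m m' ℓ) (hl : XL G s q pat (β.map h) ℓ e) :
    ∃ f, Cor G m m' Y Y' h q pat β ω s e f := by
  have he : e ∈ DD G s ++ XN G s q pat (β.map h) := hl.1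
  obtain ⟨_, h2, _⟩ := xn_iff S he
  rcases List.mem_append.1 he with hD | hN
  · have hY : ∀ v ∈ e.2, v ∈ Y' := by
      intro v hve
      have h3 := h2.1 hD v hve
      rcases hv v hve with h4 | h4
      · exact h4
      · omega
    have h5 : flab G ℓ e := (old_lab S fun v hve => S.yr v (hY v hve)).1 hl
    obtain ⟨e₀, he₀⟩ := vf_of_flab hℓ h5
    obtain ⟨_, h6, _⟩ := vf_flab he₀
    have h7 : (e₀.1, e₀.2.map (th h Y (nn G s) ω)) ∈ visE G m m' := by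
      refine (S.iso.iff (e₀.1, e₀.2.map (th h Y (nn G s) ω)) ?_).2 ?_
      · intro v hve
        obtain ⟨w, hw, rfl⟩ := List.mem_map.1 hve
        exact (th_old S (hY w (by rw [h6]; exact hw))).1
      · have h8 : (e₀.2.map (th h Y (nn G s) ω)).map h = e₀.2 := by
          rw [List.map_map]
          conv_rhs => rw [← List.map_id e₀.2]
          refine List.map_congr_left fun w hw => ?_
          exact (th_old S (hY w (by rw [h6]; exact hw))).2
        simp only [h8]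
        exact he₀.1
    obtain ⟨f, hf⟩ := vf_ex h7
    exact ⟨f, Or.inl ⟨e₀, he₀, hY, hf⟩⟩
  · obtain ⟨pe, hpe, rfl⟩ := mem_xn.1 hN
    obtain ⟨f, hf⟩ := vf_ex ((sit_ent S).2.2 pe hpe)
    exact ⟨f, Or.inr ⟨pe, hpe, rfl, hf⟩⟩

theorem cor_tup (S : Sit G m m' t₀ i₀ Y Y' W h p q pat β ω r s) {e f : Edge}
    (hc : Cor G m m' Y Y' h q pat β ω s e f) : f.2 = e.2.map (th h Y (nn G s) ω) := by
  rcases hc with ⟨e₀, h1, _, h2⟩ | ⟨pe, hpe, rfl, h2⟩
  · rw [(vf_flab h2).2.1, (vf_flab h1).2.1]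
  · rw [(vf_flab h2).2.1, (xm_cases S hpe).1]
    exact (th_inst S fun k hk => S.code.lt pe hpe k hk).symm

end FdZ
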