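import Pool.Agent.Lib.MP_fd2900_lc.Z.XE2

/-! corresponding edges have the same labels -/

namespace FdZ

variable {G : Guide} {m m' t₀ : ℕ} {i₀ : ℕ → ℕ} {Y Y' W : Finset ℕ} {h : ℕ → ℕ} {p q : ℕ}
  {pat : List Edge} {β ω : List ℕ} {r s : ℕ}

private theorem XF2_entry {k₁ k₂ k₃ : ℕ} {xs : List ℕ} :
    inst xs [k₁, k₂, k₃] = [xs.getD k₁ 0, xs.getD k₂ 0, xs.getD k₃ 0] := rfl

/-- an entry (1, [j, i]) whose new edge has the label `C_j` -/
private theorem XF2_one (S : Sit G m m' t₀ i₀ Y Y' W h p q pat β ω r s) {j i k₁ k₂ k₃ a : ℕ}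
    (hpe : ((1, [j, i]), [k₁, k₂, k₃]) ∈ pat) (hj : j < m) (hi : i < m') (hia : i = G.io j a)
    (hF : ((3, [a]), [(XS G s q (β.map h)).getD k₁ 0, (XS G s q (β.map h)).getD k₂ 0]) ∈
      DD G s ++ XN G s q pat (β.map h)) (hv : vw G.le s a) :
    ∃ n, G.TP n ∧ ((3, [n]), [(β ++ ω).getD k₁ 0, (β ++ ω).getD k₂ 0]) ∈ FE G ∧ G.io j n = i := by
  have hlt : ∀ k ∈ [k₁, k₂, k₃], k < p + q := S.code.lt _ hpe
  have hk1 : k₁ < p + q := hlt _ (by simp)
  have hk2 : k₂ < p + q := hlt _ (by simp)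
  obtain ⟨x1o, x1n, hnd, hlen⟩ := xs_getD S hk1
  obtain ⟨x2o, x2n, -, -⟩ := xs_getD S hk2
  obtain ⟨hbl, -, -, hbr, -, -⟩ := sit_base S
  have hbl' : β.length = p := S.bl
  by_cases hnew : p ≤ k₁ ∨ p ≤ k₂
  · -- the pair has a new point
    have hnewv : ∃ v ∈ [(XS G s q (β.map h)).getD k₁ 0, (XS G s q (β.map h)).getD k₂ 0],
        nn G s ≤ v := by
      rcases hnew with h1 | h1
      · exact ⟨_, List.mem_cons_self, by rw [x1n h1]; omega⟩
      · exact ⟨_, List.mem_cons_of_mem _ List.mem_cons_self, by rw [x2n h1]; omega⟩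
    have hXN := (xn_iff S hF).1.2 hnewv
    obtain ⟨pe', hpe', he'⟩ := mem_xn.1 hXN
    obtain ⟨hx2, hx1⟩ := xm_cases S hpe'
    rw [← he'] at hx2 hx1
    -- the entry is an `F` entry
    have h3 : pe'.1 = (3, []) := by
      rcases hx1 with ⟨⟨j', -, h1⟩, h2⟩ | ⟨⟨j', i', -, -, h1⟩, h2⟩ | ⟨⟨j', -, h1⟩, h2⟩ |
        ⟨h1, -⟩ | ⟨j', l₁, l₂, l₃, -, -, ⟨-, h2, -⟩ | ⟨-, -, b, -, -, -, h2, -⟩⟩
      · rw [h1] at h2; simp at h2
      · rw [h1] at h2; simp at h2
      · rw [h1] at h2; simp at h2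
      · exact h1
      · simp at h2
      · simp at h2
    have hidx : [k₁, k₂] = pe'.2 := by
      refine inst_inj (xs := XS G s q (β.map h)) hnd ?_ ?_ ?_
      · intro k hk
        rw [hlen]
        simp only [List.mem_cons, List.not_mem_nil, or_false] at hk
        rcases hk with rfl | rfl
        · exact hk1
        · exact hk2
      · intro k hk
        rw [hlen]
        exact S.code.lt _ hpe' k hk
      · exact hx2
    have hvis := (sit_ent S).2.2 pe' hpe'
    rw [h3, ← hidx] at hvis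
    have hF' : ∃ n, G.TP n ∧ ((3, [n]), inst (β ++ ω) [k₁, k₂]) ∈ FE G := by
      rcases hvis with ⟨⟨j', -, h1⟩, -⟩ | ⟨⟨j', i', -, -, h1⟩, -⟩ | ⟨⟨j', -, h1⟩, -⟩ |
        ⟨-, h1⟩ | ⟨j', n, x, y, c, -, h1, -⟩
      · simp at h1
      · simp at h1
      · simp at h1
      · exact h1
      · simp at h1
    obtain ⟨n, hn, hFn⟩ := hF'
    refine ⟨n, hn, hFn, ?_⟩
    -- `r = s` : the index
    have has : a = s := by
      rcases hx1 with ⟨⟨j', -, h1⟩, h2⟩ | ⟨⟨j', i', -, -, h1⟩, h2⟩ | ⟨⟨j', -, h1⟩, h2⟩ |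
        ⟨-, h2⟩ | ⟨j', l₁, l₂, l₃, -, -, ⟨-, h2, -⟩ | ⟨-, -, b, -, -, -, h2, -⟩⟩
      · rw [h1] at h2; simp at h2
      · rw [h1] at h2; simp at h2
      · rw [h1] at h2; simp at h2
      · simpa using h2
      · simp at h2
      · simp at h2
    -- the pair over `Y + W` is not inside `V_{t₀}`
    have hout : ∀ k, p ≤ k → k < p + q → nn G t₀ ≤ (β ++ ω).getD k 0 := by
      intro k hk hkq
      have h4 : (β ++ ω).getD k 0 = ω.getD (k - β.length) 0 := getD_new (by omega)
      have h5 : ω.getD (k - β.length) 0 ∈ ω := getD_mem (by rw [S.ol]; omega)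
      have h6 := S.wy _ ((S.oW _).1 h5)
      rw [h4]
      by_contra hlt
      exact h6 (S.iso.sub (Finset.mem_range.2 (not_le.1 hlt)))
    have ho : nn G t₀ ≤ (β ++ ω).getD k₁ 0 ∨ nn G t₀ ≤ (β ++ ω).getD k₂ 0 := by
      rcases hnew with h1 | h1
      · exact Or.inl (hout _ h1 hk1)
      · exact Or.inr (hout _ h1 hk2)
    have hcp := cal_pair S.cal hn hFn ho hj
    have hcs := S.cal s (S.tr.trans S.late.1) S.tps j hj
    have hSj : G.S j := by
      by_contra hns
      have := hcs.2 hns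
      rw [hia, has] at hi
      omega
    rw [(hcp.1 hSj).1, hia, has, (hcs.1 hSj).1]
  · -- the pair is old
    have h1 : k₁ < p := by omega
    have h2 : k₂ < p := by omega
    obtain ⟨e1, m1⟩ := x1o h1
    obtain ⟨e2, m2⟩ := x2o h2
    have hDD : ((3, [a]), [(XS G s q (β.map h)).getD k₁ 0, (XS G s q (β.map h)).getD k₂ 0]) ∈
        DD G s := by
      refine (xn_iff S hF).2.1.2 ?_
      intro v hv'
      simp only [List.mem_cons, List.not_mem_nil, or_false] at hv'
      have hns := (sit_base S).2.2.2.2.1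
      rcases hv' with rfl | rfl
      · exact (hbr _ m1).trans_le hns
      · exact (hbr _ m2).trans_le hns
    obtain ⟨hFE, hTP⟩ := (f_old S (hbr _ m1) (hbr _ m2)).1 ⟨hDD, hv⟩
    rw [e1, e2] at hFE
    have hy1 : β.getD k₁ 0 ∈ Y := S.bY _ (getD_mem (by omega))
    have hy2 : β.getD k₂ 0 ∈ Y := S.bY _ (getD_mem (by omega))
    obtain ⟨n, hn, hFn, hcmp⟩ := pair_cmp' S hy1 hy2 hTP hFE
    refine ⟨n, hn, ?_, ?_⟩
    · rw [getD_base (by omega), getD_base (by omega)]
      exact hFn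
    · rcases hcmp j hj with h3 | ⟨-, h3⟩
      · rw [h3, hia]
      · omega

theorem cor_lab (S : Sit G m m' t₀ i₀ Y Y' W h p q pat β ω r s) {e f : Edge} {ℓ : Lb}
    (hc : Cor G m m' Y Y' h q pat β ω s e f) (hℓ : VisL m m' ℓ) (hl : XL G s q pat (β.map h) ℓ e) :
    flab G ℓ f := by
  rcases hc with ⟨e₀, h1, h2, h3⟩ | ⟨pe, hpe, rfl, hvf⟩
  · -- an old edge
    have he0 : e.2 = e₀.2 := (vf_flab h1).2.1
    have hin : ∀ v ∈ e₀.2, v ∈ Y' := by rw [← he0]; exact h2
    have hmap : (e₀.2.map (th h Y (nn G s) ω)).map h = e₀.2 := by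
      rw [List.map_map]
      conv_rhs => rw [← List.map_id e₀.2]
      exact List.map_congr_left fun v hv => (th_old S (hin v hv)).2
    have h4 : VF G m m' (e₀.1, (e₀.2.map (th h Y (nn G s) ω)).map h) e := by
      rw [hmap]
      exact h1
    have h5 := iso_full S.cal S.iso (e := (e₀.1, e₀.2.map (th h Y (nn G s) ω)))
      (fun v hv => by
        obtain ⟨w, hw, rfl⟩ := List.mem_map.1 hv
        exact (th_old S (hin w hw)).1) h3 h4 hℓ
    rw [h5]
    exact (old_lab S (fun v hv => S.yr v (h2 v hv))).1 hl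
  · -- a new edge
    obtain ⟨-, hlc⟩ := hl
    obtain ⟨hfl, -, -⟩ := vf_flab hvf
    have hfl' : flab G pe.1 f := hfl
    obtain ⟨hx2, hx1⟩ := xm_cases S hpe
    rcases hx1 with ⟨⟨j, -, h1⟩, h2⟩ | ⟨⟨j, i, hj, hi, h1⟩, h2⟩ | ⟨⟨j, -, h1⟩, h2⟩ |
      ⟨h1, h2⟩ | ⟨j, k₁, k₂, k₃, -, h1, hh⟩
    · rw [h2] at hlc
      rcases hlc with ⟨-, h4⟩ | ⟨-, a, h4, -⟩ | ⟨j', a, x, y, c, -, h4, -⟩
      · rw [← h4]; exact hfl'
      · rw [h1] at h4; simp at h4
      · have h5 := congrArg Prod.fst h4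
        rw [h2, h1] at h5; simp at h5
    · rcases hlc with ⟨-, h4⟩ | ⟨-, a, h4, -⟩ | ⟨j', a, x, y, c, hl4, h4, h5, h6⟩
      · rw [h2] at h4
        rw [← h4]; exact hfl'
      · rw [h2, h1] at h4; simp at h4
      · have h7 := congrArg Prod.fst h4
        rw [h2, h1] at h7
        simp only [Prod.mk.injEq, List.cons.injEq, and_true, true_and] at h7
        obtain ⟨hjj, hii⟩ := h7
        subst hjj
        have h8 := congrArg Prod.snd h4
        rw [hx2] at h8
        -- the tuple of the entry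
        have hlen3 : ∃ k₁ k₂ k₃, pe.2 = [k₁, k₂, k₃] := by
          have h9 : pe.2.length = 3 := by
            have := congrArg List.length h8
            simpa [inst] using this
          rcases hp2 : pe.2 with _ | ⟨a1, _ | ⟨a2, _ | ⟨a3, _ | ⟨a4, l⟩⟩⟩⟩
          · rw [hp2] at h9; simp at h9
          · rw [hp2] at h9; simp at h9
          · rw [hp2] at h9; simp at h9
          · exact ⟨a1, a2, a3, rfl⟩
          · rw [hp2] at h9; simp at h9
        obtain ⟨k₁, k₂, k₃, hk⟩ := hlen3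
        have hpe' : ((1, [j, i]), [k₁, k₂, k₃]) ∈ pat := by
          have : pe = ((1, [j, i]), [k₁, k₂, k₃]) := Prod.ext h1 hk
          rw [← this]
          exact hpe
        rw [hk, XF2_entry] at h8
        simp only [List.cons.injEq, and_true] at h8
        obtain ⟨hx, hy, -⟩ := h8
        have h5' : ((3, [a]), [(XS G s q (β.map h)).getD k₁ 0,
            (XS G s q (β.map h)).getD k₂ 0]) ∈ DD G s ++ XN G s q pat (β.map h) := by
          rw [hx, hy]
          exact h5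
        obtain ⟨n, hn, hFn, hio⟩ := XF2_one S hpe' hj hi hii h5' h6
        obtain ⟨-, hff, hcase⟩ := hvf
        have hf : f = (pe.1, inst (β ++ ω) pe.2) := by
          rcases hcase with ⟨-, h9⟩ | ⟨h9, -⟩ | ⟨j', n', x', y', c', h9, -⟩
          · exact h9
          · exfalso
            have : pe.1 = (3, []) := h9
            rw [h1] at this; simp at this
          · exfalso
            have := congrArg Prod.fst h9
            have h10 : pe.1 = (4, [j']) := this
            rw [h1] at h10; simp at h10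
        rw [hl4]
        refine ⟨hff, Or.inr (Or.inr ⟨j, n, (β ++ ω).getD k₁ 0, (β ++ ω).getD k₂ 0,
          (β ++ ω).getD k₃ 0, rfl, ?_, hFn, hn⟩)⟩
        rw [hf, h1, hk, hio]
        rfl
    · rw [h2] at hlc
      rcases hlc with ⟨-, h4⟩ | ⟨-, a, h4, -⟩ | ⟨j', a, x, y, c, -, h4, -⟩
      · rw [← h4]; exact hfl'
      · rw [h1] at h4; simp at h4
      · have h5 := congrArg Prod.fst h4
        rw [h2, h1] at h5; simp at h5
    · rcases hlc with ⟨h3, h4⟩ | ⟨h4, -⟩ | ⟨j', a, x, y, c, -, h4, -⟩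
      · rw [h2] at h4
        rw [← h4] at h3
        exact absurd h3 (by norm_num)
      · rw [h4, ← h1]; exact hfl'
      · have h5 := congrArg Prod.fst h4
        rw [h2] at h5; simp at h5
    · -- an entry with label `C_j`
      have hbig : ∃ i, (XM G s q (β.map h) pe).1 = (1, [j, i]) ∧ m' ≤ i := by
        rcases hh with ⟨-, h2, h3, -⟩ | ⟨-, -, b, -, -, -, h2, h3⟩
        · exact ⟨_, h2, h3⟩
        · exact ⟨_, h2, h3⟩
      obtain ⟨i, h2, h3⟩ := hbig
      have hpe1 : pe.1 = (4, [j]) := by rw [h1]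
      rcases hlc with ⟨-, h4⟩ | ⟨-, a, h4, -⟩ | ⟨j', a, x, y, c, hl4, h4, -⟩
      · exfalso
        rw [h2] at h4
        rcases hℓ with ⟨j', -, h5 | h5 | h5⟩ | ⟨j', i', -, hi', h5⟩ | h5
        · rw [h5] at h4; simp at h4
        · rw [h5] at h4; simp at h4
        · rw [h5] at h4; simp at h4
        · rw [h5] at h4
          simp only [Prod.mk.injEq, List.cons.injEq, and_true, true_and] at h4
          omega
        · rw [h5] at h4; simp at h4
      · rw [h2] at h4; simp at h4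
      · have h5 := congrArg Prod.fst h4
        rw [h2] at h5
        simp only [Prod.mk.injEq, List.cons.injEq, and_true, true_and] at h5
        rw [hl4, ← h5.1, ← hpe1]
        exact hfl'

end FdZ
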