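import Pool.Agent.Lib.MP_fd2900_lc.Z.XE2

/-! corresponding edges, injectivity -/

namespace FdZ

variable {G : Guide} {m m' t₀ : ℕ} {i₀ : ℕ → ℕ} {Y Y' W : Finset ℕ} {h : ℕ → ℕ} {p q : ℕ}
  {pat : List Edge} {β ω : List ℕ} {r s : ℕ}

private theorem XF3_map_inj {f : ℕ → ℕ} {a b : List ℕ}
    (h : ∀ v ∈ a, ∀ w ∈ b, f v = f w → v = w) (he : a.map f = b.map f) : a = b := by
  induction a generalizing b with
  | nil =>
    cases b with
    | nil => rfl
    | cons y b => simp at he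
  | cons x a ih =>
    cases b with
    | nil => simp at he
    | cons y b =>
      simp only [List.map_cons, List.cons.injEq] at he
      have h1 : x = y := h x (by simp) y (by simp) he.1
      have h2 : a = b := ih (fun v hv w hw => h v (by simp [hv]) w (by simp [hw])) he.2
      rw [h1, h2]

private theorem XF3_mixed (S : Sit G m m' t₀ i₀ Y Y' W h p q pat β ω r s) {e f e₀ pe : Edge}
    (h1 : VF G m m' e₀ e) (h2 : ∀ v ∈ e.2, v ∈ Y')
    (h3 : VF G m m' (e₀.1, e₀.2.map (th h Y (nn G s) ω)) f) (h4 : pe ∈ pat)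
    (h6 : VF G m m' (pe.1, inst (β ++ ω) pe.2) f) : False := by
  have h7 := vf_inj h3 h6
  have h8 : e₀.2.map (th h Y (nn G s) ω) = inst (β ++ ω) pe.2 := congrArg Prod.snd h7
  obtain ⟨k, hk, hpk⟩ := S.code.new pe h4
  have hkq := S.code.lt pe h4 k hk
  have h9 : (β ++ ω).getD k 0 = ω.getD (k - β.length) 0 := getD_new (by rw [S.bl]; exact hpk)
  have h10 : (β ++ ω).getD k 0 ∈ W := by
    rw [h9, ← S.oW]
    exact getD_mem (by rw [S.bl, S.ol]; omega)
  have h11 : (β ++ ω).getD k 0 ∈ inst (β ++ ω) pe.2 := by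
    unfold inst
    exact List.mem_map.2 ⟨k, hk, rfl⟩
  rw [← h8] at h11
  obtain ⟨v, hv, hv2⟩ := List.mem_map.1 h11
  have hvY : v ∈ Y' := by
    apply h2
    rw [(vf_flab h1).2.1]
    exact hv
  have h12 := (th_old S hvY).1
  rw [hv2] at h12
  exact S.wy _ h10 h12

theorem cor_inj (S : Sit G m m' t₀ i₀ Y Y' W h p q pat β ω r s) {e e' f : Edge}
    (hc : Cor G m m' Y Y' h q pat β ω s e f) (hc' : Cor G m m' Y Y' h q pat β ω s e' f) : e = e' := by
  rcases hc with ⟨e₀, h1, h2, h3⟩ | ⟨pe, h1, h2, h3⟩ <;>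
  rcases hc' with ⟨e₁, k1, k2, k3⟩ | ⟨pe', k1, k2, k3⟩
  · have h4 := vf_inj h3 k3
    have h5 : e₀.1 = e₁.1 := (Prod.ext_iff.1 h4).1
    have h6 : e₀.2.map (th h Y (nn G s) ω) = e₁.2.map (th h Y (nn G s) ω) := (Prod.ext_iff.1 h4).2
    have h7 : e₀.2 = e₁.2 := by
      refine XF3_map_inj (fun v hv w hw hvw => ?_) h6
      refine th_inj S (Or.inl (h2 v ?_)) (Or.inl (k2 w ?_)) hvw
      · rw [(vf_flab h1).2.1]
        exact hv
      · rw [(vf_flab k1).2.1]
        exact hw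
    have h8 : e₀ = e₁ := Prod.ext h5 h7
    rw [← h8] at k1
    exact vf_fun h1 k1
  · exact (XF3_mixed S h1 h2 h3 k1 k3).elim
  · exact (XF3_mixed S k1 k2 k3 h1 h3).elim
  · have h4 := vf_inj h3 k3
    have h5 : pe.1 = pe'.1 := (Prod.ext_iff.1 h4).1
    have h6 : inst (β ++ ω) pe.2 = inst (β ++ ω) pe'.2 := (Prod.ext_iff.1 h4).2
    have hlen : (β ++ ω).length = p + q := by rw [List.length_append, S.bl, S.ol]
    have h7 : pe.2 = pe'.2 := by
      refine inst_inj (sit_ent S).1 (fun k hk => ?_) (fun k hk => ?_) h6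
      · rw [hlen]
        exact S.code.lt pe h1 k hk
      · rw [hlen]
        exact S.code.lt pe' k1 k hk
    have h8 : pe = pe' := Prod.ext h5 h7
    rw [h2, k2, h8]

end FdZ
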