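import Pool.Agent.Lib.MP_fd2900_lc.Z.XF1
import Pool.Agent.Lib.MP_fd2900_lc.Z.XF2
import Pool.Agent.Lib.MP_fd2900_lc.Z.XF3

/-! transfer of a family of realizations -/

namespace FdZ

private theorem XG1_and {α β : Type*} {R : α → β → Prop} {l : List α} {l' : List β}
    (h : List.Forall₂ R l l') : List.Forall₂ (fun a b => R a b ∧ a ∈ l ∧ b ∈ l') l l' := by
  induction h with
  | nil => exact List.Forall₂.nil
  | cons h1 _ ih =>
    refine List.Forall₂.cons ⟨h1, List.mem_cons_self, List.mem_cons_self⟩ ?_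
    exact ih.imp fun a b hab => ⟨hab.1, List.mem_cons_of_mem _ hab.2.1, List.mem_cons_of_mem _ hab.2.2⟩

private theorem XG1_mem {α β : Type*} {R : α → β → Prop} {l : List α} {l' : List β}
    (h : List.Forall₂ R l l') : ∀ b ∈ l', ∃ a ∈ l, R a b := by
  induction h with
  | nil => intro b hb; simp at hb
  | cons h1 _ ih =>
    intro b hb
    rcases List.mem_cons.1 hb with rfl | hb
    · exact ⟨_, List.mem_cons_self, h1⟩
    · obtain ⟨a, ha, hab⟩ := ih b hb
      exact ⟨a, List.mem_cons_of_mem _ ha, hab⟩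

private theorem XG1_inst_mem {xs idx : List ℕ} (h : ∀ k ∈ idx, k < xs.length) :
    ∀ v ∈ inst xs idx, v ∈ xs := by
  intro v hv
  obtain ⟨k, hk, rfl⟩ := List.mem_map.1 hv
  exact getD_mem (h k hk)

variable {G : Guide} {m m' t₀ : ℕ} {i₀ : ℕ → ℕ} {Y Y' W : Finset ℕ} {h : ℕ → ℕ} {p q : ℕ}
  {pat : List Edge} {β ω : List ℕ} {r s : ℕ}

/-- the transfer: apply `th` to base and realizations; edges go to corresponding edges -/
theorem transfer (S : Sit G m m' t₀ i₀ Y Y' W h p q pat β ω r s) {p' q' : ℕ} {pat' : List Edge} {β₁ : List ℕ}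
    {νs : List (List ℕ)} (hc : Code p' q' pat') (ho : Over (XL G s q pat (β.map h)) p' q' pat' β₁ νs)
    (hℓ : ∀ pe ∈ pat', VisL m m' pe.1) (hb : ∀ v ∈ β₁, Ins Y' (nn G s) q v)
    (hν : ∀ ν ∈ νs, ∀ v ∈ ν, Ins Y' (nn G s) q v) :
    Over (flab G) p' q' pat' (β₁.map (th h Y (nn G s) ω)) (νs.map fun ν => ν.map (th h Y (nn G s) ω)) := by
  classical
  obtain ⟨hbl, hr, hd⟩ := ho
  refine ⟨by rw [List.length_map, hbl], ?_, ?_⟩
  · intro ν' hν'
    obtain ⟨ν, hνs, rfl⟩ := List.mem_map.1 hν'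
    obtain ⟨hl, hnd, es, hes, hf⟩ := hr ν hνs
    have hIns : ∀ v ∈ β₁ ++ ν, Ins Y' (nn G s) q v := by
      intro v hv
      rcases List.mem_append.1 hv with hv | hv
      · exact hb v hv
      · exact hν ν hνs v hv
    have hlen : (β₁ ++ ν).length = p' + q' := by rw [List.length_append, hbl, hl]
    refine ⟨by rw [List.length_map, hl], ?_, ?_⟩
    · rw [← List.map_append]
      exact hnd.map_on fun a ha b hb' hab => th_inj S (hIns a ha) (hIns b hb') hab
    · have hex : ∀ e ∈ es, ∃ f, Cor G m m' Y Y' h q pat β ω s e f := by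
        intro e he
        obtain ⟨pe, hpe, hlab, hinst⟩ := XG1_mem hf e he
        refine cor_ex S (ℓ := pe.1) ?_ (hℓ pe hpe) hlab
        intro v hv
        rw [hinst] at hv
        exact hIns v (XG1_inst_mem (fun k hk => hlen ▸ hc.lt pe hpe k hk) v hv)
      let φ : Edge → Edge := fun e =>
        if he : ∃ f, Cor G m m' Y Y' h q pat β ω s e f then he.choose else e
      have hφ : ∀ e ∈ es, Cor G m m' Y Y' h q pat β ω s e (φ e) := by
        intro e he
        have := hex e he
        simp only [φ, dif_pos this]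
        exact this.choose_spec
      refine ⟨es.map φ, ?_, ?_⟩
      · exact hes.map_on fun a ha b hb' hab => cor_inj S (hφ a ha) (by rw [hab]; exact hφ b hb')
      · rw [List.forall₂_map_right_iff]
        refine (XG1_and hf).imp ?_
        rintro pe e ⟨⟨hlab, hinst⟩, hpe, he⟩
        refine ⟨cor_lab S (hφ e he) (hℓ pe hpe) hlab, ?_⟩
        rw [cor_tup S (hφ e he), hinst, ← List.map_append,
          inst_map _ (fun k hk => hlen ▸ hc.lt pe hpe k hk)]
  · rw [List.pairwise_map]
    refine List.Pairwise.imp_of_mem ?_ hd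
    intro ν ν' hνm hνm' hdis
    intro v hv hv'
    obtain ⟨a, ha, rfl⟩ := List.mem_map.1 hv
    obtain ⟨b, hb', hab⟩ := List.mem_map.1 hv'
    have := th_inj S (hν ν' hνm' b hb') (hν ν hνm a ha) hab
    subst this
    exact hdis ha hb'

end FdZ
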