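import Pool.Agent.Lib.MP_fd2900_lc.Z.XG1

/-! the final contradiction -/

namespace FdZ

variable {G : Guide} {m m' t₀ : ℕ} {i₀ : ℕ → ℕ} {Y Y' W : Finset ℕ} {h : ℕ → ℕ} {p q : ℕ}
  {pat : List Edge} {β ω : List ℕ} {r s : ℕ}

private theorem XG2_f2 {R R' : Edge → Edge → Prop} {f : Edge → Edge} :
    ∀ {a b : List Edge}, List.Forall₂ R a b → (∀ x ∈ a, ∀ y, R x y → R' (f x) y) →
      List.Forall₂ R' (a.map f) b := by
  intro a b h1
  induction h1 with
  | nil => intro _; exact List.Forall₂.nil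
  | @cons x y a b hxy _ ih =>
    intro h2
    rw [List.map_cons]
    exact List.Forall₂.cons (h2 x (by simp) y hxy) (ih fun z hz => h2 z (by simp [hz]))

private theorem XG2_left {R : Edge → Edge → Prop} :
    ∀ {a b : List Edge}, List.Forall₂ R a b → ∀ x ∈ a, ∃ y, R x y := by
  intro a b h1
  induction h1 with
  | nil => intro x hx; simp at hx
  | @cons x y a b hxy _ ih =>
    intro z hz
    rcases List.mem_cons.1 hz with rfl | hz
    · exact ⟨y, hxy⟩
    · exact ih z hz

private theorem XG2_cnt (p : ℕ) (L : List Edge) (P : Finset ℕ) :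
    cnt p L P = ((L.map Prod.snd).filter fun t : List ℕ =>
      decide ((∀ k ∈ t, k < p ∨ k ∈ P) ∧ ∃ k ∈ t, k ∈ P)).length := by
  rw [List.filter_map, List.length_map]
  rfl

private theorem XG2_code {p q : ℕ} {L M : List Edge} (h : L.map Prod.snd = M.map Prod.snd) (hc : Code p q M) :
    Code p q L := by
  have h1 : ∀ e ∈ L, ∃ e' ∈ M, e'.2 = e.2 := by
    intro e he
    have : e.2 ∈ L.map Prod.snd := List.mem_map.2 ⟨e, he, rfl⟩
    rw [h] at this
    obtain ⟨e', he', h2⟩ := List.mem_map.1 this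
    exact ⟨e', he', h2⟩
  have h2 : ∀ e ∈ M, ∃ e' ∈ L, e'.2 = e.2 := by
    intro e he
    have : e.2 ∈ M.map Prod.snd := List.mem_map.2 ⟨e, he, rfl⟩
    rw [← h] at this
    obtain ⟨e', he', h2⟩ := List.mem_map.1 this
    exact ⟨e', he', h2⟩
  refine ⟨hc.qpos, ?_, ?_, ?_, ?_, ?_, ?_⟩
  · have := congrArg List.length h
    simp only [List.length_map] at this
    rw [this, hc.len]
  · intro e he
    obtain ⟨e', he', h3⟩ := h1 e he
    rw [← h3]
    exact hc.nd e' he'
  · intro e he
    obtain ⟨e', he', h3⟩ := h1 e he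
    rw [← h3]
    exact hc.lt e' he'
  · intro e he
    obtain ⟨e', he', h3⟩ := h1 e he
    rw [← h3]
    exact hc.new e' he'
  · intro k hk
    obtain ⟨e, he, h3⟩ := hc.base k hk
    obtain ⟨e', he', h4⟩ := h2 e he
    exact ⟨e', he', by rw [h4]; exact h3⟩
  · intro P hP hP'
    rw [XG2_cnt, h, ← XG2_cnt]
    exact hc.min P hP hP'

private theorem XG2_old {p' q' n k : ℕ} {β' ν : List ℕ} (hβ : β'.length = p') (hν : ν.length = q')
    (hk : k < p' + q') (hn : ∀ v ∈ ν, n ≤ v) (h : (β' ++ ν).getD k 0 < n) : k < p' := by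
  by_contra hcon
  have h1 : p' ≤ k := not_lt.1 hcon
  have h2 : k - p' < ν.length := by omega
  have h3 : (β' ++ ν).getD k 0 = ν[k - p'] := by
    rw [List.getD_append_right _ _ _ _ (by omega)]
    subst hβ
    rw [List.getD_eq_getElem _ _ h2]
  have := hn _ (List.getElem_mem h2)
  omega

/-- indices at least `m'` are read as `C_j` -/
private def XG2_rho (m' : ℕ) (pe : Edge) : Edge :=
  if pe.1.1 = 1 ∧ m' ≤ pe.1.2.getD 1 0 then ((4, [pe.1.2.getD 0 0]), pe.2) else pe

private theorem XG2_rho_snd (pe : Edge) : (XG2_rho m' pe).2 = pe.2 := by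
  unfold XG2_rho
  split <;> rfl

private theorem XG2_rho_vis {pe : Edge} (hv : VisL m m' pe.1) : XG2_rho m' pe = pe := by
  unfold XG2_rho
  rw [if_neg]
  rintro ⟨h1, h2⟩
  rcases hv with ⟨j, -, h3 | h3 | h3⟩ | ⟨j, i, -, hi, h3⟩ | h3
  · rw [h3] at h1; simp at h1
  · rw [h3] at h1; simp at h1
  · rw [h3] at h1; simp at h1
  · rw [h3] at h2
    simp at h2
    omega
  · rw [h3] at h1; simp at h1

private theorem XG2_rho_hid {pe : Edge} {j i : ℕ} (hp : pe.1 = (1, [j, i])) (hi : m' ≤ i) :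
    XG2_rho m' pe = ((4, [j]), pe.2) := by
  unfold XG2_rho
  rw [if_pos]
  · rw [hp]; rfl
  · rw [hp]
    exact ⟨rfl, by simpa using hi⟩

private theorem XG2_new (S : Sit G m m' t₀ i₀ Y Y' W h p q pat β ω r s) {pe e : Edge}
    (he : e ∈ XN G s q pat (β.map h)) (hl : XL G s q pat (β.map h) pe.1 e) :
    XL G s q pat (β.map h) (XG2_rho m' pe).1 e ∧ VisL m m' (XG2_rho m' pe).1 := by
  rcases new_lab' S he hl with hv | ⟨j, i, x, y, c, h1, hj, hi, h2, h3, -⟩
  · rw [XG2_rho_vis hv]
    exact ⟨hl, hv⟩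
  · rw [XG2_rho_hid h1 hi]
    exact ⟨h3, Or.inl ⟨j, hj, Or.inr (Or.inr rfl)⟩⟩

/-- everything inside `Y'` + new vertices, and one member new or all edges new: relabel the indices `≥ m'` to `C_j`
(the edges of all members have this label: a new edge by `new_lab'`; if the member `ν₀` is new and the edge of `ν` is
old, the pair of the edge of `ν₀` is old (else the index is `≥ r`, but the edge of `ν` is inside `Y'`, inside `V_r`,
so its index is `< r`), so it is in the base and is the pair of the edge of `ν`), transfer, `nviol_lim` -/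
theorem fin_contra (S : Sit G m m' t₀ i₀ Y Y' W h p q pat β ω r s) {p' q' : ℕ} {pat' : List Edge} {β₁ : List ℕ}
    {νs : List (List ℕ)} (hc : Code p' q' pat') (ho : Over (XL G s q pat (β.map h)) p' q' pat' β₁ νs)
    (hl : νs.length = mu p' q' + 1) (hb : ∀ v ∈ β₁, Ins Y' (nn G s) q v)
    (hν : ∀ ν ∈ νs, ∀ v ∈ ν, Ins Y' (nn G s) q v)
    (hN : (∃ ν₀ ∈ νs, ∀ v ∈ ν₀, nn G s ≤ v) ∨
      ∀ ν ∈ νs, ∀ e, ImgE (XL G s q pat (β.map h)) pat' β₁ ν e → e ∈ XN G s q pat (β.map h)) : False := by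
  classical
  obtain ⟨hβ, ho1, ho2⟩ := ho
  have hrs : r ≤ s := S.late.1
  have hne : ∃ ν, ν ∈ νs := by
    cases νs with
    | nil => simp at hl
    | cons a l => exact ⟨a, by simp⟩
  have key : ∀ pe ∈ pat', (∀ ν ∈ νs, ∀ e, XL G s q pat (β.map h) pe.1 e → e.2 = inst (β₁ ++ ν) pe.2 →
      XL G s q pat (β.map h) (XG2_rho m' pe).1 e) ∧ VisL m m' (XG2_rho m' pe).1 := by
    intro pe hpe
    rcases hN with ⟨ν₀, hν₀, hnew⟩ | hN
    · obtain ⟨hlen₀, hr0⟩ := ho1 ν₀ hν₀
      obtain ⟨-, es₀, -, hF₀⟩ := id hr0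
      obtain ⟨e₀, he₀, ht₀⟩ := XG2_left hF₀ pe hpe
      have he₀N : e₀ ∈ XN G s q pat (β.map h) := by
        obtain ⟨v, hv, hv2⟩ := (img_sub hc hβ hlen₀ ⟨pe, hpe, he₀, ht₀⟩).2
        exact (xn_iff S he₀.1).1.2 ⟨v, hv, hnew v hv2⟩
      refine ⟨?_, (XG2_new S he₀N he₀).2⟩
      intro ν hνm e he ht
      have hmem : e ∈ DD G s ++ XN G s q pat (β.map h) := he.1
      rcases List.mem_append.1 hmem with heD | heN
      swap
      · exact (XG2_new S heN he).1
      rcases new_lab' S he₀N he₀ with hv | ⟨j, i, x, y, c, h1, hj, hi, h2, h3, h4⟩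
      · rw [XG2_rho_vis hv]
        exact he
      · rw [XG2_rho_hid h1 hi]
        -- the edge `e` is inside `Y'`
        have heY : ∀ v ∈ e.2, v < nn G r := by
          intro v hv
          have h5 := (img_sub hc hβ (ho1 ν hνm).1 ⟨pe, hpe, he, ht⟩).1 v hv
          have h6 : Ins Y' (nn G s) q v := by
            rcases h5 with h5 | h5
            · exact hb v h5
            · exact hν ν hνm v h5
          rcases h6 with h6 | h6
          · exact S.yr v h6
          · have := sit_old S e heD v hv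
            omega
        have he1 : e.1 = (1, [j, i]) := by
          rcases he.2 with h5 | h5 | ⟨j', r', x', y', c', h5, -⟩
          · rw [h5.2, h1]
          · rw [h1] at h5
            simp at h5
          · rw [h1] at h5
            simp at h5
        have hir : i < r := by
          have h5 := appear hrs (mem_DD.1 heD).1 heY
          obtain ⟨-, -, h6⟩ := shape r e h5
          rw [he1] at h6
          rcases h6 with ⟨j', h6, -⟩ | ⟨j', i', h6, h7, -⟩ | ⟨j', h6, -⟩ | ⟨t, -, h6, -⟩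
          · simp at h6
          · simp only [Prod.mk.injEq, List.cons.injEq, and_true, true_and] at h6
            omega
          · simp at h6
          · simp at h6
        rcases h4 with ⟨-, h5, -⟩ | ⟨hx, hy, a, ha, haF, haD, hav, hia⟩
        · omega
        · rw [h2] at ht₀
          simp only at ht₀
          have hlen3 : pe.2.length = 3 := by
            have := congrArg List.length ht₀
            simp [inst] at this
            exact this.symm
          obtain ⟨k₁, k₂, k₃, hk⟩ : ∃ k₁ k₂ k₃, pe.2 = [k₁, k₂, k₃] := by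
            match hm : pe.2, hlen3 with
            | [k₁, k₂, k₃], _ => exact ⟨k₁, k₂, k₃, rfl⟩
          rw [hk] at ht₀ ht
          simp only [inst, List.map_cons, List.map_nil, List.cons.injEq, and_true] at ht₀ ht
          obtain ⟨hx0, hy0, hc0⟩ := ht₀
          have hbase := sit_base S
          have hxs : x < nn G s := lt_of_lt_of_le (hbase.2.2.2.1 x hx) hbase.2.2.2.2.1
          have hys : y < nn G s := lt_of_lt_of_le (hbase.2.2.2.1 y hy) hbase.2.2.2.2.1
          have hk1 : k₁ < p' := XG2_old hβ hlen₀ (hc.lt pe hpe k₁ (by rw [hk]; simp)) hnew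
            (by rw [← hx0]; exact hxs)
          have hk2 : k₂ < p' := XG2_old hβ hlen₀ (hc.lt pe hpe k₂ (by rw [hk]; simp)) hnew
            (by rw [← hy0]; exact hys)
          have hg : ∀ k < p', ∀ μ : List ℕ, (β₁ ++ μ).getD k 0 = β₁.getD k 0 := by
            intro k hk μ
            rw [List.getD_append]
            omega
          rw [hg k₁ hk1] at hx0 ht
          rw [hg k₂ hk2] at hy0 ht
          rw [← hx0, ← hy0] at ht
          refine ⟨hmem, Or.inr (Or.inr ⟨j, a, x, y, (β₁ ++ ν).getD k₃ 0, rfl, ?_, ?_, hav⟩)⟩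
          · rw [← hia]
            exact Prod.ext he1 ht
          · exact List.mem_append_left _ haD
    · obtain ⟨ν₁, hν₁⟩ := hne
      obtain ⟨hlen₁, hr1⟩ := ho1 ν₁ hν₁
      obtain ⟨-, es₁, -, hF₁⟩ := id hr1
      obtain ⟨e₁, he₁, ht₁⟩ := XG2_left hF₁ pe hpe
      refine ⟨?_, (XG2_new S (hN ν₁ hν₁ e₁ ⟨pe, hpe, he₁, ht₁⟩) he₁).2⟩
      intro ν hνm e he ht
      exact (XG2_new S (hN ν hνm e ⟨pe, hpe, he, ht⟩) he).1
  have hsnd : (pat'.map (XG2_rho m')).map Prod.snd = pat'.map Prod.snd := by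
    rw [List.map_map]
    apply List.map_congr_left
    intro pe _
    exact XG2_rho_snd pe
  have hcode : Code p' q' (pat'.map (XG2_rho m')) := XG2_code hsnd hc
  have hover : Over (XL G s q pat (β.map h)) p' q' (pat'.map (XG2_rho m')) β₁ νs := by
    refine ⟨hβ, ?_, ho2⟩
    intro ν hνm
    obtain ⟨hlen, hnd, es, hes, hF⟩ := ho1 ν hνm
    refine ⟨hlen, hnd, es, hes, ?_⟩
    refine XG2_f2 hF ?_
    rintro pe hpe e ⟨h1, h2⟩
    refine ⟨(key pe hpe).1 ν hνm e h1 h2, ?_⟩
    rw [XG2_rho_snd]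
    exact h2
  have htr := transfer S hcode hover (fun pe hpe => by
    obtain ⟨pe', hpe', rfl⟩ := List.mem_map.1 hpe
    exact (key pe' hpe').2) hb hν
  exact nviol_lim ⟨p', q', _, _, _, hcode, htr, by rw [List.length_map]; exact hl⟩

end FdZ
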