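import Pool.Agent.Lib.MP_fd2900_lc.Z.XE2

/-! new members -/

namespace FdZ

variable {G : Guide} {m m' t₀ : ℕ} {i₀ : ℕ → ℕ} {Y Y' W : Finset ℕ} {h : ℕ → ℕ} {p q : ℕ}
  {pat : List Edge} {β ω : List ℕ} {r s : ℕ}

/-- every index is in an entry -/
private theorem XH0_cover {p' q' : ℕ} {pat' : List Edge} (hc : Code p' q' pat') {k : ℕ} (hk : k < p' + q') :
    ∃ e ∈ pat', k ∈ e.2 := by
  classical
  by_cases hkp : k < p'
  · exact hc.base k hkp
  push Not at hkp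
  by_contra hcon
  push Not at hcon
  have hne : pat' ≠ [] := by
    intro h0
    have h1 := hc.len
    rw [h0] at h1
    have h2 := hc.qpos
    simp at h1
    omega
  obtain ⟨e₀, he₀⟩ := List.exists_mem_of_ne_nil _ hne
  obtain ⟨k₀, hk₀, hk₀p⟩ := hc.new e₀ he₀
  have hk₀lt := hc.lt e₀ he₀ k₀ hk₀
  have hk₀k : k₀ ≠ k := fun h1 => hcon e₀ he₀ (h1 ▸ hk₀)
  have hsub : (Finset.Ico p' (p' + q')).erase k ⊂ Finset.Ico p' (p' + q') :=
    Finset.erase_ssubset (Finset.mem_Ico.2 ⟨hkp, hk⟩)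
  have hnon : ((Finset.Ico p' (p' + q')).erase k).Nonempty :=
    ⟨k₀, Finset.mem_erase.2 ⟨hk₀k, Finset.mem_Ico.2 ⟨hk₀p, hk₀lt⟩⟩⟩
  have hmin := hc.min _ hnon hsub
  have hcnt : cnt p' pat' ((Finset.Ico p' (p' + q')).erase k) = pat'.length := by
    rw [cnt, List.filter_eq_self.2]
    intro e he
    rw [decide_eq_true_eq]
    have key : ∀ x ∈ e.2, p' ≤ x → x ∈ (Finset.Ico p' (p' + q')).erase k := fun x hx hpx =>
      Finset.mem_erase.2 ⟨fun h1 => hcon e he (h1 ▸ hx), Finset.mem_Ico.2 ⟨hpx, hc.lt e he x hx⟩⟩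
    refine ⟨fun x hx => ?_, ?_⟩
    · by_cases hxp : x < p'
      · exact Or.inl hxp
      · exact Or.inr (key x hx (by omega))
    · obtain ⟨x, hx, hpx⟩ := hc.new e he
      exact ⟨x, hx, key x hx hpx⟩
  rw [hcnt, hc.len, Finset.card_erase_of_mem (Finset.mem_Ico.2 ⟨hkp, hk⟩), Nat.card_Ico] at hmin
  omega

/-- an entry of a realization has an edge -/
private theorem XH0_edge {lb : Lb → Edge → Prop} {pat' : List Edge} {β₁ ν : List ℕ}
    (hr : Real lb pat' β₁ ν) {pe : Edge} (hpe : pe ∈ pat') :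
    ∃ e, lb pe.1 e ∧ e.2 = inst (β₁ ++ ν) pe.2 := by
  obtain ⟨_, es', _, hf⟩ := hr
  obtain ⟨i, hi, rfl⟩ := List.getElem_of_mem hpe
  have hl := hf.length_eq
  have := hf.get hi (hl ▸ hi)
  exact ⟨_, this⟩

/-- every point of a realization is in an edge -/
private theorem XH0_point {lb : Lb → Edge → Prop} {p' q' : ℕ} {pat' : List Edge} {β₁ ν : List ℕ}
    (hc : Code p' q' pat') (hβ : β₁.length = p') (hν : ν.length = q') (hr : Real lb pat' β₁ ν) {v : ℕ}
    (hv : v ∈ β₁ ∨ v ∈ ν) : ∃ pe ∈ pat', ∃ e, lb pe.1 e ∧ e.2 = inst (β₁ ++ ν) pe.2 ∧ v ∈ e.2 := by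
  have hv' : v ∈ β₁ ++ ν := List.mem_append.2 hv
  obtain ⟨k, hk, rfl⟩ := List.getElem_of_mem hv'
  have hk2 : k < p' + q' := by
    rw [List.length_append, hβ, hν] at hk
    exact hk
  obtain ⟨pe, hpe, hkpe⟩ := XH0_cover hc hk2
  obtain ⟨e, he1, he2⟩ := XH0_edge hr hpe
  refine ⟨pe, hpe, e, he1, he2, ?_⟩
  rw [he2, inst, List.mem_map]
  exact ⟨k, hkpe, by rw [List.getD_eq_getElem _ _ hk]⟩

/-- all points of a realization are `< n + q` (every point is in an entry: `Code.min` for all new points but one, or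
`q' = 1`; the edges are in `DD G s` or in `XN`) -/
theorem real_lt (S : Sit G m m' t₀ i₀ Y Y' W h p q pat β ω r s) {p' q' : ℕ} {pat' : List Edge} {β₁ ν : List ℕ}
    (hc : Code p' q' pat') (hβ : β₁.length = p') (hν : ν.length = q')
    (hr : Real (XL G s q pat (β.map h)) pat' β₁ ν) : ∀ v, v ∈ β₁ ∨ v ∈ ν → v < nn G s + q := by
  intro v hv
  obtain ⟨pe, hpe, e, he1, he2, hve⟩ := XH0_point hc hβ hν hr hv
  have he : e ∈ DD G s ++ XN G s q pat (β.map h) := he1.1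
  obtain ⟨h1, h2, h3⟩ := xn_iff S he
  rcases List.mem_append.1 he with he' | he'
  · have := h2.1 he' v hve
    omega
  · rcases h3 he' v hve with h4 | h4
    · obtain ⟨_, _, _, h5, h6, _⟩ := sit_base S
      have := h5 v h4
      omega
    · exact h4.2

/-- the member `ν₀` is new: its base is inside `β'` + new vertices and it is inside the new vertices -/
theorem new_in (S : Sit G m m' t₀ i₀ Y Y' W h p q pat β ω r s) {p' q' : ℕ} {pat' : List Edge} {β₁ ν₀ : List ℕ}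
    (hc : Code p' q' pat') (hβ : β₁.length = p') (h0 : ν₀.length = q')
    (hr0 : Real (XL G s q pat (β.map h)) pat' β₁ ν₀) (hn : ∀ v ∈ ν₀, nn G s ≤ v) :
    (∀ v ∈ β₁, v ∈ β.map h ∨ (nn G s ≤ v ∧ v < nn G s + q)) ∧ (∀ v ∈ ν₀, v < nn G s + q) ∧ q' ≤ q ∧
      ∀ e, ImgE (XL G s q pat (β.map h)) pat' β₁ ν₀ e → e ∈ XN G s q pat (β.map h) := by
  have hlt := real_lt S hc hβ h0 hr0
  have hnu : ∀ v ∈ ν₀, v < nn G s + q := fun v hv => hlt v (Or.inr hv)
  have himg : ∀ e, ImgE (XL G s q pat (β.map h)) pat' β₁ ν₀ e → e ∈ XN G s q pat (β.map h) := by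
    rintro e ⟨pe, hpe, he1, he2⟩
    have he : e ∈ DD G s ++ XN G s q pat (β.map h) := he1.1
    obtain ⟨h1, h2, h3⟩ := xn_iff S he
    rw [h1]
    obtain ⟨k, hk, hkp⟩ := hc.new pe hpe
    have hk2 := hc.lt pe hpe k hk
    have hk3 : k < (β₁ ++ ν₀).length := by
      rw [List.length_append, hβ, h0]
      exact hk2
    have hk4 : k - β₁.length < ν₀.length := by omega
    refine ⟨ν₀[k - β₁.length], ?_, hn _ (List.getElem_mem hk4)⟩
    rw [he2, inst, List.mem_map]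
    refine ⟨k, hk, ?_⟩
    rw [List.getD_eq_getElem _ _ hk3, List.getElem_append_right (by omega)]
  refine ⟨fun v hv => ?_, hnu, ?_, himg⟩
  · obtain ⟨pe, hpe, e, he1, he2, hve⟩ := XH0_point hc hβ h0 hr0 (Or.inl hv)
    have he : e ∈ DD G s ++ XN G s q pat (β.map h) := he1.1
    exact (xn_iff S he).2.2 (himg e ⟨pe, hpe, he1, he2⟩) v hve
  · have hnd : ν₀.Nodup := (List.nodup_append.1 hr0.1).2.1
    have hsub : ν₀.toFinset ⊆ Finset.Ico (nn G s) (nn G s + q) := by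
      intro v hv
      rw [List.mem_toFinset] at hv
      exact Finset.mem_Ico.2 ⟨hn v hv, hnu v hv⟩
    have hcard := Finset.card_le_card hsub
    rw [List.toFinset_card_of_nodup hnd, h0, Nat.card_Ico] at hcard
    omega

end FdZ
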