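import Pool.Agent.Lib.MP_fd2900_lc.Z.XH0

/-! conversion of old edges to visible edges -/

namespace FdZ

variable {G : Guide} {m m' t₀ : ℕ} {i₀ : ℕ → ℕ} {Y Y' W : Finset ℕ} {h : ℕ → ℕ} {p q : ℕ}
  {pat : List Edge} {β ω : List ℕ} {r s : ℕ}

private theorem XH1_fa {α γ : Type} {R : α → γ → Prop} {l : List α} {l' : List γ}
    (h : List.Forall₂ R l l') : ∀ a ∈ l, ∃ e ∈ l', R a e := by
  induction h with
  | nil => intro e he; exact absurd he (List.not_mem_nil)
  | @cons a b l l' hab _ ih =>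
    intro e he
    rcases List.mem_cons.1 he with rfl | he
    · exact ⟨b, List.mem_cons_self, hab⟩
    · obtain ⟨e', h1, h2⟩ := ih e he
      exact ⟨e', List.mem_cons_of_mem _ h1, h2⟩

/-- an edge of `ν` inside `V_r` stands for a visible edge -/
theorem conv (S : Sit G m m' t₀ i₀ Y Y' W h p q pat β ω r s) {p' q' : ℕ} {pat' : List Edge} {β₁ ν₀ ν : List ℕ}
    (hc : Code p' q' pat') (hβ : β₁.length = p') (h0 : ν₀.length = q') (hν : ν.length = q')
    (hr0 : Real (XL G s q pat (β.map h)) pat' β₁ ν₀) (hn : ∀ v ∈ ν₀, nn G s ≤ v)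
    {e : Edge} (he : ImgE (XL G s q pat (β.map h)) pat' β₁ ν e) (hv : ∀ v ∈ e.2, v < nn G r) :
    ∃ e₀, VF G m m' e₀ e := by
  obtain ⟨pe, hpe, hl, hidx⟩ := he
  have hfl : flab G pe.1 e := (old_lab S hv).1 hl
  by_cases hvis : VisL m m' pe.1
  · exact vf_of_flab hvis hfl
  -- the edge of the new member
  obtain ⟨-, es', -, hfa⟩ := hr0
  obtain ⟨e', -, hl', hidx'⟩ := XH1_fa hfa pe hpe
  -- it has a new vertex
  obtain ⟨k, hk, hkp⟩ := hc.new pe hpe
  have hkq := hc.lt pe hpe k hk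
  have hnewv : ∀ k, p' ≤ k → k < p' + q' → nn G s ≤ (β₁ ++ ν₀).getD k 0 := by
    intro k h1 h2
    rw [getD_new (by omega), hβ]
    exact hn _ (getD_mem (by omega))
  have hk' : (β₁ ++ ν₀).getD k 0 ∈ e'.2 := by
    rw [hidx', inst_mem]
    exact ⟨k, hk, rfl⟩
  have heE : e' ∈ DD G s ++ XN G s q pat (β.map h) := hl'.1
  have hXN : e' ∈ XN G s q pat (β.map h) :=
    (xn_iff S heE).1.2 ⟨_, hk', hnewv k hkp hkq⟩
  rcases new_lab' S hXN hl' with h1 | ⟨j, i, x, y, c, hℓ, hj, hi, he', -, hcase⟩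
  · exact absurd h1 hvis
  -- the kind of `e`
  have hek : e.1 = (1, [j, i]) := by
    rcases hfl.2 with ⟨-, h2⟩ | ⟨h2, -⟩ | ⟨j', r', x', y', c', h2, -⟩
    · rw [h2, hℓ]
    · rw [hℓ] at h2
      exact absurd (congrArg Prod.fst h2) (by norm_num)
    · rw [hℓ] at h2
      exact absurd (congrArg Prod.fst h2) (by norm_num)
  rcases hcase with ⟨-, hri, -, -, -⟩ | ⟨hx, hy, a, ha, hF, -, -, hia⟩
  · -- the index is fresh: `e` would have a vertex `≥ nn G r`
    exfalso
    obtain ⟨-, -, h2⟩ := shape r e (fe_at hfl.1 hv le_rfl).1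
    rcases h2 with ⟨j', h3, -⟩ | ⟨j', i', h3, h4, -⟩ | ⟨j', h3, -⟩ | ⟨t, -, h3, -⟩
    · rw [hek] at h3
      exact absurd (congrArg Prod.fst h3) (by norm_num)
    · rw [hek] at h3
      have h5 := congrArg Prod.snd h3
      simp only [List.cons.injEq, and_true] at h5
      omega
    · rw [hek] at h3
      exact absurd (congrArg Prod.fst h3) (by norm_num)
    · rw [hek] at h3
      exact absurd (congrArg Prod.fst h3) (by norm_num)
  · -- the pair is in the base
    have hb := sit_base S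
    have hold : ∀ v ∈ β.map h, v < nn G s := fun v hv => lt_of_lt_of_le (hb.2.2.2.1 v hv) hb.2.2.2.2.1
    have hxyc : [x, y, c] = inst (β₁ ++ ν₀) pe.2 := by rw [← hidx', he']
    unfold inst at hxyc
    obtain ⟨k₁, l₁, hp1, hk1, h6⟩ : ∃ k₁ l₁, pe.2 = k₁ :: l₁ ∧ x = (β₁ ++ ν₀).getD k₁ 0 ∧
        [y, c] = l₁.map fun k => (β₁ ++ ν₀).getD k 0 := by
      cases hq : pe.2 with
      | nil => rw [hq] at hxyc; exact absurd hxyc (by simp)
      | cons k₁ l₁ =>
        rw [hq, List.map_cons, List.cons.injEq] at hxyc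
        exact ⟨k₁, l₁, rfl, hxyc.1, hxyc.2⟩
    obtain ⟨k₂, l₂, hp2, hk2, h7⟩ : ∃ k₂ l₂, l₁ = k₂ :: l₂ ∧ y = (β₁ ++ ν₀).getD k₂ 0 ∧
        [c] = l₂.map fun k => (β₁ ++ ν₀).getD k 0 := by
      cases hq : l₁ with
      | nil => rw [hq] at h6; exact absurd h6 (by simp)
      | cons k₂ l₂ =>
        rw [hq, List.map_cons, List.cons.injEq] at h6
        exact ⟨k₂, l₂, rfl, h6.1, h6.2⟩
    obtain ⟨k₃, hp3⟩ : ∃ k₃, l₂ = [k₃] := by
      have h8 : l₂.length = 1 := by
        have h9 := congrArg List.length h7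
        rw [List.length_map] at h9
        exact h9.symm
      exact List.length_eq_one_iff.1 h8
    have hpe2 : pe.2 = [k₁, k₂, k₃] := by rw [hp1, hp2, hp3]
    have hk1p : k₁ < p' := by
      by_contra hcon
      have h8 := hnewv k₁ (by omega) (hc.lt pe hpe k₁ (by rw [hpe2]; simp))
      have h9 := hold x hx
      omega
    have hk2p : k₂ < p' := by
      by_contra hcon
      have h8 := hnewv k₂ (by omega) (hc.lt pe hpe k₂ (by rw [hpe2]; simp))
      have h9 := hold y hy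
      omega
    have hx2 : (β₁ ++ ν).getD k₁ 0 = x := by
      rw [hk1, getD_base (by omega), getD_base (by omega)]
    have hy2 : (β₁ ++ ν).getD k₂ 0 = y := by
      rw [hk2, getD_base (by omega), getD_base (by omega)]
    have he2 : e.2 = [x, y, (β₁ ++ ν).getD k₃ 0] := by
      rw [hidx, hpe2]
      unfold inst
      rw [List.map_cons, List.map_cons, List.map_cons, List.map_nil, hx2, hy2]
    have hee : e = ((1, [j, G.io j a]), [x, y, (β₁ ++ ν).getD k₃ 0]) := by
      rw [← hia]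
      exact Prod.ext hek he2
    have hma : m' ≤ G.io j a := by rw [← hia]; exact hi
    refine ⟨((4, [j]), [x, y, (β₁ ++ ν).getD k₃ 0]), ?_, hfl.1, ?_⟩
    · exact Or.inr (Or.inr (Or.inr (Or.inr ⟨j, a, x, y, _, hj, rfl, ha, hF, hma, by
        rw [← hee]; exact hfl.1⟩)))
    · exact Or.inr (Or.inr ⟨j, a, x, y, _, rfl, hee, ha, hF, hma⟩)

end FdZ
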