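import Pool.Agent.Lib.MP_fd2900_lc.Z.XH1

/-! counting against strongness -/

namespace FdZ

variable {G : Guide} {m m' t₀ : ℕ} {i₀ : ℕ → ℕ} {Y Y' W : Finset ℕ} {h : ℕ → ℕ} {p q : ℕ}
  {pat : List Edge} {β ω : List ℕ} {r s : ℕ}

private theorem XH2_lab {io : ℕ → ℕ → ℕ} {E E' : Set Edge} {V : ℕ → Prop} {ℓ : Lb} {e : Edge}
    (hl : lab io E V ℓ e) (he : e ∈ E') : ∃ ℓ', lab io E' (fun _ => True) ℓ' e := by
  obtain ⟨-, h1 | ⟨-, a, h1, -⟩ | ⟨j, a, x, y, c, -, h1, -, -⟩⟩ := hl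
  · exact ⟨ℓ, he, Or.inl h1⟩
  · exact ⟨(3, []), he, Or.inr (Or.inl ⟨rfl, a, h1, trivial⟩)⟩
  · refine ⟨(1, [j, io j a]), he, Or.inl ⟨?_, ?_⟩⟩
    · show (1 : ℕ) ≤ 2
      omega
    · rw [h1]

/-- COUNT against strongness of `Y'`: a set `Q` of old vertices outside `Y'` and more than `|Q|` edges of `ν` inside
`Y' ∪ Q` that meet `Q`: impossible. (At most `|Q - V_r|` of them meet `Q - V_r` by `strongV`, the others are inside
`V_r`; `conv` makes them visible.) -/
theorem no_out (S : Sit G m m' t₀ i₀ Y Y' W h p q pat β ω r s) {p' q' : ℕ} {pat' : List Edge} {β₁ ν₀ ν : List ℕ}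
    (hc : Code p' q' pat') (hβ : β₁.length = p') (h0 : ν₀.length = q') (hν : ν.length = q')
    (hr0 : Real (XL G s q pat (β.map h)) pat' β₁ ν₀) (hn : ∀ v ∈ ν₀, nn G s ≤ v)
    (Q : Finset ℕ) (hQ : ∀ v ∈ Q, v ∉ Y' ∧ v < nn G s) (hQq : Q.card ≤ q) (L : Finset Edge)
    (hL : ∀ e ∈ L, ImgE (XL G s q pat (β.map h)) pat' β₁ ν e ∧ (∀ v ∈ e.2, v ∈ Y' ∨ v ∈ Q) ∧ ∃ v ∈ e.2, v ∈ Q) :
    L.card ≤ Q.card := by
  classical
  have hrs : nn G r ≤ nn G s := (sit_base S).2.2.2.2.1
  have hQ2 : (L.filter fun e => ∃ v ∈ e.2, v ∈ Q.filter fun v => nn G r ≤ v).card ≤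
      (Q.filter fun v => nn G r ≤ v).card := by
    refine strongV (G := G) (r := r) (s := s) S.late.1 (fun _ => True) _ (Q.filter fun v => nn G r ≤ v)
      le_rfl ?_ _ ?_
    · intro v hv
      have := (Finset.mem_filter.1 hv).2
      simpa using this
    · intro e he
      rw [Finset.mem_filter] at he
      obtain ⟨⟨pe, hpe, hlab, -⟩, h2, -⟩ := hL e he.1
      have hmem : e ∈ DD G s ++ XN G s q pat (β.map h) := hlab.1
      have hold : ∀ v ∈ e.2, v < nn G s := by
        intro v hv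
        rcases h2 v hv with h3 | h3
        · exact (S.yr v h3).trans_le hrs
        · exact (hQ v h3).2
      have hDD : e ∈ DD G s := ((xn_iff S hmem).2.1).2 hold
      have hEE : e ∈ es (EE G s) := by
        have h4 : e ∈ EE G s := by
          unfold DD del at hDD
          exact List.mem_of_mem_filter hDD
        exact h4
      refine ⟨XH2_lab hlab hEE, fun v hv => ?_, ?_⟩
      · by_cases h5 : v < nn G r
        · exact Or.inl h5
        · refine Or.inr ?_
          rcases h2 v hv with h3 | h3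
          · exact absurd (S.yr v h3) h5
          · exact Finset.mem_coe.2 (Finset.mem_filter.2 ⟨h3, not_lt.1 h5⟩)
      · obtain ⟨v, hv, hv'⟩ := he.2
        exact ⟨v, hv, Finset.mem_coe.2 hv'⟩
  have hQ1 : (L.filter fun e => ¬ ∃ v ∈ e.2, v ∈ Q.filter fun v => nn G r ≤ v).card ≤
      (Q.filter fun v => ¬ nn G r ≤ v).card := by
    have hlt : ∀ e ∈ L.filter fun e => ¬ ∃ v ∈ e.2, v ∈ Q.filter fun v => nn G r ≤ v,
        ∀ v ∈ e.2, v < nn G r ∧ (v ∈ Y' ∨ v ∈ Q.filter fun v => ¬ nn G r ≤ v) := by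
      intro e he v hv
      rw [Finset.mem_filter] at he
      rcases (hL e he.1).2.1 v hv with h3 | h3
      · exact ⟨S.yr v h3, Or.inl h3⟩
      · have h4 : ¬ nn G r ≤ v := fun h5 => he.2 ⟨v, hv, Finset.mem_filter.2 ⟨h3, h5⟩⟩
        exact ⟨not_le.1 h4, Or.inr (Finset.mem_filter.2 ⟨h3, h4⟩)⟩
    have hex : ∀ e ∈ L.filter fun e => ¬ ∃ v ∈ e.2, v ∈ Q.filter fun v => nn G r ≤ v,
        ∃ e₀, VF G m m' e₀ e := by
      intro e he
      exact conv S hc hβ h0 hν hr0 hn (hL e (Finset.mem_filter.1 he).1).1 fun v hv => (hlt e he v hv).1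
    choose! g hg using hex
    have hinj : Set.InjOn g (L.filter fun e => ¬ ∃ v ∈ e.2, v ∈ Q.filter fun v => nn G r ≤ v :
        Finset Edge) := by
      intro e he e' he' h5
      have h6 := hg e (Finset.mem_coe.1 he)
      have h7 := hg e' (Finset.mem_coe.1 he')
      rw [h5] at h6
      exact vf_fun h6 h7
    rw [← Finset.card_image_of_injOn hinj]
    refine S.str (Q.filter fun v => ¬ nn G r ≤ v) ((Finset.card_filter_le _ _).trans hQq) ?_ _ ?_
    · intro v hv
      exact (hQ v (Finset.mem_filter.1 hv).1).1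
    · intro e₀ he₀
      obtain ⟨e, he, rfl⟩ := Finset.mem_image.1 he₀
      have h6 := hg e he
      have h7 := vf_flab h6
      refine ⟨⟨(g e).1, h6.1, rfl⟩, ?_, ?_⟩
      · intro v hv
        rw [← h7.2.1] at hv
        rcases (hlt e he v hv).2 with h8 | h8
        · exact Or.inl h8
        · exact Or.inr h8
      · obtain ⟨v, hv, hv'⟩ := (hL e (Finset.mem_filter.1 he).1).2.2
        refine ⟨v, ?_, ?_⟩
        · rw [← h7.2.1]
          exact hv
        · exact Finset.mem_coe.2 (Finset.mem_filter.2 ⟨hv', not_le.2 (hlt e he v hv).1⟩)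
  have h8 := Finset.card_filter_add_card_filter_not (s := L)
    (fun e => ∃ v ∈ e.2, v ∈ Q.filter fun v => nn G r ≤ v)
  have h9 := Finset.card_filter_add_card_filter_not (s := Q) (fun v => nn G r ≤ v)
  omega

end FdZ
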