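import Pool.Agent.Lib.MP_fd2900_lc.Z.XH2

/-! containment, base with a new vertex -/

namespace FdZ

variable {G : Guide} {m m' t₀ : ℕ} {i₀ : ℕ → ℕ} {Y Y' W : Finset ℕ} {h : ℕ → ℕ} {p q : ℕ}
  {pat : List Edge} {β ω : List ℕ} {r s : ℕ}

/-- Case B: base with a new vertex. If `ν` has points outside `Y'` + new vertices, let `Q` be the set of these points
(all old). If no point of `ν` is in `Y'` + new: all edges of `ν` are old, but a base vertex is new (`base_edge`).
Otherwise `out_edges` with `X` = `Y'` + new. -/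
theorem contB (S : Sit G m m' t₀ i₀ Y Y' W h p q pat β ω r s) {p' q' : ℕ} {pat' : List Edge} {β₁ ν₀ ν : List ℕ}
    (hc : Code p' q' pat') (hβ : β₁.length = p') (h0 : ν₀.length = q') (hν : ν.length = q')
    (hr0 : Real (XL G s q pat (β.map h)) pat' β₁ ν₀) (hn : ∀ v ∈ ν₀, nn G s ≤ v)
    (hr : Real (XL G s q pat (β.map h)) pat' β₁ ν) (hb : ∃ v ∈ β₁, nn G s ≤ v) :
    ∀ v ∈ ν, Ins Y' (nn G s) q v := by
  classical
  obtain ⟨hb1, _, hqq, _⟩ := new_in S hc hβ h0 hr0 hn
  obtain ⟨_, _, hbY, _, _, _⟩ := sit_base S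
  have hlt := real_lt S hc hβ hν hr
  have hmem : ∀ e, ImgE (XL G s q pat (β.map h)) pat' β₁ ν e → e ∈ DD G s ++ XN G s q pat (β.map h) := by
    rintro e ⟨pe, _, hl, _⟩
    exact hl.1
  have hXN : ∀ e, ImgE (XL G s q pat (β.map h)) pat' β₁ ν e → e ∈ XN G s q pat (β.map h) →
      ∀ v ∈ e.2, Ins Y' (nn G s) q v := by
    intro e he hx v hv
    rcases (xn_iff S (hmem e he)).2.2 hx v hv with h1 | h1
    · exact Or.inl (hbY v h1)
    · exact Or.inr h1
  by_contra hcon
  have hout : ∃ v ∈ ν, v ∉ {v | Ins Y' (nn G s) q v} := by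
    by_contra h1
    exact hcon fun v hv => by
      by_contra h2
      exact h1 ⟨v, hv, h2⟩
  have hold : ∀ v ∈ ν, ¬ Ins Y' (nn G s) q v → v ∉ Y' ∧ v < nn G s := by
    intro v hv h1
    refine ⟨fun h2 => h1 (Or.inl h2), ?_⟩
    by_contra h2
    exact h1 (Or.inr ⟨Nat.le_of_not_lt h2, hlt v (Or.inr hv)⟩)
  by_cases hin : ∃ v ∈ ν, v ∈ {v | Ins Y' (nn G s) q v}
  · obtain ⟨L, hL1, hL2⟩ := out_edges hc hβ hν hr {v | Ins Y' (nn G s) q v} hin hout
    have hle := no_out S hc hβ h0 hν hr0 hn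
      (ν.toFinset.filter fun v => v ∉ {v | Ins Y' (nn G s) q v}) ?_ ?_ L ?_
    · exact absurd hL1 (Nat.not_lt.2 hle)
    · intro v hv
      rw [Finset.mem_filter, List.mem_toFinset] at hv
      exact hold v hv.1 hv.2
    · refine (Finset.card_filter_le _ _).trans ((List.toFinset_card_le ν).trans ?_)
      omega
    · intro e he
      obtain ⟨h1, v, hv1, hv2, hv3⟩ := hL2 e he
      have hD : e ∈ DD G s := by
        rcases List.mem_append.1 (hmem e h1) with h2 | h2
        · exact h2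
        · exact absurd (hXN e h1 h2 v hv1) hv3
      have hlt' := ((xn_iff S (hmem e h1)).2.1).1 hD
      refine ⟨h1, fun w hw => ?_, v, hv1, ?_⟩
      · rcases (img_sub hc hβ hν h1).1 w hw with h2 | h2
        · rcases hb1 w h2 with h3 | h3
          · exact Or.inl (hbY w h3)
          · exact absurd (hlt' w hw) (Nat.not_lt.2 h3.1)
        · by_cases h3 : Ins Y' (nn G s) q w
          · rcases h3 with h3 | h3
            · exact Or.inl h3
            · exact absurd (hlt' w hw) (Nat.not_lt.2 h3.1)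
          · exact Or.inr (Finset.mem_filter.2 ⟨List.mem_toFinset.2 h2, h3⟩)
      · exact Finset.mem_filter.2 ⟨List.mem_toFinset.2 hv2, hv3⟩
  · obtain ⟨b, hb2, hb3⟩ := hb
    obtain ⟨e, he1, he2⟩ := base_edge hc hβ hr hb2
    have hx : e ∈ XN G s q pat (β.map h) := ((xn_iff S (hmem e he1)).1).2 ⟨b, he2, hb3⟩
    obtain ⟨v, hv1, hv2⟩ := (img_sub hc hβ hν he1).2
    exact hin ⟨v, hv2, hXN e he1 hx v hv1⟩

end FdZ
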