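import Pool.Agent.Lib.MP_fd2900_lc.Z.XH2

/-! containment, base old, V(t0) is met -/

namespace FdZ

variable {G : Guide} {m m' t₀ : ℕ} {i₀ : ℕ → ℕ} {Y Y' W : Finset ℕ} {h : ℕ → ℕ} {p q : ℕ}
  {pat : List Edge} {β ω : List ℕ} {r s : ℕ}

/-- Case A, first part: base old, `ν` meets `V_{t₀}`: then it is inside `V_r` (`dich`, `strongV`), and inside `Y'` by
`out_edges` and `no_out` -/
theorem contA1 (S : Sit G m m' t₀ i₀ Y Y' W h p q pat β ω r s) {p' q' : ℕ} {pat' : List Edge} {β₁ ν₀ ν : List ℕ}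
    (hc : Code p' q' pat') (hβ : β₁.length = p') (h0 : ν₀.length = q') (hν : ν.length = q')
    (hr0 : Real (XL G s q pat (β.map h)) pat' β₁ ν₀) (hn : ∀ v ∈ ν₀, nn G s ≤ v)
    (hr : Real (XL G s q pat (β.map h)) pat' β₁ ν) (hb : ∀ v ∈ β₁, v < nn G s)
    (ht : ∃ v ∈ ν, v < nn G t₀) : ∀ v ∈ ν, v ∈ Y' := by
  classical
  obtain ⟨hnb, -, hqq, -⟩ := new_in S hc hβ h0 hr0 hn
  obtain ⟨-, -, hbY, -, hrs, htY⟩ := sit_base S
  have hb1 : ∀ v ∈ β₁, v ∈ Y' := by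
    intro v hv
    rcases hnb v hv with h1 | h1
    · exact hbY v h1
    · have h2 := hb v hv
      omega
  have hts : nn G t₀ ≤ nn G s := (nn_mono S.tr).trans hrs
  have hstr : Strong (XL G s q pat (β.map h)) (Set.Iio (nn G s)) q' :=
    pre_strong (sit_old S) (sit_pre S) (vw G.le s) q'
  obtain ⟨w, hw, hwt⟩ := ht
  have hold : ∀ v ∈ ν, v < nn G s := by
    rcases dich hstr le_rfl hc hβ hν hr (fun v hv => hb v hv) with h1 | h1
    · exact fun v hv => h1 v hv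
    · exact absurd (lt_of_lt_of_le hwt hts) (h1 w hw)
  by_contra hcon
  have h2 : ∃ v ∈ ν, v ∉ (Y' : Set ℕ) := by
    by_contra h3
    refine hcon fun v hv => ?_
    by_contra hvY
    exact h3 ⟨v, hv, fun h4 => hvY (Finset.mem_coe.1 h4)⟩
  have h1 : ∃ v ∈ ν, v ∈ (Y' : Set ℕ) := ⟨w, hw, Finset.mem_coe.2 (htY (Finset.mem_range.2 hwt))⟩
  obtain ⟨L, hL1, hL2⟩ := out_edges hc hβ hν hr (Y' : Set ℕ) h1 h2
  have hL3 : (ν.toFinset.filter (fun v => v ∉ Y')).card < L.card := by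
    refine lt_of_le_of_lt (Finset.card_le_card fun v hv => ?_) hL1
    simp only [Finset.mem_filter, Finset.mem_coe] at hv ⊢
    exact hv
  refine absurd hL3 (not_lt.2 (no_out S hc hβ h0 hν hr0 hn _
    (fun v hv => ⟨(Finset.mem_filter.1 hv).2,
      hold v (List.mem_toFinset.1 (Finset.mem_filter.1 hv).1)⟩) ?_ L ?_))
  · refine (Finset.card_filter_le _ _).trans ((List.toFinset_card_le ν).trans ?_)
    omega
  · intro e he
    obtain ⟨hi, v, hv, hvν, hvY⟩ := hL2 e he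
    refine ⟨hi, fun u hu => ?_, v, hv, Finset.mem_filter.2 ⟨List.mem_toFinset.2 hvν,
      fun h4 => hvY (Finset.mem_coe.2 h4)⟩⟩
    rcases (img_sub hc hβ hν hi).1 u hu with hβu | hνu
    · exact Or.inl (hb1 u hβu)
    · by_cases huY : u ∈ Y'
      · exact Or.inl huY
      · exact Or.inr (Finset.mem_filter.2 ⟨List.mem_toFinset.2 hνu, huY⟩)

end FdZ
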