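import Pool.Agent.Lib.MP_fd2900_lc.Z.XH0

/-! base old: the new member -/

namespace FdZ

variable {G : Guide} {m m' t₀ : ℕ} {i₀ : ℕ → ℕ} {Y Y' W : Finset ℕ} {h : ℕ → ℕ} {p q : ℕ}
  {pat : List Edge} {β ω : List ℕ} {r s : ℕ}

private theorem XI1_f2 {α γ : Type*} {R : α → γ → Prop} {l : List α} {l' : List γ}
    (h : List.Forall₂ R l l') : ∀ e ∈ l', ∃ a ∈ l, R a e := by
  induction h with
  | nil => intro e he; simp at he
  | cons h1 _ ih =>
    intro e he
    rcases List.mem_cons.1 he with rfl | he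
    · exact ⟨_, List.mem_cons_self, h1⟩
    · obtain ⟨a, ha, hR⟩ := ih e he
      exact ⟨a, List.mem_cons_of_mem _ ha, hR⟩

/-- base old: `ν₀` is all new vertices, `q' = q`, all new edges are used, the base is `β'` as a set -/
theorem caseA_all (S : Sit G m m' t₀ i₀ Y Y' W h p q pat β ω r s) {p' q' : ℕ} {pat' : List Edge} {β₁ ν₀ : List ℕ}
    (hc : Code p' q' pat') (hβ : β₁.length = p') (h0 : ν₀.length = q')
    (hr0 : Real (XL G s q pat (β.map h)) pat' β₁ ν₀) (hn : ∀ v ∈ ν₀, nn G s ≤ v) (hb : ∀ v ∈ β₁, v < nn G s) :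
    q' = q ∧ (∀ v, nn G s ≤ v → v < nn G s + q → v ∈ ν₀) ∧ (∀ v, v ∈ β₁ ↔ v ∈ β.map h) ∧
      ∀ pe ∈ pat, ImgE (XL G s q pat (β.map h)) pat' β₁ ν₀ (XM G s q (β.map h) pe) := by
  obtain ⟨h1, h2, h3, h4⟩ := new_in S hc hβ h0 hr0 hn
  obtain ⟨hnd, L, hLnd, hf⟩ := hr0
  have himg := XI1_f2 hf
  have hlen : L.length = q' := by rw [← hf.length_eq, hc.len]
  have hν : ν₀.Nodup := (List.nodup_append.1 hnd).2.1
  have hk : ∀ k, k < p' + q' → (β₁ ++ ν₀).getD k 0 ∈ β₁ ++ ν₀ := fun k hk =>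
    getD_mem (by rw [List.length_append, hβ, h0]; exact hk)
  have hne : (ν₀.toFinset).Nonempty := by
    rw [← Finset.card_pos, List.toFinset_card_of_nodup hν, h0]
    exact hc.qpos
  have hfull := pre_full (le := G.le) (io := G.io) (sit_old S) (sit_pre S) ν₀.toFinset
    (fun v hv => ⟨hn v (List.mem_toFinset.1 hv), h2 v (List.mem_toFinset.1 hv)⟩) hne L.toFinset
    (fun e he => by
      obtain ⟨pe, hpe, hl, he2⟩ := himg e (List.mem_toFinset.1 he)
      refine ⟨List.mem_append_right _ (h4 e ⟨pe, hpe, hl, he2⟩), fun v hv => ?_, ?_⟩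
      · rw [he2, inst, List.mem_map] at hv
        obtain ⟨k, hk', rfl⟩ := hv
        rcases List.mem_append.1 (hk k (hc.lt pe hpe k hk')) with h5 | h5
        · exact Or.inl (hb _ h5)
        · exact Or.inr (List.mem_toFinset.2 h5)
      · obtain ⟨k, hk', hpk⟩ := hc.new pe hpe
        refine ⟨(β₁ ++ ν₀).getD k 0, ?_, ?_⟩
        · rw [he2, inst, List.mem_map]
          exact ⟨k, hk', rfl⟩
        · rw [getD_new (by rw [hβ]; exact hpk)]
          have h5 := hc.lt pe hpe k hk'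
          exact List.mem_toFinset.2 (getD_mem (by rw [hβ, h0]; omega)))
    (by rw [List.toFinset_card_of_nodup hν, List.toFinset_card_of_nodup hLnd, h0, hlen])
  obtain ⟨hf1, hf2⟩ := hfull
  have hall : ∀ v, nn G s ≤ v → v < nn G s + q → v ∈ ν₀ := fun v hv hv' =>
    List.mem_toFinset.1 (hf1 v hv hv')
  have hq : q ≤ q' := by
    have h5 : (Finset.Ico (nn G s) (nn G s + q)).card ≤ ν₀.toFinset.card :=
      Finset.card_le_card fun v hv => hf1 v (Finset.mem_Ico.1 hv).1 (Finset.mem_Ico.1 hv).2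
    rw [Nat.card_Ico, List.toFinset_card_of_nodup hν, h0] at h5
    omega
  have himgX : ∀ pe ∈ pat, ImgE (XL G s q pat (β.map h)) pat' β₁ ν₀ (XM G s q (β.map h) pe) := by
    intro pe hpe
    have h5 : XM G s q (β.map h) pe ∈ L :=
      List.mem_toFinset.1 (hf2 _ (mem_xn.2 ⟨pe, hpe, rfl⟩))
    obtain ⟨pe', hpe', hl, he2⟩ := himg _ h5
    exact ⟨pe', hpe', hl, he2⟩
  have hbase := sit_base S
  refine ⟨le_antisymm h3 hq, hall, fun v => ⟨fun hv => ?_, fun hv => ?_⟩, himgX⟩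
  · rcases h1 v hv with h5 | h5
    · exact h5
    · exact absurd (hb v hv) (not_lt.2 h5.1)
  · obtain ⟨k, hk', rfl⟩ := List.mem_iff_getElem.1 hv
    have hkp : k < p := by rw [← hbase.1]; exact hk'
    obtain ⟨pe, hpe, hkpe⟩ := S.code.base k hkp
    obtain ⟨pe', hpe', -, he2⟩ := himgX pe hpe
    have h6 := (xm_cases S hpe).1
    have h7 : (XS G s q (β.map h)).getD k 0 ∈ (XM G s q (β.map h) pe).2 := by
      rw [h6, inst, List.mem_map]
      exact ⟨k, hkpe, rfl⟩
    have h8 : (XS G s q (β.map h)).getD k 0 = (β.map h)[k] := by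
      rw [XS, getD_base hk', List.getD_eq_getElem _ _ hk']
    rw [he2, inst, List.mem_map] at h7
    obtain ⟨k', hk'', h9⟩ := h7
    have h10 := hk k' (hc.lt pe' hpe' k' hk'')
    rw [h9, h8] at h10
    rcases List.mem_append.1 h10 with h11 | h11
    · exact h11
    · have h12 := hbase.2.2.2.1 _ hv
      have h13 := hbase.2.2.2.2.1
      exact absurd (hn _ h11) (not_le.2 (lt_of_lt_of_le h12 h13))

end FdZ
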