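import Pool.Agent.Lib.MP_fd2900_lc.Z.XB

/-! the map from the new member to another member -/

namespace FdZ

variable {G : Guide} {m m' t₀ : ℕ} {i₀ : ℕ → ℕ} {Y Y' W : Finset ℕ} {h : ℕ → ℕ} {p q : ℕ}
  {pat : List Edge} {β ω : List ℕ} {r s : ℕ}

private theorem XI2_idx {l : List ℕ} (hl : l.Nodup) {k : ℕ} (hk : k < l.length) :
    l.idxOf (l.getD k 0) = k := by
  have h1 : l.getD k 0 ∈ l := getD_mem hk
  have h2 : l.idxOf (l.getD k 0) < l.length := List.idxOf_lt_length_of_mem h1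
  refine getD_inj hl h2 hk ?_
  rw [List.getD_eq_getElem _ _ h2]
  exact List.getElem_idxOf h2

private theorem XI2_getD {l : List ℕ} {v : ℕ} (hv : v ∈ l) : l.getD (l.idxOf v) 0 = v := by
  have h2 : l.idxOf v < l.length := List.idxOf_lt_length_of_mem hv
  rw [List.getD_eq_getElem _ _ h2]
  exact List.getElem_idxOf h2

/-- the map `φ` from base + new vertices to base + `ν`: identity on the base, `ν₀` to `ν` -/
theorem caseA_phi {p' q' : ℕ} {pat' : List Edge} {β₁ ν₀ ν : List ℕ} {lb : Lb → Edge → Prop}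
    (hc : Code p' q' pat') (hβ : β₁.length = p') (h0 : ν₀.length = q') (hν : ν.length = q')
    (hr0 : Real lb pat' β₁ ν₀) (hr : Real lb pat' β₁ ν) :
    ∃ φ : ℕ → ℕ, (∀ v ∈ β₁, φ v = v) ∧ (∀ v ∈ ν₀, φ v ∈ ν) ∧ (∀ v ∈ ν, ∃ w ∈ ν₀, φ w = v) ∧
      (∀ v w, (v ∈ β₁ ∨ v ∈ ν₀) → (w ∈ β₁ ∨ w ∈ ν₀) → φ v = φ w → v = w) ∧
      ∀ pe ∈ pat', inst (β₁ ++ ν) pe.2 = (inst (β₁ ++ ν₀) pe.2).map φ := by
  classical
  obtain ⟨hn0, hn0', hd0⟩ := List.nodup_append.1 hr0.1
  obtain ⟨hn1, hn1', hd1⟩ := List.nodup_append.1 hr.1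
  set φ : ℕ → ℕ := fun v => if v ∈ ν₀ then ν.getD (ν₀.idxOf v) 0 else v with hφ
  have f1 : ∀ v ∈ β₁, φ v = v := by
    intro v hv
    have : v ∉ ν₀ := fun h1 => hd0 v hv v h1 rfl
    simp [hφ, this]
  have f2' : ∀ v ∈ ν₀, φ v = ν.getD (ν₀.idxOf v) 0 := by
    intro v hv
    simp [hφ, hv]
  have hlt : ∀ v ∈ ν₀, ν₀.idxOf v < ν.length := by
    intro v hv
    rw [hν, ← h0]
    exact List.idxOf_lt_length_of_mem hv
  have f2 : ∀ v ∈ ν₀, φ v ∈ ν := by
    intro v hv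
    rw [f2' v hv]
    exact getD_mem (hlt v hv)
  refine ⟨φ, f1, f2, ?_, ?_, ?_⟩
  · intro v hv
    have hk : ν.idxOf v < ν₀.length := by
      rw [h0, ← hν]
      exact List.idxOf_lt_length_of_mem hv
    refine ⟨ν₀.getD (ν.idxOf v) 0, getD_mem hk, ?_⟩
    rw [f2' _ (getD_mem hk), XI2_idx hn0' hk]
    exact XI2_getD hv
  · intro v w hv hw hvw
    rcases hv with hv | hv <;> rcases hw with hw | hw
    · rw [f1 v hv, f1 w hw] at hvw
      exact hvw
    · rw [f1 v hv] at hvw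
      exact absurd hvw (hd1 v hv (φ w) (f2 w hw))
    · rw [f1 w hw] at hvw
      exact absurd hvw.symm (hd1 w hw (φ v) (f2 v hv))
    · rw [f2' v hv, f2' w hw] at hvw
      have := getD_inj hn1' (hlt v hv) (hlt w hw) hvw
      rw [← XI2_getD hv, ← XI2_getD hw, this]
  · intro pe hpe
    unfold inst
    rw [List.map_map]
    apply List.map_congr_left
    intro k hk
    have hkl := hc.lt pe hpe k hk
    simp only [Function.comp]
    rcases Nat.lt_or_ge k p' with h1 | h1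
    · rw [getD_base (by omega), getD_base (by omega)]
      exact (f1 _ (getD_mem (by omega))).symm
    · rw [getD_new (by omega), getD_new (by omega)]
      have hk' : k - β₁.length < ν₀.length := by omega
      rw [f2' _ (getD_mem hk'), XI2_idx hn0' hk']

end FdZ
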