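import Pool.Agent.Lib.MP_fd2900_lc.Z.XI1
import Pool.Agent.Lib.MP_fd2900_lc.Z.XI2

/-! base old: the edges of another member -/

namespace FdZ

variable {G : Guide} {m m' t₀ : ℕ} {i₀ : ℕ → ℕ} {Y Y' W : Finset ℕ} {h : ℕ → ℕ} {p q : ℕ}
  {pat : List Edge} {β ω : List ℕ} {r s : ℕ}

private theorem XI3_left {lb : Lb → Edge → Prop} {xs : List ℕ} {P es : List Edge}
    (hF : List.Forall₂ (fun pe e => lb pe.1 e ∧ e.2 = inst xs pe.2) P es) :
    ∀ pe ∈ P, ∃ e, lb pe.1 e ∧ e.2 = inst xs pe.2 := by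
  induction hF with
  | nil => intro pe h; exact absurd h List.not_mem_nil
  | cons h _ ih =>
    intro pe hpe
    rcases List.mem_cons.1 hpe with rfl | hpe
    · exact ⟨_, h⟩
    · exact ih pe hpe

/-- every entry of the code: its new edge `XM pe` is the edge of `ν₀` for an entry `pe'` of `pat'`, the edge `e₁` of
`ν` for `pe'` has the same label `pe'.1`, the tuple moved by `φ`, and is final (`pre_real_old`, `real_final`) -/
theorem caseA_edge (S : Sit G m m' t₀ i₀ Y Y' W h p q pat β ω r s) {p' q' : ℕ} {pat' : List Edge}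
    {β₁ ν₀ ν : List ℕ} (hc : Code p' q' pat') (hβ : β₁.length = p') (h0 : ν₀.length = q') (hν : ν.length = q')
    (hr0 : Real (XL G s q pat (β.map h)) pat' β₁ ν₀) (hn : ∀ v ∈ ν₀, nn G s ≤ v)
    (hr : Real (XL G s q pat (β.map h)) pat' β₁ ν) (hb : ∀ v ∈ β₁, v < nn G s)
    (ho : ∀ v ∈ ν, v < nn G s) {φ : ℕ → ℕ}
    (h3 : ∀ pe ∈ pat', inst (β₁ ++ ν) pe.2 = (inst (β₁ ++ ν₀) pe.2).map φ) {pe : Edge} (hpe : pe ∈ pat) :
    ∃ ℓ e₁, XL G s q pat (β.map h) ℓ (XM G s q (β.map h) pe) ∧ XL G s q pat (β.map h) ℓ e₁ ∧ e₁ ∈ FE G ∧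
      e₁ ∈ DD G s ∧ e₁.2 = (inst (XS G s q (β.map h)) pe.2).map φ ∧ flab G ℓ e₁ := by
  obtain ⟨-, -, hbase, hall⟩ := caseA_all S hc hβ h0 hr0 hn hb
  obtain ⟨-, -, -, hbr, -, -⟩ := sit_base S
  obtain ⟨pe', hpe', hl0, ht0⟩ := hall pe hpe
  obtain ⟨-, es₁, -, hF⟩ := id hr
  obtain ⟨e₁, hl1, ht1⟩ := XI3_left hF pe' hpe'
  have himg : ImgE (XL G s q pat (β.map h)) pat' β₁ ν e₁ := ⟨pe', hpe', hl1, ht1⟩
  have hold : ∀ v ∈ e₁.2, v < nn G s := by
    intro v hv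
    rcases (img_sub hc hβ hν himg).1 v hv with h5 | h5
    · exact hb v h5
    · exact ho v h5
  have hmem : e₁ ∈ DD G s ++ XN G s q pat (β.map h) := hl1.1
  have hDD : e₁ ∈ DD G s := (xn_iff S hmem).2.1.2 hold
  have hl2 : lab G.io (es (DD G s)) (vw G.le s) pe'.1 e₁ :=
    (pre_lab_old (sit_old S) (sit_pre S) hold).1 hl1
  have hreal : Real (lab G.io (es (DD G s)) (vw G.le s)) pat' β₁ ν :=
    pre_real_old (sit_old S) (sit_pre S) hc hβ hν hr hb ho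
  have hFE : e₁ ∈ FE G := real_final S.late le_rfl S.tps hc hβ hν hreal
    (fun v hv => hbr v ((hbase v).1 hv)) e₁ ⟨pe', hpe', hl2, ht1⟩
  refine ⟨pe'.1, e₁, hl0, hl1, hFE, hDD, ?_, (lab_iff S.tps (mem_DD.1 hDD).1 hFE _).1 hl2⟩
  rw [ht1, h3 pe' hpe', ← ht0, (xm_cases S hpe).1]

/-- the `F` entries with a new index: the pair of `ν` has a true node `a ≥ t₀`, seen at stage `s` -/
theorem caseA_F (S : Sit G m m' t₀ i₀ Y Y' W h p q pat β ω r s) {p' q' : ℕ} {pat' : List Edge}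
    {β₁ ν₀ ν : List ℕ} (hc : Code p' q' pat') (hβ : β₁.length = p') (h0 : ν₀.length = q') (hν : ν.length = q')
    (hr0 : Real (XL G s q pat (β.map h)) pat' β₁ ν₀) (hn : ∀ v ∈ ν₀, nn G s ≤ v)
    (hr : Real (XL G s q pat (β.map h)) pat' β₁ ν) (hb : ∀ v ∈ β₁, v < nn G s)
    (ho : ∀ v ∈ ν, v < nn G s) (ht : ∀ v ∈ ν, nn G t₀ ≤ v)
    {φ : ℕ → ℕ} (h1 : ∀ v ∈ β₁, φ v = v) (h2 : ∀ v ∈ ν₀, φ v ∈ ν)
    (h3 : ∀ pe ∈ pat', inst (β₁ ++ ν) pe.2 = (inst (β₁ ++ ν₀) pe.2).map φ) {k₁ k₂ : ℕ}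
    (hpe : ((3, []), [k₁, k₂]) ∈ pat) :
    ∃ a, G.TP a ∧ G.le a s = true ∧ t₀ ≤ a ∧
      ((3, [a]), [φ ((XS G s q (β.map h)).getD k₁ 0), φ ((XS G s q (β.map h)).getD k₂ 0)]) ∈ FE G ∧
      (∀ i, (∀ v ∈ ν, nn G i ≤ v) → i ≤ a) := by
  obtain ⟨-, hnew, -, -⟩ := caseA_all S hc hβ h0 hr0 hn hb
  obtain ⟨ℓ, e₁, hl0, hl1, hFE, hDD, htup, hfl⟩ :=
    caseA_edge S hc hβ h0 hν hr0 hn hr hb ho h3 hpe
  have hkind : (XM G s q (β.map h) ((3, []), [k₁, k₂])).1 = (3, [s]) := by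
    rcases (xm_cases S hpe).2 with ⟨⟨j, -, h5⟩, -⟩ | ⟨⟨j, i, -, -, h5⟩, -⟩ | ⟨⟨j, -, h5⟩, -⟩ | ⟨-, h6⟩ |
      ⟨j, a, b, c, -, h5, -⟩
    · exact absurd (congrArg Prod.fst h5) (by norm_num)
    · exact absurd (congrArg Prod.fst h5) (by norm_num)
    · exact absurd (congrArg Prod.fst h5) (by norm_num)
    · exact h6
    · exact absurd (congrArg (fun e : Edge => e.1.1) h5) (by norm_num)
  have hℓ : ℓ = (3, []) := by
    rcases hl0.2 with ⟨h5, h6⟩ | ⟨h5, -⟩ | ⟨j, r', x, y, c, -, h6, -⟩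
    · exfalso
      rw [hkind] at h6
      rw [← h6] at h5
      simp at h5
    · exact h5
    · exfalso
      rw [h6] at hkind
      exact absurd (congrArg Prod.fst hkind) (by norm_num)
  subst hℓ
  obtain ⟨a, ha1, ha2⟩ : ∃ a, e₁.1 = (3, [a]) ∧ G.TP a := by
    rcases hfl.2 with ⟨h5, -⟩ | ⟨-, h6⟩ | ⟨j, r', x, y, c, h5, -⟩
    · exact absurd h5 (by norm_num)
    · exact h6
    · exact absurd (congrArg Prod.fst h5) (by norm_num)
  obtain ⟨a', ha1', ha2'⟩ : ∃ a, e₁.1 = (3, [a]) ∧ vw G.le s a := by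
    rcases hl1.2 with ⟨h5, -⟩ | ⟨-, h6⟩ | ⟨j, r', x, y, c, h5, -⟩
    · exact absurd h5 (by norm_num)
    · exact h6
    · exact absurd (congrArg Prod.fst h5) (by norm_num)
  have haa : a' = a := by
    rw [ha1] at ha1'
    simp only [Prod.mk.injEq, List.cons.injEq, and_true, true_and] at ha1'
    exact ha1'.symm
  subst haa
  have hlt : ∀ v ∈ e₁.2, v < nn G (a' + 1) := by
    obtain ⟨-, -, h5⟩ := shape s e₁ (mem_DD.1 hDD).1
    rcases h5 with ⟨j, h5, -⟩ | ⟨j, i, h5, -⟩ | ⟨j, h5, -⟩ | ⟨t, -, h5, -, -, h6⟩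
    · rw [ha1] at h5
      exact absurd (congrArg Prod.fst h5) (by norm_num)
    · rw [ha1] at h5
      exact absurd (congrArg Prod.fst h5) (by norm_num)
    · rw [ha1] at h5
      exact absurd (congrArg Prod.fst h5) (by norm_num)
    · have h7 : t = a' := by
        rw [ha1] at h5
        simp only [Prod.mk.injEq, List.cons.injEq, and_true, true_and] at h5
        exact h5.symm
      subst h7
      exact h6
  obtain ⟨k, hk, hpk⟩ := S.code.new _ hpe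
  have hkq : k < p + q := S.code.lt _ hpe k hk
  obtain ⟨-, hg, -, -⟩ := xs_getD S hkq
  have hg' := hg hpk
  have hin0 : (XS G s q (β.map h)).getD k 0 ∈ ν₀ := by
    apply hnew
    · rw [hg']
      omega
    · rw [hg']
      omega
  have hin : φ ((XS G s q (β.map h)).getD k 0) ∈ ν := h2 _ hin0
  have hine : φ ((XS G s q (β.map h)).getD k 0) ∈ e₁.2 := by
    rw [htup]
    exact List.mem_map_of_mem (inst_mem.2 ⟨k, hk, rfl⟩)
  have hfin : ∀ i, (∀ v ∈ ν, nn G i ≤ v) → i ≤ a' := by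
    intro i hi
    by_contra hcon
    have h5 := hi _ hin
    have h6 := hlt _ hine
    have h7 : nn G (a' + 1) ≤ nn G i := nn_mono (by omega)
    omega
  refine ⟨a', ha2, ha2', hfin t₀ ht, ?_, hfin⟩
  have h5 : e₁ = ((3, [a']), [φ ((XS G s q (β.map h)).getD k₁ 0), φ ((XS G s q (β.map h)).getD k₂ 0)]) := by
    apply Prod.ext
    · exact ha1
    · rw [htup]
      rfl
  rw [← h5]
  exact hFE

/-- an edge of `ν` with index `i ≤ s` of its label `G_{j,i}`, `i ≥ r`: `ν` is outside `V_i`. (Otherwise by `dich`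
(`strongV`, base `< nn r ≤ nn i`) `ν` is inside `V_i`, the edge is in `EE G i` by `appear`, its index is `< i` by
`shape`.) -/
theorem caseA_fresh (S : Sit G m m' t₀ i₀ Y Y' W h p q pat β ω r s) {p' q' : ℕ} {pat' : List Edge}
    {β₁ ν : List ℕ} (hc : Code p' q' pat') (hβ : β₁.length = p') (hν : ν.length = q')
    (hr : Real (XL G s q pat (β.map h)) pat' β₁ ν) (hb : ∀ v ∈ β₁, v < nn G r)
    (ho : ∀ v ∈ ν, v < nn G s) {i j : ℕ} {t : List ℕ} (hi : r ≤ i) (his : i ≤ s)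
    (he : ((1, [j, i]), t) ∈ DD G s) (hv : ∀ v ∈ t, v ∈ β₁ ∨ v ∈ ν) : ∀ v ∈ ν, nn G i ≤ v := by
  obtain ⟨-, -, -, -, hrs, -⟩ := sit_base S
  have hreal : Real (lab G.io (es (DD G s)) (vw G.le s)) pat' β₁ ν :=
    pre_real_old (sit_old S) (sit_pre S) hc hβ hν hr (fun v hv' => lt_of_lt_of_le (hb v hv') hrs) ho
  have hri : nn G r ≤ nn G i := nn_mono hi
  have hst : Strong (lab G.io (es (DD G s)) (vw G.le s)) (Set.Iio (nn G i)) q' := by
    refine strong_lab (strongV (G := G) his (vw G.le s) q') fun ℓ e h5 => ?_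
    have hE : e ∈ es (EE G s) := (mem_DD.1 h5.1).1
    rcases h5.2 with h6 | ⟨h6, r', h7, h8⟩ | ⟨j', r', x, y, c, -, h6, -⟩
    · exact ⟨ℓ, hE, Or.inl h6⟩
    · exact ⟨ℓ, hE, Or.inr (Or.inl ⟨h6, r', h7, h8⟩)⟩
    · refine ⟨e.1, hE, Or.inl ⟨?_, rfl⟩⟩
      rw [h6]
      norm_num
  rcases dich hst le_rfl hc hβ hν hreal (fun v hv' => lt_of_lt_of_le (hb v hv') hri) with h5 | h5
  · exfalso
    have hlt : ∀ v ∈ t, v < nn G i := by
      intro v hv'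
      rcases hv v hv' with h6 | h6
      · exact lt_of_lt_of_le (hb v h6) hri
      · exact h5 v h6
    have h6 : ((1, [j, i]), t) ∈ EE G i := appear his (mem_DD.1 he).1 hlt
    obtain ⟨-, -, h7⟩ := shape i _ h6
    rcases h7 with ⟨j', h7, -⟩ | ⟨j', i', h7, h8, -⟩ | ⟨j', h7, -⟩ | ⟨t', -, h7, -⟩
    · exact absurd (congrArg Prod.fst h7) (by norm_num)
    · simp only [Prod.mk.injEq, List.cons.injEq, and_true, true_and] at h7
      omega
    · exact absurd (congrArg Prod.fst h7) (by norm_num)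
    · exact absurd (congrArg Prod.fst h7) (by norm_num)
  · intro v hv'
    have h6 := h5 v hv'
    simpa using h6

end FdZ
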