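import Pool.Agent.Lib.MP_fd2900_lc.Z.XI3

/-! base old: another member carries the labels of the code -/

namespace FdZ

variable {G : Guide} {m m' t₀ : ℕ} {i₀ : ℕ → ℕ} {Y Y' W : Finset ℕ} {h : ℕ → ℕ} {p q : ℕ}
  {pat : List Edge} {β ω : List ℕ} {r s : ℕ}

/-- Case A, the edges of an old member `ν` that does not meet `V_{t₀}` carry the labels of the code: for every entry
`pe` of the code, with tuple `t = inst XS pe.2` over base + new vertices, (pe.1, t.map φ) is visible. Cases of
`xm_cases pe` and of the label `pe'.1` of the entry `pe'` of `pat'` that `ν₀` realizes by `XM pe` (`new_lab'`, the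
definition of `lab`); the edge of `ν` for `pe'` is final by `real_final`; an index `i = io j s` (fresh): the vertex set
of the edge of `ν` is not inside `V_i`, so `ν` is outside `V_i` (`dich`, `strongV`), so the stage `a` of the `F` edge of
its pair is `≥ i`, so `io j a = io j s` by `io_mono`; an entry (1,[j,i]) of the code read as `C_j` on a new pair:
`i = io j s = i₀ j`, the pair of `ν` is not inside `V_{t₀}`: `cal_pair`. -/
theorem caseA_vis (S : Sit G m m' t₀ i₀ Y Y' W h p q pat β ω r s) {p' q' : ℕ} {pat' : List Edge}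
    {β₁ ν₀ ν : List ℕ} (hc : Code p' q' pat') (hβ : β₁.length = p') (h0 : ν₀.length = q') (hν : ν.length = q')
    (hr0 : Real (XL G s q pat (β.map h)) pat' β₁ ν₀) (hn : ∀ v ∈ ν₀, nn G s ≤ v)
    (hr : Real (XL G s q pat (β.map h)) pat' β₁ ν) (hb : ∀ v ∈ β₁, v < nn G s)
    (ho : ∀ v ∈ ν, v < nn G s) (ht : ∀ v ∈ ν, nn G t₀ ≤ v)
    {φ : ℕ → ℕ} (h1 : ∀ v ∈ β₁, φ v = v) (h2 : ∀ v ∈ ν₀, φ v ∈ ν)
    (h3 : ∀ pe ∈ pat', inst (β₁ ++ ν) pe.2 = (inst (β₁ ++ ν₀) pe.2).map φ) :
    ∀ pe ∈ pat, (pe.1, (inst (XS G s q (β.map h)) pe.2).map φ) ∈ visE G m m' := by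
  intro pe hpe
  obtain ⟨ℓ, e₁, hx, hl, hf, hd, htup, hfl⟩ := caseA_edge S hc hβ h0 hν hr0 hn hr hb ho h3 hpe
  obtain ⟨hqq, hallv, hbase, hall⟩ := caseA_all S hc hβ h0 hr0 hn hb
  obtain ⟨hx2, hcases⟩ := xm_cases S hpe
  have hbs := sit_base S
  have hrs : r ≤ s := S.late.1
  rw [← htup]
  -- the new vertices of the tuple go to `ν`
  have hmemN : XM G s q (β.map h) pe ∈ XN G s q pat (β.map h) := mem_xn.2 ⟨pe, hpe, rfl⟩
  have hxn := xn_iff S (List.mem_append_right (DD G s) hmemN)
  have hvnew : ∀ v ∈ (XM G s q (β.map h) pe).2, nn G s ≤ v → φ v ∈ ν := by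
    intro v hv hvn
    rcases hxn.2.2 hmemN v hv with h4 | h4
    · have := hbs.2.2.2.1 v h4
      have := hbs.2.2.2.2.1
      omega
    · exact h2 v (hallv v hvn h4.2)
  have hvold : ∀ v ∈ (XM G s q (β.map h) pe).2, v < nn G s → φ v = v := by
    intro v hv hvn
    rcases hxn.2.2 hmemN v hv with h4 | h4
    · exact h1 v ((hbase v).2 h4)
    · omega
  -- the same labels
  have hsame : ∀ ℓ' : Lb, ℓ'.1 ≤ 2 → (XM G s q (β.map h) pe).1 = ℓ' → ℓ'.1 ≠ 1 → e₁.1 = ℓ' := by
    intro ℓ' h4 h5 h6
    rcases hx.2 with ⟨h7, h8⟩ | ⟨h7, a, h8, -⟩ | ⟨j', a, x, y, c, h7, h8, -⟩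
    · rcases hfl.2 with ⟨h9, h10⟩ | ⟨h9, -⟩ | ⟨j', a, x, y, c, h9, -⟩
      · rw [h10, ← h8, h5]
      · rw [h9] at h7; simp at h7
      · rw [h9] at h7; simp at h7
    · rw [← h5, h8] at h4; simp at h4
    · rw [← h5, h8] at h6; simp at h6
  -- the pair of the edge of `ν`, label `C_j`
  have hpair : ∀ {a' x y c a₁ x₁ y₁ c₁ : ℕ}, (XM G s q (β.map h) pe).2 = [x, y, c] → e₁.2 = [x₁, y₁, c₁] →
      (nn G s ≤ x ∨ nn G s ≤ y) → nn G t₀ ≤ x₁ ∨ nn G t₀ ≤ y₁ := by
    intro _ x y c _ x₁ y₁ c₁ h4 h5 h6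
    rw [← hx2, h4, h5] at htup
    simp only [List.map_cons, List.map_nil, List.cons.injEq, and_true] at htup
    rw [htup.1, htup.2.1]
    rcases h6 with h6 | h6
    · exact Or.inl (ht _ (hvnew x (by rw [h4]; simp) h6))
    · exact Or.inr (ht _ (hvnew y (by rw [h4]; simp) h6))
  have hpairold : ∀ {x y c x₁ y₁ c₁ : ℕ}, (XM G s q (β.map h) pe).2 = [x, y, c] → e₁.2 = [x₁, y₁, c₁] →
      x < nn G s → y < nn G s → x₁ = x ∧ y₁ = y := by
    intro x y c x₁ y₁ c₁ h4 h5 h6 h7
    rw [← hx2, h4, h5] at htup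
    simp only [List.map_cons, List.map_nil, List.cons.injEq, and_true] at htup
    rw [htup.1, htup.2.1]
    exact ⟨hvold x (by rw [h4]; simp) h6, hvold y (by rw [h4]; simp) h7⟩
  rcases hcases with ⟨⟨j, hj, h4⟩, h5⟩ | ⟨⟨j, i, hj, hi, h4⟩, h5⟩ | ⟨⟨j, hj, h4⟩, h5⟩ | ⟨h4, h5⟩ |
    ⟨j, k₁, k₂, k₃, hj, h4, h5⟩
  · -- D
    have h6 : e₁.1 = pe.1 := hsame pe.1 (by rw [h4]; simp) h5 (by rw [h4]; simp)
    have h7 : (pe.1, e₁.2) = e₁ := Prod.ext h6.symm rfl
    rw [h7]
    exact Or.inl ⟨⟨j, hj, by rw [h6, h4]⟩, hf⟩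
  · -- G visible
    have h6 : e₁.1 = pe.1 := by
      rcases hx.2 with ⟨h7, h8⟩ | ⟨h7, a, h8, -⟩ | ⟨j', a, x, y, c, h7, h8, h9, h10⟩
      · rcases hfl.2 with ⟨h9, h10⟩ | ⟨h9, -⟩ | ⟨j', a, x, y, c, h9, -⟩
        · rw [h10, ← h8, h5]
        · rw [h9] at h7; simp at h7
        · rw [h9] at h7; simp at h7
      · rw [h5, h4] at h8; simp at h8
      · -- read as C_j
        rw [h7] at hfl
        rcases hfl.2 with ⟨h11, -⟩ | ⟨h11, -⟩ | ⟨j'', a₁, x₁, y₁, c₁, h11, h12, h13, h14⟩
        · simp at h11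
        · simp at h11
        · simp only [Prod.mk.injEq, List.cons.injEq, and_true, true_and] at h11
          subst h11
          have h8a : (XM G s q (β.map h) pe).1 = (1, [j', G.io j' a]) := by rw [h8]
          have h8b : (XM G s q (β.map h) pe).2 = [x, y, c] := by rw [h8]
          have h12b : e₁.2 = [x₁, y₁, c₁] := by rw [h12]
          rw [h5, h4] at h8a
          simp only [Prod.mk.injEq, List.cons.injEq, and_true, true_and] at h8a
          obtain ⟨hjj, hii⟩ := h8a
          subst hjj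
          rw [h12, h4]
          simp only [Prod.mk.injEq, List.cons.injEq, and_true, true_and]
          rcases List.mem_append.1 (show ((3, [a]), [x, y]) ∈ DD G s ++ XN G s q pat (β.map h) from h9)
            with h15 | h15
          · -- old pair
            have h16 := sit_old S _ h15
            have h17 := hpairold h8b h12b (h16 x (by simp)) (h16 y (by simp))
            obtain ⟨h18, h19⟩ := h17
            subst h18 h19
            have h20 : ((3, [a]), [x₁, y₁]) ∈ FE G := fe_of_ne (mem_DD.1 h15).1 (by simp)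
            rw [tp_uniq h13 h20]
            exact hii.symm
          · -- new pair
            have h16 : a = s := by
              obtain ⟨pe', hpe', h17⟩ := mem_xn.1 h15
              have h18 := (xm_cases S hpe').2
              rw [← h17] at h18
              rcases h18 with ⟨⟨j, -, h19⟩, h20⟩ | ⟨⟨j, i, -, -, h19⟩, h20⟩ | ⟨⟨j, -, h19⟩, h20⟩ | ⟨h19, h20⟩ |
                ⟨j, k₁, k₂, k₃, -, -, ⟨-, h20, -⟩ | ⟨-, -, a, -, -, -, h20, -⟩⟩
              · rw [h19] at h20; simp at h20
              · rw [h19] at h20; simp at h20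
              · rw [h19] at h20; simp at h20
              · simpa using h20
              · simp at h20
              · simp at h20
            subst h16
            have h17 : nn G a ≤ x ∨ nn G a ≤ y := by
              obtain ⟨v, hv, hv2⟩ := (xn_iff S (List.mem_append_right (DD G a) h15)).1.1 h15
              simp only [List.mem_cons, List.not_mem_nil, or_false] at hv
              rcases hv with rfl | rfl
              · exact Or.inl hv2
              · exact Or.inr hv2
            have h18 : nn G t₀ ≤ x₁ ∨ nn G t₀ ≤ y₁ := hpair (a' := 0) (a₁ := 0) h8b h12b h17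
            have h19 := cal_pair S.cal h14 h13 h18 hj
            have h20 := S.cal a (S.tr.trans hrs) S.tps j hj
            by_cases hSj : G.S j
            · rw [(h19.1 hSj).1, hii, (h20.1 hSj).1]
            · have := h20.2 hSj
              omega
    have h7 : (pe.1, e₁.2) = e₁ := Prod.ext h6.symm rfl
    rw [h7]
    exact Or.inr (Or.inl ⟨⟨j, i, hj, hi, by rw [h6, h4]⟩, hf⟩)
  · -- Gam
    have h6 : e₁.1 = pe.1 := hsame pe.1 (by rw [h4]) h5 (by rw [h4]; simp)
    have h7 : (pe.1, e₁.2) = e₁ := Prod.ext h6.symm rfl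
    rw [h7]
    exact Or.inr (Or.inr (Or.inl ⟨⟨j, hj, by rw [h6, h4]⟩, hf⟩))
  · -- F
    rcases hx.2 with ⟨h7, h8⟩ | ⟨h7, a, h8, -⟩ | ⟨j', a, x, y, c, h7, h8, -⟩
    · rw [← h8, h5] at h7; simp at h7
    · rw [h7] at hfl
      rcases hfl.2 with ⟨h9, -⟩ | ⟨-, b, h10, hb'⟩ | ⟨j', a, x, y, c, h9, -⟩
      · simp at h9
      · refine Or.inr (Or.inr (Or.inr (Or.inl ⟨h4, b, hb', ?_⟩)))
        have h11 : ((3, [b]), e₁.2) = e₁ := Prod.ext h10.symm rfl
        show ((3, [b]), e₁.2) ∈ FE G
        rw [h11]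
        exact hf
      · simp at h9
    · rw [h8] at h5; simp at h5
  · -- C
    have hpe1 : pe.1 = (4, [j]) := by rw [h4]
    have hpe2 : pe.2 = [k₁, k₂, k₃] := by rw [h4]
    rw [hpe1]
    obtain ⟨x, y, c, hxyc⟩ : ∃ x y c, (XM G s q (β.map h) pe).2 = [x, y, c] := by
      rw [hx2, hpe2]
      exact ⟨_, _, _, rfl⟩
    have hxk : x = (XS G s q (β.map h)).getD k₁ 0 ∧ y = (XS G s q (β.map h)).getD k₂ 0 := by
      rw [hx2, hpe2] at hxyc
      simp only [inst, List.map_cons, List.map_nil, List.cons.injEq, and_true] at hxyc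
      exact ⟨hxyc.1.symm, hxyc.2.1.symm⟩
    have he₁2 : e₁.2 = [φ x, φ y, φ c] := by
      rw [htup, ← hx2, hxyc]
      rfl
    have hk1 : k₁ < p + q := S.code.lt pe hpe k₁ (by rw [hpe2]; simp)
    have hk2 : k₂ < p + q := S.code.lt pe hpe k₂ (by rw [hpe2]; simp)
    -- the conclusion from an `F` edge
    have hfin : ∀ a, G.TP a → ((3, [a]), [φ x, φ y]) ∈ FE G → e₁.1 = (1, [j, G.io j a]) → m' ≤ G.io j a →
        ((4, [j]), e₁.2) ∈ visE G m m' := by
      intro a ha haF h6 h7
      refine Or.inr (Or.inr (Or.inr (Or.inr ⟨j, a, φ x, φ y, φ c, hj, ?_, ha, haF, h7, ?_⟩)))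
      · rw [he₁2]
      · have h8 : ((1, [j, G.io j a]), [φ x, φ y, φ c]) = e₁ := Prod.ext h6.symm he₁2.symm
        rw [h8]
        exact hf
    rcases h5 with ⟨hk, h5, hm, hrr, hSj, hFp⟩ | ⟨hk1', hk2', a, ha, har, haF, h5, hm⟩
    · -- new pair
      have hxy : nn G s ≤ x ∨ nn G s ≤ y := by
        rcases hk with hk | hk
        · left
          rw [hxk.1, (xs_getD S hk1).2.1 hk]
          omega
        · right
          rw [hxk.2, (xs_getD S hk2).2.1 hk]
          omega
      rcases hx.2 with ⟨h7, h8⟩ | ⟨h7, a, h8, -⟩ | ⟨j', a, x', y', c', h7, h8, -⟩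
      · -- label (1, [j, io j s])
        have he₁1 : e₁.1 = (1, [j, G.io j s]) := by
          rcases hfl.2 with ⟨h9, h10⟩ | ⟨h9, -⟩ | ⟨j', a, x, y, c, h9, -⟩
          · rw [h10, ← h8, h5]
          · rw [h9] at h7; simp at h7
          · rw [h9] at h7; simp at h7
        have hb1 : ∀ v ∈ β₁, v < nn G r := fun v hv => hbs.2.2.2.1 v ((hbase v).1 hv)
        have he₁s : ((1, [j, G.io j s]), e₁.2) ∈ DD G s := by
          have h9 : ((1, [j, G.io j s]), e₁.2) = e₁ := Prod.ext he₁1.symm rfl
          rw [h9]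
          exact hd
        have hsubv : ∀ v ∈ e₁.2, v ∈ β₁ ∨ v ∈ ν := by
          intro v hv
          rw [htup, ← hx2] at hv
          obtain ⟨w, hw, rfl⟩ := List.mem_map.1 hv
          by_cases hws : nn G s ≤ w
          · exact Or.inr (hvnew w hw hws)
          · left
            have hws' : w < nn G s := not_le.1 hws
            rw [hvold w hw hws']
            rcases hxn.2.2 hmemN w hw with h10 | h10
            · exact (hbase w).2 h10
            · omega
        have hfresh := caseA_fresh S hc hβ hν hr hb1 ho hrr (G.io_le j s) he₁s hsubv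
        obtain ⟨a, ha, hale, -, haF, hamax⟩ := caseA_F S hc hβ h0 hν hr0 hn hr hb ho ht h1 h2 h3 hFp
        have hia : G.io j s ≤ a := hamax _ hfresh
        have hio : G.io j a = G.io j s := by
          rcases G.io_mono j a s hale with h10 | h10
          · exact h10
          · omega
        rw [← hxk.1, ← hxk.2] at haF
        exact hfin a ha haF (by rw [hio]; exact he₁1) (by rw [hio]; exact hm)
      · rw [h5] at h8; simp at h8
      · -- label (4, [j])
        have hjj : j' = j := by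
          rw [h8] at h5
          simp only [Prod.mk.injEq, List.cons.injEq, and_true, true_and] at h5
          exact h5.1
        subst hjj
        rw [h7] at hfl
        rcases hfl.2 with ⟨h11, -⟩ | ⟨h11, -⟩ | ⟨j'', a₁, x₁, y₁, c₁, h11, h12, h13, h14⟩
        · simp at h11
        · simp at h11
        · simp only [Prod.mk.injEq, List.cons.injEq, and_true, true_and] at h11
          subst h11
          have h15 : [φ x, φ y, φ c] = [x₁, y₁, c₁] := by rw [← he₁2, h12]
          simp only [List.cons.injEq, and_true] at h15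
          obtain ⟨h16, h17, h18⟩ := h15
          subst h16 h17 h18
          have h19 := hpair (a' := 0) (a₁ := 0) hxyc he₁2 hxy
          have h20 := (cal_pair S.cal h14 h13 h19 hj).2 hSj
          exact hfin a₁ h14 h13 (by rw [h12]) h20
    · -- old pair
      have hx1 := (xs_getD S hk1).1 hk1'
      have hy1 := (xs_getD S hk2).1 hk2'
      have hxv : φ x = x := by
        rw [hxk.1]
        exact h1 _ ((hbase _).2 hx1.2)
      have hyv : φ y = y := by
        rw [hxk.2]
        exact h1 _ ((hbase _).2 hy1.2)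
      have hgx : (β.map h).getD k₁ 0 = x := by
        rw [hxk.1, XS, getD_base (by rw [hbs.1]; exact hk1')]
      have hgy : (β.map h).getD k₂ 0 = y := by
        rw [hxk.2, XS, getD_base (by rw [hbs.1]; exact hk2')]
      rw [hgx, hgy] at haF
      have haF' : ((3, [a]), [φ x, φ y]) ∈ FE G := by rw [hxv, hyv]; exact haF
      rcases hx.2 with ⟨h7, h8⟩ | ⟨h7, a', h8, -⟩ | ⟨j', a', x', y', c', h7, h8, -⟩
      · have he₁1 : e₁.1 = (1, [j, G.io j a]) := by
          rcases hfl.2 with ⟨h9, h10⟩ | ⟨h9, -⟩ | ⟨j', a, x, y, c, h9, -⟩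
          · rw [h10, ← h8, h5]
          · rw [h9] at h7; simp at h7
          · rw [h9] at h7; simp at h7
        exact hfin a ha haF' he₁1 hm
      · rw [h5] at h8; simp at h8
      · have hjj : j' = j := by
          rw [h8] at h5
          simp only [Prod.mk.injEq, List.cons.injEq, and_true, true_and] at h5
          exact h5.1
        subst hjj
        rw [h7] at hfl
        rcases hfl.2 with ⟨h11, -⟩ | ⟨h11, -⟩ | ⟨j'', a₁, x₁, y₁, c₁, h11, h12, h13, h14⟩
        · simp at h11
        · simp at h11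
        · simp only [Prod.mk.injEq, List.cons.injEq, and_true, true_and] at h11
          subst h11
          have h15 : [φ x, φ y, φ c] = [x₁, y₁, c₁] := by rw [← he₁2, h12]
          simp only [List.cons.injEq, and_true] at h15
          obtain ⟨h16, h17, h18⟩ := h15
          subst h16 h17 h18
          have h20 : a₁ = a := tp_uniq h13 haF'
          subst h20
          exact hfin a₁ h14 h13 (by rw [h12]) hm

end FdZ
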