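import Pool.Agent.Lib.MP_fd2900_lc.Z.XI4

/-! containment, base old, V(t0) is not met -/

namespace FdZ

variable {G : Guide} {m m' t₀ : ℕ} {i₀ : ℕ → ℕ} {Y Y' W : Finset ℕ} {h : ℕ → ℕ} {p q : ℕ}
  {pat : List Edge} {β ω : List ℕ} {r s : ℕ}

/-- Case A, second part: base old, `ν` old and disjoint from `V_{t₀}`: (List.range' n q).map φ` is a realization of the
code over `β.map h`, so it is inside `Y'` -/
theorem contA2 (S : Sit G m m' t₀ i₀ Y Y' W h p q pat β ω r s) {p' q' : ℕ} {pat' : List Edge}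
    {β₁ ν₀ ν : List ℕ} (hc : Code p' q' pat') (hβ : β₁.length = p') (h0 : ν₀.length = q') (hν : ν.length = q')
    (hr0 : Real (XL G s q pat (β.map h)) pat' β₁ ν₀) (hn : ∀ v ∈ ν₀, nn G s ≤ v)
    (hr : Real (XL G s q pat (β.map h)) pat' β₁ ν) (hb : ∀ v ∈ β₁, v < nn G s)
    (ho : ∀ v ∈ ν, v < nn G s) (ht : ∀ v ∈ ν, nn G t₀ ≤ v) : ∀ v ∈ ν, v ∈ Y' := by
  obtain ⟨φ, h1, h2, h2', hinj, h3⟩ := caseA_phi hc hβ h0 hν hr0 hr
  obtain ⟨-, hall, hbase, -⟩ := caseA_all S hc hβ h0 hr0 hn hb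
  obtain ⟨-, hlt, -, -⟩ := new_in S hc hβ h0 hr0 hn
  have hvis := caseA_vis S hc hβ h0 hν hr0 hn hr hb ho ht h1 h2 h3
  have hq : 0 < p + q := Nat.add_pos_right p S.code.qpos
  obtain ⟨-, -, hnd, hlen⟩ := xs_getD S hq
  obtain ⟨hbl, -, -, -, -, -⟩ := sit_base S
  obtain ⟨-, hpnd, -⟩ := sit_ent S
  have hmem : ∀ v, v ∈ XS G s q (β.map h) → v ∈ β₁ ∨ v ∈ ν₀ := by
    intro v hv
    rw [XS, List.mem_append, List.mem_range'_1] at hv
    rcases hv with hv | ⟨hv1, hv2⟩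
    · exact Or.inl ((hbase v).mpr hv)
    · exact Or.inr (hall v hv1 hv2)
  have hmap : β.map h ++ (List.range' (nn G s) q).map φ = (XS G s q (β.map h)).map φ := by
    rw [XS, List.map_append]
    congr 1
    symm
    calc List.map φ (β.map h) = List.map id (β.map h) :=
          List.map_congr_left fun v hv => h1 v ((hbase v).mpr hv)
      _ = β.map h := List.map_id _
  have hreal : Real (vl (visE G m m')) pat (β.map h) ((List.range' (nn G s) q).map φ) := by
    rw [real_vl S.code hbl (by simp)]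
    refine ⟨?_, hpnd, fun pe hpe => ?_⟩
    · rw [hmap]
      exact List.Nodup.map_on (fun v hv w hw he => hinj v w (hmem v hv) (hmem w hw) he) hnd
    · rw [hmap, inst_map]
      · exact hvis pe hpe
      · intro k hk
        rw [hlen]
        exact S.code.lt pe hpe k hk
  have hin := S.hno _ (by simp) hreal
  intro v hv
  obtain ⟨w, hw, rfl⟩ := h2' v hv
  apply hin
  rw [List.mem_map]
  refine ⟨w, ?_, rfl⟩
  rw [List.mem_range'_1]
  exact ⟨hn w hw, hlt w hw⟩

end FdZ
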