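import Pool.Agent.Lib.MP_fd2900_lc.Z.XH3
import Pool.Agent.Lib.MP_fd2900_lc.Z.XH4
import Pool.Agent.Lib.MP_fd2900_lc.Z.XI5

/-! containment -/

namespace FdZ

variable {G : Guide} {m m' t₀ : ℕ} {i₀ : ℕ → ℕ} {Y Y' W : Finset ℕ} {h : ℕ → ℕ} {p q : ℕ}
  {pat : List Edge} {β ω : List ℕ} {r s : ℕ}

/-- one new member: all members are inside `Y'` + new vertices (base new: `contB`; base old: members equal to or
disjoint from `ν₀`; the others are old (`dich` with `pre_strong`), then `contA1`, `contA2`: if some point is `< nn t₀`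
use `contA1`, otherwise `contA2`) -/
theorem cont_all (S : Sit G m m' t₀ i₀ Y Y' W h p q pat β ω r s) {p' q' : ℕ} {pat' : List Edge} {β₁ : List ℕ}
    {νs : List (List ℕ)} (hc : Code p' q' pat') (ho : Over (XL G s q pat (β.map h)) p' q' pat' β₁ νs)
    {ν₀ : List ℕ} (h0 : ν₀ ∈ νs) (hn : ∀ v ∈ ν₀, nn G s ≤ v) : ∀ ν ∈ νs, ∀ v ∈ ν, Ins Y' (nn G s) q v := by
  intro ν hν
  obtain ⟨hβ, hmem, -⟩ := ho
  obtain ⟨hl, hr⟩ := hmem ν hν
  obtain ⟨hl0, hr0⟩ := hmem ν₀ h0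
  by_cases hb : ∃ v ∈ β₁, nn G s ≤ v
  · exact contB S hc hβ hl0 hl hr0 hn hr hb
  · have hb' : ∀ v ∈ β₁, v < nn G s := by
      intro v hv
      by_contra hlt
      exact hb ⟨v, hv, not_lt.1 hlt⟩
    have hstr : Strong (XL G s q pat (β.map h)) (Set.Iio (nn G s)) q' :=
      pre_strong (sit_old S) (sit_pre S) _ q'
    rcases dich hstr le_rfl hc hβ hl hr (fun v hv => hb' v hv) with hin | hout
    · have hin' : ∀ v ∈ ν, v < nn G s := fun v hv => hin v hv
      by_cases ht : ∃ v ∈ ν, v < nn G t₀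
      · exact fun v hv => Or.inl (contA1 S hc hβ hl0 hl hr0 hn hr hb' ht v hv)
      · refine fun v hv => Or.inl (contA2 S hc hβ hl0 hl hr0 hn hr hb' hin' (fun w hw => ?_) v hv)
        by_contra hlt
        exact ht ⟨w, hw, not_le.1 hlt⟩
    · intro v hv
      refine Or.inr ⟨?_, real_lt S hc hβ hl hr v (Or.inr hv)⟩
      have h1 := hout v hv
      exact not_lt.1 h1

end FdZ
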