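import Pool.Agent.Lib.MP_fd2900_lc.Z.XH0

/-! one new point, base with a new vertex -/

namespace FdZ

variable {G : Guide} {m m' t₀ : ℕ} {i₀ : ℕ → ℕ} {Y Y' W : Finset ℕ} {h : ℕ → ℕ} {p q : ℕ}
  {pat : List Edge} {β ω : List ℕ} {r s : ℕ}

private theorem XJ2_mem {p' : ℕ} {pat' : List Edge} {β₁ ν : List ℕ} (hc : Code p' 1 pat')
    (hβ : β₁.length = p') (hν : ν.length = 1) {pe : Edge} (hpe : pe ∈ pat') {v : ℕ}
    (hv : v ∈ β₁ ∨ v ∈ ν) : v ∈ inst (β₁ ++ ν) pe.2 := by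
  have huniq : ∀ pe' ∈ pat', pe' = pe := by
    obtain ⟨a, ha⟩ := List.length_eq_one_iff.1 hc.len
    intro pe' hpe'
    rw [ha, List.mem_singleton] at hpe hpe'
    rw [hpe, hpe']
  unfold inst
  rw [List.mem_map]
  rcases hv with hv | hv
  · obtain ⟨k, hk, rfl⟩ := List.getElem_of_mem hv
    obtain ⟨pe', hpe', hk'⟩ := hc.base k (hβ ▸ hk)
    rw [huniq pe' hpe'] at hk'
    refine ⟨k, hk', ?_⟩
    rw [List.getD_append _ _ _ _ hk, List.getD_eq_getElem _ _ hk]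
  · obtain ⟨k, hk, hpk⟩ := hc.new pe hpe
    have hlt := hc.lt pe hpe k hk
    have hkp : k = p' := by omega
    obtain ⟨w, hw⟩ := List.length_eq_one_iff.1 hν
    rw [hw, List.mem_singleton] at hv
    refine ⟨k, hk, ?_⟩
    rw [hw, hkp, ← hβ, List.getD_append_right _ _ _ _ le_rfl, Nat.sub_self, hv]
    rfl

/-- one new point, base with a new vertex: every edge contains the base, so all edges are new -/
theorem caseB1 (S : Sit G m m' t₀ i₀ Y Y' W h p q pat β ω r s) {p' : ℕ} {pat' : List Edge} {β₁ : List ℕ}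
    {νs : List (List ℕ)} (hc : Code p' 1 pat') (ho : Over (XL G s q pat (β.map h)) p' 1 pat' β₁ νs)
    (hne : νs ≠ []) (hb : ∃ v ∈ β₁, nn G s ≤ v) :
    (∀ v ∈ β₁, Ins Y' (nn G s) q v) ∧ (∀ ν ∈ νs, ∀ v ∈ ν, Ins Y' (nn G s) q v) ∧
      ∀ ν ∈ νs, ∀ e, ImgE (XL G s q pat (β.map h)) pat' β₁ ν e → e ∈ XN G s q pat (β.map h) := by
  obtain ⟨hlen, hall, -⟩ := ho
  have hXN : ∀ ν ∈ νs, ∀ e, ImgE (XL G s q pat (β.map h)) pat' β₁ ν e →
      e ∈ XN G s q pat (β.map h) := by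
    rintro ν hν e ⟨pe, hpe, hl, he⟩
    obtain ⟨v, hv, hvn⟩ := hb
    refine (xn_iff S hl.1).1.2 ⟨v, ?_, hvn⟩
    rw [he]
    exact XJ2_mem hc hlen (hall ν hν).1 hpe (Or.inl hv)
  have hins : ∀ ν ∈ νs, ∀ v, v ∈ β₁ ∨ v ∈ ν → Ins Y' (nn G s) q v := by
    intro ν hν v hv
    obtain ⟨hνl, -, es, -, hF⟩ := hall ν hν
    obtain ⟨pe, hpat⟩ := List.length_eq_one_iff.1 hc.len
    have hpe : pe ∈ pat' := by rw [hpat]; exact List.mem_singleton.2 rfl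
    rw [hpat, List.forall₂_cons_left_iff] at hF
    obtain ⟨e, -, ⟨hl, he⟩, -, -⟩ := hF
    have h1 := hXN ν hν e ⟨pe, hpe, hl, he⟩
    have h2 : v ∈ e.2 := by
      rw [he]
      exact XJ2_mem hc hlen hνl hpe hv
    rcases (xn_iff S hl.1).2.2 h1 v h2 with h3 | h3
    · left
      obtain ⟨y, hy, rfl⟩ := List.mem_map.1 h3
      exact S.iso.bij.mapsTo (S.bY y hy)
    · exact Or.inr h3
  obtain ⟨ν0, hν0⟩ := List.exists_mem_of_ne_nil _ hne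
  exact ⟨fun v hv => hins ν0 hν0 v (Or.inl hv), fun ν hν v hv => hins ν hν v (Or.inr hv), hXN⟩

end FdZ
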