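import Pool.Agent.Lib.MP_fd2900_lc.Z.XG2
import Pool.Agent.Lib.MP_fd2900_lc.Z.XJ1
import Pool.Agent.Lib.MP_fd2900_lc.Z.XJ2

/-! no violation -/

namespace FdZ

variable {G : Guide} {m m' t₀ : ℕ} {i₀ : ℕ → ℕ} {Y Y' W : Finset ℕ} {h : ℕ → ℕ} {p q : ℕ}
  {pat : List Edge} {β ω : List ℕ} {r s : ℕ}

private theorem XJ3_lab_mono {io : ℕ → ℕ → ℕ} {E E' : Set Edge} (h : ∀ e, e ∈ E → e ∈ E')
    {V : ℕ → Prop} {ℓ : Lb} {e : Edge} (he : lab io E V ℓ e) : lab io E' V ℓ e := by
  obtain ⟨h1, h2⟩ := he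
  refine ⟨h _ h1, ?_⟩
  rcases h2 with h2 | h2 | ⟨j, r, x, y, c, h2, h3, h4, h5⟩
  · exact Or.inl h2
  · exact Or.inr (Or.inl h2)
  · exact Or.inr (Or.inr ⟨j, r, x, y, c, h2, h3, h _ h4, h5⟩)

/-- no violation. Cases: some member new: `new_in`, `cont_all`, `fin_contra`; no member new, base with a new vertex:
`q' = 1`: `caseB1`, `fin_contra`; `q' ≠ 1`: `some_out` gives a new member; base old: all members old by `dich`, so the
violation is one of `DD G s`, against `nviol` (`viol_mono`, `mem_DD`) -/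
theorem sit_nv (S : Sit G m m' t₀ i₀ Y Y' W h p q pat β ω r s) : ¬ Viol (XL G s q pat (β.map h)) := by
  rintro ⟨p', q', pat', β₁, νs, hc, ho, hl⟩
  have hstr : ∀ k, Strong (XL G s q pat (β.map h)) (Set.Iio (nn G s)) k := fun k =>
    pre_strong (sit_old S) (sit_pre S) (vw G.le s) k
  have hne : νs ≠ [] := by
    rintro rfl
    simp at hl
  by_cases hnew : ∃ ν₀ ∈ νs, ∀ v ∈ ν₀, nn G s ≤ v
  · obtain ⟨ν₀, h0, hn⟩ := hnew
    have h1 := cont_all S hc ho h0 hn
    have h2 := (new_in S hc ho.1 (ho.2.1 ν₀ h0).1 (ho.2.1 ν₀ h0).2 hn).1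
    refine fin_contra S hc ho hl (fun v hv => ?_) h1 (Or.inl ⟨ν₀, h0, hn⟩)
    rcases h2 v hv with h3 | h3
    · exact Or.inl ((sit_base S).2.2.1 v h3)
    · exact Or.inr h3
  · by_cases hb : ∃ v ∈ β₁, nn G s ≤ v
    · by_cases hq : q' = 1
      · subst hq
        obtain ⟨h1, h2, h3⟩ := caseB1 S hc ho hne hb
        exact fin_contra S hc ho hl h1 h2 (Or.inr h3)
      · obtain ⟨ν, hν, h1⟩ := some_out hstr hc ho (by
          obtain ⟨v, hv, hv'⟩ := hb
          refine ⟨v, hv, ?_⟩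
          simpa using hv') hl hq
        apply hnew
        refine ⟨ν, hν, fun v hv => ?_⟩
        have := h1 v hv
        simpa using this
    · have hb' : ∀ v ∈ β₁, v < nn G s := by
        intro v hv
        by_contra hlt
        exact hb ⟨v, hv, not_lt.1 hlt⟩
      have hin : ∀ ν ∈ νs, ∀ v ∈ ν, v < nn G s := by
        intro ν hν
        rcases dich (hstr q') le_rfl hc ho.1 (ho.2.1 ν hν).1 (ho.2.1 ν hν).2
          (fun v hv => by simpa using hb' v hv) with h1 | h1
        · intro v hv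
          have := h1 v hv
          simpa using this
        · exfalso
          apply hnew
          refine ⟨ν, hν, fun v hv => ?_⟩
          have := h1 v hv
          simpa using this
      have hv1 : Viol (lab G.io (es (DD G s)) (vw G.le s)) := by
        refine ⟨p', q', pat', β₁, νs, hc, ⟨ho.1, fun ν hν => ⟨(ho.2.1 ν hν).1, ?_⟩, ho.2.2⟩, hl⟩
        exact pre_real_old (sit_old S) (sit_pre S) hc ho.1 (ho.2.1 ν hν).1 (ho.2.1 ν hν).2
          hb' (hin ν hν)
      exact nviol s (vw G.le s) (view_s s)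
        (viol_mono (fun ℓ e he => XJ3_lab_mono (fun e he => (mem_DD.1 he).1) he) hv1)

end FdZ
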