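import Pool.Agent.Lib.MP_fd2900_lc.Z.XJ3
import Pool.Agent.Lib.MP_fd2900_lc.Z.XE3

/-! the request is carried out -/

namespace FdZ

variable {G : Guide} {m m' t₀ : ℕ} {i₀ : ℕ → ℕ} {Y Y' W : Finset ℕ} {h : ℕ → ℕ} {p q : ℕ}
  {pat : List Edge} {β ω : List ℕ} {r s : ℕ}

private theorem XJ4_ok (S : Sit G m m' t₀ i₀ Y Y' W h p q pat β ω r s) :
    Ok G.le G.io s (nn G s) (DD G s) p q pat (β.map h) := by
  have hp := sit_pre S
  obtain ⟨hb1, hb2, hb3, hb4, hb5, hb6⟩ := sit_base S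
  refine ⟨hp.code, hp.len, hp.nd, hp.lt, hp.kinds, ?_, ?_, ?_, sit_legal S, sit_nv S⟩
  · intro j k₁ k₂ k₃ hpe hk
    exact (c_new S hpe hk).1
  · intro j k₁ k₂ k₃ hpe h1 h2
    obtain ⟨a, ha, har, hF, hj, hm⟩ := c_old S hpe h1 h2
    have hx : (β.map h).getD k₁ 0 < nn G r := hb4 _ (getD_mem (by rw [hb1]; exact h1))
    have hy : (β.map h).getD k₂ 0 < nn G r := hb4 _ (getD_mem (by rw [hb1]; exact h2))
    rw [fnode_old S hx hy ha hF]
    rfl
  · refine List.Nodup.map_on ?_ (sit_ent S).2.1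
    intro pe hpe pe' hpe' he
    exact xm_inj S hpe hpe' he

/-- the request is carried out -/
theorem sit_ok (S : Sit G m m' t₀ i₀ Y Y' W h p q pat β ω r s) (hrq : rq G s = ((p, q), pat, β.map h)) :
    OkS G s := by
  unfold OkS
  rw [hrq]
  exact XJ4_ok S

/-- the new vertices are a realization over `β.map h` in the limit (`kept`), outside `Y'`: contradiction with `hno` -/
theorem sit_false (S : Sit G m m' t₀ i₀ Y Y' W h p q pat β ω r s) (hrq : rq G s = ((p, q), pat, β.map h)) :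
    False := by
  have hok := sit_ok S hrq
  obtain ⟨hb1, hb2, hb3, hb4, hb5, hb6⟩ := sit_base S
  have hb : ∀ v ∈ (rq G s).2.2, v < nn G r := by
    rw [hrq]
    exact hb4
  have hkept := kept S.late le_rfl S.tps hok hb
  have hNE : NE G s = XN G s q pat (β.map h) := by
    unfold NE XN
    rw [hrq]
  have hfe : ∀ pe ∈ pat, XM G s q (β.map h) pe ∈ FE G := by
    intro pe hpe
    apply hkept
    rw [hNE]
    exact mem_xn.2 ⟨pe, hpe, rfl⟩
  have hq := S.code.qpos
  have hxs := xs_getD S (k := p) (by omega)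
  have hreal : Real (vl (visE G m m')) pat (β.map h) (List.range' (nn G s) q) := by
    rw [real_vl S.code hb1 List.length_range']
    refine ⟨hxs.2.2.1, (sit_ent S).2.1, ?_⟩
    intro pe hpe
    have hF := hfe pe hpe
    obtain ⟨h2, hc⟩ := xm_cases S hpe
    change (pe.1, inst (XS G s q (β.map h)) pe.2) ∈ visE G m m'
    rcases hc with ⟨⟨j, hj, h1⟩, h3⟩ | ⟨⟨j, i, hj, hi, h1⟩, h3⟩ | ⟨⟨j, hj, h1⟩, h3⟩ | ⟨h1, h3⟩ |
      ⟨j, k₁, k₂, k₃, hj, h1, hc⟩
    · have he : XM G s q (β.map h) pe = (pe.1, inst (XS G s q (β.map h)) pe.2) := Prod.ext h3 h2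
      rw [he] at hF
      exact Or.inl ⟨⟨j, hj, h1⟩, hF⟩
    · have he : XM G s q (β.map h) pe = (pe.1, inst (XS G s q (β.map h)) pe.2) := Prod.ext h3 h2
      rw [he] at hF
      exact Or.inr (Or.inl ⟨⟨j, i, hj, hi, h1⟩, hF⟩)
    · have he : XM G s q (β.map h) pe = (pe.1, inst (XS G s q (β.map h)) pe.2) := Prod.ext h3 h2
      rw [he] at hF
      exact Or.inr (Or.inr (Or.inl ⟨⟨j, hj, h1⟩, hF⟩))
    · have he : XM G s q (β.map h) pe = ((3, [s]), inst (XS G s q (β.map h)) pe.2) := Prod.ext h3 h2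
      rw [he] at hF
      exact Or.inr (Or.inr (Or.inr (Or.inl ⟨h1, s, S.tps, hF⟩)))
    · subst h1
      rcases hc with ⟨-, h3, hm, -, -, hFp⟩ | ⟨hk1, hk2, a, ha, har, hFa, h3, hm⟩
      · have he : XM G s q (β.map h) ((4, [j]), [k₁, k₂, k₃]) =
            ((1, [j, G.io j s]), inst (XS G s q (β.map h)) [k₁, k₂, k₃]) := Prod.ext h3 h2
        rw [he] at hF
        have hF2 := hfe _ hFp
        obtain ⟨h2', hc'⟩ := xm_cases S hFp
        have h3' : (XM G s q (β.map h) ((3, []), [k₁, k₂])).1 = (3, [s]) := by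
          rcases hc' with ⟨⟨j, hj, h1⟩, h3⟩ | ⟨⟨j, i, hj, hi, h1⟩, h3⟩ | ⟨⟨j, hj, h1⟩, h3⟩ | ⟨h1, h3⟩ |
            ⟨j, k₁, k₂, k₃, hj, h1, hc⟩
          · exact absurd (congrArg Prod.fst h1) (by norm_num)
          · exact absurd (congrArg Prod.fst h1) (by norm_num)
          · exact absurd (congrArg Prod.fst h1) (by norm_num)
          · exact h3
          · exact absurd (congrArg (fun e : Edge => e.1.1) h1) (by norm_num)
        have he' : XM G s q (β.map h) ((3, []), [k₁, k₂]) =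
            ((3, [s]), inst (XS G s q (β.map h)) [k₁, k₂]) := Prod.ext h3' h2'
        rw [he'] at hF2
        refine Or.inr (Or.inr (Or.inr (Or.inr ⟨j, s, (XS G s q (β.map h)).getD k₁ 0,
          (XS G s q (β.map h)).getD k₂ 0, (XS G s q (β.map h)).getD k₃ 0, hj, rfl, S.tps, hF2, hm, hF⟩)))
      · have he : XM G s q (β.map h) ((4, [j]), [k₁, k₂, k₃]) =
            ((1, [j, G.io j a]), inst (XS G s q (β.map h)) [k₁, k₂, k₃]) := Prod.ext h3 h2
        rw [he] at hF
        have e1 : (XS G s q (β.map h)).getD k₁ 0 = (β.map h).getD k₁ 0 :=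
          getD_base (by rw [hb1]; exact hk1)
        have e2 : (XS G s q (β.map h)).getD k₂ 0 = (β.map h).getD k₂ 0 :=
          getD_base (by rw [hb1]; exact hk2)
        rw [← e1, ← e2] at hFa
        refine Or.inr (Or.inr (Or.inr (Or.inr ⟨j, a, (XS G s q (β.map h)).getD k₁ 0,
          (XS G s q (β.map h)).getD k₂ 0, (XS G s q (β.map h)).getD k₃ 0, hj, rfl, ha, hFa, hm, hF⟩)))
  have hin := S.hno _ List.length_range' hreal (nn G s) (by
    rw [List.mem_range'_1]
    omega)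
  have := S.yr _ hin
  omega

end FdZ
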